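import Mathlib

/-! Erdos-Kac law for integer parts of real polynomials, part L1: this file joins several modules to save build time. -/

section S_H67_GT_Base

/-!
# Granville's refinement of Cramér's model (MP_028722_nt): definitions of the statement
-/

set_option autoImplicit false

namespace Pool.Agent.H67.GT

open MeasureTheory Filter ProbabilityTheory

/-- The primes `p ≤ z` lying in `P`. -/
noncomputable def prs (P : Set ℕ) (z : ℕ) : Finset ℕ := by
  classical exact (Finset.Icc 1 z).filter (fun p => p.Prime ∧ p ∈ P)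

/-- The sieve product `∏_{p ≤ z, p ∈ P} (1 - 1/p)`. -/
noncomputable def V (P : Set ℕ) (z : ℕ) : ℝ := ∏ p ∈ prs P z, (1 - 1 / (p : ℝ))

/-- `n` has no prime factor `≤ t`. -/
def Rough (t n : ℕ) : Prop := ∀ p : ℕ, p.Prime → p ≤ t → ¬ p ∣ n

/-- The probability with which `n` is selected in Granville's model with sieving level `T`:
`1 / (V(T n) log n)` if `n` has no prime factor `≤ T n`, where `V(z) = ∏_{p ≤ z} (1 - 1/p)`,
and `0` otherwise. -/
noncomputable def wt (T : ℕ → ℕ) (n : ℕ) : ℝ := by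
  classical exact if Rough (T n) n then 1 / (V Set.univ (T n) * Real.log n) else 0

/-- `GModel T μ A`: the events `A n` (`n` is selected) are independent and, for all large `n`,
`A n` has probability `wt T n`. -/
structure GModel (T : ℕ → ℕ) {Ω : Type*} [MeasurableSpace Ω] (μ : Measure Ω) (A : ℕ → Set Ω) :
    Prop where
  meas : ∀ n, MeasurableSet (A n)
  indep : iIndepSet A μ
  prob : ∀ᶠ n in atTop, μ (A n) = ENNReal.ofReal (wt T n)

/-- The random set of selected integers. -/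
def rset {Ω : Type*} (A : ℕ → Set Ω) (ω : Ω) : Set ℕ := {n | 3 ≤ n ∧ ω ∈ A n}

/-- The normalised gap `(s_{j+1} - s_j) / (log s_j)^2` between consecutive elements of `S`. -/
noncomputable def gapRatio (S : Set ℕ) (j : ℕ) : ℝ :=
  ((Nat.nth (· ∈ S) (j + 1) : ℝ) - (Nat.nth (· ∈ S) j : ℝ)) / (Real.log (Nat.nth (· ∈ S) j)) ^ 2

/-- `limsup (s_{j+1} - s_j) / (log s_j)^2`. -/
noncomputable def limsupRatio (S : Set ℕ) : EReal :=
  limsup (fun j : ℕ => ((gapRatio S j : ℝ) : EReal)) atTop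

/-- `T(n) = n^{o(1)}`, that is `log T(n) = o(log n)`. -/
def SubPoly (T : ℕ → ℕ) : Prop :=
  Tendsto (fun n : ℕ => Real.log (T n) / Real.log n) atTop (nhds 0)

/-- `T(n) = (log n)^{o(1)}`, that is `log T(n) = o(log log n)`. -/
def SubLog (T : ℕ → ℕ) : Prop :=
  Tendsto (fun n : ℕ => Real.log (T n) / Real.log (Real.log n)) atTop (nhds 0)

end Pool.Agent.H67.GT

end S_H67_GT_Base

section S_H67_GT_Defs

/-!
# Granville's refinement of Cramér's model: definitions (helper67, MP_028722_nt)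
-/

set_option autoImplicit false

namespace Pool.Agent.H67.GT

open Finset

/-- `n` avoids the residue class `r p mod p` for all primes `p ≤ z` in `P`. -/
def Sifted (P : Set ℕ) (r : ℕ → ℤ) (z : ℕ) (n : ℤ) : Prop :=
  ∀ p ∈ prs P z, ¬ n ≡ r p [ZMOD p]

/-- The number of sifted integers in `(a, a + H]`. -/
noncomputable def S (P : Set ℕ) (r : ℕ → ℤ) (z : ℕ) (a : ℤ) (H : ℕ) : ℕ := by
  classical exact ((Finset.Ioc a (a + H)).filter (Sifted P r z)).card

/-- Fundamental lemma of the sieve for intervals, one residue class per prime, any rate `A`. -/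
def FL : Prop := ∀ A : ℝ, 1 ≤ A → ∃ (u0 : ℝ) (z0 : ℕ), 1 ≤ u0 ∧ 3 ≤ z0 ∧
  ∀ (P : Set ℕ) (r : ℕ → ℤ) (z : ℕ) (a : ℤ) (H : ℕ), z0 ≤ z →
    u0 * Real.log z ≤ Real.log H →
    |(S P r z a H : ℝ) - V P z * H| ≤
      Real.exp (-A * (Real.log H / Real.log z - u0)) * (V P z * H)

/-- Two-sided first theorem of Mertens and the crude form of the third one. -/
def Mert : Prop := ∃ c : ℝ, 1 ≤ c ∧
  (∀ w z : ℝ, 1 ≤ w → w ≤ z →
    ∑ p ∈ (Finset.Icc 1 ⌊z⌋₊).filter (fun p : ℕ => p.Prime ∧ w < p), Real.log p / p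
      ≤ Real.log (z / w) + c) ∧
  (∀ w z : ℝ, 1 ≤ w → w ≤ z →
    Real.log (z / w) - c ≤
      ∑ p ∈ (Finset.Icc 1 ⌊z⌋₊).filter (fun p : ℕ => p.Prime ∧ w < p), Real.log p / p) ∧
  (∀ (P : Set ℕ) (w z : ℕ), 2 ≤ w → w ≤ z →
    V P w ≤ c * (Real.log z / Real.log w) * V P z) ∧
  (∀ (P : Set ℕ) (z : ℕ), 2 ≤ z → 1 / (c * Real.log z) ≤ V P z) ∧
  (∀ (z : ℕ), 2 ≤ z → V Set.univ z * Real.log z ≤ c)

/-- indicator of `z`-rough numbers minus its mean -/
noncomputable def cc (z n : ℕ) : ℝ :=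
  (if n.Coprime (primorial z) then 1 else 0) - V Set.univ z

/-- The Euler factor product `∏_{p ≤ z} (1 - p^(-s))`. -/
noncomputable def PiZ (z : ℕ) (s : ℂ) : ℂ := ∏ p ∈ prs Set.univ z, (1 - (p : ℂ) ^ (-s))

/-- The Dirichlet series of `cc z` in the half plane `Re s > 0`. -/
def DSer : Prop := ∃ C : ℝ, ∀ s : ℂ, 1 / 2 ≤ s.re → s.re < 1 → ‖s‖ ≤ 2 → ∃ c0 : ℂ,
  ‖c0 + 1 / (1 - s)‖ ≤ C ∧
  (s.im = 0 → c0.im = 0 ∧ -(1 / (1 - s.re)) ≤ c0.re ∧ c0.re ≤ 0) ∧
  ∀ z : ℕ, Filter.Tendsto (fun X : ℕ => ∑ n ∈ Finset.Icc 1 X, (cc z n : ℂ) * (n : ℂ) ^ (-s))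
    Filter.atTop (nhds (c0 * (PiZ z s - (V Set.univ z : ℂ))))

/-- Lower bound for the Euler product at `1 - (x + iπ) / log z`. -/
def ProdLB : Prop := ∀ x : ℝ, 1 ≤ x → ∃ z1 : ℕ, ∀ z : ℕ, z1 ≤ z →
  V Set.univ z * Real.exp (0.14 * Real.exp (3 * x / 4) - x * Real.exp (x / 2) - 6) ≤
    ‖PiZ z (1 - (x + Real.pi * Complex.I) / Real.log z)‖

/-- Intervals of length `H ≤ z^u` with few `z`-rough numbers. -/
def Deficit : Prop := ∀ u : ℝ, 1 ≤ u → ∃ κ : ℝ, 0 < κ ∧ κ < 1 ∧ ∃ z1 : ℕ, ∀ z : ℕ, z1 ≤ z →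
  ∀ H : ℕ, 1 ≤ H → (H : ℝ) ≤ (z : ℝ) ^ u → ∃ a : ℕ,
    (S Set.univ (fun _ => 0) z a H : ℝ) ≤ (1 - κ) * (V Set.univ z * H)

/-- The expected number of gap starts: `w_n ∏_{1 ≤ j ≤ C log² n} (1 - w_{n+j})`. -/
noncomputable def gapTerm (T : ℕ → ℕ) (C : ℝ) (n : ℕ) : ℝ :=
  wt T n * ∏ j ∈ Finset.Icc 1 ⌊C * Real.log n ^ 2⌋₊, (1 - wt T (n + j))

/-- Convergence: `C > 1` and level at most `(log n)^α`. -/
def UpperSide : Prop := ∀ C : ℝ, 1 < C → ∃ α : ℝ, 0 < α ∧ ∀ T : ℕ → ℕ, Monotone T →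
  (∀ᶠ n : ℕ in Filter.atTop, (T n : ℝ) ≤ (Real.log n) ^ α) → Summable (gapTerm T C)

/-- Divergence from intervals with few survivors. -/
def LowerSide : Prop := ∀ (T : ℕ → ℕ) (κ C : ℝ), Monotone T →
  Filter.Tendsto (fun n : ℕ => Real.log (T n) / Real.log n) Filter.atTop (nhds 0) →
  0 ≤ κ → κ < 1 → 0 < C → C * (1 - κ) < 1 →
  (∀ ε : ℝ, 0 < ε → ∃ᶠ N : ℕ in Filter.atTop, ∃ T0 a0 : ℕ, T0 ≤ T N ∧ (T0 : ℝ) ≤ ε * Real.log N ∧
    (S Set.univ (fun _ => 0) T0 a0 (⌊C * Real.log (4 * N) ^ 2⌋₊ + 1) : ℝ) ≤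
      (1 - κ) * (V Set.univ T0 * ((⌊C * Real.log (4 * N) ^ 2⌋₊ + 1 : ℕ) : ℝ))) →
  ¬ Summable (gapTerm T C)

end Pool.Agent.H67.GT

end S_H67_GT_Defs

section S_H93_DC_Smooth

/-! Mertens type products and sums over smooth numbers. -/

namespace Pool.Agent.H93.DC

open Finset Nat

/-- the power function as a monoid hom -/
noncomputable def pw (s : ℝ) : ℕ →* ℝ where
  toFun m := (m : ℝ) ^ (-s)
  map_one' := by simp
  map_mul' m n := by
    push_cast
    exact Real.mul_rpow (Nat.cast_nonneg _) (Nat.cast_nonneg _)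

lemma pw_apply (s : ℝ) (m : ℕ) : pw s m = (m : ℝ) ^ (-s) := rfl

lemma pw_nonneg (s : ℝ) (m : ℕ) : 0 ≤ pw s m := by
  rw [pw_apply]; positivity

lemma pw_prime_lt {s : ℝ} (hs : 0 < s) {p : ℕ} (hp : p.Prime) : ‖pw s p‖ < 1 := by
  rw [pw_apply, Real.norm_of_nonneg (by positivity)]
  apply Real.rpow_lt_one_of_one_lt_of_neg
  · exact_mod_cast hp.one_lt
  · linarith

lemma smooth_sum_le {s : ℝ} (hs : 0 < s) (Y : ℕ) (S : Finset ℕ) (hS : ∀ m ∈ S, m ∈ Y.smoothNumbers) :
    ∑ m ∈ S, (m : ℝ) ^ (-s) ≤ ∏ p ∈ Y.primesBelow, (1 - (p : ℝ) ^ (-s))⁻¹ := by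
  classical
  have h := EulerProduct.summable_and_hasSum_smoothNumbers_prod_primesBelow_geometric
    (f := pw s) (fun {p} hp => pw_prime_lt hs hp) Y
  have h1 := sum_le_hasSum (S.subtype (fun m => m ∈ Y.smoothNumbers)) (fun i _ => pw_nonneg s i) h.2
  have h2 : ∑ i ∈ S.subtype (fun m => m ∈ Y.smoothNumbers), pw s (i : ℕ) = ∑ m ∈ S, pw s m := by
    rw [Finset.sum_subtype_eq_sum_filter (f := fun m : ℕ => pw s m), Finset.filter_true_of_mem hS]
  rw [h2] at h1
  exact h1

/-- the Mertens product (inverse) -/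
noncomputable def MP (Y : ℕ) : ℝ := ∏ p ∈ Y.primesBelow, (1 - (p : ℝ)⁻¹)⁻¹

lemma one_sub_inv_pos {p : ℕ} (hp : p.Prime) : (0 : ℝ) < 1 - (p : ℝ)⁻¹ := by
  have : (1 : ℝ) < p := by exact_mod_cast hp.one_lt
  have := inv_lt_one_of_one_lt₀ this
  linarith

lemma MP_pos (Y : ℕ) : 0 < MP Y := by
  apply Finset.prod_pos
  intro p hp
  exact inv_pos.mpr (one_sub_inv_pos (Nat.prime_of_mem_primesBelow hp))

lemma rpow_neg_one' (x : ℝ) : x ^ (-1 : ℝ) = x⁻¹ := Real.rpow_neg_one x

lemma smooth_sum_inv_le (Y : ℕ) (S : Finset ℕ) (hS : ∀ m ∈ S, m ∈ Y.smoothNumbers) :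
    ∑ m ∈ S, (m : ℝ)⁻¹ ≤ MP Y := by
  have := smooth_sum_le one_pos Y S hS
  simpa [rpow_neg_one', MP] using this

lemma log_le_MP {Y : ℕ} (hY : 1 ≤ Y) : Real.log Y ≤ MP Y := by
  have h1 := smooth_sum_inv_le Y (Icc 1 (Y - 1)) (by
    intro m hm
    rw [Finset.mem_Icc] at hm
    exact Nat.mem_smoothNumbers_of_lt (by omega) (by omega))
  have h2 := log_add_one_le_harmonic (Y - 1)
  rw [harmonic_eq_sum_Icc] at h2
  push_cast at h2
  have h3 : ((Y - 1 : ℕ) : ℝ) + 1 = Y := by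
    have : Y - 1 + 1 = Y := by omega
    exact_mod_cast this
  rw [h3] at h2
  exact h2.trans h1

lemma one_add_zeta {s : ℝ} (hs : 1 < s) : Summable (fun n : ℕ => pw s n) ∧ ∑' n : ℕ, pw s n ≤ 1 + 1 / (s - 1) := by
  have hsum : Summable (fun n : ℕ => pw s n) := by
    have := Real.summable_one_div_nat_rpow.mpr hs
    refine this.congr (fun n => ?_)
    rw [pw_apply, Real.rpow_neg (Nat.cast_nonneg _), one_div]
  refine ⟨hsum, ?_⟩
  rw [hsum.tsum_eq_zero_add]
  have h0 : pw s 0 = 0 := by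
    rw [pw_apply, Nat.cast_zero, Real.zero_rpow]
    linarith
  rw [h0, zero_add]
  have h1 := ZetaAsymptotics.zeta_limit_aux1 hs
  have h2 : 0 ≤ ZetaAsymptotics.termTSum s := by
    unfold ZetaAsymptotics.termTSum
    exact tsum_nonneg (fun n => ZetaAsymptotics.term_nonneg _ _)
  have h3 : ∑' n : ℕ, pw s (n + 1) = ∑' n : ℕ, 1 / ((n : ℝ) + 1) ^ s := by
    congr 1; ext n
    rw [pw_apply, Real.rpow_neg (Nat.cast_nonneg _), one_div]
    push_cast; rfl
  rw [h3]
  have h4 : 0 ≤ s * ZetaAsymptotics.termTSum s := by positivity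
  linarith

lemma prod_le_zeta {s : ℝ} (hs : 1 < s) (Y : ℕ) :
    ∏ p ∈ Y.primesBelow, (1 - (p : ℝ) ^ (-s))⁻¹ ≤ 1 + 1 / (s - 1) := by
  obtain ⟨h1, h2⟩ := one_add_zeta hs
  have h3 := EulerProduct.prod_primesBelow_geometric_eq_tsum_smoothNumbers (f := pw s) h1 Y
  have h4 : ∑' m : Y.smoothNumbers, pw s m ≤ ∑' n : ℕ, pw s n :=
    Summable.tsum_subtype_le (fun n => pw s n) Y.smoothNumbers (fun n => pw_nonneg s n) h1
  rw [← h3] at h4
  exact h4.trans h2

/-- Chebyshev type bound, the easy half of Mertens' first theorem. -/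
lemma mertens_upper {n : ℕ} (hn : 1 ≤ n) :
    ∑ p ∈ (n + 1).primesBelow, Real.log p / p ≤ Real.log n + 2 := by
  have hn0 : (0 : ℝ) < n := by exact_mod_cast hn
  have hfac : ∀ p ∈ (n + 1).primesBelow, ((n : ℝ) / p - 1) * Real.log p ≤ ((n !).factorization p : ℝ) * Real.log p := by
    intro p hp
    have hpp := Nat.prime_of_mem_primesBelow hp
    have hp1 : (1 : ℝ) ≤ p := by exact_mod_cast hpp.one_lt.le
    apply mul_le_mul_of_nonneg_right _ (Real.log_nonneg hp1)
    have h1 : n / p ≤ (n !).factorization p := by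
      rw [Nat.factorization_factorial hpp (b := Nat.log p n + 2) (by omega)]
      have := Finset.single_le_sum (f := fun i => n / p ^ i) (s := Ico 1 (Nat.log p n + 2))
        (fun i _ => Nat.zero_le _) (a := 1) (by simp)
      simpa using this
    have h2 : (n : ℝ) / p - 1 ≤ ((n / p : ℕ) : ℝ) := by
      have := Nat.lt_succ_floor ((n : ℝ) / p)
      rw [Nat.floor_div_eq_div] at this
      push_cast at this
      linarith
    exact h2.trans (by exact_mod_cast h1)
  have hlog : Real.log (n ! : ℕ) = ∑ p ∈ (n + 1).primesBelow, ((n !).factorization p : ℝ) * Real.log p := by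
    rw [Real.log_nat_eq_sum_factorization, Finsupp.sum]
    apply Finset.sum_subset
    · intro p hp
      rw [Nat.support_factorization, Nat.mem_primeFactors] at hp
      rw [Nat.mem_primesBelow]
      refine ⟨?_, hp.1⟩
      have := (Nat.Prime.dvd_factorial hp.1).mp hp.2.1
      omega
    · intro p _ hp
      rw [Finsupp.notMem_support_iff.mp hp]; simp
  have hle : Real.log (n ! : ℕ) ≤ n * Real.log n := by
    have h1 : ((n ! : ℕ) : ℝ) ≤ (n : ℝ) ^ n := by exact_mod_cast Nat.factorial_le_pow n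
    have h2 := Real.log_le_log (by exact_mod_cast Nat.factorial_pos n) h1
    rwa [Real.log_pow] at h2
  have hsum := Finset.sum_le_sum hfac
  rw [← hlog] at hsum
  have htheta : ∑ p ∈ (n + 1).primesBelow, Real.log p ≤ Real.log 4 * n := by
    have h1 := Chebyshev.theta_le_log4_mul_x (x := n) hn0.le
    refine le_trans (le_of_eq ?_) h1
    rw [Chebyshev.theta_eq_sum_primesLE_log]
    apply Finset.sum_congr _ (fun _ _ => rfl)
    ext p
    simp [Nat.mem_primesBelow, Nat.mem_primesLE]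
  have h5 : ∑ p ∈ (n + 1).primesBelow, ((n : ℝ) / p - 1) * Real.log p
      = n * ∑ p ∈ (n + 1).primesBelow, Real.log p / p - ∑ p ∈ (n + 1).primesBelow, Real.log p := by
    rw [Finset.mul_sum, ← Finset.sum_sub_distrib]
    refine Finset.sum_congr rfl fun p _ => ?_
    ring
  rw [h5] at hsum
  have hlog4 : Real.log 4 ≤ 2 := by
    have h1 : Real.log 4 = 2 * Real.log 2 := by
      rw [show (4 : ℝ) = 2 ^ 2 by norm_num, Real.log_pow]; push_cast; ring
    have := Real.log_two_lt_d9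
    rw [h1]; linarith
  have h6 : n * ∑ p ∈ (n + 1).primesBelow, Real.log p / p ≤ n * (Real.log n + 2) := by
    nlinarith
  exact le_of_mul_le_mul_left h6 hn0

lemma mertens_upper' {Y : ℕ} (hY : 2 ≤ Y) :
    ∑ p ∈ Y.primesBelow, Real.log p / p ≤ Real.log Y + 2 := by
  have h1 := mertens_upper (n := Y - 1) (by omega)
  have h2 : Y - 1 + 1 = Y := by omega
  rw [h2] at h1
  have h3 : Real.log ((Y - 1 : ℕ) : ℝ) ≤ Real.log Y := by
    apply Real.log_le_log
    · exact_mod_cast (by omega : 0 < Y - 1)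
    · exact_mod_cast (by omega : Y - 1 ≤ Y)
  linarith

/-- comparison of Euler factors -/
lemma factor_compare {a b : ℝ} (hab : a ≤ b) (hb : b < 1) :
    (1 - b)⁻¹ ≤ (1 - a)⁻¹ * Real.exp ((b - a) / (1 - b)) := by
  have h1 : 0 < 1 - b := by linarith
  have h2 : 0 < 1 - a := by linarith
  have h3 : (1 - a) / (1 - b) ≤ Real.exp ((b - a) / (1 - b)) := by
    have := Real.add_one_le_exp ((b - a) / (1 - b))
    have h4 : (1 - a) / (1 - b) = (b - a) / (1 - b) + 1 := by field_simp; ring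
    rw [h4]; exact this
  calc (1 - b)⁻¹ = (1 - a)⁻¹ * ((1 - a) / (1 - b)) := by field_simp
    _ ≤ _ := by gcongr

lemma MP_le {Y : ℕ} (hY : 3 ≤ Y) : MP Y ≤ 2 * Real.exp 6 * Real.log Y := by
  have hlog1 : 1 ≤ Real.log Y := by
    have h1 : Real.exp 1 ≤ Y := by
      have := Real.exp_one_lt_d9
      have : (3 : ℝ) ≤ Y := by exact_mod_cast hY
      linarith
    have := Real.log_le_log (Real.exp_pos 1) h1
    rwa [Real.log_exp] at this
  set δ := 1 / Real.log Y with hδ
  have hδ0 : 0 < δ := by positivity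
  have hfac : ∀ p ∈ Y.primesBelow, (1 - (p : ℝ)⁻¹)⁻¹ ≤
      (1 - (p : ℝ) ^ (-(1 + δ)))⁻¹ * Real.exp (2 * δ * (Real.log p / p)) := by
    intro p hp
    have hpp := Nat.prime_of_mem_primesBelow hp
    have hp2 : (2 : ℝ) ≤ p := by exact_mod_cast hpp.two_le
    have hp0 : (0 : ℝ) < p := by linarith
    have hab : (p : ℝ) ^ (-(1 + δ)) ≤ (p : ℝ)⁻¹ := by
      rw [← Real.rpow_neg_one]
      apply Real.rpow_le_rpow_of_exponent_le (by linarith)
      linarith
    have hb : (p : ℝ)⁻¹ < 1 := inv_lt_one_of_one_lt₀ (by linarith)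
    refine (factor_compare hab hb).trans ?_
    have h1 : 0 < 1 - (p : ℝ) ^ (-(1 + δ)) := by linarith
    gcongr
    rw [div_le_iff₀ (by linarith)]
    have h2 : (p : ℝ)⁻¹ - (p : ℝ) ^ (-(1 + δ)) = (p : ℝ)⁻¹ * (1 - (p : ℝ) ^ (-δ)) := by
      rw [neg_add, Real.rpow_add hp0, Real.rpow_neg_one]; ring
    have h3 : 1 - (p : ℝ) ^ (-δ) ≤ δ * Real.log p := by
      rw [Real.rpow_def_of_pos hp0]
      have := Real.add_one_le_exp (Real.log p * -δ)
      linarith
    have h4 : (2 : ℝ)⁻¹ ≤ 1 - (p : ℝ)⁻¹ := by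
      have : (p : ℝ)⁻¹ ≤ 2⁻¹ := inv_anti₀ (by norm_num) hp2
      linarith
    have hlogp : 0 ≤ Real.log p := Real.log_nonneg (by linarith)
    rw [h2]
    calc (p : ℝ)⁻¹ * (1 - (p : ℝ) ^ (-δ)) ≤ (p : ℝ)⁻¹ * (δ * Real.log p) := by gcongr
      _ = 2 * δ * (Real.log p / p) * 2⁻¹ := by field_simp
      _ ≤ 2 * δ * (Real.log p / p) * (1 - (p : ℝ)⁻¹) := by gcongr
  have h1 : MP Y ≤ (∏ p ∈ Y.primesBelow, (1 - (p : ℝ) ^ (-(1 + δ)))⁻¹) *
      ∏ p ∈ Y.primesBelow, Real.exp (2 * δ * (Real.log p / p)) := by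
    rw [← Finset.prod_mul_distrib]
    apply Finset.prod_le_prod
    · intro p hp
      exact inv_nonneg.mpr (one_sub_inv_pos (Nat.prime_of_mem_primesBelow hp)).le
    · exact hfac
  have h2 := prod_le_zeta (s := 1 + δ) (by linarith) Y
  have h3 : 1 + 1 / (1 + δ - 1) = 1 + Real.log Y := by
    rw [hδ]; field_simp; ring
  rw [h3] at h2
  rw [← Real.exp_sum, ← Finset.mul_sum] at h1
  have h4 := mertens_upper' (show 2 ≤ Y by omega)
  have h5 : 2 * δ * ∑ p ∈ Y.primesBelow, Real.log p / p ≤ 6 := by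
    calc _ ≤ 2 * δ * (Real.log Y + 2) := by gcongr
      _ = 2 + 4 * δ := by rw [hδ]; field_simp; ring
      _ ≤ 6 := by
        have : δ ≤ 1 := by rw [hδ, div_le_one (by linarith)]; exact hlog1
        linarith
  have h6 : (0:ℝ) ≤ ∏ p ∈ Y.primesBelow, (1 - (p : ℝ) ^ (-(1 + δ)))⁻¹ := by
    apply Finset.prod_nonneg
    intro p hp
    apply inv_nonneg.mpr
    have := pw_prime_lt (s := 1 + δ) (by linarith) (Nat.prime_of_mem_primesBelow hp)
    rw [pw_apply, Real.norm_of_nonneg (by positivity)] at this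
    linarith
  calc MP Y ≤ _ := h1
    _ ≤ (1 + Real.log Y) * Real.exp 6 := by gcongr
    _ ≤ 2 * Real.exp 6 * Real.log Y := by
      have := Real.exp_pos 6
      nlinarith

/-- Rankin's trick. -/
lemma rankin {Y : ℕ} (hY : 16 ≤ Y) {Z : ℝ} (hZ : 0 < Z) (S : Finset ℕ)
    (hS : ∀ m ∈ S, m ∈ Y.smoothNumbers ∧ Z ≤ m) :
    ∑ m ∈ S, (m : ℝ)⁻¹ ≤ Real.exp 16 * MP Y * Z ^ (-(1 / Real.log Y)) := by
  have hlogY : 2.5 ≤ Real.log Y := by
    have h1 : (16 : ℝ) ≤ Y := by exact_mod_cast hY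
    have h2 := Real.log_le_log (by norm_num) h1
    have h3 : Real.log 16 = 4 * Real.log 2 := by
      rw [show (16 : ℝ) = 2 ^ 4 by norm_num, Real.log_pow]; push_cast; ring
    have := Real.log_two_gt_d9
    rw [h3] at h2; linarith
  set δ := 1 / Real.log Y with hδ
  have hδ0 : 0 < δ := by positivity
  have hδ1 : δ ≤ 0.4 := by
    rw [hδ, div_le_iff₀ (by linarith)]; linarith
  have h1 : ∀ m ∈ S, (m : ℝ)⁻¹ ≤ Z ^ (-δ) * (m : ℝ) ^ (-(1 - δ)) := by
    intro m hm
    have hmZ := (hS m hm).2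
    have hm0 : (0 : ℝ) < m := by linarith
    have h2 : (m : ℝ) ^ (-(1 - δ)) = (m : ℝ)⁻¹ * (m : ℝ) ^ δ := by
      rw [← Real.rpow_neg_one, ← Real.rpow_add hm0]; congr 1; ring
    rw [h2]
    have h3 : 1 ≤ Z ^ (-δ) * (m : ℝ) ^ δ := by
      have h4 : Z ^ (-δ) * Z ^ δ = 1 := by rw [← Real.rpow_add hZ]; simp
      rw [← h4]
      gcongr
    have h5 : (0:ℝ) < (m : ℝ)⁻¹ := by positivity
    nlinarith
  have h2 : ∑ m ∈ S, (m : ℝ)⁻¹ ≤ Z ^ (-δ) * ∑ m ∈ S, (m : ℝ) ^ (-(1 - δ)) := by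
    rw [Finset.mul_sum]; exact Finset.sum_le_sum h1
  have h3 := smooth_sum_le (s := 1 - δ) (by linarith) Y S (fun m hm => (hS m hm).1)
  have hfac : ∀ p ∈ Y.primesBelow, (1 - (p : ℝ) ^ (-(1 - δ)))⁻¹ ≤
      (1 - (p : ℝ)⁻¹)⁻¹ * Real.exp (8 * δ * (Real.log p / p)) := by
    intro p hp
    have hpp := Nat.prime_of_mem_primesBelow hp
    have hpY : p < Y := Nat.lt_of_mem_primesBelow hp
    have hp2 : (2 : ℝ) ≤ p := by exact_mod_cast hpp.two_le
    have hp0 : (0 : ℝ) < p := by linarith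
    have hlogp : 0 ≤ Real.log p := Real.log_nonneg (by linarith)
    have hab : (p : ℝ)⁻¹ ≤ (p : ℝ) ^ (-(1 - δ)) := by
      rw [← Real.rpow_neg_one]
      apply Real.rpow_le_rpow_of_exponent_le (by linarith)
      linarith
    have hb34 : (p : ℝ) ^ (-(1 - δ)) ≤ 3 / 4 := by
      have e1 : (p : ℝ) ^ (-(1 - δ)) ≤ (2 : ℝ) ^ (-(1 - δ)) := by
        apply Real.rpow_le_rpow_of_nonpos (by norm_num) hp2
        linarith
      have e2 : (2 : ℝ) ^ (-(1 - δ)) ≤ (2 : ℝ) ^ (-(1 / 2 : ℝ)) := by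
        apply Real.rpow_le_rpow_of_exponent_le (by norm_num)
        linarith
      have e3 : (2 : ℝ) ^ (-(1 / 2 : ℝ)) ≤ 3 / 4 := by
        rw [Real.rpow_neg (by norm_num), ← Real.sqrt_eq_rpow]
        have : (4 / 3 : ℝ) ≤ Real.sqrt 2 := by
          apply Real.le_sqrt_of_sq_le; norm_num
        calc (Real.sqrt 2)⁻¹ ≤ (4 / 3 : ℝ)⁻¹ := inv_anti₀ (by norm_num) this
          _ = 3 / 4 := by norm_num
      linarith
    refine (factor_compare hab (by linarith)).trans ?_
    have h1 := one_sub_inv_pos hpp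
    gcongr
    rw [div_le_iff₀ (by linarith)]
    have h2 : (p : ℝ) ^ (-(1 - δ)) - (p : ℝ)⁻¹ = (p : ℝ)⁻¹ * ((p : ℝ) ^ δ - 1) := by
      have : -(1 - δ) = -1 + δ := by ring
      rw [this, Real.rpow_add hp0, Real.rpow_neg_one]; ring
    have hlogle : Real.log p * δ ≤ 1 := by
      rw [hδ]
      have : Real.log p ≤ Real.log Y := Real.log_le_log hp0 (by exact_mod_cast hpY.le)
      rw [mul_one_div, div_le_one (by linarith)]; exact this
    have h3 : (p : ℝ) ^ δ - 1 ≤ 2 * (δ * Real.log p) := by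
      rw [Real.rpow_def_of_pos hp0]
      have h0 : 0 ≤ Real.log p * δ := by positivity
      have habs := Real.abs_exp_sub_one_le (x := Real.log p * δ) (by rw [abs_of_nonneg h0]; exact hlogle)
      rw [abs_of_nonneg h0] at habs
      have := le_abs_self (Real.exp (Real.log p * δ) - 1)
      linarith
    rw [h2]
    calc (p : ℝ)⁻¹ * ((p : ℝ) ^ δ - 1) ≤ (p : ℝ)⁻¹ * (2 * (δ * Real.log p)) := by gcongr
      _ = 8 * δ * (Real.log p / p) * (1 / 4) := by field_simp; ring
      _ ≤ 8 * δ * (Real.log p / p) * (1 - (p : ℝ) ^ (-(1 - δ))) := by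
        gcongr; linarith
  have h4 : ∏ p ∈ Y.primesBelow, (1 - (p : ℝ) ^ (-(1 - δ)))⁻¹ ≤ MP Y *
      ∏ p ∈ Y.primesBelow, Real.exp (8 * δ * (Real.log p / p)) := by
    unfold MP
    rw [← Finset.prod_mul_distrib]
    apply Finset.prod_le_prod
    · intro p hp
      apply inv_nonneg.mpr
      have := pw_prime_lt (s := 1 - δ) (by linarith) (Nat.prime_of_mem_primesBelow hp)
      rw [pw_apply, Real.norm_of_nonneg (by positivity)] at this
      linarith
    · exact hfac
  rw [← Real.exp_sum, ← Finset.mul_sum] at h4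
  have h5 := mertens_upper' (show 2 ≤ Y by omega)
  have h6 : 8 * δ * ∑ p ∈ Y.primesBelow, Real.log p / p ≤ 16 := by
    calc _ ≤ 8 * δ * (Real.log Y + 2) := by gcongr
      _ = 8 + 16 * δ := by rw [hδ]; field_simp; ring
      _ ≤ 16 := by linarith
  have hMP := MP_pos Y
  have hZδ : 0 < Z ^ (-δ) := Real.rpow_pos_of_pos hZ _
  calc ∑ m ∈ S, (m : ℝ)⁻¹ ≤ Z ^ (-δ) * ∑ m ∈ S, (m : ℝ) ^ (-(1 - δ)) := h2
    _ ≤ Z ^ (-δ) * (MP Y * Real.exp (8 * δ * ∑ p ∈ Y.primesBelow, Real.log p / p)) := by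
        gcongr; exact h3.trans h4
    _ ≤ Z ^ (-δ) * (MP Y * Real.exp 16) := by gcongr
    _ = _ := by ring

/-- sum of reciprocals of primes -/
lemma sum_inv_primes_le (Y : ℕ) : ∑ p ∈ Y.primesBelow, (p : ℝ)⁻¹ ≤ Real.log (MP Y) := by
  unfold MP
  rw [Real.log_prod]
  · apply Finset.sum_le_sum
    intro p hp
    have h1 := one_sub_inv_pos (Nat.prime_of_mem_primesBelow hp)
    rw [Real.log_inv]
    have := Real.log_le_sub_one_of_pos h1
    linarith
  · intro p hp
    exact (inv_pos.mpr (one_sub_inv_pos (Nat.prime_of_mem_primesBelow hp))).ne'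

end Pool.Agent.H93.DC

end S_H93_DC_Smooth

section S_H67_GT_MERT

/-!
# Two-sided Mertens bounds (module MERT of MP_028722_G)
-/

set_option autoImplicit false

namespace Pool.Agent.H67.GT.MERT

open Finset Nat
open Pool.Agent.H93.DC (MP MP_pos MP_le log_le_MP mertens_upper one_sub_inv_pos)

/-- partial sum of `log p / p` -/
noncomputable def F (n : ℕ) : ℝ := ∑ p ∈ (n + 1).primesBelow, Real.log p / p

lemma F_eq (n : ℕ) : F n = ∑ p ∈ (Icc 1 n).filter (fun p : ℕ => p.Prime), Real.log p / p := by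
  unfold F
  refine Finset.sum_congr ?_ (fun _ _ => rfl)
  ext p
  simp only [Nat.mem_primesBelow, mem_filter, mem_Icc]
  constructor
  · rintro ⟨h1, h2⟩; exact ⟨⟨h2.one_lt.le, by omega⟩, h2⟩
  · rintro ⟨⟨_, h1⟩, h2⟩; exact ⟨by omega, h2⟩

/-- telescoping step -/
lemma tele {m : ℕ} (hm : 2 ≤ m) :
    Real.log m / ((m : ℝ) * (m - 1)) ≤
      (Real.log ((m - 1 : ℕ) : ℝ) + 2) / ((m - 1 : ℕ) : ℝ) - (Real.log m + 2) / m := by
  have hm2 : (2 : ℝ) ≤ m := by exact_mod_cast hm
  have hm1 : ((m - 1 : ℕ) : ℝ) = (m : ℝ) - 1 := by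
    rw [Nat.cast_sub (by omega)]; simp
  rw [hm1]
  have hpos : (0 : ℝ) < (m : ℝ) - 1 := by linarith
  have hpos2 : (0 : ℝ) < (m : ℝ) := by linarith
  have hlog : Real.log m - Real.log ((m : ℝ) - 1) ≤ 1 / ((m : ℝ) - 1) := by
    rw [← Real.log_div hpos2.ne' hpos.ne']
    have := Real.log_le_sub_one_of_pos (show 0 < (m : ℝ) / (m - 1) by positivity)
    have h2 : (m : ℝ) / (m - 1) - 1 = 1 / ((m : ℝ) - 1) := by field_simp; ring
    linarith
  have hm' : (m : ℝ) * (1 / ((m : ℝ) - 1)) ≤ 2 := by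
    rw [mul_one_div, div_le_iff₀ hpos]; linarith
  have key : Real.log m ≤ (Real.log ((m : ℝ) - 1) + 2) * m - (Real.log m + 2) * (m - 1) := by
    nlinarith [mul_le_mul_of_nonneg_left hlog hpos2.le]
  have e : (Real.log ((m : ℝ) - 1) + 2) / ((m : ℝ) - 1) - (Real.log m + 2) / m =
      ((Real.log ((m : ℝ) - 1) + 2) * m - (Real.log m + 2) * (m - 1)) / ((m : ℝ) * (m - 1)) := by
    field_simp
  rw [e]
  gcongr

lemma tele_sum (n : ℕ) (hn : 1 ≤ n) :
    ∑ m ∈ Icc 2 n, Real.log m / ((m : ℝ) * (m - 1)) ≤ 2 - (Real.log n + 2) / n := by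
  induction n, hn using Nat.le_induction with
  | base => simp
  | succ n hn ih =>
    rw [Finset.sum_Icc_succ_top (by omega)]
    have := tele (m := n + 1) (by omega)
    simp only [Nat.add_sub_cancel] at this
    linarith

lemma sum_log_sq (n : ℕ) :
    ∑ p ∈ (n + 1).primesBelow, Real.log p / ((p : ℝ) * (p - 1)) ≤ 2 := by
  rcases Nat.eq_zero_or_pos n with rfl | hn
  · have : (0 + 1).primesBelow = ∅ := by
      ext p; simp only [Nat.mem_primesBelow, Finset.notMem_empty, iff_false]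
      rintro ⟨h1, h2⟩; have := h2.two_le; omega
    rw [this]; simp
  have h1 := tele_sum n hn
  have h2 : 0 ≤ (Real.log n + 2) / (n : ℝ) := by
    have : 0 ≤ Real.log n := Real.log_nonneg (by exact_mod_cast hn)
    positivity
  have h3 : ∑ p ∈ (n + 1).primesBelow, Real.log p / ((p : ℝ) * (p - 1)) ≤
      ∑ m ∈ Icc 2 n, Real.log m / ((m : ℝ) * (m - 1)) := by
    apply Finset.sum_le_sum_of_subset_of_nonneg
    · intro p hp
      rw [Nat.mem_primesBelow] at hp
      rw [mem_Icc]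
      exact ⟨hp.2.two_le, by omega⟩
    · intro m hm _
      rw [mem_Icc] at hm
      have hm2 : (2 : ℝ) ≤ m := by exact_mod_cast hm.1
      have : 0 ≤ Real.log m := Real.log_nonneg (by linarith)
      have h4 : (0:ℝ) ≤ (m : ℝ) - 1 := by linarith
      positivity
  linarith

lemma val_factorial_le {n p : ℕ} (hp : p.Prime) :
    (((n !).factorization p : ℕ) : ℝ) ≤ n / ((p : ℝ) - 1) := by
  have hp1 : (0 : ℝ) < (p : ℝ) - 1 := by
    have : (2 : ℝ) ≤ p := by exact_mod_cast hp.two_le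
    linarith
  rw [le_div_iff₀ hp1]
  have := Fact.mk hp
  have h := sub_one_mul_padicValNat_factorial (p := p) n
  rw [Nat.factorization_def _ hp]
  have h1 : (p - 1) * padicValNat p (n !) ≤ n := by rw [h]; exact Nat.sub_le _ _
  have h2 : (((p - 1) * padicValNat p (n !) : ℕ) : ℝ) ≤ n := by exact_mod_cast h1
  rw [Nat.cast_mul, Nat.cast_sub hp.one_lt.le] at h2
  push_cast at h2
  linarith

lemma mertens_lower {n : ℕ} (hn : 1 ≤ n) : Real.log n - 3 ≤ F n := by
  have hn0 : (0 : ℝ) < n := by exact_mod_cast hn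
  have hlog : Real.log (n ! : ℕ) = ∑ p ∈ (n + 1).primesBelow, ((n !).factorization p : ℝ) * Real.log p := by
    rw [Real.log_nat_eq_sum_factorization, Finsupp.sum]
    apply Finset.sum_subset
    · intro p hp
      rw [Nat.support_factorization, Nat.mem_primeFactors] at hp
      rw [Nat.mem_primesBelow]
      refine ⟨?_, hp.1⟩
      have := (Nat.Prime.dvd_factorial hp.1).mp hp.2.1
      omega
    · intro p _ hp
      rw [Finsupp.notMem_support_iff.mp hp]; simp
  have hup : Real.log (n ! : ℕ) ≤ n * (F n + 2) := by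
    rw [hlog]
    have h1 : ∀ p ∈ (n + 1).primesBelow, ((n !).factorization p : ℝ) * Real.log p ≤
        n * (Real.log p / p + Real.log p / ((p : ℝ) * (p - 1))) := by
      intro p hp
      have hpp := Nat.prime_of_mem_primesBelow hp
      have hp2 : (2 : ℝ) ≤ p := by exact_mod_cast hpp.two_le
      have hp1 : (0 : ℝ) < (p : ℝ) - 1 := by linarith
      have h2 := val_factorial_le (n := n) hpp
      have h3 : 0 ≤ Real.log p := Real.log_nonneg (by linarith)
      calc ((n !).factorization p : ℝ) * Real.log p ≤ (n / ((p : ℝ) - 1)) * Real.log p := by gcongr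
        _ = _ := by field_simp; ring
    refine (Finset.sum_le_sum h1).trans ?_
    rw [← Finset.mul_sum, Finset.sum_add_distrib]
    have := sum_log_sq n
    unfold F
    gcongr
  have hlow : n * Real.log n - n ≤ Real.log (n ! : ℕ) := by
    have h1 := Real.pow_div_factorial_le_exp (n : ℝ) hn0.le n
    have h2 : (0 : ℝ) < (n ! : ℕ) := by exact_mod_cast Nat.factorial_pos n
    have h3 := Real.log_le_log (by positivity) h1
    rw [Real.log_exp, Real.log_div (by positivity) h2.ne', Real.log_pow] at h3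
    linarith
  have h4 : (n : ℝ) * (Real.log n - 3) ≤ n * F n := by nlinarith
  exact le_of_mul_le_mul_left h4 hn0

lemma F_upper {n : ℕ} (hn : 1 ≤ n) : F n ≤ Real.log n + 2 := mertens_upper hn

lemma sum_eq {w z : ℝ} (hw : 1 ≤ w) (hwz : w ≤ z) :
    ∑ p ∈ (Finset.Icc 1 ⌊z⌋₊).filter (fun p : ℕ => p.Prime ∧ w < p), Real.log p / p
      = F ⌊z⌋₊ - F ⌊w⌋₊ := by
  have h0 : ⌊w⌋₊ ≤ ⌊z⌋₊ := Nat.floor_le_floor hwz
  have hlt : ∀ p : ℕ, w < p ↔ ⌊w⌋₊ < p := fun p => (Nat.floor_lt (by linarith)).symm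
  rw [F_eq, F_eq, eq_sub_iff_add_eq, ← Finset.sum_union]
  · refine Finset.sum_congr ?_ (fun _ _ => rfl)
    ext p
    simp only [mem_union, mem_filter, mem_Icc, hlt]
    constructor
    · rintro (⟨⟨h1, h2⟩, h3, h4⟩ | ⟨⟨h1, h2⟩, h3⟩)
      · exact ⟨⟨h1, h2⟩, h3⟩
      · exact ⟨⟨h1, by omega⟩, h3⟩
    · rintro ⟨⟨h1, h2⟩, h3⟩
      by_cases h : ⌊w⌋₊ < p
      · exact Or.inl ⟨⟨h1, h2⟩, h3, h⟩
      · exact Or.inr ⟨⟨h1, by omega⟩, h3⟩
  · rw [Finset.disjoint_left]
    intro p hp hp'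
    simp only [mem_filter, mem_Icc, hlt] at hp hp'
    omega

lemma log_floor {w : ℝ} (hw : 1 ≤ w) :
    Real.log w - 1 ≤ Real.log (⌊w⌋₊ : ℝ) ∧ Real.log (⌊w⌋₊ : ℝ) ≤ Real.log w ∧ 1 ≤ ⌊w⌋₊ := by
  have h1 : 1 ≤ ⌊w⌋₊ := Nat.le_floor (by exact_mod_cast hw)
  have h1' : (1 : ℝ) ≤ ⌊w⌋₊ := by exact_mod_cast h1
  have h2 : (⌊w⌋₊ : ℝ) ≤ w := Nat.floor_le (by linarith)
  have h3 : w < ⌊w⌋₊ + 1 := Nat.lt_floor_add_one w
  refine ⟨?_, Real.log_le_log (by linarith) h2, h1⟩
  have h4 : Real.log w ≤ Real.log (2 * (⌊w⌋₊ : ℝ)) := Real.log_le_log (by linarith) (by linarith)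
  rw [Real.log_mul (by norm_num) (by linarith)] at h4
  have := Real.log_two_lt_d9
  linarith

lemma V_univ (z : ℕ) : V Set.univ z = (MP (z + 1))⁻¹ := by
  unfold V MP prs
  rw [← Finset.prod_inv_distrib]
  refine Finset.prod_congr ?_ ?_
  · ext p
    simp only [mem_filter, mem_Icc, Set.mem_univ, and_true, Nat.mem_primesBelow]
    constructor
    · rintro ⟨⟨_, h1⟩, h2⟩; exact ⟨by omega, h2⟩
    · rintro ⟨h1, h2⟩; exact ⟨⟨h2.one_lt.le, by omega⟩, h2⟩
  · intro p _
    rw [inv_inv, one_div]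

lemma mem_prs {P : Set ℕ} {z p : ℕ} : p ∈ prs P z ↔ p ≤ z ∧ p.Prime ∧ p ∈ P := by
  unfold prs
  simp only [mem_filter, mem_Icc]
  constructor
  · rintro ⟨⟨_, h1⟩, h2⟩; exact ⟨h1, h2⟩
  · rintro ⟨h1, h2⟩; exact ⟨⟨h2.1.one_lt.le, h1⟩, h2⟩

lemma factor_pos {p : ℕ} (hp : p.Prime) : (0 : ℝ) < 1 - 1 / (p : ℝ) := by
  rw [one_div]; exact one_sub_inv_pos hp

lemma V_pos (P : Set ℕ) (z : ℕ) : 0 < V P z := by
  apply Finset.prod_pos
  intro p hp
  exact factor_pos (mem_prs.mp hp).2.1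

/-- comparison with the full product -/
lemma V_ratio (P : Set ℕ) {w z : ℕ} (hwz : w ≤ z) :
    V P w * V Set.univ z ≤ V Set.univ w * V P z := by
  classical
  -- `V P z = V P w * ∏_{w < p ≤ z, p ∈ P}`
  have split : ∀ Q : Set ℕ, V Q z = V Q w * ∏ p ∈ prs Q z \ prs Q w, (1 - 1 / (p : ℝ)) := by
    intro Q
    unfold V
    rw [mul_comm, Finset.prod_sdiff]
    intro p hp
    rw [mem_prs] at hp ⊢
    exact ⟨by omega, hp.2⟩
  rw [split Set.univ, split P]
  have hle : ∏ p ∈ prs Set.univ z \ prs Set.univ w, (1 - 1 / (p : ℝ)) ≤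
      ∏ p ∈ prs P z \ prs P w, (1 - 1 / (p : ℝ)) := by
    have hsub : prs P z \ prs P w ⊆ prs Set.univ z \ prs Set.univ w := by
      intro p hp
      rw [mem_sdiff, mem_prs, mem_prs] at hp
      rw [mem_sdiff, mem_prs, mem_prs]
      refine ⟨⟨hp.1.1, hp.1.2.1, trivial⟩, ?_⟩
      rintro ⟨h1, h2, -⟩
      exact hp.2 ⟨h1, h2, hp.1.2.2⟩
    rw [← Finset.prod_sdiff hsub]
    apply mul_le_of_le_one_left
    · apply Finset.prod_nonneg
      intro p hp
      rw [mem_sdiff, mem_prs] at hp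
      exact (factor_pos hp.1.2.1).le
    · apply Finset.prod_le_one
      · intro p hp
        rw [mem_sdiff, mem_sdiff, mem_prs] at hp
        exact (factor_pos hp.1.1.2.1).le
      · intro p hp
        have : (0:ℝ) ≤ 1 / (p : ℝ) := by positivity
        linarith
  have h1 := V_pos P w
  have h2 := V_pos Set.univ w
  calc V P w * (V Set.univ w * ∏ p ∈ prs Set.univ z \ prs Set.univ w, (1 - 1 / (p : ℝ)))
      ≤ V P w * (V Set.univ w * ∏ p ∈ prs P z \ prs P w, (1 - 1 / (p : ℝ))) := by gcongr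
    _ = _ := by ring

lemma V_le_one (P : Set ℕ) (z : ℕ) : V P z ≤ 1 := by
  apply Finset.prod_le_one
  · intro p hp
    exact (factor_pos (mem_prs.mp hp).2.1).le
  · intro p hp
    have : (0:ℝ) ≤ 1 / (p : ℝ) := by positivity
    linarith

lemma log_succ_le {z : ℕ} (hz : 2 ≤ z) : Real.log ((z + 1 : ℕ) : ℝ) ≤ 2 * Real.log z := by
  have hz2 : (2 : ℝ) ≤ z := by exact_mod_cast hz
  rw [← Nat.cast_two, ← Real.log_pow]
  apply Real.log_le_log
  · positivity
  · push_cast; nlinarith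

/-- module MERT -/
theorem mert : Mert := by
  have he : (7 : ℝ) ≤ Real.exp 6 := by
    have := Real.add_one_le_exp (6 : ℝ); linarith
  refine ⟨4 * Real.exp 6, by linarith, ?_, ?_, ?_, ?_, ?_⟩
  · intro w z hw hwz
    rw [sum_eq hw hwz]
    obtain ⟨a1, a2, a3⟩ := log_floor hw
    obtain ⟨b1, b2, b3⟩ := log_floor (hw.trans hwz)
    have h1 := F_upper b3
    have h2 := mertens_lower a3
    rw [Real.log_div (by linarith) (by linarith)]
    linarith
  · intro w z hw hwz
    rw [sum_eq hw hwz]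
    obtain ⟨a1, a2, a3⟩ := log_floor hw
    obtain ⟨b1, b2, b3⟩ := log_floor (hw.trans hwz)
    have h1 := F_upper a3
    have h2 := mertens_lower b3
    rw [Real.log_div (by linarith) (by linarith)]
    linarith
  · intro P w z hw hwz
    have h1 := V_ratio P hwz
    have hw2 : (2 : ℝ) ≤ w := by exact_mod_cast hw
    have hz2 : (2 : ℝ) ≤ z := by exact_mod_cast hw.trans hwz
    have hlw : 0 < Real.log w := Real.log_pos (by linarith)
    have hlz : 0 < Real.log z := Real.log_pos (by linarith)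
    have hVz := V_pos P z
    have hVuz := V_pos Set.univ z
    have h2 : V Set.univ w ≤ 4 * Real.exp 6 * (Real.log z / Real.log w) * V Set.univ z := by
      rw [V_univ, V_univ]
      have hM1 := MP_pos (w + 1)
      have hM2 := MP_pos (z + 1)
      have h3 := MP_le (Y := z + 1) (by omega)
      have h4 := log_le_MP (Y := w + 1) (by omega)
      have h5 := log_succ_le (hw.trans hwz)
      have h6 : Real.log w ≤ Real.log ((w + 1 : ℕ) : ℝ) := by
        apply Real.log_le_log (by linarith)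
        push_cast; linarith
      have h7 : MP (z + 1) ≤ 4 * Real.exp 6 * Real.log z := by
        have : 2 * Real.exp 6 * Real.log ((z + 1 : ℕ) : ℝ) ≤ 2 * Real.exp 6 * (2 * Real.log z) := by
          gcongr
        linarith
      have h8 : Real.log w ≤ MP (w + 1) := h6.trans h4
      calc (MP (w + 1))⁻¹ ≤ (Real.log w)⁻¹ := inv_anti₀ hlw h8
        _ = (MP (z + 1)) * (Real.log w)⁻¹ * (MP (z + 1))⁻¹ := by field_simp
        _ ≤ (4 * Real.exp 6 * Real.log z) * (Real.log w)⁻¹ * (MP (z + 1))⁻¹ := by gcongr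
        _ = _ := by ring
    have h3 : V P w * V Set.univ z ≤ (4 * Real.exp 6 * (Real.log z / Real.log w) * V P z) * V Set.univ z := by
      calc V P w * V Set.univ z ≤ V Set.univ w * V P z := h1
        _ ≤ (4 * Real.exp 6 * (Real.log z / Real.log w) * V Set.univ z) * V P z := by gcongr
        _ = _ := by ring
    exact le_of_mul_le_mul_right h3 hVuz
  · intro P z hz
    have hz2 : (2 : ℝ) ≤ z := by exact_mod_cast hz
    have hlz : 0 < Real.log z := Real.log_pos (by linarith)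
    have h1 := V_ratio P (w := 0) (z := z) (Nat.zero_le _)
    have h0 : ∀ Q : Set ℕ, V Q 0 = 1 := by
      intro Q
      unfold V
      apply Finset.prod_eq_one
      intro p hp
      have := mem_prs.mp hp
      exact absurd this.1 (by have := this.2.1.pos; omega)
    rw [h0, h0, one_mul, one_mul, V_univ] at h1
    have h3 := MP_le (Y := z + 1) (by omega)
    have h5 := log_succ_le hz
    have h7 : MP (z + 1) ≤ 4 * Real.exp 6 * Real.log z := by
      have : 2 * Real.exp 6 * Real.log ((z + 1 : ℕ) : ℝ) ≤ 2 * Real.exp 6 * (2 * Real.log z) := by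
        gcongr
      linarith
    rw [one_div]
    exact (inv_anti₀ (MP_pos _) h7).trans h1
  · intro z hz
    have hz2 : (2 : ℝ) ≤ z := by exact_mod_cast hz
    have hlz : 0 < Real.log z := Real.log_pos (by linarith)
    rw [V_univ]
    have h4 := log_le_MP (Y := z + 1) (by omega)
    have h6 : Real.log z ≤ Real.log ((z + 1 : ℕ) : ℝ) := by
      apply Real.log_le_log (by linarith)
      push_cast; linarith
    have hM := MP_pos (z + 1)
    have : (MP (z + 1))⁻¹ * Real.log z ≤ 1 := by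
      rw [inv_mul_le_iff₀ hM]; linarith
    linarith

end Pool.Agent.H67.GT.MERT

end S_H67_GT_MERT

section S_H75_EK_Defs

/-!
# MP_75c0be_nt: Erdos-Kac law for integer parts of real polynomials.  Basic definitions.
-/

open Polynomial Finset
open scoped Real BigOperators

namespace EK75

/-- `e(x) = exp(2 pi i x)`. -/
noncomputable def ee (x : ℝ) : ℂ := Complex.exp (2 * π * x * Complex.I)

/-- distance to the nearest integer -/
noncomputable def nint (x : ℝ) : ℝ := |x - round x|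

/-- number of roots of `g` modulo `p` (in `[0,p)`) -/
def rho (g : ℤ[X]) (p : ℕ) : ℕ :=
  ((range p).filter (fun r : ℕ => (p : ℤ) ∣ g.eval (r : ℤ))).card

/-- `rho` as a real weight -/
def rhoR (g : ℤ[X]) (p : ℕ) : ℝ := (rho g p : ℝ)

/-- primes `p ≤ x` -/
noncomputable def prLe (x : ℝ) : Finset ℕ := (range (⌊x⌋₊ + 1)).filter Nat.Prime

/-- primes `a < p ≤ b` (for `0 ≤ a`) -/
noncomputable def prIoc (a b : ℝ) : Finset ℕ := (Ioc ⌊a⌋₊ ⌊b⌋₊).filter Nat.Prime

/-- `∑_{a < p ≤ b} w(p)/p` -/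
noncomputable def Ssum (w : ℕ → ℝ) (a b : ℝ) : ℝ := ∑ p ∈ prIoc a b, w p / p

/-- `∑_{p ≤ Y} w(p) log p / p` -/
noncomputable def Msum (w : ℕ → ℝ) (Y : ℝ) : ℝ := ∑ p ∈ prLe Y, w p * Real.log p / p

/-- all coefficients of `g` have absolute value at most `H` -/
def HtLe (g : ℤ[X]) (H : ℝ) : Prop := ∀ i, |((g.coeff i : ℤ) : ℝ)| ≤ H

/-- the box `[0,X)^k` in `ℤ^k` -/
noncomputable def boxZ (k X : ℕ) : Finset (Fin k → ℤ) := Fintype.piFinset fun _ => Finset.Ico 0 (X : ℤ)

/-- `F = ∑_{j=1}^k a_j X^j` -/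
noncomputable def FF (k : ℕ) (a : ℕ → ℤ) : ℤ[X] := ∑ j ∈ Icc 1 k, C (a j) * X ^ j

/-- Major arc data of `f` at scale `N`: a common denominator `q ≤ T` for the coefficients of positive degree. -/
structure MajD (f : ℝ[X]) (N T q : ℕ) (a : ℕ → ℤ) : Prop where
  q1 : 1 ≤ q
  qT : q ≤ T
  app : ∀ j ∈ Icc 1 f.natDegree, |(q : ℝ) * f.coeff j - a j| * (N : ℝ) ^ j ≤ T
  cop : ∀ p : ℕ, p.Prime → p ∣ q → ∃ j ∈ Icc 1 f.natDegree, ¬ ((p : ℤ) ∣ a j)
  big : T ≤ q + 1 ∨ ∃ j ∈ Icc 1 f.natDegree, (T : ℝ) - 1 ≤ |(q : ℝ) * f.coeff j - a j| * (N : ℝ) ^ j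

/-- `f` has no simultaneous rational approximation of height `< T` at scale `N`. -/
def NonApp (f : ℝ[X]) (N T : ℕ) : Prop :=
  ∀ q : ℕ, 1 ≤ q → q < T →
    ∃ j ∈ Icc 1 f.natDegree, (T : ℝ) - 1 < nint ((q : ℝ) * f.coeff j) * (N : ℝ) ^ j

/-- `t(n) = F(n) - q ⌊f(n)⌋` -/
noncomputable def tt (f : ℝ[X]) (q : ℕ) (a : ℕ → ℤ) (n : ℕ) : ℤ :=
  (FF f.natDegree a).eval (n : ℤ) - q * ⌊f.eval (n : ℝ)⌋

/-- the polynomial `F - t` -/
noncomputable def Ft (k : ℕ) (a : ℕ → ℤ) (t : ℤ) : ℤ[X] := FF k a - C t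

/-- the monic version of `F - t` (roots multiplied by the leading coefficient) -/
noncomputable def Gt (k : ℕ) (a : ℕ → ℤ) (t : ℤ) : ℤ[X] := (Ft k a t).integralNormalization

end EK75

end S_H75_EK_Defs

section S_H75_EK_Abel

/-! Module ABEL: partial summation, from `∑ w(p) log p / p` to `∑ w(p)/p`. -/

open Polynomial Finset
open scoped Real BigOperators

namespace EK75

/-- the summand, supported on primes -/
noncomputable def abel_c (w : ℕ → ℝ) (n : ℕ) : ℝ := if n.Prime then w n * Real.log n / n else 0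

theorem abel_sum_eq (w : ℕ → ℝ) (t : ℝ) : ∑ n ∈ Icc 0 ⌊t⌋₊, abel_c w n = Msum w t := by
  unfold Msum prLe abel_c
  rw [Finset.sum_filter]
  refine Finset.sum_congr ?_ (fun _ _ => rfl)
  ext n
  simp only [mem_Icc, mem_range]
  omega

theorem abel_deriv {t : ℝ} (ht : 2 ≤ t) :
    HasDerivAt (fun t : ℝ => 1 / Real.log t) (-(1 / (t * Real.log t ^ 2))) t := by
  have h0 : t ≠ 0 := by linarith
  have hl : Real.log t ≠ 0 := (Real.log_pos (by linarith)).ne'
  have h1 := (Real.hasDerivAt_log h0).inv hl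
  have e1 : (fun t : ℝ => 1 / Real.log t) = (fun t : ℝ => Real.log t)⁻¹ := by
    funext s; simp [one_div]
  rw [e1]
  convert! h1 using 1
  field_simp

theorem abel_deriv_eq {t : ℝ} (ht : 2 ≤ t) :
    deriv (fun t : ℝ => 1 / Real.log t) t = -(1 / (t * Real.log t ^ 2)) := (abel_deriv ht).deriv

theorem abel_cont {a b : ℝ} (ha : 2 ≤ a) :
    ContinuousOn (fun t : ℝ => 1 / (t * Real.log t ^ 2)) (Set.Icc a b) := by
  apply ContinuousOn.div continuousOn_const
  · apply ContinuousOn.mul continuousOn_id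
    apply ContinuousOn.pow
    exact Real.continuousOn_log.mono (fun t ht => by
      have := ht.1
      simp only [Set.mem_compl_iff, Set.mem_singleton_iff]
      linarith)
  · intro t ht
    have h1 : 0 < Real.log t := Real.log_pos (by linarith [ht.1])
    have h2 : 0 < t := by linarith [ht.1]
    positivity

theorem abel_int {a b : ℝ} (ha : 2 ≤ a) :
    MeasureTheory.IntegrableOn (deriv (fun t : ℝ => 1 / Real.log t)) (Set.Icc a b) := by
  have h1 : MeasureTheory.IntegrableOn (fun t : ℝ => -(1 / (t * Real.log t ^ 2))) (Set.Icc a b) :=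
    ((abel_cont ha).neg).integrableOn_compact isCompact_Icc
  refine h1.congr_fun ?_ measurableSet_Icc
  intro t ht
  exact (abel_deriv_eq (ha.trans ht.1)).symm

/-- partial summation -/
theorem abel_main (w : ℕ → ℝ) {a b : ℝ} (ha : 2 ≤ a) (hab : a ≤ b) :
    Ssum w a b = Msum w b / Real.log b - Msum w a / Real.log a +
      ∫ t in Set.Ioc a b, (1 / (t * Real.log t ^ 2)) * Msum w t := by
  have h1 := sum_mul_eq_sub_sub_integral_mul (abel_c w) (f := fun t : ℝ => 1 / Real.log t)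
    (a := a) (b := b) (by linarith) hab
    (fun t ht => (abel_deriv (ha.trans ht.1)).differentiableAt) (abel_int ha)
  have h2 : Ssum w a b = ∑ k ∈ Ioc ⌊a⌋₊ ⌊b⌋₊, (1 / Real.log k) * abel_c w k := by
    unfold Ssum prIoc abel_c
    rw [Finset.sum_filter]
    refine Finset.sum_congr rfl ?_
    intro k hk
    split_ifs with hp
    · have : Real.log k ≠ 0 := (Real.log_pos (by exact_mod_cast hp.one_lt)).ne'
      field_simp
    · simp
  have h3 : ∫ t in Set.Ioc a b, deriv (fun t : ℝ => 1 / Real.log t) t *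
        ∑ k ∈ Icc 0 ⌊t⌋₊, abel_c w k =
      - ∫ t in Set.Ioc a b, (1 / (t * Real.log t ^ 2)) * Msum w t := by
    rw [← MeasureTheory.integral_neg]
    refine MeasureTheory.setIntegral_congr_fun measurableSet_Ioc ?_
    intro t ht
    simp only
    rw [abel_deriv_eq (by linarith [ht.1]), abel_sum_eq]
    ring
  rw [h2, h1, h3, abel_sum_eq, abel_sum_eq]
  ring

theorem abel_intM (w : ℕ → ℝ) {a b : ℝ} (ha : 2 ≤ a) :
    MeasureTheory.IntegrableOn (fun t : ℝ => (1 / (t * Real.log t ^ 2)) * Msum w t)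
      (Set.Ioc a b) := by
  have h1 := integrableOn_mul_sum_Icc (abel_c w) (m := 0) (a := a) (b := b) (by linarith)
    ((abel_cont (b := b) ha).integrableOn_compact (μ := MeasureTheory.volume) isCompact_Icc)
  have h2 : (fun t : ℝ => (1 / (t * Real.log t ^ 2)) * Msum w t) =
      fun t : ℝ => (1 / (t * Real.log t ^ 2)) * ∑ k ∈ Icc 0 ⌊t⌋₊, abel_c w k := by
    funext t; rw [abel_sum_eq]
  rw [h2]
  exact h1.mono_set Set.Ioc_subset_Icc_self

/-- the comparison integral -/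
theorem abel_cmp (α κ : ℝ) {a b : ℝ} (ha : 2 ≤ a) (hab : a ≤ b) :
    MeasureTheory.IntegrableOn (fun t : ℝ => (1 / (t * Real.log t ^ 2)) * (α * Real.log t + κ))
      (Set.Ioc a b) ∧
    ∫ t in Set.Ioc a b, (1 / (t * Real.log t ^ 2)) * (α * Real.log t + κ) =
      α * Real.log (Real.log b / Real.log a) + κ * (1 / Real.log a - 1 / Real.log b) := by
  have hlog : ContinuousOn Real.log (Set.Icc a b) :=
    Real.continuousOn_log.mono (fun t ht => by
      have := ht.1
      simp only [Set.mem_compl_iff, Set.mem_singleton_iff]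
      linarith)
  have hc : ContinuousOn (fun t : ℝ => (1 / (t * Real.log t ^ 2)) * (α * Real.log t + κ))
      (Set.Icc a b) :=
    (abel_cont ha).mul ((continuousOn_const.mul hlog).add continuousOn_const)
  have hint : MeasureTheory.IntegrableOn
      (fun t : ℝ => (1 / (t * Real.log t ^ 2)) * (α * Real.log t + κ)) (Set.Icc a b) :=
    hc.integrableOn_compact isCompact_Icc
  refine ⟨hint.mono_set Set.Ioc_subset_Icc_self, ?_⟩
  rw [← intervalIntegral.integral_of_le hab]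
  have hla : 0 < Real.log a := Real.log_pos (by linarith)
  have hlb : 0 < Real.log b := Real.log_pos (by linarith)
  have hd : ∀ t ∈ Set.uIcc a b, HasDerivAt
      (fun t : ℝ => α * Real.log (Real.log t) + κ * (-(1 / Real.log t)))
      ((1 / (t * Real.log t ^ 2)) * (α * Real.log t + κ)) t := by
    intro t ht
    rw [Set.uIcc_of_le hab] at ht
    have h0 : t ≠ 0 := by linarith [ht.1]
    have hl : Real.log t ≠ 0 := (Real.log_pos (by linarith [ht.1])).ne'
    have h1 := ((Real.hasDerivAt_log h0).log hl).const_mul α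
    have h2 := ((abel_deriv (t := t) (by linarith [ht.1])).neg).const_mul κ
    convert! h1.add h2 using 1
    field_simp
  rw [intervalIntegral.integral_eq_sub_of_hasDerivAt hd]
  · rw [Real.log_div hlb.ne' hla.ne']
    ring
  · rw [intervalIntegrable_iff_integrableOn_Ioc_of_le hab]
    exact hint.mono_set Set.Ioc_subset_Icc_self

theorem abel_Msum_nonneg (w : ℕ → ℝ) (hw : ∀ p, 0 ≤ w p) (Y : ℝ) : 0 ≤ Msum w Y := by
  unfold Msum
  apply Finset.sum_nonneg
  intro p hp
  have h1 : 0 ≤ Real.log p := Real.log_natCast_nonneg p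
  have := hw p
  positivity

theorem abel_upper (w : ℕ → ℝ) (hw : ∀ p, 0 ≤ w p) (K : ℝ) (hK : 0 ≤ K)
    (hM : ∀ Y : ℝ, 1 ≤ Y → Msum w Y ≤ Real.log Y + K) (a b : ℝ) (ha : 2 ≤ a) (hab : a ≤ b) :
    Ssum w a b ≤ Real.log (Real.log b / Real.log a) + 1 + 2 * K / Real.log a := by
  have hla : 0 < Real.log a := Real.log_pos (by linarith)
  have hlb : 0 < Real.log b := Real.log_pos (by linarith)
  rw [abel_main w ha hab]
  obtain ⟨c1, c2⟩ := abel_cmp 1 K ha hab
  have h1 : ∫ t in Set.Ioc a b, (1 / (t * Real.log t ^ 2)) * Msum w t ≤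
      ∫ t in Set.Ioc a b, (1 / (t * Real.log t ^ 2)) * (1 * Real.log t + K) := by
    apply MeasureTheory.setIntegral_mono_on (abel_intM w ha) c1 measurableSet_Ioc
    intro t ht
    have ht2 : 2 ≤ t := by linarith [ht.1]
    have hl : 0 < Real.log t := Real.log_pos (by linarith)
    apply mul_le_mul_of_nonneg_left
    · rw [one_mul]; exact hM t (by linarith)
    · positivity
  rw [c2] at h1
  have h2 : Msum w b / Real.log b ≤ 1 + K * (1 / Real.log b) := by
    rw [div_le_iff₀ hlb]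
    have := hM b (by linarith)
    have e : (1 + K * (1 / Real.log b)) * Real.log b = Real.log b + K := by field_simp
    linarith
  have h3 : 0 ≤ Msum w a / Real.log a := div_nonneg (abel_Msum_nonneg w hw a) hla.le
  have h4 : 0 ≤ K * (1 / Real.log a) := by positivity
  have h5 : 2 * K / Real.log a = 2 * (K * (1 / Real.log a)) := by ring
  rw [h5]
  linarith [mul_sub K (1 / Real.log a) (1 / Real.log b)]

theorem abel_lower (w : ℕ → ℝ) (hw : ∀ p, 0 ≤ w p) (K K' φ : ℝ) (hK : 0 ≤ K) (hK' : 0 ≤ K')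
    (hφ : 0 ≤ φ) (a b : ℝ) (ha : 2 ≤ a) (hab : a ≤ b)
    (hM : Msum w a ≤ Real.log a + K)
    (hL : ∀ v : ℝ, a ≤ v → v ≤ b → (1 - φ) * Real.log v - K' ≤ Msum w v) :
    (1 - φ) * Real.log (Real.log b / Real.log a) - φ - (K + K') / Real.log a ≤ Ssum w a b := by
  have hla : 0 < Real.log a := Real.log_pos (by linarith)
  have hlb : 0 < Real.log b := Real.log_pos (by linarith)
  rw [abel_main w ha hab]
  obtain ⟨c1, c2⟩ := abel_cmp (1 - φ) (-K') ha hab
  have h1 : ∫ t in Set.Ioc a b, (1 / (t * Real.log t ^ 2)) * ((1 - φ) * Real.log t + (-K')) ≤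
      ∫ t in Set.Ioc a b, (1 / (t * Real.log t ^ 2)) * Msum w t := by
    apply MeasureTheory.setIntegral_mono_on c1 (abel_intM w ha) measurableSet_Ioc
    intro t ht
    have ht2 : 2 ≤ t := by linarith [ht.1]
    have hl : 0 < Real.log t := Real.log_pos (by linarith)
    apply mul_le_mul_of_nonneg_left
    · have := hL t ht.1.le ht.2; linarith
    · positivity
  rw [c2] at h1
  have h2 : (1 - φ) - K' * (1 / Real.log b) ≤ Msum w b / Real.log b := by
    rw [le_div_iff₀ hlb]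
    have := hL b hab le_rfl
    have e : (1 - φ - K' * (1 / Real.log b)) * Real.log b = (1 - φ) * Real.log b - K' := by
      field_simp
    linarith
  have h3 : Msum w a / Real.log a ≤ 1 + K * (1 / Real.log a) := by
    rw [div_le_iff₀ hla]
    have e : (1 + K * (1 / Real.log a)) * Real.log a = Real.log a + K := by field_simp
    linarith
  have h5 : (K + K') / Real.log a = K * (1 / Real.log a) + K' * (1 / Real.log a) := by ring
  rw [h5]
  linarith [mul_sub K' (1 / Real.log a) (1 / Real.log b)]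

end EK75

end S_H75_EK_Abel

section S_H75_EK_Mert

/-! Module MERT: Mertens' theorems and simple consequences of Chebyshev's bound. -/

open Polynomial Finset
open scoped Real BigOperators

namespace EK75

theorem mert_Msum_eq (x : ℝ) :
    Msum (fun _ => 1) x = Pool.Agent.H67.GT.MERT.F ⌊x⌋₊ := by
  unfold Msum prLe Pool.Agent.H67.GT.MERT.F
  refine Finset.sum_congr ?_ ?_
  · ext p
    simp only [mem_filter, mem_range, Nat.mem_primesBelow]
  · intro p _
    rw [one_mul]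

theorem mert_one {x : ℝ} (hx : 1 ≤ x) :
    Real.log x - 4 ≤ Msum (fun _ => 1) x ∧ Msum (fun _ => 1) x ≤ Real.log x + 4 := by
  obtain ⟨h1, h2, h3⟩ := Pool.Agent.H67.GT.MERT.log_floor hx
  have h4 := Pool.Agent.H67.GT.MERT.F_upper h3
  have h5 := Pool.Agent.H67.GT.MERT.mertens_lower h3
  rw [mert_Msum_eq]
  constructor <;> linarith

theorem mert1 : ∃ C : ℝ, ∀ x : ℝ, 1 ≤ x → |Msum (fun _ => 1) x - Real.log x| ≤ C := by
  refine ⟨4, fun x hx => ?_⟩
  obtain ⟨h1, h2⟩ := mert_one hx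
  rw [abs_le]
  constructor <;> linarith

theorem mert_two {a b : ℝ} (ha : 2 ≤ a) (hab : a ≤ b) :
    |Ssum (fun _ => 1) a b - Real.log (Real.log b / Real.log a)| ≤ 13 := by
  have hla : Real.log 2 ≤ Real.log a := Real.log_le_log (by norm_num) ha
  have hl2 := Real.log_two_gt_d9
  have h1 := abel_upper (fun _ => 1) (fun _ => zero_le_one) 4 (by norm_num)
    (fun Y hY => (mert_one hY).2) a b ha hab
  have h2 := abel_lower (fun _ => 1) (fun _ => zero_le_one) 4 4 0 (by norm_num) (by norm_num)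
    le_rfl a b ha hab (mert_one (by linarith)).2
    (fun v hv _ => by
      have := (mert_one (x := v) (by linarith)).1
      linarith)
  have hpos : 0 < Real.log a := by linarith
  have h3 : (4 + 4) / Real.log a ≤ 12 := by
    rw [div_le_iff₀ hpos]; linarith
  have h4 : 2 * 4 / Real.log a ≤ 12 := by
    rw [div_le_iff₀ hpos]; linarith
  rw [abs_le]
  constructor <;> linarith

theorem mert2 : ∃ C : ℝ, ∀ a b : ℝ, 2 ≤ a → a ≤ b →
    |Ssum (fun _ => 1) a b - Real.log (Real.log b / Real.log a)| ≤ C :=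
  ⟨13, fun _ _ ha hab => mert_two ha hab⟩

theorem mert_theta (t : ℝ) : ∑ n ∈ Icc 0 ⌊t⌋₊, (if n.Prime then Real.log n else 0) =
    Chebyshev.theta t := by
  rw [Chebyshev.theta_eq_sum_Icc, Finset.sum_filter]

theorem mert3 (k : ℕ) (hk : 1 ≤ k) : ∃ C : ℝ, ∀ Y : ℝ, 1 ≤ Y →
    ∑ p ∈ prLe Y, Real.log p * (p : ℝ) ^ ((1 : ℝ) / k - 1) ≤ C * Y ^ ((1 : ℝ) / k) := by
  refine ⟨Real.log 4 * (1 + k), fun Y hY => ?_⟩
  have hk0 : (0 : ℝ) < k := by exact_mod_cast hk
  have hk1 : (1 : ℝ) ≤ k := by exact_mod_cast hk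
  set s : ℝ := (1 : ℝ) / k with hs
  have hs0 : 0 < s := by positivity
  have hs1 : s ≤ 1 := by rw [hs, div_le_iff₀ hk0]; linarith
  have hY0 : 0 < Y := by linarith
  have hdiff : ∀ t ∈ Set.Icc 1 Y, HasDerivAt (fun t : ℝ => t ^ (s - 1))
      ((s - 1) * t ^ (s - 1 - 1)) t := by
    intro t ht
    exact Real.hasDerivAt_rpow_const (Or.inl (by linarith [ht.1]))
  have hcont : ∀ r : ℝ, ContinuousOn (fun t : ℝ => t ^ r) (Set.Icc 1 Y) := by
    intro r
    apply ContinuousOn.rpow_const continuousOn_id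
    intro t ht
    left
    have := ht.1
    simp only [id]
    linarith
  have hint : MeasureTheory.IntegrableOn (deriv (fun t : ℝ => t ^ (s - 1))) (Set.Icc 1 Y) := by
    have h1 : MeasureTheory.IntegrableOn (fun t : ℝ => (s - 1) * t ^ (s - 1 - 1)) (Set.Icc 1 Y) :=
      (continuousOn_const.mul (hcont _)).integrableOn_compact isCompact_Icc
    refine h1.congr_fun ?_ measurableSet_Icc
    intro t ht
    exact (hdiff t ht).deriv.symm
  have h1 := sum_mul_eq_sub_sub_integral_mul (fun n : ℕ => if n.Prime then Real.log n else 0)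
    (f := fun t : ℝ => t ^ (s - 1)) (a := 1) (b := Y) (by norm_num) hY
    (fun t ht => (hdiff t ht).differentiableAt) hint
  have hsum : ∑ p ∈ prLe Y, Real.log p * (p : ℝ) ^ (s - 1) =
      ∑ k ∈ Ioc ⌊(1 : ℝ)⌋₊ ⌊Y⌋₊, (k : ℝ) ^ (s - 1) * (if k.Prime then Real.log k else 0) := by
    unfold prLe
    rw [Finset.sum_filter]
    symm
    apply Finset.sum_subset_zero_on_sdiff
    · intro n hn
      rw [mem_Ioc] at hn
      rw [mem_range]; omega
    · intro n hn
      rw [mem_sdiff, mem_range, mem_Ioc, Nat.floor_one] at hn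
      have : n ≤ 1 := by omega
      rw [if_neg]
      intro hp
      have := hp.one_lt
      omega
    · intro n _
      split_ifs <;> ring
  rw [hsum, h1, mert_theta, mert_theta]
  have hθ1 : 0 ≤ Chebyshev.theta 1 := Chebyshev.theta_nonneg 1
  have hθY : Chebyshev.theta Y ≤ Real.log 4 * Y := Chebyshev.theta_le_log4_mul_x hY0.le
  have hl4 : 0 < Real.log 4 := Real.log_pos (by norm_num)
  -- the integral
  have hcmpc : ContinuousOn (fun t : ℝ => (1 - s) * Real.log 4 * t ^ (s - 1)) (Set.Icc 1 Y) :=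
    continuousOn_const.mul (hcont _)
  have hcmpi : MeasureTheory.IntegrableOn (fun t : ℝ => (1 - s) * Real.log 4 * t ^ (s - 1))
      (Set.Icc 1 Y) := hcmpc.integrableOn_compact isCompact_Icc
  have hI1 : MeasureTheory.IntegrableOn (fun t : ℝ => deriv (fun t : ℝ => t ^ (s - 1)) t *
      ∑ k ∈ Icc 0 ⌊t⌋₊, (if k.Prime then Real.log k else 0)) (Set.Icc 1 Y) :=
    integrableOn_mul_sum_Icc _ (by norm_num) hint
  have hneg : - ∫ t in Set.Ioc 1 Y, deriv (fun t : ℝ => t ^ (s - 1)) t *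
      ∑ k ∈ Icc 0 ⌊t⌋₊, (if k.Prime then Real.log k else 0) ≤
      ∫ t in Set.Ioc 1 Y, (1 - s) * Real.log 4 * t ^ (s - 1) := by
    rw [← MeasureTheory.integral_neg]
    apply MeasureTheory.setIntegral_mono_on
    · exact (hI1.mono_set Set.Ioc_subset_Icc_self).neg
    · exact hcmpi.mono_set Set.Ioc_subset_Icc_self
    · exact measurableSet_Ioc
    · intro t ht
      have ht0 : 0 < t := by linarith [ht.1]
      rw [mert_theta, (hdiff t ⟨ht.1.le, ht.2⟩).deriv]
      have h2 : Chebyshev.theta t ≤ Real.log 4 * t := Chebyshev.theta_le_log4_mul_x ht0.le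
      have h3 : t ^ (s - 1) = t ^ (s - 1 - 1) * t := by
        rw [← Real.rpow_add_one ht0.ne']; congr 1; ring
      rw [h3]
      have h4 : 0 ≤ (1 - s) * t ^ (s - 1 - 1) := by
        have : 0 ≤ 1 - s := by linarith
        positivity
      nlinarith [mul_le_mul_of_nonneg_left h2 h4]
  have hval : ∫ t in Set.Ioc 1 Y, (1 - s) * Real.log 4 * t ^ (s - 1) ≤
      Real.log 4 * k * Y ^ s := by
    rw [← intervalIntegral.integral_of_le hY, intervalIntegral.integral_const_mul,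
      integral_rpow (Or.inl (by linarith))]
    have e1 : s - 1 + 1 = s := by ring
    rw [e1, Real.one_rpow]
    have hYs : 0 ≤ Y ^ s := by positivity
    have e2 : (1 - s) * Real.log 4 * ((Y ^ s - 1) / s) =
        Real.log 4 * k * ((1 - s) * (Y ^ s - 1)) := by
      rw [hs]; field_simp
    rw [e2]
    apply mul_le_mul_of_nonneg_left _ (by positivity)
    have hYs1 : 1 ≤ Y ^ s := Real.one_le_rpow hY hs0.le
    nlinarith
  have hY1 : Y ^ (s - 1) * Chebyshev.theta Y ≤ Real.log 4 * Y ^ s := by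
    have h2 : Y ^ s = Y ^ (s - 1) * Y := by
      rw [← Real.rpow_add_one hY0.ne']; congr 1; ring
    rw [h2]
    have : 0 ≤ Y ^ (s - 1) := by positivity
    nlinarith [mul_le_mul_of_nonneg_left hθY this]
  have h11 : (1 : ℝ) ^ (s - 1) = 1 := Real.one_rpow _
  simp only [h11]
  have e3 : Real.log 4 * (1 + k) * Y ^ s = Real.log 4 * Y ^ s + Real.log 4 * k * Y ^ s := by ring
  rw [e3]
  linarith

theorem mert5 : ∃ C : ℝ, ∀ x : ℝ, 2 ≤ x →
    |∑ p ∈ prLe x, (1 : ℝ) / p - Real.log (Real.log x)| ≤ C := by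
  refine ⟨13 + 1 + |Real.log (Real.log 2)|, fun x hx => ?_⟩
  have h1 := mert_two le_rfl hx
  have hl2 : 0 < Real.log 2 := Real.log_pos (by norm_num)
  have hlx : 0 < Real.log x := Real.log_pos (by linarith)
  rw [Real.log_div hlx.ne' hl2.ne'] at h1
  have h2 : ∑ p ∈ prLe x, (1 : ℝ) / p = 1 / 2 + Ssum (fun _ => 1) 2 x := by
    unfold Ssum prLe prIoc
    have hf : 2 ≤ ⌊x⌋₊ := Nat.le_floor (by exact_mod_cast hx)
    have hfl : ⌊(2 : ℝ)⌋₊ = 2 := by
      rw [show (2 : ℝ) = ((2 : ℕ) : ℝ) by norm_num, Nat.floor_natCast]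
    rw [hfl]
    have : (range (⌊x⌋₊ + 1)).filter Nat.Prime = insert 2 ((Ioc 2 ⌊x⌋₊).filter Nat.Prime) := by
      ext p
      simp only [mem_filter, mem_range, mem_insert, mem_Ioc]
      constructor
      · rintro ⟨h1, h2⟩
        rcases eq_or_ne p 2 with h3 | h3
        · exact Or.inl h3
        · exact Or.inr ⟨⟨by have := h2.two_le; omega, by omega⟩, h2⟩
      · rintro (rfl | ⟨⟨h1, h2⟩, h3⟩)
        · exact ⟨by omega, Nat.prime_two⟩
        · exact ⟨by omega, h3⟩
    rw [this, Finset.sum_insert (by simp)]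
    norm_num
  rw [h2]
  rw [abs_le] at h1 ⊢
  have h3 := neg_abs_le (Real.log (Real.log 2))
  have h4 := le_abs_self (Real.log (Real.log 2))
  constructor <;> linarith [h1.1, h1.2]

theorem mert_card {Q : ℕ} (hQ : 1 ≤ Q) :
    (Q.primeFactors.card : ℝ) * Real.log 2 ≤ Real.log Q := by
  have h1 : 2 ^ Q.primeFactors.card ≤ ∏ p ∈ Q.primeFactors, p := by
    apply Finset.pow_card_le_prod
    intro p hp
    exact (Nat.prime_of_mem_primeFactors hp).two_le
  have h2 : ∏ p ∈ Q.primeFactors, p ≤ Q := Nat.le_of_dvd hQ (Nat.prod_primeFactors_dvd Q)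
  have h3 : ((2 ^ Q.primeFactors.card : ℕ) : ℝ) ≤ Q := by exact_mod_cast h1.trans h2
  have h4 := Real.log_le_log (by positivity) h3
  rwa [Nat.cast_pow, Real.log_pow, Nat.cast_ofNat] at h4

theorem mert4 : ∃ C : ℝ, ∀ Q : ℕ, 1 ≤ Q →
    ∑ p ∈ Q.primeFactors, (1 : ℝ) / p ≤ C + Real.log (1 + Real.log (1 + Real.log Q)) := by
  obtain ⟨C5, h5⟩ := mert5
  refine ⟨|C5| + 2, fun Q hQ => ?_⟩
  have hL : 0 ≤ Real.log Q := Real.log_nonneg (by exact_mod_cast hQ)
  set K : ℝ := 1 + Real.log Q with hK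
  have hK1 : 1 ≤ K := by linarith
  have hlK : 0 ≤ Real.log K := Real.log_nonneg hK1
  have hR : 0 ≤ Real.log (1 + Real.log K) := Real.log_nonneg (by linarith)
  have hC5 := abs_nonneg C5
  have hl2 := Real.log_two_gt_d9
  -- split
  rw [← Finset.sum_filter_add_sum_filter_not Q.primeFactors (fun p : ℕ => (p : ℝ) ≤ K)]
  have hbig : ∑ p ∈ Q.primeFactors.filter (fun p : ℕ => ¬ (p : ℝ) ≤ K), (1 : ℝ) / p ≤ 2 := by
    calc ∑ p ∈ Q.primeFactors.filter (fun p : ℕ => ¬ (p : ℝ) ≤ K), (1 : ℝ) / p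
        ≤ ∑ p ∈ Q.primeFactors.filter (fun p : ℕ => ¬ (p : ℝ) ≤ K), 1 / K := by
          apply Finset.sum_le_sum
          intro p hp
          rw [mem_filter, not_le] at hp
          exact one_div_le_one_div_of_le (by linarith) hp.2.le
      _ ≤ Q.primeFactors.card * (1 / K) := by
          rw [Finset.sum_const, nsmul_eq_mul]
          apply mul_le_mul_of_nonneg_right
          · exact_mod_cast Finset.card_filter_le _ _
          · positivity
      _ ≤ 2 := by
          have h1 := mert_card hQ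
          have h2 : (Q.primeFactors.card : ℝ) ≤ 2 * K := by nlinarith
          rw [mul_one_div, div_le_iff₀ (by linarith)]
          exact h2
  have hsmall : ∑ p ∈ Q.primeFactors.filter (fun p : ℕ => (p : ℝ) ≤ K), (1 : ℝ) / p ≤
      |C5| + Real.log (1 + Real.log K) := by
    rcases lt_or_ge K 2 with h2 | h2
    · have : Q.primeFactors.filter (fun p : ℕ => (p : ℝ) ≤ K) = ∅ := by
        rw [Finset.filter_eq_empty_iff]
        intro p hp hpK
        have h3 : 2 ≤ p := (Nat.prime_of_mem_primeFactors hp).two_le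
        have h4 : (2 : ℝ) ≤ p := by exact_mod_cast h3
        linarith
      rw [this, Finset.sum_empty]
      linarith
    · have h3 : ∑ p ∈ Q.primeFactors.filter (fun p : ℕ => (p : ℝ) ≤ K), (1 : ℝ) / p ≤
          ∑ p ∈ prLe K, (1 : ℝ) / p := by
        apply Finset.sum_le_sum_of_subset_of_nonneg
        · intro p hp
          rw [mem_filter] at hp
          unfold prLe
          rw [mem_filter, mem_range]
          exact ⟨Nat.lt_succ_of_le (Nat.le_floor hp.2), Nat.prime_of_mem_primeFactors hp.1⟩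
        · intro p _ _
          positivity
      have h4 := (abs_le.mp (h5 K h2)).2
      have h6 : Real.log (Real.log K) ≤ Real.log (1 + Real.log K) := by
        apply Real.log_le_log (Real.log_pos (by linarith)) (by linarith)
      have h7 := le_abs_self C5
      linarith
  linarith

end EK75

end S_H75_EK_Mert

section S_H75_EK_Pb1

/-! Module PB1: integers `x` with `p^e ∣ G(x)`. -/

open Polynomial Finset
open scoped Real BigOperators

namespace EK75

theorem pb1_val {p : ℤ} (hp : Prime p) : ∀ (i m : ℕ) (a b : ℤ), ¬ (p ^ (i + 1) ∣ a) →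
    p ^ (i + m) ∣ a * b → p ^ m ∣ b := by
  intro i
  induction i with
  | zero =>
    intro m a b ha hab
    rw [zero_add, pow_one] at ha
    rw [zero_add] at hab
    exact hp.pow_dvd_of_dvd_mul_left m ha hab
  | succ i ih =>
    intro m a b ha hab
    by_cases h : p ∣ a
    · obtain ⟨a', rfl⟩ := h
      refine ih m a' b ?_ ?_
      · intro h1
        apply ha
        rw [pow_succ' p (i + 1)]
        exact mul_dvd_mul_left p h1
      · have h2 : p * p ^ (i + m) ∣ p * (a' * b) := by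
          rw [← pow_succ', ← mul_assoc]
          have : i + m + 1 = i + 1 + m := by ring
          rwa [this]
        exact (mul_dvd_mul_iff_left hp.ne_zero).1 h2
    · have h1 := hp.pow_dvd_of_dvd_mul_left (i + 1 + m) h hab
      exact (pow_dvd_pow p (by omega)).trans h1

/-- `D + 1` solutions which are pairwise incongruent mod `p^(i+1)` force `p ∣ G` -/
theorem pb1_claim (p : ℕ) (hp : p.Prime) (i : ℕ) : ∀ (D : ℕ) (G : ℤ[X]) (e : ℕ) (S : Finset ℤ),
    G.natDegree ≤ D → S.card = D + 1 →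
    (∀ x ∈ S, ∀ y ∈ S, x ≠ y → ¬ ((p : ℤ) ^ (i + 1) ∣ x - y)) → D * i < e →
    (∀ x ∈ S, (p : ℤ) ^ e ∣ G.eval x) → ∀ j, (p : ℤ) ∣ G.coeff j := by
  intro D
  induction D with
  | zero =>
    intro G e S hG hS _ he hdiv j
    have hpos : 0 < S.card := by omega
    obtain ⟨x, hx⟩ := Finset.card_pos.1 hpos
    have hGC : G = C (G.coeff 0) := Polynomial.eq_C_of_natDegree_le_zero hG
    have h1 := hdiv x hx
    rw [hGC, Polynomial.eval_C] at h1
    have h2 : (p : ℤ) ∣ G.coeff 0 := (dvd_pow_self (p : ℤ) (by omega)).trans h1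
    by_cases hj : j = 0
    · rw [hj]; exact h2
    · rw [hGC, Polynomial.coeff_C_of_ne_zero hj]; exact dvd_zero _
  | succ D ih =>
    intro G e S hG hS hinc he hdiv
    have hpZ : Prime (p : ℤ) := Nat.prime_iff_prime_int.1 hp
    have hpos : 0 < S.card := by omega
    obtain ⟨x0, hx0⟩ := Finset.card_pos.1 hpos
    set G1 := G /ₘ (X - C x0) with hG1
    have hdecomp : G = C (G.eval x0) + (X - C x0) * G1 := by
      have := Polynomial.modByMonic_add_div G (X - C x0)
      rw [Polynomial.modByMonic_X_sub_C_eq_C_eval] at this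
      exact this.symm
    have hdeg : G1.natDegree ≤ D := by
      rw [hG1, Polynomial.natDegree_divByMonic G (monic_X_sub_C x0), natDegree_X_sub_C]
      omega
    have hei : D * i < e - i := by
      have : (D + 1) * i = D * i + i := by ring
      omega
    have h1 : ∀ j, (p : ℤ) ∣ G1.coeff j := by
      refine ih G1 (e - i) (S.erase x0) hdeg ?_ ?_ hei ?_
      · rw [Finset.card_erase_of_mem hx0, hS]; rfl
      · intro x hx y hy hxy
        exact hinc x (Finset.mem_of_mem_erase hx) y (Finset.mem_of_mem_erase hy) hxy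
      · intro x hx
        have hxS := Finset.mem_of_mem_erase hx
        have hne : x ≠ x0 := Finset.ne_of_mem_erase hx
        have h2 : (p : ℤ) ^ e ∣ (x - x0) * G1.eval x := by
          have h3 : G.eval x - G.eval x0 = (x - x0) * G1.eval x := by
            conv_lhs => rw [hdecomp]
            simp
          rw [← h3]
          exact dvd_sub (hdiv x hxS) (hdiv x0 hx0)
        have h4 : ¬ ((p : ℤ) ^ (i + 1) ∣ x - x0) := hinc x hxS x0 hx0 hne
        -- `v_p (x - x0) ≤ i`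
        have h5 : (p : ℤ) ^ (e - i + i) ∣ (x - x0) * G1.eval x := by
          rwa [Nat.sub_add_cancel (by
            have : (D + 1) * i = D * i + i := by ring
            omega)]
        have h6 : e - i + i = i + (e - i) := by omega
        rw [h6] at h5
        exact pb1_val hpZ i (e - i) _ _ h4 h5
    have h0 : (p : ℤ) ∣ G.eval x0 := (dvd_pow_self (p : ℤ) (by omega)).trans (hdiv x0 hx0)
    have hCp : C (p : ℤ) ∣ G := by
      rw [hdecomp]
      refine dvd_add ?_ ?_
      · obtain ⟨c, hc⟩ := h0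
        rw [hc, C_mul]
        exact dvd_mul_right _ _
      · exact dvd_mul_of_dvd_right ((Polynomial.C_dvd_iff_dvd_coeff _ _).2 h1) _
    exact (Polynomial.C_dvd_iff_dvd_coeff _ _).1 hCp

theorem content_count (D : ℕ) (G : ℤ[X]) (hG : G.natDegree ≤ D) (p : ℕ) (hp : p.Prime)
    (hc : ∃ j, ¬ ((p : ℤ) ∣ G.coeff j)) (e i : ℕ) (hi : D * i < e) (X : ℕ) :
    ((range X).filter (fun x : ℕ => (p : ℤ) ^ e ∣ G.eval (x : ℤ))).card ≤
      D * (X / p ^ (i + 1) + 1) := by
  have hr : 0 < p ^ (i + 1) := pow_pos hp.pos _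
  set S := (range X).filter (fun x : ℕ => (p : ℤ) ^ e ∣ G.eval (x : ℤ)) with hS
  have himg : (S.image (fun x => x % p ^ (i + 1))).card ≤ D := by
    by_contra hcon
    push Not at hcon
    obtain ⟨T, hT, hTc⟩ := Finset.exists_subset_card_eq (Nat.succ_le_of_lt hcon)
    have hsurj : Set.SurjOn (fun x => x % p ^ (i + 1)) (S : Set ℕ) (T : Set ℕ) := by
      intro t ht
      have := hT (Finset.mem_coe.1 ht)
      rw [Finset.mem_image] at this
      obtain ⟨x, hx, hxt⟩ := this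
      exact ⟨x, Finset.mem_coe.2 hx, hxt⟩
    obtain ⟨U, hUS, hinj, hUT⟩ := Finset.exists_subset_injOn_image_eq_of_surjOn _ T hsurj
    have hUc : U.card = D + 1 := by
      rw [← Nat.succ_eq_add_one, ← hTc, ← hUT, Finset.card_image_of_injOn hinj]
    obtain ⟨j, hj⟩ := hc
    apply hj
    refine pb1_claim p hp i D G e (U.image (fun x : ℕ => (x : ℤ))) hG ?_ ?_ hi ?_ j
    · rw [Finset.card_image_of_injective _ Nat.cast_injective, hUc]
    · intro x hx y hy hxy hdvd
      rw [Finset.mem_image] at hx hy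
      obtain ⟨x, hx, rfl⟩ := hx
      obtain ⟨y, hy, rfl⟩ := hy
      apply hxy
      have h1 : x = y := by
        apply hinj (Finset.mem_coe.2 hx) (Finset.mem_coe.2 hy)
        have h2 : ((p ^ (i + 1) : ℕ) : ℤ) ∣ (x : ℤ) - y := by push_cast; exact hdvd
        exact ((Nat.modEq_iff_dvd).2 h2).symm
      rw [h1]
    · intro x hx
      rw [Finset.mem_image] at hx
      obtain ⟨x, hx, rfl⟩ := hx
      have := hUS (Finset.mem_coe.2 hx)
      rw [hS, Finset.mem_coe, Finset.mem_filter] at this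
      exact this.2
  have hcls : ∀ b ∈ S.image (fun x => x % p ^ (i + 1)),
      (S.filter (fun x => x % p ^ (i + 1) = b)).card ≤ X / p ^ (i + 1) + 1 := by
    intro b hb
    rw [Finset.mem_image] at hb
    obtain ⟨y, -, rfl⟩ := hb
    calc (S.filter (fun x => x % p ^ (i + 1) = y % p ^ (i + 1))).card
        ≤ ((range X).filter (fun x => x ≡ y [MOD p ^ (i + 1)])).card := by
          apply Finset.card_le_card
          intro x hx
          rw [Finset.mem_filter] at hx ⊢
          exact ⟨(Finset.mem_filter.1 hx.1).1, hx.2⟩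
      _ = X.count (· ≡ y [MOD p ^ (i + 1)]) := by rw [Nat.count_eq_card_filter_range]
      _ ≤ X / p ^ (i + 1) + 1 := by
          rw [Nat.count_modEq_card _ hr]
          split_ifs <;> omega
  calc S.card ≤ (X / p ^ (i + 1) + 1) * (S.image (fun x => x % p ^ (i + 1))).card :=
        Finset.card_le_mul_card_image S _ hcls
    _ ≤ (X / p ^ (i + 1) + 1) * D := Nat.mul_le_mul_left _ himg
    _ = D * (X / p ^ (i + 1) + 1) := mul_comm _ _

end EK75

end S_H75_EK_Pb1

section S_H75_EK_Pb3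

/-! Module PB3: divisor bound. -/

open Polynomial Finset
open scoped Real BigOperators

namespace EK75

theorem pb3_gen (K ε : ℝ) (hK : 1 ≤ K) (N0 : ℕ) (F : ℕ → ℝ) (q : ℕ) (hq : 1 ≤ q)
    (hF : ∀ p ∈ q.primeFactors, 0 ≤ F p ∧
      F p ≤ (if p < N0 then K else 1) * (((p : ℝ) ^ (q.factorization p)) ^ ε)) :
    ∏ p ∈ q.primeFactors, F p ≤ K ^ N0 * (q : ℝ) ^ ε := by
  have hq0 : q ≠ 0 := by omega
  calc ∏ p ∈ q.primeFactors, F p
      ≤ ∏ p ∈ q.primeFactors, ((if p < N0 then K else 1) *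
        (((p : ℝ) ^ (q.factorization p)) ^ ε)) :=
        Finset.prod_le_prod (fun p hp => (hF p hp).1) (fun p hp => (hF p hp).2)
    _ = (∏ p ∈ q.primeFactors, (if p < N0 then K else 1)) *
        ∏ p ∈ q.primeFactors, (((p : ℝ) ^ (q.factorization p)) ^ ε) := Finset.prod_mul_distrib
    _ ≤ K ^ N0 * (q : ℝ) ^ ε := by
        apply mul_le_mul
        · rw [Finset.prod_ite, Finset.prod_const_one, mul_one, Finset.prod_const]
          apply pow_le_pow_right₀ hK
          have : (q.primeFactors.filter (fun p => p < N0)) ⊆ range N0 := by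
            intro p hp
            exact Finset.mem_range.2 (Finset.mem_filter.1 hp).2
          exact (Finset.card_le_card this).trans (by simp)
        · rw [Real.finsetProd_rpow _ _ (fun p _ => by positivity)]
          have h1 : ∏ p ∈ q.primeFactors, (p : ℝ) ^ (q.factorization p) = (q : ℝ) := by
            have := Nat.prod_factorization_pow_eq_self hq0
            rw [Finsupp.prod, Nat.support_factorization] at this
            exact_mod_cast this
          rw [h1]
        · apply Finset.prod_nonneg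
          intro p _
          positivity
        · positivity

theorem tau_le (ε : ℝ) (hε : 0 < ε) : ∃ C : ℝ, ∀ q : ℕ, 1 ≤ q → (q.divisors.card : ℝ) ≤ C * (q : ℝ) ^ ε := by
  set K : ℝ := max 1 (1 / (ε * Real.log 2)) with hK
  have hlog : 0 < Real.log 2 := Real.log_pos (by norm_num)
  have hK1 : 1 ≤ K := le_max_left _ _
  have hK2 : 1 ≤ K * (ε * Real.log 2) := by
    have h1 : 1 / (ε * Real.log 2) ≤ K := le_max_right _ _
    have h2 : 0 < ε * Real.log 2 := by positivity
    rw [div_le_iff₀ h2] at h1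
    exact h1
  set N0 : ℕ := ⌈(2 : ℝ) ^ (1 / ε)⌉₊ with hN0
  refine ⟨K ^ N0, ?_⟩
  intro q hq
  have hq0 : q ≠ 0 := by omega
  rw [Nat.card_divisors hq0]
  push_cast
  apply pb3_gen K ε hK1 N0 _ q hq
  intro p hp
  have hpp : p.Prime := Nat.prime_of_mem_primeFactors hp
  have hp2 : (2 : ℝ) ≤ p := by exact_mod_cast hpp.two_le
  refine ⟨by positivity, ?_⟩
  set v := q.factorization p
  have hrw : (((p : ℝ) ^ v) ^ ε) = ((p : ℝ) ^ ε) ^ v := by
    rw [← Real.rpow_natCast, ← Real.rpow_natCast, ← Real.rpow_mul (by positivity),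
      ← Real.rpow_mul (by positivity), mul_comm]
  split_ifs with hlt
  · -- small primes
    have h1 : ((2 : ℝ) ^ ε) ^ v ≤ ((p : ℝ) ^ ε) ^ v := by
      apply pow_le_pow_left₀ (by positivity)
      exact Real.rpow_le_rpow (by norm_num) hp2 hε.le
    have h2 : 1 + (v : ℝ) * (ε * Real.log 2) ≤ ((2 : ℝ) ^ ε) ^ v := by
      have h3 : ((2 : ℝ) ^ ε) ^ v = Real.exp ((v : ℝ) * (ε * Real.log 2)) := by
        rw [Real.rpow_def_of_pos (by norm_num), ← Real.exp_nat_mul]
        congr 1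
        ring
      rw [h3]
      have := Real.add_one_le_exp ((v : ℝ) * (ε * Real.log 2))
      linarith
    rw [hrw]
    have hv : (0 : ℝ) ≤ v := Nat.cast_nonneg v
    calc (v : ℝ) + 1 ≤ v * (K * (ε * Real.log 2)) + K := by nlinarith
      _ = K * (1 + v * (ε * Real.log 2)) := by ring
      _ ≤ K * ((p : ℝ) ^ ε) ^ v := by
          apply mul_le_mul_of_nonneg_left (h2.trans h1) (by linarith)
  · -- large primes
    rw [one_mul, hrw]
    have h1 : (2 : ℝ) ^ (1 / ε) ≤ p := by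
      have h2 : (N0 : ℝ) ≤ p := by exact_mod_cast not_lt.1 hlt
      exact (Nat.le_ceil _).trans h2
    have h2 : (2 : ℝ) ≤ (p : ℝ) ^ ε := by
      have h3 := Real.rpow_le_rpow (by positivity) h1 hε.le
      rw [← Real.rpow_mul (by norm_num), one_div, inv_mul_cancel₀ hε.ne', Real.rpow_one] at h3
      exact h3
    have h3 : (2 : ℝ) ^ v ≤ ((p : ℝ) ^ ε) ^ v := pow_le_pow_left₀ (by norm_num) h2 v
    have h4 : (v : ℝ) + 1 ≤ 2 ^ v := by
      have : v + 1 ≤ 2 ^ v := Nat.lt_two_pow_self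
      exact_mod_cast this
    linarith

theorem omega_le (K ε : ℝ) (hK : 1 ≤ K) (hε : 0 < ε) : ∃ C : ℝ, ∀ q : ℕ, 1 ≤ q →
    K ^ q.primeFactors.card ≤ C * (q : ℝ) ^ ε := by
  set N0 : ℕ := ⌈K ^ (1 / ε)⌉₊ with hN0
  refine ⟨K ^ N0, ?_⟩
  intro q hq
  have h0 := pb3_gen K ε hK N0 (fun _ => K) q hq ?_
  · rwa [Finset.prod_const] at h0
  intro p hp
  have hpp : p.Prime := Nat.prime_of_mem_primeFactors hp
  have hp2 : (2 : ℝ) ≤ p := by exact_mod_cast hpp.two_le
  refine ⟨by positivity, ?_⟩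
  have hv : 1 ≤ q.factorization p := by
    have := (Nat.Prime.dvd_iff_one_le_factorization hpp (by omega)).1 (Nat.dvd_of_mem_primeFactors hp)
    exact this
  have h1 : (p : ℝ) ^ ε ≤ ((p : ℝ) ^ (q.factorization p)) ^ ε := by
    apply Real.rpow_le_rpow (by positivity) _ hε.le
    calc (p : ℝ) = (p : ℝ) ^ 1 := (pow_one _).symm
      _ ≤ (p : ℝ) ^ (q.factorization p) := pow_le_pow_right₀ (by linarith) hv
  split_ifs with hlt
  · have h2 : (1 : ℝ) ≤ (p : ℝ) ^ ε := Real.one_le_rpow (by linarith) hε.le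
    have h3 : 1 ≤ ((p : ℝ) ^ (q.factorization p)) ^ ε := h2.trans h1
    nlinarith
  · rw [one_mul]
    have h2 : K ^ (1 / ε) ≤ p := by
      have h2 : (N0 : ℝ) ≤ p := by exact_mod_cast not_lt.1 hlt
      exact (Nat.le_ceil _).trans h2
    have h3 := Real.rpow_le_rpow (by positivity) h2 hε.le
    rw [← Real.rpow_mul (by linarith), one_div, inv_mul_cancel₀ hε.ne', Real.rpow_one] at h3
    exact h3.trans h1

end EK75

end S_H75_EK_Pb3
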