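import Mathlib
import Pool.Agent.H75.EM.L1

/-! Erdos-Kac law for integer parts of real polynomials, part L2: this file joins several modules to save build time. -/

section S_H75_EK_Lat

/-! Module LAT: counting points of ideal lattices in boxes. -/

open Polynomial Finset
open scoped Real BigOperators

namespace EK75

/-- the lattice of `u ∈ ℤ^k` with `∑ u_i θ^i ∈ J` -/
def latI {R' : Type*} [CommRing R'] (k : ℕ) (θ : R') (J : Ideal R') :
    AddSubgroup (Fin k → ℤ) where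
  carrier := {u | ∑ i, (u i : R') * θ ^ (i : ℕ) ∈ J}
  zero_mem' := by simp
  add_mem' := by
    intro a b ha hb
    simp only [Set.mem_ofPred_eq, Pi.add_apply, Int.cast_add, add_mul, sum_add_distrib] at *
    exact J.add_mem ha hb
  neg_mem' := by
    intro a ha
    simp only [Set.mem_ofPred_eq, Pi.neg_apply, Int.cast_neg, neg_mul, sum_neg_distrib] at *
    exact J.neg_mem ha

theorem lat_mem {R' : Type*} [CommRing R'] {k : ℕ} {θ : R'} {J : Ideal R'} {u : Fin k → ℤ} :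
    u ∈ latI k θ J ↔ ∑ i, (u i : R') * θ ^ (i : ℕ) ∈ J := Iff.rfl

/-- small representatives of the classes -/
theorem lat_reps {k : ℕ} (L : AddSubgroup (Fin k → ℤ)) (R : ℕ)
    (hcov : ∀ z : Fin k → ℤ, ∃ d ∈ L, ∀ i, |z i - d i| ≤ (R : ℤ)) :
    ∃ r : ((Fin k → ℤ) ⧸ L) → (Fin k → ℤ), (∀ c, ((r c : Fin k → ℤ) : (Fin k → ℤ) ⧸ L) = c) ∧
      ∀ c i, |r c i| ≤ (R : ℤ) := by
  have h : ∀ c : (Fin k → ℤ) ⧸ L, ∃ z : Fin k → ℤ, ((z : Fin k → ℤ) : (Fin k → ℤ) ⧸ L) = c ∧
      ∀ i, |z i| ≤ (R : ℤ) := by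
    intro c
    obtain ⟨z, rfl⟩ := QuotientAddGroup.mk_surjective c
    obtain ⟨d, hd, hz⟩ := hcov z
    refine ⟨z - d, ?_, fun i => hz i⟩
    rw [QuotientAddGroup.eq]
    have : -(z - d) + z = d := by abel
    rw [this]; exact hd
  choose r hr using h
  exact ⟨r, fun c => (hr c).1, fun c => (hr c).2⟩

open Classical in
theorem lat_count {k : ℕ} (L : AddSubgroup (Fin k → ℤ)) (m : ℕ) (hm : 1 ≤ m)
    (hidx : L.index = m) (R : ℕ)
    (hcov : ∀ z : Fin k → ℤ, ∃ d ∈ L, ∀ i, |z i - d i| ≤ (R : ℤ)) (X : ℕ) :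
    ((boxZ k X).filter (fun u => u ∈ L)).card * m ≤ (X + 2 * R) ^ k ∧
    (2 * R ≤ X → (X - 2 * R) ^ k ≤ m * ((boxZ k X).filter (fun u => u ∈ L)).card) := by
  obtain ⟨r, hr1, hr2⟩ := lat_reps L R hcov
  have hfin : Finite ((Fin k → ℤ) ⧸ L) := by
    have : L.index ≠ 0 := by omega
    exact Nat.finite_of_card_ne_zero this
  have : Fintype ((Fin k → ℤ) ⧸ L) := Fintype.ofFinite _
  have hcard : Fintype.card ((Fin k → ℤ) ⧸ L) = m := by
    rw [← hidx, AddSubgroup.index, Nat.card_eq_fintype_card]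
  have hbox : ∀ {u : Fin k → ℤ} {Y : ℕ}, u ∈ boxZ k Y ↔ ∀ i, 0 ≤ u i ∧ u i < Y := by
    intro u Y
    simp [boxZ, Fintype.mem_piFinset]
  constructor
  · -- upper bound
    have h1 : (((boxZ k X).filter (fun u => u ∈ L)) ×ˢ
        (Finset.univ : Finset ((Fin k → ℤ) ⧸ L))).card ≤
        (Fintype.piFinset fun _ : Fin k => Finset.Ico (-(R : ℤ)) (X + R : ℤ)).card := by
      refine Finset.card_le_card_of_injOn (fun x => x.1 + r x.2) ?_ ?_
      · rintro ⟨u, c⟩ hx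
        simp only [coe_product, Set.mem_prod, mem_coe, mem_filter, coe_univ, Set.mem_univ,
          and_true] at hx
        have hu := hbox.mp hx.1
        simp only [mem_coe, Fintype.mem_piFinset, mem_Ico, Pi.add_apply]
        intro i
        have h2 := abs_le.mp (hr2 c i)
        have h3 := hu i
        constructor <;> [linarith [h2.1]; skip]
        linarith [h2.2]
      · rintro ⟨u, c⟩ hx ⟨u', c'⟩ hx' heq
        simp only [coe_product, Set.mem_prod, mem_coe, mem_filter, coe_univ, Set.mem_univ,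
          and_true] at hx hx'
        dsimp only at heq
        have hc : c = c' := by
          have h4 := congrArg (fun z : Fin k → ℤ => (z : (Fin k → ℤ) ⧸ L)) heq
          simp only [QuotientAddGroup.mk_add, hr1] at h4
          rw [(QuotientAddGroup.eq_zero_iff u).mpr hx.2, (QuotientAddGroup.eq_zero_iff u').mpr hx'.2,
            zero_add, zero_add] at h4
          exact h4
        subst hc
        simpa using heq
    rw [Finset.card_product, Finset.card_univ, hcard, Fintype.card_piFinset] at h1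
    simp only [Int.card_Ico, prod_const, card_univ, Fintype.card_fin] at h1
    have h5 : ((X : ℤ) + R - -R).toNat = X + 2 * R := by omega
    rw [h5] at h1
    exact h1
  · intro hRX
    have h1 : (Fintype.piFinset fun _ : Fin k => Finset.Ico (R : ℤ) (X - R : ℤ)).card ≤
        ((Finset.univ : Finset ((Fin k → ℤ) ⧸ L)) ×ˢ
          ((boxZ k X).filter (fun u => u ∈ L))).card := by
      refine Finset.card_le_card_of_injOn
        (fun z => ((z : (Fin k → ℤ) ⧸ L), z - r (z : (Fin k → ℤ) ⧸ L))) ?_ ?_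
      · intro z hz
        simp only [mem_coe, Fintype.mem_piFinset, mem_Ico] at hz
        simp only [coe_product, Set.mem_prod, mem_coe, mem_filter, coe_univ, Set.mem_univ,
          true_and]
        constructor
        · rw [hbox]
          intro i
          have h2 := abs_le.mp (hr2 (z : (Fin k → ℤ) ⧸ L) i)
          have h3 := hz i
          simp only [Pi.sub_apply]
          constructor <;> [linarith [h2.2]; linarith [h2.1]]
        · rw [← QuotientAddGroup.eq_zero_iff, QuotientAddGroup.mk_sub, hr1, sub_self]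
      · intro z hz z' hz' heq
        simp only [Prod.mk.injEq] at heq
        rw [heq.1] at heq
        simpa using heq.2
    rw [Finset.card_product, Finset.card_univ, hcard, Fintype.card_piFinset] at h1
    simp only [Int.card_Ico, prod_const, card_univ, Fintype.card_fin] at h1
    have h5 : ((X : ℤ) - R - R).toNat = X - 2 * R := by omega
    rw [h5] at h1
    exact h1

/-- companion map -/
def latC {n : ℕ} (g : ℤ[X]) (u : Fin (n + 1) → ℤ) : Fin (n + 1) → ℤ :=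
  fun i => (Fin.cons 0 (fun j : Fin n => u j.castSucc) : Fin (n + 1) → ℤ) i
    - g.coeff (i : ℕ) * u (Fin.last n)

theorem latC_sum {n : ℕ} (g : ℤ[X]) (hg : g.Monic) (hd : g.natDegree = n + 1) {S : Type*}
    [CommRing S] (s : S) (hs : aeval s g = 0) (u : Fin (n + 1) → ℤ) :
    ∑ i, ((latC g u i : ℤ) : S) * s ^ (i : ℕ) = s * ∑ i, (u i : S) * s ^ (i : ℕ) := by
  have h0 : s ^ (n + 1) = - ∑ i : Fin (n + 1), (g.coeff (i : ℕ) : S) * s ^ (i : ℕ) := by
    have h1 := hs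
    rw [aeval_eq_sum_range, hd, Finset.sum_range_succ] at h1
    have h2 : g.coeff (n + 1) = 1 := by rw [← hd]; exact hg.coeff_natDegree
    rw [h2, one_smul] at h1
    rw [← Fin.sum_univ_eq_sum_range (fun i => g.coeff i • s ^ i)] at h1
    rw [eq_neg_iff_add_eq_zero, add_comm]
    simpa [zsmul_eq_mul] using h1
  have h3 : ∑ i : Fin (n + 1), ((latC g u i : ℤ) : S) * s ^ (i : ℕ) =
      (∑ i : Fin (n + 1), (((Fin.cons 0 (fun j : Fin n => u j.castSucc) : Fin (n + 1) → ℤ) i : ℤ) : S)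
        * s ^ (i : ℕ)) - (∑ i : Fin (n + 1), (g.coeff (i : ℕ) : S) * s ^ (i : ℕ)) *
          (u (Fin.last n) : S) := by
    rw [Finset.sum_mul, ← Finset.sum_sub_distrib]
    refine Finset.sum_congr rfl fun i _ => ?_
    simp only [latC, Int.cast_sub, Int.cast_mul]
    ring
  rw [h3, Fin.sum_univ_succ]
  simp only [Fin.cons_zero, Int.cast_zero, zero_mul, zero_add, Fin.cons_succ, Fin.val_succ]
  rw [Fin.sum_univ_castSucc (fun i => (u i : S) * s ^ (i : ℕ)), mul_add, Finset.mul_sum]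
  simp only [Fin.val_castSucc, Fin.val_last]
  have h4 : s * ((u (Fin.last n) : S) * s ^ n) = (u (Fin.last n) : S) * s ^ (n + 1) := by ring
  rw [h4, h0]
  have h5 : ∀ i : Fin n, s * ((u i.castSucc : S) * s ^ (i : ℕ)) =
      (u i.castSucc : S) * s ^ ((i : ℕ) + 1) := by intro i; ring
  simp only [h5]
  ring

theorem latC_norm {n : ℕ} (g : ℤ[X]) (H : ℝ) (hH : 1 ≤ H) (hht : HtLe g H) (u : Fin (n + 1) → ℤ)
    (M : ℝ) (hM : 0 ≤ M) (hu : ∀ i, |(u i : ℝ)| ≤ M) (i : Fin (n + 1)) :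
    |((latC g u i : ℤ) : ℝ)| ≤ (1 + H) * M := by
  have h1 : |(((Fin.cons 0 (fun j : Fin n => u j.castSucc) : Fin (n + 1) → ℤ) i : ℤ) : ℝ)| ≤ M := by
    refine Fin.cases ?_ (fun j => ?_) i
    · simpa using hM
    · simpa using hu j.castSucc
  have h2 : |((g.coeff (i : ℕ) : ℤ) : ℝ) * (u (Fin.last n) : ℝ)| ≤ H * M := by
    rw [abs_mul]
    exact mul_le_mul (hht i) (hu _) (abs_nonneg _) (by linarith)
  have h3 : ((latC g u i : ℤ) : ℝ) =
      (((Fin.cons 0 (fun j : Fin n => u j.castSucc) : Fin (n + 1) → ℤ) i : ℤ) : ℝ) -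
        ((g.coeff (i : ℕ) : ℤ) : ℝ) * (u (Fin.last n) : ℝ) := by
    simp only [latC, Int.cast_sub, Int.cast_mul]
  rw [h3]
  calc _ ≤ _ := abs_sub _ _
    _ ≤ M + H * M := add_le_add h1 h2
    _ = (1 + H) * M := by ring

/-- iterates of the companion map -/
def latW {n : ℕ} (g : ℤ[X]) (v : Fin (n + 1) → ℤ) : ℕ → (Fin (n + 1) → ℤ)
  | 0 => v
  | j + 1 => latC g (latW g v j)

theorem latW_sum {n : ℕ} (g : ℤ[X]) (hg : g.Monic) (hd : g.natDegree = n + 1) {S : Type*}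
    [CommRing S] (s : S) (hs : aeval s g = 0) (v : Fin (n + 1) → ℤ) (j : ℕ) :
    ∑ i, ((latW g v j i : ℤ) : S) * s ^ (i : ℕ) = s ^ j * ∑ i, (v i : S) * s ^ (i : ℕ) := by
  induction j with
  | zero => simp [latW]
  | succ j ih =>
    rw [latW, latC_sum g hg hd s hs, ih, pow_succ]; ring

theorem latW_norm {n : ℕ} (g : ℤ[X]) (H : ℝ) (hH : 1 ≤ H) (hht : HtLe g H) (v : Fin (n + 1) → ℤ)
    (M : ℝ) (hM : 0 ≤ M) (hv : ∀ i, |(v i : ℝ)| ≤ M) (j : ℕ) (i : Fin (n + 1)) :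
    |((latW g v j i : ℤ) : ℝ)| ≤ (1 + H) ^ j * M := by
  induction j generalizing i with
  | zero => simpa [latW] using hv i
  | succ j ih =>
    have := latC_norm g H hH hht (latW g v j) ((1 + H) ^ j * M) (by positivity) ih i
    rw [latW]
    calc _ ≤ _ := this
      _ = _ := by rw [pow_succ]; ring

theorem lat_inj {n : ℕ} (g : ℤ[X]) (hg : g.Monic) (hd : g.natDegree = n + 1)
    (u : Fin (n + 1) → ℤ)
    (h : ∑ i, (u i : AdjoinRoot g) * (AdjoinRoot.root g) ^ (i : ℕ) = 0) : u = 0 := by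
  set P : ℤ[X] := ∑ i : Fin (n + 1), Polynomial.monomial (i : ℕ) (u i) with hP
  have hcoeff : ∀ i : Fin (n + 1), P.coeff i = u i := by
    intro i
    rw [hP, Polynomial.finsetSum_coeff]
    simp only [Polynomial.coeff_monomial]
    rw [Finset.sum_eq_single i]
    · simp
    · intro j _ hj
      rw [if_neg]
      intro h; exact hj (Fin.ext h)
    · simp
  have h1 : AdjoinRoot.mk g P = 0 := by
    rw [hP, map_sum, ← h]
    refine Finset.sum_congr rfl fun i _ => ?_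
    rw [← Polynomial.C_mul_X_pow_eq_monomial, map_mul, map_pow, AdjoinRoot.mk_X]
    congr 1
  rw [AdjoinRoot.mk_eq_zero] at h1
  have hP0 : P = 0 := by
    by_contra hne
    have h2 : P.natDegree < n + 1 := by
      rw [Polynomial.natDegree_lt_iff_degree_lt hne]
      refine (Polynomial.degree_sum_le _ _).trans_lt ?_
      rw [Finset.sup_lt_iff (by exact_mod_cast WithBot.bot_lt_coe (n + 1))]
      intro i _
      refine (Polynomial.degree_monomial_le _ _).trans_lt ?_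
      exact_mod_cast i.2
    have h3 := Polynomial.natDegree_le_of_dvd h1 hne
    omega
  ext i
  rw [← hcoeff i, hP0]
  simp

theorem lat_indep {n : ℕ} (g : ℤ[X]) (hg : g.Monic) (hd : g.natDegree = n + 1)
    (hirr : Irreducible g) (v : Fin (n + 1) → ℤ) (hv0 : v ≠ 0) :
    LinearIndependent ℚ (fun (j : Fin (n + 1)) (i : Fin (n + 1)) => (latW g v (j : ℕ) i : ℚ)) := by
  rw [← LinearIndependent.iff_fractionRing ℤ ℚ, Fintype.linearIndependent_iff]
  intro c hc
  have hprime : Prime g := hirr.prime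
  have hdom : IsDomain (AdjoinRoot g) := AdjoinRoot.isDomain_of_prime hprime
  have hroot : aeval (AdjoinRoot.root g) g = 0 := by
    rw [aeval_def, AdjoinRoot.algebraMap_eq]; exact AdjoinRoot.eval₂_root _
  have h1 : ∀ i, ∑ j : Fin (n + 1), c j * latW g v (j : ℕ) i = 0 := by
    intro i
    have h2 := congrFun hc i
    have h2' : ∑ j : Fin (n + 1), (c j : ℚ) * (latW g v (j : ℕ) i : ℚ) = 0 := by
      rw [Finset.sum_apply] at h2
      refine Eq.trans (Finset.sum_congr rfl fun j _ => ?_) h2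
      rw [Pi.smul_apply, zsmul_eq_mul]
    exact_mod_cast h2'
  have h3 : (∑ j : Fin (n + 1), (c j : AdjoinRoot g) * (AdjoinRoot.root g) ^ (j : ℕ)) *
      (∑ i, (v i : AdjoinRoot g) * (AdjoinRoot.root g) ^ (i : ℕ)) = 0 := by
    calc _ = ∑ j : Fin (n + 1), (c j : AdjoinRoot g) *
          ∑ i, ((latW g v (j : ℕ) i : ℤ) : AdjoinRoot g) * (AdjoinRoot.root g) ^ (i : ℕ) := by
          rw [Finset.sum_mul]
          refine Finset.sum_congr rfl fun j _ => ?_
          rw [latW_sum g hg hd _ hroot v j]; ring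
      _ = ∑ i : Fin (n + 1), ((∑ j : Fin (n + 1), c j * latW g v (j : ℕ) i : ℤ) : AdjoinRoot g) *
          (AdjoinRoot.root g) ^ (i : ℕ) := by
          simp_rw [Finset.mul_sum, Int.cast_sum, Finset.sum_mul]
          rw [Finset.sum_comm]
          refine Finset.sum_congr rfl fun i _ => Finset.sum_congr rfl fun j _ => ?_
          push_cast; ring
      _ = 0 := by simp [h1]
  rcases mul_eq_zero.mp h3 with h4 | h4
  · have := lat_inj g hg hd c h4
    intro i
    rw [this]; rfl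
  · exact absurd (lat_inj g hg hd v h4) hv0

/-- covering radius -/
theorem lat_cov {n : ℕ} (g : ℤ[X]) (hg : g.Monic) (hd : g.natDegree = n + 1)
    (hirr : Irreducible g) (H : ℝ) (hH : 1 ≤ H) (hht : HtLe g H)
    {R' : Type*} [CommRing R'] (θ : R') (hθ : aeval θ g = 0) (J : Ideal R')
    (v : Fin (n + 1) → ℤ) (hvL : v ∈ latI (n + 1) θ J) (hv0 : v ≠ 0) (M : ℝ) (hM : 0 ≤ M)
    (hv : ∀ i, |(v i : ℝ)| ≤ M) (z : Fin (n + 1) → ℤ) :
    ∃ d ∈ latI (n + 1) θ J, ∀ i, |((z i - d i : ℤ) : ℝ)| ≤ (n + 1) * ((1 + H) ^ n * M) := by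
  classical
  have hli := lat_indep g hg hd hirr v hv0
  let B := basisOfLinearIndependentOfCardEqFinrank hli (by simp)
  have hB : ∀ j : Fin (n + 1), B j = fun i => (latW g v (j : ℕ) i : ℚ) := by
    intro j
    simp [B]
  let x : Fin (n + 1) → ℚ := fun j => B.repr (fun i => (z i : ℚ)) j
  let d : Fin (n + 1) → ℤ := ∑ j : Fin (n + 1), ⌊x j⌋ • latW g v (j : ℕ)
  have hW : ∀ j : ℕ, latW g v j ∈ latI (n + 1) θ J := by
    intro j
    rw [lat_mem, latW_sum g hg hd θ hθ v j]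
    exact J.mul_mem_left _ (lat_mem.mp hvL)
  have hdL : d ∈ latI (n + 1) θ J :=
    AddSubgroup.sum_mem _ fun j _ => AddSubgroup.zsmul_mem _ (hW j) _
  refine ⟨d, hdL, ?_⟩
  -- coordinates
  have hco : ∀ i, (z i : ℚ) = ∑ j : Fin (n + 1), x j * (latW g v (j : ℕ) i : ℚ) := by
    intro i
    have h4 := congrFun (B.sum_repr (fun i => (z i : ℚ))) i
    simp only [Finset.sum_apply, Pi.smul_apply, smul_eq_mul] at h4
    rw [← h4]
    refine Finset.sum_congr rfl fun j _ => ?_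
    rw [hB]
  intro i
  have h9 : ((z i - d i : ℤ) : ℚ) = ∑ j : Fin (n + 1), Int.fract (x j) * (latW g v (j : ℕ) i : ℚ) := by
    have h10 : (d i : ℚ) = ∑ j : Fin (n + 1), (⌊x j⌋ : ℚ) * (latW g v (j : ℕ) i : ℚ) := by
      simp only [d, Finset.sum_apply, Pi.smul_apply, smul_eq_mul, Int.cast_sum, Int.cast_mul]
    rw [Int.cast_sub, hco i, h10, ← Finset.sum_sub_distrib]
    refine Finset.sum_congr rfl fun j _ => ?_
    rw [← sub_mul]
    rfl
  have h11 : ((z i - d i : ℤ) : ℝ) =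
      ∑ j : Fin (n + 1), ((Int.fract (x j) : ℚ) : ℝ) * (latW g v (j : ℕ) i : ℝ) := by
    have := congrArg (fun q : ℚ => (q : ℝ)) h9
    simpa using this
  rw [h11]
  calc _ ≤ ∑ j : Fin (n + 1), |((Int.fract (x j) : ℚ) : ℝ) * (latW g v (j : ℕ) i : ℝ)| :=
        Finset.abs_sum_le_sum_abs _ _
    _ ≤ ∑ _j : Fin (n + 1), (1 + H) ^ n * M := by
        refine Finset.sum_le_sum fun j _ => ?_
        rw [abs_mul]
        have h12 : |((Int.fract (x j) : ℚ) : ℝ)| ≤ 1 := by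
          rw [abs_of_nonneg (by exact_mod_cast Int.fract_nonneg (x j))]
          exact_mod_cast (Int.fract_lt_one (x j)).le
        have h13 := latW_norm g H hH hht v M hM hv (j : ℕ) i
        have h14 : (1 + H) ^ (j : ℕ) * M ≤ (1 + H) ^ n * M := by
          apply mul_le_mul_of_nonneg_right _ hM
          exact pow_le_pow_right₀ (by linarith) (by omega)
        calc _ ≤ 1 * ((1 + H) ^ n * M) :=
              mul_le_mul h12 (h13.trans h14) (abs_nonneg _) zero_le_one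
          _ = _ := one_mul _
    _ = _ := by simp

open Classical in
/-- covering radius of ideal lattices: `g` monic irreducible of degree `k`, coefficients bounded by `H` -/
theorem lat_ideal (k : ℕ) (hk : 1 ≤ k) (g : ℤ[X]) (hg : g.Monic) (hd : g.natDegree = k)
    (hirr : Irreducible g) (H : ℝ) (hH : 1 ≤ H) (hht : HtLe g H)
    {R' : Type*} [CommRing R'] (θ : R') (hθ : aeval θ g = 0) (J : Ideal R') (m : ℕ) (hm : 1 ≤ m)
    (hidx : (latI k θ J).index = m) (X : ℕ) (Rm : ℝ)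
    (hRm : Rm = k * (1 + H) ^ k * (m : ℝ) ^ ((1 : ℝ) / k)) :
    (((boxZ k X).filter (fun u => u ∈ latI k θ J)).card : ℝ) * m ≤ (X + 2 * Rm) ^ k ∧
    (2 * Rm ≤ X → (X - 2 * Rm) ^ k ≤ m * (((boxZ k X).filter (fun u => u ∈ latI k θ J)).card : ℝ)) := by
  obtain ⟨n, rfl⟩ : ∃ n, k = n + 1 := ⟨k - 1, by omega⟩
  set μ : ℝ := (m : ℝ) ^ ((1 : ℝ) / (n + 1 : ℕ)) with hμ
  have hμ0 : 0 ≤ μ := by positivity
  have hμm : μ ^ (n + 1) = m := by
    rw [hμ, ← Real.rpow_natCast, ← Real.rpow_mul (by positivity)]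
    rw [one_div, inv_mul_cancel₀ (by positivity), Real.rpow_one]
  -- pigeonhole
  have hpig : ∃ v ∈ latI (n + 1) θ J, v ≠ 0 ∧ ∀ i, |(v i : ℝ)| ≤ μ := by
    have hfin : Finite ((Fin (n + 1) → ℤ) ⧸ latI (n + 1) θ J) := by
      have : (latI (n + 1) θ J).index ≠ 0 := by omega
      exact Nat.finite_of_card_ne_zero this
    have : Fintype ((Fin (n + 1) → ℤ) ⧸ latI (n + 1) θ J) := Fintype.ofFinite _
    have hcard : Fintype.card ((Fin (n + 1) → ℤ) ⧸ latI (n + 1) θ J) = m := by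
      rw [← hidx, AddSubgroup.index, Nat.card_eq_fintype_card]
    have hlt : (Finset.univ : Finset ((Fin (n + 1) → ℤ) ⧸ latI (n + 1) θ J)).card <
        (boxZ (n + 1) (⌊μ⌋₊ + 1)).card := by
      rw [Finset.card_univ, hcard, boxZ, Fintype.card_piFinset]
      simp only [Int.card_Ico, prod_const, card_univ, Fintype.card_fin]
      have h1 : (((⌊μ⌋₊ + 1 : ℕ) : ℤ) - 0).toNat = ⌊μ⌋₊ + 1 := by omega
      rw [h1]
      have h2 : (m : ℝ) < ((⌊μ⌋₊ + 1 : ℕ) : ℝ) ^ (n + 1) := by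
        rw [← hμm]
        apply pow_lt_pow_left₀ _ hμ0 (by omega)
        push_cast
        exact Nat.lt_floor_add_one μ
      exact_mod_cast h2
    obtain ⟨u, hu, u', hu', hne, heq⟩ := Finset.exists_ne_map_eq_of_card_lt_of_maps_to hlt
      (f := fun u : Fin (n + 1) → ℤ => (u : (Fin (n + 1) → ℤ) ⧸ latI (n + 1) θ J))
      (fun _ _ => Finset.mem_univ _)
    have hb : ∀ {w : Fin (n + 1) → ℤ}, w ∈ boxZ (n + 1) (⌊μ⌋₊ + 1) → ∀ i, 0 ≤ w i ∧
        w i ≤ ⌊μ⌋₊ := by
      intro w hw i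
      simp only [boxZ, Fintype.mem_piFinset, mem_Ico] at hw
      have := hw i
      constructor <;> omega
    refine ⟨u - u', ?_, sub_ne_zero.mpr hne, ?_⟩
    · rw [← QuotientAddGroup.eq_zero_iff, QuotientAddGroup.mk_sub]
      exact sub_eq_zero.mpr heq
    · intro i
      have h3 := hb hu i
      have h4 := hb hu' i
      have h5 : |(u - u') i| ≤ (⌊μ⌋₊ : ℤ) := by
        rw [Pi.sub_apply, abs_le]; constructor <;> linarith [h3.1, h3.2, h4.1, h4.2]
      have h6 : |(((u - u') i : ℤ) : ℝ)| ≤ (⌊μ⌋₊ : ℝ) := by exact_mod_cast h5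
      exact h6.trans (Nat.floor_le hμ0)
  obtain ⟨v, hvL, hv0, hv⟩ := hpig
  have hcov0 := lat_cov g hg hd hirr H hH hht θ hθ J v hvL hv0 μ hμ0 hv
  have hRm0 : 0 ≤ Rm := by rw [hRm]; positivity
  have hle : ((n : ℝ) + 1) * ((1 + H) ^ n * μ) ≤ Rm := by
    rw [hRm]
    push_cast
    rw [mul_assoc ((n : ℝ) + 1)]
    apply mul_le_mul_of_nonneg_left _ (by positivity)
    apply mul_le_mul_of_nonneg_right _ hμ0
    exact pow_le_pow_right₀ (by linarith) (by omega)
  have hcov : ∀ z : Fin (n + 1) → ℤ, ∃ d ∈ latI (n + 1) θ J, ∀ i, |z i - d i| ≤ (⌊Rm⌋₊ : ℤ) := by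
    intro z
    obtain ⟨d, hdL, h⟩ := hcov0 z
    refine ⟨d, hdL, fun i => ?_⟩
    have h1 : |((z i - d i : ℤ) : ℝ)| ≤ Rm := (h i).trans hle
    have h2 : ((|z i - d i|.toNat : ℕ) : ℝ) ≤ Rm := by
      have h3 : ((|z i - d i|.toNat : ℤ)) = |z i - d i| := Int.toNat_of_nonneg (abs_nonneg _)
      have h4 : ((|z i - d i|.toNat : ℕ) : ℝ) = ((|z i - d i| : ℤ) : ℝ) := by
        rw [← h3]; norm_cast
      rw [h4, Int.cast_abs]; exact h1
    have h5 := Nat.le_floor h2
    omega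
  obtain ⟨hup, hlow⟩ := lat_count (latI (n + 1) θ J) m hm hidx ⌊Rm⌋₊ hcov X
  have hfl : ((⌊Rm⌋₊ : ℕ) : ℝ) ≤ Rm := Nat.floor_le hRm0
  constructor
  · have h1 : ((((boxZ (n + 1) X).filter (fun u => u ∈ latI (n + 1) θ J)).card * m : ℕ) : ℝ) ≤
        (((X + 2 * ⌊Rm⌋₊) ^ (n + 1) : ℕ) : ℝ) := by exact_mod_cast hup
    push_cast at h1
    refine h1.trans ?_
    apply pow_le_pow_left₀ (by positivity)
    linarith
  · intro h2R
    have h2 : 2 * ⌊Rm⌋₊ ≤ X := by
      have : ((2 * ⌊Rm⌋₊ : ℕ) : ℝ) ≤ X := by push_cast; linarith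
      exact_mod_cast this
    have h3 := hlow h2
    have h4 : (((X - 2 * ⌊Rm⌋₊) ^ (n + 1) : ℕ) : ℝ) ≤
        ((m * ((boxZ (n + 1) X).filter (fun u => u ∈ latI (n + 1) θ J)).card : ℕ) : ℝ) := by
      exact_mod_cast h3
    rw [Nat.cast_pow, Nat.cast_sub h2] at h4
    push_cast at h4
    refine le_trans ?_ h4
    apply pow_le_pow_left₀ (by linarith)
    linarith

end EK75

end S_H75_EK_Lat

section S_H75_EK_Nf

/-! Module NF: the number field `ℚ[X]/(g)` and the norm form `N(∑ u_i θ^i)`. -/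

open Polynomial Finset NumberField
open scoped Real BigOperators

set_option linter.unusedSectionVars false

namespace EK75

/-- `∑ u_i θ^i` -/
noncomputable def nu {K : Type} [Field K] [NumberField K] {k : ℕ} (θ : 𝓞 K) (u : Fin k → ℤ) : 𝓞 K :=
  ∑ i, (u i : 𝓞 K) * θ ^ (i : ℕ)

/-- `|N(∑ u_i θ^i)|` -/
noncomputable def nn {K : Type} [Field K] [NumberField K] {k : ℕ} (θ : 𝓞 K) (u : Fin k → ℤ) : ℕ :=
  (Algebra.norm ℤ (nu θ u)).natAbs

theorem nf_finrank_eq {A : Type} [Field A] (i j : Algebra ℚ A) :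
    @Module.finrank ℚ A _ _ (@Algebra.toModule _ _ _ _ i) =
      @Module.finrank ℚ A _ _ (@Algebra.toModule _ _ _ _ j) := by
  rw [Subsingleton.elim i j]

theorem nf_exists (k : ℕ) (hk : 1 ≤ k) (g : ℤ[X]) (hg : g.Monic) (hd : g.natDegree = k)
    (hirr : Irreducible g) :
    ∃ (K : Type) (_ : Field K) (_ : NumberField K) (θ : 𝓞 K),
      aeval θ g = 0 ∧ Module.finrank ℚ K = k := by
  set f : ℚ[X] := g.map (algebraMap ℤ ℚ) with hf
  have hfi : Irreducible f := (hg.irreducible_iff_irreducible_map_fraction_map (K := ℚ)).1 hirr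
  have : Fact (Irreducible f) := ⟨hfi⟩
  have hf0 : f ≠ 0 := hfi.ne_zero
  have hfr : @Module.finrank ℚ (AdjoinRoot f) _ _ (@Algebra.toModule _ _ _ _ inferInstance) = k := by
    rw [(AdjoinRoot.powerBasis hf0).finrank, AdjoinRoot.powerBasis_dim, hf,
      natDegree_map_eq_of_injective (algebraMap ℤ ℚ).injective_int, hd]
  have hroot : aeval (AdjoinRoot.root f) g = 0 := by
    have h := AdjoinRoot.eval₂_root f
    rw [hf, eval₂_map] at h
    rw [aeval_def, ← h]
    congr 1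
  have hint : IsIntegral ℤ (AdjoinRoot.root f) := ⟨g, hg, by rw [← aeval_def]; exact hroot⟩
  obtain ⟨θ, hθ⟩ : ∃ θ : 𝓞 (AdjoinRoot f), algebraMap (𝓞 (AdjoinRoot f)) (AdjoinRoot f) θ =
    AdjoinRoot.root f := ⟨⟨AdjoinRoot.root f, hint⟩, rfl⟩
  refine ⟨AdjoinRoot f, inferInstance, inferInstance, θ, ?_, ?_⟩
  · apply RingOfIntegers.coe_injective
    have h := aeval_algebraMap_apply (AdjoinRoot f) θ g
    rw [hθ, hroot] at h
    simpa using h.symm
  · rw [← hfr]

/-- `P_u = ∑ u_i X^i` -/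
noncomputable def nfPoly {k : ℕ} (u : Fin k → ℤ) : ℤ[X] := ∑ i : Fin k, C (u i) * X ^ (i : ℕ)

theorem nfPoly_aeval {K : Type} [Field K] [NumberField K] {k : ℕ} (θ : 𝓞 K) (u : Fin k → ℤ) :
    aeval θ (nfPoly u) = nu θ u := by
  simp [nfPoly, nu, map_sum]

theorem nfPoly_coeff {k : ℕ} (u : Fin k → ℤ) (i : Fin k) : (nfPoly u).coeff (i : ℕ) = u i := by
  classical
  rw [nfPoly, finsetSum_coeff]
  rw [Finset.sum_eq_single i]
  · simp
  · intro j _ hj
    rw [coeff_C_mul, coeff_X_pow, if_neg (fun h => hj (Fin.ext h.symm)), mul_zero]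
  · simp

/-- divisibility: `f(θ) = 0` iff `g ∣ f`. -/
theorem nf_dvd_of_aeval {K : Type} [Field K] [NumberField K] (g : ℤ[X]) (hg : g.Monic)
    (hirr : Irreducible g) (θ : 𝓞 K) (hθ : aeval θ g = 0) (f : ℤ[X]) (hf : aeval θ f = 0) : g ∣ f := by
  have hint : IsIntegral ℤ θ := ⟨g, hg, by rw [← aeval_def]; exact hθ⟩
  have h1 : minpoly ℤ θ ∣ g := (minpoly.isIntegrallyClosed_dvd_iff hint g).1 hθ
  have h2 : g ∣ minpoly ℤ θ := (minpoly.irreducible hint).dvd_symm hirr h1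
  exact h2.trans ((minpoly.isIntegrallyClosed_dvd_iff hint f).1 hf)

variable {K : Type} [Field K] [NumberField K] (k : ℕ) (hk : 1 ≤ k) (g : ℤ[X]) (hg : g.Monic)
  (hd : g.natDegree = k) (hirr : Irreducible g) (θ : 𝓞 K) (hθ : aeval θ g = 0)
  (hfr : Module.finrank ℚ K = k)

include hk hg hd hirr hθ hfr

theorem nf_pos (u : Fin k → ℤ) (hu : u ≠ 0) : 1 ≤ nn θ u := by
  rw [nn, Nat.one_le_iff_ne_zero, Int.natAbs_ne_zero, Algebra.norm_ne_zero_iff]
  intro h0
  have h1 : g ∣ nfPoly u := nf_dvd_of_aeval g hg hirr θ hθ _ (by rw [nfPoly_aeval, h0])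
  have h2 : (nfPoly u).degree < g.degree := by
    rw [degree_eq_natDegree hg.ne_zero, hd]
    exact degree_sum_fin_lt u
  have h3 : nfPoly u = 0 := eq_zero_of_dvd_of_degree_lt h1 h2
  apply hu
  funext i
  rw [← nfPoly_coeff u i, h3]
  simp

theorem nf_prod (u : Fin k → ℤ) :
    (nn θ u : ℝ) = ∏ σ : K →+* ℂ, ‖∑ i, (u i : ℂ) * (σ (θ : K)) ^ (i : ℕ)‖ := by
  have h1 := Algebra.norm_eq_prod_embeddings ℚ ℂ (nu θ u : K)
  rw [← Algebra.coe_norm_int] at h1
  have h2 : (nn θ u : ℝ) = ‖((algebraMap ℚ ℂ) ((Algebra.norm ℤ (nu θ u) : ℤ) : ℚ))‖ := by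
    rw [nn]
    simp
  rw [h2, h1, norm_prod]
  rw [← Equiv.prod_comp (RingHom.equivRatAlgHom K ℂ)]
  apply Finset.prod_congr rfl
  intro σ _
  congr 1
  simp [nu, map_sum]

theorem nf_emb (H : ℝ) (hH : 1 ≤ H) (hht : HtLe g H) (σ : K →+* ℂ) : ‖σ (θ : K)‖ ≤ 1 + H := by
  have hmon : (g.map (algebraMap ℤ ℂ)).Monic := hg.map _
  have hroot : (g.map (algebraMap ℤ ℂ)).IsRoot (σ (θ : K)) := by
    rw [IsRoot.def, eval_map]
    have h := congrArg (fun x : 𝓞 K => σ (x : K)) hθ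
    simp only [map_zero] at h
    rw [← h, aeval_def]
    have h2 := hom_eval₂ g (algebraMap ℤ (𝓞 K)) (σ.comp (algebraMap (𝓞 K) K)) θ
    simp only [RingHom.comp_apply] at h2
    rw [h2]
    congr 1
    exact RingHom.ext_int _ _
  have h1 := hroot.norm_lt_cauchyBound hmon.ne_zero
  have h2 : ((g.map (algebraMap ℤ ℂ)).cauchyBound : ℝ) ≤ H + 1 := by
    rw [cauchyBound, hmon.leadingCoeff]
    push_cast
    have h3 : ((Finset.range (g.map (algebraMap ℤ ℂ)).natDegree).sup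
        (fun x => ‖(g.map (algebraMap ℤ ℂ)).coeff x‖₊) : NNReal) ≤ H.toNNReal := by
      apply Finset.sup_le
      intro i _
      rw [← NNReal.coe_le_coe, Real.coe_toNNReal H (by linarith), coe_nnnorm, coeff_map]
      have := hht i
      simpa using this
    have h4 : (((Finset.range (g.map (algebraMap ℤ ℂ)).natDegree).sup
        (fun x => ‖(g.map (algebraMap ℤ ℂ)).coeff x‖₊) : NNReal) : ℝ) ≤ H := by
      rw [← NNReal.coe_le_coe, Real.coe_toNNReal H (by linarith)] at h3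
      exact h3
    simpa using h4
  have h5 : (‖σ (θ : K)‖₊ : ℝ) < ((g.map (algebraMap ℤ ℂ)).cauchyBound : ℝ) := by
    exact_mod_cast h1
  rw [coe_nnnorm] at h5
  linarith

theorem nf_le (H : ℝ) (hH : 1 ≤ H) (hht : HtLe g H) (X : ℕ) (u : Fin k → ℤ) (hu : u ∈ boxZ k X) :
    (nn θ u : ℝ) ≤ (k * X * (1 + H) ^ k) ^ k := by
  rw [nf_prod k hk g hg hd hirr θ hθ hfr u]
  have hcard : (Finset.univ : Finset (K →+* ℂ)).card = k := by
    rw [Finset.card_univ, NumberField.Embeddings.card, hfr]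
  have hX : (0 : ℝ) ≤ k * X * (1 + H) ^ k := by positivity
  have key : ∀ σ ∈ (Finset.univ : Finset (K →+* ℂ)),
      ‖∑ i : Fin k, (u i : ℂ) * (σ (θ : K)) ^ (i : ℕ)‖ ≤ k * X * (1 + H) ^ k := by
    intro σ _
    calc ‖∑ i : Fin k, (u i : ℂ) * (σ (θ : K)) ^ (i : ℕ)‖
        ≤ ∑ i : Fin k, ‖(u i : ℂ) * (σ (θ : K)) ^ (i : ℕ)‖ := norm_sum_le _ _
      _ ≤ ∑ i : Fin k, (X : ℝ) * (1 + H) ^ k := by
          apply Finset.sum_le_sum
          intro i _
          rw [norm_mul, norm_pow]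
          have h1 : ‖(u i : ℂ)‖ ≤ X := by
            rw [boxZ, Fintype.mem_piFinset] at hu
            have := hu i
            rw [Finset.mem_Ico] at this
            have h2 : ((u i : ℤ) : ℝ) ≤ X := by exact_mod_cast this.2.le
            have h3 : (0 : ℝ) ≤ (u i : ℤ) := by exact_mod_cast this.1
            rw [Complex.norm_intCast, abs_of_nonneg h3]
            exact h2
          have h4 : ‖σ (θ : K)‖ ^ (i : ℕ) ≤ (1 + H) ^ k :=
            (pow_le_pow_left₀ (norm_nonneg _) (nf_emb k hk g hg hd hirr θ hθ hfr H hH hht σ) _).trans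
              (pow_le_pow_right₀ (by linarith) i.2.le)
          exact mul_le_mul h1 h4 (by positivity) (by positivity)
      _ = k * X * (1 + H) ^ k := by
          rw [Finset.sum_const, Finset.card_univ, Fintype.card_fin, nsmul_eq_mul]; ring
  calc ∏ σ : K →+* ℂ, ‖∑ i : Fin k, (u i : ℂ) * (σ (θ : K)) ^ (i : ℕ)‖
      ≤ ∏ σ : K →+* ℂ, (k * X * (1 + H) ^ k : ℝ) :=
        Finset.prod_le_prod (fun _ _ => norm_nonneg _) key
    _ = _ := by rw [Finset.prod_const, hcard]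

omit hk hd hfr in
/-- the prime ideal of `𝓞 K` attached to a root `r` of `g` modulo `p`. -/
theorem nf_ideal (p r : ℕ) (hp : p.Prime) (hr : (p : ℤ) ∣ g.eval (r : ℤ)) :
    ∃ Q : Ideal (𝓞 K), Q.IsMaximal ∧ (p : 𝓞 K) ∈ Q ∧ θ - (r : 𝓞 K) ∈ Q := by
  have : Fact p.Prime := ⟨hp⟩
  let alg : Algebra ℤ[X] (𝓞 K) := (aeval θ : ℤ[X] →ₐ[ℤ] 𝓞 K).toRingHom.toAlgebra
  have halg : ∀ f : ℤ[X], algebraMap ℤ[X] (𝓞 K) f = aeval θ f := fun f => rfl
  have : IsScalarTower ℤ ℤ[X] (𝓞 K) := IsScalarTower.of_algebraMap_eq (fun x => by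
    rw [halg]; simp)
  have : Algebra.IsIntegral ℤ[X] (𝓞 K) := Algebra.IsIntegral.tower_top ℤ
  let φ : ℤ[X] →+* ZMod p := eval₂RingHom (Int.castRingHom (ZMod p)) (r : ZMod p)
  have hφ : ∀ f : ℤ[X], φ f = ((f.eval (r : ℤ) : ℤ) : ZMod p) := by
    intro f
    simp only [φ, coe_eval₂RingHom]
    have := hom_eval₂ f (RingHom.id ℤ) (Int.castRingHom (ZMod p)) (r : ℤ)
    rw [RingHom.comp_id] at this
    simpa using this.symm
  have hmax : (RingHom.ker φ).IsMaximal := RingHom.ker_isMaximal_of_surjective φ (by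
    intro z
    refine ⟨C (z.val : ℤ), ?_⟩
    rw [hφ, eval_C]
    simp)
  have hker : RingHom.ker (algebraMap ℤ[X] (𝓞 K)) ≤ RingHom.ker φ := by
    intro f hf
    rw [RingHom.mem_ker, halg] at hf
    obtain ⟨c, rfl⟩ := nf_dvd_of_aeval g hg hirr θ hθ f hf
    rw [RingHom.mem_ker, hφ, eval_mul, ZMod.intCast_zmod_eq_zero_iff_dvd]
    exact hr.mul_right _
  obtain ⟨Q, hQ, hQc⟩ := Ideal.exists_ideal_over_maximal_of_isIntegral (RingHom.ker φ) hker
  refine ⟨Q, hQ, ?_, ?_⟩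
  · have h1 : (C (p : ℤ) : ℤ[X]) ∈ RingHom.ker φ := by
      rw [RingHom.mem_ker, hφ]; simp
    rw [← hQc, Ideal.mem_comap, halg] at h1
    simpa using h1
  · have h1 : (X - C (r : ℤ) : ℤ[X]) ∈ RingHom.ker φ := by
      rw [RingHom.mem_ker, hφ]; simp
    rw [← hQc, Ideal.mem_comap, halg] at h1
    simpa using h1

theorem nf_dvd (P : Finset (ℕ × ℕ)) (u : Fin k → ℤ)
    (hP : ∀ x ∈ P, x.1.Prime ∧ x.2 < x.1 ∧ (x.1 : ℤ) ∣ g.eval (x.2 : ℤ) ∧
      (x.1 : ℤ) ∣ ∑ i : Fin k, u i * (x.2 : ℤ) ^ (i : ℕ)) :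
    (∏ x ∈ P, x.1) ∣ nn θ u := by
  classical
  have hex : ∀ x : ℕ × ℕ, ∃ Q : Ideal (𝓞 K), x ∈ P → (Q.IsMaximal ∧ (x.1 : 𝓞 K) ∈ Q ∧
      θ - (x.2 : 𝓞 K) ∈ Q) := by
    intro x
    by_cases hx : x ∈ P
    · obtain ⟨Q, hQ⟩ := nf_ideal g hg hirr θ hθ x.1 x.2 (hP x hx).1 (hP x hx).2.2.1
      exact ⟨Q, fun _ => hQ⟩
    · exact ⟨⊤, fun h => absurd h hx⟩
  choose Q hQ using hex
  -- coprimality of integers in an ideal
  have hcop : ∀ (I : Ideal (𝓞 K)), I.IsMaximal → ∀ a b : ℤ, IsCoprime a b → (a : 𝓞 K) ∈ I →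
      (b : 𝓞 K) ∈ I → False := by
    intro I hI a b hab ha hb
    obtain ⟨s, t, hst⟩ := hab
    apply hI.ne_top
    rw [Ideal.eq_top_iff_one]
    have : (1 : 𝓞 K) = (s : 𝓞 K) * (a : 𝓞 K) + (t : 𝓞 K) * (b : 𝓞 K) := by
      exact_mod_cast congrArg (fun z : ℤ => (z : 𝓞 K)) hst.symm
    rw [this]
    exact I.add_mem (I.mul_mem_left _ ha) (I.mul_mem_left _ hb)
  have hdist : ∀ x ∈ P, ∀ y ∈ P, x ≠ y → Q x ≠ Q y := by
    intro x hx y hy hxy hQQ
    obtain ⟨hm, hpx, hrx⟩ := hQ x hx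
    obtain ⟨_, hpy, hry⟩ := hQ y hy
    rw [← hQQ] at hpy hry
    by_cases hp : x.1 = y.1
    · have hr : x.2 ≠ y.2 := fun h => hxy (Prod.ext hp h)
      have h1 : (((y.2 : ℤ) - (x.2 : ℤ) : ℤ) : 𝓞 K) ∈ Q x := by
        have := (Q x).sub_mem hrx hry
        have h2 : θ - (x.2 : 𝓞 K) - (θ - (y.2 : 𝓞 K)) = (((y.2 : ℤ) - (x.2 : ℤ) : ℤ) : 𝓞 K) := by
          push_cast; ring
        rwa [h2] at this
      have h3 : IsCoprime ((x.1 : ℕ) : ℤ) ((y.2 : ℤ) - (x.2 : ℤ)) := by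
        rw [Int.isCoprime_iff_gcd_eq_one]
        have hpp : Prime ((x.1 : ℕ) : ℤ) := Nat.prime_iff_prime_int.1 (hP x hx).1
        rcases (Nat.coprime_or_dvd_of_prime (hP x hx).1 ((y.2 : ℤ) - (x.2 : ℤ)).natAbs) with h | h
        · exact h
        · exfalso
          have h4 := Nat.le_of_dvd (by
            rw [Int.natAbs_pos]
            intro h0
            exact hr (by omega)) h
          have h5 := (hP x hx).2.1
          have h6 := (hP y hy).2.1
          omega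
      exact hcop _ hm _ _ h3 (by exact_mod_cast hpx) h1
    · have h3 : IsCoprime ((x.1 : ℕ) : ℤ) ((y.1 : ℕ) : ℤ) := by
        rw [Nat.isCoprime_iff_coprime]
        exact (Nat.coprime_primes (hP x hx).1 (hP y hy).1).2 hp
      exact hcop _ hm _ _ h3 (by exact_mod_cast hpx) (by exact_mod_cast hpy)
  have hmem : ∀ x ∈ P, nu θ u ∈ Q x := by
    intro x hx
    obtain ⟨hm, hpx, hrx⟩ := hQ x hx
    have h1 : nu θ u - ((∑ i : Fin k, u i * (x.2 : ℤ) ^ (i : ℕ) : ℤ) : 𝓞 K) ∈ Q x := by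
      have h2 : nu θ u - ((∑ i : Fin k, u i * (x.2 : ℤ) ^ (i : ℕ) : ℤ) : 𝓞 K) =
          ∑ i : Fin k, (u i : 𝓞 K) * (θ ^ (i : ℕ) - (x.2 : 𝓞 K) ^ (i : ℕ)) := by
        rw [nu]; push_cast; rw [← Finset.sum_sub_distrib]
        exact Finset.sum_congr rfl fun i _ => by ring
      rw [h2]
      refine Submodule.sum_mem _ fun i _ => (Q x).mul_mem_left _ ?_
      obtain ⟨c, hc⟩ := sub_dvd_pow_sub_pow θ (x.2 : 𝓞 K) (i : ℕ)
      rw [hc]
      exact (Q x).mul_mem_right _ hrx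
    have h3 : ((∑ i : Fin k, u i * (x.2 : ℤ) ^ (i : ℕ) : ℤ) : 𝓞 K) ∈ Q x := by
      obtain ⟨c, hc⟩ := (hP x hx).2.2.2
      rw [hc]
      push_cast
      exact (Q x).mul_mem_right _ hpx
    have := (Q x).add_mem h1 h3
    simpa using this
  have hprod : (∏ x ∈ P, Q x) ∣ Ideal.span {nu θ u} := by
    apply Finset.prod_dvd_of_coprime
    · intro x hx y hy hxy
      have := (hQ x hx).1
      have := (hQ y hy).1
      exact Ideal.isCoprime_of_isMaximal (hdist x hx y hy hxy)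
    · intro x hx
      rw [Ideal.dvd_span_singleton]
      exact hmem x hx
  have hnorm : Ideal.absNorm (∏ x ∈ P, Q x) ∣ nn θ u := by
    rw [nn, ← Ideal.absNorm_span_singleton]
    exact map_dvd Ideal.absNorm hprod
  refine Dvd.dvd.trans ?_ hnorm
  rw [map_prod]
  apply Finset.prod_dvd_prod_of_dvd
  intro x hx
  obtain ⟨hm, hpx, _⟩ := hQ x hx
  rcases Nat.coprime_or_dvd_of_prime (hP x hx).1 (Ideal.absNorm (Q x)) with h | h
  · exfalso
    refine hcop _ hm ((x.1 : ℕ) : ℤ) ((Ideal.absNorm (Q x) : ℕ) : ℤ) (Nat.isCoprime_iff_coprime.2 h)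
      (by exact_mod_cast hpx) ?_
    have := Ideal.absNorm_mem (Q x)
    exact_mod_cast this
  · exact h

end EK75

end S_H75_EK_Nf

section S_H75_EK_Ub

/-! Module UB: upper Mertens bound for the number of roots of an irreducible polynomial, uniform in the height. -/

open Polynomial Finset
open scoped Real BigOperators

namespace EK75

/-- the evaluation map behind `latI` -/
def ub_phi (k p : ℕ) (r : ZMod p) : (Fin k → ℤ) →+ ZMod p where
  toFun u := ∑ i, (u i : ZMod p) * r ^ (i : ℕ)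
  map_zero' := by simp
  map_add' := by
    intro a b
    simp only [Pi.add_apply, Int.cast_add, add_mul, sum_add_distrib]

theorem ub_index (k : ℕ) (hk : 1 ≤ k) (p : ℕ) [Fact p.Prime] (r : ZMod p) :
    (latI k r (⊥ : Ideal (ZMod p))).index = p := by
  have h1 : latI k r (⊥ : Ideal (ZMod p)) = (ub_phi k p r).ker := by
    ext u
    change (∑ i, (u i : ZMod p) * r ^ (i : ℕ) ∈ (⊥ : Ideal (ZMod p))) ↔ _
    rw [Ideal.mem_bot, AddMonoidHom.mem_ker]
    rfl
  rw [h1, AddSubgroup.index_ker]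
  have hsurj : Function.Surjective (ub_phi k p r) := by
    intro c
    refine ⟨fun i => if i = ⟨0, hk⟩ then (c.val : ℤ) else 0, ?_⟩
    change ∑ i : Fin k, ((if i = ⟨0, hk⟩ then (c.val : ℤ) else 0 : ℤ) : ZMod p) * r ^ (i : ℕ) = c
    rw [Finset.sum_eq_single (⟨0, hk⟩ : Fin k)]
    · simp
    · intro b _ hb
      simp [hb]
    · intro h
      exact absurd (Finset.mem_univ _) h
  rw [AddMonoidHom.range_eq_top.mpr hsurj]
  simp

theorem ub_rho_le (g : ℤ[X]) (hg : g.Monic) (p : ℕ) (hp : p.Prime) : rho g p ≤ g.natDegree := by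
  have : Fact p.Prime := ⟨hp⟩
  set gp : (ZMod p)[X] := g.map (Int.castRingHom (ZMod p)) with hgp
  have hgm : gp.Monic := hg.map _
  have hne : gp ≠ 0 := hgm.ne_zero
  have hdeg : gp.natDegree = g.natDegree := hg.natDegree_map _
  have h1 : rho g p ≤ gp.roots.toFinset.card := by
    unfold rho
    refine Finset.card_le_card_of_injOn (fun r : ℕ => (r : ZMod p)) ?_ ?_
    · intro r hr
      have hr' := (Finset.mem_filter.mp hr).2
      simp only [Finset.mem_coe, Multiset.mem_toFinset]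
      rw [mem_roots hne, IsRoot.def, hgp]
      have : (eval (r : ZMod p) (g.map (Int.castRingHom (ZMod p)))) = ((g.eval (r : ℤ) : ℤ) : ZMod p) := by
        rw [eval_map, ← Int.cast_natCast (R := ZMod p) r]
        rw [eval₂_at_intCast]
        simp
      rw [this]
      exact (ZMod.intCast_zmod_eq_zero_iff_dvd _ _).mpr hr'
    · intro a ha b hb hab
      have ha' := Finset.mem_range.mp (Finset.mem_filter.mp ha).1
      have hb' := Finset.mem_range.mp (Finset.mem_filter.mp hb).1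
      have h := (ZMod.natCast_eq_natCast_iff' a b p).mp hab
      rwa [Nat.mod_eq_of_lt ha', Nat.mod_eq_of_lt hb'] at h
  calc rho g p ≤ gp.roots.toFinset.card := h1
    _ ≤ Multiset.card gp.roots := Multiset.toFinset_card_le _
    _ ≤ gp.natDegree := card_roots' _
    _ = g.natDegree := hdeg

/-- number of points of the box with `p ∣ u(r)` -/
theorem ub_count (k : ℕ) (hk : 1 ≤ k) (g : ℤ[X]) (hg : g.Monic) (hd : g.natDegree = k)
    (hirr : Irreducible g) (H : ℝ) (hH : 1 ≤ H) (hht : HtLe g H) (p r X : ℕ) (hp : p.Prime)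
    (hr : (p : ℤ) ∣ g.eval (r : ℤ))
    (hX : 2 * (k * (1 + H) ^ k * (p : ℝ) ^ ((1 : ℝ) / k)) ≤ X) :
    ((X : ℝ) - 2 * (k * (1 + H) ^ k * (p : ℝ) ^ ((1 : ℝ) / k))) ^ k ≤
      p * (((boxZ k X).filter (fun u => (p : ℤ) ∣ ∑ i : Fin k, u i * (r : ℤ) ^ (i : ℕ))).card : ℝ) := by
  classical
  have : Fact p.Prime := ⟨hp⟩
  have hθ : aeval (r : ZMod p) g = 0 := by
    rw [aeval_def, ← Int.cast_natCast (R := ZMod p) r]
    rw [eval₂_at_intCast]
    simp only [algebraMap_int_eq, eq_intCast, Int.cast_natCast]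
    exact (ZMod.intCast_zmod_eq_zero_iff_dvd _ _).mpr hr
  have h := (lat_ideal k hk g hg hd hirr H hH hht (r : ZMod p) hθ ⊥ p hp.one_lt.le
    (ub_index k hk p _) X _ rfl).2 hX
  have hset : (boxZ k X).filter (fun u => u ∈ latI k (r : ZMod p) (⊥ : Ideal (ZMod p))) =
      (boxZ k X).filter (fun u => (p : ℤ) ∣ ∑ i : Fin k, u i * (r : ℤ) ^ (i : ℕ)) := by
    apply Finset.filter_congr
    intro u _
    change (∑ i, (u i : ZMod p) * (r : ZMod p) ^ (i : ℕ) ∈ (⊥ : Ideal (ZMod p))) ↔ _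
    rw [Ideal.mem_bot, ← ZMod.intCast_zmod_eq_zero_iff_dvd]
    push_cast
    rfl
  rw [hset] at h
  exact h

/-- pairs `(p, r)` with `p ≤ Y` prime and `r` a root of `g` modulo `p` -/
noncomputable def ub_Q (g : ℤ[X]) (Y : ℝ) : Finset (ℕ × ℕ) :=
  ((prLe Y) ×ˢ (range (⌊Y⌋₊ + 1))).filter (fun x => x.2 < x.1 ∧ (x.1 : ℤ) ∣ g.eval (x.2 : ℤ))

theorem ub_sum_Q (g : ℤ[X]) (Y : ℝ) (F : ℕ → ℝ) :
    ∑ x ∈ ub_Q g Y, F x.1 = ∑ p ∈ prLe Y, rhoR g p * F p := by
  unfold ub_Q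
  rw [Finset.sum_filter, Finset.sum_product]
  apply Finset.sum_congr rfl
  intro p hp
  have hpY : p ≤ ⌊Y⌋₊ := by
    have := (Finset.mem_filter.mp hp).1
    rw [Finset.mem_range] at this
    omega
  simp only
  rw [← Finset.sum_filter, Finset.sum_const, nsmul_eq_mul]
  unfold rhoR rho
  congr 3
  ext r
  simp only [Finset.mem_filter, Finset.mem_range]
  constructor
  · rintro ⟨_, h1, h2⟩
    exact ⟨h1, h2⟩
  · rintro ⟨h1, h2⟩
    exact ⟨by omega, h1, h2⟩

theorem ub_mem_prLe {Y : ℝ} (hY : 0 ≤ Y) {p : ℕ} (hp : p ∈ prLe Y) : p.Prime ∧ (p : ℝ) ≤ Y := by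
  unfold prLe at hp
  rw [Finset.mem_filter, Finset.mem_range] at hp
  refine ⟨hp.2, ?_⟩
  have : p ≤ ⌊Y⌋₊ := by omega
  exact (Nat.le_floor_iff hY).mp this

theorem ub_mem_Q {g : ℤ[X]} {Y : ℝ} (hY : 0 ≤ Y) {x : ℕ × ℕ} (hx : x ∈ ub_Q g Y) :
    x.1.Prime ∧ (x.1 : ℝ) ≤ Y ∧ x.2 < x.1 ∧ (x.1 : ℤ) ∣ g.eval (x.2 : ℤ) := by
  unfold ub_Q at hx
  rw [Finset.mem_filter, Finset.mem_product] at hx
  have := ub_mem_prLe hY hx.1.1
  exact ⟨this.1, this.2, hx.2.1, hx.2.2⟩

theorem ub_card_box (k X : ℕ) : (boxZ k X).card = X ^ k := by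
  unfold boxZ
  rw [Fintype.card_piFinset]
  simp

/-- the double counting inequality -/
theorem ub_double (k : ℕ) (hk : 1 ≤ k) (g : ℤ[X]) (hg : g.Monic) (hd : g.natDegree = k)
    (hirr : Irreducible g) (H : ℝ) (hH : 1 ≤ H) (hht : HtLe g H) (Y : ℝ) (hY : 1 ≤ Y) (X : ℕ)
    (hX1 : 1 ≤ X) :
    ∑ x ∈ ub_Q g Y, Real.log x.1 *
      ((((boxZ k X).filter (fun u => (x.1 : ℤ) ∣ ∑ i : Fin k, u i * (x.2 : ℤ) ^ (i : ℕ))).card : ℝ)
        - 1) ≤ (X : ℝ) ^ k * Real.log ((k * X * (1 + H) ^ k) ^ k) := by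
  classical
  obtain ⟨K, iF, iN, θ, hθ, hfr⟩ := nf_exists k hk g hg hd hirr
  set D : ℕ × ℕ → (Fin k → ℤ) → Prop :=
    fun x u => (x.1 : ℤ) ∣ ∑ i : Fin k, u i * (x.2 : ℤ) ^ (i : ℕ) with hD
  set B := boxZ k X with hB
  set L := Real.log ((k * X * (1 + H) ^ k) ^ k) with hL
  have hkR : (1 : ℝ) ≤ k := by exact_mod_cast hk
  have hXR : (1 : ℝ) ≤ X := by exact_mod_cast hX1
  have hbase : (1 : ℝ) ≤ k * X * (1 + H) ^ k := by
    have h1 : (1 : ℝ) ≤ (1 + H) ^ k := one_le_pow₀ (by linarith)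
    have h2 : (1 : ℝ) ≤ k * X := one_le_mul_of_one_le_of_one_le hkR hXR
    exact one_le_mul_of_one_le_of_one_le h2 h1
  have hL0 : 0 ≤ L := Real.log_nonneg (one_le_pow₀ hbase)
  -- pointwise
  have hpt : ∀ u ∈ B.erase 0, ∑ x ∈ (ub_Q g Y).filter (fun x => D x u), Real.log x.1 ≤ L := by
    intro u hu
    have hu0 : u ≠ 0 := (Finset.mem_erase.mp hu).1
    have huB : u ∈ B := (Finset.mem_erase.mp hu).2
    have hpos := nf_pos k hk g hg hd hirr θ hθ hfr u hu0
    have hle := nf_le k hk g hg hd hirr θ hθ hfr H hH hht X u huB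
    have hdvd := nf_dvd k hk g hg hd hirr θ hθ hfr ((ub_Q g Y).filter (fun x => D x u)) u (by
      intro x hx
      have h1 := (Finset.mem_filter.mp hx)
      have h2 := ub_mem_Q (by linarith) h1.1
      exact ⟨h2.1, h2.2.2.1, h2.2.2.2, h1.2⟩)
    have hle2 : (∏ x ∈ (ub_Q g Y).filter (fun x => D x u), x.1) ≤ nn θ u :=
      Nat.le_of_dvd (by omega) hdvd
    have hle3 : (∏ x ∈ (ub_Q g Y).filter (fun x => D x u), (x.1 : ℝ)) ≤
        (k * X * (1 + H) ^ k) ^ k := by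
      refine le_trans ?_ hle
      have : ((∏ x ∈ (ub_Q g Y).filter (fun x => D x u), x.1 : ℕ) : ℝ) ≤ (nn θ u : ℝ) := by
        exact_mod_cast hle2
      rwa [Nat.cast_prod] at this
    have hpp : ∀ x ∈ (ub_Q g Y).filter (fun x => D x u), (0 : ℝ) < (x.1 : ℝ) := by
      intro x hx
      have h2 := ub_mem_Q (by linarith) (Finset.mem_filter.mp hx).1
      exact_mod_cast h2.1.pos
    rw [← Real.log_prod (fun x hx => (hpp x hx).ne')]
    exact Real.log_le_log (Finset.prod_pos hpp) hle3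
  have hsum : ∑ u ∈ B.erase 0, ∑ x ∈ (ub_Q g Y).filter (fun x => D x u), Real.log x.1 ≤
      (X : ℝ) ^ k * L := by
    refine (Finset.sum_le_sum hpt).trans ?_
    rw [Finset.sum_const, nsmul_eq_mul]
    apply mul_le_mul_of_nonneg_right _ hL0
    have h1 : (B.erase 0).card ≤ X ^ k := by
      rw [← ub_card_box k X]
      exact Finset.card_le_card (Finset.erase_subset _ _)
    exact_mod_cast h1
  refine le_trans ?_ hsum
  have hswap : ∑ u ∈ B.erase 0, ∑ x ∈ (ub_Q g Y).filter (fun x => D x u), Real.log x.1 =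
      ∑ x ∈ ub_Q g Y, Real.log x.1 * (((B.erase 0).filter (fun u => D x u)).card : ℝ) := by
    have h1 : ∀ u ∈ B.erase 0, ∑ x ∈ (ub_Q g Y).filter (fun x => D x u), Real.log x.1 =
        ∑ x ∈ ub_Q g Y, if D x u then Real.log x.1 else 0 := fun u _ => Finset.sum_filter _ _
    rw [Finset.sum_congr rfl h1, Finset.sum_comm]
    apply Finset.sum_congr rfl
    intro x _
    rw [← Finset.sum_filter, Finset.sum_const, nsmul_eq_mul, mul_comm]
  rw [hswap]
  apply Finset.sum_le_sum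
  intro x hx
  have hx' := ub_mem_Q (by linarith) hx
  have hlog : 0 ≤ Real.log x.1 := Real.log_nonneg (by exact_mod_cast hx'.1.one_lt.le)
  apply mul_le_mul_of_nonneg_left _ hlog
  have h3 : (B.filter (fun u => D x u)).card ≤ ((B.erase 0).filter (fun u => D x u)).card + 1 := by
    have h6 : (B.filter (fun u => D x u)).erase 0 ⊆ (B.erase 0).filter (fun u => D x u) := by
      intro u hu
      rw [Finset.mem_erase, Finset.mem_filter] at hu
      rw [Finset.mem_filter, Finset.mem_erase]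
      exact ⟨⟨hu.1, hu.2.1⟩, hu.2.2⟩
    have h7 : (B.filter (fun u => D x u)).card - 1 ≤ ((B.filter (fun u => D x u)).erase 0).card :=
      Finset.pred_card_le_card_erase
    have h8 := Finset.card_le_card h6
    omega
  have h4 : ((B.filter (fun u => D x u)).card : ℝ) ≤
      (((B.erase 0).filter (fun u => D x u)).card : ℝ) + 1 := by exact_mod_cast h3
  have h5 : (B.filter (fun u => D x u)) =
    (B.filter (fun u => (x.1 : ℤ) ∣ ∑ i : Fin k, u i * (x.2 : ℤ) ^ (i : ℕ))) := by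
    apply Finset.filter_congr_decidable
  rw [← h5]
  linarith

theorem ub_log_pow (k : ℕ) (hk : 1 ≤ k) {Y : ℝ} (hY : 1 ≤ Y) :
    (k : ℝ) * Real.log (Y ^ ((1 : ℝ) / k)) = Real.log Y := by
  have hk0 : (k : ℝ) ≠ 0 := by exact_mod_cast (by omega : k ≠ 0)
  rw [Real.log_rpow (by linarith)]
  field_simp

set_option maxHeartbeats 1000000 in
theorem mertens_upper (k : ℕ) (hk : 1 ≤ k) : ∃ C : ℝ, 0 ≤ C ∧ ∀ g : ℤ[X], g.Monic →
    g.natDegree = k → Irreducible g → ∀ H : ℝ, 2 ≤ H → HtLe g H → ∀ Y : ℝ, 1 ≤ Y →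
    Msum (rhoR g) Y ≤ Real.log Y + C * Real.log H := by
  classical
  obtain ⟨C3, hC3⟩ := mert3 k hk
  obtain ⟨C1, hC1⟩ := mert3 1 le_rfl
  have hkR : (1 : ℝ) ≤ k := by exact_mod_cast hk
  have hk0 : (0 : ℝ) < k := by linarith
  have hl9 : 0 ≤ Real.log (9 * (k : ℝ) ^ 3) := by
    apply Real.log_nonneg
    have : (1 : ℝ) ≤ (k : ℝ) ^ 3 := one_le_pow₀ hkR
    linarith
  have hl2 : (0 : ℝ) < Real.log 2 := Real.log_pos (by norm_num)
  refine ⟨(k * Real.log (9 * (k : ℝ) ^ 3) + k * |C3| + k * |C1|) / Real.log 2 + 4 * (k : ℝ) ^ 2,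
    by positivity, ?_⟩
  intro g hg hd hirr H hH hht Y hY
  have hH1 : (1 : ℝ) ≤ H := by linarith
  have hlogH : Real.log 2 ≤ Real.log H := Real.log_le_log (by norm_num) hH
  have hrho : ∀ p : ℕ, p.Prime → rhoR g p ≤ k := by
    intro p hp
    unfold rhoR
    have := ub_rho_le g hg p hp
    rw [hd] at this
    exact_mod_cast this
  set κ : ℝ := k * (1 + H) ^ k with hκ
  have hκ1 : (1 : ℝ) ≤ κ := by
    have h1 : (1 : ℝ) ≤ (1 + H) ^ k := one_le_pow₀ (by linarith)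
    exact one_le_mul_of_one_le_of_one_le hkR h1
  set y : ℝ := Y ^ ((1 : ℝ) / k) with hy
  have hy1 : (1 : ℝ) ≤ y := Real.one_le_rpow hY (by positivity)
  have hyk : y ^ k = Y := by
    rw [hy, ← Real.rpow_natCast, ← Real.rpow_mul (by linarith)]
    have : (1 : ℝ) / k * (k : ℕ) = 1 := by field_simp
    rw [this, Real.rpow_one]
  set Xr : ℝ := 8 * k * κ * y with hXr
  have hXr1 : (8 : ℝ) ≤ Xr := by
    have h1 : (1 : ℝ) ≤ k * κ * y :=
      one_le_mul_of_one_le_of_one_le (one_le_mul_of_one_le_of_one_le hkR hκ1) hy1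
    nlinarith
  set X : ℕ := ⌈Xr⌉₊ with hXdef
  have hXge : Xr ≤ X := Nat.le_ceil _
  have hXlt : (X : ℝ) < Xr + 1 := Nat.ceil_lt_add_one (by linarith)
  have hXpos : (0 : ℝ) < X := by linarith
  have hX1 : 1 ≤ X := by
    have : (0 : ℝ) < X := hXpos
    exact_mod_cast this
  have hX9 : (X : ℝ) ≤ 9 * k * κ * y := by
    have h1 : (1 : ℝ) ≤ k * κ * y :=
      one_le_mul_of_one_le_of_one_le (one_le_mul_of_one_le_of_one_le hkR hκ1) hy1
    nlinarith
  have hdbl := ub_double k hk g hg hd hirr H hH1 hht Y hY X hX1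
  set L := Real.log ((k * X * (1 + H) ^ k) ^ k) with hL
  -- pointwise lower bound for the counts
  have hpt : ∀ x ∈ ub_Q g Y, Real.log x.1 / x.1 ≤
      Real.log x.1 * ((((boxZ k X).filter
        (fun u => (x.1 : ℤ) ∣ ∑ i : Fin k, u i * (x.2 : ℤ) ^ (i : ℕ))).card : ℝ) - 1) / (X : ℝ) ^ k
      + (2 * k * κ / X) * (Real.log x.1 * (x.1 : ℝ) ^ ((1 : ℝ) / k - 1))
      + Real.log x.1 / (X : ℝ) ^ k := by
    intro x hx
    obtain ⟨hp, hpY, hr, hdvd⟩ := ub_mem_Q (by linarith) hx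
    have hp0 : (0 : ℝ) < x.1 := by exact_mod_cast hp.pos
    have hlog : 0 ≤ Real.log x.1 := Real.log_nonneg (by exact_mod_cast hp.one_lt.le)
    set z : ℝ := (x.1 : ℝ) ^ ((1 : ℝ) / k) with hz
    have hzy : z ≤ y := Real.rpow_le_rpow hp0.le hpY (by positivity)
    have hz0 : 0 < z := Real.rpow_pos_of_pos hp0 _
    have hRm : 2 * (k * (1 + H) ^ k * z) ≤ X := by
      have h1 : 2 * (k * (1 + H) ^ k * z) = 2 * κ * z := by rw [hκ]; ring
      rw [h1]
      have h2 : 2 * κ * z ≤ 2 * κ * y := by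
        apply mul_le_mul_of_nonneg_left hzy; linarith
      have h3 : 2 * κ * y ≤ Xr := by
        rw [hXr]
        have : (0 : ℝ) ≤ κ * y := by positivity
        nlinarith
      linarith
    have hcnt := ub_count k hk g hg hd hirr H hH1 hht x.1 x.2 X hp hdvd hRm
    set cnt : ℝ := (((boxZ k X).filter
        (fun u => (x.1 : ℤ) ∣ ∑ i : Fin k, u i * (x.2 : ℤ) ^ (i : ℕ))).card : ℝ) with hcntdef
    -- Bernoulli
    have hbern : (X : ℝ) ^ k * (1 - 2 * k * κ * z / X) ≤ (X - 2 * (k * (1 + H) ^ k * z)) ^ k := by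
      have h1 : (X : ℝ) - 2 * (k * (1 + H) ^ k * z) = X * (1 + -(2 * κ * z / X)) := by
        rw [hκ]; field_simp; ring
      rw [h1, mul_pow]
      apply mul_le_mul_of_nonneg_left _ (by positivity)
      have h2 : 2 * κ * z / X ≤ 1 := by
        rw [div_le_one hXpos]
        have : 2 * (k * (1 + H) ^ k * z) = 2 * κ * z := by rw [hκ]; ring
        linarith
      have h3 := one_add_mul_le_pow (a := -(2 * κ * z / X)) (by linarith) k
      have h4 : (1 : ℝ) - 2 * k * κ * z / X = 1 + k * -(2 * κ * z / X) := by ring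
      rw [h4]
      exact h3
    have hcnt2 : (X : ℝ) ^ k * (1 - 2 * k * κ * z / X) ≤ x.1 * cnt := hbern.trans hcnt
    have hXk : (0 : ℝ) < (X : ℝ) ^ k := by positivity
    have hzp : (x.1 : ℝ) ^ ((1 : ℝ) / k - 1) = z / x.1 := by
      rw [Real.rpow_sub hp0, Real.rpow_one]
    rw [hzp]
    have h5 : 1 / (x.1 : ℝ) ≤ cnt / (X : ℝ) ^ k + 2 * k * κ / X * (z / x.1) := by
      have h6 : (1 - 2 * k * κ * z / X) / x.1 ≤ cnt / (X : ℝ) ^ k := by
        rw [div_le_div_iff₀ hp0 hXk]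
        linarith
      have h7 : (1 - 2 * k * κ * z / X) / x.1 = 1 / (x.1 : ℝ) - 2 * k * κ / X * (z / x.1) := by
        field_simp
      linarith
    have h8 := mul_le_mul_of_nonneg_left h5 hlog
    have h9 : Real.log x.1 * (cnt - 1) / (X : ℝ) ^ k
      + (2 * k * κ / X) * (Real.log x.1 * (z / x.1)) + Real.log x.1 / (X : ℝ) ^ k =
      Real.log x.1 * (cnt / (X : ℝ) ^ k + 2 * k * κ / X * (z / x.1)) := by ring
    rw [h9]
    calc Real.log x.1 / x.1 = Real.log x.1 * (1 / (x.1 : ℝ)) := by ring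
      _ ≤ _ := h8
  have hM : Msum (rhoR g) Y = ∑ x ∈ ub_Q g Y, Real.log x.1 / x.1 := by
    rw [ub_sum_Q g Y (fun p => Real.log p / p)]
    unfold Msum
    apply Finset.sum_congr rfl
    intro p _
    ring
  rw [hM]
  refine (Finset.sum_le_sum hpt).trans ?_
  rw [Finset.sum_add_distrib, Finset.sum_add_distrib, ← Finset.sum_div, ← Finset.mul_sum,
    ← Finset.sum_div]
  -- first term
  have hT1 : (∑ x ∈ ub_Q g Y, Real.log x.1 * ((((boxZ k X).filter
        (fun u => (x.1 : ℤ) ∣ ∑ i : Fin k, u i * (x.2 : ℤ) ^ (i : ℕ))).card : ℝ) - 1))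
          / (X : ℝ) ^ k ≤ L := by
    rw [div_le_iff₀ (by positivity)]
    linarith
  have hL' : L ≤ Real.log Y + k * Real.log (9 * (k : ℝ) ^ 3) + 4 * (k : ℝ) ^ 2 * Real.log H := by
    have h1H : (0 : ℝ) < 1 + H := by linarith
    have h1 : (k * X * (1 + H) ^ k : ℝ) ≤ (9 * (k : ℝ) ^ 3) * ((1 + H) ^ (2 * k)) * y := by
      have h2 : (k * X * (1 + H) ^ k : ℝ) ≤ k * (9 * k * κ * y) * (1 + H) ^ k := by gcongr
      refine h2.trans (le_of_eq ?_)
      rw [hκ]; ring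
    have h3 : L ≤ Real.log (((9 * (k : ℝ) ^ 3) * ((1 + H) ^ (2 * k)) * y) ^ k) := by
      rw [hL]
      apply Real.log_le_log
      · positivity
      · gcongr
    have h4 : Real.log (((9 * (k : ℝ) ^ 3) * ((1 + H) ^ (2 * k)) * y) ^ k) =
        k * Real.log (9 * (k : ℝ) ^ 3) + k * (2 * k * Real.log (1 + H)) + k * Real.log y := by
      rw [Real.log_pow, Real.log_mul (by positivity) (by positivity),
        Real.log_mul (by positivity) (by positivity), Real.log_pow]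
      push_cast
      ring
    have h5 : Real.log (1 + H) ≤ 2 * Real.log H := by
      have : 1 + H ≤ H ^ 2 := by nlinarith
      calc Real.log (1 + H) ≤ Real.log (H ^ 2) := Real.log_le_log h1H this
        _ = 2 * Real.log H := by rw [Real.log_pow]; norm_num
    have h6 := ub_log_pow k hk hY
    rw [h4] at h3
    rw [← hy] at h6
    have h7 : (k : ℝ) * (2 * k * Real.log (1 + H)) ≤ k * (2 * k * (2 * Real.log H)) := by gcongr
    nlinarith
  -- second term
  have hT2 : 2 * k * κ / X * ∑ x ∈ ub_Q g Y, Real.log x.1 * (x.1 : ℝ) ^ ((1 : ℝ) / k - 1) ≤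
      k * |C3| := by
    have h1 : ∑ x ∈ ub_Q g Y, Real.log x.1 * (x.1 : ℝ) ^ ((1 : ℝ) / k - 1) ≤ k * (|C3| * y) := by
      rw [ub_sum_Q g Y (fun p => Real.log p * (p : ℝ) ^ ((1 : ℝ) / k - 1))]
      have h2 : ∑ p ∈ prLe Y, rhoR g p * (Real.log p * (p : ℝ) ^ ((1 : ℝ) / k - 1)) ≤
          ∑ p ∈ prLe Y, k * (Real.log p * (p : ℝ) ^ ((1 : ℝ) / k - 1)) := by
        apply Finset.sum_le_sum
        intro p hp
        have hp' := ub_mem_prLe (by linarith) hp
        apply mul_le_mul_of_nonneg_right (hrho p hp'.1)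
        have : 0 ≤ Real.log p := Real.log_nonneg (by exact_mod_cast hp'.1.one_lt.le)
        positivity
      refine h2.trans ?_
      rw [← Finset.mul_sum]
      apply mul_le_mul_of_nonneg_left _ hk0.le
      refine (hC3 Y hY).trans ?_
      apply mul_le_mul_of_nonneg_right (le_abs_self _)
      positivity
    have h3 : 2 * k * κ / X * (k * (|C3| * y)) ≤ k * |C3| := by
      have h4 : 2 * k * κ / X * (k * (|C3| * y)) = (k * |C3|) * ((2 * k * κ * y) / X) := by ring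
      rw [h4]
      have h5 : (2 * k * κ * y) / X ≤ 1 := by
        rw [div_le_one hXpos]
        have hq : (0 : ℝ) ≤ k * κ * y := by positivity
        have hq1 : 2 * k * κ * y = 2 * (k * κ * y) := by ring
        have hq2 : Xr = 8 * (k * κ * y) := by rw [hXr]; ring
        rw [hq1]
        linarith only [hq, hq2, hXge]
      exact mul_le_of_le_one_right (by positivity) h5
    refine le_trans ?_ h3
    exact mul_le_mul_of_nonneg_left h1 (by positivity)
  -- third term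
  have hT3 : (∑ x ∈ ub_Q g Y, Real.log x.1) / (X : ℝ) ^ k ≤ k * |C1| := by
    have h1 : ∑ x ∈ ub_Q g Y, Real.log x.1 ≤ k * (|C1| * Y) := by
      rw [ub_sum_Q g Y (fun p => Real.log p)]
      have h2 : ∑ p ∈ prLe Y, rhoR g p * Real.log p ≤ ∑ p ∈ prLe Y, k * Real.log p := by
        apply Finset.sum_le_sum
        intro p hp
        have hp' := ub_mem_prLe (by linarith) hp
        apply mul_le_mul_of_nonneg_right (hrho p hp'.1)
        exact Real.log_nonneg (by exact_mod_cast hp'.1.one_lt.le)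
      refine h2.trans ?_
      rw [← Finset.mul_sum]
      apply mul_le_mul_of_nonneg_left _ hk0.le
      have h3 := hC1 Y hY
      simp only [Nat.cast_one, div_one, sub_self, Real.rpow_zero, mul_one, Real.rpow_one] at h3
      refine h3.trans ?_
      apply mul_le_mul_of_nonneg_right (le_abs_self _)
      linarith
    rw [div_le_iff₀ (by positivity)]
    refine h1.trans ?_
    have h4 : Y ≤ (X : ℝ) ^ k := by
      rw [← hyk]
      have : y ≤ X := by
        have : y ≤ Xr := by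
          rw [hXr]
          have h1 : (1 : ℝ) ≤ k * κ := one_le_mul_of_one_le_of_one_le hkR hκ1
          nlinarith
        linarith
      gcongr
    have h5 : k * (|C1| * Y) = k * |C1| * Y := by ring
    rw [h5]
    exact mul_le_mul_of_nonneg_left h4 (by positivity)
  have hfin : k * Real.log (9 * (k : ℝ) ^ 3) + k * |C3| + k * |C1| ≤
      (k * Real.log (9 * (k : ℝ) ^ 3) + k * |C3| + k * |C1|) / Real.log 2 * Real.log H := by
    have h0 : 0 ≤ k * Real.log (9 * (k : ℝ) ^ 3) + k * |C3| + k * |C1| := by positivity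
    rw [div_mul_eq_mul_div, le_div_iff₀ hl2]
    exact mul_le_mul_of_nonneg_left hlogH h0
  calc _ ≤ L + k * |C3| + k * |C1| := by linarith
    _ ≤ _ := by nlinarith

end EK75

end S_H75_EK_Ub
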