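import Mathlib
import Pool.Agent.H75.EM.L1
import Pool.Agent.H75.EM.L2

/-! Erdos-Kac law for integer parts of real polynomials, part L3: this file joins several modules to save build time. -/

section S_H75_EK_Lb1

/-! Module LB1: lower bound for the average of `log N(u)`. -/

open Polynomial Finset NumberField
open scoped Real BigOperators

namespace EK75

theorem lb1_card_int (S : Finset ℤ) (c r : ℝ) (hr : 0 ≤ r)
    (h : ∀ a ∈ S, |(a : ℝ) + c| < r) : (S.card : ℝ) ≤ 2 * r + 1 := by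
  have hsub : S ⊆ Finset.Icc ⌈-c - r⌉ ⌊-c + r⌋ := by
    intro a ha
    have h1 := abs_lt.1 (h a ha)
    rw [Finset.mem_Icc]
    exact ⟨Int.ceil_le.2 (by linarith [h1.1]), Int.le_floor.2 (by linarith [h1.2])⟩
  have h1 := Finset.card_le_card hsub
  rw [Int.card_Icc] at h1
  have h2 : (((⌊-c + r⌋ + 1 - ⌈-c - r⌉).toNat : ℕ) : ℝ) ≤ 2 * r + 1 := by
    rcases le_total 0 (⌊-c + r⌋ + 1 - ⌈-c - r⌉) with h0 | h0
    · have h3 : (((⌊-c + r⌋ + 1 - ⌈-c - r⌉).toNat : ℕ) : ℝ) =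
          (((⌊-c + r⌋ + 1 - ⌈-c - r⌉ : ℤ)) : ℝ) := by
        have : (((⌊-c + r⌋ + 1 - ⌈-c - r⌉).toNat : ℕ) : ℤ) = ⌊-c + r⌋ + 1 - ⌈-c - r⌉ :=
          Int.toNat_of_nonneg h0
        exact_mod_cast this
      rw [h3]
      push_cast
      have h4 := Int.floor_le (-c + r)
      have h5 := Int.le_ceil (-c - r)
      linarith
    · rw [Int.toNat_of_nonpos h0]
      simp only [Nat.cast_zero]
      linarith
  calc (S.card : ℝ) ≤ (((⌊-c + r⌋ + 1 - ⌈-c - r⌉).toNat : ℕ) : ℝ) := by exact_mod_cast h1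
    _ ≤ 2 * r + 1 := h2

theorem lb1_card_box (k X : ℕ) : (boxZ k X).card = X ^ k := by
  unfold boxZ
  rw [Fintype.card_piFinset]
  simp

theorem lb1_count (k X : ℕ) (z : ℂ) (r : ℝ) (hr : 0 ≤ r) :
    (((boxZ (k + 1) X).filter
      (fun u : Fin (k + 1) → ℤ => ‖∑ i : Fin (k + 1), (u i : ℂ) * z ^ (i : ℕ)‖ < r)).card : ℝ) ≤ (2 * r + 1) * (X : ℝ) ^ k := by
  classical
  set s := (boxZ (k + 1) X).filter (fun u : Fin (k + 1) → ℤ => ‖∑ i : Fin (k + 1), (u i : ℂ) * z ^ (i : ℕ)‖ < r) with hs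
  let f : (Fin (k + 1) → ℤ) → (Fin k → ℤ) := fun u i => u i.succ
  have hfib : ∀ b ∈ s.image f, (s.filter (fun a => f a = b)).card ≤ ⌊2 * r + 1⌋₊ := by
    intro b _
    apply Nat.le_floor
    have hinj : Set.InjOn (fun u : Fin (k + 1) → ℤ => u 0) (s.filter (fun a => f a = b)) := by
      intro u hu v hv huv
      have hu' := (Finset.mem_filter.1 (Finset.mem_coe.1 hu)).2
      have hv' := (Finset.mem_filter.1 (Finset.mem_coe.1 hv)).2
      funext i
      refine Fin.cases huv (fun i => ?_) i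
      exact congrFun (hu'.trans hv'.symm) i
    rw [← Finset.card_image_of_injOn hinj]
    refine lb1_card_int _ ((∑ i : Fin k, (b i : ℂ) * z ^ ((i : ℕ) + 1)).re) r hr ?_
    intro a ha
    obtain ⟨u, hu, rfl⟩ := Finset.mem_image.1 ha
    obtain ⟨hu1, hu2⟩ := Finset.mem_filter.1 hu
    have hu3 := (Finset.mem_filter.1 (hs ▸ hu1)).2
    rw [Fin.sum_univ_succ] at hu3
    have h4 : ∑ i : Fin k, ((u i.succ : ℤ) : ℂ) * z ^ ((i.succ : Fin (k + 1)) : ℕ) =
        ∑ i : Fin k, (b i : ℂ) * z ^ ((i : ℕ) + 1) := by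
      refine Finset.sum_congr rfl fun i _ => ?_
      rw [Fin.val_succ, ← hu2]
    rw [h4] at hu3
    have h5 : ((u 0 : ℤ) : ℝ) + (∑ i : Fin k, (b i : ℂ) * z ^ ((i : ℕ) + 1)).re =
        (((u 0 : ℤ) : ℂ) * z ^ ((0 : Fin (k + 1)) : ℕ) +
          ∑ i : Fin k, (b i : ℂ) * z ^ ((i : ℕ) + 1)).re := by
      rw [Complex.add_re]
      simp
    change |((u 0 : ℤ) : ℝ) + _| < r
    rw [h5]
    exact lt_of_le_of_lt (Complex.abs_re_le_norm _) hu3
  have h1 := Finset.card_le_mul_card_image s ⌊2 * r + 1⌋₊ hfib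
  have h2 : (s.image f).card ≤ X ^ k := by
    rw [← lb1_card_box k X]
    refine Finset.card_le_card ?_
    intro b hb
    obtain ⟨u, hu, rfl⟩ := Finset.mem_image.1 hb
    have hu1 := (Finset.mem_filter.1 (hs ▸ hu)).1
    unfold boxZ at hu1 ⊢
    rw [Fintype.mem_piFinset] at hu1 ⊢
    intro i
    exact hu1 i.succ
  have h3 : (s.card : ℝ) ≤ (⌊2 * r + 1⌋₊ : ℝ) * ((s.image f).card : ℝ) := by exact_mod_cast h1
  have h4 : ((⌊2 * r + 1⌋₊ : ℕ) : ℝ) ≤ 2 * r + 1 := Nat.floor_le (by linarith)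
  have h5 : ((s.image f).card : ℝ) ≤ (X : ℝ) ^ k := by exact_mod_cast h2
  calc (s.card : ℝ) ≤ (⌊2 * r + 1⌋₊ : ℝ) * ((s.image f).card : ℝ) := h3
    _ ≤ (2 * r + 1) * (X : ℝ) ^ k :=
      mul_le_mul h4 h5 (Nat.cast_nonneg _) (by linarith)

theorem lb1_exp_sum (M : ℕ) : ∑ j ∈ range (M + 1), Real.exp (-(j : ℝ)) ≤ 2 := by
  have h1 : ∀ j : ℕ, Real.exp (-(j : ℝ)) ≤ (1 / (2 : ℝ)) ^ j := by
    intro j
    have h2 : Real.exp (-(j : ℝ)) = (Real.exp (-1)) ^ j := by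
      rw [← Real.exp_nat_mul]
      ring_nf
    rw [h2]
    refine pow_le_pow_left₀ (Real.exp_pos _).le ?_ j
    rw [Real.exp_neg, one_div]
    refine inv_anti₀ (by norm_num) ?_
    have := Real.add_one_le_exp (1 : ℝ)
    linarith
  calc ∑ j ∈ range (M + 1), Real.exp (-(j : ℝ)) ≤ ∑ j ∈ range (M + 1), (1 / (2 : ℝ)) ^ j :=
        Finset.sum_le_sum fun j _ => h1 j
    _ ≤ 2 := sum_geometric_two_le _

/-- the number of `j ≤ M` with `z < X e^{-j}` -/
noncomputable def lb1_m (M X : ℕ) (z : ℝ) : ℕ :=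
  ((range (M + 1)).filter (fun j : ℕ => z < X * Real.exp (-(j : ℝ)))).card

theorem lb1_m_spec (M X : ℕ) (z : ℝ) (h : lb1_m M X z < M + 1) :
    X * Real.exp (-(lb1_m M X z : ℝ)) ≤ z := by
  by_contra hcon
  push Not at hcon
  have hsub : range (lb1_m M X z + 1) ⊆
      (range (M + 1)).filter (fun j : ℕ => z < X * Real.exp (-(j : ℝ))) := by
    intro j hj
    rw [Finset.mem_range] at hj
    rw [Finset.mem_filter, Finset.mem_range]
    refine ⟨by omega, lt_of_lt_of_le hcon ?_⟩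
    refine mul_le_mul_of_nonneg_left (Real.exp_le_exp.2 ?_) (Nat.cast_nonneg _)
    have : (j : ℝ) ≤ lb1_m M X z := by exact_mod_cast Nat.lt_succ_iff.1 hj
    linarith
  have h1 := Finset.card_le_card hsub
  rw [Finset.card_range] at h1
  have h2 : lb1_m M X z = ((range (M + 1)).filter
    (fun j : ℕ => z < X * Real.exp (-(j : ℝ)))).card := rfl
  omega

theorem lb1_sum_m (k M X : ℕ) (hX : 1 ≤ X) (z : ℂ) :
    ∑ u ∈ boxZ (k + 1) X, (lb1_m M X ‖∑ i, (u i : ℂ) * z ^ (i : ℕ)‖ : ℝ) ≤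
      (X : ℝ) ^ k * (4 * X + M + 1) := by
  have h1 : ∀ u : Fin (k + 1) → ℤ, (lb1_m M X ‖∑ i, (u i : ℂ) * z ^ (i : ℕ)‖ : ℝ) =
      ∑ j ∈ range (M + 1),
        (if ‖∑ i, (u i : ℂ) * z ^ (i : ℕ)‖ < X * Real.exp (-(j : ℝ)) then (1 : ℝ) else 0) := by
    intro u
    rw [Finset.sum_boole]
    rfl
  rw [Finset.sum_congr rfl fun u _ => h1 u, Finset.sum_comm]
  have h2 : ∀ j ∈ range (M + 1), ∑ u ∈ boxZ (k + 1) X,
      (if ‖∑ i, (u i : ℂ) * z ^ (i : ℕ)‖ < X * Real.exp (-(j : ℝ)) then (1 : ℝ) else 0) ≤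
      (2 * (X * Real.exp (-(j : ℝ))) + 1) * (X : ℝ) ^ k := by
    intro j _
    rw [Finset.sum_boole]
    exact lb1_count k X z _ (by positivity)
  refine (Finset.sum_le_sum h2).trans ?_
  rw [← Finset.sum_mul, Finset.sum_add_distrib, Finset.sum_const, Finset.card_range]
  rw [mul_comm]
  refine mul_le_mul_of_nonneg_left ?_ (by positivity)
  have h3 : ∑ i ∈ range (M + 1), 2 * ((X : ℝ) * Real.exp (-(i : ℝ))) =
      2 * X * ∑ i ∈ range (M + 1), Real.exp (-(i : ℝ)) := by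
    rw [Finset.mul_sum]
    refine Finset.sum_congr rfl fun i _ => ?_
    ring
  rw [h3]
  have h4 := mul_le_mul_of_nonneg_left (lb1_exp_sum M) (show (0 : ℝ) ≤ 2 * X by positivity)
  simp only [nsmul_eq_mul, mul_one]
  push_cast
  linarith

theorem T_lower (k : ℕ) (hk : 1 ≤ k) : ∃ C : ℝ, 0 ≤ C ∧
    ∀ (K : Type) [Field K] [NumberField K] (g : ℤ[X]), g.Monic → g.natDegree = k → Irreducible g →
    ∀ (θ : 𝓞 K), aeval θ g = 0 → Module.finrank ℚ K = k →
    ∀ H : ℝ, 2 ≤ H → HtLe g H → ∀ X : ℕ, 1 ≤ X →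
    (X : ℝ) ^ k * (k * Real.log X) - C * (X : ℝ) ^ k * Real.log H ≤
      ∑ u ∈ boxZ k X, Real.log (nn θ u) := by
  have hlog2 : 0 < Real.log 2 := Real.log_pos (by norm_num)
  refine ⟨k * (k + 6) / Real.log 2, by positivity, ?_⟩
  intro K _ _ g hg hd hirr θ hθ hfr H hH hHt X hX
  have hX0 : (1 : ℝ) ≤ X := by exact_mod_cast hX
  have hlogX : 0 ≤ Real.log X := Real.log_nonneg hX0
  have hlogX' : Real.log X ≤ X := by
    have := Real.log_le_sub_one_of_pos (show (0 : ℝ) < X by linarith)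
    linarith
  set M : ℕ := ⌈(k : ℝ) * Real.log X⌉₊ with hM
  have hM1 : (k : ℝ) * Real.log X ≤ M := Nat.le_ceil _
  have hM2 : (M : ℝ) ≤ k * X + 1 := by
    have h1 := Nat.ceil_lt_add_one (show 0 ≤ (k : ℝ) * Real.log X by positivity)
    have h2 : (k : ℝ) * Real.log X ≤ k * X := mul_le_mul_of_nonneg_left hlogX' (Nat.cast_nonneg _)
    rw [← hM] at h1
    linarith
  have hcardσ : Fintype.card (K →+* ℂ) = k := by
    rw [NumberField.Embeddings.card K ℂ, hfr]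
  -- pointwise bound
  have hpt : ∀ u : Fin k → ℤ, (k : ℝ) * Real.log X -
      ∑ σ : K →+* ℂ, (lb1_m M X ‖∑ i, (u i : ℂ) * (σ (θ : K)) ^ (i : ℕ)‖ : ℝ) ≤
        Real.log (nn θ u) := by
    intro u
    by_cases hcase : ∃ σ : K →+* ℂ,
        (k : ℝ) * Real.log X ≤ (lb1_m M X ‖∑ i, (u i : ℂ) * (σ (θ : K)) ^ (i : ℕ)‖ : ℝ)
    · obtain ⟨σ, hσ⟩ := hcase
      have h1 : (lb1_m M X ‖∑ i, (u i : ℂ) * (σ (θ : K)) ^ (i : ℕ)‖ : ℝ) ≤
          ∑ σ : K →+* ℂ, (lb1_m M X ‖∑ i, (u i : ℂ) * (σ (θ : K)) ^ (i : ℕ)‖ : ℝ) :=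
        Finset.single_le_sum
          (f := fun σ : K →+* ℂ => (lb1_m M X ‖∑ i, (u i : ℂ) * (σ (θ : K)) ^ (i : ℕ)‖ : ℝ))
          (fun σ _ => Nat.cast_nonneg _) (Finset.mem_univ σ)
      have h2 : 0 ≤ Real.log (nn θ u) := Real.log_natCast_nonneg _
      linarith
    · push Not at hcase
      have h1 : ∀ σ : K →+* ℂ,
          X * Real.exp (-(lb1_m M X ‖∑ i, (u i : ℂ) * (σ (θ : K)) ^ (i : ℕ)‖ : ℝ)) ≤
            ‖∑ i, (u i : ℂ) * (σ (θ : K)) ^ (i : ℕ)‖ := by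
        intro σ
        apply lb1_m_spec
        have := (hcase σ).trans_le hM1
        have : lb1_m M X ‖∑ i, (u i : ℂ) * (σ (θ : K)) ^ (i : ℕ)‖ < M := by exact_mod_cast this
        omega
      have h2 : (X : ℝ) ^ k * Real.exp (-∑ σ : K →+* ℂ,
          (lb1_m M X ‖∑ i, (u i : ℂ) * (σ (θ : K)) ^ (i : ℕ)‖ : ℝ)) ≤ nn θ u := by
        rw [nf_prod k hk g hg hd hirr θ hθ hfr u]
        calc (X : ℝ) ^ k * Real.exp (-∑ σ : K →+* ℂ,
              (lb1_m M X ‖∑ i, (u i : ℂ) * (σ (θ : K)) ^ (i : ℕ)‖ : ℝ)) =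
            ∏ σ : K →+* ℂ,
              (X * Real.exp (-(lb1_m M X ‖∑ i, (u i : ℂ) * (σ (θ : K)) ^ (i : ℕ)‖ : ℝ))) := by
              rw [Finset.prod_mul_distrib, Finset.prod_const, Finset.card_univ, hcardσ,
                ← Finset.sum_neg_distrib, Real.exp_sum]
          _ ≤ _ := Finset.prod_le_prod (fun σ _ => by positivity) (fun σ _ => h1 σ)
      have h3 : Real.log ((X : ℝ) ^ k * Real.exp (-∑ σ : K →+* ℂ,
          (lb1_m M X ‖∑ i, (u i : ℂ) * (σ (θ : K)) ^ (i : ℕ)‖ : ℝ))) ≤ Real.log (nn θ u) :=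
        Real.log_le_log (by positivity) h2
      rw [Real.log_mul (by positivity) (Real.exp_ne_zero _), Real.log_exp, Real.log_pow] at h3
      linarith
  -- the sum
  obtain ⟨k', rfl⟩ : ∃ k', k = k' + 1 := ⟨k - 1, by omega⟩
  have hsum := Finset.sum_le_sum (s := boxZ (k' + 1) X) fun u _ => hpt u
  rw [Finset.sum_sub_distrib, Finset.sum_const, lb1_card_box, Finset.sum_comm] at hsum
  have hbound : ∑ σ : K →+* ℂ, ∑ u ∈ boxZ (k' + 1) X,
      (lb1_m M X ‖∑ i, (u i : ℂ) * (σ (θ : K)) ^ (i : ℕ)‖ : ℝ) ≤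
      ∑ σ : K →+* ℂ, (X : ℝ) ^ k' * (4 * X + M + 1) :=
    Finset.sum_le_sum fun σ _ => lb1_sum_m k' M X hX _
  rw [Finset.sum_const, Finset.card_univ, hcardσ] at hbound
  have hb2 : ((k' + 1 : ℕ) • ((X : ℝ) ^ k' * (4 * X + M + 1))) ≤
      ((k' + 1 : ℕ) : ℝ) * (((k' + 1 : ℕ) : ℝ) + 6) * (X : ℝ) ^ (k' + 1) := by
    rw [nsmul_eq_mul, mul_assoc]
    refine mul_le_mul_of_nonneg_left ?_ (Nat.cast_nonneg _)
    calc (X : ℝ) ^ k' * (4 * X + M + 1) ≤ (X : ℝ) ^ k' * ((((k' + 1 : ℕ) : ℝ) + 6) * X) := by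
          refine mul_le_mul_of_nonneg_left ?_ (by positivity)
          nlinarith
      _ = (((k' + 1 : ℕ) : ℝ) + 6) * (X : ℝ) ^ (k' + 1) := by ring
  have hC : ((k' + 1 : ℕ) : ℝ) * (((k' + 1 : ℕ) : ℝ) + 6) * (X : ℝ) ^ (k' + 1) ≤
      ((k' + 1 : ℕ) : ℝ) * (((k' + 1 : ℕ) : ℝ) + 6) / Real.log 2 * (X : ℝ) ^ (k' + 1) *
        Real.log H := by
    have hlogH : Real.log 2 ≤ Real.log H := Real.log_le_log (by norm_num) hH
    have h1 : ((k' + 1 : ℕ) : ℝ) * (((k' + 1 : ℕ) : ℝ) + 6) / Real.log 2 * (X : ℝ) ^ (k' + 1) *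
        Real.log H = ((k' + 1 : ℕ) : ℝ) * (((k' + 1 : ℕ) : ℝ) + 6) * (X : ℝ) ^ (k' + 1) *
          (Real.log H / Real.log 2) := by
      field_simp
    rw [h1]
    refine le_mul_of_one_le_right (by positivity) ?_
    rw [le_div_iff₀ hlog2]
    linarith
  rw [nsmul_eq_mul] at hsum
  push_cast at hsum hC hb2 hbound ⊢
  linarith

end EK75

end S_H75_EK_Lb1

section S_H75_EK_Lb2

/-! Module LB2: second moment sieve. -/

open Polynomial Finset
open scoped Real BigOperators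

namespace EK75

open Classical in
/-- `u ∈ [0,X)^k` such that no prime `p ∈ (a,b]` and root `r` of `g` mod `p` satisfy `p ∣ u(r)` -/
noncomputable def freeU (g : ℤ[X]) (k X : ℕ) (a b : ℝ) : Finset (Fin k → ℤ) :=
  (boxZ k X).filter fun u => ∀ p ∈ prIoc a b, ∀ r ∈ range p, (p : ℤ) ∣ g.eval (r : ℤ) →
    ¬ ((p : ℤ) ∣ ∑ i : Fin k, u i * (r : ℤ) ^ (i : ℕ))

/-! ### Counting in one residue class -/

theorem lb2_card_modEq (X q : ℕ) (hq : 0 < q) (v : ℤ) :
    |((((Finset.Ico 0 (X : ℤ)).filter (· ≡ v [ZMOD q])).card : ℝ)) - (X : ℝ) / q| ≤ 1 := by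
  have hq' : (0 : ℤ) < q := by exact_mod_cast hq
  have hqR : (0 : ℝ) < q := by exact_mod_cast hq
  have h := Int.Ico_filter_modEq_card 0 (X : ℤ) hq' v
  have h1 : (((Finset.Ico 0 (X : ℤ)).filter (· ≡ v [ZMOD q])).card : ℤ) =
      max (⌈((X : ℤ) - v : ℚ) / ((q : ℤ) : ℚ)⌉ - ⌈((0 : ℤ) - v : ℚ) / ((q : ℤ) : ℚ)⌉) 0 := h
  set A : ℤ := ⌈((X : ℤ) - v : ℚ) / ((q : ℤ) : ℚ)⌉ with hA
  set B : ℤ := ⌈((0 : ℤ) - v : ℚ) / ((q : ℤ) : ℚ)⌉ with hB
  have a1 := Int.le_ceil (((X : ℤ) - v : ℚ) / ((q : ℤ) : ℚ))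
  have a2 := Int.ceil_lt_add_one (((X : ℤ) - v : ℚ) / ((q : ℤ) : ℚ))
  have b1 := Int.le_ceil (((0 : ℤ) - v : ℚ) / ((q : ℤ) : ℚ))
  have b2 := Int.ceil_lt_add_one (((0 : ℤ) - v : ℚ) / ((q : ℤ) : ℚ))
  rw [← hA] at a1 a2
  rw [← hB] at b1 b2
  have hqQ : (0 : ℚ) < q := by exact_mod_cast hq
  have e1 : (((X : ℤ) - v : ℚ) / ((q : ℤ) : ℚ)) - (((0 : ℤ) - v : ℚ) / ((q : ℤ) : ℚ)) = (X : ℚ) / q := by
    push_cast
    field_simp
    ring
  have hX0 : (0 : ℚ) ≤ (X : ℚ) / q := by positivity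
  have c1 : (A : ℚ) - B - (X : ℚ) / q < 1 := by linarith
  have c2 : -1 < (A : ℚ) - B - (X : ℚ) / q := by linarith
  have hcard : ((((Finset.Ico 0 (X : ℤ)).filter (· ≡ v [ZMOD q])).card : ℕ) : ℚ) =
      max ((A : ℚ) - B) 0 := by
    have : ((((Finset.Ico 0 (X : ℤ)).filter (· ≡ v [ZMOD q])).card : ℤ) : ℚ) =
        ((max (A - B) 0 : ℤ) : ℚ) := by rw [h1]
    push_cast at this
    exact this
  have d : |(((((Finset.Ico 0 (X : ℤ)).filter (· ≡ v [ZMOD q])).card : ℕ) : ℚ)) - (X : ℚ) / q| ≤ 1 := by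
    rw [hcard, abs_le]
    constructor
    · have := le_max_left ((A : ℚ) - B) 0
      linarith
    · rcases le_total ((A : ℚ) - B) 0 with h0 | h0
      · rw [max_eq_right h0]; linarith
      · rw [max_eq_left h0]; linarith
  have d2 : ((|(((((Finset.Ico 0 (X : ℤ)).filter (· ≡ v [ZMOD q])).card : ℕ) : ℚ)) - (X : ℚ) / q| : ℚ) : ℝ)
      ≤ ((1 : ℚ) : ℝ) := by exact_mod_cast d
  push_cast at d2
  exact d2

theorem lb2_class_le (X q : ℕ) (hq : 0 < q) (S : Finset ℤ) (hS : S ⊆ Finset.Ico 0 (X : ℤ))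
    (h : ∀ a ∈ S, ∀ b ∈ S, (q : ℤ) ∣ a - b) : (S.card : ℝ) ≤ (X : ℝ) / q + 1 := by
  rcases S.eq_empty_or_nonempty with h0 | ⟨a0, ha0⟩
  · rw [h0]
    have : (0 : ℝ) ≤ (X : ℝ) / q := by positivity
    simp only [Finset.card_empty, Nat.cast_zero]
    linarith
  · have h1 : S ⊆ (Finset.Ico 0 (X : ℤ)).filter (· ≡ a0 [ZMOD q]) := by
      intro a ha
      rw [Finset.mem_filter]
      refine ⟨hS ha, ?_⟩
      have := h a0 ha0 a ha
      exact (Int.modEq_iff_dvd).2 this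
    have h2 := lb2_card_modEq X q hq a0
    have h3 : (S.card : ℝ) ≤ (((Finset.Ico 0 (X : ℤ)).filter (· ≡ a0 [ZMOD q])).card : ℝ) := by
      exact_mod_cast Finset.card_le_card h1
    have := (abs_le.1 h2).2
    linarith

theorem lb2_class_ge (X q : ℕ) (hq : 0 < q) (c : ℤ) :
    (X : ℝ) / q - 1 ≤ (((Finset.Ico 0 (X : ℤ)).filter (fun a => (q : ℤ) ∣ a + c)).card : ℝ) := by
  have h2 := lb2_card_modEq X q hq (-c)
  have h1 : (Finset.Ico 0 (X : ℤ)).filter (· ≡ -c [ZMOD q]) =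
      (Finset.Ico 0 (X : ℤ)).filter (fun a => (q : ℤ) ∣ a + c) := by
    apply Finset.filter_congr
    intro a _
    rw [Int.modEq_comm, Int.modEq_iff_dvd, sub_neg_eq_add]
  rw [h1] at h2
  have := (abs_le.1 h2).1
  linarith

/-! ### Counting in the box -/

theorem lb2_box_sum (n X : ℕ) (F : (Fin (n + 1) → ℤ) → ℝ) :
    ∑ u ∈ boxZ (n + 1) X, F u =
      ∑ v ∈ boxZ n X, ∑ a ∈ Finset.Ico 0 (X : ℤ), F (Fin.cons a v) := by
  rw [← Finset.sum_product']
  refine Finset.sum_nbij' (fun u => (Fin.tail u, u 0)) (fun x => Fin.cons x.2 x.1) ?_ ?_ ?_ ?_ ?_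
  · intro u hu
    unfold boxZ at hu ⊢
    rw [Fintype.mem_piFinset] at hu
    rw [Finset.mem_product, Fintype.mem_piFinset]
    exact ⟨fun i => hu i.succ, hu 0⟩
  · intro x hx
    unfold boxZ at hx ⊢
    rw [Finset.mem_product, Fintype.mem_piFinset] at hx
    rw [Fintype.mem_piFinset]
    intro i
    refine Fin.cases ?_ (fun i => ?_) i
    · exact hx.2
    · exact hx.1 i
  · intro u _
    exact Fin.cons_self_tail u
  · intro x _
    simp
  · intro u _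
    rw [Fin.cons_self_tail]

theorem lb2_box_card (n X : ℕ) : ((boxZ n X).card : ℝ) = (X : ℝ) ^ n := by
  unfold boxZ
  rw [Fintype.card_piFinset]
  simp

/-- evaluation of the polynomial with coefficients `u` -/
def lb2ev {k : ℕ} (u : Fin k → ℤ) (r : ℤ) : ℤ := ∑ i : Fin k, u i * r ^ (i : ℕ)

theorem lb2ev_cons {n : ℕ} (a : ℤ) (v : Fin n → ℤ) (r : ℤ) :
    lb2ev (Fin.cons a v : Fin (n + 1) → ℤ) r = a + r * lb2ev v r := by
  unfold lb2ev
  rw [Fin.sum_univ_succ]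
  simp only [Fin.cons_zero, Fin.val_zero, pow_zero, mul_one, Fin.cons_succ, Fin.val_succ]
  rw [Finset.mul_sum]
  congr 1
  refine Finset.sum_congr rfl fun i _ => ?_
  ring

/-- indicator -/
noncomputable def lb2ind (P : Prop) : ℝ := by
  classical exact if P then 1 else 0

theorem lb2ind_nonneg (P : Prop) : 0 ≤ lb2ind P := by
  unfold lb2ind
  split_ifs <;> simp

theorem lb2_sum_ind {α : Type*} (s : Finset α) (P : α → Prop) [DecidablePred P] :
    ∑ a ∈ s, lb2ind (P a) = ((s.filter P).card : ℝ) := by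
  unfold lb2ind
  rw [Finset.card_filter]
  push_cast
  refine Finset.sum_congr rfl fun a _ => ?_
  by_cases h : P a <;> simp [h]

theorem lb2_one_ge (n X : ℕ) (p : ℕ) (hp : 0 < p) (r : ℤ) :
    (X : ℝ) ^ n * ((X : ℝ) / p - 1) ≤
      ∑ u ∈ boxZ (n + 1) X, lb2ind ((p : ℤ) ∣ lb2ev u r) := by
  rw [lb2_box_sum, ← lb2_box_card n X, ← nsmul_eq_mul]
  refine Finset.card_nsmul_le_sum _ _ _ fun v _ => ?_
  simp only [lb2ev_cons]
  rw [lb2_sum_ind]
  exact lb2_class_ge X p hp _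

theorem lb2_two_le (n X : ℕ) (p p' : ℕ) (q : ℕ) (hq : 0 < q)
    (hdiv : ∀ x : ℤ, (p : ℤ) ∣ x → (p' : ℤ) ∣ x → (q : ℤ) ∣ x) (r r' : ℤ) :
    ∑ u ∈ boxZ (n + 1) X, lb2ind ((p : ℤ) ∣ lb2ev u r ∧ (p' : ℤ) ∣ lb2ev u r') ≤
      (X : ℝ) ^ n * ((X : ℝ) / q + 1) := by
  rw [lb2_box_sum, ← lb2_box_card n X, ← nsmul_eq_mul]
  refine Finset.sum_le_card_nsmul _ _ _ fun v _ => ?_
  simp only [lb2ev_cons]
  rw [lb2_sum_ind]
  refine lb2_class_le X q hq _ (Finset.filter_subset _ _) ?_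
  intro a ha b hb
  rw [Finset.mem_filter] at ha hb
  apply hdiv
  · have := dvd_sub ha.2.1 hb.2.1
    simpa using this
  · have := dvd_sub ha.2.2 hb.2.2
    simpa using this

theorem lb2_same_le (n X : ℕ) (p : ℕ) (hp : p.Prime) (r r' : ℤ) (hr : ¬ (p : ℤ) ∣ r - r') :
    ∑ u ∈ boxZ (n + 1 + 1) X, lb2ind ((p : ℤ) ∣ lb2ev u r ∧ (p : ℤ) ∣ lb2ev u r') ≤
      (X : ℝ) ^ n * ((X : ℝ) / p + 1) ^ 2 := by
  have hpos := hp.pos
  rw [lb2_box_sum, lb2_box_sum, ← lb2_box_card n X, ← nsmul_eq_mul]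
  refine Finset.sum_le_card_nsmul _ _ _ fun w _ => ?_
  classical
  -- the admissible `b`
  set T : Finset ℤ := (Finset.Ico 0 (X : ℤ)).filter
    (fun b => (p : ℤ) ∣ (r * (b + r * lb2ev w r)) - (r' * (b + r' * lb2ev w r'))) with hT
  have hTc : (T.card : ℝ) ≤ (X : ℝ) / p + 1 := by
    refine lb2_class_le X p hpos _ (Finset.filter_subset _ _) ?_
    intro a ha b hb
    rw [hT, Finset.mem_filter] at ha hb
    have h1 := dvd_sub ha.2 hb.2
    have h2 : (r * (a + r * lb2ev w r)) - (r' * (a + r' * lb2ev w r')) -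
        ((r * (b + r * lb2ev w r)) - (r' * (b + r' * lb2ev w r'))) = (r - r') * (a - b) := by ring
    rw [h2] at h1
    exact (Int.Prime.dvd_mul' hp h1).resolve_left hr
  have hinner : ∀ b ∈ Finset.Ico 0 (X : ℤ), ∑ a ∈ Finset.Ico 0 (X : ℤ),
      lb2ind ((p : ℤ) ∣ lb2ev (Fin.cons a (Fin.cons b w) : Fin (n + 1 + 1) → ℤ) r ∧
        (p : ℤ) ∣ lb2ev (Fin.cons a (Fin.cons b w) : Fin (n + 1 + 1) → ℤ) r') ≤
      if b ∈ T then (X : ℝ) / p + 1 else 0 := by
    intro b hb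
    rw [lb2_sum_ind]
    split_ifs with hbT
    · refine lb2_class_le X p hpos _ (Finset.filter_subset _ _) ?_
      intro a ha a' ha'
      rw [Finset.mem_filter] at ha ha'
      have := dvd_sub ha.2.1 ha'.2.1
      simpa [lb2ev_cons] using this
    · have : (Finset.Ico 0 (X : ℤ)).filter (fun a =>
        (p : ℤ) ∣ lb2ev (Fin.cons a (Fin.cons b w) : Fin (n + 1 + 1) → ℤ) r ∧
        (p : ℤ) ∣ lb2ev (Fin.cons a (Fin.cons b w) : Fin (n + 1 + 1) → ℤ) r') = ∅ := by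
        rw [Finset.filter_eq_empty_iff]
        intro a _ h
        apply hbT
        rw [hT, Finset.mem_filter]
        refine ⟨hb, ?_⟩
        have := dvd_sub h.1 h.2
        simpa [lb2ev_cons] using this
      rw [this]
      simp
  refine (Finset.sum_le_sum hinner).trans ?_
  rw [← Finset.sum_filter, Finset.sum_const, nsmul_eq_mul]
  have h5 : (Finset.Ico 0 (X : ℤ)).filter (fun b => b ∈ T) = T := by
    ext b
    rw [Finset.mem_filter, hT, Finset.mem_filter]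
    tauto
  rw [h5, sq]
  exact mul_le_mul_of_nonneg_right hTc (by positivity)

/-! ### Pairs (prime, root) -/

theorem lb2_rho_le {g : ℤ[X]} (hg : g.Monic) {p : ℕ} (hp : p.Prime) : rho g p ≤ g.natDegree := by
  have : Fact p.Prime := ⟨hp⟩
  set G : (ZMod p)[X] := g.map (Int.castRingHom (ZMod p)) with hG
  have hGm : G.Monic := hg.map _
  have hinj : Set.InjOn (fun r : ℕ => (r : ZMod p))
      ((range p).filter (fun r : ℕ => (p : ℤ) ∣ g.eval (r : ℤ)) : Finset ℕ) := by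
    intro r hr r' hr' h
    rw [Finset.mem_coe, Finset.mem_filter, Finset.mem_range] at hr hr'
    have h2 : ((r : ℕ) : ZMod p) = ((r' : ℕ) : ZMod p) := h
    rw [ZMod.natCast_eq_natCast_iff'] at h2
    rwa [Nat.mod_eq_of_lt hr.1, Nat.mod_eq_of_lt hr'.1] at h2
  classical
  have h1 : ((range p).filter (fun r : ℕ => (p : ℤ) ∣ g.eval (r : ℤ))).card ≤ G.roots.toFinset.card := by
    refine Finset.card_le_card_of_injOn (fun r : ℕ => (r : ZMod p)) ?_ hinj
    intro r hr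
    rw [Finset.mem_coe, Finset.mem_filter] at hr
    rw [Finset.mem_coe, Multiset.mem_toFinset, Polynomial.mem_roots hGm.ne_zero]
    show G.eval ((r : ℕ) : ZMod p) = 0
    have h3 : G.eval ((r : ℕ) : ZMod p) = ((g.eval (r : ℤ) : ℤ) : ZMod p) := by
      rw [hG, Polynomial.eval_map, ← Int.cast_natCast (R := ZMod p), ← eq_intCast (Int.castRingHom (ZMod p)) (r : ℤ),
        Polynomial.eval₂_at_apply]
      rfl
    rw [h3]
    exact (ZMod.intCast_zmod_eq_zero_iff_dvd _ _).2 hr.2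
  have h2 : G.roots.toFinset.card ≤ G.natDegree :=
    (Multiset.toFinset_card_le _).trans (Polynomial.card_roots' G)
  unfold rho
  refine h1.trans (h2.trans ?_)
  rw [hG, hg.natDegree_map]

/-- pairs (prime, root) -/
noncomputable def lb2P (g : ℤ[X]) (a b : ℝ) : Finset (Σ _ : ℕ, ℕ) :=
  (prIoc a b).sigma fun p => (range p).filter (fun r : ℕ => (p : ℤ) ∣ g.eval (r : ℤ))

theorem lb2_mem {g : ℤ[X]} {a b : ℝ} {x : Σ _ : ℕ, ℕ} (hx : x ∈ lb2P g a b) :
    x.1.Prime ∧ x.1 ≤ ⌊b⌋₊ ∧ x.2 < x.1 ∧ x.1 ∈ prIoc a b := by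
  unfold lb2P at hx
  rw [Finset.mem_sigma, Finset.mem_filter, Finset.mem_range] at hx
  have h := hx.1
  unfold prIoc at h
  rw [Finset.mem_filter, Finset.mem_Ioc] at h
  exact ⟨h.2, h.1.2, hx.2.1, hx.1⟩

theorem lb2_S (g : ℤ[X]) (a b : ℝ) : Ssum (rhoR g) a b = ∑ x ∈ lb2P g a b, (1 : ℝ) / x.1 := by
  unfold Ssum lb2P rhoR rho
  rw [Finset.sum_sigma]
  refine Finset.sum_congr rfl fun p _ => ?_
  have h : ∀ r ∈ (range p).filter (fun r : ℕ => (p : ℤ) ∣ g.eval (r : ℤ)),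
      (1 : ℝ) / (((⟨p, r⟩ : Σ _ : ℕ, ℕ).1 : ℕ) : ℝ) = 1 / (p : ℝ) := fun r _ => rfl
  rw [Finset.sum_congr rfl h, Finset.sum_const, nsmul_eq_mul]
  ring

theorem lb2_prIoc_card (a b : ℝ) : (prIoc a b).card ≤ ⌊b⌋₊ := by
  unfold prIoc
  refine (Finset.card_filter_le _ _).trans ?_
  rw [Nat.card_Ioc]
  omega

theorem lb2_P_card (g : ℤ[X]) (a b : ℝ) : (lb2P g a b).card ≤ ⌊b⌋₊ ^ 2 := by
  unfold lb2P
  rw [Finset.card_sigma]
  calc ∑ p ∈ prIoc a b, ((range p).filter (fun r : ℕ => (p : ℤ) ∣ g.eval (r : ℤ))).card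
      ≤ ∑ p ∈ prIoc a b, ⌊b⌋₊ := by
        refine Finset.sum_le_sum fun p hp => ?_
        refine (Finset.card_filter_le _ _).trans ?_
        rw [Finset.card_range]
        unfold prIoc at hp
        rw [Finset.mem_filter, Finset.mem_Ioc] at hp
        exact hp.1.2
    _ = (prIoc a b).card * ⌊b⌋₊ := by rw [Finset.sum_const, smul_eq_mul]
    _ ≤ ⌊b⌋₊ * ⌊b⌋₊ := Nat.mul_le_mul_right _ (lb2_prIoc_card a b)
    _ = ⌊b⌋₊ ^ 2 := by ring

theorem lb2_S_le (g : ℤ[X]) (a b : ℝ) : Ssum (rhoR g) a b ≤ ⌊b⌋₊ := by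
  unfold Ssum
  calc ∑ p ∈ prIoc a b, rhoR g p / p ≤ ∑ p ∈ prIoc a b, (1 : ℝ) := by
        refine Finset.sum_le_sum fun p _ => ?_
        refine div_le_one_of_le₀ ?_ (Nat.cast_nonneg _)
        unfold rhoR rho
        exact_mod_cast (Finset.card_filter_le _ _).trans (by rw [Finset.card_range])
    _ = ((prIoc a b).card : ℝ) := by simp
    _ ≤ ⌊b⌋₊ := by exact_mod_cast lb2_prIoc_card a b

theorem lb2_S_nonneg (g : ℤ[X]) (a b : ℝ) : 0 ≤ Ssum (rhoR g) a b := by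
  rw [lb2_S]
  exact Finset.sum_nonneg fun x _ => by positivity

/-- number of pairs with a given prime -/
theorem lb2_same_count {g : ℤ[X]} (hg : g.Monic) {k : ℕ} (hk : g.natDegree = k) (a b : ℝ) (q : ℕ) :
    ∑ y ∈ lb2P g a b, (if q = y.1 then (1 : ℝ) else 0) ≤ k := by
  unfold lb2P
  rw [Finset.sum_sigma]
  have h1 : ∀ p ∈ prIoc a b, ∑ r ∈ (range p).filter (fun r : ℕ => (p : ℤ) ∣ g.eval (r : ℤ)),
      (if q = (⟨p, r⟩ : Σ _ : ℕ, ℕ).1 then (1 : ℝ) else 0) = if q = p then (rho g p : ℝ) else 0 := by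
    intro p _
    have h : ∀ r ∈ (range p).filter (fun r : ℕ => (p : ℤ) ∣ g.eval (r : ℤ)),
        (if q = (⟨p, r⟩ : Σ _ : ℕ, ℕ).1 then (1 : ℝ) else 0) = if q = p then 1 else 0 := fun r _ => rfl
    rw [Finset.sum_congr rfl h, Finset.sum_const, nsmul_eq_mul]
    unfold rho
    split_ifs <;> simp
  rw [Finset.sum_congr rfl h1, Finset.sum_ite_eq]
  split_ifs with hq
  · unfold prIoc at hq
    rw [Finset.mem_filter] at hq
    rw [← hk]
    exact_mod_cast lb2_rho_le hg hq.2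
  · exact Nat.cast_nonneg _

theorem lb2_sum_sq {g : ℤ[X]} (hg : g.Monic) {k : ℕ} (hk : g.natDegree = k) (a b : ℝ) :
    ∑ x ∈ lb2P g a b, (1 : ℝ) / (x.1 : ℝ) ^ 2 ≤ k * ∑' n : ℕ, (1 : ℝ) / (n : ℝ) ^ 2 := by
  unfold lb2P
  rw [Finset.sum_sigma]
  have hsum : Summable (fun n : ℕ => (1 : ℝ) / (n : ℝ) ^ 2) :=
    Real.summable_one_div_nat_pow.2 (by norm_num)
  calc ∑ p ∈ prIoc a b, ∑ r ∈ (range p).filter (fun r : ℕ => (p : ℤ) ∣ g.eval (r : ℤ)),
        (1 : ℝ) / (((⟨p, r⟩ : Σ _ : ℕ, ℕ).1 : ℕ) : ℝ) ^ 2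
      ≤ ∑ p ∈ prIoc a b, (k : ℝ) * (1 / (p : ℝ) ^ 2) := by
        refine Finset.sum_le_sum fun p hp => ?_
        have h : ∀ r ∈ (range p).filter (fun r : ℕ => (p : ℤ) ∣ g.eval (r : ℤ)),
            (1 : ℝ) / (((⟨p, r⟩ : Σ _ : ℕ, ℕ).1 : ℕ) : ℝ) ^ 2 = 1 / (p : ℝ) ^ 2 := fun r _ => rfl
        rw [Finset.sum_congr rfl h, Finset.sum_const, nsmul_eq_mul]
        refine mul_le_mul_of_nonneg_right ?_ (by positivity)
        unfold prIoc at hp
        rw [Finset.mem_filter] at hp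
        have := lb2_rho_le hg hp.2
        unfold rho at this
        rw [hk] at this
        exact_mod_cast this
    _ = k * ∑ p ∈ prIoc a b, 1 / (p : ℝ) ^ 2 := by rw [Finset.mul_sum]
    _ ≤ k * ∑' n : ℕ, (1 : ℝ) / (n : ℝ) ^ 2 := by
        refine mul_le_mul_of_nonneg_left ?_ (Nat.cast_nonneg _)
        exact hsum.sum_le_tsum _ (fun n _ => by positivity)

/-- two conditions -/
theorem lb2_pair {g : ℤ[X]} (hg : g.Monic) {n X : ℕ} (hk : g.natDegree = n + 1) {a b : ℝ}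
    (hb : ⌊b⌋₊ ≤ X) {x y : Σ _ : ℕ, ℕ} (hx : x ∈ lb2P g a b) (hy : y ∈ lb2P g a b) :
    ∑ u ∈ boxZ (n + 1) X, lb2ind ((x.1 : ℤ) ∣ lb2ev u x.2 ∧ (y.1 : ℤ) ∣ lb2ev u y.2) ≤
      (X : ℝ) ^ (n + 1) * ((1 / x.1) * (1 / y.1)) + (X : ℝ) ^ n +
      (if x = y then (X : ℝ) ^ (n + 1) * (1 / x.1) else 0) +
      (if x.1 = y.1 then 4 * (X : ℝ) ^ (n + 1) * (1 / (x.1 : ℝ) ^ 2) else 0) := by
  obtain ⟨hxp, hxb, hxr, -⟩ := lb2_mem hx
  obtain ⟨hyp, hyb, hyr, -⟩ := lb2_mem hy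
  have hX0 : (0 : ℝ) ≤ X := Nat.cast_nonneg _
  have hxpos : (0 : ℝ) < x.1 := by exact_mod_cast hxp.pos
  have hypos : (0 : ℝ) < y.1 := by exact_mod_cast hyp.pos
  by_cases h : x.1 = y.1
  · by_cases h2 : x.2 = y.2
    · have hxy : x = y := Sigma.ext h (by rw [h2])
      rw [if_pos hxy, if_pos h]
      subst hxy
      have h3 := lb2_two_le n X x.1 x.1 x.1 hxp.pos (fun z hz _ => hz) x.2 x.2
      have h4 : (X : ℝ) ^ n * ((X : ℝ) / x.1 + 1) = (X : ℝ) ^ (n + 1) * (1 / x.1) + (X : ℝ) ^ n := by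
        rw [pow_succ]; ring
      have h5 : 0 ≤ (X : ℝ) ^ (n + 1) * ((1 / x.1) * (1 / x.1)) := by positivity
      have h6 : 0 ≤ 4 * (X : ℝ) ^ (n + 1) * (1 / (x.1 : ℝ) ^ 2) := by positivity
      linarith
    · have hxy : x ≠ y := fun e => h2 (by rw [e])
      rw [if_neg hxy, if_pos h]
      -- degree at least two
      have hn : ∃ n', n = n' + 1 := by
        rcases n with _ | n'
        · exfalso
          have h1 := lb2_rho_le hg hxp
          rw [hk] at h1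
          unfold rho at h1
          have hx2 : x.2 ∈ (range x.1).filter (fun r : ℕ => (x.1 : ℤ) ∣ g.eval (r : ℤ)) := by
            have := hx
            unfold lb2P at this
            exact (Finset.mem_sigma.1 this).2
          have hy2 : y.2 ∈ (range x.1).filter (fun r : ℕ => (x.1 : ℤ) ∣ g.eval (r : ℤ)) := by
            have := hy
            unfold lb2P at this
            rw [h]
            exact (Finset.mem_sigma.1 this).2
          have := Finset.card_le_one.1 (by simpa using h1) x.2 hx2 y.2 hy2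
          exact h2 this
        · exact ⟨n', rfl⟩
      obtain ⟨n', rfl⟩ := hn
      have hr : ¬ (x.1 : ℤ) ∣ ((x.2 : ℕ) : ℤ) - ((y.2 : ℕ) : ℤ) := by
        intro hd
        have h1 : |((x.2 : ℕ) : ℤ) - ((y.2 : ℕ) : ℤ)| < (x.1 : ℤ) := by
          rw [abs_lt]
          rw [← h] at hyr
          constructor <;> omega
        have := Int.eq_zero_of_abs_lt_dvd hd h1
        apply h2
        omega
      have h3 := lb2_same_le n' X x.1 hxp x.2 y.2 hr
      rw [← h]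
      refine h3.trans ?_
      have h4 : (1 : ℝ) ≤ (X : ℝ) / x.1 := by
        rw [le_div_iff₀ hxpos, one_mul]
        exact_mod_cast hxb.trans hb
      have h5 : (X : ℝ) ^ n' * ((X : ℝ) / x.1 + 1) ^ 2 ≤ 4 * (X : ℝ) ^ (n' + 1 + 1) * (1 / (x.1 : ℝ) ^ 2) := by
        calc (X : ℝ) ^ n' * ((X : ℝ) / x.1 + 1) ^ 2 ≤ (X : ℝ) ^ n' * (2 * ((X : ℝ) / x.1)) ^ 2 := by
              gcongr
              linarith
          _ = 4 * (X : ℝ) ^ (n' + 1 + 1) * (1 / (x.1 : ℝ) ^ 2) := by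
              field_simp
              ring
      have h6 : 0 ≤ (X : ℝ) ^ (n' + 1 + 1) * ((1 / x.1) * (1 / x.1)) := by positivity
      have h7 : 0 ≤ (X : ℝ) ^ (n' + 1) := by positivity
      linarith
  · have hxy : x ≠ y := fun e => h (by rw [e])
    rw [if_neg hxy, if_neg h]
    have hco : IsCoprime ((x.1 : ℕ) : ℤ) ((y.1 : ℕ) : ℤ) :=
      Nat.isCoprime_iff_coprime.2 ((Nat.coprime_primes hxp hyp).2 h)
    have h3 := lb2_two_le n X x.1 y.1 (x.1 * y.1) (Nat.mul_pos hxp.pos hyp.pos) (fun z hz hz' => by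
      push_cast
      exact hco.mul_dvd hz hz') x.2 y.2
    have h4 : (X : ℝ) ^ n * ((X : ℝ) / ((x.1 * y.1 : ℕ) : ℝ) + 1) =
        (X : ℝ) ^ (n + 1) * ((1 / x.1) * (1 / y.1)) + (X : ℝ) ^ n := by
      push_cast
      rw [pow_succ]
      field_simp
    linarith

theorem sieve2 (k : ℕ) (hk : 1 ≤ k) : ∃ C : ℝ, 0 ≤ C ∧ ∀ g : ℤ[X], g.Monic → g.natDegree = k →
    ∀ E : ℝ, 0 ≤ E → ∀ X : ℕ, 1 ≤ X →
    ((freeU g k X E ((X : ℝ) ^ ((1 : ℝ) / 4))).card : ℝ) *
      max 1 (Ssum (rhoR g) E ((X : ℝ) ^ ((1 : ℝ) / 4))) ≤ C * (X : ℝ) ^ k := by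
  obtain ⟨n, rfl⟩ : ∃ n, k = n + 1 := ⟨k - 1, by omega⟩
  set C2 : ℝ := ∑' m : ℕ, (1 : ℝ) / (m : ℝ) ^ 2 with hC2
  have hC20 : 0 ≤ C2 := tsum_nonneg fun m => by positivity
  refine ⟨5 + 4 * ((n + 1 : ℕ) : ℝ) ^ 2 * C2, by positivity, ?_⟩
  intro g hg hdeg E hE X hX
  have hXR : (1 : ℝ) ≤ X := by exact_mod_cast hX
  have hX0 : (0 : ℝ) < X := by linarith
  set b : ℝ := (X : ℝ) ^ ((1 : ℝ) / 4) with hb
  have hb1 : 1 ≤ b := Real.one_le_rpow hXR (by norm_num)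
  have hb4 : b ^ 4 = X := by
    rw [hb, ← Real.rpow_natCast, ← Real.rpow_mul hX0.le]
    norm_num
  set fb : ℝ := (⌊b⌋₊ : ℝ) with hfb
  have hfb0 : 0 ≤ fb := Nat.cast_nonneg _
  have hfbb : fb ≤ b := Nat.floor_le (by linarith)
  have hbX : ⌊b⌋₊ ≤ X := by
    have h1 : b ≤ X := by
      rw [← hb4]
      calc b = b ^ 1 := (pow_one b).symm
        _ ≤ b ^ 4 := pow_le_pow_right₀ hb1 (by norm_num)
    have h2 : fb ≤ X := hfbb.trans h1
    rw [hfb] at h2
    exact_mod_cast h2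
  set S : ℝ := Ssum (rhoR g) E b with hS
  set P := lb2P g E b with hP
  have hS0 : 0 ≤ S := lb2_S_nonneg g E b
  have hSe : S = ∑ x ∈ P, (1 : ℝ) / x.1 := lb2_S g E b
  have hSb : S ≤ fb := lb2_S_le g E b
  have hPc : (P.card : ℝ) ≤ fb ^ 2 := by
    have := lb2_P_card g E b
    rw [hfb]
    exact_mod_cast this
  have hPX : (P.card : ℝ) ^ 2 ≤ X := by
    calc (P.card : ℝ) ^ 2 ≤ (fb ^ 2) ^ 2 := by gcongr
      _ = fb ^ 4 := by ring
      _ ≤ b ^ 4 := by gcongr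
      _ = X := hb4
  have hSPX : S * P.card ≤ X := by
    calc S * P.card ≤ b * b ^ 2 := by
          refine mul_le_mul (hSb.trans hfbb) (hPc.trans (by gcongr)) (Nat.cast_nonneg _) (by linarith)
      _ = b ^ 3 := by ring
      _ ≤ b ^ 4 := pow_le_pow_right₀ hb1 (by norm_num)
      _ = X := hb4
  -- the counting function
  let Z : (Fin (n + 1) → ℤ) → ℝ := fun u => ∑ x ∈ P, lb2ind ((x.1 : ℤ) ∣ lb2ev u x.2)
  have hZ1 : (X : ℝ) ^ (n + 1) * S - (X : ℝ) ^ n * P.card ≤ ∑ u ∈ boxZ (n + 1) X, Z u := by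
    rw [Finset.sum_comm]
    have h1 : ∀ x ∈ P, (X : ℝ) ^ n * ((X : ℝ) / x.1 - 1) ≤
        ∑ u ∈ boxZ (n + 1) X, lb2ind ((x.1 : ℤ) ∣ lb2ev u x.2) := fun x hx =>
      lb2_one_ge n X x.1 (lb2_mem hx).1.pos x.2
    refine le_trans (le_of_eq ?_) (Finset.sum_le_sum h1)
    rw [hSe, Finset.mul_sum]
    have h2 : (X : ℝ) ^ n * (P.card : ℝ) = ∑ x ∈ P, (X : ℝ) ^ n := by
      rw [Finset.sum_const, nsmul_eq_mul]; ring
    rw [h2, ← Finset.sum_sub_distrib]
    refine Finset.sum_congr rfl fun x _ => ?_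
    rw [pow_succ]
    ring
  have hZ2 : ∑ u ∈ boxZ (n + 1) X, Z u ^ 2 ≤ (X : ℝ) ^ (n + 1) * S ^ 2 + (X : ℝ) ^ n * (P.card : ℝ) ^ 2 +
      (X : ℝ) ^ (n + 1) * S + 4 * (X : ℝ) ^ (n + 1) * (((n + 1 : ℕ) : ℝ) ^ 2 * C2) := by
    have h1 : ∀ u, Z u ^ 2 = ∑ x ∈ P, ∑ y ∈ P,
        lb2ind ((x.1 : ℤ) ∣ lb2ev u x.2 ∧ (y.1 : ℤ) ∣ lb2ev u y.2) := by
      intro u
      show (∑ x ∈ P, lb2ind ((x.1 : ℤ) ∣ lb2ev u x.2)) ^ 2 = _
      rw [sq, Finset.sum_mul_sum]
      refine Finset.sum_congr rfl fun x _ => Finset.sum_congr rfl fun y _ => ?_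
      unfold lb2ind
      by_cases h1 : (x.1 : ℤ) ∣ lb2ev u x.2 <;> by_cases h2 : (y.1 : ℤ) ∣ lb2ev u y.2 <;>
        simp [h1, h2]
    simp only [h1]
    rw [Finset.sum_comm]
    have h2 : ∀ x ∈ P, ∑ u ∈ boxZ (n + 1) X, ∑ y ∈ P,
        lb2ind ((x.1 : ℤ) ∣ lb2ev u x.2 ∧ (y.1 : ℤ) ∣ lb2ev u y.2) ≤
        ∑ y ∈ P, ((X : ℝ) ^ (n + 1) * ((1 / x.1) * (1 / y.1)) + (X : ℝ) ^ n +
      (if x = y then (X : ℝ) ^ (n + 1) * (1 / x.1) else 0) +
      (if x.1 = y.1 then 4 * (X : ℝ) ^ (n + 1) * (1 / (x.1 : ℝ) ^ 2) else 0)) := by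
      intro x hx
      rw [Finset.sum_comm]
      exact Finset.sum_le_sum fun y hy => lb2_pair hg hdeg hbX hx hy
    refine (Finset.sum_le_sum h2).trans ?_
    simp only [Finset.sum_add_distrib]
    have e1 : ∑ x ∈ P, ∑ y ∈ P, (X : ℝ) ^ (n + 1) * ((1 / (x.1 : ℝ)) * (1 / y.1)) =
        (X : ℝ) ^ (n + 1) * S ^ 2 := by
      rw [hSe, sq, Finset.sum_mul_sum, Finset.mul_sum]
      refine Finset.sum_congr rfl fun x _ => ?_
      rw [Finset.mul_sum]
    have e2 : ∑ x ∈ P, ∑ y ∈ P, (X : ℝ) ^ n = (X : ℝ) ^ n * (P.card : ℝ) ^ 2 := by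
      simp only [Finset.sum_const, nsmul_eq_mul]
      ring
    have e3 : ∑ x ∈ P, ∑ y ∈ P, (if x = y then (X : ℝ) ^ (n + 1) * (1 / (x.1 : ℝ)) else 0) =
        (X : ℝ) ^ (n + 1) * S := by
      rw [hSe, Finset.mul_sum]
      refine Finset.sum_congr rfl fun x hx => ?_
      rw [Finset.sum_ite_eq, if_pos hx]
    have e4 : ∑ x ∈ P, ∑ y ∈ P, (if x.1 = y.1 then 4 * (X : ℝ) ^ (n + 1) * (1 / (x.1 : ℝ) ^ 2) else 0) ≤
        4 * (X : ℝ) ^ (n + 1) * (((n + 1 : ℕ) : ℝ) ^ 2 * C2) := by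
      have h3 : ∀ x ∈ P, ∑ y ∈ P, (if x.1 = y.1 then 4 * (X : ℝ) ^ (n + 1) * (1 / (x.1 : ℝ) ^ 2) else 0) ≤
          4 * (X : ℝ) ^ (n + 1) * ((n + 1 : ℕ) : ℝ) * (1 / (x.1 : ℝ) ^ 2) := by
        intro x _
        have h4 := lb2_same_count hg hdeg E b x.1
        rw [← hP] at h4
        have h5 : ∑ y ∈ P, (if x.1 = y.1 then 4 * (X : ℝ) ^ (n + 1) * (1 / (x.1 : ℝ) ^ 2) else 0) =
            4 * (X : ℝ) ^ (n + 1) * (1 / (x.1 : ℝ) ^ 2) * ∑ y ∈ P, (if x.1 = y.1 then (1 : ℝ) else 0) := by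
          rw [Finset.mul_sum]
          refine Finset.sum_congr rfl fun y _ => ?_
          split_ifs <;> simp
        rw [h5]
        calc 4 * (X : ℝ) ^ (n + 1) * (1 / (x.1 : ℝ) ^ 2) * ∑ y ∈ P, (if x.1 = y.1 then (1 : ℝ) else 0)
            ≤ 4 * (X : ℝ) ^ (n + 1) * (1 / (x.1 : ℝ) ^ 2) * ((n + 1 : ℕ) : ℝ) :=
              mul_le_mul_of_nonneg_left h4 (by positivity)
          _ = _ := by ring
      refine (Finset.sum_le_sum h3).trans ?_
      rw [← Finset.mul_sum]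
      have h6 := lb2_sum_sq hg hdeg E b
      rw [← hP, ← hC2] at h6
      calc 4 * (X : ℝ) ^ (n + 1) * ((n + 1 : ℕ) : ℝ) * ∑ x ∈ P, 1 / (x.1 : ℝ) ^ 2
          ≤ 4 * (X : ℝ) ^ (n + 1) * ((n + 1 : ℕ) : ℝ) * (((n + 1 : ℕ) : ℝ) * C2) :=
            mul_le_mul_of_nonneg_left h6 (by positivity)
        _ = _ := by ring
    rw [e1, e2, e3]
    linarith
  -- variance
  have hvar : ((freeU g (n + 1) X E b).card : ℝ) * S ^ 2 ≤
      (X : ℝ) ^ (n + 1) * (S + 3 + 4 * (((n + 1 : ℕ) : ℝ) ^ 2 * C2)) := by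
    have h1 : ((freeU g (n + 1) X E b).card : ℝ) * S ^ 2 ≤ ∑ u ∈ boxZ (n + 1) X, (Z u - S) ^ 2 := by
      have h2 : ∀ u ∈ freeU g (n + 1) X E b, S ^ 2 ≤ (Z u - S) ^ 2 := by
        intro u hu
        unfold freeU at hu
        rw [Finset.mem_filter] at hu
        have h3 : Z u = 0 := by
          show ∑ x ∈ P, lb2ind ((x.1 : ℤ) ∣ lb2ev u x.2) = 0
          refine Finset.sum_eq_zero fun x hx => ?_
          have h4 := hx
          rw [hP] at h4
          unfold lb2P at h4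
          rw [Finset.mem_sigma, Finset.mem_filter] at h4
          have h5 := hu.2 x.1 h4.1 x.2 h4.2.1 h4.2.2
          unfold lb2ind lb2ev
          rw [if_neg h5]
        rw [h3]
        apply le_of_eq
        ring
      rw [← nsmul_eq_mul]
      refine (Finset.card_nsmul_le_sum _ _ _ h2).trans ?_
      refine Finset.sum_le_sum_of_subset_of_nonneg ?_ (fun u _ _ => sq_nonneg _)
      unfold freeU
      exact Finset.filter_subset _ _
    refine h1.trans ?_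
    have h2 : ∑ u ∈ boxZ (n + 1) X, (Z u - S) ^ 2 = ∑ u ∈ boxZ (n + 1) X, Z u ^ 2 -
        2 * S * ∑ u ∈ boxZ (n + 1) X, Z u + S ^ 2 * (X : ℝ) ^ (n + 1) := by
      rw [← lb2_box_card (n + 1) X, Finset.mul_sum, ← Finset.sum_sub_distrib, mul_comm (S ^ 2),
        ← nsmul_eq_mul, ← Finset.sum_const, ← Finset.sum_add_distrib]
      refine Finset.sum_congr rfl fun u _ => ?_
      ring
    rw [h2]
    have hXn : (0 : ℝ) ≤ (X : ℝ) ^ n := by positivity
    have h3 : (X : ℝ) ^ n * (P.card : ℝ) ^ 2 ≤ (X : ℝ) ^ (n + 1) := by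
      rw [pow_succ]
      exact mul_le_mul_of_nonneg_left hPX hXn
    have h4 : (X : ℝ) ^ n * (S * P.card) ≤ (X : ℝ) ^ (n + 1) := by
      rw [pow_succ]
      exact mul_le_mul_of_nonneg_left hSPX hXn
    have h5 : 2 * S * ((X : ℝ) ^ (n + 1) * S - (X : ℝ) ^ n * P.card) ≤
        2 * S * ∑ u ∈ boxZ (n + 1) X, Z u := mul_le_mul_of_nonneg_left hZ1 (by linarith)
    nlinarith
  -- conclusion
  have hfree : ((freeU g (n + 1) X E b).card : ℝ) ≤ (X : ℝ) ^ (n + 1) := by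
    rw [← lb2_box_card (n + 1) X]
    unfold freeU
    exact_mod_cast Finset.card_filter_le _ _
  have hXk : (0 : ℝ) ≤ (X : ℝ) ^ (n + 1) := by positivity
  have hextra : 0 ≤ 4 * ((n + 1 : ℕ) : ℝ) ^ 2 * C2 := by positivity
  rcases le_total S 1 with h | h
  · rw [max_eq_left h, mul_one]
    nlinarith
  · rw [max_eq_right h]
    have hS1 : 0 < S := by linarith
    have h6 : ((freeU g (n + 1) X E b).card : ℝ) * S * S ≤
        ((5 + 4 * ((n + 1 : ℕ) : ℝ) ^ 2 * C2) * (X : ℝ) ^ (n + 1)) * S := by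
      calc ((freeU g (n + 1) X E b).card : ℝ) * S * S = ((freeU g (n + 1) X E b).card : ℝ) * S ^ 2 := by ring
        _ ≤ (X : ℝ) ^ (n + 1) * (S + 3 + 4 * (((n + 1 : ℕ) : ℝ) ^ 2 * C2)) := hvar
        _ ≤ (X : ℝ) ^ (n + 1) * ((5 + 4 * ((n + 1 : ℕ) : ℝ) ^ 2 * C2) * S) := by
            refine mul_le_mul_of_nonneg_left ?_ hXk
            nlinarith
        _ = _ := by ring
    exact le_of_mul_le_mul_right h6 hS1

end EK75

end S_H75_EK_Lb2

section S_H75_EK_Lb3a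

/-! Module LB3A: discriminant-type constant, and the prime ideals above a good prime. -/

open Polynomial Finset NumberField
open scoped Real BigOperators

namespace EK75


theorem lb3a_aeval {K : Type} [Field K] [NumberField K] (k : ℕ) (hk : 1 ≤ k) (g : ℤ[X])
    (hg : g.Monic) (hd : g.natDegree = k) (θ : 𝓞 K) (hθ : aeval θ g = 0) (q : ℤ[X]) :
    ∃ c : Fin k → ℤ, aeval θ q = nu θ c := by
  have h1 : aeval θ q = aeval θ (q %ₘ g) := by
    conv_lhs => rw [← modByMonic_add_div q g, map_add, map_mul, hθ, zero_mul, add_zero]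
  have h2 : (q %ₘ g).natDegree < k := by
    rw [← hd]
    apply natDegree_modByMonic_lt _ hg
    intro h
    rw [h, natDegree_one] at hd
    omega
  refine ⟨fun i => (q %ₘ g).coeff i, ?_⟩
  rw [h1, aeval_eq_sum_range' h2, Finset.sum_range, nu]
  refine Finset.sum_congr rfl fun i _ => ?_
  rw [zsmul_eq_mul]

theorem lb3a_minpoly {K : Type} [Field K] [NumberField K] (g : ℤ[X])
    (hg : g.Monic) (hirr : Irreducible g) (θ : 𝓞 K) (hθ : aeval θ g = 0) :
    minpoly ℚ (θ : K) = g.map (algebraMap ℤ ℚ) := by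
  symm
  apply minpoly.eq_of_irreducible_of_monic
  · exact (hg.irreducible_iff_irreducible_map_fraction_map).1 hirr
  · rw [aeval_map_algebraMap]
    have := congrArg (algebraMap (𝓞 K) K) hθ
    rw [map_zero, ← aeval_algebraMap_apply] at this
    exact this
  · exact hg.map _

theorem lb3a_pb {K : Type} [Field K] [NumberField K] (k : ℕ) (g : ℤ[X])
    (hg : g.Monic) (hd : g.natDegree = k) (hirr : Irreducible g) (θ : 𝓞 K) (hθ : aeval θ g = 0)
    (hfr : Module.finrank ℚ K = k) : ∃ B : PowerBasis ℚ K, B.gen = (θ : K) ∧ B.dim = k := by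
  have hint : IsIntegral ℚ (θ : K) := Algebra.IsIntegral.isIntegral _
  have htop : IntermediateField.adjoin ℚ {(θ : K)} = ⊤ := by
    rw [Field.primitive_element_iff_minpoly_natDegree_eq, lb3a_minpoly g hg hirr θ hθ, hg.natDegree_map,
      hd, hfr]
  have htop' : Algebra.adjoin ℚ {(θ : K)} = ⊤ := by
    rw [← IntermediateField.adjoin_simple_toSubalgebra_of_isAlgebraic hint.isAlgebraic, htop]
    rfl
  refine ⟨PowerBasis.ofAdjoinEqTop hint htop', by simp, ?_⟩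
  rw [← PowerBasis.finrank, hfr]

theorem lb3a_bound (H : ℝ) (hH : 2 ≤ H) (k n : ℕ) (hn : n = k) (f : Fin n → ℂ)
    (hf : ∀ i, ‖f i‖ ≤ 1 + H) :
    ‖∏ i : Fin n, ∏ j ∈ Ioi i, (f j - f i) ^ 2‖ ≤ H ^ ((6 * k ^ 2 : ℕ) : ℝ) := by
  subst hn
  have hM : ∀ i j, ‖(f j - f i) ^ 2‖ ≤ H ^ 6 := by
    intro i j
    rw [norm_pow]
    have h1 : ‖f j - f i‖ ≤ H ^ 3 := by
      have := norm_sub_le (f j) (f i)
      have h2 := hf i
      have h3 := hf j
      nlinarith [sq_nonneg (H - 2), mul_nonneg (by linarith : (0:ℝ) ≤ H - 2) (by linarith : (0:ℝ) ≤ H + 2)]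
    calc ‖f j - f i‖ ^ 2 ≤ (H ^ 3) ^ 2 := by gcongr
      _ = H ^ 6 := by ring
  have hH1 : (1 : ℝ) ≤ H ^ 6 := one_le_pow₀ (by linarith)
  have h2 : ∀ i, ‖∏ j ∈ Ioi i, (f j - f i) ^ 2‖ ≤ (H ^ 6) ^ n := by
    intro i
    rw [norm_prod]
    calc ∏ j ∈ Ioi i, ‖(f j - f i) ^ 2‖ ≤ ∏ j ∈ Ioi i, H ^ 6 :=
          Finset.prod_le_prod (fun _ _ => norm_nonneg _) (fun j _ => hM i j)
      _ = (H ^ 6) ^ (Ioi i).card := by rw [prod_const]
      _ ≤ (H ^ 6) ^ n := pow_le_pow_right₀ hH1 ((card_le_univ _).trans (by simp))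
  rw [norm_prod]
  calc ∏ i, ‖∏ j ∈ Ioi i, (f j - f i) ^ 2‖ ≤ ∏ i : Fin n, (H ^ 6) ^ n :=
        Finset.prod_le_prod (fun _ _ => norm_nonneg _) (fun i _ => h2 i)
    _ = H ^ (6 * n ^ 2) := by
        rw [prod_const, card_univ, Fintype.card_fin, ← pow_mul, ← pow_mul]
        congr 1; ring
    _ = H ^ ((6 * n ^ 2 : ℕ) : ℝ) := (Real.rpow_natCast _ _).symm

theorem nf_disc (k : ℕ) (hk : 1 ≤ k) : ∃ A : ℝ, 1 ≤ A ∧
    ∀ (K : Type) [Field K] [NumberField K] (g : ℤ[X]), g.Monic → g.natDegree = k → Irreducible g →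
    ∀ (θ : 𝓞 K), aeval θ g = 0 → Module.finrank ℚ K = k → ∀ H : ℝ, 2 ≤ H → HtLe g H →
    ∃ Δ : ℕ, 1 ≤ Δ ∧ (Δ : ℝ) ≤ H ^ A ∧ ∀ x : 𝓞 K, ∃ c : Fin k → ℤ, (Δ : 𝓞 K) * x = nu θ c := by
  refine ⟨((6 * k ^ 2 : ℕ) : ℝ), ?_, ?_⟩
  · have : 1 ≤ 6 * k ^ 2 := by nlinarith
    exact_mod_cast this
  intro K _ _ g hg hd hirr θ hθ hfr H hH hht
  obtain ⟨B, hB, hBd⟩ := lb3a_pb k g hg hd hirr θ hθ hfr
  have hgen : IsIntegral ℤ B.gen := by rw [hB]; exact RingOfIntegers.isIntegral_coe θ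
  have hbint : ∀ i, IsIntegral ℤ (B.basis i) := by
    intro i
    rw [B.basis_eq_pow]
    exact hgen.pow _
  obtain ⟨d, hdD⟩ := IsIntegrallyClosed.isIntegral_iff.1
    (Algebra.discr_isIntegral ℚ (R := ℤ) hbint)
  have hD0 : Algebra.discr ℚ B.basis ≠ 0 := Algebra.discr_not_zero_of_basis _ _
  have hd0 : d ≠ 0 := by
    rintro rfl
    apply hD0
    rw [← hdD, map_zero]
  have hcard : Fintype.card (Fin B.dim) = Fintype.card (K →ₐ[ℚ] ℂ) := by
    rw [Fintype.card_fin, AlgHom.card, PowerBasis.finrank B]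
  let e : Fin B.dim ≃ (K →ₐ[ℚ] ℂ) := Fintype.equivOfCardEq hcard
  have hprod := Algebra.discr_powerBasis_eq_prod ℚ ℂ B e
  have hnorm : ‖(algebraMap ℚ ℂ (Algebra.discr ℚ B.basis))‖ ≤ H ^ ((6 * k ^ 2 : ℕ) : ℝ) := by
    rw [hprod]
    apply lb3a_bound H hH k B.dim hBd
    intro i
    rw [hB]
    exact nf_emb k hk g hg hd hirr θ hθ hfr H (by linarith) hht ((e i : K →ₐ[ℚ] ℂ) : K →+* ℂ)
  refine ⟨d.natAbs, Int.natAbs_pos.2 hd0, ?_, ?_⟩
  · rw [← hdD] at hnorm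
    have h1 : ((d.natAbs : ℕ) : ℝ) = |(d : ℝ)| := by
      rw [Nat.cast_natAbs, Int.cast_abs]
    rw [h1]
    convert hnorm using 1
    simp
  · intro x
    have h1 := Algebra.discr_mul_isIntegral_mem_adjoin ℚ (R := ℤ) hgen (z := (x : K))
      (RingOfIntegers.isIntegral_coe x)
    rw [Algebra.adjoin_singleton_eq_range_aeval, AlgHom.mem_range] at h1
    obtain ⟨q, hq⟩ := h1
    rw [hB] at hq
    have h2 : aeval θ q = (d : 𝓞 K) * x := by
      apply RingOfIntegers.ext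
      rw [← hdD] at hq
      have h3 : ((aeval θ q : 𝓞 K) : K) = aeval (θ : K) q := by
        exact (aeval_algebraMap_apply K θ q).symm
      rw [h3, hq]
      rw [Algebra.smul_def]
      simp
    obtain ⟨c, hc⟩ := lb3a_aeval k hk g hg hd θ hθ q
    rcases Int.natAbs_eq d with h | h
    · refine ⟨c, ?_⟩
      rw [← hc, h2]
      congr 1
      conv_rhs => rw [h]
      simp
    · refine ⟨fun i => - c i, ?_⟩
      have h3 : nu θ (fun i => - c i) = - nu θ c := by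
        simp [nu]
      rw [h3, ← hc, h2]
      conv_rhs => rw [h]
      simp

open UniqueFactorizationMonoid in
open Classical in
theorem lb3a_count {S : Type*} [CommRing S] [IsDedekindDomain S] (I P : Ideal S) (hI : I ≠ ⊥)
    (hP : P.IsPrime) (hP0 : P ≠ ⊥) (j : ℕ) :
    j ≤ (normalizedFactors I).count P ↔ I ≤ P ^ j := by
  have hirr : Irreducible P := (Ideal.prime_of_isPrime hP0 hP).irreducible
  have h1 := emultiplicity_eq_count_normalizedFactors hirr hI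
  rw [normalize_eq] at h1
  rw [← Ideal.dvd_iff_le, pow_dvd_iff_le_emultiplicity, h1]
  exact Nat.cast_le.symm

theorem lb3a_int {K : Type} [Field K] [NumberField K] (P : Ideal (𝓞 K)) (hP : P.IsPrime) (p : ℕ)
    (hp : p.Prime) (hpP : (p : 𝓞 K) ∈ P) (m : ℤ) : (m : 𝓞 K) ∈ P ↔ (p : ℤ) ∣ m := by
  constructor
  · intro hm
    by_contra hnd
    have hco : IsCoprime (p : ℤ) m :=
      (Prime.coprime_iff_not_dvd (Nat.prime_iff_prime_int.1 hp)).2 hnd
    obtain ⟨a, b, hab⟩ := hco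
    apply hP.ne_top
    rw [Ideal.eq_top_iff_one]
    have h1 : (1 : 𝓞 K) = (a : 𝓞 K) * (p : 𝓞 K) + (b : 𝓞 K) * (m : 𝓞 K) := by
      have := congrArg (fun t : ℤ => (t : 𝓞 K)) hab
      simp only [Int.cast_add, Int.cast_mul, Int.cast_natCast, Int.cast_one] at this
      exact this.symm
    rw [h1]
    exact P.add_mem (P.mul_mem_left _ hpP) (P.mul_mem_left _ hm)
  · rintro ⟨c, rfl⟩
    push_cast
    exact P.mul_mem_right _ hpP

theorem lb3a_prime {K : Type} [Field K] [NumberField K] (P : Ideal (𝓞 K)) (hP : P.IsPrime)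
    (hP0 : P ≠ ⊥) (p : ℕ) (hp : p.Prime) :
    ((p : 𝓞 K) ∈ P → 1 ≤ (Ideal.absNorm P).factorization p ∧
      Ideal.absNorm P = p ^ (Ideal.absNorm P).factorization p) ∧
    ((p : 𝓞 K) ∉ P → (Ideal.absNorm P).factorization p = 0) := by
  have hmax : P.IsMaximal := hP.isMaximal hP0
  obtain ⟨q, n, hn, hqP, hq, hN⟩ := Ideal.exists_prime_and_absNorm_eq_pow P
  rw [hN]
  constructor
  · intro hpP
    have h1 : (p : ℤ) ∣ (q : ℤ) := by
      rw [← lb3a_int P hP p hp hpP]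
      simpa using hqP
    have h2 : p = q := (Nat.prime_dvd_prime_iff_eq hp hq).1 (by exact_mod_cast h1)
    subst h2
    rw [hp.factorization_pow]
    simp only [Finsupp.single_eq_same]
    exact ⟨hn, trivial⟩
  · intro hpP
    have h2 : p ≠ q := by rintro rfl; exact hpP hqP
    rw [hq.factorization_pow]
    rw [Finsupp.single_eq_of_ne h2]

open UniqueFactorizationMonoid in
theorem lb3a_fac {K : Type} [Field K] [NumberField K] (m : Multiset (Ideal (𝓞 K)))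
    (hm : ∀ Q ∈ m, Q ≠ ⊥) (p : ℕ) :
    (Ideal.absNorm m.prod).factorization p = (m.map (fun Q => (Ideal.absNorm Q).factorization p)).sum := by
  induction m using Multiset.induction_on with
  | empty => simp
  | cons a m ih =>
    rw [Multiset.prod_cons, map_mul, Nat.factorization_mul, Finsupp.add_apply, ih, Multiset.map_cons,
      Multiset.sum_cons]
    · intro Q hQ; exact hm Q (Multiset.mem_cons_of_mem hQ)
    · rw [Ne, Ideal.absNorm_eq_zero_iff]; exact hm a (Multiset.mem_cons_self _ _)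
    · rw [Ne, Ideal.absNorm_eq_zero_iff]
      intro h
      rw [← Ideal.zero_eq_bot, Multiset.prod_eq_zero_iff] at h
      exact hm 0 (Multiset.mem_cons_of_mem h) rfl

open UniqueFactorizationMonoid in
open Classical in
theorem lb3a_fac2 {K : Type} [Field K] [NumberField K] (p : ℕ) (hp : p.Prime)
    (s : Finset (Ideal (𝓞 K))) (hs : ∀ P : Ideal (𝓞 K), P ∈ s ↔ P.IsPrime ∧ P ≠ ⊥ ∧ (p : 𝓞 K) ∈ P)
    (I : Ideal (𝓞 K)) (hI : I ≠ ⊥) :
    (Ideal.absNorm I).factorization p =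
      ∑ P ∈ s, (Ideal.absNorm P).factorization p * (normalizedFactors I).count P := by
  conv_lhs => rw [← Ideal.prod_normalizedFactors_eq_self hI]
  have hmem : ∀ Q ∈ normalizedFactors I, Q.IsPrime ∧ Q ≠ ⊥ := by
    intro Q hQ
    have h1 := prime_of_normalized_factor Q hQ
    exact ⟨Ideal.isPrime_of_prime h1, h1.ne_zero⟩
  rw [lb3a_fac _ (fun Q hQ => (hmem Q hQ).2), Finset.sum_multiset_map_count]
  have h1 : ∑ Q ∈ (normalizedFactors I).toFinset,
      (normalizedFactors I).count Q • (Ideal.absNorm Q).factorization p =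
      ∑ Q ∈ (normalizedFactors I).toFinset ∪ s,
      (normalizedFactors I).count Q • (Ideal.absNorm Q).factorization p := by
    apply Finset.sum_subset Finset.subset_union_left
    intro Q _ hQ
    rw [Multiset.mem_toFinset] at hQ
    rw [Multiset.count_eq_zero_of_notMem hQ, zero_smul]
  have h2 : ∑ P ∈ s, (Ideal.absNorm P).factorization p * (normalizedFactors I).count P =
      ∑ P ∈ (normalizedFactors I).toFinset ∪ s,
        (Ideal.absNorm P).factorization p * (normalizedFactors I).count P := by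
    apply Finset.sum_subset Finset.subset_union_right
    intro Q hQ hQs
    rw [Finset.mem_union, Multiset.mem_toFinset] at hQ
    have hQ1 := hQ.resolve_right hQs
    obtain ⟨h3, h4⟩ := hmem Q hQ1
    rw [hs] at hQs
    have h5 : (p : 𝓞 K) ∉ Q := fun h => hQs ⟨h3, h4, h⟩
    rw [(lb3a_prime Q h3 h4 p hp).2 h5, zero_mul]
  rw [h1, h2]
  refine Finset.sum_congr rfl fun Q _ => ?_
  rw [smul_eq_mul, mul_comm]

theorem lb3a_index {K : Type} [Field K] [NumberField K] (k : ℕ) (θ : 𝓞 K) (Δ : ℕ)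
    (hΔ : ∀ x : 𝓞 K, ∃ c : Fin k → ℤ, (Δ : 𝓞 K) * x = nu θ c)
    (p : ℕ) (hp : p.Prime) (hpΔ : ¬ p ∣ Δ) (P : Ideal (𝓞 K)) (hpP : (p : 𝓞 K) ∈ P) (j : ℕ) :
    (latI k θ (P ^ j)).index = Ideal.absNorm (P ^ j) := by
  let φ : (Fin k → ℤ) →+ 𝓞 K ⧸ P ^ j :=
    { toFun := fun u => Ideal.Quotient.mk _ (nu θ u)
      map_zero' := by simp [nu]
      map_add' := by
        intro a b
        rw [← map_add]
        congr 1
        simp only [nu, Pi.add_apply, Int.cast_add, add_mul, Finset.sum_add_distrib] }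
  have hker : latI k θ (P ^ j) = φ.ker := by
    ext u
    rw [AddMonoidHom.mem_ker]
    change nu θ u ∈ P ^ j ↔ Ideal.Quotient.mk (P ^ j) (nu θ u) = 0
    rw [Ideal.Quotient.eq_zero_iff_mem]
  have hrange : φ.range = ⊤ := by
    rw [AddMonoidHom.range_eq_top]
    intro y
    obtain ⟨x, rfl⟩ := Ideal.Quotient.mk_surjective y
    have hco : IsCoprime ((p : ℤ) ^ j) (Δ : ℤ) := by
      apply IsCoprime.pow_left
      rw [Nat.isCoprime_iff_coprime]
      exact (Nat.Prime.coprime_iff_not_dvd hp).2 hpΔ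
    obtain ⟨a, b, hab⟩ := hco
    obtain ⟨c, hc⟩ := hΔ ((b : 𝓞 K) * x)
    refine ⟨c, ?_⟩
    change Ideal.Quotient.mk (P ^ j) (nu θ c) = _
    rw [← hc, Ideal.Quotient.eq]
    have h1 : (a : 𝓞 K) * (p : 𝓞 K) ^ j + (b : 𝓞 K) * (Δ : 𝓞 K) = 1 := by
      have := congrArg (fun t : ℤ => (t : 𝓞 K)) hab
      simpa only [Int.cast_add, Int.cast_mul, Int.cast_natCast, Int.cast_one, Int.cast_pow] using this
    have h2 : (Δ : 𝓞 K) * ((b : 𝓞 K) * x) - x = (p : 𝓞 K) ^ j * (-(a : 𝓞 K) * x) := by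
      linear_combination (x : 𝓞 K) * h1
    rw [h2]
    exact Ideal.mul_mem_right _ _ (Ideal.pow_mem_pow hpP j)
  rw [hker, AddSubgroup.index_ker, hrange, Ideal.absNorm_apply, Submodule.cardQuot_apply,
    AddSubgroup.card_top]


theorem lb3a_evalmod {K : Type} [Field K] [NumberField K] (g : ℤ[X]) (θ : 𝓞 K)
    (r : ℤ) (P : Ideal (𝓞 K)) (h : θ - (r : 𝓞 K) ∈ P) :
    aeval θ g - ((g.eval r : ℤ) : 𝓞 K) ∈ P := by
  have h1 : (θ - (r : 𝓞 K)) ∣ aeval θ g - ((g.eval r : ℤ) : 𝓞 K) := by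
    have h2 := sub_dvd_eval_sub θ (r : 𝓞 K) (g.map (Int.castRingHom (𝓞 K)))
    rw [eval_intCast_map] at h2
    rw [aeval_def, algebraMap_int_eq, ← eval_map]
    exact h2
  obtain ⟨c, hc⟩ := h1
  rw [hc]
  exact P.mul_mem_right _ h

theorem lb3a_root {K : Type} [Field K] [NumberField K] (g : ℤ[X]) (θ : 𝓞 K) (hθ : aeval θ g = 0)
    (p : ℕ) (hp : p.Prime) (P : Ideal (𝓞 K)) (hP : P.IsPrime) (hpP : (p : 𝓞 K) ∈ P)
    (hN : Ideal.absNorm P = p) :
    ∃ r : ℕ, r < p ∧ θ - (r : 𝓞 K) ∈ P ∧ (p : ℤ) ∣ g.eval (r : ℤ) := by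
  have hcard : Nat.card (𝓞 K ⧸ P) = p := by
    rw [← hN, Ideal.absNorm_apply, Submodule.cardQuot_apply]
  have hfin : Finite (𝓞 K ⧸ P) := by
    apply Nat.finite_of_card_ne_zero
    rw [hcard]; exact hp.ne_zero
  let f : Fin p → 𝓞 K ⧸ P := fun r => Ideal.Quotient.mk P ((r : ℕ) : 𝓞 K)
  have hinj : Function.Injective f := by
    intro r r' h
    change Ideal.Quotient.mk P ((r : ℕ) : 𝓞 K) = Ideal.Quotient.mk P ((r' : ℕ) : 𝓞 K) at h
    rw [Ideal.Quotient.eq] at h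
    have h1 : (p : ℤ) ∣ ((r : ℕ) : ℤ) - ((r' : ℕ) : ℤ) := by
      rw [← lb3a_int P hP p hp hpP]
      push_cast
      exact h
    apply Fin.ext
    have h2 : |((r : ℕ) : ℤ) - ((r' : ℕ) : ℤ)| < (p : ℤ) := by
      have := r.2
      have := r'.2
      rw [abs_lt]
      constructor <;> omega
    have h3 := Int.eq_zero_of_abs_lt_dvd h1 h2
    omega
  have hbij : Function.Bijective f := by
    apply hinj.bijective_of_nat_card_le
    rw [hcard, Nat.card_eq_fintype_card, Fintype.card_fin]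
  obtain ⟨r, hr⟩ := hbij.2 (Ideal.Quotient.mk P θ)
  have hr2 : θ - ((r : ℕ) : 𝓞 K) ∈ P := by
    rw [← Ideal.Quotient.eq]; exact hr.symm
  refine ⟨r, r.2, hr2, ?_⟩
  rw [← lb3a_int P hP p hp hpP]
  have h1 := lb3a_evalmod g θ ((r : ℕ) : ℤ) P (by push_cast; exact hr2)
  rw [hθ, zero_sub] at h1
  exact (Ideal.neg_mem_iff _).1 h1

theorem lb3a_numod {K : Type} [Field K] [NumberField K] (k : ℕ) (θ : 𝓞 K) (c : Fin k → ℤ)
    (r : ℤ) (P : Ideal (𝓞 K)) (h : θ - (r : 𝓞 K) ∈ P) :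
    nu θ c - ((∑ i, c i * r ^ (i : ℕ) : ℤ) : 𝓞 K) ∈ P := by
  have h1 := lb3a_evalmod (∑ i : Fin k, C (c i) * X ^ (i : ℕ)) θ r P h
  have h2 : aeval θ (∑ i : Fin k, C (c i) * X ^ (i : ℕ)) = nu θ c := by
    simp [nu, map_sum]
  have h3 : (∑ i : Fin k, C (c i) * X ^ (i : ℕ) : ℤ[X]).eval r = ∑ i, c i * r ^ (i : ℕ) := by
    simp [eval_finsetSum]
  rw [h2, h3] at h1
  exact h1

open UniqueFactorizationMonoid in
open Classical in
theorem good_primes {K : Type} [Field K] [NumberField K] (k : ℕ) (hk : 1 ≤ k) (g : ℤ[X])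
    (hg : g.Monic) (hd : g.natDegree = k) (hirr : Irreducible g) (θ : 𝓞 K) (hθ : aeval θ g = 0)
    (hfr : Module.finrank ℚ K = k) (Δ : ℕ) (hΔ : ∀ x : 𝓞 K, ∃ c : Fin k → ℤ, (Δ : 𝓞 K) * x = nu θ c)
    (p : ℕ) (hp : p.Prime) (hpΔ : ¬ p ∣ Δ) :
    ∃ (s : Finset (Ideal (𝓞 K))) (fd : Ideal (𝓞 K) → ℕ), s.card ≤ k ∧
      (∀ P ∈ s, 1 ≤ fd P ∧ fd P ≤ k ∧ ∀ j, 1 ≤ j → (latI k θ (P ^ j)).index = p ^ (fd P * j)) ∧
      (s.filter (fun P => fd P = 1)).card ≤ rho g p ∧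
      ∀ u : Fin k → ℤ, u ≠ 0 → (nn θ u).factorization p =
        ∑ P ∈ s, fd P * ((Icc 1 (nn θ u)).filter (fun j => u ∈ latI k θ (P ^ j))).card := by
  have hp0 : (Ideal.span {(p : 𝓞 K)} : Ideal (𝓞 K)) ≠ ⊥ := by
    rw [Ne, Ideal.span_singleton_eq_bot]
    exact_mod_cast hp.ne_zero
  have hs : ∀ P : Ideal (𝓞 K), P ∈ (normalizedFactors (Ideal.span {(p : 𝓞 K)})).toFinset ↔
      P.IsPrime ∧ P ≠ ⊥ ∧ (p : 𝓞 K) ∈ P := by
    intro P
    rw [Multiset.mem_toFinset, mem_normalizedFactors_iff hp0]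
    constructor
    · rintro ⟨h1, h2⟩
      refine ⟨Ideal.isPrime_of_prime h1, h1.ne_zero, ?_⟩
      rw [Ideal.dvd_iff_le, Ideal.span_singleton_le_iff_mem] at h2
      exact h2
    · rintro ⟨h1, h2, h3⟩
      refine ⟨Ideal.prime_of_isPrime h2 h1, ?_⟩
      rw [Ideal.dvd_iff_le, Ideal.span_singleton_le_iff_mem]
      exact h3
  set s : Finset (Ideal (𝓞 K)) := (normalizedFactors (Ideal.span {(p : 𝓞 K)})).toFinset with hsdef
  -- the sum of e f is k
  have hsum : ∑ P ∈ s, (Ideal.absNorm P).factorization p *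
      (normalizedFactors (Ideal.span {(p : 𝓞 K)})).count P = k := by
    rw [← lb3a_fac2 p hp s hs _ hp0, Ideal.absNorm_span_natCast, RingOfIntegers.rank, hfr,
      hp.factorization_pow]
    simp
  have hfd1 : ∀ P ∈ s, 1 ≤ (Ideal.absNorm P).factorization p := by
    intro P hP
    obtain ⟨h1, h2, h3⟩ := (hs P).1 hP
    exact ((lb3a_prime P h1 h2 p hp).1 h3).1
  have hcnt1 : ∀ P ∈ s, 1 ≤ (normalizedFactors (Ideal.span {(p : 𝓞 K)})).count P := by
    intro P hP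
    rw [hsdef, Multiset.mem_toFinset] at hP
    exact Multiset.one_le_count_iff_mem.2 hP
  have hfdk : ∀ P ∈ s, (Ideal.absNorm P).factorization p ≤ k := by
    intro P hP
    calc (Ideal.absNorm P).factorization p
        ≤ (Ideal.absNorm P).factorization p *
          (normalizedFactors (Ideal.span {(p : 𝓞 K)})).count P :=
          Nat.le_mul_of_pos_right _ (hcnt1 P hP)
      _ ≤ k := by
        rw [← hsum]
        exact Finset.single_le_sum (f := fun P => (Ideal.absNorm P).factorization p *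
          (normalizedFactors (Ideal.span {(p : 𝓞 K)})).count P) (fun _ _ => Nat.zero_le _) hP
  refine ⟨s, fun P => (Ideal.absNorm P).factorization p, ?_, ?_, ?_, ?_⟩
  · calc s.card = ∑ P ∈ s, 1 := by simp
      _ ≤ ∑ P ∈ s, (Ideal.absNorm P).factorization p *
          (normalizedFactors (Ideal.span {(p : 𝓞 K)})).count P :=
          Finset.sum_le_sum fun P hP => Nat.mul_pos (hfd1 P hP) (hcnt1 P hP)
      _ = k := hsum
  · intro P hP
    refine ⟨hfd1 P hP, hfdk P hP, ?_⟩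
    intro j _
    obtain ⟨h1, h2, h3⟩ := (hs P).1 hP
    rw [lb3a_index k θ Δ hΔ p hp hpΔ P h3 j, map_pow]
    conv_lhs => rw [((lb3a_prime P h1 h2 p hp).1 h3).2]
    rw [← pow_mul]
  · -- roots
    have hr : ∀ P : Ideal (𝓞 K), ∃ r : ℕ, P ∈ s.filter (fun P => (Ideal.absNorm P).factorization p = 1) →
        r < p ∧ θ - (r : 𝓞 K) ∈ P ∧ (p : ℤ) ∣ g.eval (r : ℤ) := by
      intro P
      by_cases hP : P ∈ s.filter (fun P => (Ideal.absNorm P).factorization p = 1)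
      · rw [Finset.mem_filter] at hP
        obtain ⟨h1, h2, h3⟩ := (hs P).1 hP.1
        obtain ⟨r, hr⟩ := lb3a_root g θ hθ p hp P h1 h3 (by
          rw [((lb3a_prime P h1 h2 p hp).1 h3).2, hP.2, pow_one])
        exact ⟨r, fun _ => hr⟩
      · exact ⟨0, fun h => absurd h hP⟩
    choose r hr using hr
    rw [rho]
    apply Finset.card_le_card_of_injOn r
    · intro P hP
      obtain ⟨h1, h2, h3⟩ := hr P (Finset.mem_coe.1 hP)
      rw [Finset.mem_coe, Finset.mem_filter, Finset.mem_range]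
      exact ⟨h1, h3⟩
    · intro P hP P' hP' heq
      rw [Finset.mem_coe] at hP hP'
      obtain ⟨_, h2, _⟩ := hr P hP
      obtain ⟨_, h2', _⟩ := hr P' hP'
      rw [Finset.mem_filter] at hP hP'
      obtain ⟨a1, a2, a3⟩ := (hs P).1 hP.1
      obtain ⟨b1, b2, b3⟩ := (hs P').1 hP'.1
      have hle : P ≤ P' := by
        intro α hα
        obtain ⟨c, hc⟩ := hΔ α
        have h4 : nu θ c ∈ P := by rw [← hc]; exact P.mul_mem_left _ hα
        have h5 := lb3a_numod k θ c ((r P : ℕ) : ℤ) P (by push_cast; exact h2)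
        have h6 : ((∑ i, c i * ((r P : ℕ) : ℤ) ^ (i : ℕ) : ℤ) : 𝓞 K) ∈ P := by
          have := P.sub_mem h4 h5
          rwa [sub_sub_cancel] at this
        rw [lb3a_int P a1 p hp a3] at h6
        have h7 : ((∑ i, c i * ((r P : ℕ) : ℤ) ^ (i : ℕ) : ℤ) : 𝓞 K) ∈ P' := by
          rw [lb3a_int P' b1 p hp b3]; exact h6
        have h8 := lb3a_numod k θ c ((r P' : ℕ) : ℤ) P' (by push_cast; exact h2')
        rw [← heq] at h8
        have h9 : nu θ c ∈ P' := by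
          have := P'.add_mem h8 h7
          rwa [sub_add_cancel] at this
        rw [← hc] at h9
        rcases b1.mem_or_mem h9 with h | h
        · exfalso
          have : ((Δ : ℤ) : 𝓞 K) ∈ P' := by exact_mod_cast h
          rw [lb3a_int P' b1 p hp b3] at this
          exact hpΔ (by exact_mod_cast this)
        · exact h
      exact (a1.isMaximal a2).eq_of_le b1.ne_top hle
  · intro u hu
    have hn : nn θ u = Ideal.absNorm (Ideal.span {nu θ u} : Ideal (𝓞 K)) := by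
      rw [Ideal.absNorm_span_singleton]; rfl
    have hpos := nf_pos k hk g hg hd hirr θ hθ hfr u hu
    have hI : (Ideal.span {nu θ u} : Ideal (𝓞 K)) ≠ ⊥ := by
      intro h
      rw [hn, h, Ideal.absNorm_bot] at hpos
      omega
    have h1 := lb3a_fac2 p hp s hs _ hI
    rw [← hn] at h1
    rw [h1]
    refine Finset.sum_congr rfl fun P hP => ?_
    congr 1
    obtain ⟨a1, a2, a3⟩ := (hs P).1 hP
    set v := (normalizedFactors (Ideal.span {nu θ u})).count P with hv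
    have hvn : v ≤ nn θ u := by
      have h2 : (Ideal.span {nu θ u} : Ideal (𝓞 K)) ≤ P ^ v :=
        (lb3a_count _ P hI a1 a2 v).1 le_rfl
      have h3 : Ideal.absNorm (P ^ v) ∣ nn θ u := by
        rw [hn]; exact Ideal.absNorm_dvd_absNorm_of_le h2
      have h4 : 2 ≤ Ideal.absNorm P := by
        have h5 : Ideal.absNorm P ≠ 0 := by rw [Ne, Ideal.absNorm_eq_zero_iff]; exact a2
        have h6 : Ideal.absNorm P ≠ 1 := by rw [Ne, Ideal.absNorm_eq_one_iff]; exact a1.ne_top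
        omega
      have h7 := Nat.le_of_dvd hpos h3
      rw [map_pow] at h7
      calc v ≤ 2 ^ v := Nat.lt_two_pow_self.le
        _ ≤ (Ideal.absNorm P) ^ v := Nat.pow_le_pow_left h4 v
        _ ≤ nn θ u := h7
    have h2 : (Icc 1 (nn θ u)).filter (fun j => u ∈ latI k θ (P ^ j)) = Icc 1 v := by
      ext j
      rw [Finset.mem_filter, Finset.mem_Icc, Finset.mem_Icc]
      have h3 : u ∈ latI k θ (P ^ j) ↔ j ≤ v := by
        rw [hv, lb3a_count _ P hI a1 a2 j, Ideal.span_singleton_le_iff_mem]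
        rfl
      rw [h3]
      omega
    rw [h2, Nat.card_Icc]
    omega


end EK75

end S_H75_EK_Lb3a

section S_H75_EK_Lb3b

/-! Module LB3B: crude bound for the `p`-part of `N(u)` on average. -/

open Polynomial Finset NumberField
open scoped Real BigOperators

namespace EK75

/-- splitting off the first coordinate in a sum over a box -/
theorem lb3b_box (m X : ℕ) (F : (Fin (m + 1) → ℤ) → ℝ) :
    ∑ u ∈ boxZ (m + 1) X, F u =
      ∑ w ∈ boxZ m X, ∑ x ∈ range X, F (Fin.cons (x : ℤ) w) := by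
  rw [Finset.sum_comm, ← Finset.sum_product']
  symm
  refine Finset.sum_bij' (fun (t : ℕ × (Fin m → ℤ)) _ => (Fin.cons (t.1 : ℤ) t.2 : Fin (m + 1) → ℤ))
    (fun u _ => ((u 0).toNat, Fin.tail u)) ?_ ?_ ?_ ?_ ?_
  · rintro ⟨x, w⟩ h
    obtain ⟨h1, h2⟩ := Finset.mem_product.1 h
    rw [boxZ, Fintype.mem_piFinset] at h2 ⊢
    intro i
    refine Fin.cases ?_ ?_ i
    · rw [Fin.cons_zero, Finset.mem_Ico]
      have := Finset.mem_range.1 h1
      constructor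
      · positivity
      · exact_mod_cast this
    · intro i
      rw [Fin.cons_succ]
      exact h2 i
  · intro u h
    rw [boxZ, Fintype.mem_piFinset] at h
    rw [Finset.mem_product]
    constructor
    · have := Finset.mem_Ico.1 (h 0)
      rw [Finset.mem_range]
      change (u 0).toNat < X
      omega
    · rw [boxZ, Fintype.mem_piFinset]
      intro i
      exact h i.succ
  · rintro ⟨x, w⟩ h
    simp
  · intro u h
    rw [boxZ, Fintype.mem_piFinset] at h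
    have := Finset.mem_Ico.1 (h 0)
    have h0 : (((u 0).toNat : ℕ) : ℤ) = u 0 := Int.toNat_of_nonneg this.1
    change (Fin.cons (((u 0).toNat : ℕ) : ℤ) (Fin.tail u) : Fin (m + 1) → ℤ) = u
    rw [h0, Fin.cons_self_tail]
  · rintro ⟨x, w⟩ h
    rfl

/-- the norm as a polynomial in the first coordinate -/
theorem lb3b_poly {K : Type} [Field K] [NumberField K] (m : ℕ) (θ : 𝓞 K)
    (hfr : Module.finrank ℚ K = m + 1) (w : Fin m → ℤ) :
    ∃ G : ℤ[X], G.natDegree = m + 1 ∧ G.Monic ∧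
      ∀ x : ℕ, nn θ (Fin.cons (x : ℤ) w : Fin (m + 1) → ℤ) = (G.eval (x : ℤ)).natAbs := by
  set η : 𝓞 K := ∑ i : Fin m, (w i : 𝓞 K) * θ ^ ((i : ℕ) + 1) with hη
  refine ⟨(LinearMap.mulLeft ℤ (-η)).charpoly, ?_, LinearMap.charpoly_monic _, ?_⟩
  · rw [LinearMap.charpoly_natDegree, RingOfIntegers.rank K, hfr]
  · intro x
    rw [LinearMap.eval_charpoly, nn]
    congr 1
    have h1 : nu θ (Fin.cons (x : ℤ) w : Fin (m + 1) → ℤ) = (x : 𝓞 K) + η := by
      rw [nu, Fin.sum_univ_succ, Fin.cons_zero]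
      simp [hη]
    rw [h1, Algebra.norm_apply]
    congr 1
    apply LinearMap.ext
    intro z
    simp [Algebra.lmul, add_mul]

theorem lb3b_geom (k : ℕ) (hk : 1 ≤ k) (J : ℕ) (q : ℝ) (hq0 : 0 ≤ q) (hq : q ≤ 1 / 2) :
    ∑ j ∈ range J, q ^ (j / k + 1) ≤ k := by
  have h1 : ∀ M : ℕ, ∑ j ∈ range (k * M), q ^ (j / k + 1) = k * ∑ i ∈ range M, q ^ (i + 1) := by
    intro M
    induction M with
    | zero => simp
    | succ M ih =>
      rw [Nat.mul_succ, Finset.sum_range_add, ih, Finset.sum_range_succ, mul_add]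
      congr 1
      have h2 : ∀ l ∈ range k, q ^ ((k * M + l) / k + 1) = q ^ (M + 1) := by
        intro l hl
        have h3 : (k * M + l) / k = M := by
          rw [Nat.mul_add_div (by omega), Nat.div_eq_of_lt (Finset.mem_range.1 hl), add_zero]
        rw [h3]
      rw [Finset.sum_congr rfl h2, Finset.sum_const, Finset.card_range, nsmul_eq_mul]
  have h2 : ∑ j ∈ range J, q ^ (j / k + 1) ≤ ∑ j ∈ range (k * J), q ^ (j / k + 1) := by
    apply Finset.sum_le_sum_of_subset_of_nonneg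
    · intro j hj
      rw [Finset.mem_range] at hj ⊢
      nlinarith
    · intro j _ _
      positivity
  refine h2.trans ?_
  rw [h1]
  have h3 : ∑ i ∈ range J, q ^ (i + 1) ≤ 1 := by
    calc ∑ i ∈ range J, q ^ (i + 1) ≤ ∑ i ∈ range J, (1 / 2 : ℝ) * (1 / 2) ^ i := by
          apply Finset.sum_le_sum
          intro i _
          rw [← pow_succ']
          exact pow_le_pow_left₀ hq0 hq _
      _ = (1 / 2) * ∑ i ∈ range J, (1 / 2 : ℝ) ^ i := by rw [Finset.mul_sum]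
      _ ≤ (1 / 2) * 2 := by
          apply mul_le_mul_of_nonneg_left (sum_geometric_two_le J) (by norm_num)
      _ = 1 := by norm_num
  have hk0 : (0 : ℝ) ≤ k := by positivity
  nlinarith

theorem vp_sum {K : Type} [Field K] [NumberField K] (k : ℕ) (hk : 1 ≤ k) (g : ℤ[X])
    (hg : g.Monic) (hd : g.natDegree = k) (hirr : Irreducible g) (θ : 𝓞 K) (hθ : aeval θ g = 0)
    (hfr : Module.finrank ℚ K = k) (p : ℕ) (hp : p.Prime) (X Z : ℕ) (hX : 1 ≤ X) (hZ : 1 ≤ Z)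
    (hZ' : ∀ u ∈ boxZ k X, nn θ u ≤ Z) :
    ∑ u ∈ boxZ k X, (((nn θ u).factorization p : ℕ) : ℝ) ≤
      (X : ℝ) ^ (k - 1) * ((k : ℝ) ^ 2 * X + k * (Real.log Z / Real.log 2)) := by
  obtain ⟨m, rfl⟩ : ∃ m, k = m + 1 := ⟨k - 1, by omega⟩
  rw [lb3b_box]
  set J : ℕ := Nat.log 2 Z with hJ
  have hJle : (J : ℝ) ≤ Real.log Z / Real.log 2 := by
    rw [le_div_iff₀ (Real.log_pos (by norm_num)), ← Real.log_pow]
    apply Real.log_le_log (by positivity)
    have : 2 ^ J ≤ Z := Nat.pow_log_le_self 2 (by omega)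
    exact_mod_cast this
  -- the bound for fixed `w`
  have key : ∀ w ∈ boxZ m X, ∑ x ∈ range X,
      (((nn θ (Fin.cons (x : ℤ) w : Fin (m + 1) → ℤ)).factorization p : ℕ) : ℝ) ≤
      ((m + 1 : ℕ) : ℝ) ^ 2 * X + ((m + 1 : ℕ) : ℝ) * (Real.log Z / Real.log 2) := by
    intro w hw
    obtain ⟨G, hGd, hGm, hG⟩ := lb3b_poly m θ hfr w
    have hmem : ∀ x ∈ range X, (Fin.cons (x : ℤ) w : Fin (m + 1) → ℤ) ∈ boxZ (m + 1) X := by
      intro x hx
      rw [boxZ, Fintype.mem_piFinset] at hw ⊢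
      intro i
      refine Fin.cases ?_ ?_ i
      · rw [Fin.cons_zero, Finset.mem_Ico]
        have := Finset.mem_range.1 hx
        constructor
        · positivity
        · exact_mod_cast this
      · intro i
        rw [Fin.cons_succ]
        exact hw i
    have h1 : ∀ x ∈ range X, (nn θ (Fin.cons (x : ℤ) w : Fin (m + 1) → ℤ)).factorization p ≤
        ∑ j ∈ range J, if (p : ℤ) ^ (j + 1) ∣ G.eval (x : ℤ) then 1 else 0 := by
      intro x hx
      set n := nn θ (Fin.cons (x : ℤ) w : Fin (m + 1) → ℤ) with hn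
      by_cases hn0 : n = 0
      · rw [hn0, Nat.factorization_zero, Finsupp.coe_zero, Pi.zero_apply]
        exact Nat.zero_le _
      · have hnZ : n ≤ Z := hZ' _ (hmem x hx)
        set v := n.factorization p with hv
        have hpv : p ^ v ∣ n := Nat.ordProj_dvd n p
        have hvJ : v ≤ J := by
          rw [hJ]
          apply Nat.le_log_of_pow_le (by norm_num)
          calc 2 ^ v ≤ p ^ v := Nat.pow_le_pow_left hp.two_le v
            _ ≤ n := Nat.le_of_dvd (Nat.pos_of_ne_zero hn0) hpv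
            _ ≤ Z := hnZ
        have h2 : ∑ j ∈ range v, 1 ≤ ∑ j ∈ range J,
            (if (p : ℤ) ^ (j + 1) ∣ G.eval (x : ℤ) then 1 else 0) := by
          have h3 : ∀ j ∈ range v, (if (p : ℤ) ^ (j + 1) ∣ G.eval (x : ℤ) then 1 else 0) = 1 := by
            intro j hj
            rw [if_pos]
            have h4 : p ^ (j + 1) ∣ n := (pow_dvd_pow p (Finset.mem_range.1 hj)).trans hpv
            rw [hn, hG x, ← Int.natCast_dvd] at h4
            exact_mod_cast h4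
          rw [← Finset.sum_congr rfl h3]
          apply Finset.sum_le_sum_of_subset
          intro j hj
          rw [Finset.mem_range] at hj ⊢
          omega
        simpa using h2
    have h2 : (∑ x ∈ range X, (nn θ (Fin.cons (x : ℤ) w : Fin (m + 1) → ℤ)).factorization p) ≤
        ∑ j ∈ range J, (m + 1) * (X / p ^ (j / (m + 1) + 1) + 1) := by
      refine (Finset.sum_le_sum h1).trans ?_
      rw [Finset.sum_comm]
      apply Finset.sum_le_sum
      intro j _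
      rw [← Finset.card_filter]
      apply content_count (m + 1) G hGd.le p hp ⟨m + 1, ?_⟩ (j + 1) (j / (m + 1)) ?_ X
      · have : G.coeff (m + 1) = 1 := by rw [← hGd]; exact hGm.coeff_natDegree
        rw [this]
        intro h
        have := Int.eq_one_of_dvd_one (by positivity) h
        exact hp.one_lt.ne' (by exact_mod_cast this)
      · exact Nat.lt_succ_of_le (Nat.mul_div_le j (m + 1))
    have h3 : (((∑ x ∈ range X, (nn θ (Fin.cons (x : ℤ) w : Fin (m + 1) → ℤ)).factorization p) : ℕ)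
        : ℝ) ≤ ((∑ j ∈ range J, (m + 1) * (X / p ^ (j / (m + 1) + 1) + 1) : ℕ) : ℝ) := by
      exact_mod_cast h2
    have hp0 : (0 : ℝ) < p := by exact_mod_cast hp.pos
    have h4 : ((∑ j ∈ range J, (m + 1) * (X / p ^ (j / (m + 1) + 1) + 1) : ℕ) : ℝ) ≤
        ∑ j ∈ range J, ((m + 1 : ℕ) : ℝ) * (X * (1 / p : ℝ) ^ (j / (m + 1) + 1) + 1) := by
      push_cast
      apply Finset.sum_le_sum
      intro j _
      apply mul_le_mul_of_nonneg_left _ (by positivity)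
      have h5 : ((X / p ^ (j / (m + 1) + 1) : ℕ) : ℝ) ≤ X / (p : ℝ) ^ (j / (m + 1) + 1) := by
        have := @Nat.cast_div_le ℝ _ _ _ X (p ^ (j / (m + 1) + 1))
        push_cast at this
        exact this
      rw [one_div, inv_pow, ← div_eq_mul_inv]
      linarith
    have h5 : ∑ j ∈ range J, ((m + 1 : ℕ) : ℝ) * (X * (1 / p : ℝ) ^ (j / (m + 1) + 1) + 1) =
        ((m + 1 : ℕ) : ℝ) * (X * ∑ j ∈ range J, (1 / p : ℝ) ^ (j / (m + 1) + 1) + J) := by
      rw [← Finset.mul_sum, Finset.sum_add_distrib, ← Finset.mul_sum]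
      simp
    have h6 := lb3b_geom (m + 1) (by omega) J (1 / p) (by positivity) (by
      rw [div_le_div_iff₀ hp0 (by norm_num)]
      have : (2 : ℝ) ≤ p := by exact_mod_cast hp.two_le
      linarith)
    have hX0 : (0 : ℝ) ≤ X := by positivity
    have hm0 : (0 : ℝ) ≤ ((m + 1 : ℕ) : ℝ) := by positivity
    calc ∑ x ∈ range X, (((nn θ (Fin.cons (x : ℤ) w : Fin (m + 1) → ℤ)).factorization p : ℕ) : ℝ)
        = (((∑ x ∈ range X,
          (nn θ (Fin.cons (x : ℤ) w : Fin (m + 1) → ℤ)).factorization p) : ℕ) : ℝ) := by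
            push_cast; rfl
      _ ≤ ((m + 1 : ℕ) : ℝ) * (X * ∑ j ∈ range J, (1 / p : ℝ) ^ (j / (m + 1) + 1) + J) := by
            rw [← h5]; exact h3.trans h4
      _ ≤ ((m + 1 : ℕ) : ℝ) * (X * ((m + 1 : ℕ) : ℝ) + Real.log Z / Real.log 2) := by
            apply mul_le_mul_of_nonneg_left _ hm0
            apply add_le_add _ hJle
            exact mul_le_mul_of_nonneg_left h6 hX0
      _ = _ := by ring
  refine (Finset.sum_le_sum key).trans ?_
  rw [Finset.sum_const, nsmul_eq_mul, boxZ, Fintype.card_piFinset]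
  simp

end EK75

end S_H75_EK_Lb3b
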