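import Mathlib
import Pool.Agent.H75.EM.L3

/-! Erdos-Kac law for integer parts of real polynomials, part L4: this file joins several modules to save build time. -/

section S_H75_EK_Lb3

/-! Module LB3: upper bound for the average of `log N(u)` through prime ideals. -/

open Polynomial Finset NumberField
open scoped Real BigOperators

namespace EK75

theorem lb3_pow (x : ℝ) (hx0 : 0 ≤ x) (hx1 : x ≤ 1) (k : ℕ) : (1 + x) ^ k ≤ 1 + (2 ^ k - 1) * x := by
  induction k with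
  | zero => simp
  | succ k ih =>
    have h2 : (1 : ℝ) ≤ 2 ^ k := one_le_pow₀ (by norm_num)
    have h3 : (1 + x) ^ (k + 1) ≤ (1 + (2 ^ k - 1) * x) * (1 + x) := by
      rw [pow_succ]
      exact mul_le_mul_of_nonneg_right ih (by linarith)
    refine h3.trans ?_
    have h4 : (2 ^ k - 1) * x * x ≤ (2 ^ k - 1) * x := by
      have : 0 ≤ (2 ^ k - 1 : ℝ) * x := mul_nonneg (by linarith) hx0
      nlinarith
    have h5 : (2 : ℝ) ^ (k + 1) = 2 * 2 ^ k := by ring
    rw [h5]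
    nlinarith

theorem lb3_add_pow (a b : ℝ) (ha : 0 ≤ a) (hb : 0 ≤ b) (k : ℕ) :
    (a + b) ^ k ≤ 2 ^ k * (a ^ k + b ^ k) := by
  rcases le_total a b with h | h
  · have h1 : (a + b) ^ k ≤ (2 * b) ^ k := pow_le_pow_left₀ (by positivity) (by linarith) k
    rw [mul_pow] at h1
    have h2 : 0 ≤ (2:ℝ) ^ k * a ^ k := by positivity
    nlinarith
  · have h1 : (a + b) ^ k ≤ (2 * a) ^ k := pow_le_pow_left₀ (by positivity) (by linarith) k
    rw [mul_pow] at h1
    have h2 : 0 ≤ (2:ℝ) ^ k * b ^ k := by positivity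
    nlinarith

theorem lb3_rho_le (g : ℤ[X]) (hg : g.Monic) (p : ℕ) (hp : p.Prime) : rho g p ≤ g.natDegree := by
  have : Fact p.Prime := ⟨hp⟩
  set G : (ZMod p)[X] := g.map (Int.castRingHom (ZMod p)) with hG
  have hGm : G.Monic := hg.map _
  have hG0 : G ≠ 0 := hGm.ne_zero
  have h1 : rho g p ≤ G.roots.toFinset.card := by
    unfold rho
    apply Finset.card_le_card_of_injOn (fun r : ℕ => (r : ZMod p))
    · intro r hr
      have hr' := Finset.mem_coe.1 hr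
      rw [mem_filter, mem_range] at hr'
      simp only [Finset.mem_coe, Multiset.mem_toFinset]
      rw [mem_roots hG0, IsRoot.def, hG, eval_map, eval₂_at_natCast]
      have h2 := (ZMod.intCast_zmod_eq_zero_iff_dvd (g.eval (r : ℤ)) p).2 hr'.2
      simpa using h2
    · intro a ha b hb hab
      have ha' := Finset.mem_coe.1 ha
      have hb' := Finset.mem_coe.1 hb
      rw [mem_filter, mem_range] at ha' hb'
      have h3 : (a : ZMod p) = (b : ZMod p) := hab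
      rw [ZMod.natCast_eq_natCast_iff] at h3
      exact Nat.ModEq.eq_of_lt_of_lt h3 ha'.1 hb'.1
  refine h1.trans ((Multiset.toFinset_card_le _).trans ((card_roots' G).trans ?_))
  rw [hG]
  exact natDegree_map_le

open Classical in
theorem lb3_good {K : Type} [Field K] [NumberField K] (k : ℕ) (hk : 1 ≤ k) (g : ℤ[X])
    (hg : g.Monic) (hd : g.natDegree = k) (hirr : Irreducible g) (θ : 𝓞 K) (hθ : aeval θ g = 0)
    (hfr : Module.finrank ℚ K = k) (Δ : ℕ) (hΔ : ∀ x : 𝓞 K, ∃ c : Fin k → ℤ, (Δ : 𝓞 K) * x = nu θ c)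
    (p : ℕ) (hp : p.Prime) (hpΔ : ¬ p ∣ Δ) (H : ℝ) (hH : 1 ≤ H) (hht : HtLe g H) (X Z : ℕ)
    (hZ' : ∀ u ∈ boxZ k X, nn θ u ≤ Z) (κ : ℝ) (hκ : κ = k * (1 + H) ^ k) :
    ∃ B G : (Fin k → ℤ) → ℝ, (∀ u, 0 ≤ B u) ∧ (∀ u, 0 ≤ G u) ∧
      (∀ u ∈ boxZ k X, u ≠ 0 → (((nn θ u).factorization p : ℕ) : ℝ) ≤ B u + G u ∧
        B u ≤ (((nn θ u).factorization p : ℕ) : ℝ)) ∧
      ∑ u ∈ boxZ k X, B u ≤ rhoR g p * ((X + 2 * κ * (p : ℝ) ^ ((1 : ℝ) / k)) ^ k / p) ∧
      ∑ u ∈ boxZ k X, G u ≤ k ^ 2 * (2 ^ k * (X : ℝ) ^ k * 4 / (p : ℝ) ^ 2) +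
        (if p ^ 2 ≤ Z then (k : ℝ) ^ 2 * (Nat.log 2 Z : ℕ) * (4 * κ) ^ k else 0) := by
  obtain ⟨s, fd, hs1, hs2, hs3, hs4⟩ := good_primes k hk g hg hd hirr θ hθ hfr Δ hΔ p hp hpΔ
  have hκ0 : 0 ≤ κ := by rw [hκ]; positivity
  have hp2 : 2 ≤ p := hp.two_le
  have hp0 : (0 : ℝ) < p := by exact_mod_cast hp.pos
  set L := Nat.log 2 Z with hL
  -- the count bound
  have hN : ∀ P ∈ s, ∀ j, 1 ≤ j →
      ((((boxZ k X).filter (fun u => u ∈ latI k θ (P ^ j))).card : ℝ)) ≤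
        (X + 2 * κ * ((p ^ (fd P * j) : ℕ) : ℝ) ^ ((1 : ℝ) / k)) ^ k / ((p ^ (fd P * j) : ℕ) : ℝ) := by
    intro P hP j hj
    obtain ⟨-, -, h3⟩ := hs2 P hP
    have hm : 1 ≤ p ^ (fd P * j) := Nat.one_le_pow _ _ hp.pos
    have h4 := (lat_ideal k hk g hg hd hirr H hH hht θ hθ (P ^ j) (p ^ (fd P * j)) hm (h3 j hj) X _ rfl).1
    have hm0 : (0 : ℝ) < ((p ^ (fd P * j) : ℕ) : ℝ) := by exact_mod_cast hm
    rw [le_div_iff₀ hm0]
    refine h4.trans (le_of_eq ?_)
    rw [hκ]; ring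
  have hN2 : ∀ P ∈ s, ∀ j, 1 ≤ j → 2 ≤ fd P * j →
      ((((boxZ k X).filter (fun u => u ∈ latI k θ (P ^ j))).card : ℝ)) ≤
        2 ^ k * (X : ℝ) ^ k * 4 / (p : ℝ) ^ 2 * (1 / 2) ^ j + (4 * κ) ^ k := by
    intro P hP j hj hfj
    refine (hN P hP j hj).trans ?_
    have hm : 1 ≤ p ^ (fd P * j) := Nat.one_le_pow _ _ hp.pos
    set m := p ^ (fd P * j) with hmdef
    have hm0 : (0 : ℝ) < (m : ℝ) := by exact_mod_cast hm
    have hmk : 0 ≤ (m : ℝ) ^ ((1 : ℝ) / k) := Real.rpow_nonneg hm0.le _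
    have hmk' : ((m : ℝ) ^ ((1 : ℝ) / k)) ^ k = m := by
      rw [one_div]
      exact Real.rpow_inv_natCast_pow hm0.le (by omega)
    have h5 := lb3_add_pow (X : ℝ) (2 * κ * (m : ℝ) ^ ((1 : ℝ) / k)) (by positivity) (by positivity) k
    have h6 : (2 * κ * (m : ℝ) ^ ((1 : ℝ) / k)) ^ k = (2 * κ) ^ k * m := by
      rw [mul_pow, hmk']
    rw [h6] at h5
    rw [div_le_iff₀ hm0]
    refine h5.trans ?_
    have h7 : (4 * κ) ^ k = 2 ^ k * (2 * κ) ^ k := by
      rw [← mul_pow]; ring_nf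
    have h8 : (p : ℝ) ^ 2 * 2 ^ j ≤ 4 * m := by
      have h81 : p ^ 2 * 2 ^ j ≤ 4 * m := by
        have h82 : m = p ^ 2 * p ^ (fd P * j - 2) := by
          rw [hmdef, ← pow_add]; congr 1; omega
        have h83 : 2 ^ j ≤ 4 * p ^ (fd P * j - 2) := by
          have h84 : 2 ^ (fd P * j - 2) ≤ p ^ (fd P * j - 2) := Nat.pow_le_pow_left hp2 _
          have h85 : 2 ^ j ≤ 4 * 2 ^ (fd P * j - 2) := by
            have h86 : (4 : ℕ) = 2 ^ 2 := by norm_num
            rw [h86, ← pow_add]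
            apply Nat.pow_le_pow_right (by norm_num)
            have h87 : j ≤ fd P * j := Nat.le_mul_of_pos_left j (hs2 P hP).1
            omega
          omega
        rw [h82]
        calc p ^ 2 * 2 ^ j ≤ p ^ 2 * (4 * p ^ (fd P * j - 2)) := Nat.mul_le_mul_left _ h83
          _ = 4 * (p ^ 2 * p ^ (fd P * j - 2)) := by ring
      exact_mod_cast h81
    have h9 : 1 ≤ 4 / (p : ℝ) ^ 2 * (1 / 2) ^ j * m := by
      have h91 : 4 / (p : ℝ) ^ 2 * (1 / 2) ^ j * m = 4 * m / ((p : ℝ) ^ 2 * 2 ^ j) := by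
        rw [one_div, inv_pow]; field_simp
      rw [h91, le_div_iff₀ (by positivity)]
      linarith
    have h10 : 2 ^ k * (X : ℝ) ^ k ≤ 2 ^ k * (X : ℝ) ^ k * (4 / (p : ℝ) ^ 2 * (1 / 2) ^ j * m) :=
      le_mul_of_one_le_right (by positivity) h9
    rw [h7]
    calc (2:ℝ) ^ k * ((X : ℝ) ^ k + (2 * κ) ^ k * m)
        = 2 ^ k * (X : ℝ) ^ k + 2 ^ k * (2 * κ) ^ k * m := by ring
      _ ≤ 2 ^ k * (X : ℝ) ^ k * (4 / (p : ℝ) ^ 2 * (1 / 2) ^ j * m) + 2 ^ k * (2 * κ) ^ k * m := by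
          linarith
      _ = _ := by ring
  -- definitions
  refine ⟨fun u => ((s.filter (fun P => fd P = 1 ∧ u ∈ latI k θ (P ^ 1))).card : ℝ),
    fun u => ∑ P ∈ s, (k : ℝ) * (((Icc 1 L).filter
      (fun j => 2 ≤ fd P * j ∧ p ^ (fd P * j) ≤ Z ∧ u ∈ latI k θ (P ^ j))).card : ℝ), ?_, ?_, ?_, ?_, ?_⟩
  · intro u; positivity
  · intro u; positivity
  · intro u hu hu0
    have hnpos : 1 ≤ nn θ u := nf_pos k hk g hg hd hirr θ hθ hfr u hu0
    have hnZ : nn θ u ≤ Z := hZ' u hu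
    have hv := hs4 u hu0
    set n := nn θ u with hn
    set v := n.factorization p with hvdef
    have hterm : ∀ P ∈ s, fd P * ((Icc 1 n).filter (fun j => u ∈ latI k θ (P ^ j))).card ≤ v := by
      intro P hP
      rw [hv]
      exact Finset.single_le_sum (f := fun P => fd P * ((Icc 1 n).filter (fun j => u ∈ latI k θ (P ^ j))).card)
        (fun _ _ => Nat.zero_le _) hP
    have hpv : p ^ v ≤ n := Nat.le_of_dvd hnpos (Nat.ordProj_dvd n p)
    have hj : ∀ P ∈ s, ∀ j, 1 ≤ j → j ≤ n → u ∈ latI k θ (P ^ j) → p ^ (fd P * j) ≤ Z ∧ j ≤ L := by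
      intro P hP j hj1 hjn hju
      have h1 : fd P * j ≤ v := by
        refine le_trans ?_ (hterm P hP)
        apply Nat.mul_le_mul_left
        have h2 : (Icc 1 j).card ≤ ((Icc 1 n).filter (fun j => u ∈ latI k θ (P ^ j))).card := by
          apply Finset.card_le_card
          intro i hi
          rw [mem_Icc] at hi
          rw [mem_filter, mem_Icc]
          refine ⟨⟨hi.1, hi.2.trans hjn⟩, ?_⟩
          have h3 : P ^ j ≤ P ^ i := Ideal.pow_le_pow_right hi.2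
          exact h3 hju
        simpa using h2
      have h4 : p ^ (fd P * j) ≤ Z := (Nat.pow_le_pow_right hp.pos h1).trans (hpv.trans hnZ)
      refine ⟨h4, ?_⟩
      rw [hL]
      have hZ0 : Z ≠ 0 := by omega
      apply Nat.le_log_of_pow_le (by norm_num)
      refine le_trans ?_ h4
      calc 2 ^ j ≤ p ^ j := Nat.pow_le_pow_left hp2 _
        _ ≤ p ^ (fd P * j) := Nat.pow_le_pow_right hp.pos (Nat.le_mul_of_pos_left j (hs2 P hP).1)
    constructor
    · -- v ≤ B + G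
      have hmain : v ≤ (s.filter (fun P => fd P = 1 ∧ u ∈ latI k θ (P ^ 1))).card +
          ∑ P ∈ s, k * ((Icc 1 L).filter
            (fun j => 2 ≤ fd P * j ∧ p ^ (fd P * j) ≤ Z ∧ u ∈ latI k θ (P ^ j))).card := by
        rw [hv, Finset.card_filter, ← Finset.sum_add_distrib]
        apply Finset.sum_le_sum
        intro P hP
        obtain ⟨hf1, hfk, -⟩ := hs2 P hP
        have hsub : (Icc 1 n).filter (fun j => u ∈ latI k θ (P ^ j)) ⊆
            (if fd P = 1 ∧ u ∈ latI k θ (P ^ 1) then {1} else ∅) ∪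
            ((Icc 1 L).filter
            (fun j => 2 ≤ fd P * j ∧ p ^ (fd P * j) ≤ Z ∧ u ∈ latI k θ (P ^ j))) := by
          intro j hjm
          rw [mem_filter, mem_Icc] at hjm
          obtain ⟨⟨hj1, hjn⟩, hju⟩ := hjm
          obtain ⟨hjZ, hjL⟩ := hj P hP j hj1 hjn hju
          rw [mem_union]
          by_cases h2 : 2 ≤ fd P * j
          · right
            rw [mem_filter, mem_Icc]
            exact ⟨⟨hj1, hjL⟩, h2, hjZ, hju⟩
          · left
            have h3 : fd P * j = 1 := by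
              have : 1 ≤ fd P * j := Nat.one_le_iff_ne_zero.2 (by positivity)
              omega
            have h4 : fd P = 1 := Nat.eq_one_of_mul_eq_one_right h3
            have h5 : j = 1 := Nat.eq_one_of_mul_eq_one_left h3
            subst h5
            rw [if_pos ⟨h4, hju⟩]
            simp
        have hcard := (Finset.card_le_card hsub).trans (Finset.card_union_le _ _)
        by_cases hc : fd P = 1 ∧ u ∈ latI k θ (P ^ 1)
        · rw [if_pos hc] at hcard ⊢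
          rw [Finset.card_singleton] at hcard
          rw [hc.1] at hcard ⊢
          rw [one_mul]
          refine hcard.trans ?_
          apply Nat.add_le_add_left
          exact Nat.le_mul_of_pos_left _ hk
        · rw [if_neg hc] at hcard ⊢
          rw [Finset.card_empty, zero_add] at hcard
          rw [zero_add]
          exact Nat.mul_le_mul hfk hcard
      have h2 : ((v : ℕ) : ℝ) ≤ (((s.filter (fun P => fd P = 1 ∧ u ∈ latI k θ (P ^ 1))).card +
          ∑ P ∈ s, k * ((Icc 1 L).filter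
            (fun j => 2 ≤ fd P * j ∧ p ^ (fd P * j) ≤ Z ∧ u ∈ latI k θ (P ^ j))).card : ℕ) : ℝ) :=
        Nat.cast_le.2 hmain
      push_cast at h2
      exact h2
    · have hmain : (s.filter (fun P => fd P = 1 ∧ u ∈ latI k θ (P ^ 1))).card ≤ v := by
        rw [hv, Finset.card_filter]
        apply Finset.sum_le_sum
        intro P hP
        by_cases hc : fd P = 1 ∧ u ∈ latI k θ (P ^ 1)
        · rw [if_pos hc, hc.1, one_mul]
          apply Finset.card_pos.2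
          exact ⟨1, by rw [mem_filter, mem_Icc]; exact ⟨⟨le_refl _, hnpos⟩, hc.2⟩⟩
        · rw [if_neg hc]; exact Nat.zero_le _
      exact Nat.cast_le.2 hmain
  · -- sum of B
    have h1 : ∑ u ∈ boxZ k X, ((s.filter (fun P => fd P = 1 ∧ u ∈ latI k θ (P ^ 1))).card : ℝ) =
        ∑ P ∈ s.filter (fun P => fd P = 1), (((boxZ k X).filter (fun u => u ∈ latI k θ (P ^ 1))).card : ℝ) := by
      have h2 : ∀ u : Fin k → ℤ, ((s.filter (fun P => fd P = 1 ∧ u ∈ latI k θ (P ^ 1))).card : ℝ) =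
          ∑ P ∈ s.filter (fun P => fd P = 1), if u ∈ latI k θ (P ^ 1) then (1 : ℝ) else 0 := by
        intro u
        rw [← Finset.filter_filter, Finset.card_filter]
        push_cast
        rfl
      simp_rw [h2]
      rw [Finset.sum_comm]
      apply Finset.sum_congr rfl
      intro P _
      rw [Finset.card_filter]
      push_cast
      rfl
    rw [h1]
    have h3 : ∀ P ∈ s.filter (fun P => fd P = 1),
        (((boxZ k X).filter (fun u => u ∈ latI k θ (P ^ 1))).card : ℝ) ≤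
        ((X + 2 * κ * (p : ℝ) ^ ((1 : ℝ) / k)) ^ k / p) := by
      intro P hP
      rw [mem_filter] at hP
      have h4 := hN P hP.1 1 le_rfl
      rw [hP.2] at h4
      simpa using h4
    refine (Finset.sum_le_card_nsmul _ _ _ h3).trans ?_
    rw [nsmul_eq_mul]
    apply mul_le_mul_of_nonneg_right _ (by positivity)
    unfold rhoR
    exact_mod_cast hs3
  · -- sum of G
    have h1 : ∑ u ∈ boxZ k X, ∑ P ∈ s, (k : ℝ) * (((Icc 1 L).filter
        (fun j => 2 ≤ fd P * j ∧ p ^ (fd P * j) ≤ Z ∧ u ∈ latI k θ (P ^ j))).card : ℝ) =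
        ∑ P ∈ s, (k : ℝ) * ∑ j ∈ (Icc 1 L).filter (fun j => 2 ≤ fd P * j ∧ p ^ (fd P * j) ≤ Z),
          (((boxZ k X).filter (fun u => u ∈ latI k θ (P ^ j))).card : ℝ) := by
      rw [Finset.sum_comm]
      apply Finset.sum_congr rfl
      intro P _
      rw [← Finset.mul_sum]
      congr 1
      have h2 : ∀ u : Fin k → ℤ, (((Icc 1 L).filter
          (fun j => 2 ≤ fd P * j ∧ p ^ (fd P * j) ≤ Z ∧ u ∈ latI k θ (P ^ j))).card : ℝ) =
          ∑ j ∈ (Icc 1 L).filter (fun j => 2 ≤ fd P * j ∧ p ^ (fd P * j) ≤ Z),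
            if u ∈ latI k θ (P ^ j) then (1 : ℝ) else 0 := by
        intro u
        have h3 : (Icc 1 L).filter
          (fun j => 2 ≤ fd P * j ∧ p ^ (fd P * j) ≤ Z ∧ u ∈ latI k θ (P ^ j)) =
          ((Icc 1 L).filter (fun j => 2 ≤ fd P * j ∧ p ^ (fd P * j) ≤ Z)).filter
            (fun j => u ∈ latI k θ (P ^ j)) := by
          rw [Finset.filter_filter]
          apply Finset.filter_congr
          intro j _
          tauto
        rw [h3, Finset.card_filter]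
        push_cast
        rfl
      simp_rw [h2]
      rw [Finset.sum_comm]
      apply Finset.sum_congr rfl
      intro P _
      rw [Finset.card_filter]
      push_cast
      rfl
    rw [h1]
    set W : ℝ := 2 ^ k * (X : ℝ) ^ k * 4 / (p : ℝ) ^ 2 with hW
    have hW0 : 0 ≤ W := by rw [hW]; positivity
    set V : ℝ := (if p ^ 2 ≤ Z then (L : ℝ) * (4 * κ) ^ k else 0) with hV
    have hV0 : 0 ≤ V := by rw [hV]; split_ifs <;> positivity
    have h4 : ∀ P ∈ s, (k : ℝ) * ∑ j ∈ (Icc 1 L).filter (fun j => 2 ≤ fd P * j ∧ p ^ (fd P * j) ≤ Z),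
          (((boxZ k X).filter (fun u => u ∈ latI k θ (P ^ j))).card : ℝ) ≤ k * (W + V) := by
      intro P hP
      apply mul_le_mul_of_nonneg_left _ (by positivity)
      have h5 : ∀ j ∈ (Icc 1 L).filter (fun j => 2 ≤ fd P * j ∧ p ^ (fd P * j) ≤ Z),
          (((boxZ k X).filter (fun u => u ∈ latI k θ (P ^ j))).card : ℝ) ≤
          W * (1 / 2) ^ j + (if p ^ 2 ≤ Z then (4 * κ) ^ k else 0) := by
        intro j hj
        rw [mem_filter, mem_Icc] at hj
        have h6 : p ^ 2 ≤ Z := (Nat.pow_le_pow_right hp.pos hj.2.1).trans hj.2.2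
        rw [if_pos h6]
        exact hN2 P hP j hj.1.1 hj.2.1
      refine (Finset.sum_le_sum h5).trans ?_
      have h6 : ∑ j ∈ (Icc 1 L).filter (fun j => 2 ≤ fd P * j ∧ p ^ (fd P * j) ≤ Z),
          (W * (1 / 2) ^ j + (if p ^ 2 ≤ Z then (4 * κ) ^ k else 0)) ≤
          ∑ j ∈ Icc 1 L, (W * (1 / 2) ^ j + (if p ^ 2 ≤ Z then (4 * κ) ^ k else 0)) := by
        apply Finset.sum_le_sum_of_subset_of_nonneg (Finset.filter_subset _ _)
        intro j _ _
        have : 0 ≤ (if p ^ 2 ≤ Z then (4 * κ) ^ k else 0) := by split_ifs <;> positivity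
        positivity
      refine h6.trans ?_
      rw [Finset.sum_add_distrib, ← Finset.mul_sum, Finset.sum_const, Nat.card_Icc, nsmul_eq_mul]
      have h7 : ∑ j ∈ Icc 1 L, ((1 : ℝ) / 2) ^ j ≤ 1 := by
        have h71 : ∀ L : ℕ, ∑ j ∈ Icc 1 L, ((1 : ℝ) / 2) ^ j = 1 - (1 / 2) ^ L := by
          intro L
          induction L with
          | zero => simp
          | succ n ih =>
            rw [Finset.sum_Icc_succ_top (by omega), ih, pow_succ]; ring
        rw [h71]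
        have : 0 ≤ ((1 : ℝ) / 2) ^ L := by positivity
        linarith
      have h8 : W * ∑ j ∈ Icc 1 L, ((1 : ℝ) / 2) ^ j ≤ W := by
        nlinarith
      have h9 : ((L + 1 - 1 : ℕ) : ℝ) * (if p ^ 2 ≤ Z then (4 * κ) ^ k else 0) = V := by
        rw [hV, Nat.add_sub_cancel]
        split_ifs
        · rfl
        · ring
      rw [h9]
      linarith
    refine (Finset.sum_le_card_nsmul _ _ _ h4).trans ?_
    rw [nsmul_eq_mul]
    have h10 : (s.card : ℝ) ≤ k := by exact_mod_cast hs1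
    have h11 : (s.card : ℝ) * (k * (W + V)) ≤ k * (k * (W + V)) :=
      mul_le_mul_of_nonneg_right h10 (by positivity)
    refine h11.trans (le_of_eq ?_)
    have h12 : (if p ^ 2 ≤ Z then (k : ℝ) ^ 2 * (L : ℝ) * (4 * κ) ^ k else 0) = (k : ℝ) ^ 2 * V := by
      rw [hV]; split_ifs <;> ring
    rw [h12]
    ring

/-- `∑ log p / p² ≤ C`. -/
theorem lb3_logsq : ∃ C : ℝ, 0 ≤ C ∧ ∀ S : Finset ℕ, ∑ p ∈ S, Real.log p / (p : ℝ) ^ 2 ≤ C := by
  have hs : Summable (fun n : ℕ => 2 * (1 / (n : ℝ) ^ ((3 : ℝ) / 2))) :=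
    (Real.summable_one_div_nat_rpow.2 (by norm_num)).mul_left 2
  refine ⟨∑' n : ℕ, 2 * (1 / (n : ℝ) ^ ((3 : ℝ) / 2)), tsum_nonneg (fun n => by positivity), ?_⟩
  intro S
  refine le_trans (Finset.sum_le_sum (g := fun n : ℕ => 2 * (1 / (n : ℝ) ^ ((3 : ℝ) / 2))) ?_)
    (hs.sum_le_tsum S (fun n _ => by positivity))
  intro p _
  rcases Nat.eq_zero_or_pos p with h | h
  · subst h; simp
  have hp0 : (0 : ℝ) < p := by exact_mod_cast h
  have h1 : Real.log p ≤ (p : ℝ) ^ ((1 : ℝ) / 2) / (1 / 2) :=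
    Real.log_le_rpow_div hp0.le (by norm_num)
  have h2 : (p : ℝ) ^ 2 = (p : ℝ) ^ ((1 : ℝ) / 2) * (p : ℝ) ^ ((3 : ℝ) / 2) := by
    rw [← Real.rpow_add hp0, ← Real.rpow_natCast]; norm_num
  have h3 : 0 < (p : ℝ) ^ ((1 : ℝ) / 2) := Real.rpow_pos_of_pos hp0 _
  have h4 : 0 < (p : ℝ) ^ ((3 : ℝ) / 2) := Real.rpow_pos_of_pos hp0 _
  rw [h2, div_le_iff₀ (by positivity)]
  refine h1.trans (le_of_eq ?_)
  field_simp

/-- no large prime factor outside `freeU` -/
theorem lb3_free {K : Type} [Field K] [NumberField K] (k : ℕ) (hk : 1 ≤ k) (g : ℤ[X])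
    (hg : g.Monic) (hd : g.natDegree = k) (hirr : Irreducible g) (θ : 𝓞 K) (hθ : aeval θ g = 0)
    (hfr : Module.finrank ℚ K = k) (E Y : ℝ) (hE : 0 ≤ E) (X Z : ℕ) (hY : (X : ℝ) ^ ((1 : ℝ) / 4) ≤ Y)
    (hZ' : ∀ u ∈ boxZ k X, nn θ u ≤ Z) (hZE : (Z : ℝ) ≤ E * Y)
    (u : Fin k → ℤ) (hu : u ∈ boxZ k X) (hu0 : u ≠ 0)
    (hfree : u ∉ freeU g k X E ((X : ℝ) ^ ((1 : ℝ) / 4))) (p : ℕ) (hp : p.Prime) (hpY : Y < p) :
    (nn θ u).factorization p = 0 := by
  by_contra hne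
  have hpd : p ∣ nn θ u := Nat.dvd_of_factorization_pos hne
  unfold freeU at hfree
  rw [mem_filter] at hfree
  push Not at hfree
  obtain ⟨l, hl, r, hr, hlr, hlu⟩ := hfree hu
  unfold prIoc at hl
  rw [mem_filter, mem_Ioc] at hl
  obtain ⟨⟨hl1, hl2⟩, hlp⟩ := hl
  have hlE : E < l := (Nat.floor_lt hE).1 hl1
  have hlX : (l : ℝ) ≤ (X : ℝ) ^ ((1 : ℝ) / 4) := by
    apply (Nat.le_floor_iff _).1 hl2
    positivity
  have hld : l ∣ nn θ u := by
    have h := nf_dvd k hk g hg hd hirr θ hθ hfr {(l, r)} u (by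
      intro x hx
      rw [mem_singleton] at hx
      subst hx
      exact ⟨hlp, mem_range.1 hr, hlr, hlu⟩)
    simpa using h
  have hlp' : l ≠ p := by
    intro h
    rw [h] at hlX
    linarith
  have hcop : Nat.Coprime l p := (Nat.coprime_primes hlp hp).2 hlp'
  have hmul : l * p ∣ nn θ u := Nat.Coprime.mul_dvd_of_dvd_of_dvd hcop hld hpd
  have hle : l * p ≤ Z := (Nat.le_of_dvd (nf_pos k hk g hg hd hirr θ hθ hfr u hu0) hmul).trans (hZ' u hu)
  have hle' : (l : ℝ) * p ≤ Z := by exact_mod_cast hle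
  have hY0 : 0 ≤ Y := le_trans (by positivity) hY
  have hp0 : (0 : ℝ) < p := by exact_mod_cast hp.pos
  have h1 : E * Y < l * p := by
    calc E * Y ≤ l * Y := mul_le_mul_of_nonneg_right hlE.le hY0
      _ < l * p := mul_lt_mul_of_pos_left hpY (by exact_mod_cast hlp.pos)
  linarith

theorem lb3_log {n Z : ℕ} (hn : 1 ≤ n) (hnZ : n ≤ Z) :
    Real.log n = ∑ p ∈ (range (Z + 1)).filter Nat.Prime, ((n.factorization p : ℕ) : ℝ) * Real.log p := by
  rw [Real.log_nat_eq_sum_factorization, Finsupp.sum]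
  apply Finset.sum_subset
  · intro p hp
    rw [Nat.support_factorization, Nat.mem_primeFactors] at hp
    rw [mem_filter, mem_range]
    have := Nat.le_of_dvd hn hp.2.1
    exact ⟨by omega, hp.1⟩
  · intro p _ hp
    rw [Finsupp.notMem_support_iff] at hp
    rw [hp]; simp

open Classical in
theorem lb3_decomp {K : Type} [Field K] [NumberField K] (k : ℕ) (hk : 1 ≤ k) (g : ℤ[X])
    (hg : g.Monic) (hd : g.natDegree = k) (hirr : Irreducible g) (θ : 𝓞 K) (hθ : aeval θ g = 0)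
    (hfr : Module.finrank ℚ K = k) (Δ : ℕ) (hΔ : ∀ x : 𝓞 K, ∃ c : Fin k → ℤ, (Δ : 𝓞 K) * x = nu θ c)
    (H : ℝ) (hH : 1 ≤ H) (hht : HtLe g H) (X Z : ℕ)
    (hZ' : ∀ u ∈ boxZ k X, nn θ u ≤ Z) (κ : ℝ) (hκ : κ = k * (1 + H) ^ k)
    (E Y : ℝ) (hE : 0 ≤ E) (hY : (X : ℝ) ^ ((1 : ℝ) / 4) ≤ Y) (hZE : (Z : ℝ) ≤ E * Y) :
    ∑ u ∈ boxZ k X, Real.log (nn θ u) ≤
      ∑ p ∈ ((range (Z + 1)).filter Nat.Prime).filter (fun p => p ∣ Δ),
        Real.log p * ∑ u ∈ boxZ k X, (((nn θ u).factorization p : ℕ) : ℝ) +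
      ∑ p ∈ (range (Z + 1)).filter Nat.Prime,
        Real.log p * (k ^ 2 * (2 ^ k * (X : ℝ) ^ k * 4 / (p : ℝ) ^ 2) +
        (if p ^ 2 ≤ Z then (k : ℝ) ^ 2 * (Nat.log 2 Z : ℕ) * (4 * κ) ^ k else 0)) +
      ∑ p ∈ prLe Y, Real.log p * (rhoR g p * ((X + 2 * κ * (p : ℝ) ^ ((1 : ℝ) / k)) ^ k / p)) +
      ((freeU g k X E ((X : ℝ) ^ ((1 : ℝ) / 4))).card : ℝ) * Real.log Z := by
  have hκ0 : 0 ≤ κ := by rw [hκ]; positivity
  have hY0 : 0 ≤ Y := le_trans (by positivity) hY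
  have hlogp : ∀ p : ℕ, 0 ≤ Real.log p := fun p => Real.log_natCast_nonneg p
  have hch : ∀ p : ℕ, ∃ B G : (Fin k → ℤ) → ℝ, p.Prime → ¬ p ∣ Δ → (∀ u, 0 ≤ B u) ∧ (∀ u, 0 ≤ G u) ∧
      (∀ u ∈ boxZ k X, u ≠ 0 → (((nn θ u).factorization p : ℕ) : ℝ) ≤ B u + G u ∧
        B u ≤ (((nn θ u).factorization p : ℕ) : ℝ)) ∧
      ∑ u ∈ boxZ k X, B u ≤ rhoR g p * ((X + 2 * κ * (p : ℝ) ^ ((1 : ℝ) / k)) ^ k / p) ∧
      ∑ u ∈ boxZ k X, G u ≤ k ^ 2 * (2 ^ k * (X : ℝ) ^ k * 4 / (p : ℝ) ^ 2) +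
        (if p ^ 2 ≤ Z then (k : ℝ) ^ 2 * (Nat.log 2 Z : ℕ) * (4 * κ) ^ k else 0) := by
    intro p
    by_cases h : p.Prime ∧ ¬ p ∣ Δ
    · obtain ⟨B, G, h1⟩ := lb3_good k hk g hg hd hirr θ hθ hfr Δ hΔ p h.1 h.2 H hH hht X Z hZ' κ hκ
      exact ⟨B, G, fun _ _ => h1⟩
    · exact ⟨0, 0, fun h1 h2 => absurd ⟨h1, h2⟩ h⟩
  choose B G hBG using hch
  set PZ := (range (Z + 1)).filter Nat.Prime with hPZ
  set box := boxZ k X with hbox
  set bx := box.filter (fun u => u ≠ 0) with hbx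
  have hsub : bx ⊆ box := Finset.filter_subset _ _
  -- restrict to nonzero u
  have h1 : ∑ u ∈ box, Real.log (nn θ u) = ∑ u ∈ bx, Real.log (nn θ u) := by
    symm
    apply Finset.sum_subset hsub
    intro u hu hu'
    rw [hbx, mem_filter] at hu'
    push Not at hu'
    have hu0 := hu' hu
    subst hu0
    have : nn θ (0 : Fin k → ℤ) = 0 := by
      unfold nn nu; simp
    rw [this]; simp
  have h2 : ∀ u ∈ bx, Real.log (nn θ u) = ∑ p ∈ PZ, (((nn θ u).factorization p : ℕ) : ℝ) * Real.log p := by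
    intro u hu
    rw [hbx, mem_filter] at hu
    exact lb3_log (nf_pos k hk g hg hd hirr θ hθ hfr u hu.2) (hZ' u hu.1)
  rw [h1, Finset.sum_congr rfl h2]
  have h3 : ∀ u ∈ bx, ∑ p ∈ PZ, (((nn θ u).factorization p : ℕ) : ℝ) * Real.log p ≤
      ∑ p ∈ PZ.filter (fun p => p ∣ Δ), Real.log p * (((nn θ u).factorization p : ℕ) : ℝ) +
      ∑ p ∈ PZ.filter (fun p => ¬ p ∣ Δ), Real.log p * G p u +
      (∑ p ∈ (PZ.filter (fun p => ¬ p ∣ Δ)).filter (fun p : ℕ => (p : ℝ) ≤ Y), Real.log p * B p u +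
       (if u ∈ freeU g k X E ((X : ℝ) ^ ((1 : ℝ) / 4)) then Real.log Z else 0)) := by
    intro u hu
    rw [hbx, mem_filter] at hu
    obtain ⟨hub, hu0⟩ := hu
    rw [← Finset.sum_filter_add_sum_filter_not PZ (fun p => p ∣ Δ)]
    have e1 : ∑ p ∈ PZ.filter (fun p => p ∣ Δ), (((nn θ u).factorization p : ℕ) : ℝ) * Real.log p =
        ∑ p ∈ PZ.filter (fun p => p ∣ Δ), Real.log p * (((nn θ u).factorization p : ℕ) : ℝ) :=
      Finset.sum_congr rfl (fun p _ => mul_comm _ _)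
    rw [e1, add_assoc]
    apply add_le_add le_rfl
    have e2 : ∑ p ∈ PZ.filter (fun p => ¬ p ∣ Δ), (((nn θ u).factorization p : ℕ) : ℝ) * Real.log p ≤
        ∑ p ∈ PZ.filter (fun p => ¬ p ∣ Δ), Real.log p * G p u +
        ∑ p ∈ PZ.filter (fun p => ¬ p ∣ Δ), Real.log p * B p u := by
      rw [← Finset.sum_add_distrib]
      apply Finset.sum_le_sum
      intro p hp
      rw [mem_filter, hPZ, mem_filter] at hp
      obtain ⟨-, -, h5, -⟩ := hBG p hp.1.2 hp.2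
      have h6 := (h5 u hub hu0).1
      have h7 := mul_le_mul_of_nonneg_left h6 (hlogp p)
      linarith
    refine e2.trans (add_le_add le_rfl ?_)
    rw [← Finset.sum_filter_add_sum_filter_not (PZ.filter (fun p => ¬ p ∣ Δ)) (fun p : ℕ => (p : ℝ) ≤ Y)]
    apply add_le_add le_rfl
    split_ifs with hfr'
    · -- u ∈ freeU
      have h8 : ∑ p ∈ (PZ.filter (fun p => ¬ p ∣ Δ)).filter (fun p : ℕ => ¬ (p : ℝ) ≤ Y), Real.log p * B p u ≤
          ∑ p ∈ (PZ.filter (fun p => ¬ p ∣ Δ)).filter (fun p : ℕ => ¬ (p : ℝ) ≤ Y),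
            (((nn θ u).factorization p : ℕ) : ℝ) * Real.log p := by
        apply Finset.sum_le_sum
        intro p hp
        rw [mem_filter, mem_filter, hPZ, mem_filter] at hp
        obtain ⟨-, -, h5, -⟩ := hBG p hp.1.1.2 hp.1.2
        have h6 := (h5 u hub hu0).2
        have h7 := mul_le_mul_of_nonneg_left h6 (hlogp p)
        linarith
      refine h8.trans ?_
      have h9 : ∑ p ∈ (PZ.filter (fun p => ¬ p ∣ Δ)).filter (fun p : ℕ => ¬ (p : ℝ) ≤ Y),
            (((nn θ u).factorization p : ℕ) : ℝ) * Real.log p ≤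
          ∑ p ∈ PZ, (((nn θ u).factorization p : ℕ) : ℝ) * Real.log p := by
        apply Finset.sum_le_sum_of_subset_of_nonneg
        · exact (Finset.filter_subset _ _).trans (Finset.filter_subset _ _)
        · intro p _ _
          exact mul_nonneg (Nat.cast_nonneg _) (hlogp p)
      refine h9.trans ?_
      have hpos := nf_pos k hk g hg hd hirr θ hθ hfr u hu0
      rw [hPZ, ← lb3_log hpos (hZ' u hub)]
      apply Real.log_le_log (by exact_mod_cast hpos)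
      exact_mod_cast hZ' u hub
    · apply le_of_eq
      apply Finset.sum_eq_zero
      intro p hp
      rw [mem_filter, mem_filter, hPZ, mem_filter] at hp
      obtain ⟨hB0, -, h5, -⟩ := hBG p hp.1.1.2 hp.1.2
      have h6 := (h5 u hub hu0).2
      have h7 := lb3_free k hk g hg hd hirr θ hθ hfr E Y hE X Z hY hZ' hZE u hub hu0 hfr' p hp.1.1.2
        (not_le.1 hp.2)
      rw [h7] at h6
      have h8 : B p u = 0 := le_antisymm (by simpa using h6) (hB0 u)
      rw [h8, mul_zero]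
  refine (Finset.sum_le_sum h3).trans ?_
  rw [Finset.sum_add_distrib, Finset.sum_add_distrib, Finset.sum_add_distrib]
  have t1 : ∑ u ∈ bx, ∑ p ∈ PZ.filter (fun p => p ∣ Δ), Real.log p * (((nn θ u).factorization p : ℕ) : ℝ) ≤
      ∑ p ∈ PZ.filter (fun p => p ∣ Δ), Real.log p * ∑ u ∈ box, (((nn θ u).factorization p : ℕ) : ℝ) := by
    rw [Finset.sum_comm]
    apply Finset.sum_le_sum
    intro p _
    rw [← Finset.mul_sum]
    apply mul_le_mul_of_nonneg_left _ (hlogp p)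
    exact Finset.sum_le_sum_of_subset_of_nonneg hsub (fun _ _ _ => Nat.cast_nonneg _)
  have t2 : ∑ u ∈ bx, ∑ p ∈ PZ.filter (fun p => ¬ p ∣ Δ), Real.log p * G p u ≤
      ∑ p ∈ PZ, Real.log p * (k ^ 2 * (2 ^ k * (X : ℝ) ^ k * 4 / (p : ℝ) ^ 2) +
        (if p ^ 2 ≤ Z then (k : ℝ) ^ 2 * (Nat.log 2 Z : ℕ) * (4 * κ) ^ k else 0)) := by
    rw [Finset.sum_comm]
    refine le_trans ?_ (Finset.sum_le_sum_of_subset_of_nonneg (Finset.filter_subset (fun p => ¬ p ∣ Δ) PZ) ?_)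
    · apply Finset.sum_le_sum
      intro p hp
      rw [mem_filter, hPZ, mem_filter] at hp
      obtain ⟨-, hG0, -, -, h5⟩ := hBG p hp.1.2 hp.2
      rw [← Finset.mul_sum]
      apply mul_le_mul_of_nonneg_left _ (hlogp p)
      exact (Finset.sum_le_sum_of_subset_of_nonneg hsub (fun u _ _ => hG0 u)).trans h5
    · intro p _ _
      apply mul_nonneg (hlogp p)
      have : 0 ≤ (if p ^ 2 ≤ Z then (k : ℝ) ^ 2 * (Nat.log 2 Z : ℕ) * (4 * κ) ^ k else 0) := by
        split_ifs <;> positivity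
      positivity
  have t3 : ∑ u ∈ bx, ∑ p ∈ (PZ.filter (fun p => ¬ p ∣ Δ)).filter (fun p : ℕ => (p : ℝ) ≤ Y), Real.log p * B p u ≤
      ∑ p ∈ prLe Y, Real.log p * (rhoR g p * ((X + 2 * κ * (p : ℝ) ^ ((1 : ℝ) / k)) ^ k / p)) := by
    rw [Finset.sum_comm]
    have hsub2 : (PZ.filter (fun p => ¬ p ∣ Δ)).filter (fun p : ℕ => (p : ℝ) ≤ Y) ⊆ prLe Y := by
      intro p hp
      rw [mem_filter, mem_filter, hPZ, mem_filter] at hp
      unfold prLe
      rw [mem_filter, mem_range]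
      refine ⟨?_, hp.1.1.2⟩
      have := Nat.le_floor hp.2
      omega
    refine le_trans ?_ (Finset.sum_le_sum_of_subset_of_nonneg hsub2 ?_)
    · apply Finset.sum_le_sum
      intro p hp
      rw [mem_filter, mem_filter, hPZ, mem_filter] at hp
      obtain ⟨hB0, -, -, h5, -⟩ := hBG p hp.1.1.2 hp.1.2
      rw [← Finset.mul_sum]
      apply mul_le_mul_of_nonneg_left _ (hlogp p)
      exact (Finset.sum_le_sum_of_subset_of_nonneg hsub (fun u _ _ => hB0 u)).trans h5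
    · intro p _ _
      apply mul_nonneg (hlogp p)
      unfold rhoR
      positivity
  have t4 : ∑ u ∈ bx, (if u ∈ freeU g k X E ((X : ℝ) ^ ((1 : ℝ) / 4)) then Real.log Z else 0) ≤
      ((freeU g k X E ((X : ℝ) ^ ((1 : ℝ) / 4))).card : ℝ) * Real.log Z := by
    rw [← Finset.sum_filter, Finset.sum_const, nsmul_eq_mul]
    apply mul_le_mul_of_nonneg_right _ (hlogp Z)
    rw [Nat.cast_le]
    apply Finset.card_le_card
    intro u hu
    rw [mem_filter] at hu
    exact hu.2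
  linarith

/-- the small primes term -/
theorem lb3_small (k : ℕ) (hk : 1 ≤ k) (C3 : ℝ) (hC3 : ∀ Y : ℝ, 1 ≤ Y →
    ∑ p ∈ prLe Y, Real.log p * (p : ℝ) ^ ((1 : ℝ) / k - 1) ≤ C3 * Y ^ ((1 : ℝ) / k))
    (g : ℤ[X]) (hg : g.Monic) (hd : g.natDegree = k) (X κ M : ℝ) (hX : 0 < X) (hκ : 0 ≤ κ) (hM : 0 < M)
    (h2κ : 2 * κ ≤ M) (hXM : M ≤ X) (Y : ℝ) (hY : Y = (X / M) ^ k) :
    ∑ p ∈ prLe Y, Real.log p * (rhoR g p * ((X + 2 * κ * (p : ℝ) ^ ((1 : ℝ) / k)) ^ k / p)) ≤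
      X ^ k * Msum (rhoR g) Y + X ^ k * (k * 2 ^ k * C3) := by
  have hXM1 : 1 ≤ X / M := by rw [le_div_iff₀ hM]; linarith
  have hY1 : 1 ≤ Y := by rw [hY]; exact one_le_pow₀ hXM1
  have hYk : Y ^ ((1 : ℝ) / k) = X / M := by
    rw [hY, one_div]
    exact Real.pow_rpow_inv_natCast (by positivity) (by omega)
  have h3 := hC3 Y hY1
  rw [hYk] at h3
  have hterm : ∀ p ∈ prLe Y, Real.log p * (rhoR g p * ((X + 2 * κ * (p : ℝ) ^ ((1 : ℝ) / k)) ^ k / p)) ≤
      X ^ k * (rhoR g p * Real.log p / p) + (k * 2 ^ k * X ^ k * (M / X)) *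
        (Real.log p * (p : ℝ) ^ ((1 : ℝ) / k - 1)) := by
    intro p hp
    unfold prLe at hp
    rw [mem_filter, mem_range] at hp
    have hp0 : (0 : ℝ) < p := by exact_mod_cast hp.2.pos
    have hpY : (p : ℝ) ≤ Y := by
      have : p ≤ ⌊Y⌋₊ := by omega
      exact (Nat.le_floor_iff (by linarith)).1 this
    have hpk : (p : ℝ) ^ ((1 : ℝ) / k) ≤ X / M := by
      rw [← hYk]
      exact Real.rpow_le_rpow hp0.le hpY (by positivity)
    have hpk0 : 0 < (p : ℝ) ^ ((1 : ℝ) / k) := Real.rpow_pos_of_pos hp0 _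
    set w := (p : ℝ) ^ ((1 : ℝ) / k) with hw
    have hlog : 0 ≤ Real.log p := Real.log_natCast_nonneg p
    have hrho : rhoR g p ≤ k := by
      unfold rhoR
      have := lb3_rho_le g hg p hp.2
      rw [hd] at this
      exact_mod_cast this
    have hrho0 : 0 ≤ rhoR g p := by unfold rhoR; positivity
    have hz1 : 2 * κ * w / X ≤ 1 := by
      rw [div_le_one hX]
      calc 2 * κ * w ≤ M * (X / M) := mul_le_mul h2κ hpk hpk0.le hM.le
        _ = X := by field_simp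
    have hz0 : 0 ≤ 2 * κ * w / X := by positivity
    have h4 := lb3_pow _ hz0 hz1 k
    have h5 : (X + 2 * κ * w) ^ k = X ^ k * (1 + 2 * κ * w / X) ^ k := by
      rw [← mul_pow]; congr 1; field_simp
    have h6 : (X + 2 * κ * w) ^ k ≤ X ^ k + 2 ^ k * X ^ k * (M / X) * w := by
      rw [h5]
      calc X ^ k * (1 + 2 * κ * w / X) ^ k ≤ X ^ k * (1 + (2 ^ k - 1) * (2 * κ * w / X)) :=
            mul_le_mul_of_nonneg_left h4 (by positivity)
        _ ≤ X ^ k * (1 + 2 ^ k * (M * w / X)) := by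
            apply mul_le_mul_of_nonneg_left _ (by positivity)
            have h7 : (2 ^ k - 1) * (2 * κ * w / X) ≤ 2 ^ k * (M * w / X) := by
              apply mul_le_mul (by linarith) _ hz0 (by positivity)
              apply div_le_div_of_nonneg_right _ hX.le
              exact mul_le_mul_of_nonneg_right h2κ hpk0.le
            linarith
        _ = X ^ k + 2 ^ k * X ^ k * (M / X) * w := by ring
    have h8 : (p : ℝ) ^ ((1 : ℝ) / k - 1) = w / p := by
      rw [Real.rpow_sub_one hp0.ne']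
    rw [h8]
    have h9 : (X + 2 * κ * w) ^ k / p ≤ X ^ k / p + 2 ^ k * X ^ k * (M / X) * (w / p) := by
      rw [div_le_iff₀ hp0]
      refine h6.trans (le_of_eq ?_)
      field_simp
    calc Real.log p * (rhoR g p * ((X + 2 * κ * w) ^ k / p))
        ≤ Real.log p * (rhoR g p * (X ^ k / p + 2 ^ k * X ^ k * (M / X) * (w / p))) := by
          apply mul_le_mul_of_nonneg_left _ hlog
          exact mul_le_mul_of_nonneg_left h9 hrho0
      _ = X ^ k * (rhoR g p * Real.log p / p) + rhoR g p * (Real.log p * (2 ^ k * X ^ k * (M / X) * (w / p))) := by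
          ring
      _ ≤ X ^ k * (rhoR g p * Real.log p / p) + k * (Real.log p * (2 ^ k * X ^ k * (M / X) * (w / p))) := by
          have : 0 ≤ Real.log p * (2 ^ k * X ^ k * (M / X) * (w / p)) := by positivity
          have := mul_le_mul_of_nonneg_right hrho this
          linarith
      _ = _ := by ring
  refine (Finset.sum_le_sum hterm).trans ?_
  rw [Finset.sum_add_distrib, ← Finset.mul_sum, ← Finset.mul_sum]
  apply add_le_add (le_of_eq rfl)
  calc (k * 2 ^ k * X ^ k * (M / X)) * ∑ p ∈ prLe Y, Real.log p * (p : ℝ) ^ ((1 : ℝ) / k - 1)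
      ≤ (k * 2 ^ k * X ^ k * (M / X)) * (C3 * (X / M)) := mul_le_mul_of_nonneg_left h3 (by positivity)
    _ = X ^ k * (k * 2 ^ k * C3) := by field_simp

/-- bound for `log Z` -/
theorem lb3_logZ (k : ℕ) (x κ : ℝ) (hx : 1 ≤ x) (hκ1 : 1 ≤ κ) (hκx : κ ≤ x)
    (Z : ℕ) (hZ1 : 1 ≤ Z) (hZ : (Z : ℝ) ≤ (κ * x ^ 4) ^ k) : Real.log Z ≤ 5 * k * Real.log x := by
  have hZ0 : (0 : ℝ) < Z := by exact_mod_cast hZ1
  have h1 : (Z : ℝ) ≤ (x ^ 5) ^ k := by
    refine hZ.trans (pow_le_pow_left₀ (by positivity) ?_ k)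
    calc κ * x ^ 4 ≤ x * x ^ 4 := mul_le_mul_of_nonneg_right hκx (by positivity)
      _ = x ^ 5 := by ring
  have h2 := Real.log_le_log hZ0 h1
  rw [Real.log_pow, Real.log_pow] at h2
  push_cast at h2
  linarith

theorem lb3_gsum (k : ℕ) (hk : 1 ≤ k) (CL : ℝ) (hCL : ∀ S : Finset ℕ, ∑ p ∈ S, Real.log p / (p : ℝ) ^ 2 ≤ CL)
    (x κ : ℝ) (hx : 1 ≤ x) (hκ1 : 1 ≤ κ) (hκx : κ ^ (2 * k) ≤ x)
    (Z : ℕ) (hZ1 : 1 ≤ Z) (hZ : (Z : ℝ) ≤ (κ * x ^ 4) ^ k) :
    ∑ p ∈ (range (Z + 1)).filter Nat.Prime,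
        Real.log p * (k ^ 2 * (2 ^ k * (x ^ 4) ^ k * 4 / (p : ℝ) ^ 2) +
        (if p ^ 2 ≤ Z then (k : ℝ) ^ 2 * (Nat.log 2 Z : ℕ) * (4 * κ) ^ k else 0)) ≤
      (x ^ 4) ^ k * (4 * k ^ 2 * 2 ^ k * CL + 100 * 4 ^ k * k ^ 4 / Real.log 2) := by
  have hlogp : ∀ p : ℕ, 0 ≤ Real.log p := fun p => Real.log_natCast_nonneg p
  have hl2 : 0 < Real.log 2 := Real.log_pos (by norm_num)
  have hκ1' : κ ≤ κ ^ (2 * k) := le_self_pow₀ hκ1 (by omega)
  have hκxx : κ ≤ x := hκ1'.trans hκx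
  have hlogZ := lb3_logZ k x κ hx hκ1 hκxx Z hZ1 hZ
  have hZ0 : (0 : ℝ) < Z := by exact_mod_cast hZ1
  have hlogx : Real.log x ^ 2 ≤ 4 * x := by
    have h1 : 0 ≤ Real.log x := Real.log_nonneg hx
    have h2 : Real.log x ≤ 2 * Real.sqrt x := by
      have h3 : Real.log (Real.sqrt x) = Real.log x / 2 := Real.log_sqrt (by linarith)
      have h4 : Real.log (Real.sqrt x) ≤ Real.sqrt x - 1 :=
        Real.log_le_sub_one_of_pos (Real.sqrt_pos.2 (by linarith))
      linarith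
    calc Real.log x ^ 2 ≤ (2 * Real.sqrt x) ^ 2 := pow_le_pow_left₀ h1 h2 2
      _ = 4 * x := by rw [mul_pow, Real.sq_sqrt (by linarith)]; ring
  have hL : ((Nat.log 2 Z : ℕ) : ℝ) ≤ Real.log Z / Real.log 2 := by
    rw [le_div_iff₀ hl2]
    have h1 : 2 ^ (Nat.log 2 Z) ≤ Z := Nat.pow_log_le_self 2 (by omega)
    have h2 : ((2 : ℝ) ^ (Nat.log 2 Z)) ≤ Z := by exact_mod_cast h1
    have h3 := Real.log_le_log (by positivity) h2
    rw [Real.log_pow] at h3
    exact h3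
  have hsqrt : ((Nat.sqrt Z : ℕ) : ℝ) ≤ κ ^ k * x ^ (2 * k) := by
    have h1 : (Nat.sqrt Z) ^ 2 ≤ Z := by
      have := Nat.sqrt_le' Z; exact this
    have h2 : ((Nat.sqrt Z : ℕ) : ℝ) ^ 2 ≤ Z := by exact_mod_cast h1
    have h3 : (Z : ℝ) ≤ (κ ^ k * x ^ (2 * k)) ^ 2 := by
      refine hZ.trans ?_
      have h4 : (κ ^ k * x ^ (2 * k)) ^ 2 = (κ ^ 2 * x ^ 4) ^ k := by
        rw [mul_pow, mul_pow, ← pow_mul, ← pow_mul, ← pow_mul, ← pow_mul]
        congr 2 <;> ring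
      rw [h4]
      apply pow_le_pow_left₀ (by positivity)
      apply mul_le_mul_of_nonneg_right _ (by positivity)
      nlinarith
    exact le_of_sq_le_sq (h2.trans h3) (by positivity)
  have hsplit : ∀ p ∈ (range (Z + 1)).filter Nat.Prime,
      Real.log p * (k ^ 2 * (2 ^ k * (x ^ 4) ^ k * 4 / (p : ℝ) ^ 2) +
        (if p ^ 2 ≤ Z then (k : ℝ) ^ 2 * (Nat.log 2 Z : ℕ) * (4 * κ) ^ k else 0)) ≤
      ((x ^ 4) ^ k * (4 * k ^ 2 * 2 ^ k)) * (Real.log p / (p : ℝ) ^ 2) +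
      (if p ^ 2 ≤ Z then Real.log Z * ((k : ℝ) ^ 2 * (Nat.log 2 Z : ℕ) * (4 * κ) ^ k) else 0) := by
    intro p hp
    rw [mem_filter, mem_range] at hp
    have hp0 : (0 : ℝ) < p := by exact_mod_cast hp.2.pos
    rw [mul_add]
    apply add_le_add
    · apply le_of_eq; ring
    · split_ifs with h
      · apply mul_le_mul_of_nonneg_right _ (by positivity)
        apply Real.log_le_log hp0
        have : p ≤ Z := by omega
        exact_mod_cast this
      · simp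
  refine (Finset.sum_le_sum hsplit).trans ?_
  rw [Finset.sum_add_distrib, ← Finset.mul_sum]
  have h1 : ((x ^ 4) ^ k * (4 * k ^ 2 * 2 ^ k)) * ∑ p ∈ (range (Z + 1)).filter Nat.Prime, (Real.log p / (p : ℝ) ^ 2) ≤
      ((x ^ 4) ^ k * (4 * k ^ 2 * 2 ^ k)) * CL := by
    apply mul_le_mul_of_nonneg_left (hCL _) (by positivity)
  have h2 : ∑ p ∈ (range (Z + 1)).filter Nat.Prime,
      (if p ^ 2 ≤ Z then Real.log Z * ((k : ℝ) ^ 2 * (Nat.log 2 Z : ℕ) * (4 * κ) ^ k) else 0) ≤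
      (x ^ 4) ^ k * (100 * 4 ^ k * k ^ 4 / Real.log 2) := by
    rw [← Finset.sum_filter, Finset.sum_const, nsmul_eq_mul]
    have h3 : (((range (Z + 1)).filter Nat.Prime).filter (fun p => p ^ 2 ≤ Z)).card ≤ Nat.sqrt Z := by
      have h4 : ((range (Z + 1)).filter Nat.Prime).filter (fun p => p ^ 2 ≤ Z) ⊆ Icc 1 (Nat.sqrt Z) := by
        intro p hp
        rw [mem_filter, mem_filter] at hp
        rw [mem_Icc]
        exact ⟨hp.1.2.pos, Nat.le_sqrt'.2 hp.2⟩
      have := Finset.card_le_card h4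
      simpa using this
    have h5 : ((((range (Z + 1)).filter Nat.Prime).filter (fun p => p ^ 2 ≤ Z)).card : ℝ) ≤ κ ^ k * x ^ (2 * k) :=
      le_trans (by exact_mod_cast h3) hsqrt
    have hlogZ0 : 0 ≤ Real.log Z := hlogp Z
    have h6 : Real.log Z * ((k : ℝ) ^ 2 * (Nat.log 2 Z : ℕ) * (4 * κ) ^ k) ≤
        (k : ℝ) ^ 2 * (4 ^ k * κ ^ k) / Real.log 2 * (100 * k ^ 2 * x) := by
      have h7 : Real.log Z * ((k : ℝ) ^ 2 * (Nat.log 2 Z : ℕ) * (4 * κ) ^ k) ≤
          Real.log Z * ((k : ℝ) ^ 2 * (Real.log Z / Real.log 2) * (4 * κ) ^ k) := by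
        gcongr
      refine h7.trans ?_
      have h8 : Real.log Z ^ 2 ≤ 100 * k ^ 2 * x := by
        calc Real.log Z ^ 2 ≤ (5 * k * Real.log x) ^ 2 := pow_le_pow_left₀ hlogZ0 hlogZ 2
          _ = 25 * k ^ 2 * Real.log x ^ 2 := by ring
          _ ≤ 25 * k ^ 2 * (4 * x) := mul_le_mul_of_nonneg_left hlogx (by positivity)
          _ = 100 * k ^ 2 * x := by ring
      calc Real.log Z * ((k : ℝ) ^ 2 * (Real.log Z / Real.log 2) * (4 * κ) ^ k)
          = (k : ℝ) ^ 2 * (4 ^ k * κ ^ k) / Real.log 2 * Real.log Z ^ 2 := by rw [mul_pow]; ring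
        _ ≤ _ := mul_le_mul_of_nonneg_left h8 (by positivity)
    calc _ ≤ κ ^ k * x ^ (2 * k) * ((k : ℝ) ^ 2 * (4 ^ k * κ ^ k) / Real.log 2 * (100 * k ^ 2 * x)) := by
          apply mul_le_mul h5 h6 (by positivity) (by positivity)
      _ = (100 * 4 ^ k * k ^ 4 / Real.log 2) * (κ ^ (2 * k) * (x ^ (2 * k) * x)) := by ring
      _ ≤ (100 * 4 ^ k * k ^ 4 / Real.log 2) * (x * (x ^ (2 * k) * x)) := by
          apply mul_le_mul_of_nonneg_left _ (by positivity)
          exact mul_le_mul_of_nonneg_right hκx (by positivity)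
      _ = (100 * 4 ^ k * k ^ 4 / Real.log 2) * x ^ (2 * k + 2) := by ring
      _ ≤ (100 * 4 ^ k * k ^ 4 / Real.log 2) * (x ^ 4) ^ k := by
          apply mul_le_mul_of_nonneg_left _ (by positivity)
          rw [← pow_mul]
          apply pow_le_pow_right₀ hx
          omega
      _ = _ := by ring
  calc _ ≤ ((x ^ 4) ^ k * (4 * k ^ 2 * 2 ^ k)) * CL + (x ^ 4) ^ k * (100 * 4 ^ k * k ^ 4 / Real.log 2) :=
        add_le_add h1 h2
    _ = _ := by ring

/-- the bad primes term -/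
theorem lb3_bad (k : ℕ) (hk : 1 ≤ k) (x κ : ℝ) (hx : 1 ≤ x) (hκ1 : 1 ≤ κ) (hκx : κ ≤ x)
    (Z : ℕ) (hZ1 : 1 ≤ Z) (hZ : (Z : ℝ) ≤ (κ * x ^ 4) ^ k) (Δ : ℕ) (hΔ : 1 ≤ Δ) (D : ℝ) (hD : Real.log Δ ≤ D)
    (S : ℕ → ℝ)
    (hS : ∀ p : ℕ, p.Prime → S p ≤ (x ^ 4) ^ (k - 1) * ((k : ℝ) ^ 2 * x ^ 4 + k * (Real.log Z / Real.log 2))) :
    ∑ p ∈ ((range (Z + 1)).filter Nat.Prime).filter (fun p => p ∣ Δ), Real.log p * S p ≤
      (x ^ 4) ^ k * (D * (k ^ 2 + 5 * k ^ 2 / Real.log 2)) := by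
  have hlogp : ∀ p : ℕ, 0 ≤ Real.log p := fun p => Real.log_natCast_nonneg p
  have hl2 : 0 < Real.log 2 := Real.log_pos (by norm_num)
  have hlogZ := lb3_logZ k x κ hx hκ1 hκx Z hZ1 hZ
  have hlogx : Real.log x ≤ x ^ 4 := by
    have h1 : Real.log x ≤ x - 1 := Real.log_le_sub_one_of_pos (by linarith)
    have h2 : x ≤ x ^ 4 := le_self_pow₀ hx (by norm_num)
    linarith
  have hW : (x ^ 4) ^ (k - 1) * ((k : ℝ) ^ 2 * x ^ 4 + k * (Real.log Z / Real.log 2)) ≤
      (x ^ 4) ^ k * (k ^ 2 + 5 * k ^ 2 / Real.log 2) := by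
    have h1 : (x ^ 4) ^ k = (x ^ 4) ^ (k - 1) * x ^ 4 := by
      rw [← pow_succ]; congr 1; omega
    rw [h1, mul_assoc]
    apply mul_le_mul_of_nonneg_left _ (by positivity)
    have h2 : Real.log Z ≤ 5 * k * x ^ 4 := hlogZ.trans (mul_le_mul_of_nonneg_left hlogx (by positivity))
    have h3 : k * (Real.log Z / Real.log 2) ≤ x ^ 4 * (5 * k ^ 2 / Real.log 2) := by
      calc k * (Real.log Z / Real.log 2) ≤ k * (5 * k * x ^ 4 / Real.log 2) := by gcongr
        _ = _ := by ring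
    linarith
  have h1 : ∑ p ∈ ((range (Z + 1)).filter Nat.Prime).filter (fun p => p ∣ Δ), Real.log p * S p ≤
      ∑ p ∈ ((range (Z + 1)).filter Nat.Prime).filter (fun p => p ∣ Δ),
        Real.log p * ((x ^ 4) ^ k * (k ^ 2 + 5 * k ^ 2 / Real.log 2)) := by
    apply Finset.sum_le_sum
    intro p hp
    rw [mem_filter, mem_filter] at hp
    exact mul_le_mul_of_nonneg_left ((hS p hp.1.2).trans hW) (hlogp p)
  refine h1.trans ?_
  rw [← Finset.sum_mul]
  have h2 : ∑ p ∈ ((range (Z + 1)).filter Nat.Prime).filter (fun p => p ∣ Δ), Real.log p ≤ Real.log Δ := by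
    have h3 : ((range (Z + 1)).filter Nat.Prime).filter (fun p => p ∣ Δ) ⊆ Δ.primeFactors := by
      intro p hp
      rw [mem_filter, mem_filter] at hp
      rw [Nat.mem_primeFactors]
      exact ⟨hp.1.2, hp.2, by omega⟩
    refine (Finset.sum_le_sum_of_subset_of_nonneg h3 (fun p _ _ => hlogp p)).trans ?_
    rw [← Real.log_prod]
    · apply Real.log_le_log
      · apply Finset.prod_pos
        intro p hp
        have := (Nat.prime_of_mem_primeFactors hp).pos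
        exact_mod_cast this
      · have h4 : ∏ p ∈ Δ.primeFactors, p ≤ Δ := Nat.le_of_dvd hΔ (Nat.prod_primeFactors_dvd Δ)
        have h5 : ((∏ p ∈ Δ.primeFactors, p : ℕ) : ℝ) ≤ Δ := Nat.cast_le.2 h4
        rwa [Nat.cast_prod] at h5
    · intro p hp
      have := (Nat.prime_of_mem_primeFactors hp).pos
      positivity
  calc _ ≤ D * ((x ^ 4) ^ k * (k ^ 2 + 5 * k ^ 2 / Real.log 2)) :=
        mul_le_mul_of_nonneg_right (h2.trans hD) (by positivity)
    _ = _ := by ring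

theorem T_upper (k : ℕ) (hk : 1 ≤ k) : ∃ (A C : ℝ) (a1 : ℕ), 1 ≤ A ∧ 0 ≤ C ∧ k ≤ a1 ∧
    ∀ (K : Type) [Field K] [NumberField K] (g : ℤ[X]), g.Monic → g.natDegree = k → Irreducible g →
    ∀ (θ : 𝓞 K), aeval θ g = 0 → Module.finrank ℚ K = k →
    ∀ H : ℝ, 2 ≤ H → HtLe g H → ∀ E : ℝ, H ^ A ≤ E → ∀ X : ℕ, E ^ A ≤ (X : ℝ) →
    ∑ u ∈ boxZ k X, Real.log (nn θ u) ≤
      (X : ℝ) ^ k * (Msum (rhoR g) ((X : ℝ) ^ k / H ^ a1) + C * Real.log H) +
      ((freeU g k X E ((X : ℝ) ^ ((1 : ℝ) / 4))).card : ℝ) * (k * Real.log X + C * Real.log H) := by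
  obtain ⟨A0, hA0, hdisc⟩ := nf_disc k hk
  obtain ⟨C3, hC3⟩ := mert3 k hk
  obtain ⟨CL, hCL0, hCL⟩ := lb3_logsq
  have hl2 : 0 < Real.log 2 := Real.log_pos (by norm_num)
  have hC30 : 0 ≤ C3 := by
    have h := hC3 1 le_rfl
    rw [Real.one_rpow, mul_one] at h
    refine le_trans (Finset.sum_nonneg ?_) h
    intro p _
    have := Real.log_natCast_nonneg p
    positivity
  -- constants
  set c1 : ℝ := k ^ 2 + 5 * k ^ 2 / Real.log 2 with hc1
  set c2 : ℝ := 4 * k ^ 2 * 2 ^ k * CL + 100 * 4 ^ k * k ^ 4 / Real.log 2 with hc2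
  set c3 : ℝ := k * 2 ^ k * C3 with hc3
  have hc1' : 0 ≤ c1 := by positivity
  have hc2' : 0 ≤ c2 := by positivity
  have hc3' : 0 ≤ c3 := by positivity
  refine ⟨((7 * k ^ 2 : ℕ) : ℝ), A0 * c1 + (c2 + c3) / Real.log 2 + 3 * k ^ 2, k * (3 * k + 1), ?_, ?_, ?_, ?_⟩
  · have : 1 ≤ 7 * k ^ 2 := by nlinarith
    exact_mod_cast this
  · positivity
  · nlinarith
  intro K _ _ g hg hd hirr θ hθ hfr H hH hht E hE X hX
  rw [Real.rpow_natCast] at hE hX
  obtain ⟨Δ, hΔ1, hΔH, hΔ⟩ := hdisc K g hg hd hirr θ hθ hfr H hH hht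
  have hH1 : (1 : ℝ) ≤ H := by linarith
  have hH0 : (0 : ℝ) < H := by linarith
  have hE1 : 1 ≤ E := (one_le_pow₀ hH1).trans hE
  have hk0 : (1 : ℝ) ≤ k := by exact_mod_cast hk
  have hlogH : Real.log 2 ≤ Real.log H := Real.log_le_log (by norm_num) hH
  have hlogH0 : 0 < Real.log H := by linarith
  -- κ
  set κ : ℝ := k * (1 + H) ^ k with hκ
  have hκ1 : 1 ≤ κ := by
    rw [hκ]
    have : (1 : ℝ) ≤ (1 + H) ^ k := one_le_pow₀ (by linarith)
    nlinarith
  have hκ0 : 0 ≤ κ := by linarith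
  have hκH : κ ≤ H ^ (3 * k) := by
    have h1 : (k : ℝ) ≤ H ^ k := by
      have h2 : (k : ℝ) ≤ 2 ^ k := by exact_mod_cast (Nat.lt_two_pow_self (n := k)).le
      exact h2.trans (pow_le_pow_left₀ (by norm_num) hH k)
    have h2 : (1 + H) ^ k ≤ (H ^ 2) ^ k := pow_le_pow_left₀ (by linarith) (by nlinarith) k
    calc κ ≤ H ^ k * (H ^ 2) ^ k := mul_le_mul h1 h2 (by positivity) (by positivity)
      _ = H ^ (3 * k) := by rw [← pow_mul, ← pow_add]; congr 1; ring
  set M : ℝ := H ^ (3 * k + 1) with hM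
  have hM0 : 0 < M := by positivity
  have h2κM : 2 * κ ≤ M := by
    rw [hM, pow_succ, mul_comm]
    exact mul_le_mul hκH hH (by norm_num) (by positivity)
  -- x
  set x : ℝ := (X : ℝ) ^ ((1 : ℝ) / 4) with hx
  have hx0 : 0 ≤ x := by positivity
  have hx4 : x ^ 4 = (X : ℝ) := by
    rw [hx, ← Real.rpow_natCast, ← Real.rpow_mul (by positivity)]
    norm_num
  have hxH : H ^ (8 * k ^ 2) ≤ x := by
    have h1 : (H ^ (8 * k ^ 2)) ^ 4 ≤ x ^ 4 := by
      rw [hx4, ← pow_mul]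
      refine le_trans ?_ hX
      refine le_trans ?_ (pow_le_pow_left₀ (by positivity) hE _)
      rw [← pow_mul]
      apply pow_le_pow_right₀ hH1
      have : 1 ≤ k ^ 2 := Nat.one_le_pow _ _ (by omega)
      nlinarith
    exact le_of_pow_le_pow_left₀ (by norm_num) hx0 h1
  have hk2 : k ≤ k ^ 2 := by nlinarith
  have hxH' : ∀ m : ℕ, m ≤ 8 * k ^ 2 → H ^ m ≤ x := fun m hm => (pow_le_pow_right₀ hH1 hm).trans hxH
  have hx1 : 1 ≤ x := by have := hxH' 0 (by omega); simpa using this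
  have hκx : κ ^ (2 * k) ≤ x := by
    calc κ ^ (2 * k) ≤ (H ^ (3 * k)) ^ (2 * k) := pow_le_pow_left₀ hκ0 hκH _
      _ = H ^ (6 * k ^ 2) := by rw [← pow_mul]; congr 1; ring
      _ ≤ x := hxH' _ (by omega)
  have hκx' : κ ≤ x := (le_self_pow₀ hκ1 (by omega)).trans hκx
  have hX0 : (0 : ℝ) < X := by rw [← hx4]; positivity
  have hX1 : 1 ≤ X := by exact_mod_cast hX0
  -- Z
  set Z : ℕ := ⌊(κ * (X : ℝ)) ^ k⌋₊ with hZ
  have hZle : (Z : ℝ) ≤ (κ * X) ^ k := Nat.floor_le (by positivity)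
  have hZ1 : 1 ≤ Z := by
    rw [hZ]
    apply (Nat.one_le_floor_iff _).2
    apply one_le_pow₀
    have : (1 : ℝ) ≤ X := by exact_mod_cast hX1
    nlinarith
  have hZ' : ∀ u ∈ boxZ k X, nn θ u ≤ Z := by
    intro u hu
    rw [hZ]
    apply Nat.le_floor
    refine (nf_le k hk g hg hd hirr θ hθ hfr H hH1 hht X u hu).trans (le_of_eq ?_)
    rw [hκ]; ring
  -- Y
  set Y : ℝ := ((X : ℝ) / M) ^ k with hY
  have hYeq : (X : ℝ) ^ k / H ^ (k * (3 * k + 1)) = Y := by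
    rw [hY, div_pow, hM, ← pow_mul, mul_comm k]
  have hMx : M ≤ x := hxH' _ (by nlinarith)
  have hXM : x ≤ X / M := by
    rw [le_div_iff₀ hM0, ← hx4]
    calc x * M ≤ x * x := mul_le_mul_of_nonneg_left hMx hx0
      _ = x ^ 2 := by ring
      _ ≤ x ^ 4 := pow_le_pow_right₀ hx1 (by norm_num)
  have hYx : x ≤ Y := by
    rw [hY]
    refine hXM.trans (le_self_pow₀ ?_ (by omega))
    exact hx1.trans hXM
  have hMX : M ≤ X := by
    refine hMx.trans ?_
    rw [← hx4]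
    exact le_self_pow₀ hx1 (by norm_num)
  have hZE : (Z : ℝ) ≤ E * Y := by
    refine hZle.trans ?_
    have h1 : (κ * X) ^ k = (κ * M) ^ k * Y := by
      rw [hY, ← mul_pow]; congr 1; field_simp
    rw [h1]
    apply mul_le_mul_of_nonneg_right _ (by positivity)
    refine le_trans ?_ hE
    calc (κ * M) ^ k ≤ (H ^ (3 * k) * H ^ (3 * k + 1)) ^ k := by
          apply pow_le_pow_left₀ (by positivity)
          exact mul_le_mul_of_nonneg_right hκH hM0.le
      _ = H ^ (6 * k ^ 2 + k) := by rw [← pow_add, ← pow_mul]; congr 1; ring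
      _ ≤ H ^ (7 * k ^ 2) := pow_le_pow_right₀ hH1 (by omega)
  rw [hYeq]
  refine (lb3_decomp k hk g hg hd hirr θ hθ hfr Δ hΔ H hH1 hht X Z hZ' κ hκ E Y (by linarith) hYx hZE).trans ?_
  -- the four terms
  have hZ4 : (Z : ℝ) ≤ (κ * x ^ 4) ^ k := by rw [hx4]; exact hZle
  have hD : Real.log Δ ≤ A0 * Real.log H := by
    have h1 : (0 : ℝ) < Δ := by exact_mod_cast hΔ1
    have h2 := Real.log_le_log h1 hΔH
    rwa [Real.log_rpow hH0] at h2
  have t1 := lb3_bad k hk x κ hx1 hκ1 hκx' Z hZ1 hZ4 Δ hΔ1 (A0 * Real.log H) hD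
    (fun p => ∑ u ∈ boxZ k X, (((nn θ u).factorization p : ℕ) : ℝ)) (by
      intro p hp
      rw [hx4]
      exact vp_sum k hk g hg hd hirr θ hθ hfr p hp X Z hX1 hZ1 hZ')
  have t2 := lb3_gsum k hk CL hCL x κ hx1 hκ1 hκx Z hZ1 hZ4
  have t3 := lb3_small k hk C3 hC3 g hg hd X κ M hX0 hκ0 hM0 h2κM hMX Y rfl
  rw [hx4] at t1 t2
  have hlogκ : Real.log κ ≤ 3 * k * Real.log H := by
    have h1 := Real.log_le_log (by linarith) hκH
    rw [Real.log_pow] at h1
    push_cast at h1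
    exact h1
  have t4 : Real.log Z ≤ k * Real.log X + 3 * k ^ 2 * Real.log H := by
    have hZ0 : (0 : ℝ) < Z := by exact_mod_cast hZ1
    have h1 := Real.log_le_log hZ0 hZle
    rw [Real.log_pow, Real.log_mul (by linarith) hX0.ne'] at h1
    calc Real.log Z ≤ k * (Real.log κ + Real.log X) := h1
      _ ≤ k * (3 * k * Real.log H + Real.log X) := by
          apply mul_le_mul_of_nonneg_left _ (by positivity)
          linarith
      _ = _ := by ring
  set F : ℝ := ((freeU g k X E x).card : ℝ) with hF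
  have hF0 : 0 ≤ F := by rw [hF]; positivity
  have t4' : F * Real.log Z ≤ F * (k * Real.log X +
      (A0 * c1 + (c2 + c3) / Real.log 2 + 3 * k ^ 2) * Real.log H) := by
    apply mul_le_mul_of_nonneg_left _ hF0
    have h1 : 0 ≤ (A0 * c1 + (c2 + c3) / Real.log 2) * Real.log H := by positivity
    linarith
  have hXk : 0 ≤ (X : ℝ) ^ k := by positivity
  have h5 : c2 + c3 ≤ (c2 + c3) / Real.log 2 * Real.log H := by
    rw [div_mul_eq_mul_div, le_div_iff₀ hl2]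
    exact mul_le_mul_of_nonneg_left hlogH (by positivity)
  have h6 : (X : ℝ) ^ k * (A0 * Real.log H * c1) + (X : ℝ) ^ k * c2 + (X : ℝ) ^ k * c3 ≤
      (X : ℝ) ^ k * ((A0 * c1 + (c2 + c3) / Real.log 2 + 3 * k ^ 2) * Real.log H) := by
    rw [← mul_add, ← mul_add]
    apply mul_le_mul_of_nonneg_left _ hXk
    have h7 : 0 ≤ 3 * (k : ℝ) ^ 2 * Real.log H := by positivity
    nlinarith
  linarith

end EK75

end S_H75_EK_Lb3

section S_H75_EK_Lb

/-! Module LB: lower Mertens bound for an irreducible polynomial. -/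

open Polynomial Finset
open scoped Real BigOperators

namespace EK75

theorem lb_msum_mono (g : ℤ[X]) {Y Y' : ℝ} (h : Y ≤ Y') : Msum (rhoR g) Y ≤ Msum (rhoR g) Y' := by
  unfold Msum
  refine sum_le_sum_of_subset_of_nonneg ?_ fun p hp _ => ?_
  · unfold prLe
    refine filter_subset_filter _ (range_subset_range.2 ?_)
    have := Nat.floor_le_floor h
    omega
  · exact div_nonneg (mul_nonneg (Nat.cast_nonneg _) (Real.log_natCast_nonneg p)) (Nat.cast_nonneg _)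

theorem lb_msum_nonneg (g : ℤ[X]) (Y : ℝ) : 0 ≤ Msum (rhoR g) Y := by
  unfold Msum
  exact sum_nonneg fun p _ =>
    div_nonneg (mul_nonneg (Nat.cast_nonneg _) (Real.log_natCast_nonneg p)) (Nat.cast_nonneg _)

theorem lb_ssum_mono (g : ℤ[X]) (E : ℝ) {Y Y' : ℝ} (h : Y ≤ Y') :
    Ssum (rhoR g) E Y ≤ Ssum (rhoR g) E Y' := by
  unfold Ssum
  refine sum_le_sum_of_subset_of_nonneg ?_ fun p hp _ => ?_
  · unfold prIoc
    refine filter_subset_filter _ (Ioc_subset_Ioc le_rfl (Nat.floor_le_floor h))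
  · exact div_nonneg (Nat.cast_nonneg _) (Nat.cast_nonneg _)

theorem mertens_lower (k : ℕ) (hk : 1 ≤ k) : ∃ A C : ℝ, 1 ≤ A ∧ 0 ≤ C ∧ ∀ g : ℤ[X], g.Monic →
    g.natDegree = k → Irreducible g → ∀ H : ℝ, 2 ≤ H → HtLe g H → ∀ E : ℝ, H ^ A ≤ E →
    ∀ Y : ℝ, 1 ≤ Y →
    Real.log Y - C * Real.log E -
      C * Real.log Y / max 1 (Ssum (rhoR g) E (Y ^ ((1 : ℝ) / (4 * k)))) ≤ Msum (rhoR g) Y := by
  obtain ⟨C1, hC1, hlow⟩ := T_lower k hk
  obtain ⟨A3, C3, a1, hA3, hC3, hka, hup⟩ := T_upper k hk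
  obtain ⟨C2, hC2, hsv⟩ := sieve2 k hk
  have hk0 : (0 : ℝ) < k := by exact_mod_cast hk
  refine ⟨A3, C1 + C3 + C2 * (a1 + C3) + C2 + k * A3, hA3, by positivity, ?_⟩
  set C : ℝ := C1 + C3 + C2 * (a1 + C3) + C2 + k * A3 with hC
  intro g hg hd hirr H hH hht E hE Y hY
  have hH0 : 0 < H := by linarith
  have hH1 : 1 ≤ H := by linarith
  have hHE : H ≤ E := by
    calc H = H ^ (1 : ℝ) := (Real.rpow_one H).symm
      _ ≤ H ^ A3 := Real.rpow_le_rpow_of_exponent_le hH1 hA3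
      _ ≤ E := hE
  have hE0 : 0 < E := by linarith
  have hlH0 : 0 ≤ Real.log H := Real.log_nonneg hH1
  have hlHE : Real.log H ≤ Real.log E := Real.log_le_log hH0 hHE
  have hlE0 : 0 ≤ Real.log E := hlH0.trans hlHE
  have hlY0 : 0 ≤ Real.log Y := Real.log_nonneg hY
  have hY0 : 0 < Y := by linarith
  set S := Ssum (rhoR g) E (Y ^ ((1 : ℝ) / (4 * k))) with hS
  have hmax : (0 : ℝ) < max 1 S := lt_of_lt_of_le one_pos (le_max_left _ _)
  have hC0 : 0 ≤ C := by rw [hC]; positivity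
  have hthird : 0 ≤ C * Real.log Y / max 1 S := by positivity
  by_cases hcase : Y < E ^ (k * A3)
  · -- trivial range
    have h1 : Real.log Y ≤ k * A3 * Real.log E := by
      rw [← Real.log_rpow hE0]
      exact Real.log_le_log hY0 hcase.le
    have h2 : k * A3 * Real.log E ≤ C * Real.log E := by
      refine mul_le_mul_of_nonneg_right ?_ hlE0
      rw [hC]
      have : 0 ≤ C1 + C3 + C2 * (a1 + C3) + C2 := by positivity
      linarith
    have h3 := lb_msum_nonneg g Y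
    linarith
  push Not at hcase
  obtain ⟨K, _, _, θ, hθ, hfr⟩ := nf_exists k hk g hg hd hirr
  -- the choice of `X`
  set R : ℝ := (Y * H ^ (a1 : ℝ)) ^ ((1 : ℝ) / k) with hR
  have hYH0 : 0 < Y * H ^ (a1 : ℝ) := by positivity
  have hR0 : 0 ≤ R := by rw [hR]; positivity
  set X : ℕ := ⌊R⌋₊ with hX
  have hXR : (X : ℝ) ≤ R := Nat.floor_le hR0
  have hYk : 1 ≤ Y ^ ((1 : ℝ) / k) := Real.one_le_rpow hY (by positivity)
  have hR2 : 2 * Y ^ ((1 : ℝ) / k) ≤ R := by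
    rw [hR, Real.mul_rpow hY0.le (by positivity), mul_comm]
    refine mul_le_mul_of_nonneg_left ?_ (by positivity)
    rw [← Real.rpow_mul hH0.le]
    calc (2 : ℝ) ≤ H := hH
      _ = H ^ (1 : ℝ) := (Real.rpow_one H).symm
      _ ≤ H ^ ((a1 : ℝ) * (1 / k)) := by
        refine Real.rpow_le_rpow_of_exponent_le hH1 ?_
        rw [mul_one_div, le_div_iff₀ hk0, one_mul]
        exact_mod_cast hka
  have hXY : Y ^ ((1 : ℝ) / k) ≤ X := by
    have := Nat.lt_floor_add_one R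
    rw [← hX] at this
    linarith
  have hX1 : 1 ≤ X := by
    have : (1 : ℝ) ≤ X := hYk.trans hXY
    exact_mod_cast this
  have hX0 : (0 : ℝ) < X := by exact_mod_cast hX1
  have hXE : E ^ A3 ≤ (X : ℝ) := by
    refine le_trans ?_ hXY
    calc E ^ A3 = (E ^ (k * A3)) ^ ((1 : ℝ) / k) := by
          rw [← Real.rpow_mul hE0.le]
          congr 1
          field_simp
      _ ≤ Y ^ ((1 : ℝ) / k) := Real.rpow_le_rpow (by positivity) hcase (by positivity)
  have hXk : (X : ℝ) ^ k ≤ Y * H ^ a1 := by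
    calc (X : ℝ) ^ k ≤ R ^ k := pow_le_pow_left₀ hX0.le hXR k
      _ = Y * H ^ a1 := by
        rw [hR, ← Real.rpow_natCast, ← Real.rpow_mul hYH0.le, one_div,
          inv_mul_cancel₀ hk0.ne', Real.rpow_one, Real.rpow_natCast]
  have hXk0 : (0 : ℝ) < (X : ℝ) ^ k := by positivity
  -- the ingredients
  have h1 := hlow K g hg hd hirr θ hθ hfr H hH hht X hX1
  have h2 := hup K g hg hd hirr θ hθ hfr H hH hht E hE X hXE
  have h3 := hsv g hg hd E hE0.le X hX1
  set F : ℝ := ((freeU g k X E ((X : ℝ) ^ ((1 : ℝ) / 4))).card : ℝ) with hF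
  set S' := Ssum (rhoR g) E ((X : ℝ) ^ ((1 : ℝ) / 4)) with hS'
  have hSS : S ≤ S' := by
    refine lb_ssum_mono g E ?_
    calc Y ^ ((1 : ℝ) / (4 * k)) = (Y ^ ((1 : ℝ) / k)) ^ ((1 : ℝ) / 4) := by
          rw [← Real.rpow_mul hY0.le]
          congr 1
          field_simp
      _ ≤ (X : ℝ) ^ ((1 : ℝ) / 4) := Real.rpow_le_rpow (by positivity) hXY (by norm_num)
  have hF0 : 0 ≤ F := Nat.cast_nonneg _
  have h4 : F * max 1 S ≤ C2 * (X : ℝ) ^ k :=
    (mul_le_mul_of_nonneg_left (max_le_max le_rfl hSS) hF0).trans h3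
  have h5 : F ≤ C2 / max 1 S * (X : ℝ) ^ k := by
    rw [div_mul_eq_mul_div, le_div_iff₀ hmax]
    exact h4
  have hM : Msum (rhoR g) ((X : ℝ) ^ k / H ^ a1) ≤ Msum (rhoR g) Y := by
    refine lb_msum_mono g ?_
    rw [div_le_iff₀ (by positivity)]
    exact hXk
  have hlX1 : Real.log Y ≤ k * Real.log X := by
    have := Real.log_le_log (by positivity) hXY
    rw [Real.log_rpow hY0] at this
    calc Real.log Y = k * (1 / k * Real.log Y) := by field_simp
      _ ≤ k * Real.log X := mul_le_mul_of_nonneg_left this hk0.le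
  have hlX2 : k * Real.log X ≤ Real.log Y + a1 * Real.log H := by
    have := Real.log_le_log hXk0 hXk
    rw [Real.log_pow, Real.log_mul hY0.ne' (by positivity), Real.log_pow] at this
    exact this
  -- divide by `X ^ k`
  have h6 : (X : ℝ) ^ k * (k * Real.log X - C1 * Real.log H) ≤
      (X : ℝ) ^ k * (Msum (rhoR g) Y + C3 * Real.log H +
        C2 / max 1 S * (k * Real.log X + C3 * Real.log H)) := by
    have hpos : 0 ≤ k * Real.log X + C3 * Real.log H := by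
      have : 0 ≤ C3 * Real.log H := by positivity
      linarith
    calc (X : ℝ) ^ k * (k * Real.log X - C1 * Real.log H)
        = (X : ℝ) ^ k * (k * Real.log X) - C1 * (X : ℝ) ^ k * Real.log H := by ring
      _ ≤ _ := h1
      _ ≤ _ := h2
      _ ≤ (X : ℝ) ^ k * (Msum (rhoR g) Y + C3 * Real.log H) +
          (C2 / max 1 S * (X : ℝ) ^ k) * (k * Real.log X + C3 * Real.log H) := by
          refine add_le_add ?_ (mul_le_mul_of_nonneg_right h5 hpos)
          exact mul_le_mul_of_nonneg_left (by linarith) hXk0.le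
      _ = _ := by ring
  have h7 := le_of_mul_le_mul_left h6 hXk0
  -- final estimate
  have hq0 : 0 ≤ C2 / max 1 S := by positivity
  have hq1 : C2 / max 1 S ≤ C2 := by
    rw [div_le_iff₀ hmax]
    exact le_mul_of_one_le_right hC2 (le_max_left _ _)
  have h8 : C2 / max 1 S * (k * Real.log X + C3 * Real.log H) ≤
      C2 * Real.log Y / max 1 S + C2 * (a1 + C3) * Real.log H := by
    calc C2 / max 1 S * (k * Real.log X + C3 * Real.log H)
        ≤ C2 / max 1 S * (Real.log Y + (a1 + C3) * Real.log H) :=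
          mul_le_mul_of_nonneg_left (by linarith) hq0
      _ = C2 * Real.log Y / max 1 S + C2 / max 1 S * ((a1 + C3) * Real.log H) := by ring
      _ ≤ C2 * Real.log Y / max 1 S + C2 * ((a1 + C3) * Real.log H) := by
          have : C2 / max 1 S * ((a1 + C3) * Real.log H) ≤ C2 * ((a1 + C3) * Real.log H) :=
            mul_le_mul_of_nonneg_right hq1 (by positivity)
          linarith
      _ = _ := by ring
  have h9 : C2 * Real.log Y / max 1 S ≤ C * Real.log Y / max 1 S := by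
    refine div_le_div_of_nonneg_right (mul_le_mul_of_nonneg_right ?_ hlY0) hmax.le
    rw [hC]
    have : 0 ≤ C1 + C3 + C2 * (a1 + C3) + k * A3 := by positivity
    linarith
  have h10 : (C1 + C3 + C2 * (a1 + C3)) * Real.log H ≤ C * Real.log E := by
    calc (C1 + C3 + C2 * (a1 + C3)) * Real.log H ≤ (C1 + C3 + C2 * (a1 + C3)) * Real.log E :=
          mul_le_mul_of_nonneg_left hlHE (by positivity)
      _ ≤ C * Real.log E := by
          refine mul_le_mul_of_nonneg_right ?_ hlE0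
          rw [hC]
          have : 0 ≤ C2 + k * A3 := by positivity
          linarith
  nlinarith

end EK75

end S_H75_EK_Lb
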