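import Mathlib
import Pool.Agent.H75.EM.L1

/-! Erdos-Kac law for integer parts of real polynomials, part L5: this file joins several modules to save build time. -/

section S_H75_EK_Grp

/-! Module GRP: few elements of a group act without fixed point on many independent transitive sets. -/

open Polynomial Finset
open scoped Real BigOperators

namespace EK75

open Classical in
theorem grp_burnside {G : Type*} [Group G] [Fintype G] {X : Type*} [Fintype X] [MulAction G X]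
    [Nonempty X] (htr : ∀ x x' : X, ∃ g : G, g • x = x') :
    ∑ g : G, Fintype.card (MulAction.fixedBy X g) = Fintype.card G := by
  have h := MulAction.sum_card_fixedBy_eq_card_orbits_mul_card_group G X
  rw [h]
  have h1 : Fintype.card (Quotient (MulAction.orbitRel G X)) = 1 := by
    rw [Fintype.card_eq_one_iff]
    obtain ⟨x0⟩ := (inferInstance : Nonempty X)
    refine ⟨Quotient.mk _ x0, ?_⟩
    intro y
    induction y using Quotient.inductionOn with
    | _ y =>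
      apply Quotient.sound
      obtain ⟨g, hg⟩ := htr x0 y
      exact ⟨g, hg⟩
  rw [h1, one_mul]

open Classical in
theorem ff_bound {G : Type*} [Group G] [Fintype G] (r k : ℕ) (Xs : Fin r → Type*)
    [∀ i, Fintype (Xs i)] [∀ i, MulAction G (Xs i)] (hcard : ∀ i, Fintype.card (Xs i) = k)
    (hk : 1 ≤ k) (htr : ∀ i, ∀ x x' : Xs i, ∃ g : G, g • x = x')
    (htr2 : ∀ i j, i ≠ j → ∀ x x' : Xs i, ∀ y y' : Xs j, ∃ g : G, g • x = x' ∧ g • y = y') :
    ((Finset.univ : Finset G).filter (fun g => ∀ i, ∀ x : Xs i, g • x ≠ x)).card * r ≤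
      k * Fintype.card G := by
  rcases Nat.eq_zero_or_pos r with hr | hr
  · subst hr; simp
  have hne : ∀ i, Nonempty (Xs i) := fun i => by
    rw [← Fintype.card_pos_iff, hcard i]; omega
  set f : Fin r → G → ℤ := fun i g => (Fintype.card (MulAction.fixedBy (Xs i) g) : ℤ) with hf
  have h1 : ∀ i, ∑ g : G, f i g = (Fintype.card G : ℤ) := by
    intro i
    have := grp_burnside (G := G) (X := Xs i) (htr i)
    simp only [hf]
    exact_mod_cast this
  have hfk : ∀ i g, f i g ≤ k := by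
    intro i g
    simp only [hf]
    have : Fintype.card (MulAction.fixedBy (Xs i) g) ≤ Fintype.card (Xs i) := by
      exact Fintype.card_subtype_le _
    rw [hcard i] at this
    exact_mod_cast this
  have hf0 : ∀ i g, 0 ≤ f i g := fun i g => by simp only [hf]; positivity
  have h2 : ∀ i j, i ≠ j → ∑ g : G, f i g * f j g = (Fintype.card G : ℤ) := by
    intro i j hij
    have hb := grp_burnside (G := G) (X := Xs i × Xs j) (by
      rintro ⟨x, y⟩ ⟨x', y'⟩
      obtain ⟨g, hg1, hg2⟩ := htr2 i j hij x x' y y'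
      exact ⟨g, by simp [Prod.smul_def, hg1, hg2]⟩)
    have hc : ∀ (g : G) (inst : Fintype (MulAction.fixedBy (Xs i × Xs j) g)),
        @Fintype.card (MulAction.fixedBy (Xs i × Xs j) g) inst =
        Fintype.card (MulAction.fixedBy (Xs i) g) * Fintype.card (MulAction.fixedBy (Xs j) g) := by
      intro g inst
      rw [← Fintype.card_prod]
      refine Fintype.card_congr ?_
      refine { toFun := fun z => (⟨z.1.1, ?_⟩, ⟨z.1.2, ?_⟩), invFun := fun z => ⟨(z.1.1, z.2.1), ?_⟩, left_inv := ?_, right_inv := ?_ }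
      · have := z.2
        rw [MulAction.mem_fixedBy] at this ⊢
        exact congrArg Prod.fst this
      · have := z.2
        rw [MulAction.mem_fixedBy] at this ⊢
        exact congrArg Prod.snd this
      · have h1 := z.1.2
        have h2 := z.2.2
        rw [MulAction.mem_fixedBy] at h1 h2 ⊢
        exact Prod.ext h1 h2
      · intro z; rfl
      · intro z; rfl
    simp only [hf]
    rw [← hb]
    push_cast
    refine Finset.sum_congr rfl fun g _ => ?_
    rw [hc g]; push_cast; rfl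
  have h3 : ∀ i, ∑ g : G, f i g * f i g ≤ k * (Fintype.card G : ℤ) := by
    intro i
    rw [← h1 i, Finset.mul_sum]
    refine Finset.sum_le_sum fun g _ => ?_
    exact mul_le_mul_of_nonneg_right (hfk i g) (hf0 i g)
  set S := (Finset.univ : Finset G).filter (fun g => ∀ i, ∀ x : Xs i, g • x ≠ x) with hS
  have h4 : ∑ g : G, (∑ i, (f i g - 1)) ^ 2 ≤ r * ((k : ℤ) * Fintype.card G) := by
    have e1 : ∀ g : G, (∑ i, (f i g - 1)) ^ 2 = ∑ i, ∑ j, (f i g - 1) * (f j g - 1) := by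
      intro g
      rw [sq, Finset.sum_mul_sum]
    simp_rw [e1]
    rw [Finset.sum_comm]
    have e2 : ∀ i : Fin r, ∑ g : G, ∑ j, (f i g - 1) * (f j g - 1) ≤ (k : ℤ) * Fintype.card G := by
      intro i
      rw [Finset.sum_comm]
      have e3 : ∀ j : Fin r, ∑ g : G, (f i g - 1) * (f j g - 1) =
          ∑ g : G, f i g * f j g - (Fintype.card G : ℤ) := by
        intro j
        have : ∀ g : G, (f i g - 1) * (f j g - 1) = f i g * f j g - f i g - f j g + 1 := by
          intro g; ring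
        simp_rw [this]
        rw [Finset.sum_add_distrib, Finset.sum_sub_distrib, Finset.sum_sub_distrib, h1 i, h1 j]
        simp
      simp_rw [e3]
      rw [← Finset.add_sum_erase _ _ (Finset.mem_univ i)]
      have e4 : ∑ j ∈ Finset.univ.erase i, (∑ g : G, f i g * f j g - (Fintype.card G : ℤ)) = 0 := by
        refine Finset.sum_eq_zero fun j hj => ?_
        rw [h2 i j (Finset.ne_of_mem_erase hj).symm]; ring
      rw [e4]
      have := h3 i
      have h5 : (0 : ℤ) ≤ Fintype.card G := by positivity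
      linarith
    calc ∑ i : Fin r, ∑ g : G, ∑ j, (f i g - 1) * (f j g - 1)
        ≤ ∑ i : Fin r, (k : ℤ) * Fintype.card G := Finset.sum_le_sum fun i _ => e2 i
      _ = r * ((k : ℤ) * Fintype.card G) := by simp
  have h5 : (S.card : ℤ) * (r : ℤ) ^ 2 ≤ ∑ g : G, (∑ i, (f i g - 1)) ^ 2 := by
    calc (S.card : ℤ) * (r : ℤ) ^ 2 = ∑ g ∈ S, (r : ℤ) ^ 2 := by simp
      _ ≤ ∑ g ∈ S, (∑ i, (f i g - 1)) ^ 2 := by
          refine Finset.sum_le_sum fun g hg => ?_
          have hg' := (Finset.mem_filter.mp hg).2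
          have : ∀ i, f i g = 0 := by
            intro i
            simp only [hf]
            rw [Nat.cast_eq_zero, Fintype.card_eq_zero_iff]
            refine ⟨fun z => ?_⟩
            exact hg' i z.1 (MulAction.mem_fixedBy.mp z.2)
          simp [this]
      _ ≤ _ := by
          refine Finset.sum_le_sum_of_subset_of_nonneg (Finset.subset_univ _) ?_
          intro g _ _
          positivity
  have h6 : (S.card : ℤ) * (r : ℤ) ^ 2 ≤ r * ((k : ℤ) * Fintype.card G) := h5.trans h4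
  have h7 : ((S.card : ℤ) * r) * r ≤ ((k : ℤ) * Fintype.card G) * r := by nlinarith [h6]
  have h8 : (S.card : ℤ) * r ≤ (k : ℤ) * Fintype.card G :=
    le_of_mul_le_mul_right h7 (by exact_mod_cast hr)
  exact_mod_cast h8

end EK75

end S_H75_EK_Grp

section S_H75_EK_Gal1

/-! Module GAL1: independence of the roots of successively irreducible polynomials. -/

open Polynomial Finset NumberField
open scoped Real BigOperators

namespace EK75

/-- the product over `ℚ` of the first polynomials of a list -/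
noncomputable def prodLt {r : ℕ} (g : Fin r → ℤ[X]) (i : ℕ) : ℚ[X] :=
  ∏ l ∈ (Finset.univ : Finset (Fin r)).filter (fun l => l.val < i), (g l).map (Int.castRingHom ℚ)

/-- `g i` is irreducible over the splitting field of the product of the `g l`, `l < i` -/
def SuccIrr {r : ℕ} (g : Fin r → ℤ[X]) : Prop :=
  ∀ i : Fin r, Irreducible ((g i).map (algebraMap ℤ (SplittingField (prodLt g i.val))))

theorem gal1_irrQ {r : ℕ} (g : Fin r → ℤ[X]) (hg : ∀ i, (g i).Monic) (hind : SuccIrr g)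
    (i : Fin r) : Irreducible ((g i).map (Int.castRingHom ℚ)) := by
  have h1 := hind i
  have h2 : (g i).map (algebraMap ℤ (SplittingField (prodLt g i.val))) =
      ((g i).map (Int.castRingHom ℚ)).map (algebraMap ℚ (SplittingField (prodLt g i.val))) := by
    rw [Polynomial.map_map]
    congr 1
  rw [h2] at h1
  exact Monic.irreducible_of_irreducible_map (algebraMap ℚ (SplittingField (prodLt g i.val))) _
    ((hg i).map _) h1

theorem gal1_mem_rootSet {M : Type} [Field M] [NumberField M] {g : ℤ[X]} (hg : g.Monic) {x : M} :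
    x ∈ g.rootSet M ↔ aeval x g = 0 :=
  by rw [mem_rootSet]; exact ⟨fun h => h.2, fun h => ⟨hg.ne_zero, h⟩⟩

/-- transitivity over a subfield over which `g` is irreducible -/
theorem gal1_trans_over {M : Type} [Field M] [NumberField M] [IsGalois ℚ M]
    (Ω : IntermediateField ℚ M) (g : ℤ[X]) (hg : g.Monic)
    (hirr : Irreducible (g.map (algebraMap ℤ Ω))) (x x' : M) (hx : aeval x g = 0)
    (hx' : aeval x' g = 0) : ∃ σ : M ≃ₐ[ℚ] M, σ x = x' ∧ ∀ z ∈ Ω, σ z = z := by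
  have hx1 : aeval x (g.map (algebraMap ℤ Ω)) = 0 := by rw [aeval_map_algebraMap, hx]
  have hx1' : aeval x' (g.map (algebraMap ℤ Ω)) = 0 := by rw [aeval_map_algebraMap, hx']
  have hmin : g.map (algebraMap ℤ Ω) = minpoly Ω x :=
    minpoly.eq_of_irreducible_of_monic hirr hx1 (hg.map _)
  have halg : IsAlgebraic Ω x := Algebra.IsAlgebraic.isAlgebraic x
  have hn : Normal Ω M := inferInstance
  obtain ⟨σ, hσ⟩ := minpoly.exists_algEquiv_of_root' (K := Ω) (L := M) (x := x') (y := x)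
    halg (by rw [← hmin]; exact hx1')
  refine ⟨AlgEquiv.restrictScalars ℚ σ, hσ, ?_⟩
  intro z hz
  exact σ.commutes (⟨z, hz⟩ : Ω)

theorem gal1_field {r : ℕ} (g : Fin r → ℤ[X]) (hind : SuccIrr g) (M : Type) [Field M]
    [NumberField M] (hsplit : ∀ i, ((g i).map (algebraMap ℤ M)).Splits) (j : Fin r) :
    Irreducible ((g j).map (algebraMap ℤ
      (IntermediateField.adjoin ℚ ((prodLt g j.val).rootSet M)))) := by
  have hs : ((prodLt g j.val).map (algebraMap ℚ M)).Splits := by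
    rw [prodLt, Polynomial.map_prod]
    apply Splits.prod
    intro l _
    have h0 : (algebraMap ℚ M).comp (Int.castRingHom ℚ) = algebraMap ℤ M := RingHom.ext_int _ _
    rw [Polynomial.map_map, h0]
    exact hsplit l
  have hsf : IsSplittingField ℚ (IntermediateField.adjoin ℚ ((prodLt g j.val).rootSet M))
    (prodLt g j.val) := IntermediateField.adjoin_rootSet_isSplittingField hs
  let e := IsSplittingField.algEquiv (IntermediateField.adjoin ℚ ((prodLt g j.val).rootSet M))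
    (prodLt g j.val)
  have h1 := hind j
  have h2 : (g j).map (algebraMap ℤ (IntermediateField.adjoin ℚ ((prodLt g j.val).rootSet M))) =
      Polynomial.mapEquiv e.symm.toRingEquiv
        ((g j).map (algebraMap ℤ (SplittingField (prodLt g j.val)))) := by
    rw [Polynomial.mapEquiv_apply, Polynomial.map_map]
    congr 1
    exact RingHom.ext_int _ _
  rw [h2]
  exact (MulEquiv.irreducible_iff (Polynomial.mapEquiv e.symm.toRingEquiv)).2 h1

theorem gal1_lt {r : ℕ} (g : Fin r → ℤ[X]) (hg : ∀ i, (g i).Monic)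
    (hind : SuccIrr g) (M : Type) [Field M] [NumberField M]
    [IsGalois ℚ M] (hsplit : ∀ i, ((g i).map (algebraMap ℤ M)).Splits)
    (htr : ∀ i, ∀ x x' : (g i).rootSet M, ∃ σ : M ≃ₐ[ℚ] M, σ x = x')
    (i j : Fin r) (hij : i < j) (x x' : (g i).rootSet M) (y y' : (g j).rootSet M) :
    ∃ σ : M ≃ₐ[ℚ] M, σ x = x' ∧ σ y = y' := by
  obtain ⟨σ1, h1⟩ := htr i x x'
  have hy : aeval (σ1 y : M) (g j) = 0 := by
    have h2 : aeval (y : M) (g j) = 0 := (gal1_mem_rootSet (hg j)).1 y.2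
    have h3 := Polynomial.aeval_algHom_apply (σ1.toAlgHom.restrictScalars ℤ) (y : M) (g j)
    rw [h2, map_zero] at h3
    exact h3
  have hy' : aeval (y' : M) (g j) = 0 := (gal1_mem_rootSet (hg j)).1 y'.2
  obtain ⟨σ2, h2, h3⟩ := gal1_trans_over _ (g j) (hg j) (gal1_field g hind M hsplit j)
    (σ1 y) y' hy hy'
  refine ⟨σ1.trans σ2, ?_, h2⟩
  have h4 : (x' : M) ∈ IntermediateField.adjoin ℚ ((prodLt g j.val).rootSet M) := by
    apply IntermediateField.subset_adjoin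
    rw [mem_rootSet]
    constructor
    · rw [prodLt, Finset.prod_ne_zero_iff]
      intro l _
      exact ((hg l).map _).ne_zero
    · rw [prodLt, map_prod, Finset.prod_eq_zero_iff]
      refine ⟨i, Finset.mem_filter.2 ⟨Finset.mem_univ _, hij⟩, ?_⟩
      have h5 : aeval (x' : M) (g i) = 0 := (gal1_mem_rootSet (hg i)).1 x'.2
      have h6 : (Int.castRingHom ℚ) = algebraMap ℤ ℚ := rfl
      rw [h6, aeval_map_algebraMap, h5]
  change σ2 (σ1 x) = x'
  rw [h1]
  exact h3 _ h4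

/-- in any Galois number field containing all roots: transitivity on pairs of roots -/
theorem gal_trans {r : ℕ} (k : ℕ) (hk : 1 ≤ k) (g : Fin r → ℤ[X]) (hg : ∀ i, (g i).Monic)
    (hd : ∀ i, (g i).natDegree = k) (hind : SuccIrr g) (M : Type) [Field M] [NumberField M]
    [IsGalois ℚ M] (hsplit : ∀ i, ((g i).map (algebraMap ℤ M)).Splits) :
    (∀ i, Fintype.card ((g i).rootSet M) = k) ∧
    (∀ i, ∀ x x' : (g i).rootSet M, ∃ σ : M ≃ₐ[ℚ] M, σ x = x') ∧
    (∀ i j, i ≠ j → ∀ x x' : (g i).rootSet M, ∀ y y' : (g j).rootSet M,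
      ∃ σ : M ≃ₐ[ℚ] M, σ x = x' ∧ σ y = y') := by
  have htr : ∀ i, ∀ x x' : (g i).rootSet M, ∃ σ : M ≃ₐ[ℚ] M, σ x = x' := by
    intro i x x'
    have hx : aeval (x : M) (g i) = 0 := (gal1_mem_rootSet (hg i)).1 x.2
    have hx' : aeval (x' : M) (g i) = 0 := (gal1_mem_rootSet (hg i)).1 x'.2
    have hirr := gal1_irrQ g hg hind i
    have h6 : (Int.castRingHom ℚ) = algebraMap ℤ ℚ := rfl
    have hx1 : aeval (x : M) ((g i).map (Int.castRingHom ℚ)) = 0 := by
      rw [h6, aeval_map_algebraMap, hx]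
    have hx1' : aeval (x' : M) ((g i).map (Int.castRingHom ℚ)) = 0 := by
      rw [h6, aeval_map_algebraMap, hx']
    have hmin : (g i).map (Int.castRingHom ℚ) = minpoly ℚ (x : M) :=
      minpoly.eq_of_irreducible_of_monic hirr hx1 ((hg i).map _)
    exact minpoly.exists_algEquiv_of_root' (K := ℚ) (L := M)
      (Algebra.IsAlgebraic.isAlgebraic (x : M)) (by rw [← hmin]; exact hx1')
  refine ⟨?_, htr, ?_⟩
  · intro i
    have hirr := gal1_irrQ g hg hind i
    have hsep : ((g i).map (Int.castRingHom ℚ)).Separable := hirr.separable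
    have h1 : (((g i).map (Int.castRingHom ℚ)).map (algebraMap ℚ M)).Splits := by
      have h0 : (algebraMap ℚ M).comp (Int.castRingHom ℚ) = algebraMap ℤ M := RingHom.ext_int _ _
      rw [Polynomial.map_map, h0]; exact hsplit i
    have h2 := card_rootSet_eq_natDegree hsep h1
    have h3 : ((g i).map (Int.castRingHom ℚ)).rootSet M = (g i).rootSet M := by
      ext z
      have h6 : (Int.castRingHom ℚ) = algebraMap ℤ ℚ := rfl
      rw [gal1_mem_rootSet (hg i), mem_rootSet, h6, aeval_map_algebraMap]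
      exact ⟨fun h => h.2, fun h => ⟨((hg i).map _).ne_zero, h⟩⟩
    rw [(hg i).natDegree_map, hd i] at h2
    rw [← h2]
    exact Fintype.card_congr (Equiv.setCongr h3.symm)
  · intro i j hij x x' y y'
    rcases lt_or_gt_of_ne hij with h | h
    · exact gal1_lt g hg hind M hsplit htr i j h x x' y y'
    · obtain ⟨σ, h1, h2⟩ := gal1_lt g hg hind M hsplit htr j i h y y' x x'
      exact ⟨σ, h2, h1⟩

end EK75

end S_H75_EK_Gal1

section S_H75_EK_Gal2

/-! Module GAL2: generators of the fixed fields of cyclic subgroups, of controlled height. -/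

open Polynomial Finset NumberField
open scoped Real BigOperators

namespace EK75

/-- Properties of an integral generator `β` (with minimal polynomial `h`) of the fixed field of `⟨τ⟩`;
`Δ` is a nonzero multiple of all primes modulo which two conjugates of `β` may collide. -/
structure CycGen (M : Type) [Field M] [NumberField M] (τ : M ≃ₐ[ℚ] M) (h : ℤ[X]) (β : 𝓞 M) (Δ : ℕ) :
    Prop where
  monic : h.Monic
  irr : Irreducible h
  deg : h.natDegree * orderOf τ = Module.finrank ℚ M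
  root : aeval β h = 0
  fix : ∀ σ : M ≃ₐ[ℚ] M, σ • β = β ↔ σ ∈ Subgroup.zpowers τ
  pos : 1 ≤ Δ
  sep : ∀ (P : Ideal (𝓞 M)) (p : ℕ), P.IsPrime → p.Prime → (p : 𝓞 M) ∈ P → ¬ p ∣ Δ →
    ∀ σ σ' : M ≃ₐ[ℚ] M, σ • β - σ' • β ∈ P → σ • β = σ' • β

section gal2

variable {M : Type} [Field M] [NumberField M]

theorem gal2_prod_le {ι : Type*} (s : Finset ι) (f : ι → ℝ) (C : ℝ) (h0 : ∀ i, 0 ≤ f i)
    (h : ∀ i, f i ≤ C) : ∏ i ∈ s, f i ≤ C ^ s.card := by
  rw [← Finset.prod_const]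
  exact Finset.prod_le_prod (fun i _ => h0 i) (fun i _ => h i)

theorem gal2_coe_smul (σ : M ≃ₐ[ℚ] M) (x : 𝓞 M) : ((σ • x : 𝓞 M) : M) = σ (x : M) := rfl

/-- a nonzero polynomial of degree at most `n` has a non-root among `0, ..., n` -/
theorem gal2_nonroot (P : M[X]) (hP : P ≠ 0) (n : ℕ) (hn : P.natDegree ≤ n) :
    ∃ c : ℕ, c ≤ n ∧ P.eval (c : M) ≠ 0 := by
  by_contra hcon
  apply hP
  refine Polynomial.eq_zero_of_natDegree_lt_card_of_eval_eq_zero' P
    ((range (n + 1)).map ⟨fun c : ℕ => (c : M), Nat.cast_injective⟩) ?_ ?_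
  · intro i hi
    rw [Finset.mem_map] at hi
    obtain ⟨c, hc, rfl⟩ := hi
    by_contra hne
    exact hcon ⟨c, Nat.lt_succ_iff.1 (Finset.mem_range.1 hc), hne⟩
  · rw [Finset.card_map, Finset.card_range]
    omega

/-- an automorphism which fixes a set of generators is trivial -/
theorem gal2_eq_one (S : Set M) (hgen : IntermediateField.adjoin ℚ S = ⊤) (σ : M ≃ₐ[ℚ] M)
    (h : ∀ z ∈ S, σ z = z) : σ = 1 := by
  let E : IntermediateField ℚ M :=
    { carrier := {x | σ x = x}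
      mul_mem' := by
        intro a b ha hb
        change σ (a * b) = a * b
        rw [map_mul, show σ a = a from ha, show σ b = b from hb]
      add_mem' := by
        intro a b ha hb
        change σ (a + b) = a + b
        rw [map_add, show σ a = a from ha, show σ b = b from hb]
      algebraMap_mem' := fun r => σ.commutes r
      inv_mem' := by
        intro a ha
        change σ a⁻¹ = a⁻¹
        rw [map_inv₀, show σ a = a from ha] }
  have h1 : IntermediateField.adjoin ℚ S ≤ E := by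
    rw [IntermediateField.adjoin_le_iff]
    intro z hz
    exact h z hz
  rw [hgen] at h1
  ext x
  have h2 : x ∈ E := h1 IntermediateField.mem_top
  exact h2

theorem gal2_card [IsGalois ℚ M] [Fintype (M ≃ₐ[ℚ] M)] :
    Fintype.card (M ≃ₐ[ℚ] M) = Module.finrank ℚ M := by
  rw [← Nat.card_eq_fintype_card]
  exact IsGalois.card_aut_eq_finrank ℚ M

theorem gal2_gamma [IsGalois ℚ M] (D : ℕ) (hD : Module.finrank ℚ M ≤ D) (H : ℝ) (hH : 2 ≤ H)
    (S : Finset (𝓞 M)) (hS : S.card ≤ D)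
    (hgen : IntermediateField.adjoin ℚ ((fun z : 𝓞 M => (z : M)) '' (S : Set (𝓞 M))) = ⊤)
    (hb : ∀ z ∈ S, ∀ σ : M →+* ℂ, ‖σ (z : M)‖ ≤ H) :
    ∃ γ : 𝓞 M, (∀ σ : M ≃ₐ[ℚ] M, σ • γ = γ → σ = 1) ∧
      ∀ φ : M →+* ℂ, ‖φ (γ : M)‖ ≤ ((D * (D ^ 2 + 1) ^ D : ℕ) : ℝ) * H := by
  classical
  have : Fintype (M ≃ₐ[ℚ] M) := Fintype.ofFinite _
  let e := S.equivFin
  let P : (M ≃ₐ[ℚ] M) → M[X] := fun σ => ∑ z : S, C (σ ((z : 𝓞 M) : M) - ((z : 𝓞 M) : M)) * X ^ (e z : ℕ)
  have hP : ∀ σ : M ≃ₐ[ℚ] M, σ ≠ 1 → P σ ≠ 0 := by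
    intro σ hσ hP0
    apply hσ
    refine gal2_eq_one _ hgen σ ?_
    rintro _ ⟨z, hz, rfl⟩
    have h1 : (P σ).coeff (e ⟨z, hz⟩ : ℕ) = 0 := by rw [hP0]; simp
    simp only [P, finsetSum_coeff, coeff_C_mul, coeff_X_pow] at h1
    rw [Finset.sum_eq_single (⟨z, hz⟩ : S)] at h1
    · simp at h1
      exact sub_eq_zero.1 h1
    · intro b _ hb'
      have : (e ⟨z, hz⟩ : ℕ) ≠ (e b : ℕ) := by
        intro h2
        exact hb' (e.injective (Fin.ext h2)).symm
      simp [this]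
    · intro hn; exact absurd (Finset.mem_univ _) hn
  have hdeg : ∀ σ : M ≃ₐ[ℚ] M, (P σ).natDegree ≤ D := by
    intro σ
    refine natDegree_sum_le_of_forall_le _ _ ?_
    intro z _
    refine (natDegree_C_mul_X_pow_le _ _).trans ?_
    have := (e z).2
    omega
  have hcard : Fintype.card (M ≃ₐ[ℚ] M) ≤ D := by rw [gal2_card]; exact hD
  let Q : M[X] := ∏ σ ∈ (univ : Finset (M ≃ₐ[ℚ] M)).erase 1, P σ
  have hQ : Q ≠ 0 := by
    rw [Finset.prod_ne_zero_iff]
    intro σ hσ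
    exact hP σ (Finset.ne_of_mem_erase hσ)
  have hQd : Q.natDegree ≤ D ^ 2 := by
    refine (natDegree_prod_le _ _).trans ?_
    refine (Finset.sum_le_card_nsmul _ _ D (fun σ _ => hdeg σ)).trans ?_
    rw [smul_eq_mul, pow_two]
    refine Nat.mul_le_mul_right _ ?_
    exact (Finset.card_le_univ _).trans hcard
  obtain ⟨c, hc, hcQ⟩ := gal2_nonroot Q hQ (D ^ 2) hQd
  rw [eval_prod, Finset.prod_ne_zero_iff] at hcQ
  refine ⟨∑ z : S, (c : 𝓞 M) ^ (e z : ℕ) * (z : 𝓞 M), ?_, ?_⟩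
  · intro σ hσ
    by_contra hne
    apply hcQ σ (Finset.mem_erase.2 ⟨hne, Finset.mem_univ _⟩)
    have h1 := congrArg (fun x : 𝓞 M => (x : M)) hσ
    simp only [gal2_coe_smul] at h1
    simp only [map_sum, map_mul, map_pow, map_natCast] at h1
    simp only [P, eval_finsetSum, eval_mul, eval_C, eval_pow, eval_X]
    have h2 : ∑ z : S, (σ ((z : 𝓞 M) : M) - ((z : 𝓞 M) : M)) * (c : M) ^ (e z : ℕ) =
        ∑ z : S, (c : M) ^ (e z : ℕ) * σ ((z : 𝓞 M) : M) - ∑ z : S, (c : M) ^ (e z : ℕ) * ((z : 𝓞 M) : M) := by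
      rw [← Finset.sum_sub_distrib]
      exact Finset.sum_congr rfl fun z _ => by ring
    rw [h2, sub_eq_zero]
    exact h1
  · intro φ
    simp only [map_sum, map_mul, map_pow, map_natCast]
    refine (norm_sum_le _ _).trans ?_
    have hH0 : (0 : ℝ) ≤ H := by linarith
    have h1 : ∀ z : S, ‖(c : ℂ) ^ (e z : ℕ) * φ ((z : 𝓞 M) : M)‖ ≤ ((D ^ 2 + 1 : ℕ) : ℝ) ^ D * H := by
      intro z
      rw [norm_mul, norm_pow, Complex.norm_natCast]
      refine mul_le_mul ?_ (hb z z.2 φ) (norm_nonneg _) (by positivity)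
      calc (c : ℝ) ^ (e z : ℕ) ≤ ((D ^ 2 + 1 : ℕ) : ℝ) ^ (e z : ℕ) := by
            refine pow_le_pow_left₀ (by positivity) ?_ _
            exact_mod_cast hc.trans (Nat.le_succ _)
        _ ≤ ((D ^ 2 + 1 : ℕ) : ℝ) ^ D := by
            refine pow_le_pow_right₀ ?_ ?_
            · exact_mod_cast Nat.succ_le_succ (Nat.zero_le _)
            · have := (e z).2
              omega
    refine (Finset.sum_le_card_nsmul _ _ _ (fun z _ => h1 z)).trans ?_
    rw [nsmul_eq_mul, Finset.card_univ, Fintype.card_coe]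
    have h2 : (S.card : ℝ) ≤ D := by exact_mod_cast hS
    push_cast
    rw [mul_assoc]
    exact mul_le_mul_of_nonneg_right h2 (by positivity)

theorem gal2_comp_norm (τ : M ≃ₐ[ℚ] M) (x : 𝓞 M) (B : ℝ) (hB : ∀ φ : M →+* ℂ, ‖φ (x : M)‖ ≤ B)
    (φ : M →+* ℂ) : ‖φ ((τ • x : 𝓞 M) : M)‖ ≤ B :=
  hB (φ.comp (τ : M →+* M))

theorem gal2_beta [IsGalois ℚ M] (D : ℕ) (hD : Module.finrank ℚ M ≤ D) (γ : 𝓞 M)
    (hγ : ∀ σ : M ≃ₐ[ℚ] M, σ • γ = γ → σ = 1) (B : ℝ) (hB0 : 0 ≤ B)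
    (hB : ∀ φ : M →+* ℂ, ‖φ (γ : M)‖ ≤ B) (τ : M ≃ₐ[ℚ] M) :
    ∃ β : 𝓞 M, (∀ σ : M ≃ₐ[ℚ] M, σ • β = β ↔ σ ∈ Subgroup.zpowers τ) ∧
      ∀ φ : M →+* ℂ, ‖φ (β : M)‖ ≤ (((D ^ 2 + 1 : ℕ) : ℝ) + B) ^ D := by
  classical
  have : Fintype (M ≃ₐ[ℚ] M) := Fintype.ofFinite _
  have : Fintype (Subgroup.zpowers τ) := Fintype.ofFinite _
  let P : (M ≃ₐ[ℚ] M) → M[X] := fun σ => ∏ g : Subgroup.zpowers τ, (X - C (σ ((g : M ≃ₐ[ℚ] M) (γ : M))))
  have hcard : Fintype.card (M ≃ₐ[ℚ] M) ≤ D := by rw [gal2_card]; exact hD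
  have hcard' : Fintype.card (Subgroup.zpowers τ) ≤ D :=
    (Fintype.card_le_of_injective _ Subtype.val_injective).trans hcard
  have hdeg : ∀ σ : M ≃ₐ[ℚ] M, (P σ).natDegree ≤ D := by
    intro σ
    refine (natDegree_prod_le _ _).trans ?_
    refine (Finset.sum_le_card_nsmul _ _ 1 (fun g _ => ?_)).trans ?_
    · rw [natDegree_X_sub_C]
    · simpa using hcard'
  have hP : ∀ σ : M ≃ₐ[ℚ] M, σ ∉ Subgroup.zpowers τ → P 1 - P σ ≠ 0 := by
    intro σ hσ h0
    have h1 := congrArg (fun R : M[X] => R.eval (γ : M)) h0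
    simp only [eval_sub, eval_zero, P, eval_prod, eval_X, eval_C] at h1
    rw [sub_eq_zero] at h1
    have h2 : ∏ g : Subgroup.zpowers τ, ((γ : M) - (1 : M ≃ₐ[ℚ] M) ((g : M ≃ₐ[ℚ] M) (γ : M))) = 0 := by
      apply Finset.prod_eq_zero (Finset.mem_univ (1 : Subgroup.zpowers τ))
      simp
    rw [h2] at h1
    have h3 := h1.symm
    rw [Finset.prod_eq_zero_iff] at h3
    obtain ⟨g, _, hg⟩ := h3
    rw [sub_eq_zero] at hg
    have h4 : (σ * g : M ≃ₐ[ℚ] M) • γ = γ := by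
      apply RingOfIntegers.ext
      exact hg.symm
    have h5 := hγ _ h4
    apply hσ
    have h6 : σ = (g : M ≃ₐ[ℚ] M)⁻¹ := eq_inv_of_mul_eq_one_left h5
    rw [h6]
    exact Subgroup.inv_mem _ g.2
  let Q : M[X] := ∏ σ ∈ (univ : Finset (M ≃ₐ[ℚ] M)).filter (fun σ => σ ∉ Subgroup.zpowers τ), (P 1 - P σ)
  have hQ : Q ≠ 0 := by
    rw [Finset.prod_ne_zero_iff]
    intro σ hσ
    exact hP σ (Finset.mem_filter.1 hσ).2
  have hQd : Q.natDegree ≤ D ^ 2 := by
    refine (natDegree_prod_le _ _).trans ?_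
    refine (Finset.sum_le_card_nsmul _ _ D (fun σ _ => ?_)).trans ?_
    · exact (natDegree_sub_le _ _).trans (max_le (hdeg 1) (hdeg σ))
    · rw [smul_eq_mul, pow_two]
      refine Nat.mul_le_mul_right _ ?_
      exact (Finset.card_le_univ _).trans hcard
  obtain ⟨c, hc, hcQ⟩ := gal2_nonroot Q hQ (D ^ 2) hQd
  rw [eval_prod, Finset.prod_ne_zero_iff] at hcQ
  have hcoe : ∀ σ : M ≃ₐ[ℚ] M,
      ((σ • (∏ g : Subgroup.zpowers τ, ((c : 𝓞 M) - (g : M ≃ₐ[ℚ] M) • γ)) : 𝓞 M) : M) =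
        (P σ).eval (c : M) := by
    intro σ
    rw [gal2_coe_smul]
    simp only [P, eval_prod, eval_sub, eval_X, eval_C, map_prod, map_sub, map_natCast, gal2_coe_smul]
  refine ⟨∏ g : Subgroup.zpowers τ, ((c : 𝓞 M) - (g : M ≃ₐ[ℚ] M) • γ), ?_, ?_⟩
  · intro σ
    constructor
    · intro h
      by_contra hσ
      apply hcQ σ (Finset.mem_filter.2 ⟨Finset.mem_univ _, hσ⟩)
      rw [eval_sub, ← hcoe, ← hcoe, h, one_smul, sub_self]
    · intro hσ
      rw [Finset.smul_prod']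
      have h1 : ∀ g : Subgroup.zpowers τ, σ • ((c : 𝓞 M) - (g : M ≃ₐ[ℚ] M) • γ) =
          (c : 𝓞 M) - (((⟨σ, hσ⟩ * g : Subgroup.zpowers τ) : M ≃ₐ[ℚ] M)) • γ := by
        intro g
        rw [smul_sub, Subgroup.coe_mul, mul_smul]
        congr 1
        apply RingOfIntegers.ext
        rw [gal2_coe_smul]
        simp
      rw [Finset.prod_congr rfl fun g _ => h1 g]
      exact Equiv.prod_comp (Equiv.mulLeft (⟨σ, hσ⟩ : Subgroup.zpowers τ))
        (fun g => (c : 𝓞 M) - (g : M ≃ₐ[ℚ] M) • γ)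
  · intro φ
    simp only [map_prod, map_sub, map_natCast, norm_prod]
    have hbase : (1 : ℝ) ≤ ((D ^ 2 + 1 : ℕ) : ℝ) + B := by
      have : (1 : ℝ) ≤ ((D ^ 2 + 1 : ℕ) : ℝ) := by exact_mod_cast Nat.succ_le_succ (Nat.zero_le _)
      linarith
    have h1 : ∀ g : Subgroup.zpowers τ, ‖(c : ℂ) - φ (((g : M ≃ₐ[ℚ] M) • γ : 𝓞 M) : M)‖ ≤
        ((D ^ 2 + 1 : ℕ) : ℝ) + B := by
      intro g
      refine (norm_sub_le _ _).trans ?_
      rw [Complex.norm_natCast]
      have h2 : (c : ℝ) ≤ ((D ^ 2 + 1 : ℕ) : ℝ) := by exact_mod_cast hc.trans (Nat.le_succ _)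
      have h3 := gal2_comp_norm (g : M ≃ₐ[ℚ] M) γ B hB φ
      linarith
    refine (gal2_prod_le _ _ _ (fun g => norm_nonneg _) (fun g => h1 g)).trans ?_
    exact pow_le_pow_right₀ hbase (by simpa using hcard')

theorem gal2_minpoly (β : 𝓞 M) :
    minpoly ℚ (β : M) = (minpoly ℤ β).map (algebraMap ℤ ℚ) := by
  rw [← RingOfIntegers.minpoly_coe]
  exact minpoly.isIntegrallyClosed_eq_field_fractions' ℚ (RingOfIntegers.isIntegral_coe β)

theorem gal2_deg [IsGalois ℚ M] (τ : M ≃ₐ[ℚ] M) (β : 𝓞 M)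
    (hfix : ∀ σ : M ≃ₐ[ℚ] M, σ • β = β ↔ σ ∈ Subgroup.zpowers τ) :
    (minpoly ℤ β).natDegree * orderOf τ = Module.finrank ℚ M := by
  have hmon : (minpoly ℤ β).Monic := minpoly.monic (RingOfIntegers.isIntegral β)
  have h1 : (minpoly ℤ β).natDegree = (minpoly ℚ (β : M)).natDegree := by
    rw [gal2_minpoly, hmon.natDegree_map]
  have hint : IsIntegral ℚ (β : M) := Algebra.IsIntegral.isIntegral _
  have h2 := IntermediateField.adjoin.finrank hint
  have h3 := IsGalois.card_fixingSubgroup_eq_finrank (IntermediateField.adjoin ℚ {(β : M)})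
  have h4 : (IntermediateField.adjoin ℚ {(β : M)}).fixingSubgroup = Subgroup.zpowers τ := by
    ext σ
    rw [← hfix σ, IntermediateField.mem_fixingSubgroup_iff]
    constructor
    · intro h
      apply RingOfIntegers.ext
      exact h _ (IntermediateField.mem_adjoin_simple_self ℚ (β : M))
    · intro h
      let E : IntermediateField ℚ M :=
        { carrier := {x | σ x = x}
          mul_mem' := by
            intro a b ha hb
            change σ (a * b) = a * b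
            rw [map_mul, show σ a = a from ha, show σ b = b from hb]
          add_mem' := by
            intro a b ha hb
            change σ (a + b) = a + b
            rw [map_add, show σ a = a from ha, show σ b = b from hb]
          algebraMap_mem' := fun r => σ.commutes r
          inv_mem' := by
            intro a ha
            change σ a⁻¹ = a⁻¹
            rw [map_inv₀, show σ a = a from ha] }
      have hE : IntermediateField.adjoin ℚ {(β : M)} ≤ E := by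
        rw [IntermediateField.adjoin_le_iff, Set.singleton_subset_iff]
        exact congrArg (fun x : 𝓞 M => (x : M)) h
      intro x hx
      exact hE hx
  rw [h4, Nat.card_zpowers] at h3
  rw [h1, ← h2, h3]
  exact Module.finrank_mul_finrank ℚ _ M

theorem gal2_coeff (D : ℕ) (hD : Module.finrank ℚ M ≤ D) (β : 𝓞 M) (B : ℝ) (hB1 : 1 ≤ B)
    (hB : ∀ φ : M →+* ℂ, ‖φ (β : M)‖ ≤ B) : HtLe (minpoly ℤ β) ((2 * B) ^ D) := by
  intro i
  have h1 := NumberField.Embeddings.coeff_bdd_of_norm_le hB i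
  rw [gal2_minpoly, coeff_map] at h1
  have h2 : ‖(algebraMap ℤ ℚ) ((minpoly ℤ β).coeff i)‖ = |(((minpoly ℤ β).coeff i : ℤ) : ℝ)| := by
    rw [← Rat.norm_cast_real, Real.norm_eq_abs]
    simp
  rw [h2, max_eq_left hB1] at h1
  refine h1.trans ?_
  have h3 : ((Module.finrank ℚ M).choose (Module.finrank ℚ M / 2) : ℝ) ≤ 2 ^ D := by
    have : (Module.finrank ℚ M).choose (Module.finrank ℚ M / 2) ≤ 2 ^ D :=
      (Nat.choose_le_two_pow _ _).trans (Nat.pow_le_pow_right (by norm_num) hD)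
    exact_mod_cast this
  rw [mul_pow, mul_comm]
  exact mul_le_mul h3 (pow_le_pow_right₀ hB1 hD) (by positivity) (by positivity)

theorem gal2_Delta [IsGalois ℚ M] (D : ℕ) (hD : Module.finrank ℚ M ≤ D) (β : 𝓞 M) (B : ℝ)
    (hB1 : 1 ≤ B) (hB : ∀ φ : M →+* ℂ, ‖φ (β : M)‖ ≤ B) :
    ∃ Δ : ℕ, 1 ≤ Δ ∧ (Δ : ℝ) ≤ (2 * B) ^ (D ^ 3) ∧
      ∀ (P : Ideal (𝓞 M)) (p : ℕ), P.IsPrime → p.Prime → (p : 𝓞 M) ∈ P → ¬ p ∣ Δ →
        ∀ σ σ' : M ≃ₐ[ℚ] M, σ • β - σ' • β ∈ P → σ • β = σ' • β := by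
  classical
  have : Fintype (M ≃ₐ[ℚ] M) := Fintype.ofFinite _
  have hcard : Fintype.card (M ≃ₐ[ℚ] M) ≤ D := by rw [gal2_card]; exact hD
  let f : (M ≃ₐ[ℚ] M) → (M ≃ₐ[ℚ] M) → 𝓞 M := fun σ σ' =>
    if σ • β = σ' • β then 1 else σ • β - σ' • β
  let δ : 𝓞 M := ∏ σ : M ≃ₐ[ℚ] M, ∏ σ' : M ≃ₐ[ℚ] M, f σ σ'
  have hδ : δ ≠ 0 := by
    rw [Finset.prod_ne_zero_iff]
    intro σ _
    rw [Finset.prod_ne_zero_iff]
    intro σ' _
    simp only [f]
    split_ifs with h
    · exact one_ne_zero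
    · exact sub_ne_zero.2 h
  have hB2 : (1 : ℝ) ≤ 2 * B := by linarith
  have hfb : ∀ (φ : M →+* ℂ) (σ σ' : M ≃ₐ[ℚ] M), ‖φ ((f σ σ' : 𝓞 M) : M)‖ ≤ 2 * B := by
    intro φ σ σ'
    simp only [f]
    split_ifs with h
    · simp only [map_one, norm_one]; exact hB2
    · simp only [map_sub]
      refine (norm_sub_le _ _).trans ?_
      have h1 := gal2_comp_norm σ β B hB φ
      have h2 := gal2_comp_norm σ' β B hB φ
      linarith
  have hδb : ∀ φ : M →+* ℂ, ‖φ (δ : M)‖ ≤ (2 * B) ^ (D ^ 2) := by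
    intro φ
    simp only [δ, map_prod, norm_prod]
    have h1 : ∀ σ : M ≃ₐ[ℚ] M, ∏ σ' : M ≃ₐ[ℚ] M, ‖φ ((f σ σ' : 𝓞 M) : M)‖ ≤ (2 * B) ^ D := by
      intro σ
      refine (gal2_prod_le _ _ _ (fun σ' => norm_nonneg _) (fun σ' => hfb φ σ σ')).trans ?_
      exact pow_le_pow_right₀ hB2 (by simpa using hcard)
    refine (gal2_prod_le _ _ _ (fun σ => Finset.prod_nonneg fun σ' _ => norm_nonneg _) (fun σ => h1 σ)).trans ?_
    rw [← pow_mul]
    refine pow_le_pow_right₀ hB2 ?_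
    rw [pow_two]
    exact Nat.mul_le_mul_left _ (by simpa using hcard)
  refine ⟨Ideal.absNorm (Ideal.span {δ}), ?_, ?_, ?_⟩
  · rw [Nat.one_le_iff_ne_zero, Ideal.absNorm_span_singleton, Int.natAbs_ne_zero]
    exact Algebra.norm_ne_zero_iff.2 hδ
  · have h1 : (Ideal.absNorm (Ideal.span {δ}) : ℝ) = ‖(algebraMap ℚ ℂ) (Algebra.norm ℚ (δ : M))‖ := by
      rw [Ideal.absNorm_span_singleton, ← Algebra.coe_norm_int]
      simp [Nat.cast_natAbs]
    rw [h1, Algebra.norm_eq_prod_embeddings ℚ ℂ (δ : M), norm_prod]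
    refine (gal2_prod_le _ (fun φ : M →ₐ[ℚ] ℂ => ‖φ (δ : M)‖) ((2 * B) ^ (D ^ 2)) (fun φ => norm_nonneg _) (fun φ => hδb (φ : M →+* ℂ))).trans ?_
    rw [← pow_mul]
    refine pow_le_pow_right₀ hB2 ?_
    rw [Finset.card_univ, AlgHom.card, pow_succ D 2]
    exact Nat.mul_le_mul_left _ hD
  · intro P p hP hp hpP hpΔ σ σ' hσ
    by_contra hne
    apply hP.ne_top
    have h1 : δ ∈ P := by
      have h2 : f σ σ' ∈ P := by
        simp only [f, if_neg hne]
        exact hσ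
      have h3 : (∏ σ'' : M ≃ₐ[ℚ] M, f σ σ'') ∈ P :=
        P.mem_of_dvd (Finset.dvd_prod_of_mem _ (Finset.mem_univ σ')) h2
      exact P.mem_of_dvd (Finset.dvd_prod_of_mem (fun σ : M ≃ₐ[ℚ] M => ∏ σ'' : M ≃ₐ[ℚ] M, f σ σ'')
        (Finset.mem_univ σ)) h3
    have h2 : ((Ideal.absNorm (Ideal.span {δ}) : ℕ) : 𝓞 M) ∈ P := by
      have h3 := Ideal.absNorm_mem (Ideal.span {δ})
      have h4 : Ideal.span {δ} ≤ P := by
        rw [Ideal.span_le, Set.singleton_subset_iff]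
        exact h1
      exact h4 h3
    have h3 : IsCoprime (p : ℤ) ((Ideal.absNorm (Ideal.span {δ}) : ℕ) : ℤ) := by
      rw [Nat.isCoprime_iff_coprime]
      exact (Nat.Prime.coprime_iff_not_dvd hp).2 hpΔ
    obtain ⟨u, v, huv⟩ := h3
    rw [Ideal.eq_top_iff_one]
    have h4 : (1 : 𝓞 M) = (u : 𝓞 M) * (p : 𝓞 M) +
        (v : 𝓞 M) * ((Ideal.absNorm (Ideal.span {δ}) : ℕ) : 𝓞 M) := by
      have := congrArg (fun x : ℤ => (x : 𝓞 M)) huv
      simp only [Int.cast_add, Int.cast_mul, Int.cast_natCast, Int.cast_one] at this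
      exact this.symm
    rw [h4]
    exact P.add_mem (P.mul_mem_left _ hpP) (P.mul_mem_left _ h2)

end gal2

theorem gal_poly (D : ℕ) : ∃ A : ℝ, 1 ≤ A ∧ ∀ (M : Type) [Field M] [NumberField M] [IsGalois ℚ M],
    Module.finrank ℚ M ≤ D → ∀ H : ℝ, 2 ≤ H → ∀ S : Finset (𝓞 M), S.card ≤ D →
    IntermediateField.adjoin ℚ ((fun z : 𝓞 M => (z : M)) '' (S : Set (𝓞 M))) = ⊤ →
    (∀ z ∈ S, ∀ σ : M →+* ℂ, ‖σ (z : M)‖ ≤ H) →
    ∀ τ : M ≃ₐ[ℚ] M, ∃ (h : ℤ[X]) (β : 𝓞 M) (Δ : ℕ),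
      CycGen M τ h β Δ ∧ HtLe h (H ^ A) ∧ (Δ : ℝ) ≤ H ^ A := by
  set C1 : ℕ := D * (D ^ 2 + 1) ^ D with hC1
  set a : ℕ := D ^ 2 + 1 + C1 + 1 with ha
  set A : ℕ := (a * D + 1) * (D ^ 3 + D) + 1 with hA
  refine ⟨(A : ℝ), by exact_mod_cast Nat.succ_le_succ (Nat.zero_le _), ?_⟩
  intro M _ _ _ hD H hH S hS hgen hb τ
  obtain ⟨γ, hγ, hγb⟩ := gal2_gamma D hD H hH S hS hgen hb
  have hH0 : (0 : ℝ) ≤ H := by linarith
  have hH1 : (1 : ℝ) ≤ H := by linarith
  obtain ⟨β, hβ, hβb⟩ := gal2_beta D hD γ hγ ((C1 : ℝ) * H) (by positivity) hγb τ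
  set B : ℝ := (((D ^ 2 + 1 : ℕ) : ℝ) + (C1 : ℝ) * H) ^ D with hB
  have hbase1 : (1 : ℝ) ≤ ((D ^ 2 + 1 : ℕ) : ℝ) + (C1 : ℝ) * H := by
    have : (1 : ℝ) ≤ ((D ^ 2 + 1 : ℕ) : ℝ) := by exact_mod_cast Nat.succ_le_succ (Nat.zero_le _)
    have : 0 ≤ (C1 : ℝ) * H := by positivity
    linarith
  have hB1 : 1 ≤ B := one_le_pow₀ hbase1
  have hbase : ((D ^ 2 + 1 : ℕ) : ℝ) + (C1 : ℝ) * H ≤ H ^ a := by
    have h1 : ((D ^ 2 + 1 + C1 : ℕ) : ℝ) ≤ H ^ (D ^ 2 + 1 + C1) := by
      have h2 : ((D ^ 2 + 1 + C1 : ℕ) : ℝ) ≤ (2 : ℝ) ^ (D ^ 2 + 1 + C1) := by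
        exact_mod_cast (Nat.lt_two_pow_self).le
      exact h2.trans (pow_le_pow_left₀ (by norm_num) hH _)
    calc ((D ^ 2 + 1 : ℕ) : ℝ) + (C1 : ℝ) * H ≤ ((D ^ 2 + 1 : ℕ) : ℝ) * H + (C1 : ℝ) * H := by
          have : ((D ^ 2 + 1 : ℕ) : ℝ) * 1 ≤ ((D ^ 2 + 1 : ℕ) : ℝ) * H :=
            mul_le_mul_of_nonneg_left hH1 (by positivity)
          linarith
      _ = ((D ^ 2 + 1 + C1 : ℕ) : ℝ) * H := by push_cast; ring
      _ ≤ H ^ (D ^ 2 + 1 + C1) * H := mul_le_mul_of_nonneg_right h1 hH0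
      _ = H ^ a := by rw [ha, pow_succ H (D ^ 2 + 1 + C1)]
  have h2B : 2 * B ≤ H ^ (a * D + 1) := by
    have h1 : B ≤ (H ^ a) ^ D := pow_le_pow_left₀ (by linarith) hbase _
    calc 2 * B ≤ H * (H ^ a) ^ D := mul_le_mul hH h1 (by linarith) hH0
      _ = H ^ (a * D + 1) := by rw [← pow_mul, pow_succ]; ring
  have hpow : ∀ m : ℕ, m ≤ D ^ 3 + D → (2 * B) ^ m ≤ H ^ (A : ℝ) := by
    intro m hm
    rw [Real.rpow_natCast]
    calc (2 * B) ^ m ≤ (H ^ (a * D + 1)) ^ m := pow_le_pow_left₀ (by linarith) h2B _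
      _ = H ^ ((a * D + 1) * m) := by rw [← pow_mul]
      _ ≤ H ^ A := by
          refine pow_le_pow_right₀ hH1 ?_
          rw [hA]
          exact (Nat.mul_le_mul_left _ hm).trans (Nat.le_succ _)
  obtain ⟨Δ, hΔ1, hΔb, hsep⟩ := gal2_Delta D hD β B hB1 hβb
  refine ⟨minpoly ℤ β, β, Δ, ⟨minpoly.monic (RingOfIntegers.isIntegral β),
    minpoly.irreducible (RingOfIntegers.isIntegral β), gal2_deg τ β hβ, minpoly.aeval ℤ β, hβ, hΔ1,
    hsep⟩, ?_, ?_⟩
  · intro i
    exact (gal2_coeff D hD β B hB1 hβb i).trans (hpow D (Nat.le_add_left _ _))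
  · exact hΔb.trans (hpow (D ^ 3) (Nat.le_add_right _ _))

end EK75

end S_H75_EK_Gal2

section S_H75_EK_Gal3

/-! Module GAL3: Frobenius elements and roots modulo `p`. -/

open Polynomial Finset NumberField
open scoped Real BigOperators

namespace EK75

variable (M : Type) [Field M] [NumberField M] [IsGalois ℚ M]

theorem gal3_under (P : Ideal (𝓞 M)) (hP : P.IsPrime) (p : ℕ) (hp : p.Prime)
    (hpP : (p : 𝓞 M) ∈ P) : P.under ℤ = Ideal.span {(p : ℤ)} := by
  have hmax : (Ideal.span {(p : ℤ)}).IsMaximal := by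
    have : Prime (p : ℤ) := Nat.prime_iff_prime_int.1 hp
    exact PrincipalIdealRing.isMaximal_of_irreducible this.irreducible
  refine (hmax.eq_of_le (Ideal.IsPrime.ne_top (hP.under ℤ)) ?_).symm
  rw [Ideal.span_singleton_le_iff_mem, Ideal.mem_comap]
  simpa using hpP

/-- existence of a Frobenius element -/
theorem frob_exists (p : ℕ) (hp : p.Prime) : ∃ (P : Ideal (𝓞 M)) (φ : M ≃ₐ[ℚ] M), P.IsPrime ∧
    (p : 𝓞 M) ∈ P ∧ ∀ x : 𝓞 M, φ • x - x ^ p ∈ P := by
  have hne : Ideal.span {(p : 𝓞 M)} ≠ ⊤ := by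
    rw [Ne, Ideal.span_singleton_eq_top]
    intro h
    rw [NumberField.isUnit_iff_norm] at h
    have h1 : (Algebra.norm ℚ ((p : 𝓞 M) : M)) = (p : ℚ) ^ Module.finrank ℚ M := by
      have : (((p : 𝓞 M) : M)) = algebraMap ℚ M p := by simp
      rw [this, Algebra.norm_algebraMap]
    have h2 : ((RingOfIntegers.norm ℚ (p : 𝓞 M) : 𝓞 ℚ) : ℚ) = (p : ℚ) ^ Module.finrank ℚ M := by
      rw [← h1]; rfl
    rw [h2] at h
    have hp1 : (1 : ℚ) < p := by exact_mod_cast hp.one_lt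
    have h3 : (1 : ℚ) < (p : ℚ) ^ Module.finrank ℚ M :=
      one_lt_pow₀ hp1 (Module.finrank_pos).ne'
    rw [abs_of_pos (by linarith)] at h
    linarith
  obtain ⟨P, hmax, hle⟩ := Ideal.exists_le_maximal _ hne
  have hpP : (p : 𝓞 M) ∈ P := hle (Ideal.mem_span_singleton_self _)
  obtain ⟨φ, hφ⟩ := IsArithFrobAt.exists_of_isInvariant ℤ (M ≃ₐ[ℚ] M) P
  refine ⟨P, φ, hmax.isPrime, hpP, ?_⟩
  intro x
  have h1 := hφ x
  have h2 : Nat.card (ℤ ⧸ P.under ℤ) = p := by
    rw [gal3_under M P hmax.isPrime p hp hpP]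
    have := Nat.card_congr (Int.quotientSpanNatEquivZMod p).toEquiv
    rw [this, Nat.card_zmod]
  rw [h2] at h1
  exact h1

variable {M} in
theorem gal3_res (p : ℕ) (hp : p.Prime) (P : Ideal (𝓞 M)) (hP : P.IsPrime) (hpP : (p : 𝓞 M) ∈ P)
    (z : 𝓞 M) (hz : z - z ^ p ∈ P) : ∃ r ∈ range p, z - (r : 𝓞 M) ∈ P := by
  have : Fact p.Prime := ⟨hp⟩
  have hchar : CharP (𝓞 M ⧸ P) p := by
    rw [CharP.charP_iff_prime_eq_zero hp]
    have : Ideal.Quotient.mk P (p : 𝓞 M) = 0 := Ideal.Quotient.eq_zero_iff_mem.2 hpP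
    simpa using this
  let f : ZMod p →+* (𝓞 M ⧸ P) := ZMod.castHom (dvd_refl p) _
  set zb : 𝓞 M ⧸ P := Ideal.Quotient.mk P z with hzb
  have hz' : zb ^ p - zb = 0 := by
    have h1 : Ideal.Quotient.mk P (z - z ^ p) = 0 := Ideal.Quotient.eq_zero_iff_mem.2 hz
    rw [map_sub, map_pow, ← hzb] at h1
    rw [← neg_sub, h1, neg_zero]
  have hroots : ((X ^ p - X : (ZMod p)[X]).roots) = Finset.univ.val := by
    have := FiniteField.roots_X_pow_card_sub_X (ZMod p)
    rwa [ZMod.card p] at this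
  have hmon : (X ^ p - X : (ZMod p)[X]).Monic :=
    monic_X_pow_sub (by rw [degree_X]; exact_mod_cast hp.one_lt)
  have hcard : ((X ^ p - X : (ZMod p)[X]).roots).card = (X ^ p - X : (ZMod p)[X]).natDegree := by
    rw [hroots, FiniteField.X_pow_card_sub_X_natDegree_eq _ hp.one_lt]
    have : (Finset.univ : Finset (ZMod p)).card = p := by rw [Finset.card_univ, ZMod.card]
    exact this
  have hprod := prod_multiset_X_sub_C_of_monic_of_roots_card_eq hmon hcard
  have h2 := congrArg (eval₂ f zb) hprod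
  rw [hroots, eval₂_sub, eval₂_X_pow, eval₂_X, hz'] at h2
  have h3 : ∏ a : ZMod p, (zb - f a) = 0 := by
    have h4 : (Multiset.map (fun a : ZMod p => X - C a) Finset.univ.val).prod =
      ∏ a : ZMod p, (X - C a) := rfl
    rw [h4, eval₂_finsetProd] at h2
    simpa using h2
  obtain ⟨a, -, ha⟩ := Finset.prod_eq_zero_iff.1 h3
  refine ⟨a.val, Finset.mem_range.2 (ZMod.val_lt a), ?_⟩
  rw [← Ideal.Quotient.eq_zero_iff_mem, map_sub, map_natCast, ← hzb]
  have h5 : f a = ((a.val : ℕ) : 𝓞 M ⧸ P) := by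
    have : f ((a.val : ℕ) : ZMod p) = ((a.val : ℕ) : 𝓞 M ⧸ P) := map_natCast f _
    rwa [ZMod.natCast_zmod_val] at this
  rw [← h5]
  exact ha

variable {M} in
theorem gal3_root (p : ℕ) (hp : p.Prime) (P : Ideal (𝓞 M)) (hP : P.IsPrime)
    (hpP : (p : 𝓞 M) ∈ P) (g : ℤ[X]) (z : 𝓞 M) (hz : aeval z g = 0) (r : ℕ)
    (hr : z - (r : 𝓞 M) ∈ P) : (p : ℤ) ∣ g.eval (r : ℤ) := by
  have h1 : aeval (r : 𝓞 M) g ∈ P := by
    have h2 : z - (r : 𝓞 M) ∣ aeval z g - aeval (r : 𝓞 M) g := by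
      rw [← eval_map_algebraMap, ← eval_map_algebraMap]
      exact sub_dvd_eval_sub _ _ _
    obtain ⟨c, hc⟩ := h2
    rw [hz, zero_sub] at hc
    have h3 : aeval (r : 𝓞 M) g = -((z - (r : 𝓞 M)) * c) := by rw [← hc, neg_neg]
    rw [h3]
    exact P.neg_mem (Ideal.mul_mem_right _ _ hr)
  have h2 : aeval (r : 𝓞 M) g = algebraMap ℤ (𝓞 M) (g.eval (r : ℤ)) := by
    have : (r : 𝓞 M) = algebraMap ℤ (𝓞 M) (r : ℤ) := by simp
    rw [this, aeval_algebraMap_apply]
    simp [aeval_def]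
  rw [h2] at h1
  have h3 : g.eval (r : ℤ) ∈ P.under ℤ := h1
  rw [gal3_under M P hP p hp hpP, Ideal.mem_span_singleton] at h3
  exact h3

/-- a root fixed by Frobenius gives a root mod `p` -/
theorem frob_root (p : ℕ) (hp : p.Prime) (P : Ideal (𝓞 M)) (hP : P.IsPrime) (hpP : (p : 𝓞 M) ∈ P)
    (φ : M ≃ₐ[ℚ] M) (hφ : ∀ x : 𝓞 M, φ • x - x ^ p ∈ P) (g : ℤ[X]) (z : 𝓞 M) (hz : aeval z g = 0)
    (hfix : φ • z = z) : 1 ≤ rho g p := by
  have h1 := hφ z
  rw [hfix] at h1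
  obtain ⟨r, hr, hr'⟩ := gal3_res p hp P hP hpP z h1
  have h2 := gal3_root p hp P hP hpP g z hz r hr'
  rw [rho, Nat.one_le_iff_ne_zero, Finset.card_ne_zero]
  exact ⟨r, Finset.mem_filter.2 ⟨hr, h2⟩⟩

open Classical in
theorem frob_count (τ : M ≃ₐ[ℚ] M) (h : ℤ[X]) (β : 𝓞 M) (Δ : ℕ) (hc : CycGen M τ h β Δ)
    (p : ℕ) (hp : p.Prime) (hpΔ : ¬ p ∣ Δ) (P : Ideal (𝓞 M)) (hP : P.IsPrime) (hpP : (p : 𝓞 M) ∈ P)
    (φ : M ≃ₐ[ℚ] M) (hφ : ∀ x : 𝓞 M, φ • x - x ^ p ∈ P) :
    ((Finset.univ : Finset (M ≃ₐ[ℚ] M)).filter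
      (fun σ => σ⁻¹ * φ * σ ∈ Subgroup.zpowers τ)).card ≤ orderOf τ * rho h p := by
  set S := (Finset.univ : Finset (M ≃ₐ[ℚ] M)).filter
      (fun σ => σ⁻¹ * φ * σ ∈ Subgroup.zpowers τ) with hS
  have hex : ∀ σ ∈ S, ∃ r ∈ range p, σ • β - (r : 𝓞 M) ∈ P := by
    intro σ hσ
    have h1 : σ⁻¹ * φ * σ ∈ Subgroup.zpowers τ := (Finset.mem_filter.1 hσ).2
    rw [← hc.fix] at h1
    have h2 : φ • (σ • β) = σ • β := by
      have h3 := congrArg (fun b => σ • b) h1
      simp only [smul_smul] at h3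
      rw [smul_smul]
      have h4 : σ * (σ⁻¹ * φ * σ) = φ * σ := by group
      rwa [h4] at h3
    apply gal3_res p hp P hP hpP
    have h3 := hφ (σ • β)
    rwa [h2] at h3
  let r : (M ≃ₐ[ℚ] M) → ℕ := fun σ => if hσ : σ ∈ S then (hex σ hσ).choose else 0
  have hr : ∀ σ ∈ S, r σ ∈ range p ∧ σ • β - ((r σ : ℕ) : 𝓞 M) ∈ P := by
    intro σ hσ
    have : r σ = (hex σ hσ).choose := dif_pos hσ
    rw [this]
    exact (hex σ hσ).choose_spec
  have himg : S.image r ⊆ (range p).filter (fun r : ℕ => (p : ℤ) ∣ h.eval (r : ℤ)) := by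
    intro t ht
    obtain ⟨σ, hσ, rfl⟩ := Finset.mem_image.1 ht
    refine Finset.mem_filter.2 ⟨(hr σ hσ).1, ?_⟩
    refine gal3_root p hp P hP hpP h (σ • β) ?_ _ (hr σ hσ).2
    have h1 : aeval (σ • β) h = σ • (aeval β h) := by
      have := Polynomial.aeval_algHom_apply (MulSemiringAction.toAlgHom ℤ (𝓞 M) σ) β h
      exact this
    rw [h1, hc.root, smul_zero]
  have hfib : ∀ t ∈ S.image r, (S.filter (fun σ => r σ = t)).card ≤ orderOf τ := by
    intro t ht
    obtain ⟨σ₀, hσ₀, rfl⟩ := Finset.mem_image.1 ht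
    have hsub : S.filter (fun σ => r σ = r σ₀) ⊆
        ((Subgroup.zpowers τ : Set (M ≃ₐ[ℚ] M)).toFinset).image (fun g => σ₀ * g) := by
      intro σ hσ
      obtain ⟨hσS, hσr⟩ := Finset.mem_filter.1 hσ
      rw [Finset.mem_image]
      refine ⟨σ₀⁻¹ * σ, ?_, by group⟩
      rw [Set.mem_toFinset, SetLike.mem_coe, ← hc.fix]
      have h1 : σ • β - σ₀ • β ∈ P := by
        have h2 := P.sub_mem (hr σ hσS).2 (hr σ₀ hσ₀).2
        rw [hσr] at h2
        have h3 : σ • β - ((r σ₀ : ℕ) : 𝓞 M) - (σ₀ • β - ((r σ₀ : ℕ) : 𝓞 M)) = σ • β - σ₀ • β := by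
          ring
        rwa [h3] at h2
      have h2 := hc.sep P p hP hp hpP hpΔ σ σ₀ h1
      rw [mul_smul, h2, inv_smul_smul]
    refine (Finset.card_le_card hsub).trans (Finset.card_image_le.trans ?_)
    rw [Set.toFinset_card]
    have : Fintype.card (Subgroup.zpowers τ) = orderOf τ := Fintype.card_zpowers
    exact le_of_eq this
  refine (Finset.card_le_mul_card_image S (orderOf τ) hfib).trans ?_
  exact Nat.mul_le_mul_left _ (Finset.card_le_card himg)

end EK75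

end S_H75_EK_Gal3

section S_H75_EK_Gal

/-! Module GAL: upper-bound Chebotarev for primes modulo which no `g i` has a root. -/

open Polynomial Finset NumberField
open scoped Real BigOperators

namespace EK75

theorem gal_bd (g : ℤ[X]) (hg : g.Monic) (H : ℝ) (hH : 2 ≤ H) (hh : HtLe g H) (z : ℂ)
    (hz : aeval z g = 0) : ‖z‖ ≤ H ^ 2 := by
  have hm : (g.map (Int.castRingHom ℂ)).Monic := hg.map _
  have hr : (g.map (Int.castRingHom ℂ)).IsRoot z := by
    rw [IsRoot.def, eval_map]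
    exact hz
  have h1 := hr.norm_lt_cauchyBound hm.ne_zero
  have h2 : (g.map (Int.castRingHom ℂ)).cauchyBound ≤ Real.toNNReal H + 1 := by
    rw [cauchyBound, hm.leadingCoeff, nnnorm_one, div_one]
    refine add_le_add ?_ le_rfl
    apply Finset.sup_le
    intro i _
    have h3 := hh i
    rw [← NNReal.coe_le_coe, Real.coe_toNNReal H (by linarith)]
    simp only [coeff_map, coe_nnnorm]
    have : ((Int.castRingHom ℂ) (g.coeff i)) = (((g.coeff i : ℤ) : ℝ) : ℂ) := by simp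
    rw [this, Complex.norm_real]
    exact h3
  have h3 : ((g.map (Int.castRingHom ℂ)).cauchyBound : ℝ) ≤ H + 1 := by
    have := NNReal.coe_le_coe.2 h2
    rwa [NNReal.coe_add, Real.coe_toNNReal H (by linarith), NNReal.coe_one] at this
  have h4 : ‖z‖ < ((g.map (Int.castRingHom ℂ)).cauchyBound : ℝ) := NNReal.coe_lt_coe.2 h1
  nlinarith

section

variable (M : Type) [Field M] [Algebra ℚ M] (g : ℤ[X])

/-- the Galois group acts on the roots -/
@[reducible] def galAct : MulAction (M ≃ₐ[ℚ] M) (g.rootSet M) where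
  smul σ x := ⟨σ x, by
    obtain ⟨x, hx⟩ := x
    rw [mem_rootSet'] at hx ⊢
    refine ⟨hx.1, ?_⟩
    have h1 : aeval (σ x) g = σ (aeval x g) := by
      have := Polynomial.aeval_algHom_apply (σ.toAlgHom.restrictScalars ℤ) x g
      exact this
    rw [h1, hx.2, map_zero]⟩
  one_smul x := Subtype.ext rfl
  mul_smul σ τ x := Subtype.ext rfl

theorem gal_pow (k : ℕ) (hc : Fintype.card (g.rootSet M) = k) (τ : M ≃ₐ[ℚ] M) (x : g.rootSet M) :
    (τ ^ k.factorial) (x : M) = x := by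
  classical
  let _ := galAct M g
  let pm : (M ≃ₐ[ℚ] M) →* Equiv.Perm (g.rootSet M) := MulAction.toPermHom _ _
  have h1 : pm (τ ^ k.factorial) = 1 := by
    rw [map_pow]
    have h2 : Fintype.card (Equiv.Perm (g.rootSet M)) = k.factorial := by
      rw [Fintype.card_perm, hc]
    rw [← h2]
    exact pow_card_eq_one
  have h3 : pm (τ ^ k.factorial) x = x := by rw [h1]; rfl
  exact congrArg Subtype.val h3

end

theorem gal_card_congr {α : Type*} (s : Finset α) (p q : α → Prop) (dp : DecidablePred p)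
    (dq : DecidablePred q) (h : ∀ a, p a ↔ q a) : (s.filter p).card = (s.filter q).card := by
  have : s.filter p = s.filter q := by
    ext a
    rw [Finset.mem_filter, Finset.mem_filter, h]
  rw [this]

open Classical in
theorem gal_core (k r D : ℕ) (hk : 1 ≤ k) (_hr : 1 ≤ r) (hkr : k * r ≤ D) (hD1 : 1 ≤ D) (A0 : ℝ)
    (hA0 : 1 ≤ A0)
    (M : Type) [Field M] [NumberField M] [IsGalois ℚ M]
    (hpoly : ∀ H : ℝ, 2 ≤ H → ∀ S : Finset (𝓞 M), S.card ≤ D →
      IntermediateField.adjoin ℚ ((fun z : 𝓞 M => (z : M)) '' (S : Set (𝓞 M))) = ⊤ →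
      (∀ z ∈ S, ∀ σ : M →+* ℂ, ‖σ (z : M)‖ ≤ H) →
      ∀ τ : M ≃ₐ[ℚ] M, ∃ (h : ℤ[X]) (β : 𝓞 M) (Δ : ℕ),
        CycGen M τ h β Δ ∧ HtLe h (H ^ A0) ∧ (Δ : ℝ) ≤ H ^ A0)
    (hfin : Module.finrank ℚ M ≤ D) (H : ℝ) (hH : 2 ≤ H)
    (g : Fin r → ℤ[X]) (hg : ∀ i, (g i).Monic) (hd : ∀ i, (g i).natDegree = k)
    (hht : ∀ i, HtLe (g i) H)
    (hgen : IntermediateField.adjoin ℚ {x : M | ∃ i, x ∈ (g i).rootSet M} = ⊤)
    (hcard : ∀ i, Fintype.card ((g i).rootSet M) = k)
    (htr1 : ∀ i, ∀ x x' : (g i).rootSet M, ∃ σ : M ≃ₐ[ℚ] M, σ x = x')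
    (htr2 : ∀ i j, i ≠ j → ∀ x x' : (g i).rootSet M, ∀ y y' : (g j).rootSet M,
      ∃ σ : M ≃ₐ[ℚ] M, σ x = x' ∧ σ y = y') :
    ∃ (L n Δ : ℕ) (h : Fin L → ℤ[X]) (w : Fin L → ℕ), 1 ≤ n ∧
      (∀ j, (h j).Monic ∧ Irreducible (h j) ∧ 1 ≤ (h j).natDegree ∧
        (h j).natDegree ≤ D ∧ HtLe (h j) (H ^ (2 * A0 * D))) ∧
      1 ≤ Δ ∧ (Δ : ℝ) ≤ H ^ (2 * A0 * D) ∧ r * ∑ j, w j ≤ k.factorial * k * n ∧
      ∀ p : ℕ, p.Prime → ¬ p ∣ Δ → (∀ i, rho (g i) p = 0) → n ≤ ∑ j, w j * rho (h j) p := by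
  have hH1 : 1 ≤ H := by linarith
  have hD1' : (1 : ℝ) ≤ (D : ℝ) := by exact_mod_cast hD1
  -- roots as algebraic integers
  have hint : ∀ i, ∀ x ∈ (g i).rootSet M, ∃ z : 𝓞 M, (z : M) = x ∧ aeval z (g i) = 0 := by
    intro i x hx
    have hx0 : aeval x (g i) = 0 := (mem_rootSet'.1 hx).2
    have hxi : IsIntegral ℤ x := ⟨g i, hg i, hx0⟩
    refine ⟨⟨x, hxi⟩, rfl, ?_⟩
    apply RingOfIntegers.ext
    have h3 : ((aeval (⟨x, hxi⟩ : 𝓞 M) (g i) : 𝓞 M) : M) = aeval x (g i) :=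
      (Polynomial.aeval_algebraMap_apply M (⟨x, hxi⟩ : 𝓞 M) (g i)).symm
    refine h3.trans ?_
    rw [hx0]
    exact (map_zero _).symm
  set S : Finset (𝓞 M) := Finset.univ.biUnion (fun i => ((g i).aroots (𝓞 M)).toFinset) with hS
  have hSmem : ∀ z : 𝓞 M, z ∈ S ↔ ∃ i, aeval z (g i) = 0 := by
    intro z
    rw [hS, Finset.mem_biUnion]
    constructor
    · rintro ⟨i, _, hi⟩
      rw [Multiset.mem_toFinset, mem_aroots'] at hi
      exact ⟨i, hi.2⟩
    · rintro ⟨i, hi⟩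
      refine ⟨i, Finset.mem_univ _, ?_⟩
      rw [Multiset.mem_toFinset, mem_aroots']
      exact ⟨((hg i).map _).ne_zero, hi⟩
  have hScard : S.card ≤ D := by
    refine le_trans (Finset.card_biUnion_le_card_mul _ _ k ?_) ?_
    · intro i _
      refine (Multiset.toFinset_card_le _).trans ?_
      refine (Polynomial.card_roots' _).trans ?_
      rw [(hg i).natDegree_map, hd i]
    · rw [Finset.card_univ, Fintype.card_fin, mul_comm]
      exact hkr
  have hSgen : IntermediateField.adjoin ℚ ((fun z : 𝓞 M => (z : M)) '' (S : Set (𝓞 M))) = ⊤ := by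
    rw [eq_top_iff, ← hgen]
    apply IntermediateField.adjoin.mono
    rintro x ⟨i, hx⟩
    obtain ⟨z, hz, hz0⟩ := hint i x hx
    exact ⟨z, Finset.mem_coe.2 ((hSmem z).2 ⟨i, hz0⟩), hz⟩
  have hSbd : ∀ z ∈ S, ∀ σ : M →+* ℂ, ‖σ (z : M)‖ ≤ H ^ 2 := by
    intro z hz σ
    obtain ⟨i, hi⟩ := (hSmem z).1 hz
    apply gal_bd (g i) (hg i) H hH (hht i)
    have h1 : aeval (z : M) (g i) = 0 := by
      have := Polynomial.aeval_algebraMap_apply M z (g i)
      rw [hi, map_zero] at this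
      exact this
    have h2 := Polynomial.aeval_algHom_apply σ.toIntAlgHom (z : M) (g i)
    rw [h1, map_zero] at h2
    exact h2
  have hH2 : (2 : ℝ) ≤ H ^ 2 := by nlinarith
  choose hh ββ ΔΔ hcyc hhHt hΔ using hpoly (H ^ 2) hH2 S hScard hSgen hSbd
  -- the set of fixed point free elements
  set FS : Finset (M ≃ₐ[ℚ] M) := (Finset.univ : Finset (M ≃ₐ[ℚ] M)).filter
    (fun τ => ∀ i, ∀ x : (g i).rootSet M, τ x ≠ x) with hFS
  have hGcard : Fintype.card (M ≃ₐ[ℚ] M) = Module.finrank ℚ M := by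
    rw [← Nat.card_eq_fintype_card]
    exact IsGalois.card_aut_eq_finrank ℚ M
  have hff : FS.card * r ≤ k * Fintype.card (M ≃ₐ[ℚ] M) := by
    let _ : ∀ i, MulAction (M ≃ₐ[ℚ] M) ((g i).rootSet M) := fun i => galAct M (g i)
    have h1 := ff_bound (G := M ≃ₐ[ℚ] M) r k (fun i => (g i).rootSet M)
      (fun i => by rw [← hcard i]) hk ?_ ?_
    · refine le_trans (le_of_eq ?_) h1
      refine congrArg (fun t => t * r) ?_
      refine gal_card_congr _ _ _ _ _ ?_
      intro τ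
      constructor
      · intro h i x hx
        exact h i x (congrArg Subtype.val hx)
      · intro h i x hx
        exact h i x (Subtype.ext hx)
    · intro i x x'
      obtain ⟨σ, hσ⟩ := htr1 i x x'
      exact ⟨σ, Subtype.ext hσ⟩
    · intro i j hij x x' y y'
      obtain ⟨σ, hσ, hσ'⟩ := htr2 i j hij x x' y y'
      exact ⟨σ, Subtype.ext hσ, Subtype.ext hσ'⟩
  have hord : ∀ τ : M ≃ₐ[ℚ] M, orderOf τ ≤ k.factorial := by
    intro τ
    apply Nat.le_of_dvd (Nat.factorial_pos k)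
    rw [orderOf_dvd_iff_pow_eq_one]
    have h1 : (⊤ : IntermediateField ℚ M) ≤ IntermediateField.fixedField
        (Subgroup.zpowers (τ ^ k.factorial)) := by
      rw [← hgen, IntermediateField.adjoin_le_iff]
      rintro x ⟨i, hx⟩
      have h2 := gal_pow M (g i) k (by rw [← hcard i]) τ ⟨x, hx⟩
      intro σ
      obtain ⟨σ, hσ⟩ := σ
      obtain ⟨m, rfl⟩ := Subgroup.mem_zpowers_iff.1 hσ
      change ((τ ^ k.factorial) ^ m) x = x
      have h3 : τ ^ k.factorial ∈ MulAction.stabilizer (M ≃ₐ[ℚ] M) x := h2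
      exact (MulAction.stabilizer (M ≃ₐ[ℚ] M) x).zpow_mem h3 m
    ext x
    have h2 := h1 (IntermediateField.mem_top (x := x)) ⟨τ ^ k.factorial, Subgroup.mem_zpowers _⟩
    exact h2
  -- the data
  refine ⟨FS.card, Fintype.card (M ≃ₐ[ℚ] M), ∏ τ ∈ FS, ΔΔ τ, fun j => hh (FS.equivFin.symm j),
    fun j => orderOf ((FS.equivFin.symm j : FS) : M ≃ₐ[ℚ] M), Fintype.card_pos, ?_, ?_, ?_, ?_, ?_⟩
  · intro j
    set τ : M ≃ₐ[ℚ] M := ((FS.equivFin.symm j : FS) : M ≃ₐ[ℚ] M) with hτ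
    have hdeg := (hcyc τ).deg
    have hpos : 0 < Module.finrank ℚ M := Module.finrank_pos
    refine ⟨(hcyc τ).monic, (hcyc τ).irr, ?_, ?_, ?_⟩
    · rcases Nat.eq_zero_or_pos (hh τ).natDegree with h0 | h0
      · rw [h0, zero_mul] at hdeg
        omega
      · exact h0
    · have h1 : 1 ≤ orderOf τ := orderOf_pos τ
      calc (hh τ).natDegree ≤ (hh τ).natDegree * orderOf τ := Nat.le_mul_of_pos_right _ h1
        _ ≤ D := by rw [hdeg]; exact hfin
    · intro i
      refine (hhHt τ i).trans ?_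
      rw [← Real.rpow_natCast, ← Real.rpow_mul (by linarith)]
      apply Real.rpow_le_rpow_of_exponent_le hH1
      push_cast
      nlinarith
  · refine Nat.one_le_iff_ne_zero.2 (Finset.prod_ne_zero_iff.2 fun τ _ => ?_)
    have := (hcyc τ).pos
    omega
  · push_cast
    have h1 : ∏ τ ∈ FS, ((ΔΔ τ : ℕ) : ℝ) ≤ ∏ τ ∈ FS, (H ^ 2) ^ A0 := by
      apply Finset.prod_le_prod
      · intro τ _; positivity
      · intro τ _; exact hΔ τ
    refine h1.trans ?_
    rw [Finset.prod_const]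
    have h2 : FS.card ≤ D := (Finset.card_le_univ FS).trans (by rw [hGcard]; exact hfin)
    have h3 : (1 : ℝ) ≤ (H ^ 2) ^ A0 := Real.one_le_rpow (by nlinarith) (by linarith)
    refine (pow_le_pow_right₀ h3 h2).trans ?_
    rw [← Real.rpow_natCast, ← Real.rpow_natCast, ← Real.rpow_mul (by positivity),
      ← Real.rpow_mul (by linarith)]
    apply Real.rpow_le_rpow_of_exponent_le hH1
    push_cast
    nlinarith
  · have h1 : ∑ j : Fin FS.card, orderOf ((FS.equivFin.symm j : FS) : M ≃ₐ[ℚ] M) ≤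
        FS.card * k.factorial := by
      refine (Finset.sum_le_card_nsmul _ _ k.factorial (fun j _ => hord _)).trans ?_
      simp
    calc r * ∑ j : Fin FS.card, orderOf ((FS.equivFin.symm j : FS) : M ≃ₐ[ℚ] M)
        ≤ r * (FS.card * k.factorial) := Nat.mul_le_mul_left _ h1
      _ = k.factorial * (FS.card * r) := by ring
      _ ≤ k.factorial * (k * Fintype.card (M ≃ₐ[ℚ] M)) := Nat.mul_le_mul_left _ hff
      _ = k.factorial * k * Fintype.card (M ≃ₐ[ℚ] M) := by ring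
  · intro p hp hpΔ hrho
    obtain ⟨P, φ, hP, hpP, hφ⟩ := frob_exists M p hp
    have hφF : ∀ i, ∀ x : (g i).rootSet M, φ x ≠ x := by
      intro i x hx
      obtain ⟨z, hz, hz0⟩ := hint i x x.2
      have h1 : φ • z = z := by
        apply RingOfIntegers.ext
        change φ (z : M) = (z : M)
        rw [hz, hx]
      have h2 := frob_root M p hp P hP hpP φ hφ (g i) z hz0 h1
      rw [hrho i] at h2
      omega
    have hconj : ∀ σ ∈ (Finset.univ : Finset (M ≃ₐ[ℚ] M)), σ⁻¹ * φ * σ ∈ FS := by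
      intro σ _
      rw [hFS, Finset.mem_filter]
      refine ⟨Finset.mem_univ _, ?_⟩
      intro i x hx
      let _ := galAct M (g i)
      apply hφF i (σ • x)
      have h1 : σ ((σ⁻¹ * φ * σ) (x : M)) = φ (σ (x : M)) := by
        change σ (σ⁻¹ (φ (σ (x : M)))) = _
        exact AlgEquiv.apply_symm_apply σ _
      rw [hx] at h1
      exact h1.symm
    have hcount := Finset.card_eq_sum_card_fiberwise (f := fun σ : M ≃ₐ[ℚ] M => σ⁻¹ * φ * σ)
      (s := Finset.univ) (t := FS) hconj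
    rw [Finset.card_univ] at hcount
    rw [hcount]
    have hsum : ∑ j : Fin FS.card, orderOf ((FS.equivFin.symm j : FS) : M ≃ₐ[ℚ] M) *
        rho (hh (FS.equivFin.symm j)) p = ∑ τ ∈ FS, orderOf τ * rho (hh τ) p := by
      rw [← Finset.sum_coe_sort FS]
      exact Equiv.sum_comp FS.equivFin.symm (fun τ : FS => orderOf (τ : M ≃ₐ[ℚ] M) * rho (hh τ) p)
    rw [hsum]
    apply Finset.sum_le_sum
    intro τ hτ
    have hpτ : ¬ p ∣ ΔΔ τ := fun hdiv => hpΔ (hdiv.trans (Finset.dvd_prod_of_mem _ hτ))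
    refine le_trans (Finset.card_le_card ?_)
      (frob_count M τ (hh τ) (ββ τ) (ΔΔ τ) (hcyc τ) p hp hpτ P hP hpP φ hφ)
    intro σ hσ
    rw [Finset.mem_filter] at hσ ⊢
    refine ⟨hσ.1, ?_⟩
    rw [hσ.2]
    exact Subgroup.mem_zpowers τ

theorem gal_exists (f : ℚ[X]) : ∃ (M : Type) (_ : Field M) (_ : CharZero M),
    IsSplittingField ℚ M f := by
  refine ⟨SplittingField f, inferInstance, inferInstance, ?_⟩
  have key : ∀ a b : Algebra ℚ (SplittingField f), @IsSplittingField ℚ (SplittingField f) _ _ a f →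
      @IsSplittingField ℚ (SplittingField f) _ _ b f := by
    intro a b h
    obtain rfl : a = b := Subsingleton.elim _ _
    exact h
  exact key _ _ (IsSplittingField.splittingField f)

theorem gal_main (k r : ℕ) (hk : 1 ≤ k) (hr : 1 ≤ r) : ∃ A : ℝ, 1 ≤ A ∧ ∀ H : ℝ, 2 ≤ H →
    ∀ g : Fin r → ℤ[X], (∀ i, (g i).Monic) → (∀ i, (g i).natDegree = k) → (∀ i, HtLe (g i) H) →
    SuccIrr g →
    ∃ (L n Δ : ℕ) (h : Fin L → ℤ[X]) (w : Fin L → ℕ), 1 ≤ n ∧
      (∀ j, (h j).Monic ∧ Irreducible (h j) ∧ 1 ≤ (h j).natDegree ∧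
        (h j).natDegree ≤ (k * r).factorial ∧ HtLe (h j) (H ^ A)) ∧
      1 ≤ Δ ∧ (Δ : ℝ) ≤ H ^ A ∧ r * ∑ j, w j ≤ k.factorial * k * n ∧
      ∀ p : ℕ, p.Prime → ¬ p ∣ Δ → (∀ i, rho (g i) p = 0) → n ≤ ∑ j, w j * rho (h j) p := by
  classical
  set D : ℕ := (k * r).factorial with hD
  have hD1 : 1 ≤ D := Nat.factorial_pos _
  obtain ⟨A0, hA0, hpoly⟩ := gal_poly D
  have hD1' : (1 : ℝ) ≤ (D : ℝ) := by exact_mod_cast hD1
  refine ⟨2 * A0 * D, by nlinarith, ?_⟩
  intro H hH g hg hd hht hind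
  obtain ⟨f, hfprod⟩ : ∃ f : ℚ[X], f = ∏ l, (g l).map (Int.castRingHom ℚ) := ⟨_, rfl⟩
  have hf0 : f ≠ 0 := by
    rw [hfprod, Finset.prod_ne_zero_iff]
    intro l _
    exact ((hg l).map _).ne_zero
  have hfdeg : f.natDegree = k * r := by
    rw [hfprod, natDegree_prod_of_monic _ _ (fun l _ => (hg l).map _)]
    have : ∀ l ∈ (Finset.univ : Finset (Fin r)),
        ((g l).map (Int.castRingHom ℚ)).natDegree = k := by
      intro l _
      rw [(hg l).natDegree_map, hd l]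
    rw [Finset.sum_congr rfl this]
    simp [mul_comm]
  have hdvd : ∀ i, (g i).map (Int.castRingHom ℚ) ∣ f := by
    intro i
    rw [hfprod]
    exact Finset.dvd_prod_of_mem _ (Finset.mem_univ i)
  obtain ⟨M, _, _, hspl⟩ := gal_exists f
  have hfd : FiniteDimensional ℚ M := IsSplittingField.finiteDimensional M f
  have hnf : NumberField M := { to_charZero := inferInstance, to_finiteDimensional := inferInstance }
  have hgal : IsGalois ℚ M := by
    have : Normal ℚ M := Normal.of_isSplittingField f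
    exact ⟨⟩
  have hfin : Module.finrank ℚ M ≤ D := by
    have hfact : Fact ((f.map (algebraMap ℚ M)).Splits) := ⟨IsSplittingField.splits M f⟩
    have h1 := Polynomial.Gal.galActionHom_injective f M
    have h2 : Fintype.card f.Gal ≤ Fintype.card (Equiv.Perm (f.rootSet M)) :=
      Fintype.card_le_of_injective _ h1
    rw [Fintype.card_perm] at h2
    have h3 : Fintype.card (f.rootSet M) ≤ k * r := by
      have := ncard_rootSet_le f M
      rw [hfdeg] at this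
      rwa [← Nat.card_coe_set_eq, Nat.card_eq_fintype_card] at this
    have h4 : Nat.card (M ≃ₐ[ℚ] M) = Module.finrank ℚ M := IsGalois.card_aut_eq_finrank ℚ M
    have h5 : Nat.card (M ≃ₐ[ℚ] M) = Fintype.card f.Gal := by
      rw [← Nat.card_eq_fintype_card]
      exact Nat.card_congr (IsSplittingField.algEquiv M f).autCongr.toEquiv
    rw [← h4, h5]
    exact h2.trans (Nat.factorial_le h3)
  have hsplit : ∀ i, ((g i).map (algebraMap ℤ M)).Splits := by
    intro i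
    have h1 : (f.map (algebraMap ℚ M)).Splits := IsSplittingField.splits M f
    refine h1.of_dvd ((Polynomial.map_ne_zero_iff (algebraMap ℚ M).injective).2 hf0) ?_
    have h3 : (g i).map (algebraMap ℤ M) =
        ((g i).map (Int.castRingHom ℚ)).map (algebraMap ℚ M) := by
      rw [Polynomial.map_map]
      congr 1
      exact Subsingleton.elim _ _
    rw [h3]
    exact Polynomial.map_dvd _ (hdvd i)
  obtain ⟨hcard, htr1, htr2⟩ := gal_trans k hk g hg hd hind M hsplit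
  have hgen : IntermediateField.adjoin ℚ {x : M | ∃ i, x ∈ (g i).rootSet M} = ⊤ := by
    have h1 := IsSplittingField.adjoin_rootSet M f
    have h2 : f.rootSet M ⊆ {x : M | ∃ i, x ∈ (g i).rootSet M} := by
      intro x hx
      have hx0 : aeval x f = 0 := (mem_rootSet'.1 hx).2
      rw [hfprod, map_prod, Finset.prod_eq_zero_iff] at hx0
      obtain ⟨i, _, hi⟩ := hx0
      refine ⟨i, ?_⟩
      rw [mem_rootSet']
      refine ⟨((hg i).map _).ne_zero, ?_⟩
      rw [← hi, aeval_def, aeval_def, eval₂_map]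
      congr 1
      exact Subsingleton.elim _ _
    rw [← IntermediateField.toSubalgebra_injective.eq_iff, IntermediateField.top_toSubalgebra,
      eq_top_iff, ← h1]
    refine (Algebra.adjoin_mono h2).trans ?_
    exact IntermediateField.algebra_adjoin_le_adjoin ℚ _
  obtain ⟨L, n, Δ, h, w, h1, h2, h3, h4, h5, h6⟩ := gal_core k r D hk hr
    (Nat.self_le_factorial _) hD1 A0 hA0 M
    (hpoly M hfin) hfin H hH g hg hd hht hgen hcard htr1 htr2
  exact ⟨L, n, Δ, h, w, h1, h2, h3, h4, h5, h6⟩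

end EK75

end S_H75_EK_Gal
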