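import Mathlib
import Pool.Agent.H75.EM.L1

/-! Erdos-Kac law for integer parts of real polynomials, part L6: this file joins several modules to save build time. -/

section S_H75_EK_HitG

/-! Module HITG: geometry of the complex roots of `F - t`. -/

open Polynomial Finset
open scoped Real BigOperators

namespace EK75

/-- `y` enumerates the (distinct) roots of `F - t` -/
def RootsOf (k : ℕ) (F : ℤ[X]) (t : ℤ) (y : Fin k → ℂ) : Prop :=
  Function.Injective y ∧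
    (F - C t).map (Int.castRingHom ℂ) = C ((F.leadingCoeff : ℤ) : ℂ) * ∏ i, (X - C (y i))

/-- enumeration of the roots of a complex polynomial -/
theorem hitg_enum (P : ℂ[X]) (k : ℕ) (hP : P.natDegree = k) :
    ∃ y : Fin k → ℂ, P = C P.leadingCoeff * ∏ i, (X - C (y i)) := by
  classical
  have hs : P.Splits := IsAlgClosed.splits P
  have hcard : Multiset.card P.roots = k := by
    rw [← hP]; exact hs.natDegree_eq_card_roots.symm
  have hprod : C P.leadingCoeff * (P.roots.map (fun a => X - C a)).prod = P :=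
    Polynomial.C_leadingCoeff_mul_prod_multiset_X_sub_C (by rw [hcard, hP])
  have hlen : P.roots.toList.length = k := by rw [Multiset.length_toList, hcard]
  refine ⟨fun i => P.roots.toList.get (i.cast hlen.symm), ?_⟩
  have h1 : (P.roots.map (fun a => X - C a)).prod =
      ∏ i : Fin k, (X - C (P.roots.toList.get (i.cast hlen.symm))) := by
    conv_lhs => rw [← Multiset.coe_toList P.roots]
    rw [Multiset.map_coe, Multiset.prod_coe]
    subst hlen
    rw [← List.prod_ofFn]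
    congr 1
    apply List.ext_get
    · simp
    · intro n h1 h2
      simp
  rw [← h1]
  exact hprod.symm

theorem hitg_pow_sub (x y : ℂ) (R : ℝ) (hx : ‖x‖ ≤ R) (hy : ‖y‖ ≤ R) (j : ℕ) :
    ‖x ^ j - y ^ j‖ ≤ j * R ^ (j - 1) * ‖x - y‖ := by
  have hR : 0 ≤ R := (norm_nonneg _).trans hx
  induction j with
  | zero => simp
  | succ j ih =>
    have h1 : x ^ (j + 1) - y ^ (j + 1) = x * (x ^ j - y ^ j) + (x - y) * y ^ j := by ring
    rw [h1]
    have h2 : ‖x * (x ^ j - y ^ j)‖ ≤ R * (j * R ^ (j - 1) * ‖x - y‖) := by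
      rw [norm_mul]
      exact mul_le_mul hx ih (norm_nonneg _) hR
    have h3 : ‖(x - y) * y ^ j‖ ≤ R ^ j * ‖x - y‖ := by
      rw [norm_mul, norm_pow, mul_comm]
      exact mul_le_mul_of_nonneg_right (pow_le_pow_left₀ (norm_nonneg _) hy _) (norm_nonneg _)
    refine (norm_add_le _ _).trans ((add_le_add h2 h3).trans (le_of_eq ?_))
    rcases j with _ | j
    · simp
    · simp only [Nat.add_sub_cancel]
      push_cast
      ring

theorem hitg_lip (G : ℂ[X]) (k : ℕ) (hG : G.natDegree = k) (A R : ℝ)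
    (hA : ∀ j, ‖G.coeff j‖ ≤ A) (hR : 1 ≤ R) (x y : ℂ) (hx : ‖x‖ ≤ R) (hy : ‖y‖ ≤ R) :
    ‖G.eval x - G.eval y‖ ≤ (k + 1) * (A * (k * R ^ (k - 1))) * ‖x - y‖ := by
  have hA0 : 0 ≤ A := (norm_nonneg _).trans (hA 0)
  have hR0 : (0 : ℝ) ≤ R := by linarith
  rw [Polynomial.eval_eq_sum_range, Polynomial.eval_eq_sum_range, hG, ← Finset.sum_sub_distrib]
  refine (norm_sum_le _ _).trans ?_
  have h1 : ∀ j ∈ range (k + 1), ‖G.coeff j * x ^ j - G.coeff j * y ^ j‖ ≤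
      A * (k * R ^ (k - 1)) * ‖x - y‖ := by
    intro j hj
    rw [Finset.mem_range] at hj
    rw [← mul_sub, norm_mul]
    have h2 := hitg_pow_sub x y R hx hy j
    have h3 : (j : ℝ) * R ^ (j - 1) ≤ k * R ^ (k - 1) := by
      refine mul_le_mul (by exact_mod_cast (by omega : j ≤ k)) ?_ (by positivity) (by positivity)
      exact pow_le_pow_right₀ hR (by omega)
    calc ‖G.coeff j‖ * ‖x ^ j - y ^ j‖ ≤ A * (j * R ^ (j - 1) * ‖x - y‖) :=
          mul_le_mul (hA j) h2 (norm_nonneg _) hA0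
      _ ≤ A * (k * R ^ (k - 1) * ‖x - y‖) :=
          mul_le_mul_of_nonneg_left (mul_le_mul_of_nonneg_right h3 (norm_nonneg _)) hA0
      _ = _ := by ring
  refine (Finset.sum_le_sum h1).trans (le_of_eq ?_)
  rw [Finset.sum_const, Finset.card_range, nsmul_eq_mul]
  push_cast
  ring

/-- roots are small -/
theorem hitg_root (P : ℂ[X]) (d : ℕ) (hd : 1 ≤ d) (hP : P.natDegree = d) (A B : ℝ)
    (hA : ∀ j, 1 ≤ j → j < d → ‖P.coeff j‖ ≤ A) (hA0 : 0 ≤ A) (hB : ‖P.coeff 0‖ ≤ B) (x : ℂ)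
    (hx : 1 ≤ ‖x‖) (h : P.eval x = 0) :
    ‖P.leadingCoeff‖ * ‖x‖ ^ d ≤ A * d * ‖x‖ ^ (d - 1) + B := by
  have h1 : P.leadingCoeff * x ^ d = -∑ j ∈ range d, P.coeff j * x ^ j := by
    rw [Polynomial.eval_eq_sum_range, hP, Finset.sum_range_succ] at h
    unfold Polynomial.leadingCoeff
    rw [hP]
    linear_combination h
  have h2 : ‖P.leadingCoeff‖ * ‖x‖ ^ d = ‖∑ j ∈ range d, P.coeff j * x ^ j‖ := by
    rw [← norm_pow, ← norm_mul, h1, norm_neg]
  rw [h2]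
  obtain ⟨d', rfl⟩ : ∃ d', d = d' + 1 := ⟨d - 1, by omega⟩
  rw [Finset.sum_range_succ']
  refine (norm_add_le _ _).trans (add_le_add ?_ ?_)
  · refine (norm_sum_le _ _).trans ?_
    have h3 : ∀ j ∈ range d', ‖P.coeff (j + 1) * x ^ (j + 1)‖ ≤ A * ‖x‖ ^ (d' + 1 - 1) := by
      intro j hj
      rw [Finset.mem_range] at hj
      rw [norm_mul, norm_pow]
      exact mul_le_mul (hA _ (by omega) (by omega)) (pow_le_pow_right₀ hx (by omega))
        (by positivity) hA0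
    refine (Finset.sum_le_sum h3).trans ?_
    rw [Finset.sum_const, Finset.card_range, nsmul_eq_mul]
    push_cast
    have h4 : 0 ≤ A * ‖x‖ ^ (d' + 1 - 1) := by positivity
    have h5 : A * ((d' : ℝ) + 1) * ‖x‖ ^ (d' + 1 - 1) =
        d' * (A * ‖x‖ ^ (d' + 1 - 1)) + A * ‖x‖ ^ (d' + 1 - 1) := by ring
    calc (d' : ℝ) * (A * ‖x‖ ^ (d' + 1 - 1)) ≤
        d' * (A * ‖x‖ ^ (d' + 1 - 1)) + A * ‖x‖ ^ (d' + 1 - 1) := by linarith
      _ = _ := h5.symm
  · simpa using hB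

theorem hitg_deriv {k : ℕ} (G : ℂ[X]) (a t : ℂ) (y : Fin k → ℂ)
    (h : G - C t = C a * ∏ i, (X - C (y i))) (j : Fin k) :
    G.derivative.eval (y j) = a * ∏ i ∈ univ.erase j, (y j - y i) := by
  have h1 : G.derivative = C a * derivative (∏ i, (X - C (y i))) := by
    have : derivative (G - C t) = derivative (C a * ∏ i, (X - C (y i))) := by rw [h]
    rw [derivative_sub, derivative_C, sub_zero, derivative_mul, derivative_C, zero_mul, zero_add]
      at this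
    exact this
  rw [h1, eval_mul, eval_C, Polynomial.derivative_prod_finset, eval_finsetSum]
  congr 1
  rw [Finset.sum_eq_single j]
  · rw [eval_mul, eval_prod]
    simp
  · intro i _ hij
    rw [eval_mul, eval_prod]
    have : ∏ l ∈ univ.erase i, eval (y j) (X - C (y l)) = 0 := by
      apply Finset.prod_eq_zero (i := j)
      · rw [Finset.mem_erase]; exact ⟨hij.symm, Finset.mem_univ _⟩
      · simp
    rw [this, zero_mul]
  · intro h; exact absurd (Finset.mem_univ _) h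

/-- matching of the roots -/
theorem hitg_match {k : ℕ} (G : ℂ[X]) (a t t' : ℂ) (sep : ℝ) (ha : a ≠ 0)
    (hs : 0 < sep) (y y' : Fin k → ℂ)
    (h : G - C t = C a * ∏ i, (X - C (y i))) (h' : G - C t' = C a * ∏ i, (X - C (y' i)))
    (hsep : ∀ i j, i ≠ j → sep ≤ ‖y' i - y' j‖) (hc : ‖t - t'‖ ≤ ‖a‖ * (sep / 8) ^ k) (i : Fin k) :
    ∃ j, ‖y i - y' j‖ ≤ sep / 8 ∧ ‖y i - y' j‖ * (‖a‖ * (sep / 2) ^ (k - 1)) ≤ ‖t - t'‖ := by
  have ha' : 0 < ‖a‖ := norm_pos_iff.2 ha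
  have h1 : G.eval (y i) = t := by
    have : (G - C t).eval (y i) = 0 := by
      rw [h, eval_mul, eval_prod]
      rw [Finset.prod_eq_zero (Finset.mem_univ i) (by simp), mul_zero]
    rw [eval_sub, eval_C, sub_eq_zero] at this
    exact this
  have h2 : ‖t - t'‖ = ‖a‖ * ∏ j, ‖y i - y' j‖ := by
    have : (G - C t').eval (y i) = a * ∏ j, (y i - y' j) := by
      rw [h', eval_mul, eval_prod, eval_C]
      simp
    rw [eval_sub, eval_C, h1] at this
    rw [this, norm_mul, norm_prod]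
  have h3 : ∃ j, ‖y i - y' j‖ ≤ sep / 8 := by
    by_contra hcon
    push Not at hcon
    have h4 : (sep / 8) ^ k < ∏ j, ‖y i - y' j‖ := by
      have h5 : ∏ _j : Fin k, (sep / 8) < ∏ j, ‖y i - y' j‖ :=
        Finset.prod_lt_prod_of_nonempty (fun _ _ => by positivity) (fun j _ => hcon j)
          ⟨i, Finset.mem_univ _⟩
      rwa [Finset.prod_const, Finset.card_univ, Fintype.card_fin] at h5
    have h5 : ‖a‖ * (sep / 8) ^ k < ‖a‖ * ∏ j, ‖y i - y' j‖ := mul_lt_mul_of_pos_left h4 ha'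
    linarith
  obtain ⟨j, hj⟩ := h3
  refine ⟨j, hj, ?_⟩
  have h4 : (sep / 2) ^ (k - 1) ≤ ∏ l ∈ univ.erase j, ‖y i - y' l‖ := by
    have h5 : ∏ _l ∈ univ.erase j, (sep / 2) ≤ ∏ l ∈ univ.erase j, ‖y i - y' l‖ := by
      refine Finset.prod_le_prod (fun _ _ => by positivity) fun l hl => ?_
      have h6 := hsep j l (Finset.ne_of_mem_erase hl).symm
      have h7 : ‖y' j - y' l‖ ≤ ‖y i - y' j‖ + ‖y i - y' l‖ := by
        have : y' j - y' l = -(y i - y' j) + (y i - y' l) := by ring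
        rw [this]
        refine (norm_add_le _ _).trans ?_
        rw [norm_neg]
      linarith
    rw [Finset.prod_const, Finset.card_erase_of_mem (Finset.mem_univ _), Finset.card_univ,
      Fintype.card_fin] at h5
    exact h5
  rw [h2, ← Finset.mul_prod_erase univ _ (Finset.mem_univ j)]
  calc ‖y i - y' j‖ * (‖a‖ * (sep / 2) ^ (k - 1)) =
      ‖a‖ * (‖y i - y' j‖ * (sep / 2) ^ (k - 1)) := by ring
    _ ≤ ‖a‖ * (‖y i - y' j‖ * ∏ l ∈ univ.erase j, ‖y i - y' l‖) :=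
      mul_le_mul_of_nonneg_left (mul_le_mul_of_nonneg_left h4 (norm_nonneg _)) ha'.le

/-- standing assumptions -/
structure HitgA (k : ℕ) (c0 C0 C1 q T η ρ : ℝ) (G : ℂ[X]) : Prop where
  hk : 2 ≤ k
  c0p : 0 < c0
  C0p : 0 < C0
  C1p : 0 < C1
  q1 : 1 ≤ q
  Teq : T = q * ρ ^ k
  ρ1 : 1 ≤ ρ
  η0 : 0 < η
  η1 : η ≤ 1
  deg : G.natDegree = k
  G0 : G.coeff 0 = 0
  lead : c0 * q ≤ ‖G.leadingCoeff‖
  coef : ∀ j, ‖G.coeff j‖ ≤ C0 * q

/-- bound for the roots -/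
noncomputable def hitgK (k : ℕ) (c0 C0 C1 : ℝ) : ℝ := 1 + 2 * (C0 * k + C1) / c0

/-- Lipschitz constant -/
noncomputable def hitgL (k : ℕ) (c0 C0 C1 : ℝ) : ℝ :=
  (k + 1) * (C0 * (k * hitgK k c0 C0 C1 ^ (k - 1)))

/-- separation constant -/
noncomputable def hitgc (k : ℕ) (c0 C0 C1 : ℝ) : ℝ :=
  (1 / hitgL k c0 C0 C1) ^ (k - 1) / (2 * hitgK k c0 C0 C1) ^ (k - 2)

theorem hitgK_ge (k : ℕ) (c0 C0 C1 : ℝ) (h0 : 0 < c0) (h1 : 0 < C0) (h2 : 0 < C1) :
    1 ≤ hitgK k c0 C0 C1 := by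
  unfold hitgK
  have : 0 ≤ 2 * (C0 * k + C1) / c0 := by positivity
  linarith

theorem hitgL_pos (k : ℕ) (hk : 2 ≤ k) (c0 C0 C1 : ℝ) (h0 : 0 < c0) (h1 : 0 < C0) (h2 : 0 < C1) :
    0 < hitgL k c0 C0 C1 := by
  have h3 := hitgK_ge k c0 C0 C1 h0 h1 h2
  have h4 : (0 : ℝ) < k := by exact_mod_cast (by omega : 0 < k)
  unfold hitgL
  have h5 : 0 < hitgK k c0 C0 C1 := by linarith
  positivity

theorem hitgc_pos (k : ℕ) (hk : 2 ≤ k) (c0 C0 C1 : ℝ) (h0 : 0 < c0) (h1 : 0 < C0) (h2 : 0 < C1) :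
    0 < hitgc k c0 C0 C1 := by
  have h3 := hitgK_ge k c0 C0 C1 h0 h1 h2
  have h4 := hitgL_pos k hk c0 C0 C1 h0 h1 h2
  unfold hitgc
  have h5 : 0 < hitgK k c0 C0 C1 := by linarith
  positivity

theorem hitg_natDegree_sub (G : ℂ[X]) (t : ℂ) : (G - C t).natDegree = G.natDegree :=
  Polynomial.natDegree_sub_C

theorem hitg_lead_sub (G : ℂ[X]) (t : ℂ) (h : 1 ≤ G.natDegree) :
    (G - C t).leadingCoeff = G.leadingCoeff := by
  unfold Polynomial.leadingCoeff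
  rw [hitg_natDegree_sub, coeff_sub, coeff_C, if_neg (by omega), sub_zero]

theorem hitg_root_bound {k : ℕ} {c0 C0 C1 q T η ρ : ℝ} {G : ℂ[X]}
    (h : HitgA k c0 C0 C1 q T η ρ G) (t x : ℂ) (ht : ‖t‖ ≤ C1 * T) (hx : (G - C t).eval x = 0) :
    ‖x‖ ≤ hitgK k c0 C0 C1 * ρ := by
  by_contra hcon
  push Not at hcon
  have hk := h.hk
  have hc0 := h.c0p
  have hC0 := h.C0p
  have hC1 := h.C1p
  have hq := h.q1
  have hρ := h.ρ1
  have hK := hitgK_ge k c0 C0 C1 h.c0p h.C0p h.C1p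
  have hKx : hitgK k c0 C0 C1 ≤ ‖x‖ := by
    have := mul_le_mul_of_nonneg_left hρ (by linarith : 0 ≤ hitgK k c0 C0 C1)
    linarith
  have hx1 : 1 ≤ ‖x‖ := hK.trans hKx
  have h1 := hitg_root (G - C t) k (by omega) (by rw [hitg_natDegree_sub, h.deg]) (C0 * q)
    (C1 * T) (fun j hj _ => by
      rw [coeff_sub, coeff_C, if_neg (by omega), sub_zero]; exact h.coef j) (by positivity)
    (by rw [coeff_sub, h.G0, coeff_C_zero, zero_sub, norm_neg]; exact ht) x hx1 hx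
  rw [hitg_lead_sub G t (by rw [h.deg]; omega), h.Teq] at h1
  obtain ⟨d, rfl⟩ : ∃ d, k = d + 1 := ⟨k - 1, by omega⟩
  simp only [Nat.add_sub_cancel] at h1
  set K := hitgK (d + 1) c0 C0 C1 with hKdef
  have hK0 : 0 < K := by linarith
  -- K * (c0 q) ‖x‖^d ≤ ...
  have h2 : ρ ^ (d + 1) ≤ ‖x‖ ^ d * ‖x‖ / K := by
    rw [le_div_iff₀ hK0, ← pow_succ]
    have h3 : (K * ρ) ^ (d + 1) ≤ ‖x‖ ^ (d + 1) := pow_le_pow_left₀ (by positivity) hcon.le _
    have h4 : ρ ^ (d + 1) * K ≤ (K * ρ) ^ (d + 1) := by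
      rw [mul_pow, mul_comm]
      refine mul_le_mul_of_nonneg_right ?_ (by positivity)
      calc K = K ^ 1 := (pow_one K).symm
        _ ≤ K ^ (d + 1) := pow_le_pow_right₀ hK (by omega)
    linarith
  have h3 : ‖x‖ ^ d ≤ ‖x‖ ^ d * ‖x‖ / K := by
    rw [le_div_iff₀ hK0]
    exact mul_le_mul_of_nonneg_left hKx (by positivity)
  have hX : 0 < ‖x‖ ^ d * ‖x‖ := by positivity
  have h4 : c0 * q * (‖x‖ ^ d * ‖x‖) ≤
      (C0 * q * ((d + 1 : ℕ) : ℝ) + C1 * q) * (‖x‖ ^ d * ‖x‖ / K) := by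
    have h5 : c0 * q * (‖x‖ ^ d * ‖x‖) ≤ ‖G.leadingCoeff‖ * ‖x‖ ^ (d + 1) := by
      rw [pow_succ]
      exact mul_le_mul_of_nonneg_right h.lead hX.le
    have h6 : C0 * q * ((d + 1 : ℕ) : ℝ) * ‖x‖ ^ d ≤
        C0 * q * ((d + 1 : ℕ) : ℝ) * (‖x‖ ^ d * ‖x‖ / K) :=
      mul_le_mul_of_nonneg_left h3 (by positivity)
    have h7 : C1 * (q * ρ ^ (d + 1)) ≤ C1 * q * (‖x‖ ^ d * ‖x‖ / K) := by
      rw [← mul_assoc]
      exact mul_le_mul_of_nonneg_left h2 (by positivity)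
    linarith
  have h5 : c0 * q * K ≤ C0 * q * ((d + 1 : ℕ) : ℝ) + C1 * q := by
    have h6 : (c0 * q * K) * (‖x‖ ^ d * ‖x‖ / K) ≤
        (C0 * q * ((d + 1 : ℕ) : ℝ) + C1 * q) * (‖x‖ ^ d * ‖x‖ / K) := by
      refine le_trans (le_of_eq ?_) h4
      field_simp
    exact le_of_mul_le_mul_right h6 (by positivity)
  have h6 : c0 * K = c0 + 2 * (C0 * ((d + 1 : ℕ) : ℝ) + C1) := by
    rw [hKdef]
    unfold hitgK
    field_simp
  have h7 : c0 * q * K = (c0 * K) * q := by ring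
  rw [h7, h6] at h5
  have h8 : 0 < C0 * ((d + 1 : ℕ) : ℝ) + C1 := by positivity
  nlinarith

theorem hitg_crit_bound {k : ℕ} {c0 C0 C1 q T η ρ : ℝ} {G : ℂ[X]}
    (h : HitgA k c0 C0 C1 q T η ρ G) (x : ℂ) (hx : G.derivative.eval x = 0) :
    ‖x‖ ≤ hitgK k c0 C0 C1 * ρ := by
  by_contra hcon
  push Not at hcon
  have hk := h.hk
  have hc0 := h.c0p
  have hC0 := h.C0p
  have hC1 := h.C1p
  have hq := h.q1
  have hρ := h.ρ1
  have hK := hitgK_ge k c0 C0 C1 h.c0p h.C0p h.C1p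
  have hKx : hitgK k c0 C0 C1 < ‖x‖ := by
    have := mul_le_mul_of_nonneg_left hρ (by linarith : 0 ≤ hitgK k c0 C0 C1)
    linarith
  have hx1 : 1 ≤ ‖x‖ := hK.trans hKx.le
  have hdeg : G.derivative.natDegree = k - 1 := by
    have := Polynomial.degree_derivative (p := G) (by rw [h.deg]; omega)
    rw [h.deg] at this
    exact Polynomial.natDegree_eq_of_degree_eq_some this
  have hcoef : ∀ j, j < k → ‖G.derivative.coeff j‖ ≤ k * (C0 * q) := by
    intro j hj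
    rw [coeff_derivative, norm_mul, mul_comm]
    refine mul_le_mul ?_ (h.coef _) (norm_nonneg _) (by positivity)
    have : ‖((j : ℂ) + 1)‖ = (j : ℝ) + 1 := by
      have h1 : ((j : ℂ) + 1) = ((j + 1 : ℕ) : ℂ) := by push_cast; ring
      rw [h1, Complex.norm_natCast]; push_cast; ring
    rw [this]
    exact_mod_cast hj
  have h1 := hitg_root G.derivative (k - 1) (by omega) hdeg (k * (C0 * q))
    (k * (C0 * q)) (fun j _ hj => hcoef j (by omega)) (by positivity)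
    (hcoef 0 (by omega)) x hx1 hx
  have hlead : ‖G.derivative.leadingCoeff‖ = k * ‖G.leadingCoeff‖ := by
    unfold Polynomial.leadingCoeff
    rw [hdeg, coeff_derivative, h.deg, norm_mul, mul_comm, Nat.sub_add_cancel (by omega)]
    congr 1
    have h1 : (((k - 1 : ℕ) : ℂ) + 1) = ((k : ℕ) : ℂ) := by
      have : (((k - 1 : ℕ) : ℂ) + 1) = ((k - 1 + 1 : ℕ) : ℂ) := by push_cast; ring
      rw [this, Nat.sub_add_cancel (by omega)]
    rw [h1, Complex.norm_natCast]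
  rw [hlead] at h1
  obtain ⟨d, rfl⟩ : ∃ d, k = d + 2 := ⟨k - 2, by omega⟩
  have e1 : d + 2 - 1 = d + 1 := rfl
  have e2 : d + 2 - 1 - 1 = d := rfl
  rw [e2, e1] at h1
  have hx2 : (1 : ℝ) ≤ ‖x‖ ^ d := one_le_pow₀ hx1
  have hkp : (0 : ℝ) < ((d + 2 : ℕ) : ℝ) := by positivity
  have h2 : ((d + 2 : ℕ) : ℝ) * (c0 * q) * (‖x‖ ^ d * ‖x‖) ≤
      ((d + 2 : ℕ) : ℝ) * (C0 * q) * ((d + 2 : ℕ) : ℝ) * ‖x‖ ^ d := by
    have h3 : ((d + 2 : ℕ) : ℝ) * (c0 * q) * (‖x‖ ^ d * ‖x‖) ≤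
        ((d + 2 : ℕ) : ℝ) * ‖G.leadingCoeff‖ * ‖x‖ ^ (d + 1) := by
      rw [pow_succ]
      exact mul_le_mul_of_nonneg_right (mul_le_mul_of_nonneg_left h.lead hkp.le) (by positivity)
    have h4 : ((d + 2 : ℕ) : ℝ) * (C0 * q) ≤ ((d + 2 : ℕ) : ℝ) * (C0 * q) * ‖x‖ ^ d :=
      le_mul_of_one_le_right (by positivity) hx2
    have h5 : ((d + 2 : ℕ) : ℝ) * (C0 * q) * ((d + 1 : ℕ) : ℝ) * ‖x‖ ^ d +
        ((d + 2 : ℕ) : ℝ) * (C0 * q) * ‖x‖ ^ d =
        ((d + 2 : ℕ) : ℝ) * (C0 * q) * ((d + 2 : ℕ) : ℝ) * ‖x‖ ^ d := by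
      push_cast; ring
    linarith
  have h3 : c0 * ‖x‖ ≤ C0 * ((d + 2 : ℕ) : ℝ) := by
    have h4 : (((d + 2 : ℕ) : ℝ) * q * ‖x‖ ^ d) * (c0 * ‖x‖) ≤
        (((d + 2 : ℕ) : ℝ) * q * ‖x‖ ^ d) * (C0 * ((d + 2 : ℕ) : ℝ)) := by
      linarith
    exact le_of_mul_le_mul_left h4 (by positivity)
  have h4 : c0 * hitgK (d + 2) c0 C0 C1 = c0 + 2 * (C0 * ((d + 2 : ℕ) : ℝ) + C1) := by
    unfold hitgK
    field_simp
  have h5 : c0 * hitgK (d + 2) c0 C0 C1 < c0 * ‖x‖ := mul_lt_mul_of_pos_left hKx hc0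
  have h6 : 0 < C0 * ((d + 2 : ℕ) : ℝ) := by positivity
  linarith

/-- the roots of `F - t` are separated -/
theorem hitg_sep {k : ℕ} {c0 C0 C1 q T η ρ : ℝ} {G : ℂ[X]}
    (h : HitgA k c0 C0 C1 q T η ρ G) (ξ : Fin (k - 1) → ℂ)
    (hξ : G.derivative = C G.derivative.leadingCoeff * ∏ i, (X - C (ξ i)))
    (t : ℂ) (ht : ‖t‖ ≤ C1 * T) (hgood : ∀ i, η * T ≤ ‖t - G.eval (ξ i)‖) :
    ∃ y : Fin k → ℂ, G - C t = C G.leadingCoeff * ∏ i, (X - C (y i)) ∧
      (∀ i, ‖y i‖ ≤ hitgK k c0 C0 C1 * ρ) ∧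
      ∀ i j, i ≠ j → hitgc k c0 C0 C1 * η ^ (k - 1) * ρ ≤ ‖y i - y j‖ := by
  classical
  have hk := h.hk
  have hc0 := h.c0p
  have hC0 := h.C0p
  have hC1 := h.C1p
  have hq := h.q1
  have hρ := h.ρ1
  have hη := h.η0
  have hK := hitgK_ge k c0 C0 C1 h.c0p h.C0p h.C1p
  have hL := hitgL_pos k hk c0 C0 C1 h.c0p h.C0p h.C1p
  have hK0 : 0 < hitgK k c0 C0 C1 := by linarith
  obtain ⟨y, hy⟩ := hitg_enum (G - C t) k (by rw [hitg_natDegree_sub, h.deg])
  rw [hitg_lead_sub G t (by rw [h.deg]; omega)] at hy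
  have hroot : ∀ i, (G - C t).eval (y i) = 0 := by
    intro i
    rw [hy, eval_mul, eval_prod, Finset.prod_eq_zero (Finset.mem_univ i) (by simp), mul_zero]
  have hb : ∀ i, ‖y i‖ ≤ hitgK k c0 C0 C1 * ρ := fun i => hitg_root_bound h t (y i) ht (hroot i)
  refine ⟨y, hy, hb, ?_⟩
  have hξb : ∀ i, ‖ξ i‖ ≤ hitgK k c0 C0 C1 * ρ := by
    intro i
    apply hitg_crit_bound h
    rw [hξ, eval_mul, eval_prod, Finset.prod_eq_zero (Finset.mem_univ i) (by simp), mul_zero]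
  have hR1 : 1 ≤ hitgK k c0 C0 C1 * ρ := by nlinarith
  -- distance from the critical points
  have hd : ∀ j i, 1 / hitgL k c0 C0 C1 * (η * ρ) ≤ ‖y j - ξ i‖ := by
    intro j i
    have h1 := hitg_lip G k h.deg (C0 * q) (hitgK k c0 C0 C1 * ρ) h.coef hR1 (y j) (ξ i) (hb j)
      (hξb i)
    have h2 : G.eval (y j) = t := by
      have := hroot j
      rw [eval_sub, eval_C, sub_eq_zero] at this
      exact this
    rw [h2] at h1
    have h3 := (hgood i).trans h1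
    have h4 : (k + 1 : ℝ) * (C0 * q * (k * (hitgK k c0 C0 C1 * ρ) ^ (k - 1))) =
        hitgL k c0 C0 C1 * (q * ρ ^ (k - 1)) := by
      unfold hitgL
      rw [mul_pow]
      ring
    rw [h4, h.Teq] at h3
    have h5 : ρ ^ k = ρ ^ (k - 1) * ρ := by
      rw [← pow_succ, Nat.sub_add_cancel (by omega)]
    rw [h5] at h3
    have h6 : (q * ρ ^ (k - 1)) * (η * ρ) ≤ (q * ρ ^ (k - 1)) * (hitgL k c0 C0 C1 * ‖y j - ξ i‖) := by
      linarith
    have h7 := le_of_mul_le_mul_left h6 (by positivity)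
    rw [div_mul_eq_mul_div, one_mul, div_le_iff₀ hL]
    linarith
  -- the derivative
  have hkC : ‖G.derivative.leadingCoeff‖ = k * ‖G.leadingCoeff‖ := by
    have hdeg : G.derivative.natDegree = k - 1 := by
      have := Polynomial.degree_derivative (p := G) (by rw [h.deg]; omega)
      rw [h.deg] at this
      exact Polynomial.natDegree_eq_of_degree_eq_some this
    unfold Polynomial.leadingCoeff
    rw [hdeg, coeff_derivative, h.deg, norm_mul, mul_comm, Nat.sub_add_cancel (by omega)]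
    congr 1
    have h1 : (((k - 1 : ℕ) : ℂ) + 1) = ((k : ℕ) : ℂ) := by
      have : (((k - 1 : ℕ) : ℂ) + 1) = ((k - 1 + 1 : ℕ) : ℂ) := by push_cast; ring
      rw [this, Nat.sub_add_cancel (by omega)]
    rw [h1, Complex.norm_natCast]
  have ha0 : 0 < ‖G.leadingCoeff‖ := lt_of_lt_of_le (by positivity) h.lead
  intro i j hij
  have h1 := hitg_deriv G G.leadingCoeff t y hy j
  have h2 : ‖G.derivative.eval (y j)‖ = k * ‖G.leadingCoeff‖ * ∏ l, ‖y j - ξ l‖ := by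
    rw [hξ, eval_mul, eval_C, eval_prod, norm_mul, norm_prod]
    rw [← hkC]
    simp
  have h3 : (1 / hitgL k c0 C0 C1 * (η * ρ)) ^ (k - 1) ≤ ∏ l, ‖y j - ξ l‖ := by
    have := Finset.prod_le_prod (s := (univ : Finset (Fin (k - 1))))
      (f := fun _ => 1 / hitgL k c0 C0 C1 * (η * ρ)) (g := fun l => ‖y j - ξ l‖)
      (fun _ _ => by positivity) (fun l _ => hd j l)
    rwa [Finset.prod_const, Finset.card_univ, Fintype.card_fin] at this
  have h4 : ∏ l ∈ univ.erase j, ‖y j - y l‖ ≤ ‖y i - y j‖ * (2 * (hitgK k c0 C0 C1 * ρ)) ^ (k - 2) := by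
    have hi : i ∈ univ.erase j := Finset.mem_erase.2 ⟨hij, Finset.mem_univ _⟩
    rw [← Finset.mul_prod_erase _ _ hi, norm_sub_rev (y j) (y i)]
    refine mul_le_mul_of_nonneg_left ?_ (norm_nonneg _)
    have h5 := Finset.prod_le_prod (s := (univ.erase j).erase i)
      (f := fun l => ‖y j - y l‖) (g := fun _ => 2 * (hitgK k c0 C0 C1 * ρ))
      (fun _ _ => norm_nonneg _) (fun l _ => by
        refine (norm_sub_le _ _).trans ?_
        have := hb j
        have := hb l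
        linarith)
    rw [Finset.prod_const, Finset.card_erase_of_mem hi,
      Finset.card_erase_of_mem (Finset.mem_univ _), Finset.card_univ, Fintype.card_fin] at h5
    exact h5
  have h5 : ‖G.derivative.eval (y j)‖ = ‖G.leadingCoeff‖ * ∏ l ∈ univ.erase j, ‖y j - y l‖ := by
    rw [h1, norm_mul, norm_prod]
  have h6 : (1 / hitgL k c0 C0 C1 * (η * ρ)) ^ (k - 1) ≤
      ‖y i - y j‖ * (2 * (hitgK k c0 C0 C1 * ρ)) ^ (k - 2) := by
    have h7 : ‖G.leadingCoeff‖ * (1 / hitgL k c0 C0 C1 * (η * ρ)) ^ (k - 1) ≤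
        ‖G.leadingCoeff‖ * (‖y i - y j‖ * (2 * (hitgK k c0 C0 C1 * ρ)) ^ (k - 2)) := by
      calc _ ≤ ‖G.leadingCoeff‖ * ∏ l, ‖y j - ξ l‖ := mul_le_mul_of_nonneg_left h3 ha0.le
        _ ≤ k * ‖G.leadingCoeff‖ * ∏ l, ‖y j - ξ l‖ := by
            have hk1 : (1 : ℝ) ≤ k := by exact_mod_cast (by omega : 1 ≤ k)
            have : 0 ≤ ‖G.leadingCoeff‖ * ∏ l, ‖y j - ξ l‖ :=
              mul_nonneg ha0.le (Finset.prod_nonneg fun _ _ => norm_nonneg _)
            nlinarith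
        _ = ‖G.leadingCoeff‖ * ∏ l ∈ univ.erase j, ‖y j - y l‖ := by rw [← h2, h5]
        _ ≤ _ := mul_le_mul_of_nonneg_left h4 ha0.le
    exact le_of_mul_le_mul_left h7 ha0
  obtain ⟨d, rfl⟩ : ∃ d, k = d + 2 := ⟨k - 2, by omega⟩
  unfold hitgc
  have e1 : d + 2 - 1 = d + 1 := rfl
  have e2 : d + 2 - 2 = d := rfl
  rw [e1, e2] at h6 ⊢
  have h7 : ∀ A B : ℝ, 0 < B → A ^ (d + 1) / (2 * B) ^ d * η ^ (d + 1) * ρ =
      (A * (η * ρ)) ^ (d + 1) / (2 * (B * ρ)) ^ d := by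
    intro A B hB
    have hρ0 : 0 < ρ := by linarith
    have e3 : (2 * (B * ρ)) ^ d = (2 * B) ^ d * ρ ^ d := by rw [← mul_assoc, mul_pow]
    have e4 : (A * (η * ρ)) ^ (d + 1) = A ^ (d + 1) * η ^ (d + 1) * ρ * ρ ^ d := by
      rw [mul_pow, mul_pow, pow_succ ρ d]; ring
    rw [e3, e4, mul_div_mul_right _ _ (by positivity)]
    ring
  rw [h7 _ _ hK0, div_le_iff₀ (by positivity)]
  exact h6

theorem hitg_count (S : Finset ℤ) (v r : ℝ) (hr : 0 ≤ r) :
    ((S.filter (fun t : ℤ => |(t : ℝ) - v| < r)).card : ℝ) ≤ 2 * r + 1 := by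
  have h1 : S.filter (fun t : ℤ => |(t : ℝ) - v| < r) ⊆ Finset.Icc ⌈v - r⌉ ⌊v + r⌋ := by
    intro t ht
    rw [Finset.mem_filter, abs_lt] at ht
    rw [Finset.mem_Icc, Int.ceil_le, Int.le_floor]
    constructor <;> linarith [ht.2.1, ht.2.2]
  have h2 := Finset.card_le_card h1
  rw [Int.card_Icc] at h2
  have h3 : (((⌊v + r⌋ + 1 - ⌈v - r⌉).toNat : ℕ) : ℝ) ≤ 2 * r + 1 := by
    have h4 : (((⌊v + r⌋ + 1 - ⌈v - r⌉).toNat : ℤ)) = max (⌊v + r⌋ + 1 - ⌈v - r⌉) 0 :=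
      Int.toNat_eq_max _
    have h5 : (((⌊v + r⌋ + 1 - ⌈v - r⌉).toNat : ℕ) : ℝ) =
        ((((⌊v + r⌋ + 1 - ⌈v - r⌉).toNat : ℤ)) : ℝ) := by norm_cast
    rw [h5, h4]
    push_cast
    apply max_le
    · have := Int.floor_le (v + r)
      have := Int.le_ceil (v - r)
      linarith
    · linarith
  exact le_trans (by exact_mod_cast h2) h3

/-- the constant `c5` -/
noncomputable def hitgc5 (k : ℕ) (c0 C0 C1 : ℝ) : ℝ := c0 * (hitgc k c0 C0 C1 / 8) ^ k

noncomputable def hitgc6 (k : ℕ) (c0 C0 C1 : ℝ) : ℝ := c0 * (hitgc k c0 C0 C1 / 2) ^ (k - 1)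

theorem hitg_bad_card {k : ℕ} (G : ℂ[X]) (ξ : Fin (k - 1) → ℂ) (S : Finset ℤ) (r : ℝ) (hr : 0 ≤ r) :
    ((S.filter (fun t : ℤ => ∃ i, ‖(t : ℂ) - G.eval (ξ i)‖ < r)).card : ℝ) ≤ k * (2 * r + 1) := by
  classical
  have h1 : S.filter (fun t : ℤ => ∃ i, ‖(t : ℂ) - G.eval (ξ i)‖ < r) ⊆
      univ.biUnion (fun i => S.filter (fun t : ℤ => |(t : ℝ) - (G.eval (ξ i)).re| < r)) := by
    intro t ht
    rw [Finset.mem_filter] at ht
    obtain ⟨hS, i, hi⟩ := ht
    rw [Finset.mem_biUnion]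
    refine ⟨i, Finset.mem_univ _, Finset.mem_filter.2 ⟨hS, lt_of_le_of_lt ?_ hi⟩⟩
    have := Complex.abs_re_le_norm ((t : ℂ) - G.eval (ξ i))
    simpa using this
  have h2 : (S.filter (fun t : ℤ => ∃ i, ‖(t : ℂ) - G.eval (ξ i)‖ < r)).card ≤
      ∑ i : Fin (k - 1), (S.filter (fun t : ℤ => |(t : ℝ) - (G.eval (ξ i)).re| < r)).card :=
    (Finset.card_le_card h1).trans Finset.card_biUnion_le
  have h3 : ((S.filter (fun t : ℤ => ∃ i, ‖(t : ℂ) - G.eval (ξ i)‖ < r)).card : ℝ) ≤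
      ∑ i : Fin (k - 1), ((S.filter (fun t : ℤ => |(t : ℝ) - (G.eval (ξ i)).re| < r)).card : ℝ) := by
    exact_mod_cast h2
  refine h3.trans ((Finset.sum_le_sum fun i _ => hitg_count S _ r hr).trans ?_)
  rw [Finset.sum_const, Finset.card_univ, Fintype.card_fin, nsmul_eq_mul]
  refine mul_le_mul_of_nonneg_right ?_ (by positivity)
  exact_mod_cast Nat.sub_le k 1

/-- the windows -/
theorem hitg_window {k : ℕ} {c0 C0 C1 q T η ρ : ℝ} {G : ℂ[X]}
    (h : HitgA k c0 C0 C1 q T η ρ G) (ξ : Fin (k - 1) → ℂ)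
    (hξ : G.derivative = C G.derivative.leadingCoeff * ∏ i, (X - C (ξ i)))
    (Adm : ℤ → Prop) (hA1 : ∀ t, Adm t → |(t : ℝ)| ≤ C1 * T)
    (hA2 : ∀ t, Adm t → ∀ i, η * T ≤ ‖(t : ℂ) - G.eval (ξ i)‖)
    (hA3 : ∀ t t', Adm t → Adm t' → |(t : ℝ) - t'| ≤ hitgc5 k c0 C0 C1 * η ^ (k * k) * T) :
    ∃ y : ℤ → Fin k → ℂ, ∀ t, Adm t →
      (Function.Injective (y t) ∧ G - C (t : ℂ) = C G.leadingCoeff * ∏ i, (X - C (y t i))) ∧
      (∀ i, ‖y t i‖ ≤ hitgK k c0 C0 C1 * ρ) ∧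
      ∀ t', Adm t' → ∀ i, ‖y t i - y t' i‖ * (hitgc6 k c0 C0 C1 * (q * η ^ (k * k) * ρ ^ (k - 1))) ≤
        |(t : ℝ) - t'| := by
  classical
  have hk := h.hk
  have hc0 := h.c0p
  have hq := h.q1
  have hρ := h.ρ1
  have hη := h.η0
  have hη1 := h.η1
  have hc := hitgc_pos k hk c0 C0 C1 h.c0p h.C0p h.C1p
  obtain ⟨sep, hsepdef⟩ : ∃ sep, sep = hitgc k c0 C0 C1 * η ^ (k - 1) * ρ := ⟨_, rfl⟩
  have hsep : 0 < sep := by rw [hsepdef]; positivity
  have ha0 : 0 < ‖G.leadingCoeff‖ := lt_of_lt_of_le (by positivity) h.lead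
  have hne : G.leadingCoeff ≠ 0 := norm_pos_iff.1 ha0
  have hdist : ∀ t t' : ℤ, ‖(t : ℂ) - (t' : ℂ)‖ = |(t : ℝ) - t'| := by
    intro t t'
    have : (t : ℂ) - (t' : ℂ) = (((t : ℝ) - t' : ℝ) : ℂ) := by push_cast; ring
    rw [this, Complex.norm_real, Real.norm_eq_abs]
  -- enumerations
  have henum : ∀ t, Adm t → ∃ y : Fin k → ℂ, G - C (t : ℂ) = C G.leadingCoeff * ∏ i, (X - C (y i)) ∧
      (∀ i, ‖y i‖ ≤ hitgK k c0 C0 C1 * ρ) ∧ ∀ i j, i ≠ j → sep ≤ ‖y i - y j‖ := by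
    intro t ht
    rw [hsepdef]
    refine hitg_sep h ξ hξ (t : ℂ) ?_ (hA2 t ht)
    have : ‖(t : ℂ)‖ = |(t : ℝ)| := by
      have h1 : (t : ℂ) = ((t : ℝ) : ℂ) := by push_cast; rfl
      rw [h1, Complex.norm_real, Real.norm_eq_abs]
    rw [this]
    exact hA1 t ht
  have hclose : ∀ t t', Adm t → Adm t' → ‖(t : ℂ) - (t' : ℂ)‖ ≤ ‖G.leadingCoeff‖ * (sep / 8) ^ k := by
    intro t t' ht ht'
    rw [hdist]
    refine (hA3 t t' ht ht').trans ?_
    have h1 : hitgc5 k c0 C0 C1 * η ^ (k * k) * T =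
        c0 * q * ((hitgc k c0 C0 C1 / 8) ^ k * ((η ^ k) ^ k * ρ ^ k)) := by
      unfold hitgc5
      rw [h.Teq, pow_mul]
      ring
    have h2 : (sep / 8) ^ k = (hitgc k c0 C0 C1 / 8) ^ k * ((η ^ (k - 1)) ^ k * ρ ^ k) := by
      rw [hsepdef, ← mul_pow, ← mul_pow]
      congr 1
      ring
    rw [h1, h2]
    refine mul_le_mul h.lead ?_ (by positivity) ha0.le
    refine mul_le_mul_of_nonneg_left ?_ (by positivity)
    refine mul_le_mul_of_nonneg_right ?_ (by positivity)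
    exact pow_le_pow_left₀ (by positivity) (pow_le_pow_of_le_one hη.le hη1 (by omega)) _
  have hlow : hitgc6 k c0 C0 C1 * (q * η ^ (k * k) * ρ ^ (k - 1)) ≤
      ‖G.leadingCoeff‖ * (sep / 2) ^ (k - 1) := by
    have h1 : hitgc6 k c0 C0 C1 * (q * η ^ (k * k) * ρ ^ (k - 1)) =
        c0 * q * ((hitgc k c0 C0 C1 / 2) ^ (k - 1) * (η ^ (k * k) * ρ ^ (k - 1))) := by
      unfold hitgc6
      ring
    have h2 : (sep / 2) ^ (k - 1) =
        (hitgc k c0 C0 C1 / 2) ^ (k - 1) * ((η ^ (k - 1)) ^ (k - 1) * ρ ^ (k - 1)) := by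
      rw [hsepdef, ← mul_pow, ← mul_pow]
      congr 1
      ring
    rw [h1, h2]
    refine mul_le_mul h.lead ?_ (by positivity) ha0.le
    refine mul_le_mul_of_nonneg_left ?_ (by positivity)
    refine mul_le_mul_of_nonneg_right ?_ (by positivity)
    rw [← pow_mul]
    exact pow_le_pow_of_le_one hη.le hη1 (Nat.mul_le_mul (Nat.sub_le _ _) (Nat.sub_le _ _))
  by_cases hex : ∃ t, Adm t
  swap
  · exact ⟨fun _ _ => 0, fun t ht => absurd ⟨t, ht⟩ hex⟩
  obtain ⟨ts, hts⟩ := hex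
  obtain ⟨ys, hys1, hys2, hys3⟩ := henum ts hts
  have hnear : ∀ t, Adm t → ∃ y : Fin k → ℂ, G - C (t : ℂ) = C G.leadingCoeff * ∏ i, (X - C (y i)) ∧
      (∀ i, ‖y i‖ ≤ hitgK k c0 C0 C1 * ρ) ∧ (∀ i j, i ≠ j → sep ≤ ‖y i - y j‖) ∧
      ∀ i, ‖ys i - y i‖ ≤ sep / 8 := by
    intro t ht
    obtain ⟨z, hz1, hz2, hz3⟩ := henum t ht
    choose σ hσ1 hσ2 using fun i => hitg_match G G.leadingCoeff (ts : ℂ) (t : ℂ) sep hne hsep ys z
      hys1 hz1 hz3 (hclose ts t hts ht) i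
    have hinj : Function.Injective σ := by
      intro i i' hii
      by_contra hne'
      have h1 := hys3 i i' hne'
      have h2 : ‖ys i - ys i'‖ ≤ ‖ys i - z (σ i)‖ + ‖ys i' - z (σ i')‖ := by
        have : ys i - ys i' = (ys i - z (σ i)) - (ys i' - z (σ i')) := by rw [hii]; ring
        rw [this]
        exact norm_sub_le _ _
      have := hσ1 i
      have := hσ1 i'
      linarith
    have hbij : Function.Bijective σ := Finite.injective_iff_bijective.1 hinj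
    refine ⟨fun i => z (σ i), ?_, fun i => hz2 _, fun i j hij => hz3 _ _ fun h => hij (hinj h), hσ1⟩
    rw [hz1]
    congr 1
    exact ((Equiv.ofBijective σ hbij).prod_comp (fun i => X - C (z i))).symm
  have hchoice : ∀ t, ∃ y : Fin k → ℂ, Adm t →
      (G - C (t : ℂ) = C G.leadingCoeff * ∏ i, (X - C (y i)) ∧
      (∀ i, ‖y i‖ ≤ hitgK k c0 C0 C1 * ρ) ∧ (∀ i j, i ≠ j → sep ≤ ‖y i - y j‖) ∧
      ∀ i, ‖ys i - y i‖ ≤ sep / 8) := by
    intro t
    by_cases ht : Adm t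
    · obtain ⟨y, hy⟩ := hnear t ht
      exact ⟨y, fun _ => hy⟩
    · exact ⟨0, fun h => absurd h ht⟩
  choose y hy using hchoice
  refine ⟨y, fun t ht => ?_⟩
  obtain ⟨hy1, hy2, hy3, hy4⟩ := hy t ht
  refine ⟨⟨?_, hy1⟩, hy2, ?_⟩
  · intro i j hij
    by_contra hne'
    have := hy3 i j hne'
    rw [hij, sub_self, norm_zero] at this
    linarith
  · intro t' ht' i
    obtain ⟨hz1, hz2, hz3, hz4⟩ := hy t' ht'
    obtain ⟨j, hj1, hj2⟩ := hitg_match G G.leadingCoeff (t : ℂ) (t' : ℂ) sep hne hsep (y t) (y t')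
      hy1 hz1 hz3 (hclose t t' ht ht') i
    have hji : j = i := by
      by_contra hne'
      have h1 := hys3 j i hne'
      have h2 : ‖ys j - ys i‖ ≤ ‖ys j - y t' j‖ + ‖y t i - y t' j‖ + ‖ys i - y t i‖ := by
        have : ys j - ys i = (ys j - y t' j) - (y t i - y t' j) - (ys i - y t i) := by ring
        rw [this]
        refine (norm_sub_le _ _).trans ?_
        have := norm_sub_le (ys j - y t' j) (y t i - y t' j)
        linarith
      have := hz4 j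
      have := hy4 i
      linarith
    subst hji
    rw [hdist] at hj2
    exact le_trans (mul_le_mul_of_nonneg_left hlow (norm_nonneg _)) hj2

theorem hit_geom (k : ℕ) (hk : 2 ≤ k) (c0 C0 C1 : ℝ) (hc0 : 0 < c0) (hC0 : 0 < C0) (hC1 : 0 < C1) :
    ∃ (Cg : ℝ) (m : ℕ), 1 ≤ Cg ∧ ∀ (F : ℤ[X]) (q T η : ℝ), F.natDegree = k → F.coeff 0 = 0 →
    1 ≤ q → q ≤ T → 0 < η → η ≤ 1 → c0 * q ≤ |((F.leadingCoeff : ℤ) : ℝ)| → HtLe F (C0 * q) →
    ∃ bad : Finset ℤ, (bad.card : ℝ) ≤ Cg * (η * T + 1) ∧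
    ∀ t0 : ℤ, ∃ y : ℤ → Fin k → ℂ,
      ∀ t : ℤ, |(t : ℝ)| ≤ C1 * T → t ∉ bad → |(t : ℝ) - t0| ≤ η ^ m * T / Cg →
        RootsOf k F t (y t) ∧ (∀ i, ‖y t i‖ ≤ Cg * (T / q) ^ ((1 : ℝ) / k)) ∧
        ∀ t' : ℤ, |(t' : ℝ)| ≤ C1 * T → t' ∉ bad → |(t' : ℝ) - t0| ≤ η ^ m * T / Cg →
          ∀ i, ‖y t i - y t' i‖ ≤
            Cg * |(t : ℝ) - t'| / (q * η ^ m * (T / q) ^ (((k : ℝ) - 1) / k)) := by
  classical
  have hK := hitgK_ge k c0 C0 C1 hc0 hC0 hC1
  have hc := hitgc_pos k hk c0 C0 C1 hc0 hC0 hC1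
  have hc5 : 0 < hitgc5 k c0 C0 C1 := by unfold hitgc5; positivity
  have hc6 : 0 < hitgc6 k c0 C0 C1 := by unfold hitgc6; positivity
  have hk0 : (0 : ℝ) < k := by exact_mod_cast (by omega : 0 < k)
  obtain ⟨Cg, hCg⟩ : ∃ Cg, Cg = hitgK k c0 C0 C1 + 2 / hitgc5 k c0 C0 C1 + 1 / hitgc6 k c0 C0 C1 +
    2 * (k : ℝ) := ⟨_, rfl⟩
  have h5p : 0 < 2 / hitgc5 k c0 C0 C1 := by positivity
  have h6p : 0 < 1 / hitgc6 k c0 C0 C1 := by positivity
  have hCgK : hitgK k c0 C0 C1 ≤ Cg := by rw [hCg]; linarith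
  have hCg5 : 2 / hitgc5 k c0 C0 C1 ≤ Cg := by rw [hCg]; linarith
  have hCg6 : 1 / hitgc6 k c0 C0 C1 ≤ Cg := by rw [hCg]; linarith
  have hCgk : 2 * (k : ℝ) ≤ Cg := by rw [hCg]; linarith
  have hCg1 : 1 ≤ Cg := hK.trans hCgK
  have hCg0 : 0 < Cg := by linarith
  refine ⟨Cg, k * k, hCg1, ?_⟩
  intro F q T η hdeg hF0 hq hqT hη hη1 hlead hH
  have hq0 : 0 < q := by linarith
  have hT0 : 0 < T := by linarith
  have hTq : 1 ≤ T / q := by rw [le_div_iff₀ hq0]; linarith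
  obtain ⟨ρ, hρdef⟩ : ∃ ρ, ρ = (T / q) ^ ((1 : ℝ) / k) := ⟨_, rfl⟩
  have hρ1 : 1 ≤ ρ := by
    rw [hρdef]
    exact Real.one_le_rpow hTq (by positivity)
  have hρk : ρ ^ k = T / q := by
    rw [hρdef, ← Real.rpow_natCast, ← Real.rpow_mul (by positivity), one_div,
      inv_mul_cancel₀ hk0.ne', Real.rpow_one]
  have hρk1 : (T / q) ^ (((k : ℝ) - 1) / k) = ρ ^ (k - 1) := by
    rw [hρdef, ← Real.rpow_natCast, ← Real.rpow_mul (by positivity), Nat.cast_sub (by omega)]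
    congr 1
    push_cast
    ring
  have hTeq : T = q * ρ ^ k := by rw [hρk]; field_simp
  obtain ⟨G, hG⟩ : ∃ G, G = F.map (Int.castRingHom ℂ) := ⟨_, rfl⟩
  have hinj : Function.Injective (Int.castRingHom ℂ) := (Int.castRingHom ℂ).injective_int
  have hGdeg : G.natDegree = k := by
    rw [hG, Polynomial.natDegree_map_eq_of_injective hinj, hdeg]
  have hGcoef : ∀ j, G.coeff j = ((F.coeff j : ℤ) : ℂ) := by
    intro j; rw [hG, coeff_map]; rfl
  have hGlead : G.leadingCoeff = ((F.leadingCoeff : ℤ) : ℂ) := by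
    unfold Polynomial.leadingCoeff
    rw [hGdeg, hdeg, hGcoef]
  have hA : HitgA k c0 C0 C1 q T η ρ G := by
    refine ⟨hk, hc0, hC0, hC1, hq, hTeq, hρ1, hη, hη1, hGdeg, ?_, ?_, ?_⟩
    · rw [hGcoef, hF0]; simp
    · rw [hGlead, Complex.norm_intCast]; exact hlead
    · intro j; rw [hGcoef, Complex.norm_intCast]; exact hH j
  have hddeg : G.derivative.natDegree = k - 1 := by
    have := Polynomial.degree_derivative (p := G) (by rw [hGdeg]; omega)
    rw [hGdeg] at this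
    exact Polynomial.natDegree_eq_of_degree_eq_some this
  obtain ⟨ξ, hξ⟩ := hitg_enum G.derivative (k - 1) hddeg
  have hηT : 0 ≤ η * T := by positivity
  refine ⟨(Finset.Icc (-⌊C1 * T⌋) ⌊C1 * T⌋).filter
    (fun t : ℤ => ∃ i, ‖(t : ℂ) - G.eval (ξ i)‖ < η * T), ?_, ?_⟩
  · refine (hitg_bad_card G ξ _ _ hηT).trans ?_
    have : (k : ℝ) * (2 * (η * T) + 1) ≤ 2 * k * (η * T + 1) := by nlinarith
    exact this.trans (mul_le_mul_of_nonneg_right hCgk (by positivity))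
  intro t0
  obtain ⟨Adm, hAdm⟩ : ∃ Adm : ℤ → Prop, Adm = fun t : ℤ => |(t : ℝ)| ≤ C1 * T ∧
    t ∉ (Finset.Icc (-⌊C1 * T⌋) ⌊C1 * T⌋).filter
      (fun t : ℤ => ∃ i, ‖(t : ℂ) - G.eval (ξ i)‖ < η * T) ∧
    |(t : ℝ) - t0| ≤ η ^ (k * k) * T / Cg := ⟨_, rfl⟩
  obtain ⟨y, hy⟩ := hitg_window hA ξ hξ Adm (fun t ht => by rw [hAdm] at ht; exact ht.1)
    (fun t ht i => by
      rw [hAdm] at ht
      by_contra hcon
      push Not at hcon
      apply ht.2.1
      rw [Finset.mem_filter, Finset.mem_Icc]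
      refine ⟨⟨?_, ?_⟩, i, hcon⟩
      · have h1 : -t ≤ ⌊C1 * T⌋ := by
          rw [Int.le_floor]; push_cast
          have := (abs_le.1 ht.1).1
          linarith
        linarith
      · rw [Int.le_floor]
        exact (abs_le.1 ht.1).2)
    (fun t t' ht ht' => by
      rw [hAdm] at ht ht'
      have h1 : |(t : ℝ) - t'| ≤ |(t : ℝ) - t0| + |(t' : ℝ) - t0| := by
        have : (t : ℝ) - t' = (t - t0) - (t' - t0) := by ring
        rw [this]
        exact abs_sub _ _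
      have h2 := ht.2.2
      have h3 := ht'.2.2
      have h4 : 2 / Cg ≤ hitgc5 k c0 C0 C1 := by
        rw [div_le_iff₀ hCg0]
        rw [div_le_iff₀ hc5] at hCg5
        linarith
      have h5 : η ^ (k * k) * T / Cg + η ^ (k * k) * T / Cg = 2 / Cg * (η ^ (k * k) * T) := by ring
      have h6 : 2 / Cg * (η ^ (k * k) * T) ≤ hitgc5 k c0 C0 C1 * (η ^ (k * k) * T) :=
        mul_le_mul_of_nonneg_right h4 (by positivity)
      calc |(t : ℝ) - t'| ≤ η ^ (k * k) * T / Cg + η ^ (k * k) * T / Cg := by linarith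
        _ ≤ hitgc5 k c0 C0 C1 * (η ^ (k * k) * T) := by rw [h5]; exact h6
        _ = _ := by ring)
  refine ⟨y, ?_⟩
  intro t h1 h2 h3
  have hAt : Adm t := by rw [hAdm]; exact ⟨h1, h2, h3⟩
  obtain ⟨⟨hi, hy1⟩, hy2, hy3⟩ := hy t hAt
  refine ⟨⟨hi, ?_⟩, ?_, ?_⟩
  · rw [Polynomial.map_sub, Polynomial.map_C, ← hG, ← hGlead]
    exact hy1
  · intro i
    rw [← hρdef]
    exact (hy2 i).trans (mul_le_mul_of_nonneg_right hCgK (by linarith))
  · intro t' h1' h2' h3' i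
    have hAt' : Adm t' := by rw [hAdm]; exact ⟨h1', h2', h3'⟩
    have h4 := hy3 t' hAt' i
    rw [hρk1]
    rw [le_div_iff₀ (by positivity)]
    have h5 : hitgc6 k c0 C0 C1 * (‖y t i - y t' i‖ * (q * η ^ (k * k) * ρ ^ (k - 1))) ≤
        |(t : ℝ) - t'| := by
      calc _ = ‖y t i - y t' i‖ * (hitgc6 k c0 C0 C1 * (q * η ^ (k * k) * ρ ^ (k - 1))) := by ring
        _ ≤ _ := h4
    have h6 : ‖y t i - y t' i‖ * (q * η ^ (k * k) * ρ ^ (k - 1)) ≤
        1 / hitgc6 k c0 C0 C1 * |(t : ℝ) - t'| := by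
      rw [div_mul_eq_mul_div, one_mul, le_div_iff₀ hc6]
      linarith
    exact h6.trans (mul_le_mul_of_nonneg_right hCg6 (abs_nonneg _))

end EK75

end S_H75_EK_HitG

section S_H75_EK_HitI

/-! Module HITI: denominators ideals of factors (Gauss' lemma) and separation by norms. -/

open Polynomial Finset NumberField
open scoped Real BigOperators

namespace EK75

/-- `b` clears the denominators of all coefficients of `A` -/
def Clears {K : Type} [Field K] [NumberField K] (b : Ideal (𝓞 K)) (A : K[X]) : Prop :=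
  ∀ m : ℕ, ∀ x ∈ b, ∃ z : 𝓞 K, (z : K) = (x : K) * A.coeff m

/-- common denominator of a polynomial -/
theorem hiti_denom {K : Type} [Field K] [NumberField K] (A : K[X]) :
    ∃ d : 𝓞 K, d ≠ 0 ∧ ∀ m, ∃ y : 𝓞 K, (y : K) = (d : K) * A.coeff m := by
  obtain ⟨b, hb⟩ := IsLocalization.exist_integer_multiples_of_finset (nonZeroDivisors (𝓞 K))
    (S := K) A.coeffs
  refine ⟨b, nonZeroDivisors.ne_zero b.2, fun m => ?_⟩
  by_cases hm : A.coeff m = 0
  · exact ⟨0, by simp [hm]⟩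
  · obtain ⟨y, hy⟩ := hb (A.coeff m) (Polynomial.coeff_mem_coeffs hm)
    refine ⟨y, ?_⟩
    rw [show ((y : 𝓞 K) : K) = algebraMap (𝓞 K) K y from rfl, hy, Algebra.smul_def]

/-- products of coefficients of factors of an integral polynomial are integral (Kronecker) -/
theorem hiti_prod_int {K : Type} [Field K] [NumberField K] (F : ℤ[X]) (a : ℤ)
    (A B : K[X]) (hfac : F.map (algebraMap ℤ K) = C (a : K) * A * B) (m n : ℕ) :
    ∃ z : 𝓞 K, (z : K) = (a : K) * A.coeff m * B.coeff n := by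
  have key : (a : K) * A.coeff m * B.coeff n ∈ (algebraMap (𝓞 K) K).range := by
    apply IsDedekindDomain.HeightOneSpectrum.mem_integers_of_valuation_le_one
    intro v
    have hb : (1 : NNReal) < 2 := by norm_num
    have hna := v.isNonarchimedean_adicAbv (K := K) hb
    set w : AbsoluteValue K ℝ := v.adicAbv hb with hw
    have h1 : w ((a : K) * A.coeff m * B.coeff n) ≤ 1 := by
      rw [map_mul, map_mul]
      have hA := A.le_gaussNorm w (c := 1) zero_le_one m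
      have hB := B.le_gaussNorm w (c := 1) zero_le_one n
      rw [one_pow, mul_one] at hA hB
      have hF : (F.map (algebraMap ℤ K)).gaussNorm w 1 ≤ 1 := by
        obtain ⟨i, hi⟩ := (F.map (algebraMap ℤ K)).exists_eq_gaussNorm w 1
        rw [hi, one_pow, mul_one, Polynomial.coeff_map]
        have : (algebraMap ℤ K) (F.coeff i) = algebraMap (𝓞 K) K (algebraMap ℤ (𝓞 K) (F.coeff i)) := by
          rw [← IsScalarTower.algebraMap_apply]
        rw [this]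
        exact v.adicAbv_coe_le_one hb _
      rw [hfac, Polynomial.gaussNorm_mul hna zero_lt_one, Polynomial.gaussNorm_mul hna zero_lt_one,
        Polynomial.gaussNorm_C] at hF
      refine le_trans ?_ hF
      have h0 : 0 ≤ w (a : K) := w.nonneg _
      have h0A : 0 ≤ w (A.coeff m) := w.nonneg _
      have h0B : 0 ≤ w (B.coeff n) := w.nonneg _
      have h0G : 0 ≤ gaussNorm w 1 A := A.gaussNorm_nonneg w zero_le_one
      exact mul_le_mul (mul_le_mul_of_nonneg_left hA h0) hB h0B (mul_nonneg h0 h0G)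
    have h2 : (v.adicAbv hb : AbsoluteValue K ℝ) ((a : K) * A.coeff m * B.coeff n) =
      ((WithZeroMulInt.toNNReal (ne_zero_of_lt hb) (v.valuation K ((a : K) * A.coeff m * B.coeff n)) : NNReal) : ℝ) := rfl
    rw [hw, h2] at h1
    have h3 : WithZeroMulInt.toNNReal (ne_zero_of_lt hb) (v.valuation K ((a : K) * A.coeff m * B.coeff n)) ≤ 1 := by
      exact_mod_cast h1
    exact (WithZeroMulInt.toNNReal_le_one_iff hb).mp h3
  obtain ⟨z, hz⟩ := key
  exact ⟨z, hz⟩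

theorem gauss_split {K : Type} [Field K] [NumberField K] (F : ℤ[X]) (a : ℤ) (ha : a ≠ 0)
    (A B : K[X]) (hA : A.Monic) (hB : B.Monic) (hfac : F.map (algebraMap ℤ K) = C (a : K) * A * B) :
    ∃ b c : Ideal (𝓞 K), b ≠ ⊥ ∧ c ≠ ⊥ ∧ b * c ∣ Ideal.span {(a : 𝓞 K)} ∧ Clears b A ∧ Clears c B := by
  obtain ⟨d, hd, hdA⟩ := hiti_denom A
  obtain ⟨e, he, heB⟩ := hiti_denom B
  choose yA hyA using hdA
  choose yB hyB using heB
  have hdK : (d : K) ≠ 0 := by
    simpa using hd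
  have heK : (e : K) ≠ 0 := by
    simpa using he
  set I : Ideal (𝓞 K) := Ideal.span (Set.range yA) with hI
  set J : Ideal (𝓞 K) := Ideal.span (Set.range yB) with hJ
  have hdI : Ideal.span {d} ≤ I := by
    rw [Ideal.span_singleton_le_iff_mem]
    have : d = yA A.natDegree := by
      apply RingOfIntegers.ext
      rw [hyA, Polynomial.coeff_natDegree, hA.leadingCoeff, mul_one]
    rw [this]
    exact Ideal.subset_span ⟨_, rfl⟩
  have heJ : Ideal.span {e} ≤ J := by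
    rw [Ideal.span_singleton_le_iff_mem]
    have : e = yB B.natDegree := by
      apply RingOfIntegers.ext
      rw [hyB, Polynomial.coeff_natDegree, hB.leadingCoeff, mul_one]
    rw [this]
    exact Ideal.subset_span ⟨_, rfl⟩
  obtain ⟨b, hb⟩ := Ideal.dvd_iff_le.mpr hdI
  obtain ⟨c, hc⟩ := Ideal.dvd_iff_le.mpr heJ
  have hdb : Ideal.span {d} ≠ (⊥ : Ideal (𝓞 K)) := by
    rwa [Ne, Ideal.span_singleton_eq_bot]
  have heb : Ideal.span {e} ≠ (⊥ : Ideal (𝓞 K)) := by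
    rwa [Ne, Ideal.span_singleton_eq_bot]
  have hI0 : I ≠ ⊥ := by
    rintro h; rw [h, Ideal.bot_mul] at hb; exact hdb hb
  have hJ0 : J ≠ ⊥ := by
    rintro h; rw [h, Ideal.bot_mul] at hc; exact heb hc
  refine ⟨b, c, ?_, ?_, ?_, ?_, ?_⟩
  · rintro h; rw [h, Ideal.mul_bot] at hb; exact hdb hb
  · rintro h; rw [h, Ideal.mul_bot] at hc; exact heb hc
  · have hle : Ideal.span {(a : 𝓞 K)} * (I * J) ≤ Ideal.span {d} * Ideal.span {e} := by
      rw [Ideal.span_singleton_mul_span_singleton, hI, hJ, Ideal.span_mul_span', Ideal.span_mul_span',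
        Ideal.span_le]
      rintro _ ⟨_, rfl, _, ⟨_, ⟨m, rfl⟩, _, ⟨n, rfl⟩, rfl⟩, rfl⟩
      rw [SetLike.mem_coe, Ideal.mem_span_singleton]
      obtain ⟨z, hz⟩ := hiti_prod_int F a A B hfac m n
      refine ⟨z, ?_⟩
      apply RingOfIntegers.ext
      simp only [map_mul, hyA, hyB, hz, map_intCast]
      ring
    rw [hb, hc] at hle
    have hdvd := Ideal.dvd_iff_le.mpr hle
    have h2 : (I * J) * (b * c) ∣ (I * J) * Ideal.span {(a : 𝓞 K)} := by
      have e1 : (I * J) * (b * c) = I * b * (J * c) := by ring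
      have e2 : (I * J) * Ideal.span {(a : 𝓞 K)} = Ideal.span {(a : 𝓞 K)} * (I * J) := by ring
      rw [e1, e2]; exact hdvd
    have hIJ : I * J ≠ 0 := by
      rw [Ne, Ideal.zero_eq_bot, Ideal.mul_eq_bot]
      push Not
      exact ⟨hI0, hJ0⟩
    exact (mul_dvd_mul_iff_left hIJ).mp h2
  · intro m x hx
    have : yA m * x ∈ I * b := Ideal.mul_mem_mul (Ideal.subset_span ⟨m, rfl⟩) hx
    rw [← hb, Ideal.mem_span_singleton] at this
    obtain ⟨z, hz⟩ := this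
    refine ⟨z, ?_⟩
    have h1 : ((yA m * x : 𝓞 K) : K) = ((d * z : 𝓞 K) : K) := by rw [hz]
    simp only [map_mul, hyA] at h1
    have h2 : (d : K) * ((x : K) * A.coeff m) = (d : K) * (z : K) := by rw [← h1]; ring
    exact (mul_left_cancel₀ hdK h2).symm
  · intro m x hx
    have : yB m * x ∈ J * c := Ideal.mul_mem_mul (Ideal.subset_span ⟨m, rfl⟩) hx
    rw [← hc, Ideal.mem_span_singleton] at this
    obtain ⟨z, hz⟩ := this
    refine ⟨z, ?_⟩
    have h1 : ((yB m * x : 𝓞 K) : K) = ((e * z : 𝓞 K) : K) := by rw [hz]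
    simp only [map_mul, hyB] at h1
    have h2 : (e : K) * ((x : K) * B.coeff m) = (e : K) * (z : K) := by rw [← h1]; ring
    exact (mul_left_cancel₀ heK h2).symm

theorem absNorm_span_int {K : Type} [Field K] [NumberField K] (a : ℤ) :
    Ideal.absNorm (Ideal.span {(a : 𝓞 K)}) = a.natAbs ^ Module.finrank ℚ K := by
  rw [Ideal.absNorm_span_singleton]
  have : (a : 𝓞 K) = algebraMap ℤ (𝓞 K) a := by simp
  rw [this, Algebra.norm_algebraMap, Int.natAbs_pow, RingOfIntegers.rank]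

theorem hiti_norm {K : Type} [Field K] [NumberField K] (y : 𝓞 K) :
    (Ideal.absNorm (Ideal.span {y}) : ℝ) = ∏ σ : K →+* ℂ, ‖σ (y : K)‖ := by
  rw [Ideal.absNorm_span_singleton]
  have h := Algebra.norm_eq_prod_embeddings ℚ ℂ (y : K)
  have h2 : ∏ σ : K →ₐ[ℚ] ℂ, σ (y : K) = ∏ σ : K →+* ℂ, σ (y : K) := by
    symm
    refine Fintype.prod_equiv (RingHom.equivRatAlgHom K ℂ) _ _ fun σ => rfl
  rw [h2] at h
  rw [← norm_prod, ← h, ← Algebra.coe_norm_int]
  simp only [eq_ratCast, Rat.cast_intCast, Complex.norm_intCast]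
  rw [← Int.cast_natCast, Int.natCast_natAbs]
  simp

theorem norm_sep {K : Type} [Field K] [NumberField K] (b : Ideal (𝓞 K)) (hb : b ≠ ⊥) (δ : K)
    (hδ : δ ≠ 0) (h : ∀ x ∈ b, ∃ z : 𝓞 K, (z : K) = (x : K) * δ) :
    1 ≤ (Ideal.absNorm b : ℝ) * ∏ σ : K →+* ℂ, ‖σ δ‖ := by
  -- an integer multiple of `δ` is integral
  obtain ⟨x0, hx0, hx0'⟩ := Submodule.exists_mem_ne_zero_of_ne_bot hb
  set n : ℕ := Ideal.absNorm b with hn
  have hn0 : n ≠ 0 := by
    rw [hn, Ne, Ideal.absNorm_eq_zero_iff]; exact hb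
  have hnb : ((n : ℕ) : 𝓞 K) ∈ b := Ideal.absNorm_mem b
  obtain ⟨y, hy⟩ := h _ hnb
  have hy' : (y : K) = (n : K) * δ := by
    rw [hy]; simp
  have hy0 : y ≠ 0 := by
    intro hy0
    rw [hy0] at hy'
    have : (n : K) ≠ 0 := by exact_mod_cast hn0
    exact (mul_ne_zero this hδ) (by rw [← hy']; simp)
  have hle : b * Ideal.span {y} ≤ Ideal.span {((n : ℤ) : 𝓞 K)} := by
    rw [Ideal.mul_le]
    intro x hx t ht
    rw [Ideal.mem_span_singleton] at ht ⊢
    obtain ⟨s, rfl⟩ := ht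
    obtain ⟨z, hz⟩ := h x hx
    refine ⟨z * s, ?_⟩
    apply RingOfIntegers.ext
    simp only [map_mul, hy', hz, map_intCast]
    push_cast
    ring
  have hdvd := Ideal.absNorm_dvd_absNorm_of_le hle
  rw [map_mul, absNorm_span_int, Int.natAbs_natCast] at hdvd
  have hpos : 0 < Ideal.absNorm b * Ideal.absNorm (Ideal.span {y}) := by
    apply Nat.mul_pos (Nat.pos_of_ne_zero hn0)
    apply Nat.pos_of_ne_zero
    rw [Ne, Ideal.absNorm_eq_zero_iff, Ideal.span_singleton_eq_bot]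
    exact hy0
  have hle2 := Nat.le_of_dvd hpos hdvd
  have hle3 : (n : ℝ) ^ Module.finrank ℚ K ≤
      (n : ℝ) * ∏ σ : K →+* ℂ, ‖σ (y : K)‖ := by
    rw [← hiti_norm]
    exact_mod_cast hle2
  have hprod : ∏ σ : K →+* ℂ, ‖σ (y : K)‖ =
      (n : ℝ) ^ Module.finrank ℚ K * ∏ σ : K →+* ℂ, ‖σ δ‖ := by
    rw [hy']
    simp only [map_mul, map_natCast, norm_mul, Complex.norm_natCast, Finset.prod_mul_distrib]
    rw [Finset.prod_const, Finset.card_univ, NumberField.Embeddings.card]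
  rw [hprod] at hle3
  have hnp : (0 : ℝ) < (n : ℝ) ^ Module.finrank ℚ K := by positivity
  have : (n : ℝ) ^ Module.finrank ℚ K * 1 ≤
      (n : ℝ) ^ Module.finrank ℚ K * ((n : ℝ) * ∏ σ : K →+* ℂ, ‖σ δ‖) := by
    rw [mul_one]; linarith [hle3]
  exact le_of_mul_le_mul_left this hnp

end EK75

end S_H75_EK_HitI

section S_H75_EK_HitD

/-! Module HITD: the number of ideals dividing an integer. -/

open Polynomial Finset NumberField
open scoped Real BigOperators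

namespace EK75

/-- at most `n` ideals divide `I` -/
def hitd_FC {R : Type} [CommRing R] (I : Ideal R) (n : ℕ) : Prop :=
  {J : Ideal R | J ∣ I}.Finite ∧ {J : Ideal R | J ∣ I}.ncard ≤ n

theorem hitd_mul {R : Type} [CommRing R] [IsDedekindDomain R] {I J : Ideal R} {n m : ℕ}
    (hI : hitd_FC I n) (hJ : hitd_FC J m) : hitd_FC (I * J) (n * m) := by
  have hsub : {K : Ideal R | K ∣ I * J} ⊆
      (fun t : Ideal R × Ideal R => t.1 * t.2) ''
        ({K : Ideal R | K ∣ I} ×ˢ {K : Ideal R | K ∣ J}) := by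
    intro K hK
    obtain ⟨a, b, ha, hb, rfl⟩ := exists_dvd_and_dvd_of_dvd_mul (show K ∣ I * J from hK)
    exact ⟨(a, b), ⟨ha, hb⟩, rfl⟩
  have hfin : ({K : Ideal R | K ∣ I} ×ˢ {K : Ideal R | K ∣ J}).Finite := hI.1.prod hJ.1
  refine ⟨(hfin.image _).subset hsub, ?_⟩
  refine (Set.ncard_le_ncard hsub (hfin.image _)).trans ?_
  refine (Set.ncard_image_le hfin).trans ?_
  rw [Set.ncard_prod]
  exact Nat.mul_le_mul hI.2 hJ.2

theorem hitd_one {R : Type} [CommRing R] [IsDedekindDomain R] : hitd_FC (1 : Ideal R) 1 := by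
  have h : {J : Ideal R | J ∣ 1} = {1} := by
    ext J
    rw [Set.mem_ofPred_eq, Set.mem_singleton_iff]
    constructor
    · intro h
      have := isUnit_of_dvd_one h
      rwa [Ideal.isUnit_iff, ← Ideal.one_eq_top] at this
    · rintro rfl
      exact dvd_refl _
  rw [hitd_FC, h]
  exact ⟨Set.finite_singleton _, by rw [Set.ncard_singleton]⟩

theorem hitd_pow {R : Type} [CommRing R] [IsDedekindDomain R] {P : Ideal R} (hP : Prime P)
    (v : ℕ) : hitd_FC (P ^ v) (v + 1) := by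
  have hsub : {K : Ideal R | K ∣ P ^ v} ⊆ ((range (v + 1)).image (fun i => P ^ i) :
      Finset (Ideal R)) := by
    intro K hK
    obtain ⟨i, hi, h⟩ := (dvd_prime_pow hP v).1 (show K ∣ P ^ v from hK)
    rw [associated_iff_eq] at h
    rw [Finset.coe_image]
    exact ⟨i, by rw [Finset.mem_coe, Finset.mem_range]; omega, h.symm⟩
  refine ⟨(Finset.finite_toSet _).subset hsub, ?_⟩
  refine (Set.ncard_le_ncard hsub (Finset.finite_toSet _)).trans ?_
  rw [Set.ncard_coe_finset]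
  refine Finset.card_image_le.trans ?_
  rw [Finset.card_range]

theorem hitd_multiset {R : Type} [CommRing R] [IsDedekindDomain R] (v : ℕ)
    (s : Multiset (Ideal R)) : (∀ P ∈ s, Prime P) →
    hitd_FC ((s.map (fun P => P ^ v)).prod) ((v + 1) ^ s.card) := by
  induction s using Multiset.induction_on with
  | empty =>
    intro _
    simpa using hitd_one
  | cons P s ih =>
    intro h
    rw [Multiset.map_cons, Multiset.prod_cons, Multiset.card_cons, pow_succ']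
    exact hitd_mul (hitd_pow (h P (Multiset.mem_cons_self P s)) v)
      (ih (fun Q hQ => h Q (Multiset.mem_cons_of_mem hQ)))

theorem hitd_mono {R : Type} [CommRing R] {I : Ideal R} {n m : ℕ}
    (hI : hitd_FC I n) (h : n ≤ m) : hitd_FC I m := ⟨hI.1, hI.2.trans h⟩

theorem hitd_prime (K : Type) [Field K] [NumberField K] (D : ℕ) (hD : Module.finrank ℚ K ≤ D)
    (p : ℕ) (hp : p.Prime) (v : ℕ) :
    hitd_FC (Ideal.span {(p : 𝓞 K)} ^ v) ((v + 1) ^ D) := by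
  classical
  have hp0 : (p : 𝓞 K) ≠ 0 := by exact_mod_cast hp.ne_zero
  have hne : Ideal.span {(p : 𝓞 K)} ≠ ⊥ := by
    rwa [Ne, Ideal.span_singleton_eq_bot]
  set s := UniqueFactorizationMonoid.normalizedFactors (Ideal.span {(p : 𝓞 K)}) with hs
  have hprime : ∀ P ∈ s, Prime P := fun P hP =>
    UniqueFactorizationMonoid.prime_of_normalized_factor P hP
  have hprod : s.prod = Ideal.span {(p : 𝓞 K)} := Ideal.prod_normalizedFactors_eq_self hne
  have hnorm : (s.map Ideal.absNorm).prod = p ^ Module.finrank ℤ (𝓞 K) := by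
    rw [← Ideal.absNorm_span_natCast, ← hprod, map_multiset_prod]
  have hcard : s.card ≤ D := by
    have hdvd : ∀ t : Multiset (Ideal (𝓞 K)), (∀ P ∈ t, p ∣ Ideal.absNorm P) →
        p ^ t.card ∣ (t.map Ideal.absNorm).prod := by
      intro t
      induction t using Multiset.induction_on with
      | empty => intro _; simp
      | cons P t ih =>
        intro h
        rw [Multiset.card_cons, Multiset.map_cons, Multiset.prod_cons, pow_succ']
        exact mul_dvd_mul (h P (Multiset.mem_cons_self P t))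
          (ih (fun Q hQ => h Q (Multiset.mem_cons_of_mem hQ)))
    have h1 : ∀ P ∈ s, p ∣ Ideal.absNorm P := by
      intro P hP
      have h2 : Ideal.absNorm P ∣ p ^ Module.finrank ℤ (𝓞 K) := by
        rw [← hnorm]
        exact Multiset.dvd_prod (Multiset.mem_map_of_mem _ hP)
      obtain ⟨i, _, hi⟩ := (Nat.dvd_prime_pow hp).1 h2
      have hi0 : i ≠ 0 := by
        rintro rfl
        rw [pow_zero, Ideal.absNorm_eq_one_iff] at hi
        exact (hprime P hP).not_isUnit (Ideal.isUnit_iff.2 hi)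
      rw [hi]
      exact dvd_pow_self p hi0
    have h3 := hdvd s h1
    rw [hnorm, Nat.pow_dvd_pow_iff_le_right hp.one_lt] at h3
    have h4 : Module.finrank ℤ (𝓞 K) = Module.finrank ℚ K := RingOfIntegers.rank K
    omega
  have h5 := hitd_multiset v s hprime
  rw [Multiset.prod_map_pow, Multiset.map_id', hprod] at h5
  exact hitd_mono h5 (Nat.pow_le_pow_right (by omega) hcard)

theorem hitd_nat (K : Type) [Field K] [NumberField K] (D : ℕ) (hD : Module.finrank ℚ K ≤ D)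
    (n : ℕ) (hn : n ≠ 0) : hitd_FC (Ideal.span {(n : 𝓞 K)}) (n.divisors.card ^ D) := by
  have key : ∀ s : Finset ℕ, (∀ p ∈ s, p.Prime) →
      hitd_FC (Ideal.span {((∏ p ∈ s, p ^ n.factorization p : ℕ) : 𝓞 K)})
        (∏ p ∈ s, (n.factorization p + 1) ^ D) := by
    intro s
    induction s using Finset.induction_on with
    | empty =>
      intro _
      rw [Finset.prod_empty, Finset.prod_empty, Nat.cast_one, Ideal.span_singleton_one,
        ← Ideal.one_eq_top]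
      exact hitd_one
    | insert p s hp ih =>
      intro h
      rw [Finset.prod_insert hp, Finset.prod_insert hp, Nat.cast_mul, Nat.cast_pow,
        ← Ideal.span_singleton_mul_span_singleton, ← Ideal.span_singleton_pow]
      exact hitd_mul (hitd_prime K D hD p (h p (Finset.mem_insert_self p s)) _)
        (ih (fun q hq => h q (Finset.mem_insert_of_mem hq)))
  have h1 := key n.primeFactors (fun p hp => Nat.prime_of_mem_primeFactors hp)
  rw [Finset.prod_pow, ← Nat.card_divisors hn] at h1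
  have h2 := Nat.prod_factorization_pow_eq_self hn
  rw [Finsupp.prod, Nat.support_factorization] at h2
  rwa [h2] at h1

theorem ideal_div_count (D : ℕ) (ε : ℝ) (hε : 0 < ε) : ∃ C : ℝ, ∀ (K : Type) [Field K]
    [NumberField K], Module.finrank ℚ K ≤ D → ∀ a : ℤ, a ≠ 0 →
    {I : Ideal (𝓞 K) | I ∣ Ideal.span {(a : 𝓞 K)}}.Finite ∧
    ({I : Ideal (𝓞 K) | I ∣ Ideal.span {(a : 𝓞 K)}}.ncard : ℝ) ≤ C * |(a : ℝ)| ^ ε := by
  have hε' : 0 < ε / (D + 1) := by positivity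
  obtain ⟨C, hC⟩ := tau_le (ε / (D + 1)) hε'
  refine ⟨C ^ (D + 1), ?_⟩
  intro K _ _ hD a ha
  have hn : a.natAbs ≠ 0 := Int.natAbs_ne_zero.2 ha
  have h1 := hitd_nat K (D + 1) (by omega) a.natAbs hn
  have h2 : Ideal.span {((a.natAbs : ℕ) : 𝓞 K)} = Ideal.span {(a : 𝓞 K)} := by
    rcases Int.natAbs_eq a with h | h
    · conv_rhs => rw [h]
      rw [Int.cast_natCast]
    · conv_rhs => rw [h]
      rw [Int.cast_neg, Int.cast_natCast, Ideal.span_singleton_neg]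
  rw [h2] at h1
  refine ⟨h1.1, ?_⟩
  have h3 := hC a.natAbs (Nat.one_le_iff_ne_zero.2 hn)
  have h4 : ((a.natAbs : ℕ) : ℝ) = |(a : ℝ)| := by
    rw [Nat.cast_natAbs, Int.cast_abs]
  rw [h4] at h3
  have h5 : (({I : Ideal (𝓞 K) | I ∣ Ideal.span {(a : 𝓞 K)}}.ncard : ℕ) : ℝ) ≤
      ((a.natAbs.divisors.card : ℕ) : ℝ) ^ (D + 1) := by exact_mod_cast h1.2
  refine h5.trans ((pow_le_pow_left₀ (by positivity) h3 (D + 1)).trans ?_)
  rw [mul_pow]
  apply le_of_eq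
  congr 1
  rw [← Real.rpow_natCast, ← Real.rpow_mul (abs_nonneg _)]
  congr 1
  push_cast
  field_simp

end EK75

end S_H75_EK_HitD

section S_H75_EK_Hit

/-! Module HIT: few `t` make `F - t` reducible over a given number field. -/

open Polynomial Finset NumberField
open scoped Real BigOperators

namespace EK75

private theorem hit_step (P : ℂ[X]) (y : ℂ) (R B : ℝ) (hy : ‖y‖ ≤ R)
    (hB : ∀ m, ‖P.coeff m‖ ≤ B) (m : ℕ) : ‖((X - C y) * P).coeff m‖ ≤ (1 + R) * B := by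
  have hB0 : 0 ≤ B := (norm_nonneg _).trans (hB 0)
  rw [sub_mul, coeff_sub, coeff_C_mul]
  have h1 : ‖(X * P).coeff m‖ ≤ B := by
    rcases m with _ | m
    · simpa using hB0
    · rw [coeff_X_mul]; exact hB m
  have h2 : ‖y * P.coeff m‖ ≤ R * B := by
    rw [norm_mul]
    exact mul_le_mul hy (hB m) (norm_nonneg _) ((norm_nonneg _).trans hy)
  calc ‖(X * P).coeff m - y * P.coeff m‖ ≤ ‖(X * P).coeff m‖ + ‖y * P.coeff m‖ := norm_sub_le _ _
    _ ≤ B + R * B := add_le_add h1 h2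
    _ = (1 + R) * B := by ring

private theorem hit_coeff_bound {ι : Type*} [DecidableEq ι] (J : Finset ι) (y : ι → ℂ) (R : ℝ)
    (hR : 0 ≤ R) (hy : ∀ i ∈ J, ‖y i‖ ≤ R) :
    ∀ m, ‖(∏ i ∈ J, (X - C (y i))).coeff m‖ ≤ (1 + R) ^ J.card := by
  induction J using Finset.induction_on with
  | empty =>
    intro m
    rw [Finset.prod_empty, coeff_one, Finset.card_empty, pow_zero]
    split_ifs
    · simp
    · simp
  | insert j J hj ih =>
    intro m
    rw [Finset.prod_insert hj, Finset.card_insert_of_notMem hj, pow_succ, mul_comm _ (1 + R)]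
    exact hit_step _ _ R _ (hy j (Finset.mem_insert_self _ _))
      (ih (fun i hi => hy i (Finset.mem_insert_of_mem hi))) m

private theorem hit_coeff_diff {ι : Type*} [DecidableEq ι] (J : Finset ι) (y y' : ι → ℂ) (R ε : ℝ)
    (hR : 0 ≤ R) (hy : ∀ i ∈ J, ‖y i‖ ≤ R) (hy' : ∀ i ∈ J, ‖y' i‖ ≤ R)
    (hε : ∀ i ∈ J, ‖y i - y' i‖ ≤ ε) :
    ∀ m, ‖(∏ i ∈ J, (X - C (y i)) - ∏ i ∈ J, (X - C (y' i))).coeff m‖
      ≤ J.card * (1 + R) ^ (J.card - 1) * ε := by
  induction J using Finset.induction_on with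
  | empty => intro m; simp
  | insert j J hj ih =>
    intro m
    have ih' := ih (fun i hi => hy i (Finset.mem_insert_of_mem hi))
      (fun i hi => hy' i (Finset.mem_insert_of_mem hi))
      (fun i hi => hε i (Finset.mem_insert_of_mem hi))
    have hb := hit_coeff_bound J y' R hR (fun i hi => hy' i (Finset.mem_insert_of_mem hi))
    rw [Finset.prod_insert hj, Finset.prod_insert hj, Finset.card_insert_of_notMem hj]
    have e : (X - C (y j)) * ∏ i ∈ J, (X - C (y i)) - (X - C (y' j)) * ∏ i ∈ J, (X - C (y' i))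
        = (X - C (y j)) * (∏ i ∈ J, (X - C (y i)) - ∏ i ∈ J, (X - C (y' i)))
          + C (y' j - y j) * ∏ i ∈ J, (X - C (y' i)) := by
      rw [C_sub]; ring
    rw [e, coeff_add, coeff_C_mul]
    have h1 := hit_step _ (y j) R _ (hy j (Finset.mem_insert_self _ _)) ih' m
    have h2 : ‖(y' j - y j) * (∏ i ∈ J, (X - C (y' i))).coeff m‖ ≤ ε * (1 + R) ^ J.card := by
      rw [norm_mul, norm_sub_rev]
      have hεj := hε j (Finset.mem_insert_self _ _)
      exact mul_le_mul hεj (hb m) (norm_nonneg _) ((norm_nonneg _).trans hεj)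
    have h3 : (1 + R) * (J.card * (1 + R) ^ (J.card - 1) * ε) = J.card * (1 + R) ^ J.card * ε := by
      rcases Nat.eq_zero_or_pos J.card with h0 | h0
      · rw [h0]; simp
      · obtain ⟨n, hn⟩ : ∃ n, J.card = n + 1 := ⟨J.card - 1, by omega⟩
        rw [hn, Nat.add_sub_cancel, pow_succ]; ring
    rw [h3] at h1
    rw [Nat.add_sub_cancel, Nat.cast_add, Nat.cast_one]
    calc _ ≤ _ := norm_add_le _ _
      _ ≤ J.card * (1 + R) ^ J.card * ε + ε * (1 + R) ^ J.card := add_le_add h1 h2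
      _ = _ := by ring

private theorem hit_subset {k : ℕ} (y : Fin k → ℂ) (hy : Function.Injective y) (P : ℂ[X])
    (hP : P.Monic) (hd : P ∣ ∏ i, (X - C (y i))) :
    ∃ J : Finset (Fin k), P = ∏ i ∈ J, (X - C (y i)) := by
  classical
  have hne : (∏ i, (X - C (y i))) ≠ 0 := by
    rw [Finset.prod_ne_zero_iff]
    intro i _
    exact X_sub_C_ne_zero _
  have hroots : P.roots ≤ (Finset.univ.val.map y) := by
    have h1 := Polynomial.roots.le_of_dvd hne hd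
    have h2 : (∏ i, (X - C (y i))).roots = Finset.univ.val.map y := by
      have h3 : (∏ i, (X - C (y i))) = ((Finset.univ.val.map y).map (fun a => X - C a)).prod := by
        rw [Multiset.map_map]
        rfl
      rw [h3, Polynomial.roots_multiset_prod_X_sub_C]
    rwa [h2] at h1
  have hnd : (Finset.univ.val.map y).Nodup := by
    rw [Multiset.nodup_map_iff_of_injective hy]
    exact Finset.univ.nodup
  have hnd' : P.roots.Nodup := Multiset.nodup_of_le hroots hnd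
  refine ⟨Finset.univ.filter (fun i => y i ∈ P.roots), ?_⟩
  have hsplit : P = (P.roots.map (fun a => X - C a)).prod :=
    (IsAlgClosed.splits P).eq_prod_roots_of_monic hP
  have h4 : P.roots = (Finset.univ.filter (fun i => y i ∈ P.roots)).val.map y := by
    rw [Multiset.Nodup.ext hnd' ((Multiset.nodup_map_iff_of_injective hy).2 (Finset.nodup _))]
    intro a
    constructor
    · intro ha
      have := Multiset.mem_of_le hroots ha
      rw [Multiset.mem_map] at this ⊢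
      obtain ⟨i, _, rfl⟩ := this
      exact ⟨i, by simpa using ha, rfl⟩
    · intro ha
      rw [Multiset.mem_map] at ha
      obtain ⟨i, hi, rfl⟩ := ha
      have : i ∈ Finset.univ.filter (fun i => y i ∈ P.roots) := hi
      exact (Finset.mem_filter.1 this).2
  conv_lhs => rw [hsplit, h4]
  rw [Multiset.map_map]
  rfl

/-- The data attached to a `t` with `F - t` reducible over `K`. -/
private def HitTy (K : Type) [Field K] [NumberField K] (k : ℕ) (F : ℤ[X]) (y : Fin k → ℂ) (t : ℤ)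
    (ty : ((K →+* ℂ) → Finset (Fin k)) × Ideal (𝓞 K) × Ideal (𝓞 K)) : Prop :=
  ∃ A B : K[X], A.Monic ∧ B.Monic ∧ 1 ≤ A.natDegree ∧ 1 ≤ B.natDegree ∧
    (F - C t).map (algebraMap ℤ K) = C ((F.leadingCoeff : ℤ) : K) * A * B ∧
    Clears ty.2.1 A ∧ Clears ty.2.2 B ∧ ty.2.1 ≠ ⊥ ∧ ty.2.2 ≠ ⊥ ∧
    ty.2.1 * ty.2.2 ∣ Ideal.span {((F.leadingCoeff : ℤ) : 𝓞 K)} ∧
    (∀ σ : K →+* ℂ, A.map σ = ∏ i ∈ ty.1 σ, (X - C (y i))) ∧
    (∀ σ : K →+* ℂ, B.map σ = ∏ i ∈ (ty.1 σ)ᶜ, (X - C (y i)))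

private theorem hit_exists (K : Type) [Field K] [NumberField K] (k : ℕ) (hk : 2 ≤ k) (F : ℤ[X])
    (hF : F.natDegree = k) (y : Fin k → ℂ) (t : ℤ) (hy : RootsOf k F t y)
    (hred : ¬ Irreducible ((F - C t).map (algebraMap ℤ K))) :
    ∃ ty, HitTy K k F y t ty := by
  classical
  have hF0 : F ≠ 0 := by
    rintro rfl
    rw [natDegree_zero] at hF
    omega
  have hlc : F.leadingCoeff ≠ 0 := leadingCoeff_ne_zero.2 hF0
  have hdeg : (F - C t).natDegree = k := by rw [natDegree_sub_C, hF]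
  have hlc' : (F - C t).leadingCoeff = F.leadingCoeff := by
    rw [leadingCoeff, hdeg, coeff_sub, coeff_C, if_neg (by omega), sub_zero, leadingCoeff, hF]
  have hinj : Function.Injective (algebraMap ℤ K) := by
    rw [algebraMap_int_eq]; exact Int.cast_injective
  set p := (F - C t).map (algebraMap ℤ K) with hp
  have hpdeg : p.natDegree = k := by rw [hp, natDegree_map_eq_of_injective hinj, hdeg]
  have hplc : p.leadingCoeff = ((F.leadingCoeff : ℤ) : K) := by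
    rw [hp, leadingCoeff_map_of_injective hinj, hlc']
    simp
  have hp0 : p ≠ 0 := by
    rintro h0
    rw [h0, natDegree_zero] at hpdeg
    omega
  have hnu : ¬ IsUnit p := by
    intro hu
    have := natDegree_eq_zero_of_isUnit hu
    omega
  obtain ⟨A', B', hA', hB', hAB⟩ := (irreducible_or_factor hnu).resolve_left hred
  have hA0 : A' ≠ 0 := by
    rintro rfl
    rw [zero_mul] at hAB
    exact hp0 hAB
  have hB0 : B' ≠ 0 := by
    rintro rfl
    rw [mul_zero] at hAB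
    exact hp0 hAB
  have hAl : A'.leadingCoeff ≠ 0 := leadingCoeff_ne_zero.2 hA0
  have hBl : B'.leadingCoeff ≠ 0 := leadingCoeff_ne_zero.2 hB0
  have hAd : 1 ≤ A'.natDegree := by
    by_contra hcon
    apply hA'
    rw [Polynomial.isUnit_iff_degree_eq_zero, degree_eq_natDegree hA0]
    have : A'.natDegree = 0 := by omega
    rw [this]; rfl
  have hBd : 1 ≤ B'.natDegree := by
    by_contra hcon
    apply hB'
    rw [Polynomial.isUnit_iff_degree_eq_zero, degree_eq_natDegree hB0]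
    have : B'.natDegree = 0 := by omega
    rw [this]; rfl
  set A := C (A'.leadingCoeff)⁻¹ * A' with hAdef
  set B := C (B'.leadingCoeff)⁻¹ * B' with hBdef
  have hAm : A.Monic := by
    rw [Monic, hAdef, leadingCoeff_mul, leadingCoeff_C, inv_mul_cancel₀ hAl]
  have hBm : B.Monic := by
    rw [Monic, hBdef, leadingCoeff_mul, leadingCoeff_C, inv_mul_cancel₀ hBl]
  have hAnd : A.natDegree = A'.natDegree := by
    rw [hAdef, natDegree_C_mul (inv_ne_zero hAl)]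
  have hBnd : B.natDegree = B'.natDegree := by
    rw [hBdef, natDegree_C_mul (inv_ne_zero hBl)]
  have hfac : p = C ((F.leadingCoeff : ℤ) : K) * A * B := by
    rw [← hplc, hAB, leadingCoeff_mul, hAdef, hBdef, C_mul]
    have h1 : C A'.leadingCoeff * C (A'.leadingCoeff)⁻¹ = 1 := by
      rw [← C_mul, mul_inv_cancel₀ hAl, C_1]
    have h2 : C B'.leadingCoeff * C (B'.leadingCoeff)⁻¹ = 1 := by
      rw [← C_mul, mul_inv_cancel₀ hBl, C_1]
    calc A' * B' = (C A'.leadingCoeff * C (A'.leadingCoeff)⁻¹) *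
          (C B'.leadingCoeff * C (B'.leadingCoeff)⁻¹) * (A' * B') := by rw [h1, h2, one_mul, one_mul]
      _ = _ := by ring
  obtain ⟨b, c, hb, hc, hbc, hbA, hcB⟩ := gauss_split (F - C t) F.leadingCoeff hlc A B hAm hBm hfac
  obtain ⟨hyi, hyp⟩ := hy
  have hlcC : ((F.leadingCoeff : ℤ) : ℂ) ≠ 0 := Int.cast_ne_zero.2 hlc
  -- the product over each embedding
  have hσ : ∀ σ : K →+* ℂ, A.map σ * B.map σ = ∏ i, (X - C (y i)) := by
    intro σ
    have h1 : p.map σ = (F - C t).map (Int.castRingHom ℂ) := by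
      rw [hp, Polynomial.map_map]
      congr 1
      exact RingHom.ext_int _ _
    rw [hfac, Polynomial.map_mul, Polynomial.map_mul, map_C, map_intCast, hyp, mul_assoc] at h1
    exact mul_left_cancel₀ (C_ne_zero.2 hlcC) h1
  have hJ : ∀ σ : K →+* ℂ, ∃ J : Finset (Fin k), A.map σ = ∏ i ∈ J, (X - C (y i)) := by
    intro σ
    apply hit_subset y hyi _ (hAm.map σ)
    rw [← hσ σ]
    exact dvd_mul_right _ _
  choose J hJ using hJ
  refine ⟨⟨J, b, c⟩, A, B, hAm, hBm, by omega, by omega, hfac, hbA, hcB, hb, hc, hbc, hJ, ?_⟩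
  intro σ
  have h1 := hσ σ
  rw [← Finset.prod_mul_prod_compl (J σ), ← hJ σ] at h1
  exact mul_left_cancel₀ (hAm.map σ).ne_zero h1

private theorem hit_sep_aux (K : Type) [Field K] [NumberField K] (k : ℕ) (b : Ideal (𝓞 K))
    (hb : b ≠ ⊥) (A A' : K[X]) (hA : Clears b A) (hA' : Clears b A') (hne : A ≠ A')
    (J : (K →+* ℂ) → Finset (Fin k)) (y y' : Fin k → ℂ) (s : ℕ) (hJ : ∀ σ, (J σ).card = s)
    (hAJ : ∀ σ : K →+* ℂ, A.map σ = ∏ i ∈ J σ, (X - C (y i)))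
    (hAJ' : ∀ σ : K →+* ℂ, A'.map σ = ∏ i ∈ J σ, (X - C (y' i)))
    (R ε : ℝ) (hR : 0 ≤ R) (hε0 : 0 ≤ ε) (hy : ∀ i, ‖y i‖ ≤ R) (hy' : ∀ i, ‖y' i‖ ≤ R)
    (hε : ∀ i, ‖y i - y' i‖ ≤ ε) :
    1 ≤ (Ideal.absNorm b : ℝ) * (k * (1 + R) ^ (s - 1) * ε) ^ Module.finrank ℚ K := by
  classical
  obtain ⟨m, hm⟩ : ∃ m, A.coeff m ≠ A'.coeff m := by
    by_contra hcon
    push Not at hcon
    exact hne (Polynomial.ext hcon)
  have h1 := norm_sep b hb (A.coeff m - A'.coeff m) (sub_ne_zero.2 hm) (by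
    intro x hx
    obtain ⟨z, hz⟩ := hA m x hx
    obtain ⟨z', hz'⟩ := hA' m x hx
    refine ⟨z - z', ?_⟩
    have e1 : ((z - z' : 𝓞 K) : K) = (z : K) - (z' : K) := rfl
    rw [e1, hz, hz']
    ring)
  refine h1.trans ?_
  apply mul_le_mul_of_nonneg_left _ (Nat.cast_nonneg _)
  rw [← NumberField.Embeddings.card K ℂ, ← Finset.card_univ, ← Finset.prod_const]
  apply Finset.prod_le_prod
  · intro σ _; exact norm_nonneg _
  · intro σ _
    have h2 := hit_coeff_diff (J σ) y y' R ε hR (fun i _ => hy i) (fun i _ => hy' i)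
      (fun i _ => hε i) m
    rw [← hAJ σ, ← hAJ' σ, coeff_sub, coeff_map, coeff_map, ← map_sub, hJ σ] at h2
    refine h2.trans ?_
    apply mul_le_mul_of_nonneg_right _ hε0
    apply mul_le_mul_of_nonneg_right _ (by positivity)
    rw [← hJ σ]
    have := Finset.card_le_univ (J σ)
    rw [Fintype.card_fin] at this
    exact_mod_cast this

private theorem hit_sep (K : Type) [Field K] [NumberField K] (k : ℕ) (F : ℤ[X])
    (hF : F.natDegree = k) (hF0 : F ≠ 0)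
    (t t' : ℤ) (htt : t ≠ t') (y y' : Fin k → ℂ)
    (ty : ((K →+* ℂ) → Finset (Fin k)) × Ideal (𝓞 K) × Ideal (𝓞 K))
    (h : HitTy K k F y t ty) (h' : HitTy K k F y' t' ty)
    (R ε : ℝ) (hR : 0 ≤ R) (hε0 : 0 ≤ ε) (hy : ∀ i, ‖y i‖ ≤ R) (hy' : ∀ i, ‖y' i‖ ≤ R)
    (hε : ∀ i, ‖y i - y' i‖ ≤ ε) :
    1 ≤ |((F.leadingCoeff : ℤ) : ℝ)| * ((k : ℝ) ^ 2 * (1 + R) ^ (k - 2) * ε ^ 2) := by
  classical
  obtain ⟨A, B, hAm, hBm, hAd, hBd, hfac, hbA, hcB, hb, hc, hbc, hJA, hJB⟩ := h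
  obtain ⟨A', B', hAm', hBm', hAd', hBd', hfac', hbA', hcB', _, _, _, hJA', hJB'⟩ := h'
  set b := ty.2.1 with hbdef
  set c := ty.2.2 with hcdef
  have hinj : Function.Injective (algebraMap ℤ K) := by
    rw [algebraMap_int_eq]; exact Int.cast_injective
  -- no common divisor
  have hcommon : ∀ P : K[X], P.Monic → 1 ≤ P.natDegree →
      P ∣ (F - C t).map (algebraMap ℤ K) → P ∣ (F - C t').map (algebraMap ℤ K) → False := by
    intro P hPm hPd h1 h2
    have h3 := dvd_sub h1 h2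
    have h4 : (F - C t).map (algebraMap ℤ K) - (F - C t').map (algebraMap ℤ K)
        = C (((t' - t : ℤ)) : K) := by
      rw [Polynomial.map_sub, Polynomial.map_sub, map_C, map_C]
      have e1 : (algebraMap ℤ K) t = ((t : ℤ) : K) := by simp
      have e2 : (algebraMap ℤ K) t' = ((t' : ℤ) : K) := by simp
      rw [e1, e2]
      push_cast
      rw [C_sub]
      ring
    rw [h4] at h3
    have h5 : ((t' - t : ℤ) : K) ≠ 0 := Int.cast_ne_zero.2 (sub_ne_zero.2 (Ne.symm htt))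
    have h6 := natDegree_le_of_dvd h3 (C_ne_zero.2 h5)
    rw [natDegree_C] at h6
    omega
  have hneA : A ≠ A' := by
    rintro rfl
    apply hcommon A hAm hAd
    · rw [hfac, mul_comm (C _) A, mul_assoc]; exact dvd_mul_right _ _
    · rw [hfac', mul_comm (C _) A, mul_assoc]; exact dvd_mul_right _ _
  have hneB : B ≠ B' := by
    rintro rfl
    apply hcommon B hBm hBd
    · rw [hfac]; exact dvd_mul_left _ _
    · rw [hfac']; exact dvd_mul_left _ _
  -- degrees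
  have hcardA : ∀ σ : K →+* ℂ, (ty.1 σ).card = A.natDegree := by
    intro σ
    have h1 : (A.map σ).natDegree = A.natDegree := natDegree_map_eq_of_injective σ.injective A
    rw [hJA σ, natDegree_prod_of_monic _ _ (fun i _ => monic_X_sub_C _)] at h1
    simpa using h1
  have hcardB : ∀ σ : K →+* ℂ, ((ty.1 σ)ᶜ).card = B.natDegree := by
    intro σ
    have h1 : (B.map σ).natDegree = B.natDegree := natDegree_map_eq_of_injective σ.injective B
    rw [hJB σ, natDegree_prod_of_monic _ _ (fun i _ => monic_X_sub_C _)] at h1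
    simpa using h1
  have hsum : A.natDegree + B.natDegree = k := by
    have σ : K →+* ℂ := Classical.arbitrary _
    rw [← hcardA σ, ← hcardB σ, Finset.card_add_card_compl, Fintype.card_fin]
  have h1 := hit_sep_aux K k b hb A A' hbA hbA' hneA ty.1 y y' A.natDegree hcardA hJA hJA'
    R ε hR hε0 hy hy' hε
  have h2 := hit_sep_aux K k c hc B B' hcB hcB' hneB (fun σ => (ty.1 σ)ᶜ) y y' B.natDegree hcardB
    hJB hJB' R ε hR hε0 hy hy' hε
  set d := Module.finrank ℚ K with hd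
  have hd0 : d ≠ 0 := by
    rw [hd]
    exact Module.finrank_pos.ne'
  have hN : (Ideal.absNorm b : ℝ) * (Ideal.absNorm c : ℝ) ≤ |((F.leadingCoeff : ℤ) : ℝ)| ^ d := by
    have h3 : Ideal.absNorm (b * c) ∣ F.leadingCoeff.natAbs ^ d := by
      rw [hd, ← absNorm_span_int (K := K)]
      exact Ideal.absNorm_dvd_absNorm_of_le (Ideal.dvd_iff_le.1 hbc)
    have h4 : Ideal.absNorm (b * c) ≤ F.leadingCoeff.natAbs ^ d := by
      apply Nat.le_of_dvd _ h3
      apply pow_pos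
      exact Int.natAbs_pos.2 (leadingCoeff_ne_zero.2 hF0)
    rw [map_mul] at h4
    have h5 : ((Ideal.absNorm b * Ideal.absNorm c : ℕ) : ℝ) ≤ ((F.leadingCoeff.natAbs ^ d : ℕ) : ℝ) :=
      Nat.cast_le.2 h4
    rw [Nat.cast_mul, Nat.cast_pow, Nat.cast_natAbs, Int.cast_abs] at h5
    exact h5
  have h3 : (1 : ℝ) ≤ (|((F.leadingCoeff : ℤ) : ℝ)| *
      ((k : ℝ) ^ 2 * (1 + R) ^ (k - 2) * ε ^ 2)) ^ d := by
    have hkexp : k - 2 = (A.natDegree - 1) + (B.natDegree - 1) := by omega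
    calc (1 : ℝ) = 1 * 1 := by ring
      _ ≤ ((Ideal.absNorm b : ℝ) * (k * (1 + R) ^ (A.natDegree - 1) * ε) ^ d) *
          ((Ideal.absNorm c : ℝ) * (k * (1 + R) ^ (B.natDegree - 1) * ε) ^ d) :=
        mul_le_mul h1 h2 zero_le_one (zero_le_one.trans h1)
      _ = ((Ideal.absNorm b : ℝ) * (Ideal.absNorm c : ℝ)) *
          ((k : ℝ) ^ 2 * (1 + R) ^ (k - 2) * ε ^ 2) ^ d := by
        rw [hkexp, pow_add]
        ring
      _ ≤ |((F.leadingCoeff : ℤ) : ℝ)| ^ d * ((k : ℝ) ^ 2 * (1 + R) ^ (k - 2) * ε ^ 2) ^ d :=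
        mul_le_mul_of_nonneg_right hN (by positivity)
      _ = _ := (mul_pow _ _ _).symm
  by_contra hcon
  push Not at hcon
  have h4 : (|((F.leadingCoeff : ℤ) : ℝ)| *
      ((k : ℝ) ^ 2 * (1 + R) ^ (k - 2) * ε ^ 2)) ^ d < 1 :=
    pow_lt_one₀ (by positivity) hcon hd0
  linarith

private theorem hit_num (k : ℕ) (hk : 2 ≤ k) (Cg C0 : ℝ) (hCg : 1 ≤ Cg) (hC0 : 0 < C0)
    (q T η : ℝ) (m : ℕ) (hq : 1 ≤ q) (hqT : q ≤ T) (hη : 0 < η) (a Δ : ℝ)
    (ha : a ≤ C0 * q)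
    (h : 1 ≤ a * ((k : ℝ) ^ 2 * (1 + Cg * (T / q) ^ ((1 : ℝ) / k)) ^ (k - 2) *
      (Cg * Δ / (q * η ^ m * (T / q) ^ (((k : ℝ) - 1) / k))) ^ 2)) :
    T * η ^ (2 * m) ≤ C0 * ((k : ℝ) ^ 2 * (2 * Cg) ^ (k - 2) * Cg ^ 2) * Δ ^ 2 := by
  have hq0 : 0 < q := by linarith
  have hT0 : 0 < T := by linarith
  have hZ1 : 1 ≤ T / q := by rw [le_div_iff₀ hq0]; linarith
  have hZ0 : 0 < T / q := by positivity
  have hk0 : (k : ℝ) ≠ 0 := by positivity
  set z := (T / q) ^ ((1 : ℝ) / k) with hz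
  have hz1 : 1 ≤ z := Real.one_le_rpow hZ1 (by positivity)
  have hz0 : 0 < z := by linarith
  have hzk : z ^ k = T / q := by
    rw [hz, ← Real.rpow_natCast, ← Real.rpow_mul hZ0.le, one_div, inv_mul_cancel₀ hk0,
      Real.rpow_one]
  have hzk1 : (T / q) ^ (((k : ℝ) - 1) / k) = z ^ (k - 1) := by
    rw [hz, ← Real.rpow_natCast, ← Real.rpow_mul hZ0.le]
    congr 1
    rw [Nat.cast_sub (by omega)]
    push_cast
    ring
  rw [hzk1] at h
  have hb : (1 + Cg * z) ^ (k - 2) ≤ (2 * Cg) ^ (k - 2) * z ^ (k - 2) := by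
    rw [← mul_pow]
    apply pow_le_pow_left₀ (by positivity)
    nlinarith
  set P : ℝ := (k : ℝ) ^ 2 * (2 * Cg) ^ (k - 2) * Cg ^ 2 with hP
  have hP0 : 0 ≤ P := by positivity
  have hden : 0 < q * η ^ m * z ^ (k - 1) := by positivity
  have e1 : (Cg * Δ / (q * η ^ m * z ^ (k - 1))) ^ 2 * (q * η ^ m * z ^ (k - 1)) ^ 2
      = (Cg * Δ) ^ 2 := by
    rw [← mul_pow, div_mul_cancel₀ _ hden.ne']
  have h1 : (q * η ^ m * z ^ (k - 1)) ^ 2 ≤
      (C0 * q) * ((k : ℝ) ^ 2 * ((2 * Cg) ^ (k - 2) * z ^ (k - 2)) * (Cg * Δ) ^ 2) := by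
    calc (q * η ^ m * z ^ (k - 1)) ^ 2 = 1 * (q * η ^ m * z ^ (k - 1)) ^ 2 := by ring
      _ ≤ (a * ((k : ℝ) ^ 2 * (1 + Cg * z) ^ (k - 2) *
          (Cg * Δ / (q * η ^ m * z ^ (k - 1))) ^ 2)) * (q * η ^ m * z ^ (k - 1)) ^ 2 :=
        mul_le_mul_of_nonneg_right h (by positivity)
      _ = a * ((k : ℝ) ^ 2 * (1 + Cg * z) ^ (k - 2) * (Cg * Δ) ^ 2) := by
        rw [← e1]; ring
      _ ≤ (C0 * q) * ((k : ℝ) ^ 2 * (1 + Cg * z) ^ (k - 2) * (Cg * Δ) ^ 2) :=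
        mul_le_mul_of_nonneg_right ha (by positivity)
      _ ≤ _ := by
        apply mul_le_mul_of_nonneg_left _ (by positivity)
        apply mul_le_mul_of_nonneg_right _ (by positivity)
        exact mul_le_mul_of_nonneg_left hb (by positivity)
  have e2 : (q * η ^ m * z ^ (k - 1)) ^ 2 = (q * z ^ (k - 2)) * (T * η ^ (2 * m)) := by
    have e3 : z ^ (k - 1) * z ^ (k - 1) = z ^ (k - 2) * z ^ k := by
      rw [← pow_add, ← pow_add]
      congr 1
      omega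
    calc (q * η ^ m * z ^ (k - 1)) ^ 2
        = q * q * (z ^ (k - 1) * z ^ (k - 1)) * (η ^ m * η ^ m) := by ring
      _ = q * (z ^ (k - 2)) * ((T / q) * q) * (η ^ m * η ^ m) := by rw [e3, hzk]; ring
      _ = _ := by rw [div_mul_cancel₀ _ hq0.ne', two_mul, pow_add]; ring
  have e4 : (C0 * q) * ((k : ℝ) ^ 2 * ((2 * Cg) ^ (k - 2) * z ^ (k - 2)) * (Cg * Δ) ^ 2)
      = (q * z ^ (k - 2)) * (C0 * P * Δ ^ 2) := by rw [hP]; ring
  rw [e2, e4] at h1
  exact le_of_mul_le_mul_left h1 (by positivity)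

private theorem hit_floor_card (c l : ℝ) (hc : 0 < c) (hl : 0 < l) :
    ((Finset.Icc ⌊-c / l⌋ ⌊c / l⌋).card : ℝ) ≤ 2 * (c / l) + 2 := by
  rw [Int.card_Icc]
  have h1 : (⌊c / l⌋ : ℝ) ≤ c / l := Int.floor_le _
  have h2 : -c / l < (⌊-c / l⌋ : ℝ) + 1 := Int.lt_floor_add_one _
  have h3 : ⌊-c / l⌋ ≤ ⌊c / l⌋ + 1 := by
    have : -c / l ≤ c / l := by
      apply div_le_div_of_nonneg_right _ hl.le
      linarith
    have := Int.floor_le_floor this
    omega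
  have h4 : ((⌊c / l⌋ + 1 - ⌊-c / l⌋).toNat : ℝ) = (⌊c / l⌋ : ℝ) + 1 - (⌊-c / l⌋ : ℝ) := by
    have h5 : ((⌊c / l⌋ + 1 - ⌊-c / l⌋).toNat : ℤ) = ⌊c / l⌋ + 1 - ⌊-c / l⌋ :=
      Int.toNat_of_nonneg (by omega)
    have h6 : (((⌊c / l⌋ + 1 - ⌊-c / l⌋).toNat : ℤ) : ℝ)
      = ((⌊c / l⌋ + 1 - ⌊-c / l⌋ : ℤ) : ℝ) := by rw [h5]
    push_cast at h6
    exact h6
  rw [h4]
  have h7 : -c / l = -(c / l) := neg_div _ _
  rw [h7] at h2 ⊢
  linarith

open Classical in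
private theorem hit_inj (k D : ℕ) (hk : 2 ≤ k) (c0 C0 C1 : ℝ) (hc0 : 0 < c0) (hC0 : 0 < C0)
    (hC1 : 0 < C1) (Cg : ℝ) (m : ℕ) (hCg : 1 ≤ Cg) (Cd ε : ℝ)
    (K : Type) [Field K] [NumberField K] (hD : Module.finrank ℚ K ≤ D)
    (F : ℤ[X]) (hF : F.natDegree = k) (hF0 : F ≠ 0) (q T η l : ℝ) (hq : 1 ≤ q) (hqT : q ≤ T)
    (hη : 0 < η) (hl : 0 < l) (hlw : l ≤ η ^ m * T / Cg)
    (hl2 : C0 * ((k : ℝ) ^ 2 * (2 * Cg) ^ (k - 2) * Cg ^ 2) * l ^ 2 < T * η ^ (2 * m))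
    (ha : |((F.leadingCoeff : ℤ) : ℝ)| ≤ C0 * q)
    (hdiv : {I : Ideal (𝓞 K) | I ∣ Ideal.span {((F.leadingCoeff : ℤ) : 𝓞 K)}}.Finite ∧
      ({I : Ideal (𝓞 K) | I ∣ Ideal.span {((F.leadingCoeff : ℤ) : 𝓞 K)}}.ncard : ℝ) ≤
        Cd * |((F.leadingCoeff : ℤ) : ℝ)| ^ ε)
    (bad : Finset ℤ)
    (hbad : ∀ t0 : ℤ, ∃ y : ℤ → Fin k → ℂ,
      ∀ t : ℤ, |(t : ℝ)| ≤ C1 * T → t ∉ bad → |(t : ℝ) - t0| ≤ η ^ m * T / Cg →
        RootsOf k F t (y t) ∧ (∀ i, ‖y t i‖ ≤ Cg * (T / q) ^ ((1 : ℝ) / k)) ∧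
        ∀ t' : ℤ, |(t' : ℝ)| ≤ C1 * T → t' ∉ bad → |(t' : ℝ) - t0| ≤ η ^ m * T / Cg →
          ∀ i, ‖y t i - y t' i‖ ≤
            Cg * |(t : ℝ) - t'| / (q * η ^ m * (T / q) ^ (((k : ℝ) - 1) / k))) :
    (((Finset.Icc (-⌊C1 * T⌋) ⌊C1 * T⌋).filter
      (fun t : ℤ => t ∉ bad ∧ ¬ Irreducible ((F - Polynomial.C t).map (algebraMap ℤ K)))).card : ℝ)
      ≤ (2 * (C1 * T / l) + 2) * (((2 : ℝ) ^ k) ^ D *
        ((Cd * |((F.leadingCoeff : ℤ) : ℝ)| ^ ε) * (Cd * |((F.leadingCoeff : ℤ) : ℝ)| ^ ε))) := by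
  choose y hy using hbad
  set S := (Finset.Icc (-⌊C1 * T⌋) ⌊C1 * T⌋).filter
      (fun t : ℤ => t ∉ bad ∧ ¬ Irreducible ((F - Polynomial.C t).map (algebraMap ℤ K))) with hS
  have hT0 : 0 < T := by linarith
  have hq0 : 0 < q := by linarith
  have hC1T : 0 < C1 * T := by positivity
  have hSmem : ∀ t ∈ S, |(t : ℝ)| ≤ C1 * T ∧ t ∉ bad ∧
      ¬ Irreducible ((F - Polynomial.C t).map (algebraMap ℤ K)) := by
    intro t ht
    rw [hS, Finset.mem_filter, Finset.mem_Icc] at ht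
    refine ⟨?_, ht.2⟩
    obtain ⟨⟨h1, h2⟩, _⟩ := ht
    have h3 : (⌊C1 * T⌋ : ℝ) ≤ C1 * T := Int.floor_le _
    have h1' : (-(⌊C1 * T⌋ : ℝ)) ≤ (t : ℝ) := by exact_mod_cast h1
    have h2' : (t : ℝ) ≤ (⌊C1 * T⌋ : ℝ) := by exact_mod_cast h2
    rw [abs_le]
    constructor <;> linarith
  -- windows
  have ht0 : ∀ j : ℤ, ∃ t0 : ℤ, ∀ t ∈ S, ⌊(t : ℝ) / l⌋ = j → |(t : ℝ) - t0| < l := by
    intro j
    by_cases hj : ∃ t ∈ S, ⌊(t : ℝ) / l⌋ = j
    · obtain ⟨t0, _, ht0⟩ := hj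
      refine ⟨t0, fun t _ htj => ?_⟩
      have h1 := Int.abs_sub_lt_one_of_floor_eq_floor (htj.trans ht0.symm)
      rw [← sub_div, abs_div, abs_of_pos hl, div_lt_one hl] at h1
      exact h1
    · refine ⟨0, fun t ht htj => ?_⟩
      exact absurd ⟨t, ht, htj⟩ hj
  choose t0 ht0 using ht0
  have hwin : ∀ t ∈ S, |(t : ℝ) - t0 ⌊(t : ℝ) / l⌋| ≤ η ^ m * T / Cg := fun t ht =>
    (ht0 _ t ht rfl).le.trans hlw
  have hex : ∀ t ∈ S, ∃ ty, HitTy K k F (y (t0 ⌊(t : ℝ) / l⌋) t) t ty := by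
    intro t ht
    obtain ⟨h1, h2, h3⟩ := hSmem t ht
    exact hit_exists K k hk F hF _ t (hy _ t h1 h2 (hwin t ht)).1 h3
  have hex' : ∀ t : ℤ, ∃ ty, t ∈ S → HitTy K k F (y (t0 ⌊(t : ℝ) / l⌋) t) t ty := by
    intro t
    by_cases ht : t ∈ S
    · obtain ⟨ty, hty⟩ := hex t ht
      exact ⟨ty, fun _ => hty⟩
    · exact ⟨⟨fun _ => ∅, ⊥, ⊥⟩, fun h => absurd h ht⟩
  choose ty hty using hex'
  obtain ⟨hfin, hcard⟩ := hdiv
  set Ds : Finset (Ideal (𝓞 K)) := hfin.toFinset with hDs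
  have hDscard : (Ds.card : ℝ) ≤ Cd * |((F.leadingCoeff : ℤ) : ℝ)| ^ ε := by
    rw [hDs, ← Set.ncard_eq_toFinset_card _ hfin]
    exact hcard
  set Tgt : Finset (ℤ × (((K →+* ℂ) → Finset (Fin k)) × (Ideal (𝓞 K) × Ideal (𝓞 K)))) :=
    (Finset.Icc ⌊-(C1 * T) / l⌋ ⌊(C1 * T) / l⌋) ×ˢ (Finset.univ ×ˢ (Ds ×ˢ Ds)) with hTgt
  have hle : S.card ≤ Tgt.card := by
    apply Finset.card_le_card_of_injOn (fun t : ℤ => (⌊(t : ℝ) / l⌋, ty t))
    · intro t ht
      have ht' : t ∈ S := ht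
      obtain ⟨A, B, _, _, _, _, _, _, _, _, _, hbc, _, _⟩ := hty t ht'
      have h1 := (hSmem t ht').1
      rw [abs_le] at h1
      rw [hTgt, Finset.mem_coe, Finset.mem_product, Finset.mem_product, Finset.mem_product,
        Finset.mem_Icc]
      refine ⟨⟨?_, ?_⟩, Finset.mem_univ _, ?_, ?_⟩
      · exact Int.floor_le_floor (div_le_div_of_nonneg_right h1.1 hl.le)
      · exact Int.floor_le_floor (div_le_div_of_nonneg_right h1.2 hl.le)
      · rw [hDs, Set.Finite.mem_toFinset]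
        exact (dvd_mul_right _ _).trans hbc
      · rw [hDs, Set.Finite.mem_toFinset]
        exact (dvd_mul_left _ _).trans hbc
    · intro t ht t' ht' heq
      have htS : t ∈ S := ht
      have htS' : t' ∈ S := ht'
      simp only [Prod.mk.injEq] at heq
      obtain ⟨hj, htyeq⟩ := heq
      by_contra hne
      have hd1 := hty t htS
      have hd2 := hty t' htS'
      rw [← htyeq, ← hj] at hd2
      obtain ⟨a1, a2, _⟩ := hSmem t htS
      obtain ⟨b1, b2, _⟩ := hSmem t' htS'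
      have hw := hwin t htS
      have hw' := hwin t' htS'
      rw [← hj] at hw'
      obtain ⟨_, hy2, hy3⟩ := hy _ t a1 a2 hw
      obtain ⟨_, hy2', _⟩ := hy _ t' b1 b2 hw'
      have hy4 := hy3 t' b1 b2 hw'
      have hsep := hit_sep K k F hF hF0 t t' hne _ _ (ty t) hd1 hd2
        (Cg * (T / q) ^ ((1 : ℝ) / k))
        (Cg * |(t : ℝ) - t'| / (q * η ^ m * (T / q) ^ (((k : ℝ) - 1) / k)))
        (by positivity) (by positivity) hy2 hy2' hy4
      have hnum := hit_num k hk Cg C0 hCg hC0 q T η m hq hqT hη _ _ ha hsep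
      have hlt : |(t : ℝ) - t'| < l := by
        have h1 := Int.abs_sub_lt_one_of_floor_eq_floor hj
        rw [← sub_div, abs_div, abs_of_pos hl, div_lt_one hl] at h1
        exact h1
      have hsq : |(t : ℝ) - t'| ^ 2 ≤ l ^ 2 :=
        pow_le_pow_left₀ (abs_nonneg _) hlt.le 2
      have : C0 * ((k : ℝ) ^ 2 * (2 * Cg) ^ (k - 2) * Cg ^ 2) * |(t : ℝ) - t'| ^ 2
          ≤ C0 * ((k : ℝ) ^ 2 * (2 * Cg) ^ (k - 2) * Cg ^ 2) * l ^ 2 :=
        mul_le_mul_of_nonneg_left hsq (by positivity)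
      linarith
  have hle' : (S.card : ℝ) ≤ (Tgt.card : ℝ) := Nat.cast_le.2 hle
  refine hle'.trans ?_
  rw [hTgt, Finset.card_product, Finset.card_product, Finset.card_product]
  push_cast
  have hu : ((Finset.univ : Finset ((K →+* ℂ) → Finset (Fin k))).card : ℝ) ≤ ((2 : ℝ) ^ k) ^ D := by
    rw [Finset.card_univ, Fintype.card_fun, Fintype.card_finset, Fintype.card_fin,
      NumberField.Embeddings.card K ℂ]
    push_cast
    apply pow_le_pow_right₀ _ hD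
    exact one_le_pow₀ (by norm_num)
  have hDs0 : (0 : ℝ) ≤ Ds.card := Nat.cast_nonneg _
  apply mul_le_mul (hit_floor_card (C1 * T) l hC1T hl) _ (by positivity) (by positivity)
  apply mul_le_mul hu _ (by positivity) (by positivity)
  exact mul_le_mul hDscard hDscard hDs0 (hDs0.trans hDscard)

open Classical in
theorem hit_count (k D : ℕ) (hk : 1 ≤ k) (c0 C0 C1 : ℝ) (hc0 : 0 < c0) (hC0 : 0 < C0)
    (hC1 : 0 < C1) : ∃ c C2 : ℝ, 0 < c ∧ 0 ≤ C2 ∧ ∀ (K : Type) [Field K] [NumberField K],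
    Module.finrank ℚ K ≤ D → ∀ (F : ℤ[X]) (q T : ℕ), F.natDegree = k → F.coeff 0 = 0 → 1 ≤ q →
    q ≤ T → c0 * q ≤ |((F.leadingCoeff : ℤ) : ℝ)| → HtLe F (C0 * q) →
    (((Finset.Icc (-⌊C1 * T⌋) ⌊C1 * T⌋).filter
      (fun t : ℤ => ¬ Irreducible ((F - Polynomial.C t).map (algebraMap ℤ K)))).card : ℝ) ≤
      C2 * (T : ℝ) ^ (1 - c) := by
  rcases Nat.lt_or_ge k 2 with hk2 | hk2
  · -- degree one
    have hk1 : k = 1 := by omega
    subst hk1
    refine ⟨1, 0, one_pos, le_rfl, ?_⟩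
    intro K _ _ _ F q T hF _ hq hqT hlc _
    rw [zero_mul]
    have hF0 : F ≠ 0 := by
      rintro rfl
      rw [natDegree_zero] at hF
      omega
    have hinj : Function.Injective (algebraMap ℤ K) := by
      rw [algebraMap_int_eq]; exact Int.cast_injective
    rw [Finset.filter_false_of_mem, Finset.card_empty, Nat.cast_zero]
    intro t _
    rw [not_not]
    apply irreducible_of_degree_eq_one
    have h1 : ((F - C t).map (algebraMap ℤ K)).natDegree = 1 := by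
      rw [natDegree_map_eq_of_injective hinj, natDegree_sub_C, hF]
    have h2 : (F - C t).map (algebraMap ℤ K) ≠ 0 := by
      intro h0
      rw [h0, natDegree_zero] at h1
      omega
    rw [degree_eq_natDegree h2, h1]
    rfl
  · obtain ⟨Cg, m, hCg, hgeom⟩ := hit_geom k hk2 c0 C0 C1 hc0 hC0 hC1
    obtain ⟨Cd, hCd⟩ := ideal_div_count D (1 / 16) (by norm_num)
    set CK : ℝ := (k : ℝ) ^ 2 * (2 * Cg) ^ (k - 2) * Cg ^ 2 with hCK
    have hCg0 : 0 < Cg := by linarith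
    have hCK0 : 0 < CK := by positivity
    set c3 : ℝ := 1 / (Cg * (1 + C0 * CK)) with hc3
    have hc30 : 0 < c3 := by positivity
    have hc31 : c3 ≤ 1 / Cg := by
      rw [hc3]
      apply one_div_le_one_div_of_le hCg0
      nlinarith [mul_pos hC0 hCK0]
    have hc3le1 : c3 ≤ 1 := hc31.trans (by rw [div_le_one hCg0]; exact hCg)
    have hc32 : C0 * CK * c3 ^ 2 < 1 := by
      have hx : 0 < C0 * CK := mul_pos hC0 hCK0
      have h1 : c3 ≤ 1 / (1 + C0 * CK) := by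
        rw [hc3]
        apply one_div_le_one_div_of_le (by positivity)
        nlinarith
      have h2 : c3 ^ 2 ≤ (1 / (1 + C0 * CK)) ^ 2 := pow_le_pow_left₀ hc30.le h1 2
      calc C0 * CK * c3 ^ 2 ≤ C0 * CK * (1 / (1 + C0 * CK)) ^ 2 :=
            mul_le_mul_of_nonneg_left h2 hx.le
        _ < 1 := by
          rw [div_pow, one_pow, mul_one_div, div_lt_one (by positivity)]
          nlinarith
    set c4 : ℝ := 1 / (8 * ((m : ℝ) + 1)) with hc4
    have hc40 : 0 < c4 := by positivity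
    have hc48 : c4 ≤ 1 / 8 := by
      rw [hc4]
      apply one_div_le_one_div_of_le (by norm_num)
      have : (0 : ℝ) ≤ m := Nat.cast_nonneg _
      linarith
    have hc4m : c4 * m ≤ 1 / 8 := by
      rw [hc4, one_div, inv_mul_le_iff₀ (by positivity)]
      have : (0 : ℝ) ≤ m := Nat.cast_nonneg _
      linarith
    refine ⟨c4, (2 * C1 + 2) / c3 * (((2 : ℝ) ^ k) ^ D * (Cd ^ 2 * (C0 ^ ((1 : ℝ) / 16)) ^ 2)) + 2 * Cg,
      hc40, by positivity, ?_⟩
    intro K _ _ hD F q T hF hFc hq hqT hlc hht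
    have hF0 : F ≠ 0 := by
      rintro rfl
      rw [natDegree_zero] at hF
      omega
    have hq' : (1 : ℝ) ≤ q := by exact_mod_cast hq
    have hqT' : (q : ℝ) ≤ T := by exact_mod_cast hqT
    have hT1 : (1 : ℝ) ≤ T := hq'.trans hqT'
    have hT0 : (0 : ℝ) < T := by linarith
    set η : ℝ := (T : ℝ) ^ (-c4) with hη
    have hη0 : 0 < η := Real.rpow_pos_of_pos hT0 _
    have hη1 : η ≤ 1 := Real.rpow_le_one_of_one_le_of_nonpos hT1 (by linarith)
    obtain ⟨bad, hbadc, hbad⟩ := hgeom F q T η hF hFc hq' hqT' hη0 hη1 hlc hht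
    set l : ℝ := c3 * η ^ m * (T : ℝ) ^ ((1 : ℝ) / 2) with hl
    have hTh0 : 0 < (T : ℝ) ^ ((1 : ℝ) / 2) := Real.rpow_pos_of_pos hT0 _
    have hTh : (T : ℝ) ^ ((1 : ℝ) / 2) ≤ T := by
      calc (T : ℝ) ^ ((1 : ℝ) / 2) ≤ (T : ℝ) ^ (1 : ℝ) :=
            Real.rpow_le_rpow_of_exponent_le hT1 (by norm_num)
        _ = T := Real.rpow_one _
    have hThsq : ((T : ℝ) ^ ((1 : ℝ) / 2)) ^ 2 = T := by
      rw [← Real.rpow_natCast, ← Real.rpow_mul hT0.le]
      norm_num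
    have hηm0 : 0 < η ^ m := pow_pos hη0 m
    have hl0 : 0 < l := by positivity
    have hlw : l ≤ η ^ m * T / Cg := by
      rw [hl]
      calc c3 * η ^ m * (T : ℝ) ^ ((1 : ℝ) / 2) ≤ (1 / Cg) * η ^ m * T := by
            apply mul_le_mul _ hTh hTh0.le (by positivity)
            exact mul_le_mul_of_nonneg_right hc31 hηm0.le
        _ = η ^ m * T / Cg := by ring
    have hl2 : C0 * ((k : ℝ) ^ 2 * (2 * Cg) ^ (k - 2) * Cg ^ 2) * l ^ 2 < T * η ^ (2 * m) := by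
      rw [← hCK, hl, mul_pow, mul_pow, hThsq]
      have e1 : η ^ (2 * m) = (η ^ m) ^ 2 := by rw [← pow_mul, mul_comm]
      rw [e1]
      calc C0 * CK * (c3 ^ 2 * (η ^ m) ^ 2 * T) = (C0 * CK * c3 ^ 2) * (T * (η ^ m) ^ 2) := by ring
        _ < 1 * (T * (η ^ m) ^ 2) := mul_lt_mul_of_pos_right hc32 (by positivity)
        _ = T * (η ^ m) ^ 2 := one_mul _
    have ha : |((F.leadingCoeff : ℤ) : ℝ)| ≤ C0 * q := hht _
    have haT : |((F.leadingCoeff : ℤ) : ℝ)| ≤ C0 * T :=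
      ha.trans (mul_le_mul_of_nonneg_left hqT' hC0.le)
    have hlc0 : F.leadingCoeff ≠ 0 := leadingCoeff_ne_zero.2 hF0
    have hmain := hit_inj k D hk2 c0 C0 C1 hc0 hC0 hC1 Cg m hCg Cd (1 / 16) K hD F hF hF0 q T η l
      hq' hqT' hη0 hl0 hlw hl2 ha (hCd K hD F.leadingCoeff hlc0) bad hbad
    set S := (Finset.Icc (-⌊C1 * T⌋) ⌊C1 * T⌋).filter
      (fun t : ℤ => t ∉ bad ∧ ¬ Irreducible ((F - Polynomial.C t).map (algebraMap ℤ K))) with hS
    have hcov : ((Finset.Icc (-⌊C1 * T⌋) ⌊C1 * T⌋).filter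
        (fun t : ℤ => ¬ Irreducible ((F - Polynomial.C t).map (algebraMap ℤ K)))).card
        ≤ S.card + bad.card := by
      refine le_trans (Finset.card_le_card ?_) (Finset.card_union_le S bad)
      intro t ht
      rw [Finset.mem_filter] at ht
      rw [Finset.mem_union]
      by_cases hb : t ∈ bad
      · exact Or.inr hb
      · left
        rw [hS, Finset.mem_filter]
        exact ⟨ht.1, hb, ht.2⟩
    have hcov' : (((Finset.Icc (-⌊C1 * T⌋) ⌊C1 * T⌋).filter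
        (fun t : ℤ => ¬ Irreducible ((F - Polynomial.C t).map (algebraMap ℤ K)))).card : ℝ)
        ≤ (S.card : ℝ) + (bad.card : ℝ) := by exact_mod_cast hcov
    refine hcov'.trans ?_
    rw [add_mul]
    have hpow4 : (T : ℝ) ^ ((3 : ℝ) / 4) ≤ (T : ℝ) ^ (1 - c4) :=
      Real.rpow_le_rpow_of_exponent_le hT1 (by linarith)
    apply add_le_add
    · refine hmain.trans ?_
      -- the three factors
      have f1 : 2 * (C1 * T / l) + 2 ≤ (2 * C1 + 2) / c3 * (T : ℝ) ^ ((5 : ℝ) / 8) := by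
        have g1 : 1 ≤ T / l := by
          rw [le_div_iff₀ hl0, one_mul]
          calc l ≤ η ^ m * T / Cg := hlw
            _ ≤ 1 * T / 1 := by
              apply div_le_div₀ (by positivity) _ one_pos hCg
              exact mul_le_mul_of_nonneg_right (pow_le_one₀ hη0.le hη1) hT0.le
            _ = T := by ring
        have g2 : T / l ≤ 1 / c3 * (T : ℝ) ^ ((5 : ℝ) / 8) := by
          rw [div_le_iff₀ hl0, hl]
          have g3 : η ^ m = (T : ℝ) ^ (-(c4 * m)) := by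
            rw [hη, ← Real.rpow_natCast, ← Real.rpow_mul hT0.le]
            congr 1
            ring
          rw [g3]
          have g4 : 1 / c3 * (T : ℝ) ^ ((5 : ℝ) / 8) *
              (c3 * (T : ℝ) ^ (-(c4 * m)) * (T : ℝ) ^ ((1 : ℝ) / 2))
              = (T : ℝ) ^ ((5 : ℝ) / 8 + (-(c4 * m)) + (1 : ℝ) / 2) := by
            rw [Real.rpow_add hT0, Real.rpow_add hT0]
            field_simp
          rw [g4]
          calc (T : ℝ) = (T : ℝ) ^ (1 : ℝ) := (Real.rpow_one _).symm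
            _ ≤ _ := Real.rpow_le_rpow_of_exponent_le hT1 (by linarith)
        calc 2 * (C1 * T / l) + 2 = 2 * C1 * (T / l) + 2 * 1 := by ring
          _ ≤ 2 * C1 * (T / l) + 2 * (T / l) := by linarith
          _ = (2 * C1 + 2) * (T / l) := by ring
          _ ≤ (2 * C1 + 2) * (1 / c3 * (T : ℝ) ^ ((5 : ℝ) / 8)) :=
            mul_le_mul_of_nonneg_left g2 (by positivity)
          _ = _ := by ring
      have f2 : (Cd * |((F.leadingCoeff : ℤ) : ℝ)| ^ ((1 : ℝ) / 16)) *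
          (Cd * |((F.leadingCoeff : ℤ) : ℝ)| ^ ((1 : ℝ) / 16))
          ≤ Cd ^ 2 * (C0 ^ ((1 : ℝ) / 16)) ^ 2 * (T : ℝ) ^ ((1 : ℝ) / 8) := by
        have g1 : |((F.leadingCoeff : ℤ) : ℝ)| ^ ((1 : ℝ) / 16)
            ≤ C0 ^ ((1 : ℝ) / 16) * (T : ℝ) ^ ((1 : ℝ) / 16) := by
          rw [← Real.mul_rpow hC0.le hT0.le]
          exact Real.rpow_le_rpow (abs_nonneg _) haT (by norm_num)
        have g2 : (T : ℝ) ^ ((1 : ℝ) / 8) = ((T : ℝ) ^ ((1 : ℝ) / 16)) ^ 2 := by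
          rw [← Real.rpow_natCast, ← Real.rpow_mul hT0.le]
          norm_num
        rw [g2]
        calc (Cd * |((F.leadingCoeff : ℤ) : ℝ)| ^ ((1 : ℝ) / 16)) *
            (Cd * |((F.leadingCoeff : ℤ) : ℝ)| ^ ((1 : ℝ) / 16))
            = Cd ^ 2 * (|((F.leadingCoeff : ℤ) : ℝ)| ^ ((1 : ℝ) / 16)) ^ 2 := by ring
          _ ≤ Cd ^ 2 * (C0 ^ ((1 : ℝ) / 16) * (T : ℝ) ^ ((1 : ℝ) / 16)) ^ 2 := by
            apply mul_le_mul_of_nonneg_left _ (by positivity)
            exact pow_le_pow_left₀ (by positivity) g1 2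
          _ = _ := by ring
      have f3 : (T : ℝ) ^ ((5 : ℝ) / 8) * (T : ℝ) ^ ((1 : ℝ) / 8) = (T : ℝ) ^ ((3 : ℝ) / 4) := by
        rw [← Real.rpow_add hT0]; norm_num
      have hsq0 : 0 ≤ (Cd * |((F.leadingCoeff : ℤ) : ℝ)| ^ ((1 : ℝ) / 16)) *
          (Cd * |((F.leadingCoeff : ℤ) : ℝ)| ^ ((1 : ℝ) / 16)) := mul_self_nonneg _
      calc _ ≤ ((2 * C1 + 2) / c3 * (T : ℝ) ^ ((5 : ℝ) / 8)) * (((2 : ℝ) ^ k) ^ D *
            (Cd ^ 2 * (C0 ^ ((1 : ℝ) / 16)) ^ 2 * (T : ℝ) ^ ((1 : ℝ) / 8))) := by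
            apply mul_le_mul f1 _ (by positivity) (by positivity)
            exact mul_le_mul_of_nonneg_left f2 (by positivity)
        _ = (2 * C1 + 2) / c3 * (((2 : ℝ) ^ k) ^ D * (Cd ^ 2 * (C0 ^ ((1 : ℝ) / 16)) ^ 2)) *
            ((T : ℝ) ^ ((5 : ℝ) / 8) * (T : ℝ) ^ ((1 : ℝ) / 8)) := by ring
        _ ≤ _ := by
          rw [f3]
          exact mul_le_mul_of_nonneg_left hpow4 (by positivity)
    · refine hbadc.trans ?_
      have h1 : η * T = (T : ℝ) ^ (1 - c4) := by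
        rw [hη]
        nth_rewrite 2 [← Real.rpow_one (T : ℝ)]
        rw [← Real.rpow_add hT0]
        congr 1
        ring
      have h2 : (1 : ℝ) ≤ (T : ℝ) ^ (1 - c4) := Real.one_le_rpow hT1 (by linarith)
      rw [h1]
      nlinarith

end EK75

end S_H75_EK_Hit
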