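import Mathlib
import Pool.Agent.H75.EM.L1

/-! Erdos-Kac law for integer parts of real polynomials, part L7: this file joins several modules to save build time. -/

section S_H75_EK_Pb2

/-! Module PB2: solutions of `F(x) ≡ t (mod q)` weighted by `gcd(F'(x), q)`. -/

open Polynomial Finset
open scoped Real BigOperators

namespace EK75

/-! ### Multiplicativity -/

theorem pb2_gcd_congr {a b : ℤ} {q : ℕ} (h : (q : ℤ) ∣ a - b) : Int.gcd a q = Int.gcd b q := by
  apply Nat.dvd_antisymm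
  · apply Int.dvd_gcd
    · have h1 : ((Int.gcd a q : ℕ) : ℤ) ∣ a := Int.gcd_dvd_left ..
      have h2 : ((Int.gcd a q : ℕ) : ℤ) ∣ (q : ℤ) := Int.gcd_dvd_right ..
      have h3 := dvd_sub h1 (h2.trans h)
      simpa using h3
    · exact Int.gcd_dvd_right ..
  · apply Int.dvd_gcd
    · have h1 : ((Int.gcd b q : ℕ) : ℤ) ∣ b := Int.gcd_dvd_left ..
      have h2 : ((Int.gcd b q : ℕ) : ℤ) ∣ (q : ℤ) := Int.gcd_dvd_right ..
      have h3 := dvd_add h1 (h2.trans h)
      simpa using h3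
    · exact Int.gcd_dvd_right ..

theorem pb2_dvd_mod (x a : ℕ) : (a : ℤ) ∣ (x : ℤ) - ((x % a : ℕ) : ℤ) := by
  refine ⟨((x / a : ℕ) : ℤ), ?_⟩
  have h : ((a * (x / a) + x % a : ℕ) : ℤ) = (x : ℤ) := by rw [Nat.div_add_mod]
  push_cast at h ⊢
  linarith

theorem pb2_sum_mul (f : ℕ → ℤ → ℝ) (hper : ∀ q : ℕ, ∀ x y : ℤ, (q : ℤ) ∣ x - y → f q x = f q y)
    (hmul : ∀ a b : ℕ, Nat.Coprime a b → ∀ x, f (a * b) x = f a x * f b x) {a b : ℕ} (ha : a ≠ 0)
    (hb : b ≠ 0) (h : Nat.Coprime a b) :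
    ∑ x ∈ range (a * b), f (a * b) x = (∑ x ∈ range a, f a x) * (∑ x ∈ range b, f b x) := by
  rw [Finset.sum_mul_sum, ← Finset.sum_product']
  refine Finset.sum_nbij' (fun x => (x % a, x % b)) (fun u => (Nat.chineseRemainder h u.1 u.2 : ℕ))
    ?_ ?_ ?_ ?_ ?_
  · intro x _
    simp only [Finset.mem_product, Finset.mem_range]
    exact ⟨Nat.mod_lt _ (Nat.pos_of_ne_zero ha), Nat.mod_lt _ (Nat.pos_of_ne_zero hb)⟩
  · intro u _
    simp only [Finset.mem_range]
    exact Nat.chineseRemainder_lt_mul h _ _ ha hb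
  · intro x hx
    simp only [Finset.mem_range] at hx
    have h1 := (Nat.chineseRemainder h (x % a) (x % b)).2
    have h2 := Nat.chineseRemainder_lt_mul h (x % a) (x % b) ha hb
    have h3 : (Nat.chineseRemainder h (x % a) (x % b) : ℕ) ≡ x [MOD a * b] := by
      rw [← Nat.modEq_and_modEq_iff_modEq_mul h]
      exact ⟨h1.1.trans (Nat.mod_modEq _ _), h1.2.trans (Nat.mod_modEq _ _)⟩
    exact Nat.ModEq.eq_of_lt_of_lt h3 h2 hx
  · rintro ⟨u, v⟩ huv
    simp only [Finset.mem_product, Finset.mem_range] at huv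
    have h1 := (Nat.chineseRemainder h u v).2
    simp only [Prod.mk.injEq]
    exact ⟨by rw [h1.1, Nat.mod_eq_of_lt huv.1], by rw [h1.2, Nat.mod_eq_of_lt huv.2]⟩
  · intro x _
    simp only
    rw [hmul a b h]
    congr 1
    · apply hper
      exact pb2_dvd_mod x a
    · apply hper
      exact pb2_dvd_mod x b

/-- The general multiplicative bound. -/
theorem pb2_sum_le (f : ℕ → ℤ → ℝ) (hf0 : ∀ q x, 0 ≤ f q x)
    (hper : ∀ q : ℕ, ∀ x y : ℤ, (q : ℤ) ∣ x - y → f q x = f q y)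
    (hmul : ∀ a b : ℕ, Nat.Coprime a b → ∀ x, f (a * b) x = f a x * f b x)
    (B : ℕ → ℝ) (hB0 : ∀ q, 0 ≤ B q) (hB1 : f 1 0 ≤ B 1)
    (hBmul : ∀ a b : ℕ, 1 < a → 1 < b → Nat.Coprime a b → B a * B b ≤ B (a * b))
    (Good : ℕ → Prop) (hgood : ∀ a b, Good (a * b) → Good a ∧ Good b)
    (hloc : ∀ p e : ℕ, p.Prime → 0 < e → Good (p ^ e) → ∑ x ∈ range (p ^ e), f (p ^ e) x ≤ B (p ^ e))
    (q : ℕ) (hq : 1 ≤ q) (hG : Good q) : ∑ x ∈ range q, f q x ≤ B q := by
  induction q using Nat.recOnPosPrimePosCoprime with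
  | prime_pow p n hp hn => exact hloc p n hp hn hG
  | zero => omega
  | one => simpa using hB1
  | coprime a b ha hb h iha ihb =>
    obtain ⟨hGa, hGb⟩ := hgood a b hG
    rw [pb2_sum_mul f hper hmul (by omega) (by omega) h]
    refine le_trans ?_ (hBmul a b ha hb h)
    exact mul_le_mul (iha (by omega) hGa) (ihb (by omega) hGb)
      (Finset.sum_nonneg fun x _ => hf0 _ _) (hB0 _)

/-! ### Taylor -/

theorem pb2_taylor (F : ℤ[X]) (x y : ℤ) :
    ∃ k : ℤ, F.eval y - F.eval x = (derivative F).eval x * (y - x) + k * (y - x) ^ 2 := by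
  obtain ⟨k, h⟩ := Polynomial.binomExpansion F x (y - x)
  refine ⟨k, ?_⟩
  rw [add_sub_cancel] at h
  rw [h]; ring

theorem pb2_close (F : ℤ[X]) (p e v : ℕ) (hp : p.Prime) (t x y : ℤ)
    (hx : ((p : ℤ) ^ e) ∣ F.eval x - t) (hy : ((p : ℤ) ^ e) ∣ F.eval y - t)
    (hv : ¬ ((p : ℤ) ^ (v + 1) ∣ (derivative F).eval x)) (hxy : ((p : ℤ) ^ (v + 1)) ∣ y - x) :
    ((p : ℤ) ^ (e - v)) ∣ y - x := by
  have hpz : Prime (p : ℤ) := Nat.prime_iff_prime_int.mp hp
  have hp0 : (p : ℤ) ≠ 0 := hpz.ne_zero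
  rcases eq_or_ne (y - x) 0 with h0 | h0
  · rw [h0]; exact dvd_zero _
  have hfin : FiniteMultiplicity (p : ℤ) (y - x) := by
    rw [Int.finiteMultiplicity_iff]
    exact ⟨by simpa using hp.ne_one, h0⟩
  obtain ⟨u, hu, hndvd⟩ := hfin.exists_eq_pow_mul_and_not_dvd
  set w := multiplicity (p : ℤ) (y - x) with hw
  by_contra hcon
  have hwe : w < e - v := by
    by_contra hge
    push Not at hge
    apply hcon
    rw [hu]
    exact (pow_dvd_pow _ hge).mul_right _
  have hwv : v + 1 ≤ w := by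
    by_contra hlt
    push Not at hlt
    have h1 : ((p : ℤ) ^ (w + 1)) ∣ y - x := (pow_dvd_pow _ (by omega)).trans hxy
    rw [hu, pow_succ] at h1
    exact hndvd ((mul_dvd_mul_iff_left (pow_ne_zero w hp0)).mp h1)
  obtain ⟨k, hk⟩ := pb2_taylor F x y
  have h1 : ((p : ℤ) ^ (w + (v + 1))) ∣ F.eval y - F.eval x := by
    have := dvd_sub hy hx
    rw [sub_sub_sub_cancel_right] at this
    exact (pow_dvd_pow _ (by omega)).trans this
  have h2 : ((p : ℤ) ^ (w + (v + 1))) ∣ k * (y - x) ^ 2 := by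
    apply Dvd.dvd.mul_left
    rw [sq, pow_add]
    apply mul_dvd_mul
    · rw [hu]; exact dvd_mul_right _ _
    · exact hxy
  have h3 : ((p : ℤ) ^ (w + (v + 1))) ∣ (derivative F).eval x * (y - x) := by
    have h4 := dvd_sub h1 h2
    rw [hk, add_sub_cancel_right] at h4
    exact h4
  rw [hu, pow_add, mul_left_comm] at h3
  have h5 := (mul_dvd_mul_iff_left (pow_ne_zero w hp0)).mp h3
  exact hv (hpz.pow_dvd_of_dvd_mul_right _ hndvd h5)

/-- the solutions with `gcd = p^v` -/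
noncomputable def pb2A (F : ℤ[X]) (t : ℤ) (p e v : ℕ) : Finset ℕ :=
  (range (p ^ e)).filter (fun x : ℕ => ((p ^ e : ℕ) : ℤ) ∣ F.eval (x : ℤ) - t ∧
    Int.gcd ((derivative F).eval (x : ℤ)) ((p ^ e : ℕ) : ℤ) = p ^ v)

theorem pb2_not_dvd {a : ℤ} {p e v : ℕ} (hp : p.Prime) (hve : v < e)
    (h : Int.gcd a ((p ^ e : ℕ) : ℤ) = p ^ v) : ¬ ((p : ℤ) ^ (v + 1) ∣ a) := by
  intro hd
  have h1 : p ^ (v + 1) ∣ Int.gcd a ((p ^ e : ℕ) : ℤ) := by
    apply Int.dvd_gcd
    · push_cast; exact hd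
    · push_cast; exact pow_dvd_pow _ hve
  rw [h] at h1
  exact absurd (Nat.le_of_dvd (pow_pos hp.pos _) h1)
    (not_le.mpr (Nat.pow_lt_pow_right hp.one_lt (Nat.lt_succ_self v)))

theorem pb2A_zero (k : ℕ) (F : ℤ[X]) (hF : F.natDegree ≤ k) (t : ℤ) (p e : ℕ) (hp : p.Prime) (he : 0 < e)
    (hc : ∃ j, 1 ≤ j ∧ ¬ ((p : ℤ) ∣ F.coeff j)) : (pb2A F t p e 0).card ≤ k := by
  have : Fact p.Prime := ⟨hp⟩
  set G : (ZMod p)[X] := (F - C t).map (Int.castRingHom (ZMod p)) with hG
  have hG0 : G ≠ 0 := by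
    obtain ⟨j, hj1, hj⟩ := hc
    intro h0
    apply hj
    have h1 : G.coeff j = 0 := by rw [h0]; simp
    rw [hG, coeff_map, coeff_sub, coeff_C, if_neg (by omega), sub_zero] at h1
    exact (ZMod.intCast_zmod_eq_zero_iff_dvd _ _).mp (by simpa using h1)
  have hGd : G.natDegree ≤ k := by
    refine le_trans (natDegree_map_le) ?_
    refine le_trans (natDegree_sub_le _ _) ?_
    simp [hF]
  have hinj : Set.InjOn (fun x : ℕ => (x : ZMod p)) (pb2A F t p e 0 : Set ℕ) := by
    intro x hx y hy hxy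
    simp only [pb2A, Finset.coe_filter, Finset.mem_range, Set.mem_ofPred_eq] at hx hy
    have h1 : ((p : ℤ) ^ (0 + 1)) ∣ (y : ℤ) - x := by
      rw [zero_add, pow_one]
      apply (ZMod.intCast_zmod_eq_zero_iff_dvd _ _).mp
      push_cast
      rw [sub_eq_zero]; exact hxy.symm
    have h2 := pb2_close F p e 0 hp t x y (by simpa using hx.2.1) (by simpa using hy.2.1)
      (pb2_not_dvd hp he hx.2.2) h1
    rw [Nat.sub_zero] at h2
    have h3 : y ≡ x [MOD p ^ e] := by
      rw [Nat.modEq_iff_dvd]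
      have := (dvd_neg.mpr h2)
      rw [neg_sub] at this
      exact_mod_cast this
    exact (Nat.ModEq.eq_of_lt_of_lt h3 hy.1 hx.1).symm
  calc (pb2A F t p e 0).card = ((pb2A F t p e 0).image (fun x : ℕ => (x : ZMod p))).card := by
        rw [Finset.card_image_of_injOn hinj]
    _ ≤ G.roots.toFinset.card := by
        apply Finset.card_le_card
        intro z hz
        simp only [Finset.mem_image] at hz
        obtain ⟨x, hx, rfl⟩ := hz
        simp only [pb2A, Finset.mem_filter, Finset.mem_range] at hx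
        rw [Multiset.mem_toFinset, mem_roots hG0, IsRoot.def, hG]
        have h1 : ((F - C t).map (Int.castRingHom (ZMod p))).eval ((x : ℤ) : ZMod p) =
            (((F - C t).eval (x : ℤ) : ℤ) : ZMod p) := by
          have := Polynomial.eval_map_apply (p := F - C t) (f := Int.castRingHom (ZMod p)) (x : ℤ)
          simpa using this
        rw [Int.cast_natCast] at h1
        rw [h1, ZMod.intCast_zmod_eq_zero_iff_dvd]
        simp only [eval_sub, eval_C]
        refine dvd_trans ?_ hx.2.1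
        push_cast
        exact dvd_pow_self _ he.ne'
    _ ≤ k := (Multiset.toFinset_card_le _).trans ((card_roots' _).trans hGd)

theorem pb2A_pos (F : ℤ[X]) (t : ℤ) (p e v : ℕ) (hp : p.Prime) (hv : 1 ≤ v) :
    (pb2A F t p e v).card ≤ p ^ (3 * v) := by
  rcases Nat.lt_or_ge (3 * v) e with h | h
  · have h1 : (pb2A F t p e v).card ≤ p ^ v * (range (p ^ (v + 1))).card := by
      apply Finset.card_le_mul_card_image_of_maps_to (f := fun x => x % p ^ (v + 1))
      · intro x _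
        simp only [Finset.mem_range]
        exact Nat.mod_lt _ (pow_pos hp.pos _)
      · intro b _
        rw [← Finset.card_range (p ^ v)]
        apply Finset.card_le_card_of_injOn (fun x => x / p ^ (e - v))
        · intro x hx
          simp only [Finset.coe_filter, Set.mem_ofPred_eq, pb2A, Finset.mem_filter, Finset.mem_range] at hx
          simp only [Finset.coe_range, Set.mem_Iio]
          rw [Nat.div_lt_iff_lt_mul (pow_pos hp.pos _), ← pow_add]
          have : v + (e - v) = e := by omega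
          rw [this]; exact hx.1.1
        · intro x hx y hy hxy
          simp only [Finset.coe_filter, Set.mem_ofPred_eq, pb2A, Finset.mem_filter, Finset.mem_range] at hx hy
          have h2 : ((p : ℤ) ^ (v + 1)) ∣ (y : ℤ) - x := by
            have h3 : x ≡ y [MOD p ^ (v + 1)] := by rw [Nat.ModEq, hx.2, hy.2]
            rw [Nat.modEq_iff_dvd] at h3
            exact_mod_cast h3
          have h4 := pb2_close F p e v hp t x y (by simpa using hx.1.2.1) (by simpa using hy.1.2.1)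
            (pb2_not_dvd hp (by omega) hx.1.2.2) h2
          have h5 : x ≡ y [MOD p ^ (e - v)] := by
            rw [Nat.modEq_iff_dvd]
            exact_mod_cast h4
          simp only at hxy
          rw [← Nat.div_add_mod x (p ^ (e - v)), ← Nat.div_add_mod y (p ^ (e - v)), hxy, h5]
    calc (pb2A F t p e v).card ≤ p ^ v * (range (p ^ (v + 1))).card := h1
      _ = p ^ (v + (v + 1)) := by rw [Finset.card_range, ← pow_add]
      _ ≤ p ^ (3 * v) := Nat.pow_le_pow_right hp.pos (by omega)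
  · calc (pb2A F t p e v).card ≤ (range (p ^ e)).card := Finset.card_filter_le _ _
      _ = p ^ e := Finset.card_range _
      _ ≤ p ^ (3 * v) := Nat.pow_le_pow_right hp.pos h

/-- decomposition by the value `p^v` of the gcd -/
theorem pb2_split (P : ℕ → Prop) [DecidablePred P] (a : ℕ → ℤ) (p e : ℕ) (hp : p.Prime) (g : ℕ → ℝ)
    (hg : ∀ n, 0 ≤ g n) :
    ∑ x ∈ (range (p ^ e)).filter P, g (Int.gcd (a x) ((p ^ e : ℕ) : ℤ)) ≤
      ∑ v ∈ range (e + 1), (((range (p ^ e)).filter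
        (fun x => P x ∧ Int.gcd (a x) ((p ^ e : ℕ) : ℤ) = p ^ v)).card : ℝ) * g (p ^ v) := by
  have h1 : ∀ x ∈ (range (p ^ e)).filter P, g (Int.gcd (a x) ((p ^ e : ℕ) : ℤ)) ≤
      ∑ v ∈ range (e + 1), if Int.gcd (a x) ((p ^ e : ℕ) : ℤ) = p ^ v then g (p ^ v) else 0 := by
    intro x _
    have h2 : Int.gcd (a x) ((p ^ e : ℕ) : ℤ) ∣ p ^ e := by
      have := Int.gcd_dvd_right (a := a x) (b := ((p ^ e : ℕ) : ℤ))
      exact_mod_cast this
    obtain ⟨v, hv, hv2⟩ := (Nat.dvd_prime_pow hp).mp h2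
    have h3 := Finset.single_le_sum (s := range (e + 1))
      (f := fun v => if Int.gcd (a x) ((p ^ e : ℕ) : ℤ) = p ^ v then g (p ^ v) else 0)
      (fun w _ => by
        split_ifs
        · exact hg _
        · exact le_refl _) (Finset.mem_range.mpr (Nat.lt_succ_of_le hv))
    simp only [hv2, if_true] at h3 ⊢
    exact h3
  refine (Finset.sum_le_sum h1).trans ?_
  rw [Finset.sum_comm]
  apply le_of_eq
  apply Finset.sum_congr rfl
  intro v _
  rw [← Finset.sum_filter, Finset.filter_filter, Finset.sum_const, nsmul_eq_mul]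

theorem pb2_wloc (k : ℕ) (hk : 1 ≤ k) (F : ℤ[X]) (hF : F.natDegree ≤ k) (t : ℤ) (p e : ℕ) (hp : p.Prime)
    (he : 0 < e) (hc : ∃ j, 1 ≤ j ∧ ¬ ((p : ℤ) ∣ F.coeff j)) :
    ∑ x ∈ (range (p ^ e)).filter (fun x : ℕ => ((p ^ e : ℕ) : ℤ) ∣ F.eval (x : ℤ) - t),
      (((Int.gcd ((derivative F).eval (x : ℤ)) ((p ^ e : ℕ) : ℤ) : ℕ) : ℝ) ^ 3)⁻¹ ≤ k * (e + 1) := by
  refine (pb2_split (fun x : ℕ => ((p ^ e : ℕ) : ℤ) ∣ F.eval (x : ℤ) - t)
    (fun x : ℕ => (derivative F).eval (x : ℤ)) p e hp (fun n => ((n : ℝ) ^ 3)⁻¹)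
    (fun n => by positivity)).trans ?_
  rw [Finset.sum_range_succ', mul_add, mul_one]
  have h0 : (((range (p ^ e)).filter (fun x : ℕ => (((p ^ e : ℕ) : ℤ) ∣ F.eval (x : ℤ) - t) ∧
      Int.gcd ((derivative F).eval (x : ℤ)) ((p ^ e : ℕ) : ℤ) = p ^ 0)).card : ℝ) *
      ((((p ^ 0 : ℕ) : ℝ)) ^ 3)⁻¹ ≤ k := by
    have := pb2A_zero k F hF t p e hp he hc
    simp only [pow_zero, Nat.cast_one, one_pow, inv_one, mul_one]
    simp only [pb2A, pow_zero] at this
    exact_mod_cast this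
  have h1 : ∑ v ∈ range e, (((range (p ^ e)).filter (fun x : ℕ => (((p ^ e : ℕ) : ℤ) ∣ F.eval (x : ℤ) - t) ∧
      Int.gcd ((derivative F).eval (x : ℤ)) ((p ^ e : ℕ) : ℤ) = p ^ (v + 1))).card : ℝ) *
      ((((p ^ (v + 1) : ℕ) : ℝ)) ^ 3)⁻¹ ≤ k * e := by
    calc _ ≤ ∑ v ∈ range e, (1 : ℝ) := by
          apply Finset.sum_le_sum
          intro v _
          have h2 := pb2A_pos F t p e (v + 1) hp (by omega)
          simp only [pb2A] at h2
          rw [← div_eq_mul_inv, div_le_one (by have := hp.pos; positivity)]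
          have h3 : ((p ^ (3 * (v + 1)) : ℕ) : ℝ) = (((p ^ (v + 1) : ℕ) : ℝ)) ^ 3 := by
            push_cast; ring
          rw [← h3]
          exact_mod_cast h2
      _ = e := by simp
      _ ≤ k * e := by
          have : (1 : ℝ) ≤ k := by exact_mod_cast hk
          nlinarith [(Nat.cast_nonneg e : (0 : ℝ) ≤ e)]
  exact add_le_add h1 h0

open Classical in
theorem wsum_le (k : ℕ) (hk : 1 ≤ k) (F : ℤ[X]) (hF : F.natDegree ≤ k) (q : ℕ) (hq : 1 ≤ q)
    (hc : ∀ p : ℕ, p.Prime → p ∣ q → ∃ j, 1 ≤ j ∧ ¬ ((p : ℤ) ∣ F.coeff j)) (t : ℤ) :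
    ∑ x ∈ (range q).filter (fun x : ℕ => (q : ℤ) ∣ F.eval (x : ℤ) - t),
      (((Int.gcd ((derivative F).eval (x : ℤ)) q : ℕ) : ℝ) ^ 3)⁻¹ ≤
      (k : ℝ) ^ q.primeFactors.card * q.divisors.card := by
  have key := pb2_sum_le
    (fun q x => if (q : ℤ) ∣ F.eval x - t then (((Int.gcd ((derivative F).eval x) q : ℕ) : ℝ) ^ 3)⁻¹ else 0)
    (fun q x => by
      split_ifs
      · positivity
      · exact le_refl _)
    (fun q x y hxy => by
      have h1 : (q : ℤ) ∣ F.eval x - F.eval y := hxy.trans (Polynomial.sub_dvd_eval_sub _ _ _)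
      have h2 : (q : ℤ) ∣ (derivative F).eval x - (derivative F).eval y :=
        hxy.trans (Polynomial.sub_dvd_eval_sub _ _ _)
      rw [pb2_gcd_congr h2]
      have h3 : (q : ℤ) ∣ F.eval x - t ↔ (q : ℤ) ∣ F.eval y - t := by
        have h4 : F.eval x - t = (F.eval y - t) + (F.eval x - F.eval y) := by ring
        rw [h4]
        exact (dvd_add_left h1)
      simp only [h3])
    (fun a b hab x => by
      have h1 : ((a * b : ℕ) : ℤ) ∣ F.eval x - t ↔ ((a : ℤ) ∣ F.eval x - t ∧ (b : ℤ) ∣ F.eval x - t) := by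
        push_cast
        constructor
        · intro h
          exact ⟨(dvd_mul_right _ _).trans h, (dvd_mul_left _ _).trans h⟩
        · rintro ⟨h2, h3⟩
          exact IsCoprime.mul_dvd (Nat.isCoprime_iff_coprime.mpr hab) h2 h3
      have h2 : Int.gcd ((derivative F).eval x) ((a * b : ℕ) : ℤ) =
          Int.gcd ((derivative F).eval x) a * Int.gcd ((derivative F).eval x) b := by
        simp only [Int.gcd, Int.natAbs_natCast]
        exact Nat.Coprime.gcd_mul _ hab
      simp only [h1, h2]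
      by_cases ha : (a : ℤ) ∣ F.eval x - t <;> by_cases hb : (b : ℤ) ∣ F.eval x - t <;>
        simp [ha, hb, mul_pow, mul_comm])
    (fun q => (k : ℝ) ^ q.primeFactors.card * q.divisors.card)
    (fun q => by positivity)
    (by
      simp)
    (fun a b ha hb hab => by
      rw [Nat.Coprime.primeFactors_mul hab, Finset.card_union_of_disjoint (Nat.Coprime.disjoint_primeFactors hab),
        Nat.Coprime.card_divisors_mul hab, pow_add]
      push_cast
      apply le_of_eq; ring)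
    (fun q => ∀ p : ℕ, p.Prime → p ∣ q → ∃ j, 1 ≤ j ∧ ¬ ((p : ℤ) ∣ F.coeff j))
    (fun a b h => ⟨fun p hp hpa => h p hp (hpa.trans (dvd_mul_right _ _)),
      fun p hp hpb => h p hp (hpb.trans (dvd_mul_left _ _))⟩)
    (fun p e hp he hG => by
      rw [← Finset.sum_filter]
      refine (pb2_wloc k hk F hF t p e hp he (hG p hp (dvd_pow_self _ he.ne'))).trans ?_
      rw [Nat.primeFactors_prime_pow he.ne' hp, Nat.divisors_prime_pow hp]
      simp)
    q hq hc
  rw [← Finset.sum_filter] at key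
  exact key

theorem pb2_vcount (k : ℕ) (hk : 1 ≤ k) (F : ℤ[X]) (hF : F.natDegree ≤ k) (p e v : ℕ) (hp : p.Prime)
    (hve : v ≤ e) (hc : ∃ j, 1 ≤ j ∧ ¬ ((p : ℤ) ∣ F.coeff j)) :
    (((range (p ^ e)).filter (fun x : ℕ => (p : ℤ) ^ v ∣ (derivative F).eval (x : ℤ))).card : ℝ) ≤
      2 * (k : ℝ) ^ 2 * (p : ℝ) ^ e * (p : ℝ) ^ (-(v : ℝ) / k) := by
  have hpz : Prime (p : ℤ) := Nat.prime_iff_prime_int.mp hp
  have hp0 : (0 : ℝ) < p := by exact_mod_cast hp.pos
  have hp1 : (1 : ℝ) ≤ p := by exact_mod_cast hp.one_lt.le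
  have hk0 : (0 : ℝ) < k := by exact_mod_cast hk
  have hk1 : (1 : ℝ) ≤ k := by exact_mod_cast hk
  obtain ⟨j, hj1, hj⟩ := hc
  have hj0 : F.coeff j ≠ 0 := fun h => hj (by rw [h]; exact dvd_zero _)
  have hjk : j ≤ k := (le_natDegree_of_ne_zero hj0).trans hF
  have hco : (derivative F).coeff (j - 1) = F.coeff j * j := by
    rw [coeff_derivative, Nat.sub_add_cancel hj1]
    congr 1
    rw [Nat.cast_sub hj1]; ring
  have hd0 : derivative F ≠ 0 := by
    intro h
    rw [h, coeff_zero] at hco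
    have : (F.coeff j) * (j : ℤ) ≠ 0 := mul_ne_zero hj0 (by exact_mod_cast (by omega : j ≠ 0))
    exact this hco.symm
  set c := (derivative F).content with hcdef
  have hc0 : c ≠ 0 := by
    rw [hcdef, Ne, content_eq_zero_iff]; exact hd0
  have hfin : FiniteMultiplicity (p : ℤ) c := by
    rw [Int.finiteMultiplicity_iff]
    exact ⟨by simpa using hp.ne_one, hc0⟩
  obtain ⟨c', hc1, hc2⟩ := hfin.exists_eq_pow_mul_and_not_dvd
  set v0 := multiplicity (p : ℤ) c with hv0
  have hv0k : (p : ℝ) ^ v0 ≤ k := by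
    have h1 : ((p : ℤ) ^ v0) ∣ F.coeff j * j := by
      rw [← hco]
      refine dvd_trans ?_ (content_dvd_coeff (j - 1))
      rw [← hcdef, hc1]
      exact dvd_mul_right _ _
    have h2 : ((p : ℤ) ^ v0) ∣ (j : ℤ) := hpz.pow_dvd_of_dvd_mul_left _ hj h1
    have h3 : p ^ v0 ∣ j := by exact_mod_cast h2
    have h4 : p ^ v0 ≤ k := (Nat.le_of_dvd (by omega) h3).trans hjk
    exact_mod_cast h4
  rcases Nat.lt_or_ge v0 v |>.symm with hv | hv
  · have h1 : (((range (p ^ e)).filter (fun x : ℕ => (p : ℤ) ^ v ∣ (derivative F).eval (x : ℤ))).card : ℝ) ≤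
        (p : ℝ) ^ e := by
      have := (Finset.card_filter_le (range (p ^ e))
        (fun x : ℕ => (p : ℤ) ^ v ∣ (derivative F).eval (x : ℤ)))
      rw [Finset.card_range] at this
      exact_mod_cast this
    have h2 : (p : ℝ) ^ ((v : ℝ) / k) ≤ k := by
      calc (p : ℝ) ^ ((v : ℝ) / k) ≤ (p : ℝ) ^ (v : ℝ) := by
            apply Real.rpow_le_rpow_of_exponent_le hp1
            exact div_le_self (Nat.cast_nonneg _) hk1
        _ = (p : ℝ) ^ v := Real.rpow_natCast _ _
        _ ≤ (p : ℝ) ^ v0 := pow_le_pow_right₀ hp1 hv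
        _ ≤ k := hv0k
    have h3 : (1 : ℝ) ≤ 2 * (k : ℝ) ^ 2 * (p : ℝ) ^ (-(v : ℝ) / k) := by
      rw [neg_div, Real.rpow_neg hp0.le, ← div_eq_mul_inv, le_div_iff₀ (by positivity), one_mul]
      nlinarith
    calc _ ≤ (p : ℝ) ^ e := h1
      _ ≤ (2 * (k : ℝ) ^ 2 * (p : ℝ) ^ (-(v : ℝ) / k)) * (p : ℝ) ^ e :=
          le_mul_of_one_le_left (by positivity) h3
      _ = _ := by ring
  · set u := v - v0 with hu
    have hu1 : 1 ≤ u := by omega
    set G := (derivative F).primPart with hG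
    have hGF : derivative F = C c * G := (derivative F).eq_C_content_mul_primPart
    have hGd : G.natDegree ≤ k - 1 := by
      rw [hG, natDegree_primPart]
      exact (natDegree_derivative_le F).trans (by omega)
    have hGc : ∃ j, ¬ ((p : ℤ) ∣ G.coeff j) := by
      by_contra hcon
      push Not at hcon
      have h1 : C (p : ℤ) ∣ G := by rw [C_dvd_iff_dvd_coeff]; exact hcon
      exact hpz.not_unit ((isPrimitive_primPart (derivative F)) _ h1)
    set i := (u - 1) / (k - 1) with hi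
    have hi1 : (k - 1) * i ≤ u - 1 := Nat.mul_div_le _ _
    have hcc := content_count (k - 1) G hGd p hp hGc u i (by omega) (p ^ e)
    have hsub : (range (p ^ e)).filter (fun x : ℕ => (p : ℤ) ^ v ∣ (derivative F).eval (x : ℤ)) ⊆
        (range (p ^ e)).filter (fun x : ℕ => (p : ℤ) ^ u ∣ G.eval (x : ℤ)) := by
      intro x hx
      simp only [Finset.mem_filter] at hx ⊢
      refine ⟨hx.1, ?_⟩
      have h1 := hx.2
      rw [hGF, eval_mul, eval_C, hc1, mul_assoc] at h1
      have h2 : v = v0 + u := by omega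
      rw [h2, pow_add] at h1
      have h3 := (mul_dvd_mul_iff_left (pow_ne_zero v0 hpz.ne_zero)).mp h1
      exact hpz.pow_dvd_of_dvd_mul_left _ hc2 h3
    have h1 : (((range (p ^ e)).filter (fun x : ℕ => (p : ℤ) ^ v ∣ (derivative F).eval (x : ℤ))).card : ℝ) ≤
        (((k - 1) * (p ^ e / p ^ (i + 1) + 1) : ℕ) : ℝ) := by
      exact_mod_cast (Finset.card_le_card hsub).trans hcc
    refine h1.trans ?_
    rcases Nat.eq_or_lt_of_le hk with hk' | hk'
    · rw [← hk']
      simp only [Nat.sub_self, Nat.zero_mul, Nat.cast_zero]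
      positivity
    · have hD : 1 ≤ k - 1 := by omega
      have hi2 : i ≤ u - 1 := Nat.div_le_self _ _
      have hie : i + 1 ≤ e := by omega
      have hi3 : u ≤ (k - 1) * (i + 1) := by
        have := Nat.lt_mul_div_succ (u - 1) (show 0 < k - 1 by omega)
        rw [← hi] at this
        omega
      have hi4 : (u : ℝ) ≤ k * ((i : ℝ) + 1) := by
        have : u ≤ k * (i + 1) := hi3.trans (Nat.mul_le_mul_right _ (by omega))
        exact_mod_cast this
      have h2 : p ^ e / p ^ (i + 1) = p ^ (e - (i + 1)) := Nat.pow_div hie hp.pos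
      rw [h2]
      have h3 : ((p ^ (e - (i + 1)) : ℕ) : ℝ) = (p : ℝ) ^ e * (p : ℝ) ^ (-((i : ℝ) + 1)) := by
        push_cast
        rw [← Real.rpow_natCast, Nat.cast_sub hie, ← Real.rpow_natCast, ← Real.rpow_add hp0]
        push_cast; ring_nf
      have h4 : (1 : ℝ) ≤ ((p ^ (e - (i + 1)) : ℕ) : ℝ) := by
        exact_mod_cast Nat.one_le_pow _ _ hp.pos
      have h5 : (p : ℝ) ^ (-((i : ℝ) + 1)) ≤ k * (p : ℝ) ^ (-(v : ℝ) / k) := by
        have h6 : (p : ℝ) ^ (-((i : ℝ) + 1)) ≤ (p : ℝ) ^ ((v0 : ℝ) + -(v : ℝ) / k) := by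
          apply Real.rpow_le_rpow_of_exponent_le hp1
          have h7 : (v : ℝ) = v0 + u := by
            have : v = v0 + u := by omega
            exact_mod_cast this
          have h8 : (u : ℝ) / k ≤ (i : ℝ) + 1 := by
            rw [div_le_iff₀ hk0]; linarith
          have h9 : (v0 : ℝ) / k ≤ v0 := div_le_self (Nat.cast_nonneg _) hk1
          rw [h7, neg_div, add_div]
          linarith
        rw [Real.rpow_add hp0, Real.rpow_natCast] at h6
        exact h6.trans (mul_le_mul_of_nonneg_right hv0k (by positivity))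
      have h6 : ((k - 1 : ℕ) : ℝ) ≤ k := by exact_mod_cast Nat.sub_le k 1
      have h7 : (0 : ℝ) ≤ ((k - 1 : ℕ) : ℝ) := Nat.cast_nonneg _
      rw [Nat.cast_mul, Nat.cast_add, Nat.cast_one]
      calc ((k - 1 : ℕ) : ℝ) * (((p ^ (e - (i + 1)) : ℕ) : ℝ) + 1)
          ≤ k * (2 * ((p ^ (e - (i + 1)) : ℕ) : ℝ)) := by
            apply mul_le_mul h6 (by linarith) (by linarith) hk0.le
        _ = 2 * k * ((p : ℝ) ^ e * (p : ℝ) ^ (-((i : ℝ) + 1))) := by rw [h3]; ring
        _ ≤ 2 * k * ((p : ℝ) ^ e * (k * (p : ℝ) ^ (-(v : ℝ) / k))) := by gcongr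
        _ = _ := by ring

theorem pb2_geom (r : ℝ) (h0 : 0 ≤ r) (h1 : r < 1) (n : ℕ) : ∑ i ∈ range n, r ^ i ≤ 1 / (1 - r) := by
  rw [le_div_iff₀ (by linarith), mul_comm, mul_neg_geom_sum]
  have : 0 ≤ r ^ n := pow_nonneg h0 n
  linarith

theorem vsum_le (k : ℕ) (hk : 1 ≤ k) : ∃ C : ℝ, 1 ≤ C ∧ ∀ (F : ℤ[X]), F.natDegree ≤ k →
    ∀ q : ℕ, 1 ≤ q → (∀ p : ℕ, p.Prime → p ∣ q → ∃ j, 1 ≤ j ∧ ¬ ((p : ℤ) ∣ F.coeff j)) →
    ∑ x ∈ range q, ((Int.gcd ((derivative F).eval (x : ℤ)) q : ℕ) : ℝ) ^ ((1 : ℝ) / (2 * k)) ≤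
      C ^ q.primeFactors.card * q := by
  have hk0 : (0 : ℝ) < k := by exact_mod_cast hk
  have hk1 : (1 : ℝ) ≤ k := by exact_mod_cast hk
  set r0 : ℝ := (2 : ℝ) ^ (-(1 / (2 * (k : ℝ)))) with hr0
  have hr00 : 0 < r0 := by positivity
  have hr01 : r0 < 1 := Real.rpow_lt_one_of_one_lt_of_neg (by norm_num) (by
    rw [neg_lt_zero]; positivity)
  have hC1 : 1 ≤ 2 * (k : ℝ) ^ 2 * (1 / (1 - r0)) := by
    have h1 : 1 ≤ 1 / (1 - r0) := by
      rw [le_div_iff₀ (by linarith)]; linarith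
    nlinarith
  refine ⟨2 * (k : ℝ) ^ 2 * (1 / (1 - r0)), hC1, ?_⟩
  intro F hF q hq hc
  refine pb2_sum_le
    (fun q x => ((Int.gcd ((derivative F).eval x) q : ℕ) : ℝ) ^ ((1 : ℝ) / (2 * k)))
    (fun q x => by positivity)
    (fun q x y hxy => by
      have h2 : (q : ℤ) ∣ (derivative F).eval x - (derivative F).eval y :=
        hxy.trans (Polynomial.sub_dvd_eval_sub _ _ _)
      rw [pb2_gcd_congr h2])
    (fun a b hab x => by
      have h2 : Int.gcd ((derivative F).eval x) ((a * b : ℕ) : ℤ) =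
          Int.gcd ((derivative F).eval x) a * Int.gcd ((derivative F).eval x) b := by
        simp only [Int.gcd, Int.natAbs_natCast]
        exact Nat.Coprime.gcd_mul _ hab
      rw [h2, Nat.cast_mul, Real.mul_rpow (Nat.cast_nonneg _) (Nat.cast_nonneg _)])
    (fun q => (2 * (k : ℝ) ^ 2 * (1 / (1 - r0))) ^ q.primeFactors.card * q)
    (fun q => by
      have : 0 ≤ 2 * (k : ℝ) ^ 2 * (1 / (1 - r0)) := by linarith
      positivity)
    (by simp)
    (fun a b ha hb hab => by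
      rw [Nat.Coprime.primeFactors_mul hab, Finset.card_union_of_disjoint (Nat.Coprime.disjoint_primeFactors hab),
        pow_add]
      push_cast
      apply le_of_eq; ring)
    (fun q => ∀ p : ℕ, p.Prime → p ∣ q → ∃ j, 1 ≤ j ∧ ¬ ((p : ℤ) ∣ F.coeff j))
    (fun a b h => ⟨fun p hp hpa => h p hp (hpa.trans (dvd_mul_right _ _)),
      fun p hp hpb => h p hp (hpb.trans (dvd_mul_left _ _))⟩)
    (fun p e hp he hG => ?_)
    q hq hc
  have hp0 : (0 : ℝ) < p := by exact_mod_cast hp.pos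
  have hp2 : (2 : ℝ) ≤ p := by exact_mod_cast hp.two_le
  have hcp := hG p hp (dvd_pow_self _ he.ne')
  have h1 := pb2_split (fun _ : ℕ => True) (fun x : ℕ => (derivative F).eval (x : ℤ)) p e hp
    (fun n => (n : ℝ) ^ ((1 : ℝ) / (2 * k))) (fun n => by positivity)
  rw [Finset.filter_true_of_mem (fun _ _ => trivial)] at h1
  refine h1.trans ?_
  rw [Nat.primeFactors_prime_pow he.ne' hp, Finset.card_singleton, pow_one]
  set r : ℝ := (p : ℝ) ^ (-(1 / (2 * (k : ℝ)))) with hr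
  have hrr0 : r ≤ r0 := Real.rpow_le_rpow_of_nonpos (by norm_num) hp2 (by
    rw [neg_nonpos]; positivity)
  have hr0' : 0 ≤ r := by positivity
  have hterm : ∀ v ∈ range (e + 1), (((range (p ^ e)).filter
        (fun x : ℕ => True ∧ Int.gcd ((derivative F).eval (x : ℤ)) ((p ^ e : ℕ) : ℤ) = p ^ v)).card : ℝ) *
          (((p ^ v : ℕ) : ℝ)) ^ ((1 : ℝ) / (2 * k)) ≤ 2 * (k : ℝ) ^ 2 * (p : ℝ) ^ e * r ^ v := by
    intro v hv
    rw [Finset.mem_range] at hv
    have h2 := pb2_vcount k hk F hF p e v hp (by omega) hcp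
    have h3 : (((range (p ^ e)).filter
        (fun x : ℕ => True ∧ Int.gcd ((derivative F).eval (x : ℤ)) ((p ^ e : ℕ) : ℤ) = p ^ v)).card : ℝ) ≤
        (((range (p ^ e)).filter (fun x : ℕ => (p : ℤ) ^ v ∣ (derivative F).eval (x : ℤ))).card : ℝ) := by
      norm_cast
      apply Finset.card_le_card
      intro x hx
      simp only [Finset.mem_filter, true_and] at hx ⊢
      refine ⟨hx.1, ?_⟩
      have h4 : ((Int.gcd ((derivative F).eval (x : ℤ)) ((p ^ e : ℕ) : ℤ) : ℕ) : ℤ) ∣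
        (derivative F).eval (x : ℤ) := Int.gcd_dvd_left ..
      rw [hx.2] at h4
      exact_mod_cast h4
    have h5 : (((p ^ v : ℕ) : ℝ)) ^ ((1 : ℝ) / (2 * k)) = (p : ℝ) ^ ((v : ℝ) / (2 * k)) := by
      push_cast
      rw [← Real.rpow_natCast, ← Real.rpow_mul hp0.le]
      congr 1; ring
    have h6 : r ^ v = (p : ℝ) ^ (-(v : ℝ) / k) * (p : ℝ) ^ ((v : ℝ) / (2 * k)) := by
      rw [hr, ← Real.rpow_natCast, ← Real.rpow_mul hp0.le, ← Real.rpow_add hp0]
      congr 1
      field_simp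
      ring
    rw [h5, h6]
    calc _ ≤ (2 * (k : ℝ) ^ 2 * (p : ℝ) ^ e * (p : ℝ) ^ (-(v : ℝ) / k)) * (p : ℝ) ^ ((v : ℝ) / (2 * k)) := by
          apply mul_le_mul_of_nonneg_right (h3.trans h2) (by positivity)
      _ = _ := by ring
  refine (Finset.sum_le_sum hterm).trans ?_
  rw [← Finset.mul_sum]
  have h7 : ∑ v ∈ range (e + 1), r ^ v ≤ 1 / (1 - r0) := by
    refine (pb2_geom r hr0' (by linarith) (e + 1)).trans ?_
    apply one_div_le_one_div_of_le (by linarith) (by linarith)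
  calc 2 * (k : ℝ) ^ 2 * (p : ℝ) ^ e * ∑ v ∈ range (e + 1), r ^ v
      ≤ 2 * (k : ℝ) ^ 2 * (p : ℝ) ^ e * (1 / (1 - r0)) := by gcongr
    _ = _ := by push_cast; ring

end EK75

end S_H75_EK_Pb2

section S_H75_EK_Pb4

/-! Module PB4: sublevel sets and sign changes of real polynomials, counting in progressions. -/

open Polynomial Finset
open scoped Real BigOperators

namespace EK75

/-- Division by `X - x`. -/
theorem pb4_div (P : ℝ[X]) (x : ℝ) (D : ℕ) (hP : P.natDegree ≤ D + 1) :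
    ∃ P1 : ℝ[X], P1.natDegree ≤ D ∧ P = C (P.eval x) + (X - C x) * P1 := by
  refine ⟨P /ₘ (X - C x), ?_, ?_⟩
  · rw [natDegree_divByMonic _ (monic_X_sub_C x), natDegree_X_sub_C]
    omega
  · conv_lhs => rw [← modByMonic_add_div P (X - C x), modByMonic_X_sub_C_eq_C_eval]

/-- Interpolation bound for the coefficients. -/
theorem pb4_coeff (N : ℕ) (hN : 1 ≤ N) (s : ℕ) (hs : 1 ≤ s) (D : ℕ) :
    ∀ (P : ℝ[X]), P.natDegree ≤ D → ∀ (e : ℝ), 0 ≤ e → ∀ (A : Finset ℕ), A ⊆ Icc 1 N →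
      D * s + 1 ≤ A.card → (∀ n ∈ A, |P.eval (n : ℝ)| ≤ e) →
      ∀ j, |P.coeff j| * (N : ℝ) ^ j ≤ e * (5 * N / s) ^ D := by
  induction D with
  | zero =>
    intro P hP e he A hA hc hPA j
    have hP0 : P.natDegree = 0 := by omega
    obtain ⟨c, rfl⟩ := natDegree_eq_zero.1 hP0
    have hne : A.Nonempty := by
      rw [← Finset.card_pos]
      omega
    obtain ⟨n, hn⟩ := hne
    have h1 := hPA n hn
    rw [eval_C] at h1
    rcases Nat.eq_zero_or_pos j with rfl | hj
    · simpa using h1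
    · rw [coeff_C, if_neg (by omega)]
      simpa using he
  | succ D ih =>
    intro P hP e he A hA hc hPA j
    have hNR : (1 : ℝ) ≤ N := by exact_mod_cast hN
    have hsR : (1 : ℝ) ≤ s := by exact_mod_cast hs
    have hne : A.Nonempty := by
      rw [← Finset.card_pos]
      omega
    set x := A.min' hne with hx
    have hxA : x ∈ A := Finset.min'_mem A hne
    have hxN := Finset.mem_Icc.1 (hA hxA)
    obtain ⟨P1, hd, hPeq⟩ := pb4_div P (x : ℝ) D hP
    set A' := A.filter (fun n => x + s ≤ n) with hA'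
    have hAle : ∀ n ∈ A, x ≤ n := fun n hn => Finset.min'_le A n hn
    have hcard : D * s + 1 ≤ A'.card := by
      have h1 : (A.filter (fun n => ¬ (x + s ≤ n))).card ≤ s := by
        have h2 : A.filter (fun n => ¬ (x + s ≤ n)) ⊆ Finset.Ico x (x + s) := by
          intro n hn
          rw [Finset.mem_filter] at hn
          rw [Finset.mem_Ico]
          exact ⟨hAle n hn.1, by omega⟩
        have h3 := Finset.card_le_card h2
        rw [Nat.card_Ico] at h3
        omega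
      have h4 := Finset.card_filter_add_card_filter_not (s := A) (fun n => x + s ≤ n)
      have h5 : (D + 1) * s = D * s + s := by ring
      rw [h5] at hc
      have h6 : A'.card = (A.filter (fun n => x + s ≤ n)).card := by rw [hA']
      omega
    have hev : ∀ y : ℝ, P.eval y = P.eval (x : ℝ) + (y - x) * P1.eval y := by
      intro y
      conv_lhs => rw [hPeq]
      simp
    have hsN : (s : ℝ) ≤ N := by
      have h1 : A'.Nonempty := by
        rw [← Finset.card_pos]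
        omega
      obtain ⟨n, hn⟩ := h1
      rw [hA', Finset.mem_filter] at hn
      have h2 := Finset.mem_Icc.1 (hA hn.1)
      have : s ≤ N := by omega
      exact_mod_cast this
    have hP1 : ∀ n ∈ A', |P1.eval (n : ℝ)| ≤ 2 * e / s := by
      intro n hn
      rw [hA', Finset.mem_filter] at hn
      have h1 := hPA n hn.1
      have h2 := hPA x hxA
      have h3 := hev n
      have h4 : (s : ℝ) ≤ (n : ℝ) - x := by
        have : (x : ℝ) + s ≤ n := by exact_mod_cast hn.2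
        linarith
      rw [le_div_iff₀ (by linarith)]
      have h5 : |((n : ℝ) - x) * P1.eval (n : ℝ)| ≤ 2 * e := by
        have : ((n : ℝ) - x) * P1.eval (n : ℝ) = P.eval (n : ℝ) - P.eval (x : ℝ) := by
          rw [h3]
          ring
        rw [this]
        calc |P.eval (n : ℝ) - P.eval (x : ℝ)| ≤ |P.eval (n : ℝ)| + |P.eval (x : ℝ)| := abs_sub _ _
          _ ≤ 2 * e := by linarith
      rw [abs_mul, abs_of_nonneg (by linarith : (0 : ℝ) ≤ (n : ℝ) - x)] at h5
      have h6 : |P1.eval (n : ℝ)| * s ≤ |P1.eval (n : ℝ)| * ((n : ℝ) - x) :=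
        mul_le_mul_of_nonneg_left h4 (abs_nonneg _)
      linarith
    have hIH := ih P1 hd (2 * e / s) (by positivity) A'
      ((Finset.filter_subset _ _).trans hA) hcard hP1
    set B : ℝ := 2 * e / s * (5 * N / s) ^ D with hB
    have hr : (1 : ℝ) ≤ N / s := by
      rw [le_div_iff₀ (by linarith)]
      linarith
    have hr5 : (1 : ℝ) ≤ (5 * N / s) ^ D := by
      apply one_le_pow₀
      have : 5 * (N : ℝ) / s = 5 * (N / s) := by ring
      rw [this]
      linarith
    have hfin : 2 * N * B + e ≤ e * (5 * N / s) ^ (D + 1) := by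
      have h1 : 2 * N * B = 4 * (N / s) * (e * (5 * N / s) ^ D) := by
        rw [hB]
        ring
      have h2 : e * (5 * N / s) ^ (D + 1) = 5 * (N / s) * (e * (5 * N / s) ^ D) := by
        rw [pow_succ]
        ring
      rw [h1, h2]
      have h3 : e ≤ (N / s) * (e * (5 * N / s) ^ D) := by
        have h4 : e ≤ e * (5 * N / s) ^ D := le_mul_of_one_le_right he hr5
        have h5 : e * (5 * N / s) ^ D ≤ (N / s) * (e * (5 * N / s) ^ D) :=
          le_mul_of_one_le_left (by linarith) hr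
        linarith
      linarith
    refine le_trans ?_ hfin
    have hxR : (x : ℝ) ≤ N := by exact_mod_cast hxN.2
    have hB0 : 0 ≤ B := by positivity
    rcases Nat.eq_zero_or_pos j with rfl | hj
    · have h1 : P.coeff 0 = P.eval (x : ℝ) - x * P1.coeff 0 := by
        conv_lhs => rw [hPeq]
        simp [mul_coeff_zero]
        ring
      rw [h1, pow_zero, mul_one]
      have h2 := hIH 0
      rw [pow_zero, mul_one] at h2
      have h3 := hPA x hxA
      calc |P.eval (x : ℝ) - x * P1.coeff 0| ≤ |P.eval (x : ℝ)| + |x * P1.coeff 0| := abs_sub _ _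
        _ ≤ e + N * B := by
            rw [abs_mul, abs_of_nonneg (by positivity : (0 : ℝ) ≤ (x : ℝ))]
            gcongr
        _ ≤ 2 * N * B + e := by nlinarith
    · obtain ⟨i, rfl⟩ : ∃ i, j = i + 1 := ⟨j - 1, by omega⟩
      have h1 : P.coeff (i + 1) = P1.coeff i - x * P1.coeff (i + 1) := by
        conv_lhs => rw [hPeq]
        rw [coeff_add, coeff_C, if_neg (by omega), zero_add, sub_mul, coeff_sub, coeff_X_mul,
          coeff_C_mul]
      rw [h1]
      have h2 := hIH i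
      have h3 := hIH (i + 1)
      calc |P1.coeff i - x * P1.coeff (i + 1)| * (N : ℝ) ^ (i + 1)
          ≤ (|P1.coeff i| + |x * P1.coeff (i + 1)|) * (N : ℝ) ^ (i + 1) := by
            gcongr
            exact abs_sub _ _
        _ = N * (|P1.coeff i| * (N : ℝ) ^ i) + x * (|P1.coeff (i + 1)| * (N : ℝ) ^ (i + 1)) := by
            rw [abs_mul, abs_of_nonneg (by positivity : (0 : ℝ) ≤ (x : ℝ))]
            ring
        _ ≤ N * B + N * B := by
            gcongr
        _ ≤ 2 * N * B + e := by linarith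

open Classical in
theorem sublevel (D : ℕ) : ∃ C : ℝ, 1 ≤ C ∧ ∀ P : ℝ[X], P.natDegree ≤ D → ∀ N : ℕ, 1 ≤ N →
    ∀ M lam : ℝ, 0 < M → 0 < lam → lam ≤ 1 → (∃ j, M ≤ |P.coeff j| * (N : ℝ) ^ j) →
    (((Icc 1 N).filter (fun n : ℕ => |P.eval (n : ℝ)| < lam * M)).card : ℝ) ≤
      C * (N * lam ^ ((1 : ℝ) / (D + 1)) + 1) := by
  refine ⟨5 * D + 1, by linarith [(Nat.cast_nonneg D : (0 : ℝ) ≤ D)], ?_⟩
  intro P hP N hN M lam hM hl hl1 hj
  obtain ⟨j, hj⟩ := hj
  set A := (Icc 1 N).filter (fun n : ℕ => |P.eval (n : ℝ)| < lam * M) with hA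
  have hsub : A ⊆ Icc 1 N := Finset.filter_subset _ _
  have hAe : ∀ n ∈ A, |P.eval (n : ℝ)| ≤ lam * M := by
    intro n hn
    rw [hA, Finset.mem_filter] at hn
    exact hn.2.le
  have hlp : 0 ≤ (N : ℝ) * lam ^ ((1 : ℝ) / (D + 1)) := by positivity
  rcases Nat.eq_zero_or_pos D with rfl | hD
  · -- constant polynomial
    have h0 : A = ∅ := by
      by_contra hne
      have hne' : A.Nonempty := Finset.nonempty_iff_ne_empty.2 hne
      obtain ⟨n, hn⟩ := hne'
      have hP0 : P.natDegree = 0 := by omega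
      obtain ⟨c, rfl⟩ := natDegree_eq_zero.1 hP0
      rw [hA, Finset.mem_filter, eval_C] at hn
      have h1 := hn.2
      rcases Nat.eq_zero_or_pos j with rfl | hj0
      · rw [coeff_C, if_pos rfl, pow_zero, mul_one] at hj
        nlinarith
      · rw [coeff_C, if_neg (by omega), abs_zero, zero_mul] at hj
        linarith
    rw [h0]
    simp only [Finset.card_empty, Nat.cast_zero]
    positivity
  · have hDR : (1 : ℝ) ≤ D := by exact_mod_cast hD
    set m := A.card with hm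
    set s := (m - 1) / D with hs
    have hms : m ≤ D * s + D := by
      have h1 := Nat.lt_div_mul_add (a := m - 1) hD
      have h2 : D * s = (m - 1) / D * D := by rw [hs]; ring
      omega
    have hmsR : (m : ℝ) ≤ D * s + D := by exact_mod_cast hms
    rcases Nat.eq_zero_or_pos s with h0 | hs0
    · rw [h0] at hmsR
      have : (m : ℝ) ≤ D := by simpa using hmsR
      nlinarith
    · have hc : D * s + 1 ≤ A.card := by
        have h1 : D * s ≤ m - 1 := by
          rw [hs, mul_comm]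
          exact Nat.div_mul_le_self _ _
        have h2 : 1 ≤ D * s := Nat.mul_pos hD hs0
        omega
      have h1 := pb4_coeff N hN s hs0 D P hP (lam * M) (by positivity) A hsub hc hAe j
      have h2 : M ≤ lam * M * (5 * N / s) ^ D := hj.trans h1
      have h3 : 1 ≤ lam * (5 * N / s) ^ D := by
        have : M * 1 ≤ M * (lam * (5 * N / s) ^ D) := by
          calc M * 1 = M := mul_one M
            _ ≤ lam * M * (5 * N / s) ^ D := h2
            _ = _ := by ring
        exact le_of_mul_le_mul_left this hM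
      have hsR : (0 : ℝ) < s := by exact_mod_cast hs0
      have h4 : (s : ℝ) ^ D ≤ lam * (5 * N) ^ D := by
        rw [div_pow] at h3
        have : lam * ((5 * N) ^ D / (s : ℝ) ^ D) = lam * (5 * N) ^ D / (s : ℝ) ^ D := by ring
        rw [this, le_div_iff₀ (by positivity)] at h3
        linarith
      have h5 : (s : ℝ) ≤ 5 * N * lam ^ ((1 : ℝ) / D) := by
        have h6 : (5 * (N : ℝ) * lam ^ ((1 : ℝ) / D)) ^ D = lam * (5 * N) ^ D := by
          rw [mul_pow, ← Real.rpow_natCast (lam ^ ((1 : ℝ) / D)) D, ← Real.rpow_mul hl.le]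
          rw [one_div_mul_cancel (by linarith), Real.rpow_one]
          ring
        rw [← h6] at h4
        exact le_of_pow_le_pow_left₀ (by omega) (by positivity) h4
      have h6 : lam ^ ((1 : ℝ) / D) ≤ lam ^ ((1 : ℝ) / (D + 1)) := by
        apply Real.rpow_le_rpow_of_exponent_ge hl hl1
        apply one_div_le_one_div_of_le (by linarith) (by linarith)
      have h7 : (s : ℝ) ≤ 5 * (N * lam ^ ((1 : ℝ) / (D + 1))) := by
        calc (s : ℝ) ≤ 5 * N * lam ^ ((1 : ℝ) / D) := h5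
          _ ≤ 5 * N * lam ^ ((1 : ℝ) / (D + 1)) := by gcongr
          _ = _ := by ring
      calc (m : ℝ) ≤ D * s + D := hmsR
        _ ≤ D * (5 * (N * lam ^ ((1 : ℝ) / (D + 1)))) + D := by gcongr
        _ ≤ (5 * D + 1) * (N * lam ^ ((1 : ℝ) / (D + 1)) + 1) := by nlinarith

theorem poly_cuts (k : ℕ) (P : ℝ[X]) (hP : P.natDegree ≤ k) (v : ℝ) : ∃ R : Finset ℝ,
    R.card ≤ k ∧ ∀ x y : ℝ, x ≤ y → (∀ r ∈ R, ¬ (x ≤ r ∧ r ≤ y)) →
      (v ≤ P.eval x ↔ v ≤ P.eval y) := by
  classical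
  by_cases h0 : P = C v
  · refine ⟨∅, by simp, ?_⟩
    intro x y _ _
    rw [h0]
    simp
  · refine ⟨(P - C v).roots.toFinset, ?_, ?_⟩
    · refine (Multiset.toFinset_card_le _).trans ((card_roots' _).trans ?_)
      rw [natDegree_sub_C]
      exact hP
    · intro x y hxy hR
      have hne : P - C v ≠ 0 := sub_ne_zero.2 h0
      have hcont : ContinuousOn (fun z => P.eval z) (Set.Icc x y) := P.continuous.continuousOn
      have key : ∀ z ∈ Set.Icc x y, P.eval z ≠ v := by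
        intro z hz h
        apply hR z _ ⟨hz.1, hz.2⟩
        rw [Multiset.mem_toFinset, mem_roots hne]
        simp [h]
      constructor
      · intro h
        by_contra h2
        push Not at h2
        obtain ⟨z, hz, hz2⟩ := intermediate_value_Icc' hxy hcont ⟨h2.le, h⟩
        exact key z hz hz2
      · intro h
        by_contra h2
        push Not at h2
        obtain ⟨z, hz, hz2⟩ := intermediate_value_Icc hxy hcont ⟨h2.le, h⟩
        exact key z hz hz2

theorem pb4_count (D a : ℕ) (hD : 1 ≤ D) (ha : a < D) (n : ℕ) :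
    ∑ j ∈ Icc 1 n, (if j % D = a then 1 else 0) + (D - a) / D = (n + (D - a)) / D := by
  induction n with
  | zero => simp
  | succ n ih =>
    rw [Finset.sum_Icc_succ_top (by omega)]
    have h1 : n + 1 + (D - a) = (n + (D - a)) + 1 := by ring
    rw [h1, Nat.succ_div, ← ih]
    have h2 : (D ∣ n + (D - a) + 1) ↔ (n + 1) % D = a := by
      have h3 : n + (D - a) + 1 + a = (n + 1) + D := by omega
      constructor
      · rintro ⟨c, hc⟩
        have h4 : n + 1 + D = D * c + a := by omega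
        have h5 : (n + 1 + D) % D = a := by
          rw [h4, Nat.mul_add_mod, Nat.mod_eq_of_lt ha]
        rwa [Nat.add_mod_right] at h5
      · intro h
        have h4 := Nat.div_add_mod (n + 1) D
        rw [h] at h4
        refine ⟨(n + 1) / D + 1, ?_⟩
        have : D * ((n + 1) / D + 1) = D * ((n + 1) / D) + D := by ring
        omega
    by_cases h3 : (n + 1) % D = a
    · rw [if_pos h3, if_pos (h2.2 h3)]
      ring
    · rw [if_neg h3, if_neg (fun h => h3 (h2.1 h))]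
      ring

theorem pb4_g (D a : ℕ) (hD : 1 ≤ D) (ha : a < D) (n : ℕ) :
    |(∑ j ∈ Icc 1 n, (if j % D = a then (1 : ℝ) else 0)) - n / D| ≤ 1 := by
  have h := pb4_count D a hD ha n
  set c := ∑ j ∈ Icc 1 n, (if j % D = a then 1 else 0) with hc
  have hcR : (∑ j ∈ Icc 1 n, (if j % D = a then (1 : ℝ) else 0)) = (c : ℝ) := by
    rw [hc]
    push_cast
    rfl
  rw [hcR]
  have hDR : (0 : ℝ) < D := by exact_mod_cast hD
  have h1 : (D - a) / D * D ≤ D - a := Nat.div_mul_le_self _ _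
  have h2 := Nat.lt_div_mul_add (a := D - a) hD
  have h3 : (n + (D - a)) / D * D ≤ n + (D - a) := Nat.div_mul_le_self _ _
  have h4 := Nat.lt_div_mul_add (a := n + (D - a)) hD
  rw [← h] at h3 h4
  have h5 : (c + (D - a) / D) * D = c * D + (D - a) / D * D := by ring
  rw [h5] at h3 h4
  have e1 : c * D ≤ n + D := by omega
  have e2 : n ≤ c * D + D := by omega
  have e1R : (c : ℝ) * D ≤ n + D := by exact_mod_cast e1
  have e2R : (n : ℝ) ≤ c * D + D := by exact_mod_cast e2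
  rw [abs_le]
  have h6 : (n : ℝ) / D * D = n := by field_simp
  constructor
  · by_contra hcon
    push Not at hcon
    nlinarith
  · by_contra hcon
    push Not at hcon
    nlinarith

theorem pb4_G (D : ℕ) (hD : 1 ≤ D) (A : Finset ℕ) (hA : A ⊆ range D) (n : ℕ) :
    |(∑ j ∈ Icc 1 n, (if j % D ∈ A then (1 : ℝ) else 0)) - n * A.card / D| ≤ A.card := by
  have h1 : (∑ j ∈ Icc 1 n, (if j % D ∈ A then (1 : ℝ) else 0)) - n * A.card / D =
      ∑ a ∈ A, ((∑ j ∈ Icc 1 n, (if j % D = a then (1 : ℝ) else 0)) - n / D) := by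
    rw [Finset.sum_sub_distrib, Finset.sum_comm]
    congr 1
    · refine Finset.sum_congr rfl (fun j _ => ?_)
      rw [Finset.sum_ite_eq]
    · rw [Finset.sum_const, nsmul_eq_mul]
      ring
  rw [h1]
  calc |∑ a ∈ A, ((∑ j ∈ Icc 1 n, (if j % D = a then (1 : ℝ) else 0)) - n / D)|
      ≤ ∑ a ∈ A, |(∑ j ∈ Icc 1 n, (if j % D = a then (1 : ℝ) else 0)) - n / D| :=
        Finset.abs_sum_le_sum_abs _ _
    _ ≤ ∑ a ∈ A, (1 : ℝ) := by
        refine Finset.sum_le_sum (fun a ha => ?_)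
        exact pb4_g D a hD (Finset.mem_range.1 (hA ha)) n
    _ = A.card := by simp

theorem pb4_abel (q G : ℕ → ℝ) (hG0 : G 0 = 0) (N : ℕ) (hN : 1 ≤ N) :
    ∑ n ∈ Icc 1 N, q n * (G n - G (n - 1)) =
      q N * G N + ∑ n ∈ Ico 1 N, (q n - q (n + 1)) * G n := by
  induction N, hN using Nat.le_induction with
  | base => simp [hG0]
  | succ n hn ih =>
    rw [Finset.sum_Icc_succ_top (by omega), ih, Finset.sum_Ico_succ_top hn]
    simp only [Nat.add_sub_cancel]
    ring

open Classical in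
theorem ap_cuts (N D m : ℕ) (hD : 1 ≤ D) (Q : ℕ → Prop) (R : Finset ℝ) (hR : R.card ≤ m)
    (hQ : ∀ x y : ℕ, 1 ≤ x → x ≤ y → y ≤ N → (∀ r ∈ R, ¬ ((x : ℝ) ≤ r ∧ r ≤ (y : ℝ))) →
      (Q x ↔ Q y)) (A : Finset ℕ) (hA : A ⊆ range D) :
    |(((Icc 1 N).filter (fun n => Q n ∧ n % D ∈ A)).card : ℝ) -
      (((Icc 1 N).filter (fun n => Q n)).card : ℝ) * A.card / D| ≤ (2 * m + 1) * A.card := by
  rcases Nat.eq_zero_or_pos N with rfl | hN
  · simp
    positivity
  set q : ℕ → ℝ := fun n => if Q n then 1 else 0 with hq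
  set G : ℕ → ℝ := fun n =>
    (∑ j ∈ Icc 1 n, (if j % D ∈ A then (1 : ℝ) else 0)) - n * A.card / D with hG
  have hG0 : G 0 = 0 := by simp [hG]
  have hGb : ∀ n, |G n| ≤ A.card := fun n => pb4_G D hD A hA n
  have hGd : ∀ n, 1 ≤ n → G n - G (n - 1) = (if n % D ∈ A then (1 : ℝ) else 0) - A.card / D := by
    intro n hn
    obtain ⟨i, rfl⟩ : ∃ i, n = i + 1 := ⟨n - 1, by omega⟩
    simp only [hG, Nat.add_sub_cancel]
    rw [Finset.sum_Icc_succ_top (by omega)]
    push_cast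
    ring
  have hsum : (((Icc 1 N).filter (fun n => Q n ∧ n % D ∈ A)).card : ℝ) -
      (((Icc 1 N).filter (fun n => Q n)).card : ℝ) * A.card / D =
      ∑ n ∈ Icc 1 N, q n * (G n - G (n - 1)) := by
    rw [Finset.card_filter, Finset.card_filter]
    push_cast
    rw [mul_div_assoc, Finset.sum_mul, ← Finset.sum_sub_distrib]
    refine Finset.sum_congr rfl (fun n hn => ?_)
    rw [hGd n (Finset.mem_Icc.1 hn).1]
    simp only [hq]
    by_cases h1 : Q n <;> by_cases h2 : n % D ∈ A <;> simp [h1, h2]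
  rw [hsum, pb4_abel q G hG0 N hN]
  have hq1 : ∀ n, |q n| ≤ 1 := by
    intro n
    simp only [hq]
    split_ifs <;> simp
  have hbound : |∑ n ∈ Ico 1 N, (q n - q (n + 1)) * G n| ≤ 2 * m * A.card := by
    set T := (Ico 1 N).filter (fun n => ¬ (Q n ↔ Q (n + 1))) with hT
    have h1 : ∑ n ∈ Ico 1 N, (q n - q (n + 1)) * G n = ∑ n ∈ T, (q n - q (n + 1)) * G n := by
      rw [hT, Finset.sum_filter]
      refine Finset.sum_congr rfl (fun n _ => ?_)
      by_cases h2 : Q n ↔ Q (n + 1)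
      · rw [if_neg (not_not.2 h2)]
        simp [hq, h2]
      · rw [if_pos h2]
    have hTc : T.card ≤ 2 * m := by
      have h2 : T ⊆ R.biUnion (fun r => ({⌊r⌋₊, ⌊r⌋₊ - 1} : Finset ℕ)) := by
        intro n hn
        rw [hT, Finset.mem_filter, Finset.mem_Ico] at hn
        have h3 : ∃ r ∈ R, (n : ℝ) ≤ r ∧ r ≤ ((n + 1 : ℕ) : ℝ) := by
          by_contra hcon
          push Not at hcon
          apply hn.2
          apply hQ n (n + 1) hn.1.1 (by omega) (by omega)
          intro r hr h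
          exact absurd h.2 (not_le.2 (hcon r hr h.1))
        obtain ⟨r, hr, h4, h5⟩ := h3
        rw [Finset.mem_biUnion]
        refine ⟨r, hr, ?_⟩
        have h6 : n ≤ ⌊r⌋₊ := Nat.le_floor h4
        have h7 : ⌊r⌋₊ ≤ n + 1 := by
          have h8 := Nat.floor_mono h5
          rwa [Nat.floor_natCast] at h8
        simp only [Finset.mem_insert, Finset.mem_singleton]
        omega
      calc T.card ≤ (R.biUnion (fun r => ({⌊r⌋₊, ⌊r⌋₊ - 1} : Finset ℕ))).card :=
            Finset.card_le_card h2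
        _ ≤ ∑ r ∈ R, ({⌊r⌋₊, ⌊r⌋₊ - 1} : Finset ℕ).card := Finset.card_biUnion_le
        _ ≤ ∑ r ∈ R, 2 := Finset.sum_le_sum (fun r _ => Finset.card_le_two)
        _ = 2 * R.card := by rw [Finset.sum_const, smul_eq_mul, mul_comm]
        _ ≤ 2 * m := by omega
    rw [h1]
    calc |∑ n ∈ T, (q n - q (n + 1)) * G n| ≤ ∑ n ∈ T, |(q n - q (n + 1)) * G n| :=
          Finset.abs_sum_le_sum_abs _ _
      _ ≤ ∑ n ∈ T, (A.card : ℝ) := by
          refine Finset.sum_le_sum (fun n _ => ?_)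
          rw [abs_mul]
          have h2 : |q n - q (n + 1)| ≤ 1 := by
            simp only [hq]
            split_ifs <;> simp
          calc |q n - q (n + 1)| * |G n| ≤ 1 * A.card :=
                mul_le_mul h2 (hGb n) (abs_nonneg _) (by norm_num)
            _ = A.card := one_mul _
      _ = T.card * A.card := by rw [Finset.sum_const, nsmul_eq_mul]
      _ ≤ 2 * m * A.card := by
          have : (T.card : ℝ) ≤ 2 * m := by exact_mod_cast hTc
          gcongr
  calc |q N * G N + ∑ n ∈ Ico 1 N, (q n - q (n + 1)) * G n|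
      ≤ |q N * G N| + |∑ n ∈ Ico 1 N, (q n - q (n + 1)) * G n| := abs_add_le _ _
    _ ≤ 1 * A.card + 2 * m * A.card := by
        gcongr
        rw [abs_mul]
        exact mul_le_mul (hq1 N) (hGb N) (abs_nonneg _) (by norm_num)
    _ = (2 * m + 1) * A.card := by ring

end EK75

end S_H75_EK_Pb4

section S_H75_EK_PbAlt

/-! Module PB (alternative): the law of `t(n)` gives little mass to sparse sets. -/

open Polynomial Finset
open scoped Real BigOperators

namespace EK75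

lemma pba_coeff (k : ℕ) (a : ℕ → ℤ) (j : ℕ) (hj : j ∈ Icc 1 k) : (FF k a).coeff j = a j := by
  unfold FF
  rw [finsetSum_coeff]
  simp only [coeff_C_mul, coeff_X_pow]
  rw [sum_eq_single j]
  · simp
  · intro i _ hi; simp [Ne.symm hi]
  · intro h; exact absurd hj h

lemma pba_natDegree (k : ℕ) (a : ℕ → ℤ) : (FF k a).natDegree ≤ k := by
  unfold FF
  refine natDegree_sum_le_of_forall_le _ _ (fun j hj => ?_)
  rw [mem_Icc] at hj
  exact (natDegree_C_mul_X_pow_le _ _).trans hj.2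

lemma pba_filter_dec {α : Type} (s : Finset α) (p : α → Prop) (d1 d2 : DecidablePred p) :
    @Finset.filter α p d1 s = @Finset.filter α p d2 s := by
  ext x; simp only [mem_filter]

/-- sums over `[1,N]` of functions of `n mod q` -/
lemma pba_sum_mod (N q : ℕ) (hq : 1 ≤ q) (h : ℕ → ℝ) (hh : ∀ x, 0 ≤ h x) :
    ∑ n ∈ Icc 1 N, h (n % q) ≤ (N / q + 1) * ∑ x ∈ range q, h x := by
  have h1 : ∀ n ∈ Icc 1 N, h (n % q) = ∑ x ∈ range q, (if n % q = x then h x else 0) := by
    intro n _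
    rw [sum_ite_eq, if_pos (mem_range.mpr (Nat.mod_lt _ hq))]
  rw [sum_congr rfl h1, sum_comm, mul_sum]
  refine sum_le_sum (fun x hx => ?_)
  have h2 : ∑ n ∈ Icc 1 N, (if n % q = x then h x else 0) =
      (∑ n ∈ Icc 1 N, (if n % q = x then (1 : ℝ) else 0)) * h x := by
    rw [sum_mul]
    refine sum_congr rfl (fun n _ => ?_)
    split_ifs <;> simp
  rw [h2]
  refine mul_le_mul_of_nonneg_right ?_ (hh x)
  have := (abs_le.mp (pb4_g q x hq (mem_range.mp hx) N)).2
  linarith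

lemma pba_count_mod (N q : ℕ) (hq : 1 ≤ q) (A : Finset ℕ) (hA : A ⊆ range q) :
    (((Icc 1 N).filter (fun n => n % q ∈ A)).card : ℝ) ≤ (N / q + 1) * A.card := by
  classical
  have h := pba_sum_mod N q hq (fun x => if x ∈ A then 1 else 0) (fun x => by split_ifs <;> norm_num)
  simp only [sum_boole] at h
  have h2 : (range q).filter (fun x => x ∈ A) = A := by
    ext x
    rw [mem_filter]
    exact ⟨fun h => h.2, fun h => ⟨hA h, h⟩⟩
  rw [h2] at h
  refine le_trans (le_of_eq ?_) h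
  rw [pba_filter_dec (Icc 1 N) _ _ (fun n => Classical.propDecidable _),
    pba_filter_dec (Icc 1 N) (fun n => n % q ∈ A) _ (fun n => Classical.propDecidable _)]

/-- naturals with bounded differences -/
lemma pba_diam (s : Finset ℕ) (L : ℝ) (hL : 0 ≤ L) (h : ∀ x ∈ s, ∀ y ∈ s, x ≤ y → (y : ℝ) - x ≤ L) :
    (s.card : ℝ) ≤ L + 1 := by
  rcases s.eq_empty_or_nonempty with rfl | hne
  · simp; linarith
  · have h1 : s ⊆ Icc (s.min' hne) (s.max' hne) := fun x hx =>
      mem_Icc.mpr ⟨min'_le _ _ hx, le_max' _ _ hx⟩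
    have h2 := card_le_card h1
    rw [Nat.card_Icc] at h2
    have h3 : s.min' hne ≤ s.max' hne := min'_le_max' _ _
    have h4 := h _ (min'_mem s hne) _ (max'_mem s hne) h3
    have h5 : (s.card : ℝ) ≤ ((s.max' hne + 1 - s.min' hne : ℕ) : ℝ) := by exact_mod_cast h2
    rw [Nat.cast_sub (by omega)] at h5
    push_cast at h5
    linarith

/-- counting the points of a set cut into pieces of bounded length -/
lemma pba_pieces (s : Finset ℕ) (R : Finset ℝ) (m : ℕ) (hR : R.card ≤ m) (L : ℝ) (hL : 0 ≤ L)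
    (h : ∀ x ∈ s, ∀ y ∈ s, x ≤ y → (∀ r ∈ R, ¬ ((x : ℝ) ≤ r ∧ r ≤ y)) → (y : ℝ) - x ≤ L) :
    (s.card : ℝ) ≤ (2 * m + 1) * (L + 1) := by
  classical
  set s1 := s.filter (fun n : ℕ => (n : ℝ) ∈ R) with hs1
  set s2 := s.filter (fun n : ℕ => ¬ (n : ℝ) ∈ R) with hs2
  have hc : s1.card + s2.card = s.card := card_filter_add_card_filter_not _
  have h1 : s1.card ≤ m := by
    refine le_trans ?_ hR
    refine card_le_card_of_injOn (fun n : ℕ => (n : ℝ)) ?_ ?_
    · intro n hn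
      rw [mem_coe, hs1, mem_filter] at hn
      exact hn.2
    · intro x _ y _ hxy
      exact Nat.cast_injective hxy
  set idx : ℕ → ℕ := fun n => (R.filter (fun r : ℝ => r < (n : ℝ))).card with hidx
  have hmap : ∀ n ∈ s2, idx n ∈ range (m + 1) := by
    intro n _
    rw [mem_range]
    exact Nat.lt_succ_of_le ((card_filter_le _ _).trans hR)
  have hfib : ∀ i ∈ range (m + 1), (((s2.filter (fun n => idx n = i)).card : ℕ) : ℝ) ≤ L + 1 := by
    intro i _
    refine pba_diam _ L hL ?_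
    intro x hx y hy hxy
    rw [mem_filter, hs2, mem_filter] at hx hy
    refine h x hx.1.1 y hy.1.1 hxy ?_
    intro r hr hcon
    have hsub : R.filter (fun r => r < (x : ℝ)) ⊆ R.filter (fun r => r < (y : ℝ)) := by
      intro r' hr'
      rw [mem_filter] at hr' ⊢
      exact ⟨hr'.1, hr'.2.trans_le (by exact_mod_cast hxy)⟩
    have heq : R.filter (fun r => r < (x : ℝ)) = R.filter (fun r => r < (y : ℝ)) :=
      eq_of_subset_of_card_le hsub (by
        have e1 : idx x = idx y := by rw [hx.2, hy.2]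
        have e2 : (R.filter (fun r : ℝ => r < (x : ℝ))).card =
          (R.filter (fun r : ℝ => r < (y : ℝ))).card := e1
        exact e2.ge)
    have hry : r < (y : ℝ) := lt_of_le_of_ne hcon.2 (fun he => hy.1.2 (he ▸ hr))
    have : r ∈ R.filter (fun r => r < (y : ℝ)) := mem_filter.mpr ⟨hr, hry⟩
    rw [← heq, mem_filter] at this
    linarith [this.2, hcon.1]
  have h2 : (s2.card : ℝ) ≤ (m + 1) * (L + 1) := by
    rw [card_eq_sum_card_fiberwise hmap]
    push_cast
    refine (sum_le_sum hfib).trans ?_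
    rw [sum_const, card_range, nsmul_eq_mul]
    push_cast
    exact le_rfl
  have h3 : (s.card : ℝ) = s1.card + s2.card := by exact_mod_cast hc.symm
  have h4 : (s1.card : ℝ) ≤ m := by exact_mod_cast h1
  have hm : (0 : ℝ) ≤ m := by positivity
  rw [h3]
  nlinarith

/-- mean value estimate for polynomials -/
lemma pba_mvt (P : ℝ[X]) (x y v : ℝ) (hxy : x ≤ y) (h : ∀ z, x ≤ z → z ≤ y → v ≤ (derivative P).eval z) :
    v * (y - x) ≤ P.eval y - P.eval x := by
  rcases hxy.eq_or_lt with rfl | hlt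
  · simp
  · obtain ⟨z, hz, hz2⟩ := exists_deriv_eq_slope (fun w => P.eval w) hlt P.continuous.continuousOn
      P.differentiable.differentiableOn
    rw [Polynomial.deriv] at hz2
    have h1 := h z hz.1.le hz.2.le
    rw [hz2, le_div_iff₀ (by linarith)] at h1
    exact h1

lemma pba_eval_mod (F : ℤ[X]) (n q : ℕ) : (q : ℤ) ∣ F.eval (n : ℤ) - F.eval ((n % q : ℕ) : ℤ) :=
  (pb2_dvd_mod n q).trans (Polynomial.sub_dvd_eval_sub _ _ _)

lemma pba_gcd_pos (a : ℤ) (q : ℕ) (hq : 1 ≤ q) : 1 ≤ Int.gcd a q := by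
  rw [Nat.one_le_iff_ne_zero]
  intro h
  rw [Int.gcd_eq_zero_iff] at h
  have := h.2
  omega

/-- singular part -/
lemma pba_sing (k : ℕ) (hk : 1 ≤ k) (c1 : ℝ) (hc1 : 0 < c1) : ∃ C : ℝ, 0 ≤ C ∧
    ∀ (F : ℤ[X]), F.natDegree ≤ k → ∀ q : ℕ, 1 ≤ q →
    (∀ p : ℕ, p.Prime → p ∣ q → ∃ j, 1 ≤ j ∧ ¬ ((p : ℤ) ∣ F.coeff j)) → ∀ N T : ℕ, q ≤ T → T ≤ N →
    (((Icc 1 N).filter (fun n : ℕ => (T : ℝ) ^ c1 <
      ((Int.gcd ((derivative F).eval (n : ℤ)) q : ℕ) : ℝ))).card : ℝ) ≤
      C * (N * (T : ℝ) ^ (-(c1 / (4 * k)))) := by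
  obtain ⟨C0, hC0, hv⟩ := vsum_le k hk
  obtain ⟨Cw, hw⟩ := omega_le C0 (c1 / (4 * k)) hC0 (by positivity)
  refine ⟨2 * |Cw|, by positivity, fun F hF q hq hc N T hqT hTN => ?_⟩
  set e : ℝ := (1 : ℝ) / (2 * k) with he
  have hk0 : (0 : ℝ) < k := by exact_mod_cast hk
  have he0 : 0 < e := by positivity
  have hq0 : (0 : ℝ) < q := by exact_mod_cast hq
  have hq1 : (1 : ℝ) ≤ q := by exact_mod_cast hq
  have hqT' : (q : ℝ) ≤ T := by exact_mod_cast hqT
  have hTN' : (T : ℝ) ≤ N := by exact_mod_cast hTN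
  have hT0 : (0 : ℝ) < T := by linarith
  set G : ℝ := (T : ℝ) ^ c1 with hG
  have hG0 : 0 < G := by positivity
  set h : ℕ → ℝ := fun x => ((Int.gcd ((derivative F).eval (x : ℤ)) q : ℕ) : ℝ) ^ e with hh
  have hmod : ∀ n : ℕ, h n = h (n % q) := by
    intro n
    rw [hh]
    simp only
    rw [pb2_gcd_congr (pba_eval_mod (derivative F) n q)]
  calc (((Icc 1 N).filter (fun n : ℕ => G <
      ((Int.gcd ((derivative F).eval (n : ℤ)) q : ℕ) : ℝ))).card : ℝ)
      = ∑ n ∈ (Icc 1 N).filter (fun n : ℕ => G <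
          ((Int.gcd ((derivative F).eval (n : ℤ)) q : ℕ) : ℝ)), (1 : ℝ) := by
        rw [sum_const, nsmul_eq_mul, mul_one]
    _ ≤ ∑ n ∈ (Icc 1 N).filter (fun n : ℕ => G <
          ((Int.gcd ((derivative F).eval (n : ℤ)) q : ℕ) : ℝ)), h n * G ^ (-e) := by
        refine sum_le_sum (fun n hn => ?_)
        rw [mem_filter] at hn
        have h1 : G ^ e ≤ h n := by
          rw [hh]
          simp only
          exact Real.rpow_le_rpow hG0.le hn.2.le he0.le
        calc (1 : ℝ) = G ^ e * G ^ (-e) := by rw [← Real.rpow_add hG0]; simp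
          _ ≤ h n * G ^ (-e) := by gcongr
    _ ≤ ∑ n ∈ Icc 1 N, h n * G ^ (-e) :=
        sum_le_sum_of_subset_of_nonneg (filter_subset _ _) (fun n _ _ => by positivity)
    _ = (∑ n ∈ Icc 1 N, h (n % q)) * G ^ (-e) := by
        rw [sum_mul]
        exact sum_congr rfl (fun n _ => by rw [hmod n])
    _ ≤ ((N / q + 1) * (C0 ^ q.primeFactors.card * q)) * G ^ (-e) := by
        gcongr
        refine (pba_sum_mod N q hq h (fun x => by positivity)).trans ?_
        gcongr
        exact hv F hF q hq hc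
    _ ≤ ((N / q + N / q) * (|Cw| * (T : ℝ) ^ (c1 / (4 * k)) * q)) * G ^ (-e) := by
        have h1 : (1 : ℝ) ≤ N / q := by rw [le_div_iff₀ hq0]; linarith
        have h2 : C0 ^ q.primeFactors.card ≤ |Cw| * (T : ℝ) ^ (c1 / (4 * k)) := by
          refine (hw q hq).trans ?_
          have := le_abs_self Cw
          gcongr
        gcongr
    _ = 2 * |Cw| * (N * ((T : ℝ) ^ (c1 / (4 * k)) * G ^ (-e))) := by
        field_simp
        ring
    _ = 2 * |Cw| * (N * (T : ℝ) ^ (-(c1 / (4 * k)))) := by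
        rw [hG, ← Real.rpow_mul hT0.le, ← Real.rpow_add hT0]
        congr 3
        rw [he]
        field_simp
        ring

/-- number of nonsingular solutions -/
lemma pba_At (k : ℕ) (hk : 1 ≤ k) (c1 : ℝ) (hc1 : 0 < c1) : ∃ C : ℝ, 0 ≤ C ∧
    ∀ (F : ℤ[X]), F.natDegree ≤ k → ∀ q : ℕ, 1 ≤ q →
    (∀ p : ℕ, p.Prime → p ∣ q → ∃ j, 1 ≤ j ∧ ¬ ((p : ℤ) ∣ F.coeff j)) → ∀ T : ℕ, q ≤ T →
    ∀ t : ℤ, (((range q).filter (fun x : ℕ => (q : ℤ) ∣ F.eval (x : ℤ) - t ∧
      ((Int.gcd ((derivative F).eval (x : ℤ)) q : ℕ) : ℝ) ≤ (T : ℝ) ^ c1)).card : ℝ) ≤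
      C * (T : ℝ) ^ (4 * c1) := by
  obtain ⟨Ct, ht⟩ := tau_le (c1 / 2) (by positivity)
  obtain ⟨Cw, hw⟩ := omega_le k (c1 / 2) (by exact_mod_cast hk) (by positivity)
  refine ⟨|Ct| * |Cw|, by positivity, fun F hF q hq hc T hqT t => ?_⟩
  have hq0 : (0 : ℝ) < q := by exact_mod_cast hq
  have hqT' : (q : ℝ) ≤ T := by exact_mod_cast hqT
  have hT0 : (0 : ℝ) < T := by linarith
  set G : ℝ := (T : ℝ) ^ c1 with hG
  have hG0 : 0 < G := by positivity
  have h1 := wsum_le k hk F hF q hq hc t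
  have h2 : (k : ℝ) ^ q.primeFactors.card ≤ |Cw| * (T : ℝ) ^ (c1 / 2) := by
    refine (hw q hq).trans ?_
    have := le_abs_self Cw
    gcongr
  have h3 : (q.divisors.card : ℝ) ≤ |Ct| * (T : ℝ) ^ (c1 / 2) := by
    refine (ht q hq).trans ?_
    have := le_abs_self Ct
    gcongr
  calc (((range q).filter (fun x : ℕ => (q : ℤ) ∣ F.eval (x : ℤ) - t ∧
      ((Int.gcd ((derivative F).eval (x : ℤ)) q : ℕ) : ℝ) ≤ G)).card : ℝ)
      = ∑ x ∈ (range q).filter (fun x : ℕ => (q : ℤ) ∣ F.eval (x : ℤ) - t ∧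
        ((Int.gcd ((derivative F).eval (x : ℤ)) q : ℕ) : ℝ) ≤ G), (1 : ℝ) := by
        rw [sum_const, nsmul_eq_mul, mul_one]
    _ ≤ ∑ x ∈ (range q).filter (fun x : ℕ => (q : ℤ) ∣ F.eval (x : ℤ) - t ∧
        ((Int.gcd ((derivative F).eval (x : ℤ)) q : ℕ) : ℝ) ≤ G),
          G ^ 3 * (((Int.gcd ((derivative F).eval (x : ℤ)) q : ℕ) : ℝ) ^ 3)⁻¹ := by
        refine sum_le_sum (fun x hx => ?_)
        rw [mem_filter] at hx
        have h4 : (1 : ℝ) ≤ ((Int.gcd ((derivative F).eval (x : ℤ)) q : ℕ) : ℝ) := by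
          exact_mod_cast pba_gcd_pos _ q hq
        rw [← div_eq_mul_inv, le_div_iff₀ (by positivity), one_mul]
        have := hx.2.2
        gcongr
    _ = G ^ 3 * ∑ x ∈ (range q).filter (fun x : ℕ => (q : ℤ) ∣ F.eval (x : ℤ) - t ∧
        ((Int.gcd ((derivative F).eval (x : ℤ)) q : ℕ) : ℝ) ≤ G),
          (((Int.gcd ((derivative F).eval (x : ℤ)) q : ℕ) : ℝ) ^ 3)⁻¹ := by rw [mul_sum]
    _ ≤ G ^ 3 * ∑ x ∈ (range q).filter (fun x : ℕ => (q : ℤ) ∣ F.eval (x : ℤ) - t),
          (((Int.gcd ((derivative F).eval (x : ℤ)) q : ℕ) : ℝ) ^ 3)⁻¹ := by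
        refine mul_le_mul_of_nonneg_left (sum_le_sum_of_subset_of_nonneg ?_
          (fun _ _ _ => by positivity)) (by positivity)
        intro x hx
        rw [mem_filter] at hx ⊢
        exact ⟨hx.1, hx.2.1⟩
    _ ≤ G ^ 3 * ((|Cw| * (T : ℝ) ^ (c1 / 2)) * (|Ct| * (T : ℝ) ^ (c1 / 2))) := by
        gcongr
        exact h1.trans (by gcongr)
    _ = |Ct| * |Cw| * (G ^ 3 * (T : ℝ) ^ (c1 / 2) * (T : ℝ) ^ (c1 / 2)) := by ring
    _ = |Ct| * |Cw| * (T : ℝ) ^ (4 * c1) := by
        rw [hG, ← Real.rpow_natCast, ← Real.rpow_mul hT0.le, ← Real.rpow_add hT0,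
          ← Real.rpow_add hT0]
        congr 2
        push_cast
        ring

/-- the analytic condition -/
def pbaQ (θ : ℝ[X]) (u v x : ℝ) : Prop :=
  u ≤ θ.eval x ∧ ¬ (u + 1 ≤ θ.eval x) ∧
    (v ≤ (derivative θ).eval x ∨ v ≤ (-(derivative θ)).eval x)

lemma pba_cuts (k : ℕ) (θ : ℝ[X]) (hθ : θ.natDegree ≤ k) (u v : ℝ) (hv : 0 < v) :
    ∃ R : Finset ℝ, R.card ≤ 4 * k ∧
      (∀ x y : ℝ, x ≤ y → (∀ r ∈ R, ¬ (x ≤ r ∧ r ≤ y)) → (pbaQ θ u v x ↔ pbaQ θ u v y)) ∧
      (∀ x y : ℝ, x ≤ y → (∀ r ∈ R, ¬ (x ≤ r ∧ r ≤ y)) → pbaQ θ u v x → pbaQ θ u v y →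
        y - x ≤ 1 / v) := by
  classical
  have hd : (derivative θ).natDegree ≤ k := (natDegree_derivative_le θ).trans (by omega)
  obtain ⟨R1, h1c, h1⟩ := poly_cuts k θ hθ u
  obtain ⟨R2, h2c, h2⟩ := poly_cuts k θ hθ (u + 1)
  obtain ⟨R3, h3c, h3⟩ := poly_cuts k (derivative θ) hd v
  obtain ⟨R4, h4c, h4⟩ := poly_cuts k (-(derivative θ)) (by rw [natDegree_neg]; exact hd) v
  refine ⟨R1 ∪ R2 ∪ R3 ∪ R4, ?_, ?_, ?_⟩
  · have e1 := card_union_le (R1 ∪ R2 ∪ R3) R4
    have e2 := card_union_le (R1 ∪ R2) R3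
    have e3 := card_union_le R1 R2
    omega
  · intro x y hxy hR
    have g1 := h1 x y hxy (fun r hr => hR r (by simp [hr]))
    have g2 := h2 x y hxy (fun r hr => hR r (by simp [hr]))
    have g3 := h3 x y hxy (fun r hr => hR r (by simp [hr]))
    have g4 := h4 x y hxy (fun r hr => hR r (by simp [hr]))
    unfold pbaQ
    rw [g1, g2, g3, g4]
  · intro x y hxy hR hx hy
    rw [le_div_iff₀ hv]
    rcases hx.2.2 with hd1 | hd1
    · have hz : ∀ z, x ≤ z → z ≤ y → v ≤ (derivative θ).eval z := by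
        intro z hxz hzy
        exact (h3 x z hxz (fun r hr hc => hR r (by simp [hr]) ⟨hc.1, hc.2.trans hzy⟩)).mp hd1
      have := pba_mvt θ x y v hxy hz
      have e1 := hx.1
      have e2 := not_le.mp hy.2.1
      linarith
    · have hz : ∀ z, x ≤ z → z ≤ y → v ≤ (derivative (-θ)).eval z := by
        intro z hxz hzy
        rw [derivative_neg]
        exact (h4 x z hxz (fun r hr hc => hR r (by simp [hr]) ⟨hc.1, hc.2.trans hzy⟩)).mp hd1
      have := pba_mvt (-θ) x y v hxy hz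
      rw [eval_neg, eval_neg] at this
      have e1 := hy.1
      have e2 := not_le.mp hx.2.1
      linarith

open Classical in
lemma pba_countQ (k : ℕ) (θ : ℝ[X]) (hθ : θ.natDegree ≤ k) (u v : ℝ) (hv : 0 < v) (N q : ℕ)
    (hq : 1 ≤ q) (A : Finset ℕ) (hA : A ⊆ range q) :
    (((Icc 1 N).filter (fun n : ℕ => pbaQ θ u v n ∧ n % q ∈ A)).card : ℝ) ≤
      (8 * k + 1) * A.card * ((1 / v + 1) / q + 1) := by
  obtain ⟨R, hRc, hR1, hR2⟩ := pba_cuts k θ hθ u v hv
  have h1 := ap_cuts N q (4 * k) hq (fun n : ℕ => pbaQ θ u v n) R hRc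
    (fun x y _ hxy _ hr => hR1 x y (by exact_mod_cast hxy) hr) A hA
  have h2 : (((Icc 1 N).filter (fun n : ℕ => pbaQ θ u v n)).card : ℝ) ≤
      (2 * ((4 * k : ℕ) : ℝ) + 1) * (1 / v + 1) := by
    refine pba_pieces _ R (4 * k) hRc (1 / v) (by positivity) ?_
    intro x hx y hy hxy hr
    rw [mem_filter] at hx hy
    exact hR2 x y (by exact_mod_cast hxy) hr hx.2 hy.2
  have h3 := (abs_le.mp h1).2
  have hq0 : (0 : ℝ) < q := by exact_mod_cast hq
  have hA0 : (0 : ℝ) ≤ A.card := by positivity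
  have h4 : (((Icc 1 N).filter (fun n : ℕ => pbaQ θ u v n)).card : ℝ) * A.card / q ≤
      (2 * ((4 * k : ℕ) : ℝ) + 1) * (1 / v + 1) * A.card / q := by gcongr
  have h5 : (2 * ((4 * k : ℕ) : ℝ) + 1) * (1 / v + 1) * A.card / q + (2 * ((4 * k : ℕ) : ℝ) + 1) * A.card =
      (8 * k + 1) * A.card * ((1 / v + 1) / q + 1) := by
    push_cast
    field_simp
    ring
  rw [← h5]
  linarith

/-- the real polynomial `θ = f - F / q` -/
noncomputable def pbaθ (f : ℝ[X]) (q : ℕ) (a : ℕ → ℤ) : ℝ[X] :=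
  f - C (1 / (q : ℝ)) * (FF f.natDegree a).map (Int.castRingHom ℝ)

lemma pba_θ_natDegree (f : ℝ[X]) (q : ℕ) (a : ℕ → ℤ) : (pbaθ f q a).natDegree ≤ f.natDegree := by
  unfold pbaθ
  refine (natDegree_sub_le _ _).trans (max_le le_rfl ?_)
  exact (natDegree_C_mul_le _ _).trans (natDegree_map_le.trans (pba_natDegree _ _))

lemma pba_θ_eval (f : ℝ[X]) (q : ℕ) (a : ℕ → ℤ) (n : ℕ) : (pbaθ f q a).eval (n : ℝ) =
    f.eval (n : ℝ) - ((FF f.natDegree a).eval (n : ℤ) : ℤ) / q := by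
  unfold pbaθ
  rw [eval_sub, eval_mul, eval_C]
  have h2 := Polynomial.eval_intCast_map (Int.castRingHom ℝ) (FF f.natDegree a) (n : ℤ)
  have h3 : eval (n : ℝ) ((FF f.natDegree a).map (Int.castRingHom ℝ)) =
      ((FF f.natDegree a).eval (n : ℤ) : ℤ) := by simpa using h2
  rw [h3]
  ring

lemma pba_tt (f : ℝ[X]) (q : ℕ) (hq : 1 ≤ q) (a : ℕ → ℤ) (n : ℕ) :
    (q : ℤ) ∣ (FF f.natDegree a).eval (n : ℤ) - tt f q a n ∧
    -(tt f q a n : ℝ) / q ≤ (pbaθ f q a).eval (n : ℝ) ∧
    (pbaθ f q a).eval (n : ℝ) < -(tt f q a n : ℝ) / q + 1 := by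
  have hq0 : (0 : ℝ) < q := by exact_mod_cast hq
  have h1 : (FF f.natDegree a).eval (n : ℤ) - tt f q a n = q * ⌊f.eval (n : ℝ)⌋ := by
    unfold tt; ring
  have h2 : ((tt f q a n : ℤ) : ℝ) = ((FF f.natDegree a).eval (n : ℤ) : ℤ) -
      q * ((⌊f.eval (n : ℝ)⌋ : ℤ) : ℝ) := by
    unfold tt; push_cast; ring
  have h3 : -((tt f q a n : ℤ) : ℝ) / q = ((⌊f.eval (n : ℝ)⌋ : ℤ) : ℝ) -
      ((FF f.natDegree a).eval (n : ℤ) : ℤ) / q := by
    rw [h2]
    field_simp
    ring
  refine ⟨⟨_, h1⟩, ?_, ?_⟩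
  · rw [h3, pba_θ_eval]
    have := Int.floor_le (f.eval (n : ℝ))
    linarith
  · rw [h3, pba_θ_eval]
    have := Int.lt_floor_add_one (f.eval (n : ℝ))
    linarith

open Classical in
theorem pb_alt (k : ℕ) (hk : 1 ≤ k) (c' : ℝ) (hc' : 0 < c') : ∃ c C : ℝ, 0 < c ∧ 0 < C ∧
    ∀ f : ℝ[X], f.natDegree = k → ∀ (N T q : ℕ) (a : ℕ → ℤ), MajD f N T q a → T ^ 4 ≤ N →
    ∀ B : Finset ℤ,
    (((Icc 1 N).filter (fun n => tt f q a n ∈ B)).card : ℝ) ≤
      N * (C * (T : ℝ) ^ (-c) + C * (T : ℝ) ^ (c' - 1) * B.card) := by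
  have hk0 : (0 : ℝ) < k := by exact_mod_cast hk
  have hk1 : (1 : ℝ) ≤ k := by exact_mod_cast hk
  set b : ℝ := min c' 1 with hb
  have hb0 : 0 < b := lt_min hc' one_pos
  have hb1 : b ≤ 1 := min_le_right _ _
  have hbc : b ≤ c' := min_le_left _ _
  obtain ⟨Cs, hCs, hsing⟩ := pba_sing k hk (b / 8) (by positivity)
  obtain ⟨Ca, hCa, hAt⟩ := pba_At k hk (b / 8) (by positivity)
  obtain ⟨Cu, hCu, hsub⟩ := sublevel (k - 1)
  set c : ℝ := min (b / 8 / (4 * k)) (b / 2 / k) with hc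
  refine ⟨c, Cs + 2 * Cu + 4 * (8 * k + 1) * Ca + 4 * Ca, lt_min (by positivity) (by positivity),
    by positivity, ?_⟩
  rintro f rfl N T q a hM hT4 B
  set k := f.natDegree with hkdef
  have hq := hM.q1
  have hT1 : 1 ≤ T := hq.trans hM.qT
  have hTN : T ≤ N := (Nat.le_self_pow (by norm_num) T).trans hT4
  have hq0 : (0 : ℝ) < q := by exact_mod_cast hq
  have hT0 : (0 : ℝ) < T := by exact_mod_cast hT1
  have hT1' : (1 : ℝ) ≤ T := by exact_mod_cast hT1
  have hTN' : (T : ℝ) ≤ N := by exact_mod_cast hTN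
  have hN0 : (0 : ℝ) < N := by linarith
  have hN1 : 1 ≤ N := hT1.trans hTN
  have hqT' : (q : ℝ) ≤ T := by exact_mod_cast hM.qT
  set F : ℤ[X] := FF k a with hF
  have hFd : F.natDegree ≤ k := pba_natDegree k a
  have hcop : ∀ p : ℕ, p.Prime → p ∣ q → ∃ j, 1 ≤ j ∧ ¬ ((p : ℤ) ∣ F.coeff j) := by
    intro p hp hpq
    obtain ⟨j, hj, hj2⟩ := hM.cop p hp hpq
    refine ⟨j, (mem_Icc.mp hj).1, ?_⟩
    rw [hF, pba_coeff k a j hj]
    exact hj2
  set At : ℤ → Finset ℕ := fun t => (range q).filter (fun x : ℕ => (q : ℤ) ∣ F.eval (x : ℤ) - t ∧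
      ((Int.gcd ((derivative F).eval (x : ℤ)) q : ℕ) : ℝ) ≤ (T : ℝ) ^ (b / 8)) with hAtdef
  have hAtsub : ∀ t, At t ⊆ range q := fun t => filter_subset _ _
  have hAtc : ∀ t, ((At t).card : ℝ) ≤ Ca * (T : ℝ) ^ (b / 2) := by
    intro t
    have := hAt F hFd q hq hcop T hM.qT t
    rw [show 4 * (b / 8) = b / 2 by ring] at this
    exact this
  -- membership of the residue
  have hmem : ∀ n : ℕ, ((Int.gcd ((derivative F).eval (n : ℤ)) q : ℕ) : ℝ) ≤ (T : ℝ) ^ (b / 8) →
      n % q ∈ At (tt f q a n) := by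
    intro n hn
    rw [hAtdef]
    simp only
    rw [mem_filter]
    refine ⟨mem_range.mpr (Nat.mod_lt _ hq), ?_, ?_⟩
    · have h1 := (pba_tt f q hq a n).1
      have h2 := pba_eval_mod F n q
      have h3 : F.eval ((n % q : ℕ) : ℤ) - tt f q a n =
        (F.eval (n : ℤ) - tt f q a n) - (F.eval (n : ℤ) - F.eval ((n % q : ℕ) : ℤ)) := by ring
      rw [h3]
      exact dvd_sub h1 h2
    · rw [← pb2_gcd_congr (pba_eval_mod (derivative F) n q)]
      exact hn
  set Sing : Finset ℕ := (Icc 1 N).filter (fun n : ℕ => (T : ℝ) ^ (b / 8) <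
      ((Int.gcd ((derivative F).eval (n : ℤ)) q : ℕ) : ℝ)) with hSing
  have hSingc : (Sing.card : ℝ) ≤ Cs * (N * (T : ℝ) ^ (-c)) := by
    refine (hsing F hFd q hq hcop N T hM.qT hTN).trans ?_
    have : (T : ℝ) ^ (-(b / 8 / (4 * k))) ≤ (T : ℝ) ^ (-c) :=
      Real.rpow_le_rpow_of_exponent_le hT1' (neg_le_neg (min_le_left _ _))
    gcongr
  have hpow : (T : ℝ) ^ (b - 1) ≤ (T : ℝ) ^ (c' - 1) :=
    Real.rpow_le_rpow_of_exponent_le hT1' (by linarith)
  have hTc0 : 0 ≤ (T : ℝ) ^ (-c) := by positivity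
  have hTc'0 : 0 ≤ (T : ℝ) ^ (c' - 1) := by positivity
  have hB0 : (0 : ℝ) ≤ B.card := by positivity
  rcases Nat.lt_or_ge (q + 1) T with hbig | hsmall
  rotate_left
  · -- q is at least T / 2
    have hq2 : (T : ℝ) ≤ 2 * q := by
      have : T ≤ 2 * q := by omega
      exact_mod_cast this
    have hcover : (Icc 1 N).filter (fun n => tt f q a n ∈ B) ⊆
        Sing ∪ B.biUnion (fun t => (Icc 1 N).filter (fun n => n % q ∈ At t)) := by
      intro n hn
      rw [mem_filter] at hn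
      rw [mem_union]
      by_cases hs : (T : ℝ) ^ (b / 8) < ((Int.gcd ((derivative F).eval (n : ℤ)) q : ℕ) : ℝ)
      · left
        rw [hSing, mem_filter]
        exact ⟨hn.1, hs⟩
      · right
        rw [mem_biUnion]
        exact ⟨tt f q a n, hn.2, mem_filter.mpr ⟨hn.1, hmem n (not_lt.mp hs)⟩⟩
    have hterm : ∀ t ∈ B, (((Icc 1 N).filter (fun n => n % q ∈ At t)).card : ℝ) ≤
        4 * Ca * (N * (T : ℝ) ^ (b - 1)) := by
      intro t _
      have h0 := pba_count_mod N q hq (At t) (hAtsub t)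
      have h1 : (((Icc 1 N).filter (fun n => n % q ∈ At t)).card : ℝ) ≤ (N / q + 1) * (At t).card := by
        refine le_trans (le_of_eq ?_) h0
        rw [pba_filter_dec (Icc 1 N) _ _ (fun n => Classical.propDecidable _),
          pba_filter_dec (Icc 1 N) (fun n => n % q ∈ At t) _ (fun n => Classical.propDecidable _)]
      have h2 : (N : ℝ) / q + 1 ≤ 4 * (N / T) := by
        have e1 : (N : ℝ) / q ≤ 2 * (N / T) := by
          rw [mul_div_assoc', div_le_div_iff₀ hq0 hT0]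
          nlinarith
        have e2 : (1 : ℝ) ≤ N / q := by rw [le_div_iff₀ hq0]; linarith
        linarith
      have h3 : (T : ℝ) ^ (b / 2) ≤ (T : ℝ) ^ b :=
        Real.rpow_le_rpow_of_exponent_le hT1' (by linarith)
      calc (((Icc 1 N).filter (fun n => n % q ∈ At t)).card : ℝ)
          ≤ (N / q + 1) * (At t).card := h1
        _ ≤ (4 * (N / T)) * (Ca * (T : ℝ) ^ b) := by
            have := hAtc t
            gcongr
            exact this.trans (by gcongr)
        _ = 4 * Ca * (N * ((T : ℝ) ^ b / T)) := by ring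
        _ = 4 * Ca * (N * (T : ℝ) ^ (b - 1)) := by
            rw [Real.rpow_sub hT0, Real.rpow_one]
    calc (((Icc 1 N).filter (fun n => tt f q a n ∈ B)).card : ℝ)
        ≤ ((Sing ∪ B.biUnion (fun t => (Icc 1 N).filter (fun n => n % q ∈ At t))).card : ℝ) := by
          exact_mod_cast card_le_card hcover
      _ ≤ (Sing.card : ℝ) + ∑ t ∈ B, (((Icc 1 N).filter (fun n => n % q ∈ At t)).card : ℝ) := by
          have h1 := card_union_le Sing (B.biUnion (fun t => (Icc 1 N).filter (fun n => n % q ∈ At t)))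
          have h2 : (B.biUnion (fun t => (Icc 1 N).filter (fun n => n % q ∈ At t))).card ≤
            ∑ t ∈ B, ((Icc 1 N).filter (fun n => n % q ∈ At t)).card := card_biUnion_le
          exact_mod_cast h1.trans (Nat.add_le_add_left h2 _)
      _ ≤ Cs * (N * (T : ℝ) ^ (-c)) + ∑ t ∈ B, 4 * Ca * (N * (T : ℝ) ^ (b - 1)) :=
          add_le_add hSingc (sum_le_sum hterm)
      _ = N * (Cs * (T : ℝ) ^ (-c) + 4 * Ca * (T : ℝ) ^ (b - 1) * B.card) := by
          rw [sum_const, nsmul_eq_mul]; ring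
      _ ≤ _ := by
          gcongr
          · have : 0 ≤ 4 * (8 * (k : ℝ) + 1) * Ca + 4 * Ca := by positivity
            linarith
          · have : 0 ≤ 4 * (8 * (k : ℝ) + 1) * Ca := by positivity
            linarith
  · -- the analytic case
    obtain ⟨j0, hj0, hj0'⟩ : ∃ j ∈ Icc 1 k, (T : ℝ) - 1 ≤ |(q : ℝ) * f.coeff j - a j| * (N : ℝ) ^ j := by
      rcases hM.big with h | h
      · omega
      · exact h
    have hT3 : 3 ≤ T := by omega
    have hT3' : (3 : ℝ) ≤ T := by exact_mod_cast hT3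
    set θ : ℝ[X] := pbaθ f q a with hθ
    have hθd : θ.natDegree ≤ k := pba_θ_natDegree f q a
    set lam : ℝ := (T : ℝ) ^ (-(b / 2)) with hlam
    set M' : ℝ := ((T : ℝ) - 1) / (q * N) with hM'
    have hlam0 : 0 < lam := by positivity
    have hlam1 : lam ≤ 1 := Real.rpow_le_one_of_one_le_of_nonpos hT1' (by linarith)
    have hM'0 : 0 < M' := by
      rw [hM']
      have : (0 : ℝ) < T - 1 := by linarith
      positivity
    have hcoef : ∃ j, M' ≤ |(derivative θ).coeff j| * (N : ℝ) ^ j := by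
      rw [mem_Icc] at hj0
      obtain ⟨i, rfl⟩ : ∃ i, j0 = i + 1 := ⟨j0 - 1, by omega⟩
      refine ⟨i, ?_⟩
      rw [coeff_derivative]
      have h1 : θ.coeff (i + 1) = (q * f.coeff (i + 1) - a (i + 1)) / q := by
        rw [hθ]
        unfold pbaθ
        rw [coeff_sub, coeff_C_mul, coeff_map, pba_coeff f.natDegree a (i + 1) (mem_Icc.mpr hj0)]
        simp only [eq_intCast]
        field_simp
      rw [h1, abs_mul, abs_div, abs_of_pos hq0]
      have h2 : (1 : ℝ) ≤ |((i : ℝ) + 1)| := by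
        rw [abs_of_nonneg (by positivity)]
        have : (0 : ℝ) ≤ i := by positivity
        linarith
      have h3 : M' ≤ |(q : ℝ) * f.coeff (i + 1) - a (i + 1)| / q * (N : ℝ) ^ i := by
        rw [hM', div_le_iff₀ (by positivity)]
        calc (T : ℝ) - 1 ≤ |(q : ℝ) * f.coeff (i + 1) - a (i + 1)| * (N : ℝ) ^ (i + 1) := hj0'
          _ = |(q : ℝ) * f.coeff (i + 1) - a (i + 1)| / q * (N : ℝ) ^ i * (q * N) := by
            field_simp
            ring
      calc M' ≤ |(q : ℝ) * f.coeff (i + 1) - a (i + 1)| / q * (N : ℝ) ^ i := h3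
        _ = |(q : ℝ) * f.coeff (i + 1) - a (i + 1)| / q * 1 * (N : ℝ) ^ i := by ring
        _ ≤ |(q : ℝ) * f.coeff (i + 1) - a (i + 1)| / q * |((i : ℝ) + 1)| * (N : ℝ) ^ i := by
            gcongr
    have hdd : (derivative θ).natDegree ≤ k - 1 :=
      (natDegree_derivative_le θ).trans (Nat.sub_le_sub_right hθd 1)
    have hS0 := hsub (derivative θ) hdd N hN1 M' lam hM'0 hlam0 hlam1 hcoef
    set S0 : Finset ℕ := (Icc 1 N).filter (fun n : ℕ => |(derivative θ).eval (n : ℝ)| < lam * M')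
      with hS0def
    have hkc : ((k - 1 : ℕ) : ℝ) + 1 = k := by
      rw [Nat.cast_sub hk]; push_cast; ring
    rw [hkc] at hS0
    have hc1 : c ≤ 1 := (min_le_right _ _).trans (by
      rw [div_le_one hk0]
      linarith)
    have hNT : 1 ≤ N * (T : ℝ) ^ (-c) := by
      rw [Real.rpow_neg hT0.le, ← div_eq_mul_inv, le_div_iff₀ (by positivity), one_mul]
      calc (T : ℝ) ^ c ≤ (T : ℝ) ^ (1 : ℝ) := Real.rpow_le_rpow_of_exponent_le hT1' hc1
        _ = T := Real.rpow_one _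
        _ ≤ N := hTN'
    have hS0c : (S0.card : ℝ) ≤ 2 * Cu * (N * (T : ℝ) ^ (-c)) := by
      refine hS0.trans ?_
      have h1 : lam ^ ((1 : ℝ) / k) ≤ (T : ℝ) ^ (-c) := by
        rw [hlam, ← Real.rpow_mul hT0.le]
        refine Real.rpow_le_rpow_of_exponent_le hT1' ?_
        have : c ≤ b / 2 / k := min_le_right _ _
        have e : -(b / 2) * (1 / (k : ℝ)) = -(b / 2 / k) := by ring
        rw [e]
        linarith
      have hCu0 : 0 ≤ Cu := by linarith
      calc Cu * (N * lam ^ ((1 : ℝ) / k) + 1) ≤ Cu * (N * (T : ℝ) ^ (-c) + N * (T : ℝ) ^ (-c)) := by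
            gcongr
        _ = _ := by ring
    set v : ℝ := lam * M' with hv
    have hv0 : 0 < v := by positivity
    have hcover : (Icc 1 N).filter (fun n => tt f q a n ∈ B) ⊆
        (Sing ∪ S0) ∪ B.biUnion (fun t => (Icc 1 N).filter (fun n : ℕ =>
          pbaQ θ (-(t : ℝ) / q) v n ∧ n % q ∈ At t)) := by
      intro n hn
      rw [mem_filter] at hn
      rw [mem_union, mem_union]
      by_cases hs : (T : ℝ) ^ (b / 8) < ((Int.gcd ((derivative F).eval (n : ℤ)) q : ℕ) : ℝ)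
      · left; left
        rw [hSing, mem_filter]
        exact ⟨hn.1, hs⟩
      · by_cases hs2 : |(derivative θ).eval (n : ℝ)| < lam * M'
        · left; right
          rw [hS0def, mem_filter]
          exact ⟨hn.1, hs2⟩
        · right
          rw [mem_biUnion]
          refine ⟨tt f q a n, hn.2, mem_filter.mpr ⟨hn.1, ⟨?_, ?_, ?_⟩, hmem n (not_lt.mp hs)⟩⟩
          · exact (pba_tt f q hq a n).2.1
          · exact not_le.mpr (pba_tt f q hq a n).2.2
          · rw [eval_neg]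
            exact le_abs.mp (not_lt.mp hs2)
    have hterm : ∀ t ∈ B, (((Icc 1 N).filter (fun n : ℕ =>
          pbaQ θ (-(t : ℝ) / q) v n ∧ n % q ∈ At t)).card : ℝ) ≤
        4 * (8 * k + 1) * Ca * (N * (T : ℝ) ^ (b - 1)) := by
      intro t _
      refine (pba_countQ k θ hθd (-(t : ℝ) / q) v hv0 N q hq (At t) (hAtsub t)).trans ?_
      have h2 : (1 / v + 1) / q + 1 ≤ 4 * (N * (T : ℝ) ^ (b / 2 - 1)) := by
        have e0 : (T : ℝ) ^ (b / 2 - 1) = 1 / (lam * T) := by
          rw [hlam, Real.rpow_sub hT0, Real.rpow_one, Real.rpow_neg hT0.le]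
          field_simp
        have e1 : 1 / v / q ≤ 2 * (N * (1 / (lam * T))) := by
          have : 1 / v / q = N * (1 / (lam * ((T : ℝ) - 1))) := by
            rw [hv, hM']
            have : (T : ℝ) - 1 ≠ 0 := by linarith
            field_simp
          rw [this]
          have h5 : 1 / (lam * ((T : ℝ) - 1)) ≤ 2 * (1 / (lam * T)) := by
            rw [mul_one_div, div_le_div_iff₀ (mul_pos hlam0 (by linarith)) (by positivity)]
            nlinarith
          nlinarith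
        have e2 : 1 ≤ N * (1 / (lam * T)) := by
          rw [mul_one_div, le_div_iff₀ (by positivity)]
          nlinarith
        have e3 : 1 / (q : ℝ) ≤ 1 := by
          rw [div_le_one hq0]
          exact_mod_cast hq
        rw [e0]
        calc (1 / v + 1) / q + 1 = 1 / v / q + 1 / q + 1 := by ring
          _ ≤ 2 * (N * (1 / (lam * T))) + N * (1 / (lam * T)) + N * (1 / (lam * T)) := by linarith
          _ = _ := by ring
      calc (8 * (k : ℝ) + 1) * (At t).card * ((1 / v + 1) / q + 1)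
          ≤ (8 * (k : ℝ) + 1) * (Ca * (T : ℝ) ^ (b / 2)) * (4 * (N * (T : ℝ) ^ (b / 2 - 1))) := by
            have := hAtc t
            gcongr
        _ = 4 * (8 * k + 1) * Ca * (N * ((T : ℝ) ^ (b / 2) * (T : ℝ) ^ (b / 2 - 1))) := by ring
        _ = 4 * (8 * k + 1) * Ca * (N * (T : ℝ) ^ (b - 1)) := by
            rw [← Real.rpow_add hT0]
            congr 3
            ring
    calc (((Icc 1 N).filter (fun n => tt f q a n ∈ B)).card : ℝ)
        ≤ (((Sing ∪ S0) ∪ B.biUnion (fun t => (Icc 1 N).filter (fun n : ℕ =>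
          pbaQ θ (-(t : ℝ) / q) v n ∧ n % q ∈ At t))).card : ℝ) := by
          exact_mod_cast card_le_card hcover
      _ ≤ (Sing.card : ℝ) + S0.card + ∑ t ∈ B, (((Icc 1 N).filter (fun n : ℕ =>
          pbaQ θ (-(t : ℝ) / q) v n ∧ n % q ∈ At t)).card : ℝ) := by
          have h1 := card_union_le (Sing ∪ S0) (B.biUnion (fun t => (Icc 1 N).filter (fun n : ℕ =>
            pbaQ θ (-(t : ℝ) / q) v n ∧ n % q ∈ At t)))
          have h2 : (B.biUnion (fun t => (Icc 1 N).filter (fun n : ℕ =>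
            pbaQ θ (-(t : ℝ) / q) v n ∧ n % q ∈ At t))).card ≤
            ∑ t ∈ B, ((Icc 1 N).filter (fun n : ℕ =>
            pbaQ θ (-(t : ℝ) / q) v n ∧ n % q ∈ At t)).card := card_biUnion_le
          have h3 := card_union_le Sing S0
          exact_mod_cast h1.trans (Nat.add_le_add h3 h2)
      _ ≤ Cs * (N * (T : ℝ) ^ (-c)) + 2 * Cu * (N * (T : ℝ) ^ (-c)) +
          ∑ t ∈ B, 4 * (8 * k + 1) * Ca * (N * (T : ℝ) ^ (b - 1)) :=
          add_le_add (add_le_add hSingc hS0c) (sum_le_sum hterm)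
      _ = N * ((Cs + 2 * Cu) * (T : ℝ) ^ (-c) +
          4 * (8 * k + 1) * Ca * (T : ℝ) ^ (b - 1) * B.card) := by
          rw [sum_const, nsmul_eq_mul]; ring
      _ ≤ _ := by
          have g1 : 0 ≤ 4 * (8 * (k : ℝ) + 1) * Ca := by positivity
          have g2 : 0 ≤ 4 * Ca := by positivity
          have g3 : 0 ≤ 2 * Cu := by positivity
          refine mul_le_mul_of_nonneg_left (add_le_add (mul_le_mul_of_nonneg_right ?_ hTc0)
            (mul_le_mul_of_nonneg_right (mul_le_mul ?_ hpow (by positivity) (by positivity)) hB0)) hN0.le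
          · linarith
          · linarith

end EK75

end S_H75_EK_PbAlt

section S_H75_EK_Pb

/-! Module PB: the law of `t(n)` gives little mass to sparse sets. -/

open Polynomial Finset
open scoped Real BigOperators

namespace EK75

open Classical in
theorem pb (k : ℕ) (hk : 1 ≤ k) (c' : ℝ) (hc' : 0 < c') : ∃ c C : ℝ, 0 < c ∧ 0 < C ∧
    ∀ f : ℝ[X], f.natDegree = k → ∀ (N T q : ℕ) (a : ℕ → ℤ), MajD f N T q a → T ^ 4 ≤ N →
    ∀ B : Finset ℤ,
    (((Icc 1 N).filter (fun n => tt f q a n ∈ B)).card : ℝ) ≤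
      N * (C * (T : ℝ) ^ (-c) + C * (T : ℝ) ^ (c' - 1) * B.card) :=
  pb_alt k hk c' hc'

end EK75

end S_H75_EK_Pb
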