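import Mathlib
import Pool.Agent.H75.EM.L1

/-! Erdos-Kac law for integer parts of real polynomials, part L8: this file joins several modules to save build time. -/

section S_H75_EK_Vin

/-! Module VIN: Vinogradov's lemma on many multiples close to integers. -/

open Polynomial Finset
open scoped Real BigOperators

namespace EK75

/-- elementary properties of `nint` used everywhere -/
theorem nint_nonneg (x : ℝ) : 0 ≤ nint x := abs_nonneg _

theorem nint_le_half (x : ℝ) : nint x ≤ 1 / 2 := abs_sub_round x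

theorem nint_le (x : ℝ) (m : ℤ) : nint x ≤ |x - m| := round_le x m

theorem nint_add (x y : ℝ) : nint (x + y) ≤ nint x + nint y := by
  have h := nint_le (x + y) (round x + round y)
  refine h.trans ?_
  push_cast
  have : x + y - ((round x : ℝ) + (round y : ℝ)) = (x - round x) + (y - round y) := by ring
  rw [this]
  exact abs_add_le _ _

theorem nint_sub (x y : ℝ) : nint (x - y) ≤ nint x + nint y := by
  have h := nint_le (x - y) (round x - round y)
  refine h.trans ?_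
  push_cast
  have : x - y - ((round x : ℝ) - (round y : ℝ)) = (x - round x) - (y - round y) := by ring
  rw [this]
  exact abs_sub _ _

theorem nint_add_int (x : ℝ) (m : ℤ) : nint (x + m) = nint x := by
  unfold nint
  rw [round_add_intCast]
  push_cast
  congr 1
  ring

theorem nint_nat_mul (q : ℕ) (x : ℝ) : nint (q * x) ≤ q * nint x := by
  have h := nint_le ((q : ℝ) * x) ((q : ℤ) * round x)
  refine h.trans ?_
  push_cast
  have : (q : ℝ) * x - (q : ℝ) * (round x : ℝ) = (q : ℝ) * (x - round x) := by ring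
  rw [this, abs_mul, Nat.abs_cast]
  exact le_refl _

theorem nint_int_mul (q : ℤ) (x : ℝ) : nint (q * x) ≤ |(q : ℝ)| * nint x := by
  have h := nint_le ((q : ℝ) * x) (q * round x)
  refine h.trans ?_
  push_cast
  have : (q : ℝ) * x - (q : ℝ) * (round x : ℝ) = (q : ℝ) * (x - round x) := by ring
  rw [this, abs_mul]
  exact le_refl _

theorem vin_nint_mul_eq (k : ℕ) (x : ℝ) (h : (k : ℝ) * nint x ≤ 1 / 2) :
    (k : ℝ) * nint x ≤ nint (k * x) := by
  -- x = round x + t, |t| = nint x; k*x - m = (k * round x - m) + k t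
  set t := x - round x with ht
  have hx : x = round x + t := by rw [ht]; ring
  have hnx : nint x = |t| := rfl
  rw [hnx] at h ⊢
  have e1 : (k : ℝ) * x = (k : ℝ) * t + (((k : ℤ) * round x : ℤ) : ℝ) := by
    conv_lhs => rw [hx]
    push_cast; ring
  rw [e1, nint_add_int]
  have hk : (k : ℝ) * |t| = |(k : ℝ) * t| := by rw [abs_mul, Nat.abs_cast]
  rw [hk] at h ⊢
  set z := (k : ℝ) * t
  unfold nint
  by_cases hr : round z = 0
  · rw [hr]; simp
  · have h1 : (1 : ℝ) ≤ |((round z : ℤ) : ℝ)| := by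
      have : (1 : ℤ) ≤ |round z| := Int.one_le_abs hr
      exact_mod_cast this
    have h2 : |((round z : ℤ) : ℝ)| ≤ |z| + |z - round z| := by
      have : ((round z : ℤ) : ℝ) = z - (z - round z) := by ring
      rw [this]
      calc |z - (z - ↑(round z))| ≤ |z| + |z - ↑(round z)| := abs_sub _ _
        _ = _ := by ring_nf
    linarith

open Classical in
theorem vin_gap (S : Finset ℕ) (H : ℕ) (δ2 : ℝ) (hS : S ⊆ Icc 1 H) (h2 : 0 < δ2)
    (hH : 2 ≤ δ2 * H) (hc : δ2 * H ≤ (S.card : ℝ)) :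
    ∃ a ∈ S, ∃ b ∈ S, a < b ∧ ((b - a : ℕ) : ℝ) ≤ 2 / δ2 := by
  set g := ⌊2 / δ2⌋₊ with hg
  have hg1 : 2 / δ2 < (g : ℝ) + 1 := Nat.lt_floor_add_one _
  have hg2 : (g : ℝ) ≤ 2 / δ2 := Nat.floor_le (by positivity)
  have hlt : (range (H / (g + 1) + 1)).card < S.card := by
    rw [card_range]
    have h3 : (((H / (g + 1) + 1 : ℕ)) : ℝ) < (S.card : ℝ) := by
      push_cast
      have h4 : ((H / (g + 1) : ℕ) : ℝ) ≤ (H : ℝ) / ((g + 1 : ℕ) : ℝ) := Nat.cast_div_le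
      have h5 : (H : ℝ) / ((g + 1 : ℕ) : ℝ) < δ2 * H / 2 := by
        have hHpos : (0 : ℝ) < H := by
          by_contra hneg
          push Not at hneg
          nlinarith
        rw [div_lt_iff₀ (by positivity)]
        push_cast
        rw [div_lt_iff₀ h2] at hg1
        nlinarith
      linarith
    exact_mod_cast h3
  obtain ⟨a, ha, b, hb, hab, he⟩ := exists_ne_map_eq_of_card_lt_of_maps_to hlt
    (f := fun h => h / (g + 1)) (by
      intro h hh
      have := hS hh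
      rw [mem_Icc] at this
      simp only [coe_range, Set.mem_Iio]
      exact Nat.lt_succ_of_le (Nat.div_le_div_right this.2))
  have key : ∀ a b : ℕ, a < b → a / (g + 1) = b / (g + 1) → ((b - a : ℕ) : ℝ) ≤ 2 / δ2 := by
    intro a b hab he
    refine le_trans ?_ hg2
    have h6 := Nat.div_add_mod a (g + 1)
    have h7 := Nat.div_add_mod b (g + 1)
    have h8 : b % (g + 1) < g + 1 := Nat.mod_lt b (Nat.succ_pos g)
    rw [he] at h6
    have h9 : b - a ≤ g := by omega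
    exact_mod_cast h9
  rcases lt_or_gt_of_ne hab with h | h
  · exact ⟨a, ha, b, hb, h, key a b h he⟩
  · exact ⟨b, hb, a, ha, h, key b a h he.symm⟩

open Classical in
theorem vinogradov (β : ℝ) (H : ℕ) (δ1 δ2 : ℝ) (hH : 1 ≤ H) (h2 : 0 < δ2) (h2' : δ2 ≤ 1)
    (h1 : 0 ≤ δ1) (h12 : 32 * δ1 ≤ δ2)
    (hc : δ2 * H ≤ (((Icc 1 H).filter (fun h : ℕ => nint (β * h) ≤ δ1)).card : ℝ)) :
    ∃ q : ℕ, 1 ≤ q ∧ (q : ℝ) ≤ 2 / δ2 ∧ nint (q * β) * H ≤ 16 * δ1 / δ2 ^ 2 := by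
  set S := (Icc 1 H).filter (fun h : ℕ => nint (β * h) ≤ δ1) with hSdef
  have hHpos : (0 : ℝ) < H := by exact_mod_cast hH
  have hHS : ∀ h ∈ S, 1 ≤ h ∧ h ≤ H ∧ nint (β * h) ≤ δ1 := by
    intro h hh
    rw [hSdef, mem_filter, mem_Icc] at hh
    exact ⟨hh.1.1, hh.1.2, hh.2⟩
  rcases lt_or_ge (δ2 * H) 2 with hsmall | hbig
  · have hcard : 0 < (S.card : ℝ) := lt_of_lt_of_le (by positivity) hc
    have hne : S.Nonempty := by
      rw [← card_pos]; exact_mod_cast hcard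
    obtain ⟨h, hh⟩ := hne
    obtain ⟨a1, a2, a3⟩ := hHS h hh
    have hH2 : (H : ℝ) ≤ 2 / δ2 := by
      rw [le_div_iff₀ h2]; nlinarith
    refine ⟨h, a1, ?_, ?_⟩
    · exact le_trans (by exact_mod_cast a2) hH2
    · rw [mul_comm (h : ℝ) β]
      calc nint (β * h) * H ≤ δ1 * (2 / δ2) := by
            apply mul_le_mul a3 hH2 hHpos.le h1
        _ = δ1 * 2 / δ2 := by ring
        _ ≤ 16 * δ1 / δ2 ^ 2 := by
            rw [div_le_div_iff₀ h2 (by positivity)]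
            nlinarith [mul_nonneg h1 h2.le, mul_nonneg (mul_nonneg h1 h2.le) h2.le,
              mul_nonneg (mul_nonneg h1 h2.le) (sub_nonneg.2 h2')]
  · obtain ⟨a, ha, b, hb, hab, hq⟩ := vin_gap S H δ2 (filter_subset _ _) h2 hbig hc
    set q := b - a with hqdef
    have hq1 : 1 ≤ q := by omega
    have hqpos : (0 : ℝ) < q := by exact_mod_cast hq1
    set ν := nint (q * β) with hν
    have hν0 : 0 ≤ ν := nint_nonneg _
    have hν1 : ν ≤ 2 * δ1 := by
      have e : (q : ℝ) * β = β * b - β * a := by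
        rw [hqdef, Nat.cast_sub hab.le]; ring
      rw [hν, e]
      refine (nint_sub _ _).trans ?_
      linarith [(hHS a ha).2.2, (hHS b hb).2.2]
    refine ⟨q, hq1, hq, ?_⟩
    change ν * H ≤ 16 * δ1 / δ2 ^ 2
    rcases hν0.eq_or_lt with h0 | hνpos
    · rw [← h0, zero_mul]; positivity
    have hνhalf : ν ≤ 1 / 2 := nint_le_half _
    set L := ⌊1 / (2 * ν)⌋₊ with hL
    have hx1 : (1 : ℝ) ≤ 1 / (2 * ν) := by
      rw [le_div_iff₀ (by positivity)]; linarith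
    have hL1 : 1 ≤ L := by
      rw [hL, Nat.one_le_floor_iff]
      exact hx1
    have hLle : (L : ℝ) ≤ 1 / (2 * ν) := Nat.floor_le (by positivity)
    have hLge : 1 / (4 * ν) ≤ (L : ℝ) := by
      have h3 : 1 / (2 * ν) < (L : ℝ) + 1 := Nat.lt_floor_add_one _
      have h4 : (1 : ℝ) ≤ L := by exact_mod_cast hL1
      have h5 : 1 / (4 * ν) = (1 / (2 * ν)) / 2 := by field_simp; norm_num
      rw [h5]; linarith
    set K := ⌊2 * δ1 / ν⌋₊ with hK
    have hKle : (K : ℝ) ≤ 2 * δ1 / ν := Nat.floor_le (by positivity)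
    -- counting
    have hqL : 0 < q * L := Nat.mul_pos hq1 hL1
    set key : ℕ → ℕ × ℕ := fun h => (h / (q * L), h % q) with hkey
    have hmaps : ∀ h ∈ S, key h ∈ (range (H / (q * L) + 1)) ×ˢ (range q) := by
      intro h hh
      rw [mem_product, mem_range, mem_range]
      exact ⟨Nat.lt_succ_of_le (Nat.div_le_div_right (hHS h hh).2.1), Nat.mod_lt _ hq1⟩
    have hfib : ∀ y ∈ (range (H / (q * L) + 1)) ×ˢ (range q),
        (S.filter (fun h => key h = y)).card ≤ K + 1 := by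
      intro y _
      rcases (S.filter (fun h => key h = y)).eq_empty_or_nonempty with he | hne
      · rw [he]; simp
      · set F := S.filter (fun h => key h = y) with hF
        set m := F.min' hne with hm
        have hmF : m ∈ F := min'_mem _ _
        have hsub : F ⊆ (range (K + 1)).image (fun k => m + q * k) := by
          intro h hh
          have hmh : m ≤ h := min'_le _ _ hh
          have hkm : key m = y := (mem_filter.1 hmF).2
          have hkh : key h = y := (mem_filter.1 hh).2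
          have hmS : m ∈ S := (mem_filter.1 hmF).1
          have hhS : h ∈ S := (mem_filter.1 hh).1
          have hk1 : h / (q * L) = m / (q * L) ∧ h % q = m % q := by
            have := hkh.trans hkm.symm
            rw [hkey] at this
            simpa [Prod.ext_iff] using this
          have hdvd : q ∣ h - m := (Nat.modEq_iff_dvd' hmh).1 (hk1.2.symm)
          obtain ⟨k, hk⟩ := hdvd
          have hlt : h - m < q * L := by
            have h6 := Nat.div_add_mod h (q * L)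
            have h7 := Nat.div_add_mod m (q * L)
            have h8 := Nat.mod_lt h hqL
            rw [hk1.1] at h6
            omega
          have hkL : k < L := by
            rw [hk] at hlt
            exact lt_of_mul_lt_mul_left hlt (Nat.zero_le _)
          have hkK : k ≤ K := by
            rw [hK, Nat.le_floor_iff (by positivity), le_div_iff₀ hνpos]
            have h9 : (k : ℝ) * ν ≤ 1 / 2 := by
              have : (k : ℝ) ≤ L := by exact_mod_cast hkL.le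
              calc (k : ℝ) * ν ≤ (1 / (2 * ν)) * ν := by
                    apply mul_le_mul_of_nonneg_right (this.trans hLle) hνpos.le
                _ = 1 / 2 := by field_simp
            have h10 := vin_nint_mul_eq k ((q : ℝ) * β) h9
            refine h10.trans ?_
            have e : (k : ℝ) * ((q : ℝ) * β) = β * h - β * m := by
              have : (h : ℝ) = m + q * k := by
                have : h = m + q * k := by omega
                exact_mod_cast this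
              rw [this]; ring
            rw [e]
            refine (nint_sub _ _).trans ?_
            linarith [(hHS m hmS).2.2, (hHS h hhS).2.2]
          rw [mem_image]
          exact ⟨k, by rw [mem_range]; omega, by omega⟩
        calc F.card ≤ ((range (K + 1)).image (fun k => m + q * k)).card := card_le_card hsub
          _ ≤ (range (K + 1)).card := card_image_le
          _ = K + 1 := card_range _
    have hcount : S.card ≤ ((H / (q * L) + 1) * q) * (K + 1) := by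
      have := card_le_mul_card_image_of_maps_to hmaps (K + 1) hfib
      rw [card_product, card_range, card_range] at this
      linarith
    have hcountR : (S.card : ℝ) ≤ ((H / (q * L) + 1) * q) * (2 * δ1 / ν + 1) := by
      have h11 : (S.card : ℝ) ≤ ((((H / (q * L) : ℕ) : ℝ) + 1) * q) * (K + 1) := by
        exact_mod_cast hcount
      have h12 : ((H / (q * L) : ℕ) : ℝ) ≤ (H : ℝ) / ((q : ℝ) * L) := by
        have : ((H / (q * L) : ℕ) : ℝ) ≤ (H : ℝ) / ((q * L : ℕ) : ℝ) := Nat.cast_div_le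
        push_cast at this
        exact this
      refine h11.trans ?_
      apply mul_le_mul _ (by linarith) (by positivity) (by positivity)
      apply mul_le_mul_of_nonneg_right _ hqpos.le
      linarith
    have hLpos : (0 : ℝ) < L := by exact_mod_cast hL1
    have hfin : (S.card : ℝ) ≤ 16 * δ1 * H + 2 * q * δ1 / ν + q := by
      refine hcountR.trans ?_
      have h13 : ((H : ℝ) / (q * L) + 1) * q = H / L + q := by field_simp
      rw [h13]
      have h14 : (H : ℝ) / L ≤ 4 * ν * H := by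
        rw [div_le_iff₀ hLpos]
        have : 1 ≤ 4 * ν * L := by
          rw [div_le_iff₀ (by positivity)] at hLge
          linarith
        nlinarith
      have h15 : 0 ≤ 2 * δ1 / ν + 1 := by positivity
      calc (H / L + q) * (2 * δ1 / ν + 1) ≤ (4 * ν * H + q) * (2 * δ1 / ν + 1) := by
            apply mul_le_mul_of_nonneg_right _ h15
            linarith
        _ = 8 * δ1 * H + 4 * ν * H + 2 * q * δ1 / ν + q := by field_simp; ring
        _ ≤ 16 * δ1 * H + 2 * q * δ1 / ν + q := by nlinarith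
    have hmain : δ2 * H / 2 ≤ 2 * q * δ1 / ν + q := by nlinarith
    rcases le_or_gt (q : ℝ) (δ2 * H / 4) with hq4 | hq4
    · have h16 : δ2 * H / 4 ≤ 2 * q * δ1 / ν := by linarith
      rw [le_div_iff₀ hνpos] at h16
      have h17 : 2 * (q : ℝ) * δ1 ≤ 4 / δ2 * δ1 := by
        have : 2 * (q : ℝ) ≤ 4 / δ2 := by
          have : 4 / δ2 = 2 * (2 / δ2) := by ring
          linarith
        exact mul_le_mul_of_nonneg_right this h1
      rw [le_div_iff₀ (by positivity)]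
      have h18 : δ2 * H / 4 * ν ≤ 4 / δ2 * δ1 := h16.trans h17
      have h19 : δ2 * (δ2 * H / 4 * ν) ≤ δ2 * (4 / δ2 * δ1) :=
        mul_le_mul_of_nonneg_left h18 h2.le
      have h20 : δ2 * (4 / δ2 * δ1) = 4 * δ1 := by field_simp
      rw [h20] at h19
      nlinarith
    · have h21 : (H : ℝ) ≤ 8 / δ2 ^ 2 := by
        rw [le_div_iff₀ (by positivity)]
        have h22 : δ2 * H < 4 * q := by linarith
        have h23 : (q : ℝ) * δ2 ≤ 2 := by
          rw [le_div_iff₀ h2] at hq; exact hq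
        nlinarith
      calc ν * H ≤ (2 * δ1) * (8 / δ2 ^ 2) := by
            apply mul_le_mul hν1 h21 hHpos.le (by positivity)
        _ = 16 * δ1 / δ2 ^ 2 := by ring

theorem ee_add (x y : ℝ) : ee (x + y) = ee x * ee y := by
  unfold ee
  rw [← Complex.exp_add]
  congr 1
  push_cast
  ring

theorem ee_int (m : ℤ) : ee m = 1 := by
  unfold ee
  have : (2 * (π : ℂ) * ((m : ℝ) : ℂ) * Complex.I) = m * (2 * π * Complex.I) := by
    push_cast; ring
  rw [this, Complex.exp_int_mul_two_pi_mul_I]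

theorem norm_ee (x : ℝ) : ‖ee x‖ = 1 := by
  unfold ee
  have : (2 * (π : ℂ) * ((x : ℝ) : ℂ) * Complex.I) = ((2 * π * x : ℝ) : ℂ) * Complex.I := by
    push_cast; ring
  rw [this, Complex.norm_exp_ofReal_mul_I]

theorem ee_sub_le (x y : ℝ) : ‖ee x - ee y‖ ≤ 2 * π * |x - y| := by
  have h : ee x = ee y * ee (x - y) := by
    rw [← ee_add]; congr 1; ring
  have h2 : ee x - ee y = ee y * (ee (x - y) - 1) := by rw [h]; ring
  rw [h2, norm_mul, norm_ee, one_mul]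
  unfold ee
  have h3 : (2 * (π : ℂ) * ((x - y : ℝ) : ℂ) * Complex.I)
      = Complex.I * ((2 * π * (x - y) : ℝ) : ℂ) := by
    push_cast; ring
  rw [h3]
  refine (Real.norm_exp_I_mul_ofReal_sub_one_le).trans ?_
  rw [Real.norm_eq_abs, abs_mul, abs_of_pos (by positivity : (0 : ℝ) < 2 * π)]

theorem vin_norm_ee_sub_one (x : ℝ) : 4 * nint x ≤ ‖ee x - 1‖ := by
  set t := x - round x with ht
  have hx : x = t + (round x : ℤ) := by rw [ht]; ring
  have e1 : ee x = ee t := by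
    conv_lhs => rw [hx]
    rw [ee_add, ee_int, mul_one]
  have hn : nint x = |t| := rfl
  rw [e1, hn]
  have ht2 : |t| ≤ 1 / 2 := abs_sub_round x
  have e2 : ‖ee t - 1‖ = 2 * |Real.sin (π * t)| := by
    have h3 : ee t = Complex.exp (Complex.I * ((2 * π * t : ℝ) : ℂ)) := by
      unfold ee; congr 1; push_cast; ring
    rw [h3, Complex.norm_exp_I_mul_ofReal_sub_one]
    rw [Real.norm_eq_abs, abs_mul, abs_of_pos (by norm_num : (0 : ℝ) < 2)]
    congr 3
    ring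
  rw [e2]
  have h4 : 2 * |t| ≤ |Real.sin (π * t)| := by
    have h5 : |Real.sin (π * t)| = Real.sin (π * |t|) := by
      rcases le_or_gt 0 t with h | h
      · rw [abs_of_nonneg h, abs_of_nonneg]
        apply Real.sin_nonneg_of_nonneg_of_le_pi (by positivity)
        rw [abs_of_nonneg h] at ht2
        nlinarith [Real.pi_pos]
      · rw [abs_of_neg h, mul_neg, Real.sin_neg, abs_of_nonpos]
        have : 0 ≤ Real.sin (π * (-t)) := by
          apply Real.sin_nonneg_of_nonneg_of_le_pi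
          · nlinarith [Real.pi_pos]
          · rw [abs_of_neg h] at ht2
            nlinarith [Real.pi_pos]
        rw [mul_neg, Real.sin_neg] at this
        linarith
    rw [h5]
    have h6 := Real.mul_le_sin (x := π * |t|) (by positivity) (by nlinarith [Real.pi_pos])
    calc 2 * |t| = 2 / π * (π * |t|) := by field_simp
      _ ≤ _ := h6
  linarith

/-- geometric sum -/
theorem geom_ee (β : ℝ) (M : ℕ) (x0 : ℝ) :
    ‖∑ n ∈ range M, ee (x0 + β * n)‖ * nint β ≤ 1 / 2 := by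
  rcases (nint_nonneg β).eq_or_lt with h0 | hpos
  · rw [← h0, mul_zero]; norm_num
  have hlow := vin_norm_ee_sub_one β
  have hne : ee β ≠ 1 := by
    intro h
    rw [h, sub_self, norm_zero] at hlow
    linarith
  have hpow : ∀ n : ℕ, ee (β * n) = (ee β) ^ n := by
    intro n
    induction n with
    | zero => simp [ee]
    | succ n ih =>
      rw [pow_succ, ← ih, ← ee_add]
      congr 1
      push_cast
      ring
  have hsum : ∑ n ∈ range M, ee (x0 + β * n) = ee x0 * (((ee β) ^ M - 1) / (ee β - 1)) := by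
    rw [← geom_sum_eq hne, mul_sum]
    apply sum_congr rfl
    intro n _
    rw [ee_add, hpow]
  rw [hsum, norm_mul, norm_ee, one_mul, norm_div]
  have hnum : ‖(ee β) ^ M - 1‖ ≤ 2 := by
    refine (norm_sub_le _ _).trans ?_
    rw [norm_pow, norm_ee, one_pow, norm_one]
    norm_num
  have hdpos : 0 < ‖ee β - 1‖ := norm_pos_iff.2 (sub_ne_zero.2 hne)
  rw [div_mul_eq_mul_div, div_le_iff₀ hdpos]
  have hn0 : 0 ≤ ‖(ee β) ^ M - 1‖ := norm_nonneg _
  nlinarith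

end EK75

end S_H75_EK_Vin

section S_H75_EK_Weyl

/-! Module WEYL: inverse Weyl inequality for all coefficients. -/

open Polynomial Finset
open scoped Real BigOperators

namespace EK75

/-! ### polynomial bounds in `1/κ` -/

/-- `(C/κ)^C` -/
noncomputable def wBd (κ : ℝ) (C : ℕ) : ℝ := ((C : ℝ) / κ) ^ C

theorem weyl_one_le_div {κ : ℝ} (h0 : 0 < κ) (h1 : κ ≤ 1) {C : ℕ} (hC : 1 ≤ C) :
    1 ≤ (C : ℝ) / κ := by
  rw [le_div_iff₀ h0, one_mul]
  exact h1.trans (by exact_mod_cast hC)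

theorem weyl_bd_one {κ : ℝ} (h0 : 0 < κ) (h1 : κ ≤ 1) {C : ℕ} (hC : 1 ≤ C) : 1 ≤ wBd κ C :=
  one_le_pow₀ (weyl_one_le_div h0 h1 hC)

theorem weyl_bd_mul {κ : ℝ} (h0 : 0 < κ) (h1 : κ ≤ 1) {C D : ℕ} (hC : 1 ≤ C) (hD : 1 ≤ D) :
    wBd κ C * wBd κ D ≤ wBd κ (C + D) := by
  unfold wBd
  rw [pow_add]
  have hC0 := weyl_one_le_div h0 h1 hC
  have hD0 := weyl_one_le_div h0 h1 hD
  apply mul_le_mul
  · apply pow_le_pow_left₀ (by linarith)
    apply div_le_div_of_nonneg_right _ h0.le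
    push_cast
    have : (0 : ℝ) ≤ D := Nat.cast_nonneg _
    linarith
  · apply pow_le_pow_left₀ (by linarith)
    apply div_le_div_of_nonneg_right _ h0.le
    push_cast
    have : (0 : ℝ) ≤ C := Nat.cast_nonneg _
    linarith
  · positivity
  · positivity

theorem weyl_bd_mono {κ : ℝ} (h0 : 0 < κ) (h1 : κ ≤ 1) {C D : ℕ} (hC : 1 ≤ C) (hD : C ≤ D) :
    wBd κ C ≤ wBd κ D := by
  unfold wBd
  have hC0 := weyl_one_le_div h0 h1 hC
  calc ((C : ℝ) / κ) ^ C ≤ ((D : ℝ) / κ) ^ C := by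
        apply pow_le_pow_left₀ (by linarith)
        apply div_le_div_of_nonneg_right _ h0.le
        exact_mod_cast hD
    _ ≤ ((D : ℝ) / κ) ^ D := pow_le_pow_right₀ (weyl_one_le_div h0 h1 (hC.trans hD)) hD

/-- polynomially bounded in `1/κ`, nonnegative -/
def PBd (f : ℝ → ℝ) : Prop :=
  ∃ C : ℕ, 1 ≤ C ∧ ∀ κ : ℝ, 0 < κ → κ ≤ 1 → 0 ≤ f κ ∧ f κ ≤ wBd κ C

theorem PBd.mono {f g : ℝ → ℝ} (hf : PBd f) (h0 : ∀ κ, 0 < κ → κ ≤ 1 → 0 ≤ g κ)
    (h1 : ∀ κ, 0 < κ → κ ≤ 1 → g κ ≤ f κ) : PBd g := by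
  obtain ⟨C, hC, h⟩ := hf
  exact ⟨C, hC, fun κ hκ hκ1 => ⟨h0 κ hκ hκ1, (h1 κ hκ hκ1).trans (h κ hκ hκ1).2⟩⟩

theorem PBd.mul {f g : ℝ → ℝ} (hf : PBd f) (hg : PBd g) : PBd fun κ => f κ * g κ := by
  obtain ⟨C, hC, h⟩ := hf
  obtain ⟨D, hD, h'⟩ := hg
  refine ⟨C + D, by omega, fun κ hκ hκ1 => ?_⟩
  obtain ⟨a, b⟩ := h κ hκ hκ1
  obtain ⟨a', b'⟩ := h' κ hκ hκ1
  refine ⟨mul_nonneg a a', ?_⟩
  exact (mul_le_mul b b' a' (by linarith [weyl_bd_one hκ hκ1 hC])).trans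
    (weyl_bd_mul hκ hκ1 hC hD)

theorem PBd.add {f g : ℝ → ℝ} (hf : PBd f) (hg : PBd g) : PBd fun κ => f κ + g κ := by
  obtain ⟨C, hC, h⟩ := hf
  obtain ⟨D, hD, h'⟩ := hg
  refine ⟨C + D + 2, by omega, fun κ hκ hκ1 => ?_⟩
  obtain ⟨a, b⟩ := h κ hκ hκ1
  obtain ⟨a', b'⟩ := h' κ hκ hκ1
  refine ⟨add_nonneg a a', ?_⟩
  have h1 := weyl_bd_one hκ hκ1 hC
  have h2 := weyl_bd_one hκ hκ1 hD
  have h3 : wBd κ C * wBd κ D ≤ wBd κ (C + D) := weyl_bd_mul hκ hκ1 hC hD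
  have h4 : wBd κ (C + D) * wBd κ 2 ≤ wBd κ (C + D + 2) := weyl_bd_mul hκ hκ1 (by omega) (by omega)
  have h5 : (2 : ℝ) ≤ wBd κ 2 := by
    unfold wBd
    have h6 : (2 : ℝ) ≤ (2 : ℝ) / κ := by
      rw [le_div_iff₀ hκ]; linarith
    push_cast
    nlinarith
  have h7 : wBd κ C + wBd κ D ≤ (wBd κ C * wBd κ D) * 2 := by nlinarith
  have h8 : (wBd κ C * wBd κ D) * 2 ≤ wBd κ (C + D) * wBd κ 2 :=
    mul_le_mul h3 h5 (by norm_num) (by linarith [weyl_bd_one hκ hκ1 (C := C + D) (by omega)])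
  have h9 : f κ + g κ ≤ wBd κ C + wBd κ D := add_le_add b b'
  exact h9.trans (h7.trans (h8.trans h4))

theorem PBd.pow {f : ℝ → ℝ} (hf : PBd f) (n : ℕ) : PBd fun κ => f κ ^ n := by
  induction n with
  | zero =>
    refine ⟨1, le_rfl, fun κ hκ hκ1 => ?_⟩
    simp only [pow_zero]
    exact ⟨zero_le_one, weyl_bd_one hκ hκ1 le_rfl⟩
  | succ n ih =>
    have := ih.mul hf
    simpa only [pow_succ] using this

theorem PBd.const {c : ℝ} (hc : 0 ≤ c) : PBd fun _ => c := by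
  refine ⟨⌈c⌉₊ + 1, by omega, fun κ hκ hκ1 => ⟨hc, ?_⟩⟩
  unfold wBd
  have h1 := weyl_one_le_div hκ hκ1 (C := ⌈c⌉₊ + 1) (by omega)
  calc c ≤ (⌈c⌉₊ : ℝ) := Nat.le_ceil c
    _ ≤ ((⌈c⌉₊ + 1 : ℕ) : ℝ) := by push_cast; linarith
    _ ≤ ((⌈c⌉₊ + 1 : ℕ) : ℝ) / κ := by
        rw [le_div_iff₀ hκ]
        have : (0 : ℝ) ≤ ((⌈c⌉₊ + 1 : ℕ) : ℝ) := Nat.cast_nonneg _
        nlinarith
    _ ≤ (((⌈c⌉₊ + 1 : ℕ) : ℝ) / κ) ^ (⌈c⌉₊ + 1) := le_self_pow₀ h1 (by omega)

theorem PBd.inv : PBd fun κ => κ⁻¹ := by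
  refine ⟨1, le_rfl, fun κ hκ _ => ⟨by positivity, ?_⟩⟩
  unfold wBd
  simp

theorem PBd.subst {f u : ℝ → ℝ} (hf : PBd f) (hu : ∀ κ, 0 < κ → κ ≤ 1 → 0 < u κ ∧ u κ ≤ 1)
    (hg : PBd fun κ => (u κ)⁻¹) : PBd fun κ => f (u κ) := by
  obtain ⟨C, hC, h⟩ := hf
  have h1 : PBd fun κ => ((C : ℝ) * (u κ)⁻¹) ^ C :=
    ((PBd.const (Nat.cast_nonneg C)).mul hg).pow C
  refine h1.mono (fun κ h0 h1 => (h _ (hu κ h0 h1).1 (hu κ h0 h1).2).1) fun κ h0 h1 => ?_
  have := (h _ (hu κ h0 h1).1 (hu κ h0 h1).2).2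
  rw [← div_eq_mul_inv]
  exact this

/-! ### elementary lemmas -/

theorem weyl_nint_zero : nint 0 = 0 := by simp [nint]

theorem weyl_nint_sum {ι : Type*} (s : Finset ι) (f : ι → ℝ) :
    nint (∑ i ∈ s, f i) ≤ ∑ i ∈ s, nint (f i) := by
  classical
  induction s using Finset.induction_on with
  | empty => simp [weyl_nint_zero]
  | insert a s ha ih =>
    rw [Finset.sum_insert ha, Finset.sum_insert ha]
    exact (nint_add _ _).trans (by linarith)

/-- van der Corput identity -/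
theorem weyl_vdc (a : ℕ → ℂ) (N : ℕ) :
    (‖∑ n ∈ Icc 1 N, a n‖ ^ 2 : ℝ) = ∑ n ∈ Icc 1 N, ‖a n‖ ^ 2 +
      2 * (∑ h ∈ Ico 1 N, ∑ n ∈ Icc 1 (N - h), a (n + h) * (starRingEnd ℂ) (a n)).re := by
  induction N with
  | zero => simp
  | succ N ih =>
    rw [Finset.sum_Icc_succ_top (by omega), Finset.sum_Icc_succ_top (by omega)]
    have h1 : ∑ h ∈ Ico 1 (N + 1), ∑ n ∈ Icc 1 (N + 1 - h), a (n + h) * (starRingEnd ℂ) (a n) =
        ∑ h ∈ Ico 1 N, ∑ n ∈ Icc 1 (N - h), a (n + h) * (starRingEnd ℂ) (a n) +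
        a (N + 1) * (starRingEnd ℂ) (∑ n ∈ Icc 1 N, a n) := by
      have h2 : ∑ h ∈ Ico 1 (N + 1), ∑ n ∈ Icc 1 (N + 1 - h), a (n + h) * (starRingEnd ℂ) (a n) =
          ∑ h ∈ Ico 1 (N + 1), (∑ n ∈ Icc 1 (N - h), a (n + h) * (starRingEnd ℂ) (a n) +
            a (N + 1) * (starRingEnd ℂ) (a (N + 1 - h))) := by
        apply Finset.sum_congr rfl
        intro h hh
        rw [Finset.mem_Ico] at hh
        have e1 : N + 1 - h = (N - h) + 1 := by omega
        rw [e1, Finset.sum_Icc_succ_top (by omega)]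
        have e2 : N - h + 1 + h = N + 1 := by omega
        rw [e2]
      rw [h2, Finset.sum_add_distrib]
      congr 1
      · rcases Nat.eq_zero_or_pos N with h0 | h0
        · subst h0; simp
        · rw [Finset.sum_Ico_succ_top (by omega)]
          simp
      · rw [map_sum, Finset.mul_sum]
        apply Finset.sum_bij' (fun h _ => N + 1 - h) (fun n _ => N + 1 - n)
        · intro h hh
          rw [Finset.mem_Ico] at hh
          rw [Finset.mem_Icc]
          omega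
        · intro n hn
          rw [Finset.mem_Icc] at hn
          rw [Finset.mem_Ico]
          omega
        · intro h hh
          rw [Finset.mem_Ico] at hh
          omega
        · intro n hn
          rw [Finset.mem_Icc] at hn
          omega
        · intro h _
          rfl
    rw [h1, Complex.add_re, mul_add]
    set S := ∑ n ∈ Icc 1 N, a n with hS
    have h3 : (‖S + a (N + 1)‖ ^ 2 : ℝ) = ‖S‖ ^ 2 + ‖a (N + 1)‖ ^ 2 +
        2 * (a (N + 1) * (starRingEnd ℂ) S).re := by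
      rw [← Complex.normSq_eq_norm_sq, ← Complex.normSq_eq_norm_sq, ← Complex.normSq_eq_norm_sq,
        Complex.normSq_add]
      congr 2
      rw [← Complex.conj_re (S * _)]
      simp [mul_comm]
    rw [h3, ih]
    ring

theorem weyl_vdc_le (a : ℕ → ℂ) (ha : ∀ n, ‖a n‖ = 1) (N : ℕ) :
    (‖∑ n ∈ Icc 1 N, a n‖ ^ 2 : ℝ) ≤ N +
      2 * ∑ h ∈ Ico 1 N, ‖∑ n ∈ Icc 1 (N - h), a (n + h) * (starRingEnd ℂ) (a n)‖ := by
  rw [weyl_vdc]
  apply add_le_add
  · simp [ha]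
  · apply mul_le_mul_of_nonneg_left _ (by norm_num)
    exact (Complex.re_le_norm _).trans (norm_sum_le _ _)

/-- affine substitution -/
theorem weyl_affine (k : ℕ) (γ : ℕ → ℝ) (x0 q m : ℝ) :
    ∑ j ∈ Icc 1 k, γ j * (x0 + q * m) ^ j = (∑ j ∈ Icc 1 k, γ j * x0 ^ j) +
      ∑ i ∈ Icc 1 k, (q ^ i * ∑ j ∈ Icc i k, (j.choose i : ℝ) * γ j * x0 ^ (j - i)) * m ^ i := by
  have h1 : ∀ j ∈ Icc 1 k, γ j * (x0 + q * m) ^ j = γ j * x0 ^ j +
      ∑ i ∈ Icc 1 j, q ^ i * ((j.choose i : ℝ) * γ j * x0 ^ (j - i)) * m ^ i := by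
    intro j hj
    rw [add_comm x0, add_pow, Finset.range_eq_Ico, Finset.sum_eq_sum_Ico_succ_bot (by omega),
      mul_add]
    congr 1
    · simp
    · rw [Finset.mul_sum]
      apply Finset.sum_congr
      · ext i
        simp only [Finset.mem_Ico, Finset.mem_Icc]
        omega
      · intro i _
        rw [mul_pow]
        ring
  rw [Finset.sum_congr rfl h1, Finset.sum_add_distrib]
  congr 1
  have h2 : ∑ j ∈ Icc 1 k, ∑ i ∈ Icc 1 j, q ^ i * ((j.choose i : ℝ) * γ j * x0 ^ (j - i)) * m ^ i =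
      ∑ i ∈ Icc 1 k, ∑ j ∈ Icc i k, q ^ i * ((j.choose i : ℝ) * γ j * x0 ^ (j - i)) * m ^ i := by
    apply Finset.sum_comm'
    intro j i
    simp only [Finset.mem_Icc]
    omega
  rw [h2]
  apply Finset.sum_congr rfl
  intro i _
  rw [Finset.mul_sum, Finset.sum_mul]

/-- shifting the range of summation -/
theorem weyl_shift (a : ℕ → ℂ) (ha : ∀ n, ‖a n‖ = 1) (N d : ℕ) :
    ‖∑ n ∈ Icc 1 N, a n - ∑ n ∈ Icc 1 N, a (n + d)‖ ≤ 2 * d := by
  induction d with
  | zero => simp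
  | succ d ih =>
    have h1 : ∑ n ∈ Icc 1 N, a (n + d) - ∑ n ∈ Icc 1 N, a (n + (d + 1)) =
        a (1 + d) - a (N + 1 + d) := by
      clear ih
      induction N with
      | zero => simp
      | succ N ihN =>
        rw [Finset.sum_Icc_succ_top (by omega), Finset.sum_Icc_succ_top (by omega)]
        have e1 : N + 1 + (d + 1) = N + 1 + 1 + d := by omega
        rw [e1]
        linear_combination ihN
    have h2 : ‖∑ n ∈ Icc 1 N, a (n + d) - ∑ n ∈ Icc 1 N, a (n + (d + 1))‖ ≤ 2 := by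
      rw [h1]
      refine (norm_sub_le _ _).trans ?_
      rw [ha, ha]; norm_num
    have h3 : ∑ n ∈ Icc 1 N, a n - ∑ n ∈ Icc 1 N, a (n + (d + 1)) =
        (∑ n ∈ Icc 1 N, a n - ∑ n ∈ Icc 1 N, a (n + d)) +
        (∑ n ∈ Icc 1 N, a (n + d) - ∑ n ∈ Icc 1 N, a (n + (d + 1))) := by ring
    rw [h3]
    refine (norm_add_le _ _).trans ?_
    push_cast
    linarith

/-- some shifted block sum is large -/
theorem weyl_block (a : ℕ → ℂ) (ha : ∀ n, ‖a n‖ = 1) (N M q : ℕ) (hN : 1 ≤ N) (κ : ℝ)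
    (hS : κ * N ≤ ‖∑ n ∈ Icc 1 N, a n‖) :
    ∃ n0 ∈ Icc 1 N, M * (κ - 2 * q * M / N) ≤ ‖∑ m ∈ Icc 1 M, a (n0 + q * m)‖ := by
  have hN0 : (0 : ℝ) < N := by exact_mod_cast hN
  by_contra hcon
  push Not at hcon
  have h1 : ‖∑ n ∈ Icc 1 N, ∑ m ∈ Icc 1 M, a (n + q * m)‖ < N * (M * (κ - 2 * q * M / N)) := by
    calc ‖∑ n ∈ Icc 1 N, ∑ m ∈ Icc 1 M, a (n + q * m)‖
        ≤ ∑ n ∈ Icc 1 N, ‖∑ m ∈ Icc 1 M, a (n + q * m)‖ := norm_sum_le _ _
      _ < ∑ _n ∈ Icc 1 N, M * (κ - 2 * q * M / N) := by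
          apply Finset.sum_lt_sum_of_nonempty
          · exact ⟨1, by simp [hN]⟩
          · exact hcon
      _ = N * (M * (κ - 2 * q * M / N)) := by simp
  have h2 : ‖(M : ℂ) * ∑ n ∈ Icc 1 N, a n - ∑ n ∈ Icc 1 N, ∑ m ∈ Icc 1 M, a (n + q * m)‖ ≤
      M * (2 * (q * M)) := by
    have e1 : (M : ℂ) * ∑ n ∈ Icc 1 N, a n - ∑ n ∈ Icc 1 N, ∑ m ∈ Icc 1 M, a (n + q * m) =
        ∑ m ∈ Icc 1 M, (∑ n ∈ Icc 1 N, a n - ∑ n ∈ Icc 1 N, a (n + q * m)) := by
      rw [Finset.sum_sub_distrib, Finset.sum_comm]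
      simp
    rw [e1]
    refine (norm_sum_le _ _).trans ?_
    calc ∑ m ∈ Icc 1 M, ‖∑ n ∈ Icc 1 N, a n - ∑ n ∈ Icc 1 N, a (n + q * m)‖
        ≤ ∑ _m ∈ Icc 1 M, (2 * (q * M) : ℝ) := by
          apply Finset.sum_le_sum
          intro m hm
          rw [Finset.mem_Icc] at hm
          refine (weyl_shift a ha N (q * m)).trans ?_
          have : (m : ℝ) ≤ M := by exact_mod_cast hm.2
          push_cast
          have hq : (0 : ℝ) ≤ q := Nat.cast_nonneg _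
          nlinarith
      _ = M * (2 * (q * M)) := by simp
  have h3 : M * ‖∑ n ∈ Icc 1 N, a n‖ = ‖(M : ℂ) * ∑ n ∈ Icc 1 N, a n‖ := by
    rw [norm_mul]; simp
  have h4 : ‖(M : ℂ) * ∑ n ∈ Icc 1 N, a n‖ ≤
      ‖(M : ℂ) * ∑ n ∈ Icc 1 N, a n - ∑ n ∈ Icc 1 N, ∑ m ∈ Icc 1 M, a (n + q * m)‖ +
      ‖∑ n ∈ Icc 1 N, ∑ m ∈ Icc 1 M, a (n + q * m)‖ := by
    have := norm_add_le ((M : ℂ) * ∑ n ∈ Icc 1 N, a n -
      ∑ n ∈ Icc 1 N, ∑ m ∈ Icc 1 M, a (n + q * m)) (∑ n ∈ Icc 1 N, ∑ m ∈ Icc 1 M, a (n + q * m))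
    rwa [sub_add_cancel] at this
  have h5 : (M : ℝ) * (κ * N) ≤ M * ‖∑ n ∈ Icc 1 N, a n‖ :=
    mul_le_mul_of_nonneg_left hS (Nat.cast_nonneg _)
  have h6 : (N : ℝ) * (M * (κ - 2 * q * M / N)) = M * (κ * N) - M * (2 * (q * M)) := by
    field_simp
  rw [h6] at h1
  linarith

theorem weyl_conj_ee (x : ℝ) : (starRingEnd ℂ) (ee x) = ee (-x) := by
  unfold ee
  rw [← Complex.exp_conj]
  congr 1
  simp only [map_mul, Complex.conj_ofReal, Complex.conj_I, Complex.ofReal_neg]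
  have h2 : (starRingEnd ℂ) (2 : ℂ) = 2 := Complex.conj_ofReal 2
  rw [h2]
  ring

/-- the inverse Weyl inequality with a polynomially bounded function -/
def WW (k : ℕ) : Prop := ∃ f : ℝ → ℝ, PBd f ∧ ∀ (γ : ℕ → ℝ) (N : ℕ) (κ : ℝ), 1 ≤ N → 0 < κ →
    κ ≤ 1 → κ * N ≤ ‖∑ n ∈ Icc 1 N, ee (∑ j ∈ Icc 1 k, γ j * (n : ℝ) ^ j)‖ →
    ∃ q : ℕ, 1 ≤ q ∧ (q : ℝ) ≤ f κ ∧ ∀ j ∈ Icc 1 k, nint (q * γ j) * (N : ℝ) ^ j ≤ f κ

/-- coefficients of `g(n+h) - g(n)` -/
noncomputable def weylD (k : ℕ) (γ : ℕ → ℝ) (h : ℝ) (i : ℕ) : ℝ :=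
  (∑ j ∈ Icc i (k + 1), (j.choose i : ℝ) * γ j * h ^ (j - i)) - γ i

theorem weylD_top (k : ℕ) (γ : ℕ → ℝ) (h : ℝ) : weylD k γ h (k + 1) = 0 := by
  unfold weylD
  simp

theorem weylD_lead (k : ℕ) (γ : ℕ → ℝ) (h : ℝ) :
    weylD k γ h k = ((k + 1 : ℕ) : ℝ) * γ (k + 1) * h := by
  unfold weylD
  rw [Finset.sum_Icc_succ_top (by omega)]
  simp

theorem weylD_eq (k : ℕ) (γ : ℕ → ℝ) (h n : ℝ) :
    ∑ j ∈ Icc 1 (k + 1), γ j * (n + h) ^ j - ∑ j ∈ Icc 1 (k + 1), γ j * n ^ j =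
      (∑ j ∈ Icc 1 (k + 1), γ j * h ^ j) + ∑ i ∈ Icc 1 k, weylD k γ h i * n ^ i := by
  have h1 := weyl_affine (k + 1) γ h 1 n
  have h2 : ∑ j ∈ Icc 1 (k + 1), γ j * (n + h) ^ j = ∑ j ∈ Icc 1 (k + 1), γ j * (h + 1 * n) ^ j := by
    apply Finset.sum_congr rfl
    intro j _
    rw [one_mul, add_comm n h]
  have h3 : ∑ i ∈ Icc 1 k, weylD k γ h i * n ^ i = ∑ i ∈ Icc 1 (k + 1), weylD k γ h i * n ^ i := by
    rw [Finset.sum_Icc_succ_top (by omega), weylD_top]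
    ring
  rw [h2, h1, h3, add_sub_assoc, ← Finset.sum_sub_distrib]
  congr 1
  apply Finset.sum_congr rfl
  intro i _
  unfold weylD
  ring

theorem weyl_T (k : ℕ) (γ : ℕ → ℝ) (N h : ℕ) :
    ‖∑ n ∈ Icc 1 (N - h), ee (∑ j ∈ Icc 1 (k + 1), γ j * (((n + h : ℕ) : ℝ)) ^ j) *
      (starRingEnd ℂ) (ee (∑ j ∈ Icc 1 (k + 1), γ j * (n : ℝ) ^ j))‖ =
    ‖∑ n ∈ Icc 1 (N - h), ee (∑ i ∈ Icc 1 k, weylD k γ h i * (n : ℝ) ^ i)‖ := by
  have h1 : ∀ n : ℕ, ee (∑ j ∈ Icc 1 (k + 1), γ j * (((n + h : ℕ) : ℝ)) ^ j) *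
      (starRingEnd ℂ) (ee (∑ j ∈ Icc 1 (k + 1), γ j * (n : ℝ) ^ j)) =
      ee (∑ j ∈ Icc 1 (k + 1), γ j * (h : ℝ) ^ j) *
        ee (∑ i ∈ Icc 1 k, weylD k γ h i * (n : ℝ) ^ i) := by
    intro n
    rw [weyl_conj_ee, ← ee_add, ← ee_add, ← weylD_eq]
    congr 1
    push_cast
    ring
  rw [Finset.sum_congr rfl fun n _ => h1 n, ← Finset.mul_sum, norm_mul, norm_ee, one_mul]

theorem weyl_sum_le (s : Finset ℕ) (f : ℕ → ℝ) : ‖∑ n ∈ s, ee (f n)‖ ≤ s.card := by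
  refine (norm_sum_le _ _).trans ?_
  simp [norm_ee]

theorem weyl_lead (k : ℕ) (hk : 1 ≤ k) (ih : WW k) :
    ∃ f : ℝ → ℝ, PBd f ∧ ∀ (γ : ℕ → ℝ) (N : ℕ) (κ : ℝ), 1 ≤ N → 0 < κ →
    κ ≤ 1 → κ * N ≤ ‖∑ n ∈ Icc 1 N, ee (∑ j ∈ Icc 1 (k + 1), γ j * (n : ℝ) ^ j)‖ →
    ∃ q : ℕ, 1 ≤ q ∧ (q : ℝ) ≤ f κ ∧ nint (q * γ (k + 1)) * (N : ℝ) ^ (k + 1) ≤ f κ := by
  classical
  obtain ⟨f0, hf0, hW⟩ := ih
  -- the functions
  have hsub : PBd fun κ => f0 (κ ^ 2 / 8) + 1 := by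
    apply PBd.add _ (PBd.const zero_le_one)
    apply PBd.subst hf0 (u := fun κ => κ ^ 2 / 8)
    · intro κ h0 h1
      refine ⟨by positivity, ?_⟩
      have : κ ^ 2 ≤ 1 := pow_le_one₀ h0.le h1
      linarith
    · refine ((PBd.const (c := 8) (by norm_num)).mul (PBd.inv.pow 2)).mono ?_ ?_
      · intro κ h0 _; positivity
      · intro κ h0 _
        rw [inv_div, div_eq_mul_inv, inv_pow]
  set B1 : ℝ → ℝ := fun κ => f0 (κ ^ 2 / 8) + 1 with hB1
  set Y : ℝ → ℝ := fun κ => 256 * (B1 κ) ^ 2 * (κ⁻¹) ^ 2 * (8 * (κ⁻¹) ^ 2) ^ k with hY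
  have hYB : PBd Y := by
    exact ((((PBd.const (c := 256) (by norm_num)).mul (hsub.pow 2)).mul (PBd.inv.pow 2)).mul
      (((PBd.const (c := 8) (by norm_num)).mul (PBd.inv.pow 2)).pow k))
  set f : ℝ → ℝ := fun κ => (Y κ) ^ (k + 1) + 1 +
    16 * (κ⁻¹) ^ 2 * B1 κ * B1 κ * (k + 1) +
    16 * B1 κ * (8 * (κ⁻¹) ^ 2) ^ k * (8 * B1 κ * (κ⁻¹) ^ 2) ^ 2 with hf
  have hfB : PBd f := by
    apply PBd.add
    · apply PBd.add
      · exact (hYB.pow (k + 1)).add (PBd.const zero_le_one)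
      · exact (((((PBd.const (c := 16) (by norm_num)).mul (PBd.inv.pow 2)).mul hsub).mul
          hsub).mul (PBd.const (by positivity)))
    · exact ((((PBd.const (c := 16) (by norm_num)).mul hsub).mul
        (((PBd.const (c := 8) (by norm_num)).mul (PBd.inv.pow 2)).pow k)).mul
        ((((PBd.const (c := 8) (by norm_num)).mul hsub).mul (PBd.inv.pow 2)).pow 2))
  refine ⟨f, hfB, ?_⟩
  intro γ N κ hN hκ hκ1 hS
  have hN0 : (0 : ℝ) < N := by exact_mod_cast hN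
  have hN1 : (1 : ℝ) ≤ N := by exact_mod_cast hN
  have hκ' : 0 < κ ^ 2 / 8 := by positivity
  have hκ'1 : κ ^ 2 / 8 ≤ 1 := by
    have : κ ^ 2 ≤ 1 := pow_le_one₀ hκ.le hκ1
    linarith
  have hB1pos : 1 ≤ B1 κ := by
    obtain ⟨C, hC, h⟩ := hf0
    have := (h _ hκ' hκ'1).1
    simp only [hB1]
    linarith
  have hB0 : 0 < B1 κ := by linarith
  have hYpos : 0 ≤ Y κ := by simp only [hY]; positivity
  have hinv1 : 1 ≤ κ⁻¹ := (one_le_inv₀ hκ).mpr hκ1
  have hterm2 : 0 ≤ 16 * (κ⁻¹) ^ 2 * B1 κ * B1 κ * (k + 1) := by positivity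
  have hterm3 : 0 ≤ 16 * B1 κ * (8 * (κ⁻¹) ^ 2) ^ k * (8 * B1 κ * (κ⁻¹) ^ 2) ^ 2 := by positivity
  by_cases hsmall : (N : ℝ) ≤ Y κ
  · refine ⟨1, le_rfl, ?_, ?_⟩
    · have : 0 ≤ (Y κ) ^ (k + 1) := by positivity
      simp only [hf]
      push_cast
      linarith
    · have h1 : nint (((1 : ℕ) : ℝ) * γ (k + 1)) ≤ 1 :=
        (nint_le_half (((1 : ℕ) : ℝ) * γ (k + 1))).trans (by norm_num)
      have h2 : (N : ℝ) ^ (k + 1) ≤ (Y κ) ^ (k + 1) := pow_le_pow_left₀ hN0.le hsmall _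
      have h3 : nint (((1 : ℕ) : ℝ) * γ (k + 1)) * (N : ℝ) ^ (k + 1) ≤ 1 * (Y κ) ^ (k + 1) :=
        mul_le_mul h1 h2 (by positivity) zero_le_one
      refine h3.trans ?_
      simp only [hf]
      linarith
  push Not at hsmall
  -- notation
  set T : ℕ → ℝ := fun h =>
    ‖∑ n ∈ Icc 1 (N - h), ee (∑ i ∈ Icc 1 k, weylD k γ h i * (n : ℝ) ^ i)‖ with hT
  have hTle : ∀ h, T h ≤ ((N - h : ℕ) : ℝ) := by
    intro h
    simp only [hT]
    refine (weyl_sum_le _ _).trans ?_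
    simp
  have hTN : ∀ h, T h ≤ N := by
    intro h
    refine (hTle h).trans ?_
    exact_mod_cast Nat.sub_le N h
  -- Weyl differencing
  have hvdc : (κ * N) ^ 2 ≤ N + 2 * ∑ h ∈ Ico 1 N, T h := by
    have h1 := weyl_vdc_le (fun n => ee (∑ j ∈ Icc 1 (k + 1), γ j * (n : ℝ) ^ j))
      (fun n => norm_ee _) N
    have h2 : (κ * N) ^ 2 ≤ ‖∑ n ∈ Icc 1 N, ee (∑ j ∈ Icc 1 (k + 1), γ j * (n : ℝ) ^ j)‖ ^ 2 :=
      pow_le_pow_left₀ (by positivity) hS 2
    refine h2.trans (h1.trans ?_)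
    apply add_le_add le_rfl
    apply mul_le_mul_of_nonneg_left _ (by norm_num)
    apply Finset.sum_le_sum
    intro h _
    exact (weyl_T k γ N h).le
  set 𝓗 := (Ico 1 N).filter (fun h => κ ^ 2 / 8 * N ≤ T h) with h𝓗
  have hsumT : ∑ h ∈ Ico 1 N, T h ≤ 𝓗.card * N + κ ^ 2 / 8 * N * N := by
    rw [← Finset.sum_filter_add_sum_filter_not (Ico 1 N) (fun h => κ ^ 2 / 8 * N ≤ T h)]
    apply add_le_add
    · calc ∑ h ∈ 𝓗, T h ≤ ∑ _h ∈ 𝓗, (N : ℝ) := Finset.sum_le_sum fun h _ => hTN h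
        _ = 𝓗.card * N := by simp
    · calc ∑ h ∈ (Ico 1 N).filter (fun h => ¬ (κ ^ 2 / 8 * N ≤ T h)), T h
          ≤ ∑ _h ∈ (Ico 1 N).filter (fun h => ¬ (κ ^ 2 / 8 * N ≤ T h)), κ ^ 2 / 8 * N := by
            apply Finset.sum_le_sum
            intro h hh
            rw [Finset.mem_filter] at hh
            exact (not_le.mp hh.2).le
        _ = ((Ico 1 N).filter (fun h => ¬ (κ ^ 2 / 8 * N ≤ T h))).card * (κ ^ 2 / 8 * N) := by simp
        _ ≤ N * (κ ^ 2 / 8 * N) := by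
            apply mul_le_mul_of_nonneg_right _ (by positivity)
            have : ((Ico 1 N).filter (fun h => ¬ (κ ^ 2 / 8 * N ≤ T h))).card ≤ N := by
              refine (Finset.card_filter_le _ _).trans ?_
              simp
            exact_mod_cast this
        _ = κ ^ 2 / 8 * N * N := by ring
  -- `N` is large
  have hYlow : 256 * (B1 κ) ^ 2 * (κ⁻¹) ^ 2 ≤ Y κ := by
    simp only [hY]
    have h1 : 1 ≤ (8 * (κ⁻¹) ^ 2) ^ k := by
      apply one_le_pow₀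
      have : 1 ≤ (κ⁻¹) ^ 2 := one_le_pow₀ hinv1
      linarith
    have h2 : 0 ≤ 256 * (B1 κ) ^ 2 * (κ⁻¹) ^ 2 := by positivity
    nlinarith
  have hκN : 2 ≤ κ ^ 2 * N := by
    have h1 : 256 * (B1 κ) ^ 2 * (κ⁻¹) ^ 2 ≤ N := hYlow.trans hsmall.le
    have h2 : 2 * (κ⁻¹) ^ 2 ≤ N := by
      refine le_trans ?_ h1
      have h3 : 1 ≤ (B1 κ) ^ 2 := one_le_pow₀ hB1pos
      have h4 : 0 ≤ (κ⁻¹) ^ 2 := by positivity
      nlinarith
    calc (2 : ℝ) = κ ^ 2 * (2 * (κ⁻¹) ^ 2) := by field_simp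
      _ ≤ κ ^ 2 * N := mul_le_mul_of_nonneg_left h2 (by positivity)
  have hcard : κ ^ 2 / 8 * N ≤ 𝓗.card := by
    have h1 : (κ * N) ^ 2 ≤ N + 2 * (𝓗.card * N + κ ^ 2 / 8 * N * N) := by linarith
    have h2 : κ ^ 2 * N ≤ 1 + 2 * (𝓗.card + κ ^ 2 / 8 * N) := by
      have h3 : (κ ^ 2 * N) * N ≤ (1 + 2 * (𝓗.card + κ ^ 2 / 8 * N)) * N := by
        calc (κ ^ 2 * N) * N = (κ * N) ^ 2 := by ring
          _ ≤ _ := h1
          _ = _ := by ring
      exact le_of_mul_le_mul_right h3 hN0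
    linarith
  -- the induction hypothesis for `h ∈ 𝓗`
  have hih : ∀ h ∈ 𝓗, ∃ q : ℕ, 1 ≤ q ∧ (q : ℝ) ≤ B1 κ ∧
      nint (q * (((k + 1 : ℕ) : ℝ) * γ (k + 1) * h)) * ((N - h : ℕ) : ℝ) ^ k ≤ B1 κ := by
    intro h hh
    rw [h𝓗, Finset.mem_filter, Finset.mem_Ico] at hh
    have h1 : 1 ≤ N - h := by omega
    have h2 : κ ^ 2 / 8 * ((N - h : ℕ) : ℝ) ≤
        ‖∑ n ∈ Icc 1 (N - h), ee (∑ i ∈ Icc 1 k, weylD k γ h i * (n : ℝ) ^ i)‖ := by
      refine le_trans ?_ hh.2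
      apply mul_le_mul_of_nonneg_left _ hκ'.le
      exact_mod_cast Nat.sub_le N h
    obtain ⟨q, hq1, hq2, hq3⟩ := hW (weylD k γ h) (N - h) (κ ^ 2 / 8) h1 hκ' hκ'1 h2
    have h3 := hq3 k (by simp [hk])
    rw [weylD_lead] at h3
    exact ⟨q, hq1, by simp only [hB1]; linarith, by simp only [hB1]; linarith⟩
  choose! Q hQ1 hQ2 hQ3 using hih
  -- pigeonhole
  set δ2 : ℝ := κ ^ 2 / (8 * B1 κ) with hδ2
  have hδ2pos : 0 < δ2 := by positivity
  have hδ21 : δ2 ≤ 1 := by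
    rw [hδ2, div_le_one (by positivity)]
    have : κ ^ 2 ≤ 1 := pow_le_one₀ hκ.le hκ1
    linarith
  have hpig : ∃ y ∈ Icc 1 ⌊B1 κ⌋₊, δ2 * N ≤ ((𝓗.filter (fun h => Q h = y)).card : ℝ) := by
    apply Finset.exists_le_card_fiber_of_nsmul_le_card_of_maps_to
    · intro h hh
      rw [Finset.mem_Icc]
      exact ⟨hQ1 h hh, Nat.le_floor (hQ2 h hh)⟩
    · refine ⟨1, ?_⟩
      rw [Finset.mem_Icc]
      exact ⟨le_rfl, Nat.le_floor (by push_cast; exact hB1pos)⟩
    · rw [Nat.card_Icc, Nat.add_sub_cancel, nsmul_eq_mul]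
      refine le_trans ?_ hcard
      calc (⌊B1 κ⌋₊ : ℝ) * (δ2 * N) ≤ B1 κ * (δ2 * N) :=
            mul_le_mul_of_nonneg_right (Nat.floor_le hB0.le) (by positivity)
        _ = κ ^ 2 / 8 * N := by
            rw [hδ2]
            field_simp
  obtain ⟨q0, hq0, hq0c⟩ := hpig
  rw [Finset.mem_Icc] at hq0
  have hq0B : (q0 : ℝ) ≤ B1 κ := (Nat.cast_le.mpr hq0.2).trans (Nat.floor_le hB0.le)
  set δ1 : ℝ := B1 κ / (κ ^ 2 / 8 * N) ^ k with hδ1
  have hδ1pos : 0 ≤ δ1 := by positivity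
  have h12 : 32 * δ1 ≤ δ2 := by
    have h1 : (κ ^ 2 / 8) ^ k * N ≤ (κ ^ 2 / 8 * N) ^ k := by
      rw [mul_pow]
      apply mul_le_mul_of_nonneg_left _ (by positivity)
      exact le_self_pow₀ hN1 (by omega)
    have h2 : 256 * (B1 κ) ^ 2 * (κ⁻¹) ^ 2 ≤ (κ ^ 2 / 8) ^ k * N := by
      have h3 : (κ ^ 2 / 8) ^ k * Y κ = 256 * (B1 κ) ^ 2 * (κ⁻¹) ^ 2 := by
        simp only [hY]
        have h4 : (κ ^ 2 / 8) ^ k * (8 * (κ⁻¹) ^ 2) ^ k = 1 := by
          rw [← mul_pow]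
          have : κ ^ 2 / 8 * (8 * (κ⁻¹) ^ 2) = 1 := by field_simp
          rw [this, one_pow]
        linear_combination (256 * (B1 κ) ^ 2 * (κ⁻¹) ^ 2) * h4
      rw [← h3]
      exact mul_le_mul_of_nonneg_left hsmall.le (by positivity)
    have h5 := h2.trans h1
    rw [hδ1, hδ2, ← mul_div_assoc, div_le_div_iff₀ (by positivity) (by positivity)]
    calc 32 * B1 κ * (8 * B1 κ) = κ ^ 2 * (256 * (B1 κ) ^ 2 * (κ⁻¹) ^ 2) := by
          field_simp
          ring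
      _ ≤ κ ^ 2 * (κ ^ 2 / 8 * N) ^ k := mul_le_mul_of_nonneg_left h5 (by positivity)
  set β : ℝ := q0 * (((k + 1 : ℕ) : ℝ) * γ (k + 1)) with hβ
  have hvin : δ2 * N ≤ (((Icc 1 N).filter (fun h : ℕ => nint (β * h) ≤ δ1)).card : ℝ) := by
    refine hq0c.trans ?_
    have : 𝓗.filter (fun h => Q h = q0) ⊆ (Icc 1 N).filter (fun h : ℕ => nint (β * h) ≤ δ1) := by
      intro h hh
      rw [Finset.mem_filter] at hh ⊢
      obtain ⟨hh1, hh2⟩ := hh
      have hm := hh1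
      rw [h𝓗, Finset.mem_filter, Finset.mem_Ico] at hm
      refine ⟨by rw [Finset.mem_Icc]; omega, ?_⟩
      have h1 := hQ3 h hh1
      rw [hh2] at h1
      have h2 : κ ^ 2 / 8 * N ≤ ((N - h : ℕ) : ℝ) := hm.2.trans (hTle h)
      have h3 : (κ ^ 2 / 8 * N) ^ k ≤ ((N - h : ℕ) : ℝ) ^ k := pow_le_pow_left₀ (by positivity) h2 k
      rw [hδ1, le_div_iff₀ (by positivity)]
      have h4 : β * h = q0 * (((k + 1 : ℕ) : ℝ) * γ (k + 1) * h) := by rw [hβ]; ring
      rw [h4]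
      exact (mul_le_mul_of_nonneg_left h3 (nint_nonneg _)).trans h1
    exact_mod_cast Finset.card_le_card this
  obtain ⟨q', hq'1, hq'2, hq'3⟩ := vinogradov β N δ1 δ2 hN hδ2pos hδ21 hδ1pos h12 hvin
  refine ⟨q' * q0 * (k + 1), ?_, ?_, ?_⟩
  · have : 0 < q' * q0 * (k + 1) := by
      have := hq0.1
      positivity
    omega
  · have h1 : ((q' * q0 * (k + 1) : ℕ) : ℝ) ≤ (2 / δ2) * B1 κ * (k + 1) := by
      push_cast
      apply mul_le_mul_of_nonneg_right _ (by positivity)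
      exact mul_le_mul hq'2 hq0B (Nat.cast_nonneg _) (by positivity)
    have h2 : (2 / δ2) * B1 κ * (k + 1) = 16 * (κ⁻¹) ^ 2 * B1 κ * B1 κ * (k + 1) := by
      rw [hδ2]
      field_simp
      ring
    have h3 : 0 ≤ (Y κ) ^ (k + 1) := by positivity
    simp only [hf]
    linarith
  · have h1 : ((q' * q0 * (k + 1) : ℕ) : ℝ) * γ (k + 1) = q' * β := by
      rw [hβ]
      push_cast
      ring
    rw [h1, pow_succ', ← mul_assoc]
    have h2 : nint (q' * β) * N * (N : ℝ) ^ k ≤ 16 * δ1 / δ2 ^ 2 * (N : ℝ) ^ k :=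
      mul_le_mul_of_nonneg_right hq'3 (by positivity)
    have h3 : 16 * δ1 / δ2 ^ 2 * (N : ℝ) ^ k =
        16 * B1 κ * (8 * (κ⁻¹) ^ 2) ^ k * (8 * B1 κ * (κ⁻¹) ^ 2) ^ 2 := by
      have e1 : δ1 * (N : ℝ) ^ k = B1 κ * (8 * (κ⁻¹) ^ 2) ^ k := by
        rw [hδ1, mul_pow, div_mul_eq_mul_div]
        have e3 : (8 * (κ⁻¹) ^ 2) ^ k = 1 / (κ ^ 2 / 8) ^ k := by
          rw [one_div, ← inv_pow, inv_div]
          congr 1
          field_simp
        rw [e3]
        field_simp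
      have e2 : δ2⁻¹ = 8 * B1 κ * (κ⁻¹) ^ 2 := by
        rw [hδ2, inv_div]
        field_simp
      rw [← e2]
      calc 16 * δ1 / δ2 ^ 2 * (N : ℝ) ^ k = 16 * (δ1 * (N : ℝ) ^ k) * δ2⁻¹ ^ 2 := by
            field_simp
        _ = _ := by rw [e1]; ring
    have h4 : 0 ≤ (Y κ) ^ (k + 1) := by positivity
    simp only [hf]
    linarith

theorem weyl_pow_sub (K : ℕ) (x y : ℝ) (hy : 0 ≤ y) (hxy : y ≤ x) :
    x ^ (K + 1) - y ^ (K + 1) ≤ (K + 1) * x ^ K * (x - y) := by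
  induction K with
  | zero => simp
  | succ K ih =>
    have hx : 0 ≤ x := hy.trans hxy
    have h1 : x ^ (K + 1 + 1) - y ^ (K + 1 + 1) =
        x * (x ^ (K + 1) - y ^ (K + 1)) + y ^ (K + 1) * (x - y) := by ring
    have h2 : y ^ (K + 1) ≤ x ^ (K + 1) := pow_le_pow_left₀ hy hxy _
    have h3 : x * (x ^ (K + 1) - y ^ (K + 1)) ≤ x * ((K + 1) * x ^ K * (x - y)) :=
      mul_le_mul_of_nonneg_left ih hx
    have h4 : y ^ (K + 1) * (x - y) ≤ x ^ (K + 1) * (x - y) :=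
      mul_le_mul_of_nonneg_right h2 (by linarith)
    push_cast
    rw [h1]
    calc x * (x ^ (K + 1) - y ^ (K + 1)) + y ^ (K + 1) * (x - y)
        ≤ x * ((K + 1) * x ^ K * (x - y)) + x ^ (K + 1) * (x - y) := add_le_add h3 h4
      _ = (K + 1 + 1) * x ^ (K + 1) * (x - y) := by ring

/-- freezing the leading term on a block -/
theorem weyl_freeze (k : ℕ) (γ : ℕ → ℝ) (q n0 m : ℕ) (hq : 1 ≤ q) :
    ‖ee (∑ j ∈ Icc 1 (k + 1), γ j * (((n0 + q * m : ℕ) : ℝ)) ^ j) -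
      ee (∑ j ∈ Icc 1 k, γ j * ((n0 : ℝ) + q * m) ^ j) * ee (γ (k + 1) * (n0 : ℝ) ^ (k + 1))‖ ≤
    2 * π * (nint (q * γ (k + 1)) * ((k + 1) * ((n0 : ℝ) + q * m) ^ k * (q * m))) := by
  set b : ℤ := round ((q : ℝ) * γ (k + 1)) with hb
  have hq0 : (0 : ℝ) < q := by exact_mod_cast hq
  obtain ⟨z, hz⟩ : ∃ z : ℤ, ((n0 : ℤ) + q * m) ^ (k + 1) - (n0 : ℤ) ^ (k + 1) = q * z := by
    have h1 : ((n0 : ℤ) + q * m) - n0 ∣ ((n0 : ℤ) + q * m) ^ (k + 1) - (n0 : ℤ) ^ (k + 1) :=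
      sub_dvd_pow_sub_pow _ _ _
    have h2 : ((n0 : ℤ) + q * m) - n0 = q * m := by ring
    rw [h2] at h1
    obtain ⟨w, hw⟩ := h1
    exact ⟨m * w, by rw [hw]; ring⟩
  have hz' : ((n0 : ℝ) + q * m) ^ (k + 1) - (n0 : ℝ) ^ (k + 1) = q * z := by exact_mod_cast hz
  set θ : ℝ := γ (k + 1) - b / q with hθ
  set y : ℝ := θ * (((n0 : ℝ) + q * m) ^ (k + 1) - (n0 : ℝ) ^ (k + 1)) with hy
  have h1 : ∑ j ∈ Icc 1 (k + 1), γ j * (((n0 + q * m : ℕ) : ℝ)) ^ j =
      ∑ j ∈ Icc 1 k, γ j * ((n0 : ℝ) + q * m) ^ j + γ (k + 1) * (n0 : ℝ) ^ (k + 1) + y +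
        ((b * z : ℤ) : ℝ) := by
    rw [Finset.sum_Icc_succ_top (by omega)]
    push_cast
    have h2 : γ (k + 1) * ((n0 : ℝ) + q * m) ^ (k + 1) =
        γ (k + 1) * (n0 : ℝ) ^ (k + 1) + y + b * z := by
      have h3 : γ (k + 1) * ((n0 : ℝ) + q * m) ^ (k + 1) - γ (k + 1) * (n0 : ℝ) ^ (k + 1) =
          γ (k + 1) * (q * z) := by rw [← hz']; ring
      have h4 : y = γ (k + 1) * (q * z) - b * z := by
        rw [hy, hθ, hz']
        field_simp
      linarith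
    rw [h2]
    ring
  have h2 : ee (∑ j ∈ Icc 1 (k + 1), γ j * (((n0 + q * m : ℕ) : ℝ)) ^ j) =
      ee (∑ j ∈ Icc 1 k, γ j * ((n0 : ℝ) + q * m) ^ j) * ee (γ (k + 1) * (n0 : ℝ) ^ (k + 1)) *
        ee y := by
    rw [h1, ee_add, ee_int, mul_one, ee_add, ee_add]
  rw [h2]
  have h3 : ee (∑ j ∈ Icc 1 k, γ j * ((n0 : ℝ) + q * m) ^ j) *
      ee (γ (k + 1) * (n0 : ℝ) ^ (k + 1)) * ee y -
      ee (∑ j ∈ Icc 1 k, γ j * ((n0 : ℝ) + q * m) ^ j) * ee (γ (k + 1) * (n0 : ℝ) ^ (k + 1)) =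
      ee (∑ j ∈ Icc 1 k, γ j * ((n0 : ℝ) + q * m) ^ j) * ee (γ (k + 1) * (n0 : ℝ) ^ (k + 1)) *
        (ee y - ee 0) := by
    have : ee 0 = 1 := by
      have := ee_int 0
      simpa using this
    rw [this]
    ring
  rw [h3, norm_mul, norm_mul, norm_ee, norm_ee, one_mul, one_mul]
  refine (ee_sub_le y 0).trans ?_
  rw [sub_zero]
  apply mul_le_mul_of_nonneg_left _ (by positivity)
  rw [hy, abs_mul]
  apply mul_le_mul
  · have h4 : θ = ((q : ℝ) * γ (k + 1) - b) / q := by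
      rw [hθ]
      field_simp
    rw [h4, abs_div, abs_of_pos hq0]
    rw [div_le_iff₀ hq0]
    have h5 : (1 : ℝ) ≤ q := by exact_mod_cast hq
    unfold nint
    rw [← hb]
    have h6 := abs_nonneg ((q : ℝ) * γ (k + 1) - b)
    nlinarith
  · have hn : (n0 : ℝ) ≤ (n0 : ℝ) + q * m := by
      have : (0 : ℝ) ≤ q * m := by positivity
      linarith
    rw [abs_of_nonneg (by
      have := pow_le_pow_left₀ (Nat.cast_nonneg n0) hn (k + 1)
      linarith)]
    have := weyl_pow_sub k ((n0 : ℝ) + q * m) n0 (Nat.cast_nonneg _) hn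
    refine this.trans (le_of_eq ?_)
    ring
  · exact abs_nonneg _
  · exact nint_nonneg _

theorem weyl_step (k : ℕ) (hk : 1 ≤ k) (ih : WW k) : WW (k + 1) := by
  obtain ⟨f1, hf1, hL⟩ := weyl_lead k hk ih
  obtain ⟨f0, hf0, hW⟩ := ih
  have hsub : PBd fun κ => f0 (κ / 2) + 1 := by
    apply PBd.add _ (PBd.const zero_le_one)
    apply PBd.subst hf0 (u := fun κ => κ / 2)
    · intro κ h0 h1
      exact ⟨by positivity, by linarith⟩
    · refine ((PBd.const (c := 2) (by norm_num)).mul PBd.inv).mono ?_ ?_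
      · intro κ h0 _; positivity
      · intro κ h0 _
        rw [inv_div, div_eq_mul_inv]
  have hF1B : PBd fun κ => f1 κ + 1 := hf1.add (PBd.const zero_le_one)
  set F0 : ℝ → ℝ := fun κ => f0 (κ / 2) + 1 with hF0
  set F1 : ℝ → ℝ := fun κ => f1 κ + 1 with hF1
  set D : ℝ → ℝ := fun κ => 64 * 2 ^ k * (k + 1) * (F1 κ) ^ 2 * κ⁻¹ with hD
  have hDB : PBd D := by
    exact ((PBd.const (by positivity)).mul (hF1B.pow 2)).mul PBd.inv
  set R : ℝ := 1 + 2 ^ k * k with hR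
  have hR1 : 1 ≤ R := by rw [hR]; have : (0 : ℝ) ≤ 2 ^ k * k := by positivity
                         linarith
  set A : ℝ → ℝ := fun κ => (F1 κ) ^ k * F0 κ * (2 * D κ) ^ (k + 1) with hA
  have hAB : PBd A := ((hF1B.pow k).mul hsub).mul
    (((PBd.const (c := 2) (by norm_num)).mul hDB).pow (k + 1))
  set f : ℝ → ℝ := fun κ => (D κ) ^ (k + 1) + 1 + F1 κ * (F0 κ * (F1 κ) ^ k) +
    F1 κ * (A κ * R ^ k) with hf
  have hfB : PBd f := by
    apply PBd.add
    · apply PBd.add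
      · exact (hDB.pow (k + 1)).add (PBd.const zero_le_one)
      · exact hF1B.mul (hsub.mul (hF1B.pow k))
    · exact hF1B.mul (hAB.mul (PBd.const (by positivity)))
  refine ⟨f, hfB, ?_⟩
  intro γ N κ hN hκ hκ1 hS
  have hN0 : (0 : ℝ) < N := by exact_mod_cast hN
  have hN1 : (1 : ℝ) ≤ N := by exact_mod_cast hN
  have hinv1 : 1 ≤ κ⁻¹ := (one_le_inv₀ hκ).mpr hκ1
  have hF1pos : 1 ≤ F1 κ := by
    obtain ⟨C, hC, h⟩ := hf1
    have := (h _ hκ hκ1).1
    simp only [hF1]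
    linarith
  have hF0pos : 1 ≤ F0 κ := by
    obtain ⟨C, hC, h⟩ := hf0
    have := (h (κ / 2) (by positivity) (by linarith)).1
    simp only [hF0]
    linarith
  have hDlow : 64 * F1 κ * κ⁻¹ ≤ D κ := by
    simp only [hD]
    apply mul_le_mul_of_nonneg_right _ (by positivity)
    have h1 : (1 : ℝ) ≤ 2 ^ k := one_le_pow₀ (by norm_num)
    have h2 : (1 : ℝ) ≤ (k + 1 : ℝ) := by
      have : (0 : ℝ) ≤ k := Nat.cast_nonneg _
      linarith
    have h3 : F1 κ ≤ (F1 κ) ^ 2 := le_self_pow₀ hF1pos (by norm_num)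
    calc 64 * F1 κ ≤ 64 * (F1 κ) ^ 2 := by linarith
      _ = 64 * 1 * 1 * (F1 κ) ^ 2 := by ring
      _ ≤ 64 * 2 ^ k * (k + 1) * (F1 κ) ^ 2 := by
          apply mul_le_mul_of_nonneg_right _ (by positivity)
          apply mul_le_mul _ h2 zero_le_one (by positivity)
          linarith
  have hD1 : 1 ≤ D κ := by
    refine le_trans ?_ hDlow
    nlinarith
  have hD0 : 0 < D κ := by linarith
  have hApos : 0 ≤ A κ := by simp only [hA]; positivity
  have ht2 : 0 ≤ F1 κ * (F0 κ * (F1 κ) ^ k) := by positivity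
  have ht3 : 0 ≤ F1 κ * (A κ * R ^ k) := by positivity
  by_cases hsmall : (N : ℝ) ≤ D κ
  · refine ⟨1, le_rfl, ?_, ?_⟩
    · have : 0 ≤ (D κ) ^ (k + 1) := by positivity
      simp only [hf]
      push_cast
      linarith
    · intro j hj
      rw [Finset.mem_Icc] at hj
      have h1 : nint (((1 : ℕ) : ℝ) * γ j) ≤ 1 := (nint_le_half _).trans (by norm_num)
      have h2 : (N : ℝ) ^ j ≤ (D κ) ^ (k + 1) :=
        (pow_le_pow_right₀ hN1 hj.2).trans (pow_le_pow_left₀ hN0.le hsmall _)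
      have h3 : nint (((1 : ℕ) : ℝ) * γ j) * (N : ℝ) ^ j ≤ 1 * (D κ) ^ (k + 1) :=
        mul_le_mul h1 h2 (by positivity) zero_le_one
      refine h3.trans ?_
      simp only [hf]
      linarith
  push Not at hsmall
  obtain ⟨q1, hq11, hq12, hq13⟩ := hL γ N κ hN hκ hκ1 hS
  have hq1F : (q1 : ℝ) ≤ F1 κ := by simp only [hF1]; linarith
  have hq1n : nint (q1 * γ (k + 1)) * (N : ℝ) ^ (k + 1) ≤ F1 κ := by simp only [hF1]; linarith
  set M : ℕ := ⌊(N : ℝ) / D κ⌋₊ with hM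
  have hND : 1 ≤ (N : ℝ) / D κ := by rw [le_div_iff₀ hD0]; linarith
  have hM1 : 1 ≤ M := Nat.le_floor (by simpa using hND)
  have hMle : (M : ℝ) ≤ N / D κ := Nat.floor_le (by positivity)
  have hM1' : (1 : ℝ) ≤ M := by exact_mod_cast hM1
  have hM0 : (0 : ℝ) < M := by linarith
  have hNM : (N : ℝ) ≤ 2 * D κ * M := by
    have h1 : (N : ℝ) / D κ < M + 1 := Nat.lt_floor_add_one _
    rw [div_lt_iff₀ hD0] at h1
    nlinarith
  have hMD : (M : ℝ) * D κ ≤ N := by rwa [le_div_iff₀ hD0] at hMle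
  -- block
  obtain ⟨n0, hn0, hblock⟩ := weyl_block
    (fun n => ee (∑ j ∈ Icc 1 (k + 1), γ j * (n : ℝ) ^ j)) (fun n => norm_ee _) N M q1 hN κ hS
  rw [Finset.mem_Icc] at hn0
  have hn0N : (n0 : ℝ) ≤ N := by exact_mod_cast hn0.2
  have hq1M : (q1 : ℝ) * M * (64 * κ⁻¹) ≤ N := by
    calc (q1 : ℝ) * M * (64 * κ⁻¹) ≤ F1 κ * M * (64 * κ⁻¹) := by
          apply mul_le_mul_of_nonneg_right _ (by positivity)
          exact mul_le_mul_of_nonneg_right hq1F hM0.le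
      _ = M * (64 * F1 κ * κ⁻¹) := by ring
      _ ≤ M * D κ := mul_le_mul_of_nonneg_left hDlow hM0.le
      _ ≤ N := hMD
  have hq1M' : 2 * (q1 : ℝ) * M / N ≤ κ / 16 := by
    rw [div_le_iff₀ hN0]
    have h1 : (q1 : ℝ) * M * (64 * κ⁻¹) * κ ≤ N * κ := mul_le_mul_of_nonneg_right hq1M hκ.le
    have h2 : (q1 : ℝ) * M * (64 * κ⁻¹) * κ = 64 * (q1 * M) := by field_simp
    rw [h2] at h1
    have h3 : 0 ≤ (q1 : ℝ) * M := by positivity
    nlinarith
  have hq1M1 : (q1 : ℝ) * M ≤ N := by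
    refine le_trans ?_ hq1M
    have h1 : (1 : ℝ) ≤ 64 * κ⁻¹ := by linarith
    have h3 : 0 ≤ (q1 : ℝ) * M := by positivity
    nlinarith
  -- freeze the leading term
  have hfr : ∀ m ∈ Icc 1 M, ‖ee (∑ j ∈ Icc 1 (k + 1), γ j * (((n0 + q1 * m : ℕ) : ℝ)) ^ j) -
      ee (∑ j ∈ Icc 1 k, γ j * ((n0 : ℝ) + q1 * m) ^ j) * ee (γ (k + 1) * (n0 : ℝ) ^ (k + 1))‖ ≤
      κ / 8 := by
    intro m hm
    rw [Finset.mem_Icc] at hm
    refine (weyl_freeze k γ q1 n0 m hq11).trans ?_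
    have hmM : (m : ℝ) ≤ M := by exact_mod_cast hm.2
    have hqm : (q1 : ℝ) * m ≤ q1 * M := mul_le_mul_of_nonneg_left hmM (Nat.cast_nonneg _)
    have h1 : ((n0 : ℝ) + q1 * m) ^ k ≤ (2 * N) ^ k := by
      apply pow_le_pow_left₀ (by positivity)
      linarith
    have h2 : nint (q1 * γ (k + 1)) * ((k + 1) * ((n0 : ℝ) + q1 * m) ^ k * (q1 * m)) ≤ κ / 64 := by
      have h3 : nint (q1 * γ (k + 1)) * ((k + 1) * ((n0 : ℝ) + q1 * m) ^ k * (q1 * m)) ≤
          nint (q1 * γ (k + 1)) * ((k + 1) * (2 * N) ^ k * (F1 κ * M)) := by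
        apply mul_le_mul_of_nonneg_left _ (nint_nonneg _)
        apply mul_le_mul
        · exact mul_le_mul_of_nonneg_left h1 (by positivity)
        · exact hqm.trans (mul_le_mul_of_nonneg_right hq1F hM0.le)
        · positivity
        · positivity
      refine h3.trans ?_
      have h4 : (nint (q1 * γ (k + 1)) * ((k + 1) * (2 * N) ^ k * (F1 κ * M))) * N ≤
          κ / 64 * N := by
        calc (nint (q1 * γ (k + 1)) * ((k + 1) * (2 * N) ^ k * (F1 κ * M))) * N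
            = (nint (q1 * γ (k + 1)) * (N : ℝ) ^ (k + 1)) * ((k + 1) * 2 ^ k * F1 κ * M) := by
              rw [mul_pow, pow_succ]; ring
          _ ≤ F1 κ * ((k + 1) * 2 ^ k * F1 κ * M) :=
              mul_le_mul_of_nonneg_right hq1n (by positivity)
          _ = κ / 64 * (M * D κ) := by
              simp only [hD]
              field_simp
          _ ≤ κ / 64 * N := mul_le_mul_of_nonneg_left hMD (by positivity)
      exact le_of_mul_le_mul_right h4 hN0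
    have hpi : π ≤ 4 := Real.pi_le_four
    have h5 : 0 ≤ nint (q1 * γ (k + 1)) * ((k + 1) * ((n0 : ℝ) + q1 * m) ^ k * (q1 * m)) :=
      mul_nonneg (nint_nonneg _) (by positivity)
    calc 2 * π * (nint (q1 * γ (k + 1)) * ((k + 1) * ((n0 : ℝ) + q1 * m) ^ k * (q1 * m)))
        ≤ 2 * 4 * (nint (q1 * γ (k + 1)) * ((k + 1) * ((n0 : ℝ) + q1 * m) ^ k * (q1 * m))) := by
          apply mul_le_mul_of_nonneg_right _ h5
          linarith
      _ ≤ κ / 8 := by linarith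
  set g1 : ℕ → ℝ := fun i =>
    (q1 : ℝ) ^ i * ∑ j ∈ Icc i k, (j.choose i : ℝ) * γ j * (n0 : ℝ) ^ (j - i) with hg1
  have hlow : κ / 2 * M ≤ ‖∑ m ∈ Icc 1 M, ee (∑ i ∈ Icc 1 k, g1 i * (m : ℝ) ^ i)‖ := by
    have h1 : ‖∑ m ∈ Icc 1 M, ee (∑ i ∈ Icc 1 k, g1 i * (m : ℝ) ^ i)‖ =
        ‖∑ m ∈ Icc 1 M, ee (∑ j ∈ Icc 1 k, γ j * ((n0 : ℝ) + q1 * m) ^ j) *
          ee (γ (k + 1) * (n0 : ℝ) ^ (k + 1))‖ := by
      have h2 : ∀ m : ℕ, ee (∑ j ∈ Icc 1 k, γ j * ((n0 : ℝ) + q1 * m) ^ j) *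
          ee (γ (k + 1) * (n0 : ℝ) ^ (k + 1)) =
          (ee (γ (k + 1) * (n0 : ℝ) ^ (k + 1)) * ee (∑ j ∈ Icc 1 k, γ j * (n0 : ℝ) ^ j)) *
            ee (∑ i ∈ Icc 1 k, g1 i * (m : ℝ) ^ i) := by
        intro m
        rw [weyl_affine, ee_add]
        ring
      rw [Finset.sum_congr rfl fun m _ => h2 m, ← Finset.mul_sum, norm_mul, norm_mul, norm_ee,
        norm_ee, one_mul, one_mul]
    rw [h1]
    have h3 : ‖∑ m ∈ Icc 1 M, ee (∑ j ∈ Icc 1 (k + 1), γ j * (((n0 + q1 * m : ℕ) : ℝ)) ^ j) -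
        ∑ m ∈ Icc 1 M, ee (∑ j ∈ Icc 1 k, γ j * ((n0 : ℝ) + q1 * m) ^ j) *
          ee (γ (k + 1) * (n0 : ℝ) ^ (k + 1))‖ ≤ M * (κ / 8) := by
      rw [← Finset.sum_sub_distrib]
      refine (norm_sum_le _ _).trans ?_
      refine (Finset.sum_le_sum hfr).trans ?_
      simp
    have h4 := norm_sub_norm_le
      (∑ m ∈ Icc 1 M, ee (∑ j ∈ Icc 1 (k + 1), γ j * (((n0 + q1 * m : ℕ) : ℝ)) ^ j))
      (∑ m ∈ Icc 1 M, ee (∑ j ∈ Icc 1 k, γ j * ((n0 : ℝ) + q1 * m) ^ j) *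
          ee (γ (k + 1) * (n0 : ℝ) ^ (k + 1)))
    have h5 : M * (κ - κ / 16) ≤
        ‖∑ m ∈ Icc 1 M, ee (∑ j ∈ Icc 1 (k + 1), γ j * (((n0 + q1 * m : ℕ) : ℝ)) ^ j)‖ := by
      refine le_trans ?_ hblock
      apply mul_le_mul_of_nonneg_left _ hM0.le
      linarith
    have h6 : 0 ≤ M * κ := by positivity
    linarith
  obtain ⟨q2, hq21, hq22, hq23⟩ := hW g1 M (κ / 2) hM1 (by positivity) (by linarith) hlow
  have hq2F : (q2 : ℝ) ≤ F0 κ := by simp only [hF0]; linarith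
  set Q : ℕ := q2 * q1 ^ k with hQ
  have hQF : (Q : ℝ) ≤ F0 κ * (F1 κ) ^ k := by
    rw [hQ]
    push_cast
    exact mul_le_mul hq2F (pow_le_pow_left₀ (Nat.cast_nonneg _) hq1F k) (by positivity)
      (by linarith)
  -- first part of the recursion
  have hfirst : ∀ i ∈ Icc 1 k, (q1 : ℝ) ^ (k - i) * nint (q2 * g1 i) * (N : ℝ) ^ i ≤ A κ := by
    intro i hi
    have h1 := hq23 i hi
    rw [Finset.mem_Icc] at hi
    have h2 : (N : ℝ) ^ i ≤ (2 * D κ) ^ (k + 1) * (M : ℝ) ^ i := by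
      calc (N : ℝ) ^ i ≤ (2 * D κ * M) ^ i := pow_le_pow_left₀ hN0.le hNM i
        _ = (2 * D κ) ^ i * (M : ℝ) ^ i := mul_pow _ _ _
        _ ≤ (2 * D κ) ^ (k + 1) * (M : ℝ) ^ i := by
            apply mul_le_mul_of_nonneg_right _ (by positivity)
            exact pow_le_pow_right₀ (by linarith) (by omega)
    have h3 : (q1 : ℝ) ^ (k - i) ≤ (F1 κ) ^ k :=
      (pow_le_pow_left₀ (Nat.cast_nonneg _) hq1F _).trans (pow_le_pow_right₀ hF1pos (by omega))
    have h4 : nint (q2 * g1 i) * (N : ℝ) ^ i ≤ F0 κ * (2 * D κ) ^ (k + 1) := by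
      calc nint (q2 * g1 i) * (N : ℝ) ^ i
          ≤ nint (q2 * g1 i) * ((2 * D κ) ^ (k + 1) * (M : ℝ) ^ i) :=
            mul_le_mul_of_nonneg_left h2 (nint_nonneg _)
        _ = (nint (q2 * g1 i) * (M : ℝ) ^ i) * (2 * D κ) ^ (k + 1) := by ring
        _ ≤ F0 κ * (2 * D κ) ^ (k + 1) := by
            apply mul_le_mul_of_nonneg_right _ (by positivity)
            simp only [hF0]
            linarith
    calc (q1 : ℝ) ^ (k - i) * nint (q2 * g1 i) * (N : ℝ) ^ i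
        = (q1 : ℝ) ^ (k - i) * (nint (q2 * g1 i) * (N : ℝ) ^ i) := by ring
      _ ≤ (F1 κ) ^ k * (F0 κ * (2 * D κ) ^ (k + 1)) := by
          apply mul_le_mul h3 h4 _ (by positivity)
          exact mul_nonneg (nint_nonneg _) (by positivity)
      _ = A κ := by simp only [hA]; ring
  -- recursion
  have hrec : ∀ i ∈ Icc 1 k, nint (Q * γ i) * (N : ℝ) ^ i ≤ A κ +
      2 ^ k * ∑ j ∈ Icc (i + 1) k, nint (Q * γ j) * (N : ℝ) ^ j := by
    intro i hi
    have hi' := hi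
    rw [Finset.mem_Icc] at hi
    have h1 : (Q : ℝ) * γ i = ((q1 ^ (k - i) : ℕ) : ℝ) * (q2 * g1 i) -
        ∑ j ∈ Icc (i + 1) k, ((j.choose i * n0 ^ (j - i) : ℕ) : ℝ) * (Q * γ j) := by
      have h2 : ((q1 ^ (k - i) : ℕ) : ℝ) * (q2 * g1 i) =
          Q * ∑ j ∈ Icc i k, (j.choose i : ℝ) * γ j * (n0 : ℝ) ^ (j - i) := by
        simp only [hg1, hQ]
        push_cast
        have h3 : (q1 : ℝ) ^ k = (q1 : ℝ) ^ (k - i) * (q1 : ℝ) ^ i := by
          rw [← pow_add]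
          congr 1
          omega
        rw [h3]
        ring
      have h4 : ∑ j ∈ Icc i k, (j.choose i : ℝ) * γ j * (n0 : ℝ) ^ (j - i) =
          γ i + ∑ j ∈ Icc (i + 1) k, (j.choose i : ℝ) * γ j * (n0 : ℝ) ^ (j - i) := by
        have h5 : Icc i k = insert i (Icc (i + 1) k) := by
          ext j
          simp only [Finset.mem_insert, Finset.mem_Icc]
          omega
        rw [h5, Finset.sum_insert (by simp)]
        simp
      rw [h2, h4, mul_add, Finset.mul_sum]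
      have h6 : ∑ j ∈ Icc (i + 1) k, (Q : ℝ) * ((j.choose i : ℝ) * γ j * (n0 : ℝ) ^ (j - i)) =
          ∑ j ∈ Icc (i + 1) k, ((j.choose i * n0 ^ (j - i) : ℕ) : ℝ) * (Q * γ j) := by
        apply Finset.sum_congr rfl
        intro j _
        push_cast
        ring
      rw [h6]
      ring
    have h7 : nint (Q * γ i) ≤ (q1 : ℝ) ^ (k - i) * nint (q2 * g1 i) +
        ∑ j ∈ Icc (i + 1) k, ((j.choose i * n0 ^ (j - i) : ℕ) : ℝ) * nint (Q * γ j) := by
      rw [h1]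
      refine (nint_sub _ _).trans ?_
      apply add_le_add
      · refine (nint_nat_mul _ _).trans (le_of_eq ?_)
        push_cast
        ring
      · refine (weyl_nint_sum _ _).trans ?_
        apply Finset.sum_le_sum
        intro j _
        exact nint_nat_mul _ _
    calc nint (Q * γ i) * (N : ℝ) ^ i
        ≤ ((q1 : ℝ) ^ (k - i) * nint (q2 * g1 i) +
          ∑ j ∈ Icc (i + 1) k, ((j.choose i * n0 ^ (j - i) : ℕ) : ℝ) * nint (Q * γ j)) *
            (N : ℝ) ^ i := mul_le_mul_of_nonneg_right h7 (by positivity)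
      _ = (q1 : ℝ) ^ (k - i) * nint (q2 * g1 i) * (N : ℝ) ^ i +
          ∑ j ∈ Icc (i + 1) k, ((j.choose i * n0 ^ (j - i) : ℕ) : ℝ) * nint (Q * γ j) *
            (N : ℝ) ^ i := by rw [add_mul, Finset.sum_mul]
      _ ≤ A κ + 2 ^ k * ∑ j ∈ Icc (i + 1) k, nint (Q * γ j) * (N : ℝ) ^ j := by
          apply add_le_add (hfirst i hi')
          rw [Finset.mul_sum]
          apply Finset.sum_le_sum
          intro j hj
          rw [Finset.mem_Icc] at hj
          have h8 : ((j.choose i * n0 ^ (j - i) : ℕ) : ℝ) * (N : ℝ) ^ i ≤ 2 ^ k * (N : ℝ) ^ j := by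
            push_cast
            have h9 : (j.choose i : ℝ) ≤ 2 ^ k := by
              have h10 : j.choose i ≤ 2 ^ j := Nat.choose_le_two_pow j i
              have h11 : (2 : ℕ) ^ j ≤ 2 ^ k := Nat.pow_le_pow_right (by norm_num) hj.2
              exact_mod_cast h10.trans h11
            have h12 : (n0 : ℝ) ^ (j - i) * (N : ℝ) ^ i ≤ (N : ℝ) ^ j := by
              calc (n0 : ℝ) ^ (j - i) * (N : ℝ) ^ i ≤ (N : ℝ) ^ (j - i) * (N : ℝ) ^ i :=
                    mul_le_mul_of_nonneg_right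
                      (pow_le_pow_left₀ (Nat.cast_nonneg _) hn0N _) (by positivity)
                _ = (N : ℝ) ^ j := by
                    rw [← pow_add]
                    congr 1
                    omega
            calc (j.choose i : ℝ) * (n0 : ℝ) ^ (j - i) * (N : ℝ) ^ i
                = (j.choose i : ℝ) * ((n0 : ℝ) ^ (j - i) * (N : ℝ) ^ i) := by ring
              _ ≤ 2 ^ k * (N : ℝ) ^ j := mul_le_mul h9 h12 (by positivity) (by positivity)
          calc ((j.choose i * n0 ^ (j - i) : ℕ) : ℝ) * nint (Q * γ j) * (N : ℝ) ^ i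
              = (((j.choose i * n0 ^ (j - i) : ℕ) : ℝ) * (N : ℝ) ^ i) * nint (Q * γ j) := by ring
            _ ≤ (2 ^ k * (N : ℝ) ^ j) * nint (Q * γ j) :=
                mul_le_mul_of_nonneg_right h8 (nint_nonneg _)
            _ = 2 ^ k * (nint (Q * γ j) * (N : ℝ) ^ j) := by ring
  have hdown : ∀ l : ℕ, ∀ i ∈ Icc 1 k, k - i ≤ l → nint (Q * γ i) * (N : ℝ) ^ i ≤ A κ * R ^ l := by
    intro l
    induction l with
    | zero =>
      intro i hi hil
      refine (hrec i hi).trans ?_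
      rw [Finset.mem_Icc] at hi
      have : Icc (i + 1) k = ∅ := by
        apply Finset.Icc_eq_empty
        omega
      rw [this]
      simp
    | succ l ihl =>
      intro i hi hil
      refine (hrec i hi).trans ?_
      rw [Finset.mem_Icc] at hi
      have h1 : ∑ j ∈ Icc (i + 1) k, nint (Q * γ j) * (N : ℝ) ^ j ≤ k * (A κ * R ^ l) := by
        calc ∑ j ∈ Icc (i + 1) k, nint (Q * γ j) * (N : ℝ) ^ j
            ≤ ∑ _j ∈ Icc (i + 1) k, A κ * R ^ l := by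
              apply Finset.sum_le_sum
              intro j hj
              rw [Finset.mem_Icc] at hj
              apply ihl j (by rw [Finset.mem_Icc]; omega) (by omega)
          _ = ((Icc (i + 1) k).card : ℝ) * (A κ * R ^ l) := by simp
          _ ≤ k * (A κ * R ^ l) := by
              apply mul_le_mul_of_nonneg_right _ (by positivity)
              have : (Icc (i + 1) k).card ≤ k := by
                rw [Nat.card_Icc]; omega
              exact_mod_cast this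
      have h2 : A κ ≤ A κ * R ^ l := le_mul_of_one_le_right hApos (one_le_pow₀ hR1)
      calc A κ + 2 ^ k * ∑ j ∈ Icc (i + 1) k, nint (Q * γ j) * (N : ℝ) ^ j
          ≤ A κ * R ^ l + 2 ^ k * (k * (A κ * R ^ l)) :=
            add_le_add h2 (mul_le_mul_of_nonneg_left h1 (by positivity))
        _ = A κ * R ^ (l + 1) := by rw [pow_succ, hR]; ring
  refine ⟨q1 * Q, ?_, ?_, ?_⟩
  · have : 0 < q1 * Q := by rw [hQ]; positivity
    omega
  · have h1 : ((q1 * Q : ℕ) : ℝ) ≤ F1 κ * (F0 κ * (F1 κ) ^ k) := by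
      push_cast
      exact mul_le_mul hq1F hQF (Nat.cast_nonneg _) (by linarith)
    have h2 : 0 ≤ (D κ) ^ (k + 1) := by positivity
    simp only [hf]
    linarith
  · intro j hj
    rw [Finset.mem_Icc] at hj
    have h2 : 0 ≤ (D κ) ^ (k + 1) := by positivity
    rcases Nat.lt_or_ge k j with hjk | hjk
    · have hjk' : j = k + 1 := by omega
      subst hjk'
      have h3 : nint (((q1 * Q : ℕ) : ℝ) * γ (k + 1)) ≤ Q * nint (q1 * γ (k + 1)) := by
        have h4 : ((q1 * Q : ℕ) : ℝ) * γ (k + 1) = (Q : ℝ) * (q1 * γ (k + 1)) := by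
          push_cast; ring
        rw [h4]
        exact nint_nat_mul _ _
      have h5 : nint (((q1 * Q : ℕ) : ℝ) * γ (k + 1)) * (N : ℝ) ^ (k + 1) ≤
          F1 κ * (F0 κ * (F1 κ) ^ k) := by
        calc nint (((q1 * Q : ℕ) : ℝ) * γ (k + 1)) * (N : ℝ) ^ (k + 1)
            ≤ Q * nint (q1 * γ (k + 1)) * (N : ℝ) ^ (k + 1) :=
              mul_le_mul_of_nonneg_right h3 (by positivity)
          _ = (nint (q1 * γ (k + 1)) * (N : ℝ) ^ (k + 1)) * Q := by ring
          _ ≤ F1 κ * (F0 κ * (F1 κ) ^ k) :=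
              mul_le_mul hq1n hQF (Nat.cast_nonneg _) (by linarith)
      refine h5.trans ?_
      simp only [hf]
      linarith
    · have h3 : nint (((q1 * Q : ℕ) : ℝ) * γ j) ≤ q1 * nint (Q * γ j) := by
        have h4 : ((q1 * Q : ℕ) : ℝ) * γ j = (q1 : ℝ) * (Q * γ j) := by
          push_cast; ring
        rw [h4]
        exact nint_nat_mul _ _
      have h5 : nint (((q1 * Q : ℕ) : ℝ) * γ j) * (N : ℝ) ^ j ≤ F1 κ * (A κ * R ^ k) := by
        calc nint (((q1 * Q : ℕ) : ℝ) * γ j) * (N : ℝ) ^ j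
            ≤ q1 * nint (Q * γ j) * (N : ℝ) ^ j := mul_le_mul_of_nonneg_right h3 (by positivity)
          _ = q1 * (nint (Q * γ j) * (N : ℝ) ^ j) := by ring
          _ ≤ F1 κ * (A κ * R ^ k) := by
              apply mul_le_mul hq1F (hdown k j (by rw [Finset.mem_Icc]; omega) (by omega))
              · exact mul_nonneg (nint_nonneg _) (by positivity)
              · linarith
      refine h5.trans ?_
      simp only [hf]
      linarith

theorem weyl_one : WW 1 := by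
  refine ⟨fun κ => κ⁻¹ + 1, PBd.inv.add (PBd.const zero_le_one), ?_⟩
  intro γ N κ hN hκ hκ1 hS
  have hinv : 0 < κ⁻¹ := by positivity
  refine ⟨1, le_rfl, by push_cast; linarith, ?_⟩
  intro j hj
  rw [Finset.mem_Icc] at hj
  have hj1 : j = 1 := by omega
  subst hj1
  have h1 := geom_ee (γ 1) N (γ 1)
  have h2 : ∑ n ∈ Icc 1 N, ee (∑ j ∈ Icc 1 1, γ j * (n : ℝ) ^ j) =
      ∑ n ∈ range N, ee (γ 1 + γ 1 * n) := by
    rw [Finset.range_eq_Ico, Finset.sum_Ico_eq_sum_range]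
    have h3 : Icc 1 N = Ico 1 (N + 1) := by
      ext n; simp only [Finset.mem_Icc, Finset.mem_Ico]; omega
    rw [h3, Finset.sum_Ico_eq_sum_range]
    apply Finset.sum_congr (by simp)
    intro n _
    congr 1
    simp
    ring
  rw [h2] at hS
  have h4 : κ * N * nint (γ 1) ≤ 1 / 2 :=
    (mul_le_mul_of_nonneg_right hS (nint_nonneg _)).trans h1
  have h5 : nint (γ 1) * N ≤ κ⁻¹ := by
    rw [← mul_le_mul_iff_of_pos_left hκ]
    rw [mul_inv_cancel₀ hκ.ne']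
    calc κ * (nint (γ 1) * N) = κ * N * nint (γ 1) := by ring
      _ ≤ 1 := h4.trans (by norm_num)
  simp only [Nat.cast_one, one_mul, pow_one]
  linarith

theorem weyl_all (k : ℕ) : WW k := by
  induction k with
  | zero =>
    refine ⟨fun _ => 1, PBd.const zero_le_one, ?_⟩
    intro γ N κ _ _ _ _
    exact ⟨1, le_rfl, by simp, by simp⟩
  | succ k ih =>
    rcases Nat.eq_zero_or_pos k with h0 | h0
    · subst h0
      exact weyl_one
    · exact weyl_step k h0 ih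

theorem weyl_inverse (k : ℕ) : ∃ C : ℕ, 1 ≤ C ∧ ∀ (γ : ℕ → ℝ) (N : ℕ) (κ : ℝ), 1 ≤ N → 0 < κ →
    κ ≤ 1 → κ * N ≤ ‖∑ n ∈ Icc 1 N, ee (∑ j ∈ Icc 1 k, γ j * (n : ℝ) ^ j)‖ →
    ∃ q : ℕ, 1 ≤ q ∧ (q : ℝ) ≤ (C / κ) ^ C ∧
      ∀ j ∈ Icc 1 k, nint (q * γ j) * (N : ℝ) ^ j ≤ (C / κ) ^ C := by
  obtain ⟨f, ⟨C, hC, hfC⟩, h⟩ := weyl_all k
  refine ⟨C, hC, ?_⟩
  intro γ N κ hN hκ hκ1 hS
  obtain ⟨q, hq1, hq2, hq3⟩ := h γ N κ hN hκ hκ1 hS
  have h1 := (hfC κ hκ hκ1).2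
  exact ⟨q, hq1, hq2.trans h1, fun j hj => (hq3 j hj).trans h1⟩

end EK75

end S_H75_EK_Weyl

section S_H75_EK_Ed

/-! Module ED: from exponential sums to equidistribution in `[0, l)`. -/

open Polynomial Finset
open scoped Real BigOperators

namespace EK75

/-- the Fejér kernel as a cosine polynomial -/
private noncomputable def edF (L : ℕ) (u : ℝ) : ℝ :=
  (∑ a ∈ range L, ∑ b ∈ range L, Real.cos (2 * π * ((((a : ℤ) - b).natAbs : ℕ) : ℝ) * u)) / L

private theorem ed_cos_abs (a b : ℕ) (u : ℝ) :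
    Real.cos (2 * π * ((((a : ℤ) - b).natAbs : ℕ) : ℝ) * u) =
      Real.cos (2 * π * a * u - 2 * π * b * u) := by
  have h1 : ((((a : ℤ) - b).natAbs : ℕ) : ℝ) = |(a : ℝ) - b| := by
    rw [Nat.cast_natAbs]
    push_cast
    rfl
  rw [h1]
  rcases abs_cases ((a : ℝ) - b) with ⟨h, _⟩ | ⟨h, _⟩
  · rw [h]; congr 1; ring
  · rw [h, ← Real.cos_neg]; congr 1; ring

private theorem ed_ee (x : ℝ) : ee x = Complex.exp (((2 * π * x : ℝ) : ℂ) * Complex.I) := by
  unfold ee; push_cast; ring_nf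

private theorem ed_ee_re (x : ℝ) : (ee x).re = Real.cos (2 * π * x) := by
  rw [ed_ee, Complex.exp_ofReal_mul_I_re]

private theorem ed_ee_im (x : ℝ) : (ee x).im = Real.sin (2 * π * x) := by
  rw [ed_ee, Complex.exp_ofReal_mul_I_im]

private theorem ed_ee_add (x y : ℝ) : ee (x + y) = ee x * ee y := by
  unfold ee
  rw [← Complex.exp_add]; congr 1; push_cast; ring

private theorem ed_ee_norm (x : ℝ) : ‖ee x‖ = 1 := by
  rw [ed_ee, Complex.norm_exp_ofReal_mul_I]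

private theorem ed_ee_nat (n : ℕ) (x : ℝ) : ee (n * x) = ee x ^ n := by
  unfold ee
  rw [← Complex.exp_nat_mul]; congr 1; push_cast; ring

private theorem ed_ee_int (m : ℤ) : ee (m : ℝ) = 1 := by
  unfold ee
  rw [Complex.exp_eq_one_iff]
  exact ⟨m, by push_cast; ring⟩

private theorem edF_eq (L : ℕ) (u : ℝ) :
    edF L u = ‖∑ a ∈ range L, ee (a * u)‖ ^ 2 / L := by
  unfold edF
  congr 1
  rw [← Complex.normSq_eq_norm_sq, Complex.normSq_apply, Complex.re_sum, Complex.im_sum]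
  simp only [ed_ee_re, ed_ee_im]
  rw [sum_mul_sum, sum_mul_sum, ← sum_add_distrib]
  apply sum_congr rfl
  intro a _
  rw [← sum_add_distrib]
  apply sum_congr rfl
  intro b _
  rw [ed_cos_abs, Real.cos_sub]
  simp only [mul_assoc]

private theorem edF_nonneg (L : ℕ) (u : ℝ) : 0 ≤ edF L u := by
  rw [edF_eq]; positivity

private theorem edF_cont (L : ℕ) : Continuous (edF L) := by
  unfold edF
  fun_prop

private theorem ed_sin_lb (u : ℝ) (h0 : 0 < u) (h1 : u < 1) :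
    1 / (Real.sin (π * u)) ^ 2 ≤ (1 / 4) * ((u ^ 2)⁻¹ + ((1 - u) ^ 2)⁻¹) := by
  have hπ := Real.pi_pos
  have key : ∀ v : ℝ, 0 < v → v ≤ 1 / 2 → 1 / (Real.sin (π * v)) ^ 2 ≤ (1 / 4) * (v ^ 2)⁻¹ := by
    intro v hv hv2
    have h2 : 2 * v ≤ Real.sin (π * v) := by
      have h3 := Real.mul_le_sin (x := π * v) (by positivity) (by nlinarith)
      have h4 : 2 / π * (π * v) = 2 * v := by field_simp
      rwa [h4] at h3
    have h5 : (2 * v) ^ 2 ≤ (Real.sin (π * v)) ^ 2 := by gcongr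
    have h6 : 1 / (Real.sin (π * v)) ^ 2 ≤ 1 / (2 * v) ^ 2 := by gcongr
    have h7 : 1 / (2 * v) ^ 2 = (1 / 4) * (v ^ 2)⁻¹ := by field_simp; norm_num
    rwa [h7] at h6
  rcases le_total u (1 / 2) with h | h
  · have h2 := key u h0 h
    have h3 : 0 < ((1 - u) ^ 2)⁻¹ := by
      have : 0 < 1 - u := by linarith
      positivity
    linarith
  · have h2 := key (1 - u) (by linarith) (by linarith)
    have h4 : Real.sin (π * (1 - u)) = Real.sin (π * u) := by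
      rw [mul_sub, mul_one, Real.sin_pi_sub]
    rw [h4] at h2
    have h3 : 0 < (u ^ 2)⁻¹ := by positivity
    linarith

private theorem edF_bound (L : ℕ) (hL : 1 ≤ L) (u : ℝ) (h0 : 0 < u) (h1 : u < 1) :
    edF L u ≤ (1 / (4 * L)) * ((u ^ 2)⁻¹ + ((1 - u) ^ 2)⁻¹) := by
  have hπ := Real.pi_pos
  have hLR : (0 : ℝ) < L := by exact_mod_cast hL
  have hs : 0 < Real.sin (π * u) := Real.sin_pos_of_pos_of_lt_pi (by positivity) (by nlinarith)
  have hD : ‖∑ a ∈ range L, ee (a * u)‖ * Real.sin (π * u) ≤ 1 := by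
    have h2 : (∑ a ∈ range L, ee (a * u)) * (ee u - 1) = ee (L * u) - 1 := by
      simp only [ed_ee_nat]
      exact geom_sum_mul (ee u) L
    have h3 : ‖ee u - 1‖ = 2 * Real.sin (π * u) := by
      have h4 : ee u = Complex.exp (Complex.I * ((2 * π * u : ℝ) : ℂ)) := by
        rw [ed_ee, mul_comm]
      rw [h4, Complex.norm_exp_I_mul_ofReal_sub_one]
      have h5 : 2 * π * u / 2 = π * u := by ring
      rw [h5, Real.norm_eq_abs, abs_of_pos (by positivity)]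
    have h6 : ‖ee (L * u) - 1‖ ≤ 2 := by
      calc ‖ee (L * u) - 1‖ ≤ ‖ee (L * u)‖ + ‖(1 : ℂ)‖ := norm_sub_le _ _
        _ = 2 := by rw [ed_ee_norm, norm_one]; norm_num
    rw [← h2, norm_mul, h3] at h6
    linarith
  have hD2 : ‖∑ a ∈ range L, ee (a * u)‖ ^ 2 ≤ 1 / (Real.sin (π * u)) ^ 2 := by
    rw [le_div_iff₀ (by positivity), ← mul_pow]
    have : 0 ≤ ‖∑ a ∈ range L, ee (a * u)‖ * Real.sin (π * u) := by positivity
    exact pow_le_one₀ this hD
  rw [edF_eq, div_le_iff₀ hLR]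
  have h7 := ed_sin_lb u h0 h1
  calc ‖∑ a ∈ range L, ee (a * u)‖ ^ 2 ≤ (1 / 4) * ((u ^ 2)⁻¹ + ((1 - u) ^ 2)⁻¹) :=
        le_trans hD2 h7
    _ = _ := by field_simp

private theorem ed_tail (L : ℕ) (hL : 1 ≤ L) (δ : ℝ) (hδ : 0 < δ) (hδ2 : δ ≤ 1 / 2) :
    ∫ u in δ..(1 - δ), edF L u ≤ 1 / (2 * L * δ) := by
  have hLR : (0 : ℝ) < L := by exact_mod_cast hL
  have hcont : ContinuousOn (fun u : ℝ => (1 / (4 * (L : ℝ))) * ((u ^ 2)⁻¹ + ((1 - u) ^ 2)⁻¹))
      (Set.uIcc δ (1 - δ)) := by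
    rw [Set.uIcc_of_le (by linarith)]
    apply ContinuousOn.mul continuousOn_const
    apply ContinuousOn.add
    · apply ContinuousOn.inv₀ (by fun_prop)
      intro u hu
      have : 0 < u := lt_of_lt_of_le hδ hu.1
      positivity
    · apply ContinuousOn.inv₀ (by fun_prop)
      intro u hu
      have : 0 < 1 - u := by linarith [hu.2]
      positivity
  have h1 : ∫ u in δ..(1 - δ), edF L u ≤
      ∫ u in δ..(1 - δ), (1 / (4 * (L : ℝ))) * ((u ^ 2)⁻¹ + ((1 - u) ^ 2)⁻¹) := by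
    apply intervalIntegral.integral_mono_on (by linarith)
      ((edF_cont L).intervalIntegrable _ _) hcont.intervalIntegrable
    intro u hu
    exact edF_bound L hL u (lt_of_lt_of_le hδ hu.1) (by linarith [hu.2])
  have h2 : ∫ u in δ..(1 - δ), (1 / (4 * (L : ℝ))) * ((u ^ 2)⁻¹ + ((1 - u) ^ 2)⁻¹) =
      (1 / (4 * (L : ℝ))) * (-(1 - δ)⁻¹ + (1 - (1 - δ))⁻¹) -
        (1 / (4 * (L : ℝ))) * (-δ⁻¹ + (1 - δ)⁻¹) := by
    apply intervalIntegral.integral_eq_sub_of_hasDerivAt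
      (f := fun u : ℝ => (1 / (4 * (L : ℝ))) * (-u⁻¹ + (1 - u)⁻¹)) _ hcont.intervalIntegrable
    intro u hu
    rw [Set.uIcc_of_le (by linarith)] at hu
    have hu0 : u ≠ 0 := by linarith [hu.1]
    have hu1 : 1 - u ≠ 0 := by linarith [hu.2]
    have e1 : HasDerivAt (fun u : ℝ => -u⁻¹) ((u ^ 2)⁻¹) u := by
      have h0 := (hasDerivAt_inv hu0).fun_neg
      rw [neg_neg] at h0
      exact h0
    have e2 : HasDerivAt (fun u : ℝ => (1 - u)⁻¹) (((1 - u) ^ 2)⁻¹) u := by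
      have h3 : HasDerivAt (fun u : ℝ => 1 - u) (-1) u := by
        simpa using (hasDerivAt_id u).const_sub 1
      have h4 := h3.fun_inv hu1
      rw [neg_neg, one_div] at h4
      exact h4
    exact (e1.add e2).const_mul _
  rw [h2] at h1
  have h3 : (1 / (4 * (L : ℝ))) * (-(1 - δ)⁻¹ + (1 - (1 - δ))⁻¹) -
        (1 / (4 * (L : ℝ))) * (-δ⁻¹ + (1 - δ)⁻¹) = 1 / (2 * L * δ) - 1 / (2 * L) * (1 - δ)⁻¹ := by
    have hd : δ ≠ 0 := hδ.ne'
    have hd1 : 1 - δ ≠ 0 := by linarith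
    rw [sub_sub_cancel]
    field_simp
    ring
  rw [h3] at h1
  have h4 : 0 < 1 / (2 * (L : ℝ)) * (1 - δ)⁻¹ := by
    have : 0 < 1 - δ := by linarith
    positivity
  linarith

private theorem ed_cos_int (m : ℕ) (hm : m ≠ 0) (c : ℝ) (y : ℝ) :
    ∫ θ in c..(c + 1), Real.cos (2 * π * m * (θ - y)) = 0 := by
  have hπ := Real.pi_pos
  have hmR : (0 : ℝ) < m := by exact_mod_cast Nat.pos_of_ne_zero hm
  have hc : (2 * π * m) ≠ 0 := by positivity
  rw [intervalIntegral.integral_eq_sub_of_hasDerivAt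
    (f := fun θ : ℝ => Real.sin (2 * π * m * (θ - y)) / (2 * π * m))]
  · have h1 : 2 * π * m * (c + 1 - y) = 2 * π * m * (c - y) + m * (2 * π) := by ring
    rw [h1, Real.sin_add_nat_mul_two_pi, sub_self]
  · intro θ _
    have h2 : HasDerivAt (fun θ : ℝ => 2 * π * m * (θ - y)) (2 * π * m) θ := by
      simpa using ((hasDerivAt_id θ).sub_const y).const_mul (2 * π * m)
    have h3 := h2.sin.div_const (2 * π * m)
    rw [mul_div_cancel_right₀ _ hc] at h3
    exact h3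
  · exact (by fun_prop : Continuous fun θ : ℝ => Real.cos (2 * π * m * (θ - y))).intervalIntegrable _ _

private theorem ed_period (L : ℕ) (hL : 1 ≤ L) (c y : ℝ) :
    ∫ θ in c..(c + 1), edF L (θ - y) = 1 := by
  have hLR : (0 : ℝ) < L := by exact_mod_cast hL
  unfold edF
  rw [intervalIntegral.integral_div, intervalIntegral.integral_finsetSum]
  · have h1 : ∀ a ∈ range L, ∫ θ in c..(c + 1), ∑ b ∈ range L,
        Real.cos (2 * π * ((((a : ℤ) - b).natAbs : ℕ) : ℝ) * (θ - y)) = 1 := by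
      intro a ha
      rw [intervalIntegral.integral_finsetSum]
      · rw [sum_eq_single a]
        · simp
        · intro b _ hb
          apply ed_cos_int
          omega
        · intro h; exact absurd ha h
      · intro b _
        exact (by fun_prop : Continuous fun θ : ℝ =>
          Real.cos (2 * π * ((((a : ℤ) - b).natAbs : ℕ) : ℝ) * (θ - y))).intervalIntegrable _ _
    rw [sum_congr rfl h1, sum_const, card_range, nsmul_eq_mul, mul_one, div_self hLR.ne']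
  · intro a _
    exact (by fun_prop : Continuous fun θ : ℝ => ∑ b ∈ range L,
          Real.cos (2 * π * ((((a : ℤ) - b).natAbs : ℕ) : ℝ) * (θ - y))).intervalIntegrable _ _

/-- sum of the kernel over the points -/
private theorem ed_sum (ι : Type) (s : Finset ι) (y : ι → ℝ) (H : ℕ) (κ : ℝ) (hH : 1 ≤ H)
    (hκ : 0 ≤ κ) (hS : ∀ h ∈ Icc 1 H, ‖∑ n ∈ s, ee ((h : ℝ) * y n)‖ ≤ κ * s.card) (θ : ℝ) :
    ∑ n ∈ s, edF H (θ - y n) ≤ (1 + H * κ) * s.card := by
  have hHR : (0 : ℝ) < H := by exact_mod_cast hH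
  unfold edF
  rw [← sum_div, div_le_iff₀ hHR, sum_comm]
  have h1 : ∀ a ∈ range H, ∑ n ∈ s, ∑ b ∈ range H,
      Real.cos (2 * π * ((((a : ℤ) - b).natAbs : ℕ) : ℝ) * (θ - y n)) ≤
        (1 + H * κ) * s.card := by
    intro a ha
    rw [sum_comm]
    have h2 : ∀ b ∈ range H, ∑ n ∈ s,
        Real.cos (2 * π * ((((a : ℤ) - b).natAbs : ℕ) : ℝ) * (θ - y n)) ≤
          (if b = a then (s.card : ℝ) else 0) + κ * s.card := by
      intro b hb
      rw [mem_range] at ha hb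
      by_cases hab : b = a
      · subst hab
        simp only [sub_self, Int.natAbs_zero, Nat.cast_zero, mul_zero, zero_mul, Real.cos_zero,
          sum_const, nsmul_eq_mul, mul_one, if_true]
        have : 0 ≤ κ * s.card := by positivity
        linarith
      · rw [if_neg hab, zero_add]
        set h := ((a : ℤ) - b).natAbs with hh
        have h3 : h ∈ Icc 1 H := by rw [mem_Icc]; omega
        have h4 := hS h h3
        have h5 : ∑ n ∈ s, Real.cos (2 * π * (h : ℝ) * (θ - y n)) =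
            (ee (h * θ) * (starRingEnd ℂ) (∑ n ∈ s, ee ((h : ℝ) * y n))).re := by
          rw [map_sum, mul_sum, Complex.re_sum]
          apply sum_congr rfl
          intro n _
          rw [Complex.mul_re, Complex.conj_re, Complex.conj_im, ed_ee_re, ed_ee_re, ed_ee_im,
            ed_ee_im]
          have h6 : 2 * π * (h : ℝ) * (θ - y n) = 2 * π * (h * θ) - 2 * π * (h * y n) := by ring
          rw [h6, Real.cos_sub]
          ring
        rw [h5]
        refine le_trans (Complex.re_le_norm _) ?_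
        rw [norm_mul, ed_ee_norm, one_mul, RCLike.norm_conj]
        exact h4
    refine le_trans (sum_le_sum h2) ?_
    rw [sum_add_distrib, sum_ite_eq' (range H) a, if_pos ha, sum_const, card_range, nsmul_eq_mul]
    have : (1 + (H : ℝ) * κ) * s.card = s.card + H * (κ * s.card) := by ring
    rw [this]
  refine le_trans (sum_le_sum h1) ?_
  rw [sum_const, card_range, nsmul_eq_mul]
  linarith

open Classical in
/-- the upper bound for arcs -/
private theorem ed_upper (ι : Type) (s : Finset ι) (y : ι → ℝ) (H : ℕ) (κ : ℝ) (hH : 1 ≤ H)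
    (hκ : 0 ≤ κ) (hS : ∀ h ∈ Icc 1 H, ‖∑ n ∈ s, ee ((h : ℝ) * y n)‖ ≤ κ * s.card)
    (a b : ℝ) (hab : a ≤ b) :
    ((s.filter (fun n => a ≤ y n ∧ y n < b)).card : ℝ) ≤
      (b - a) * s.card + 3 * ((H : ℝ) ^ (-(1 : ℝ) / 2) + H * κ) * s.card := by
  have hHR : (0 : ℝ) < H := by exact_mod_cast hH
  have hH1 : (1 : ℝ) ≤ H := by exact_mod_cast hH
  set δ : ℝ := (H : ℝ) ^ (-(1 : ℝ) / 2) with hδ
  have hδ0 : 0 < δ := by positivity
  have hδ1 : δ ≤ 1 := Real.rpow_le_one_of_one_le_of_nonpos hH1 (by norm_num)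
  have hHδ : (H : ℝ) * δ ^ 2 = 1 := by
    rw [hδ, ← Real.rpow_natCast, ← Real.rpow_mul hHR.le]
    norm_num
    rw [Real.rpow_neg_one]
    field_simp
  have hcard : (0 : ℝ) ≤ s.card := by positivity
  have hle : ((s.filter (fun n => a ≤ y n ∧ y n < b)).card : ℝ) ≤ s.card := by
    exact_mod_cast card_filter_le _ _
  by_cases hbig : 1 ≤ b - a + 2 * δ
  · have h1 : (s.card : ℝ) ≤ (b - a + 2 * δ) * s.card := by nlinarith
    have h2 : 0 ≤ (δ + 3 * (H * κ)) * s.card := by positivity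
    nlinarith
  · push Not at hbig
    have hδ2 : δ ≤ 1 / 2 := by linarith
    -- the integral over the large arc
    set J : ℝ → ℝ := fun v => ∫ θ in (a - δ)..(b + δ), edF H (θ - v) with hJ
    have hJ0 : ∀ v, 0 ≤ J v := by
      intro v
      apply intervalIntegral.integral_nonneg (by linarith)
      intro u _
      exact edF_nonneg H _
    have hcont : ∀ v, Continuous (fun θ : ℝ => edF H (θ - v)) :=
      fun v => (edF_cont H).comp (by fun_prop)
    have hJ1 : ∀ v, a ≤ v → v < b → 1 - δ / 2 ≤ J v := by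
      intro v hv1 hv2
      have h1 := ed_period H hH (a - δ) v
      have h2 := intervalIntegral.integral_add_adjacent_intervals
        ((hcont v).intervalIntegrable (a - δ) (b + δ) (μ := MeasureTheory.volume))
        ((hcont v).intervalIntegrable (b + δ) (a - δ + 1))
      have h3 : ∫ θ in (b + δ)..(a - δ + 1), edF H (θ - v) ≤ δ / 2 := by
        rw [intervalIntegral.integral_comp_sub_right (fun u => edF H u) v]
        have h4 : ∫ u in (b + δ - v)..(a - δ + 1 - v), edF H u ≤ ∫ u in δ..(1 - δ), edF H u := by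
          apply intervalIntegral.integral_mono_interval (by linarith) (by linarith) (by linarith)
          · exact Filter.Eventually.of_forall (fun u => edF_nonneg H u)
          · exact (edF_cont H).intervalIntegrable _ _
        have h5 := ed_tail H hH δ hδ0 hδ2
        have h6 : 1 / (2 * H * δ) = δ / 2 := by
          rw [div_eq_div_iff (by positivity) (by norm_num)]
          nlinarith
        linarith
      have h7 : J v + ∫ θ in (b + δ)..(a - δ + 1), edF H (θ - v) = 1 := by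
        rw [hJ]; simp only; rw [h2, h1]
      linarith
    have hsum : ∑ n ∈ s, J (y n) ≤ (b - a + 2 * δ) * ((1 + H * κ) * s.card) := by
      have h1 : ∑ n ∈ s, J (y n) = ∫ θ in (a - δ)..(b + δ), ∑ n ∈ s, edF H (θ - y n) := by
        rw [intervalIntegral.integral_finsetSum]
        intro n _
        exact (hcont _).intervalIntegrable _ _
      rw [h1]
      have h2 : ∫ θ in (a - δ)..(b + δ), ∑ n ∈ s, edF H (θ - y n) ≤
          ∫ _θ in (a - δ)..(b + δ), (1 + H * κ) * s.card := by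
        apply intervalIntegral.integral_mono_on (by linarith)
        · exact (continuous_finsetSum s (fun n _ => hcont (y n))).intervalIntegrable _ _
        · exact continuous_const.intervalIntegrable _ _
        · intro θ _
          exact ed_sum ι s y H κ hH hκ hS θ
      rw [intervalIntegral.integral_const, smul_eq_mul] at h2
      have h3 : b + δ - (a - δ) = b - a + 2 * δ := by ring
      rw [h3] at h2
      exact h2
    have hlow : (1 - δ / 2) * ((s.filter (fun n => a ≤ y n ∧ y n < b)).card : ℝ) ≤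
        ∑ n ∈ s, J (y n) := by
      calc (1 - δ / 2) * ((s.filter (fun n => a ≤ y n ∧ y n < b)).card : ℝ)
          = ∑ n ∈ s.filter (fun n => a ≤ y n ∧ y n < b), (1 - δ / 2) := by
            rw [sum_const, nsmul_eq_mul, mul_comm]
        _ ≤ ∑ n ∈ s.filter (fun n => a ≤ y n ∧ y n < b), J (y n) := by
            apply sum_le_sum
            intro n hn
            rw [mem_filter] at hn
            exact hJ1 _ hn.2.1 hn.2.2
        _ ≤ ∑ n ∈ s, J (y n) :=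
            sum_le_sum_of_subset_of_nonneg (filter_subset _ _) (fun n _ _ => hJ0 _)
    set F : ℝ := ((s.filter (fun n => a ≤ y n ∧ y n < b)).card : ℝ) with hF
    have h1 : F ≤ δ / 2 * s.card + (b - a + 2 * δ) * ((1 + H * κ) * s.card) := by nlinarith
    have h2 : (b - a + 2 * δ) * ((1 + H * κ) * s.card) ≤
        (b - a + 2 * δ) * s.card + 1 * (H * κ * s.card) := by
      have h3 : 0 ≤ H * κ * s.card := by positivity
      nlinarith
    have h4 : 0 ≤ H * κ * s.card := by positivity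
    nlinarith [mul_nonneg hδ0.le hcard]

open Classical in
theorem equidist : ∃ C : ℝ, 0 ≤ C ∧ ∀ (ι : Type) (s : Finset ι) (x : ι → ℝ) (H : ℕ) (κ : ℝ),
    1 ≤ H → 0 ≤ κ → (∀ h ∈ Icc 1 H, ‖∑ n ∈ s, ee ((h : ℝ) * x n)‖ ≤ κ * s.card) →
    ∀ l : ℝ, 0 ≤ l → l ≤ 1 →
    |((s.filter (fun n => Int.fract (x n) < l)).card : ℝ) - l * s.card| ≤
      C * ((H : ℝ) ^ (-(1 : ℝ) / 2) + H * κ) * s.card := by
  refine ⟨3, by norm_num, ?_⟩
  intro ι s x H κ hH hκ hS l hl0 hl1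
  have hS' : ∀ h ∈ Icc 1 H, ‖∑ n ∈ s, ee ((h : ℝ) * Int.fract (x n))‖ ≤ κ * s.card := by
    intro h hh
    have h1 : ∀ n ∈ s, ee ((h : ℝ) * Int.fract (x n)) = ee ((h : ℝ) * x n) := by
      intro n _
      have h2 : (h : ℝ) * x n = (h : ℝ) * Int.fract (x n) + (((h : ℤ) * ⌊x n⌋ : ℤ) : ℝ) := by
        push_cast
        rw [← mul_add, Int.fract_add_floor]
      rw [h2, ed_ee_add, ed_ee_int, mul_one]
    rw [sum_congr rfl h1]
    exact hS h hh
  have hu := ed_upper ι s (fun n => Int.fract (x n)) H κ hH hκ hS' 0 l hl0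
  have hd := ed_upper ι s (fun n => Int.fract (x n)) H κ hH hκ hS' l 1 hl1
  have e1 : s.filter (fun n => 0 ≤ Int.fract (x n) ∧ Int.fract (x n) < l) =
      s.filter (fun n => Int.fract (x n) < l) := by
    apply filter_congr
    intro n _
    exact ⟨fun h => h.2, fun h => ⟨Int.fract_nonneg _, h⟩⟩
  have e2 : s.filter (fun n => l ≤ Int.fract (x n) ∧ Int.fract (x n) < 1) =
      s.filter (fun n => ¬ Int.fract (x n) < l) := by
    apply filter_congr
    intro n _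
    exact ⟨fun h => not_lt.2 h.1, fun h => ⟨not_lt.1 h, Int.fract_lt_one _⟩⟩
  rw [e1] at hu
  rw [e2] at hd
  have e3 : ((s.filter (fun n => Int.fract (x n) < l)).card : ℝ) +
      ((s.filter (fun n => ¬ Int.fract (x n) < l)).card : ℝ) = s.card := by
    exact_mod_cast card_filter_add_card_filter_not (fun n => Int.fract (x n) < l)
  rw [abs_le]
  constructor <;> nlinarith

end EK75

end S_H75_EK_Ed

section S_H75_EK_Tn

/-! Module TN: major arc data at scale `N`. -/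

open Polynomial Finset
open scoped Real BigOperators

namespace EK75

/-- there is an approximation of height `T` at scale `N` -/
def tn_A (f : ℝ[X]) (N T : ℕ) : Prop :=
  1 ≤ T ∧ ∃ q : ℕ, 1 ≤ q ∧ q ≤ T ∧ ∀ j ∈ Icc 1 f.natDegree,
    ∃ m : ℤ, |(q : ℝ) * f.coeff j - m| * (N : ℝ) ^ j ≤ T

theorem tn_A_exists (f : ℝ[X]) (N : ℕ) (hN : 1 ≤ N) : ∃ T, tn_A f N T := by
  have hN' : (1 : ℝ) ≤ N := by exact_mod_cast hN
  refine ⟨N ^ f.natDegree, Nat.one_le_pow _ _ hN, 1, le_rfl, Nat.one_le_pow _ _ hN, ?_⟩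
  intro j hj
  rw [Finset.mem_Icc] at hj
  refine ⟨round ((1 : ℕ) * f.coeff j : ℝ), ?_⟩
  have h1 : |((1 : ℕ) : ℝ) * f.coeff j - round (((1 : ℕ) : ℝ) * f.coeff j)| ≤ 1 :=
    (abs_sub_round _).trans (by norm_num)
  have h2 : (N : ℝ) ^ j ≤ (N : ℝ) ^ f.natDegree := pow_le_pow_right₀ hN' hj.2
  push_cast at h1 ⊢
  calc _ ≤ 1 * (N : ℝ) ^ j := mul_le_mul_of_nonneg_right h1 (by positivity)
    _ ≤ _ := by rw [one_mul]; exact h2

theorem majD_exists (f : ℝ[X]) (N : ℕ) (hN : 1 ≤ N) :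
    ∃ (T q : ℕ) (a : ℕ → ℤ), 1 ≤ T ∧ MajD f N T q a ∧ NonApp f N T := by
  classical
  have hex := tn_A_exists f N hN
  obtain ⟨hT1, q, hq1, hqT, hq⟩ := Nat.find_spec hex
  have hmin : ∀ T', T' < Nat.find hex → ¬ tn_A f N T' := fun T' h => Nat.find_min hex h
  generalize Nat.find hex = T at hT1 hqT hq hmin
  choose! a ha using hq
  refine ⟨T, q, a, hT1, ⟨hq1, hqT, ha, ?_, ?_⟩, ?_⟩
  · intro p hp hpq
    by_contra hcon
    push Not at hcon
    obtain ⟨r, rfl⟩ := hpq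
    have hp2 := hp.two_le
    have hr1 : 1 ≤ r := by
      rcases Nat.eq_zero_or_pos r with h | h
      · subst h; omega
      · exact h
    have h2r : 2 * r ≤ p * r := Nat.mul_le_mul_right _ hp2
    refine hmin (T - 1) (by omega) ⟨by omega, r, hr1, by omega, ?_⟩
    intro j hj
    obtain ⟨b, hb⟩ := hcon j hj
    refine ⟨b, ?_⟩
    have h1 := ha j hj
    rw [hb] at h1
    have h2 : ((p * r : ℕ) : ℝ) * f.coeff j - ((p * b : ℤ) : ℝ) = p * ((r : ℝ) * f.coeff j - b) := by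
      push_cast; ring
    rw [h2, abs_mul, Nat.abs_cast] at h1
    have h3 : (2 : ℝ) ≤ p := by exact_mod_cast hp2
    have h4 : 0 ≤ |(r : ℝ) * f.coeff j - b| * (N : ℝ) ^ j := by positivity
    have h5 : (2 : ℝ) ≤ T := by
      have : 2 ≤ T := by omega
      exact_mod_cast this
    rw [Nat.cast_sub hT1]
    push_cast
    nlinarith
  · by_contra hcon
    push Not at hcon
    obtain ⟨h1, h2⟩ := hcon
    refine hmin (T - 1) (by omega) ⟨by omega, q, hq1, by omega, ?_⟩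
    intro j hj
    refine ⟨a j, ?_⟩
    rw [Nat.cast_sub hT1]
    exact (h2 j hj).le.trans (by simp)
  · intro q' hq1' hqT'
    by_contra hcon
    push Not at hcon
    refine hmin (T - 1) (by omega) ⟨by omega, q', hq1', by omega, ?_⟩
    intro j hj
    refine ⟨round ((q' : ℝ) * f.coeff j), ?_⟩
    rw [Nat.cast_sub hT1]
    exact (hcon j hj).trans (by simp)

theorem majD_tendsto (f : ℝ[X]) (hf : ∃ j, 1 ≤ j ∧ Irrational (f.coeff j)) :
    ∀ T0 : ℕ, ∃ N0 : ℕ, ∀ N, N0 ≤ N → ∀ (T q : ℕ) (a : ℕ → ℤ), MajD f N T q a → T0 ≤ T := by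
  obtain ⟨j, hj1, hj⟩ := hf
  have hjk : j ∈ Icc 1 f.natDegree := by
    rw [Finset.mem_Icc]
    refine ⟨hj1, le_natDegree_of_ne_zero ?_⟩
    exact hj.ne_zero
  intro T0
  have hpos : ∀ q : ℕ, 1 ≤ q → 0 < |(q : ℝ) * f.coeff j - round ((q : ℝ) * f.coeff j)| := by
    intro q hq
    rw [abs_pos, sub_ne_zero]
    have h1 : Irrational ((q : ℝ) * f.coeff j) := hj.natCast_mul (by omega)
    exact h1.ne_int _
  have hδ : ∃ δ : ℝ, 0 < δ ∧ ∀ q ∈ Icc 1 T0,
      δ ≤ |(q : ℝ) * f.coeff j - round ((q : ℝ) * f.coeff j)| := by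
    rcases (Icc 1 T0).eq_empty_or_nonempty with he | hne
    · exact ⟨1, one_pos, by rw [he]; simp⟩
    · refine ⟨(Icc 1 T0).inf' hne
        (fun q : ℕ => |(q : ℝ) * f.coeff j - round ((q : ℝ) * f.coeff j)|), ?_, ?_⟩
      · rw [Finset.lt_inf'_iff]
        intro q hq
        exact hpos q (Finset.mem_Icc.1 hq).1
      · intro q hq
        exact Finset.inf'_le _ hq
  obtain ⟨δ, hδ0, hδ⟩ := hδ
  refine ⟨⌊(T0 : ℝ) / δ⌋₊ + 1, ?_⟩
  intro N hN T q a h
  by_contra hT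
  push Not at hT
  have h1 := h.app j hjk
  have h2 := hδ q (Finset.mem_Icc.2 ⟨h.q1, h.qT.trans hT.le⟩)
  have h3 : δ ≤ |(q : ℝ) * f.coeff j - a j| := h2.trans (round_le _ _)
  have hN' : (T0 : ℝ) / δ < N := by
    refine (Nat.lt_floor_add_one _).trans_le ?_
    exact_mod_cast hN
  have hN1 : (1 : ℝ) ≤ N := by
    have : 1 ≤ N := by omega
    exact_mod_cast this
  have h4 : (N : ℝ) ≤ (N : ℝ) ^ j := by
    calc (N : ℝ) = (N : ℝ) ^ 1 := (pow_one _).symm
      _ ≤ _ := pow_le_pow_right₀ hN1 hj1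
  have h5 : (T0 : ℝ) < N * δ := by rwa [div_lt_iff₀ hδ0] at hN'
  have h6 : δ * (N : ℝ) ≤ |(q : ℝ) * f.coeff j - a j| * (N : ℝ) ^ j :=
    mul_le_mul h3 h4 (by linarith) (abs_nonneg _)
  have h7 : (T : ℝ) < T0 := by exact_mod_cast hT
  linarith

theorem nonApp_mono (f : ℝ[X]) (N T T' : ℕ) (h : NonApp f N T) (hT : T' ≤ T) : NonApp f N T' := by
  intro q hq1 hqT
  obtain ⟨j, hj, h1⟩ := h q hq1 (lt_of_lt_of_le hqT hT)
  refine ⟨j, hj, lt_of_le_of_lt ?_ h1⟩
  have : (T' : ℝ) ≤ T := by exact_mod_cast hT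
  linarith

/-- consequences of the definitions -/
theorem majD_tt (f : ℝ[X]) (N T q : ℕ) (a : ℕ → ℤ) (h : MajD f N T q a) (n : ℕ) (hn : n ∈ Icc 1 N) :
    |(tt f q a n : ℝ)| ≤ (1 + |f.coeff 0| + f.natDegree) * T := by
  rw [Finset.mem_Icc] at hn
  have hF : (((FF f.natDegree a).eval (n : ℤ) : ℤ) : ℝ) = ∑ j ∈ Icc 1 f.natDegree, (a j : ℝ) * (n : ℝ) ^ j := by
    simp only [FF, eval_finsetSum, eval_mul, eval_C, eval_pow, eval_X]
    push_cast
    rfl
  have hf : f.eval (n : ℝ) = f.coeff 0 + ∑ j ∈ Icc 1 f.natDegree, f.coeff j * (n : ℝ) ^ j := by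
    rw [eval_eq_sum_range, Finset.range_eq_Ico, Finset.sum_eq_sum_Ico_succ_bot (Nat.succ_pos _)]
    simp only [pow_zero, mul_one]
    rfl
  have hfr : f.eval (n : ℝ) = ⌊f.eval (n : ℝ)⌋ + Int.fract (f.eval (n : ℝ)) :=
    (Int.floor_add_fract _).symm
  have h1 : (tt f q a n : ℝ) = q * Int.fract (f.eval (n : ℝ)) - (q * f.coeff 0 +
      ∑ j ∈ Icc 1 f.natDegree, ((q : ℝ) * f.coeff j - a j) * (n : ℝ) ^ j) := by
    have h2 : ∑ j ∈ Icc 1 f.natDegree, ((q : ℝ) * f.coeff j - a j) * (n : ℝ) ^ j =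
        q * ∑ j ∈ Icc 1 f.natDegree, f.coeff j * (n : ℝ) ^ j -
          ∑ j ∈ Icc 1 f.natDegree, (a j : ℝ) * (n : ℝ) ^ j := by
      rw [Finset.mul_sum, ← Finset.sum_sub_distrib]
      exact Finset.sum_congr rfl fun j _ => by ring
    unfold tt
    push_cast
    rw [hF, h2]
    have h3 : (⌊f.eval (n : ℝ)⌋ : ℝ) = f.eval (n : ℝ) - Int.fract (f.eval (n : ℝ)) := by linarith
    rw [h3, hf]
    ring
  have hqT : (q : ℝ) ≤ T := by exact_mod_cast h.qT
  have hn0 : (0 : ℝ) ≤ n := Nat.cast_nonneg _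
  have hnN : (n : ℝ) ≤ N := by exact_mod_cast hn.2
  have h4 : |∑ j ∈ Icc 1 f.natDegree, ((q : ℝ) * f.coeff j - a j) * (n : ℝ) ^ j| ≤
      f.natDegree * T := by
    refine (Finset.abs_sum_le_sum_abs _ _).trans ?_
    calc _ ≤ ∑ j ∈ Icc 1 f.natDegree, (T : ℝ) := by
          refine Finset.sum_le_sum fun j hj => ?_
          rw [abs_mul, abs_of_nonneg (pow_nonneg hn0 j)]
          refine le_trans ?_ (h.app j hj)
          exact mul_le_mul_of_nonneg_left (pow_le_pow_left₀ hn0 hnN _) (abs_nonneg _)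
      _ = f.natDegree * T := by simp
  have h5 : |(q : ℝ) * f.coeff 0| ≤ T * |f.coeff 0| := by
    rw [abs_mul, Nat.abs_cast]
    exact mul_le_mul_of_nonneg_right hqT (abs_nonneg _)
  have h6 : |(q : ℝ) * Int.fract (f.eval (n : ℝ))| ≤ T := by
    rw [abs_mul, Nat.abs_cast, abs_of_nonneg (Int.fract_nonneg _)]
    calc (q : ℝ) * Int.fract (f.eval (n : ℝ)) ≤ q * 1 :=
          mul_le_mul_of_nonneg_left (Int.fract_lt_one _).le (Nat.cast_nonneg _)
      _ ≤ T := by rw [mul_one]; exact hqT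
  rw [h1]
  refine (abs_sub _ _).trans ?_
  refine (add_le_add h6 ((abs_add_le _ _).trans (add_le_add h5 h4))).trans ?_
  exact le_of_eq (by ring)

theorem majD_coeff (f : ℝ[X]) (N T q : ℕ) (a : ℕ → ℤ) (h : MajD f N T q a) (hTN : T ≤ N) (j : ℕ)
    (hj : j ∈ Icc 1 f.natDegree) : |((a j : ℤ) : ℝ)| ≤ (|f.coeff j| + 1) * q := by
  have h1 := h.app j hj
  rw [Finset.mem_Icc] at hj
  have hq1 : (1 : ℝ) ≤ q := by exact_mod_cast h.q1
  have hqT : (q : ℝ) ≤ T := by exact_mod_cast h.qT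
  have hTN' : (T : ℝ) ≤ N := by exact_mod_cast hTN
  have hN1 : (1 : ℝ) ≤ N := by linarith
  have h4 : (N : ℝ) ≤ (N : ℝ) ^ j := by
    calc (N : ℝ) = (N : ℝ) ^ 1 := (pow_one _).symm
      _ ≤ _ := pow_le_pow_right₀ hN1 hj.1
  have h5 : |(q : ℝ) * f.coeff j - a j| ≤ 1 := by
    by_contra hcon
    push Not at hcon
    have h6 : 1 * (N : ℝ) ^ j < |(q : ℝ) * f.coeff j - a j| * (N : ℝ) ^ j :=
      mul_lt_mul_of_pos_right hcon (by linarith)
    linarith
  have h6 : |((a j : ℤ) : ℝ)| ≤ |(q : ℝ) * f.coeff j| + |(q : ℝ) * f.coeff j - a j| := by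
    have := abs_sub_abs_le_abs_sub (a j : ℝ) ((q : ℝ) * f.coeff j)
    rw [abs_sub_comm] at this
    linarith
  rw [abs_mul, Nat.abs_cast] at h6
  nlinarith [abs_nonneg (f.coeff j)]

/-- lower bound for the leading coefficient, when `T^2 ≤ N` and `N` is large -/
theorem majD_lead (f : ℝ[X]) (hk : 1 ≤ f.natDegree) : ∃ N0 : ℕ, ∀ N, N0 ≤ N → ∀ (T q : ℕ)
    (a : ℕ → ℤ), MajD f N T q a → T ^ 2 ≤ N →
    |f.leadingCoeff| / 2 * q ≤ |((a f.natDegree : ℤ) : ℝ)| := by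
  have hf : f ≠ 0 := by
    rintro rfl
    simp at hk
  have hlc : 0 < |f.leadingCoeff| := abs_pos.2 (leadingCoeff_ne_zero.2 hf)
  refine ⟨⌈4 / |f.leadingCoeff| ^ 2⌉₊, ?_⟩
  intro N hN T q a h hTN
  have h1 := h.app f.natDegree (Finset.mem_Icc.2 ⟨hk, le_rfl⟩)
  have hq1 : (1 : ℝ) ≤ q := by exact_mod_cast h.q1
  have hqT : (q : ℝ) ≤ T := by exact_mod_cast h.qT
  have hTN' : (T : ℝ) ^ 2 ≤ N := by exact_mod_cast hTN
  have hN' : 4 / |f.leadingCoeff| ^ 2 ≤ (N : ℝ) := (Nat.le_ceil _).trans (by exact_mod_cast hN)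
  have hN1 : (1 : ℝ) ≤ N := by nlinarith
  have h4 : (N : ℝ) ≤ (N : ℝ) ^ f.natDegree := by
    calc (N : ℝ) = (N : ℝ) ^ 1 := (pow_one _).symm
      _ ≤ _ := pow_le_pow_right₀ hN1 hk
  change |(q : ℝ) * f.leadingCoeff - a f.natDegree| * (N : ℝ) ^ f.natDegree ≤ T at h1
  have h5 : |(q : ℝ) * f.leadingCoeff - a f.natDegree| ≤ |f.leadingCoeff| / 2 := by
    by_contra hcon
    push Not at hcon
    have h6 : |f.leadingCoeff| / 2 * (N : ℝ) < |(q : ℝ) * f.leadingCoeff - a f.natDegree| *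
        (N : ℝ) ^ f.natDegree :=
      lt_of_lt_of_le (mul_lt_mul_of_pos_right hcon (by linarith))
        (mul_le_mul_of_nonneg_left h4 (abs_nonneg _))
    have h7 : |f.leadingCoeff| / 2 * (N : ℝ) < T := lt_of_lt_of_le h6 h1
    rw [div_le_iff₀ (by positivity)] at hN'
    have h8 : (|f.leadingCoeff| / 2 * (N : ℝ)) ^ 2 < (T : ℝ) ^ 2 :=
      pow_lt_pow_left₀ h7 (by positivity) (by norm_num)
    have h9 : (|f.leadingCoeff| / 2 * (N : ℝ)) ^ 2 = (N * |f.leadingCoeff| ^ 2) * N / 4 := by ring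
    rw [h9] at h8
    nlinarith
  have h6 : |(q : ℝ) * f.leadingCoeff| ≤ |(q : ℝ) * f.leadingCoeff - a f.natDegree| +
      |((a f.natDegree : ℤ) : ℝ)| := by
    have := abs_sub_abs_le_abs_sub ((q : ℝ) * f.leadingCoeff) (a f.natDegree : ℝ)
    linarith
  rw [abs_mul, Nat.abs_cast] at h6
  nlinarith

end EK75

end S_H75_EK_Tn

section S_H75_EK_W2

/-! Module W2: divisibility of `⌊f(n)⌋` by small `d`. -/

open Polynomial Finset
open scoped Real BigOperators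

namespace EK75

theorem w2_ee_add (x y : ℝ) : ee (x + y) = ee x * ee y := by
  unfold ee
  rw [← Complex.exp_add]
  congr 1
  push_cast
  ring

theorem w2_norm_ee (x : ℝ) : ‖ee x‖ = 1 := by
  unfold ee
  have : (2 * (π : ℂ) * (x : ℂ) * Complex.I) = ((2 * π * x : ℝ) : ℂ) * Complex.I := by
    push_cast; ring
  rw [this, Complex.norm_exp_ofReal_mul_I]

theorem w2_nint_le (x : ℝ) (m : ℤ) : nint x ≤ |x - m| := round_le x m

theorem w2_nint_mul (d : ℕ) (x : ℝ) : nint (d * x) ≤ d * nint x := by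
  have h := w2_nint_le (d * x) (d * round x)
  refine h.trans ?_
  push_cast
  rw [← mul_sub, abs_mul, Nat.abs_cast]
  exact le_rfl

theorem w2_dvd_iff (d : ℕ) (hd : 1 ≤ d) (y : ℝ) :
    (d : ℤ) ∣ ⌊y⌋ ↔ Int.fract (y / d) < 1 / d := by
  have hd0 : (0 : ℝ) < d := by exact_mod_cast hd
  constructor
  · rintro ⟨w, hw⟩
    have h1 : y = d * w + Int.fract y := by
      have := Int.floor_add_fract y
      rw [hw] at this
      push_cast at this
      exact this.symm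
    have h2 : y / d = Int.fract y / d + w := by
      field_simp
      linarith
    have h3 : Int.fract y / d < 1 / d := by
      apply div_lt_div_of_pos_right (Int.fract_lt_one y) hd0
    have h4 : 0 ≤ Int.fract y / d := div_nonneg (Int.fract_nonneg y) hd0.le
    have h5 : (1 : ℝ) / d ≤ 1 := by
      rw [div_le_one hd0]; exact_mod_cast hd
    rw [h2, Int.fract_add_intCast, Int.fract_eq_self.mpr ⟨h4, by linarith⟩]
    exact h3
  · intro h
    have h1 := Int.floor_add_fract (y / d)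
    have h2 := Int.fract_nonneg (y / d)
    have h3 : y = d * ⌊y / d⌋ + d * Int.fract (y / d) := by
      rw [← mul_add, h1]
      field_simp
    have h4 : d * Int.fract (y / d) < 1 := by
      rw [lt_div_iff₀ hd0] at h
      linarith
    have h5 : 0 ≤ d * Int.fract (y / d) := mul_nonneg hd0.le h2
    refine ⟨⌊y / d⌋, ?_⟩
    rw [Int.floor_eq_iff]
    push_cast
    constructor <;> linarith

open Classical in
theorem div_equi (k : ℕ) (hk : 1 ≤ k) : ∃ (c : ℝ) (T0 : ℕ), 0 < c ∧ ∀ f : ℝ[X], f.natDegree = k →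
    ∀ N T : ℕ, 1 ≤ N → T0 ≤ T → NonApp f N T → ∀ d : ℕ, 1 ≤ d → (d : ℝ) ≤ (T : ℝ) ^ c →
    |(((Icc 1 N).filter (fun n : ℕ => (d : ℤ) ∣ ⌊f.eval (n : ℝ)⌋)).card : ℝ) - N / d| ≤
      N * (T : ℝ) ^ (-c) := by
  obtain ⟨Cw, hCw, hW⟩ := weyl_inverse k
  obtain ⟨Ce, hCe, hE⟩ := equidist
  set M : ℕ := 12 * Cw + 10 with hM
  set B : ℝ := 3 * Ce + 2 * (Cw : ℝ) ^ Cw + 2 with hB
  have hM0 : (M : ℝ) ≠ 0 := by positivity
  have hCC : (0 : ℝ) ≤ (Cw : ℝ) ^ Cw := by positivity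
  have hB2 : 2 ≤ B := by rw [hB]; linarith
  refine ⟨1 / M, ⌈B ^ M⌉₊ + 1, by positivity, ?_⟩
  intro f hf N T hN hT hNA d hd hdT
  -- the parameter `t = T ^ (1 / M)`
  have hT0 : (0 : ℝ) ≤ T := Nat.cast_nonneg T
  have hTB : B ^ M ≤ T := by
    have h1 : B ^ M ≤ (⌈B ^ M⌉₊ : ℝ) := Nat.le_ceil _
    have h2 : ((⌈B ^ M⌉₊ + 1 : ℕ) : ℝ) ≤ T := by exact_mod_cast hT
    push_cast at h2
    linarith
  have hTpos : (0 : ℝ) < T := lt_of_lt_of_le (by positivity) hTB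
  set t : ℝ := (T : ℝ) ^ (1 / (M : ℝ)) with ht
  have htM : t ^ M = T := by
    rw [ht, ← Real.rpow_natCast, ← Real.rpow_mul hT0, one_div, inv_mul_cancel₀ hM0, Real.rpow_one]
  have htB : B ≤ t := by
    have h1 : (B ^ M) ^ (1 / (M : ℝ)) ≤ t := Real.rpow_le_rpow (by positivity) hTB (by positivity)
    rwa [← Real.rpow_natCast, ← Real.rpow_mul (by linarith), one_div, mul_inv_cancel₀ hM0,
      Real.rpow_one] at h1
  have ht0 : 0 < t := by linarith
  have ht1 : 1 ≤ t := by linarith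
  have htneg : (T : ℝ) ^ (-(1 / (M : ℝ))) = t⁻¹ := by rw [Real.rpow_neg hT0]
  rw [htneg]
  have hd0 : (0 : ℝ) < d := by exact_mod_cast hd
  -- parameters
  set H : ℕ := ⌈t ^ 4⌉₊ with hH
  have hH1 : 1 ≤ H := by
    rw [hH, Nat.one_le_ceil_iff]; positivity
  have hHlo : t ^ 4 ≤ (H : ℝ) := Nat.le_ceil _
  have hHhi : (H : ℝ) ≤ 2 * t ^ 4 := by
    have h1 : (H : ℝ) < t ^ 4 + 1 := Nat.ceil_lt_add_one (by positivity)
    have h2 : 1 ≤ t ^ 4 := one_le_pow₀ ht1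
    linarith
  set κ : ℝ := (t ^ 6)⁻¹ with hκ
  have hκ0 : 0 < κ := by positivity
  have hκ1 : κ ≤ 1 := by
    rw [hκ]; exact inv_le_one_of_one_le₀ (one_le_pow₀ ht1)
  have hCκ : ((Cw : ℝ) / κ) ^ Cw = (Cw : ℝ) ^ Cw * t ^ (6 * Cw) := by
    rw [hκ, div_inv_eq_mul, mul_pow, ← pow_mul]
  -- exponential sums
  have hexp : ∀ h ∈ Icc 1 H, ‖∑ n ∈ Icc 1 N, ee ((h : ℝ) * (f.eval (n : ℝ) / d))‖ ≤
      κ * (Icc 1 N).card := by
    intro h hh
    rw [Finset.mem_Icc] at hh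
    rw [Nat.card_Icc, Nat.add_sub_cancel]
    by_contra hcon
    push Not at hcon
    have hsum : ∀ n : ℕ, (h : ℝ) * (f.eval (n : ℝ) / d) =
        (h : ℝ) * f.coeff 0 / d + ∑ j ∈ Icc 1 k, ((h : ℝ) * f.coeff j / d) * (n : ℝ) ^ j := by
      intro n
      rw [Polynomial.eval_eq_sum_range, hf, Finset.sum_range_succ']
      have h1 : ∑ j ∈ Icc 1 k, ((h : ℝ) * f.coeff j / d) * (n : ℝ) ^ j =
          ∑ j ∈ range k, ((h : ℝ) * f.coeff (j + 1) / d) * (n : ℝ) ^ (j + 1) := by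
        rw [Finset.range_eq_Ico, Finset.sum_Ico_add' (fun j => ((h : ℝ) * f.coeff j / d) * (n : ℝ) ^ j)
          0 k 1]
        rfl
      rw [h1, pow_zero, mul_one, add_div, mul_add, Finset.sum_div, Finset.mul_sum, add_comm]
      congr 1
      · ring
      · apply Finset.sum_congr rfl
        intro j _
        ring
    have hfac : ∑ n ∈ Icc 1 N, ee ((h : ℝ) * (f.eval (n : ℝ) / d)) =
        ee ((h : ℝ) * f.coeff 0 / d) *
          ∑ n ∈ Icc 1 N, ee (∑ j ∈ Icc 1 k, ((h : ℝ) * f.coeff j / d) * (n : ℝ) ^ j) := by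
      rw [Finset.mul_sum]
      apply Finset.sum_congr rfl
      intro n _
      rw [hsum n, w2_ee_add]
    rw [hfac, norm_mul, w2_norm_ee, one_mul] at hcon
    obtain ⟨q, hq1, hq2, hq3⟩ := hW (fun j => (h : ℝ) * f.coeff j / d) N κ hN hκ0 hκ1 hcon.le
    rw [hCκ] at hq2 hq3
    have hhH : (h : ℝ) ≤ H := by exact_mod_cast hh.2
    have hqh1 : 1 ≤ q * h := Nat.mul_pos hq1 hh.1
    have htC : 2 * (Cw : ℝ) ^ Cw + 2 ≤ t := by rw [hB] at htB; linarith
    have hqh2 : q * h < T := by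
      have h1 : ((q * h : ℕ) : ℝ) < T := by
        push_cast
        calc (q : ℝ) * h ≤ ((Cw : ℝ) ^ Cw * t ^ (6 * Cw)) * (2 * t ^ 4) := by
              apply mul_le_mul hq2 (hhH.trans hHhi) (Nat.cast_nonneg _) (by positivity)
          _ = (2 * (Cw : ℝ) ^ Cw) * t ^ (6 * Cw + 4) := by rw [pow_add]; ring
          _ < t * t ^ (6 * Cw + 4) := by
              apply mul_lt_mul_of_pos_right (by linarith) (by positivity)
          _ = t ^ (6 * Cw + 5) := by rw [← pow_succ']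
          _ ≤ t ^ M := by
              apply pow_le_pow_right₀ ht1; omega
          _ = T := htM
      exact_mod_cast h1
    obtain ⟨j, hj, hj2⟩ := hNA (q * h) hqh1 hqh2
    rw [hf] at hj
    have h3 := hq3 j hj
    have h4 : nint (((q * h : ℕ) : ℝ) * f.coeff j) ≤ d * nint ((q : ℝ) * ((h : ℝ) * f.coeff j / d)) := by
      have e1 : ((q * h : ℕ) : ℝ) * f.coeff j = d * ((q : ℝ) * ((h : ℝ) * f.coeff j / d)) := by
        push_cast
        field_simp
      rw [e1]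
      exact w2_nint_mul d _
    have h5 : nint (((q * h : ℕ) : ℝ) * f.coeff j) * (N : ℝ) ^ j ≤
        d * ((Cw : ℝ) ^ Cw * t ^ (6 * Cw)) := by
      calc nint (((q * h : ℕ) : ℝ) * f.coeff j) * (N : ℝ) ^ j
          ≤ (d * nint ((q : ℝ) * ((h : ℝ) * f.coeff j / d))) * (N : ℝ) ^ j :=
            mul_le_mul_of_nonneg_right h4 (by positivity)
        _ = d * (nint ((q : ℝ) * ((h : ℝ) * f.coeff j / d)) * (N : ℝ) ^ j) := by ring
        _ ≤ d * ((Cw : ℝ) ^ Cw * t ^ (6 * Cw)) := mul_le_mul_of_nonneg_left h3 hd0.le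
    have h6 : d * ((Cw : ℝ) ^ Cw * t ^ (6 * Cw)) ≤ T - 1 := by
      have h7 : d * ((Cw : ℝ) ^ Cw * t ^ (6 * Cw)) ≤ t * ((Cw : ℝ) ^ Cw * t ^ (6 * Cw)) :=
        mul_le_mul_of_nonneg_right hdT (by positivity)
      have h8 : t * ((Cw : ℝ) ^ Cw * t ^ (6 * Cw)) + t ^ (6 * Cw + 1) ≤ t * t ^ (6 * Cw + 1) := by
        have : t * ((Cw : ℝ) ^ Cw * t ^ (6 * Cw)) = (Cw : ℝ) ^ Cw * t ^ (6 * Cw + 1) := by
          rw [pow_succ]; ring
        rw [this, ← add_one_mul]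
        apply mul_le_mul_of_nonneg_right (by linarith) (by positivity)
      have h9 : t * t ^ (6 * Cw + 1) ≤ T := by
        rw [← pow_succ', ← htM]
        apply pow_le_pow_right₀ ht1; omega
      have h10 : 1 ≤ t ^ (6 * Cw + 1) := one_le_pow₀ ht1
      linarith
    linarith
  have hmain := hE ℕ (Icc 1 N) (fun n => f.eval (n : ℝ) / d) H κ hH1 hκ0.le hexp (1 / d)
    (by positivity) (by rw [div_le_one hd0]; exact_mod_cast hd)
  have hcard : ((Icc 1 N).card : ℝ) = N := by rw [Nat.card_Icc, Nat.add_sub_cancel]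
  rw [hcard] at hmain
  have hfil : (Icc 1 N).filter (fun n : ℕ => (d : ℤ) ∣ ⌊f.eval (n : ℝ)⌋) =
      (Icc 1 N).filter (fun n : ℕ => Int.fract (f.eval (n : ℝ) / d) < 1 / (d : ℝ)) := by
    apply Finset.filter_congr
    intro n _
    exact w2_dvd_iff d hd _
  rw [hfil]
  have e2 : (N : ℝ) / d = 1 / d * N := by ring
  rw [e2]
  refine hmain.trans ?_
  have hN0 : (0 : ℝ) ≤ N := Nat.cast_nonneg N
  rw [mul_comm (N : ℝ)]
  apply mul_le_mul_of_nonneg_right _ hN0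
  have h1 : (H : ℝ) ^ (-(1 : ℝ) / 2) ≤ (t ^ 2)⁻¹ := by
    have h2 : (H : ℝ) ^ (-(1 : ℝ) / 2) ≤ (t ^ 4) ^ (-(1 : ℝ) / 2) :=
      Real.rpow_le_rpow_of_nonpos (by positivity) hHlo (by norm_num)
    have h3 : (t ^ 4) ^ (-(1 : ℝ) / 2) = (t ^ 2)⁻¹ := by
      rw [← Real.rpow_natCast, ← Real.rpow_mul ht0.le, ← Real.rpow_natCast, ← Real.rpow_neg ht0.le]
      norm_num
    rwa [h3] at h2
  have h2 : (H : ℝ) * κ ≤ 2 * (t ^ 2)⁻¹ := by
    calc (H : ℝ) * κ ≤ (2 * t ^ 4) * (t ^ 6)⁻¹ := mul_le_mul_of_nonneg_right hHhi (by positivity)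
      _ = 2 * (t ^ 2)⁻¹ := by field_simp
  have h3 : Ce * ((H : ℝ) ^ (-(1 : ℝ) / 2) + H * κ) ≤ Ce * (3 * (t ^ 2)⁻¹) :=
    mul_le_mul_of_nonneg_left (by linarith) hCe
  refine h3.trans ?_
  have h4 : 3 * Ce ≤ t := by rw [hB] at htB; linarith
  calc Ce * (3 * (t ^ 2)⁻¹) = (3 * Ce) * (t ^ 2)⁻¹ := by ring
    _ ≤ t * (t ^ 2)⁻¹ := mul_le_mul_of_nonneg_right h4 (by positivity)
    _ = t⁻¹ := by field_simp

end EK75

end S_H75_EK_W2
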