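import Mathlib
import Pool.Agent.H75.EM.L1
import Pool.Agent.H75.EM.L2
import Pool.Agent.H75.EM.L4
import Pool.Agent.H75.EM.L5
import Pool.Agent.H75.EM.L6
import Pool.Agent.H75.EM.L7
import Pool.Agent.H75.EM.L8
import Pool.Agent.H75.EM.L9

/-! Erdos-Kac law for integer parts of real polynomials, part L10: this file joins several modules to save build time. -/

section S_H75_EK_Exc

/-! Module EXC: no `r` successively irreducible polynomials can all be exceptional. -/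

open Polynomial Finset
open scoped Real BigOperators

namespace EK75

theorem exc (k : ℕ) (hk : 1 ≤ k) : ∃ r : ℕ, 1 ≤ r ∧ ∀ C5 : ℝ, ∃ A b0 : ℝ, 1 ≤ A ∧ 1 ≤ b0 ∧
    ∀ (H E : ℝ) (g : Fin r → ℤ[X]), 2 ≤ H → H ^ A ≤ E → (∀ i, (g i).Monic) →
    (∀ i, (g i).natDegree = k) → (∀ i, HtLe (g i) H) → SuccIrr g →
    ∃ i, C5 ≤ Ssum (rhoR (g i)) E (E ^ b0) := by
  have hkf : 1 ≤ k.factorial := k.factorial_pos
  refine ⟨4 * k.factorial * k, ?_, fun C5 => ?_⟩
  · nlinarith [Nat.mul_le_mul hkf hk]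
  set r := 4 * k.factorial * k with hr
  have hr1 : 1 ≤ r := by
    rw [hr]; nlinarith [Nat.mul_le_mul hkf hk]
  obtain ⟨A1, hA1, hgal⟩ := gal_main k r hk hr1
  -- Mertens constants for all degrees up to `(k r)!`
  have hmu : ∀ d : ℕ, ∃ C : ℝ, 0 ≤ C ∧ (1 ≤ d → ∀ g : ℤ[X], g.Monic →
    g.natDegree = d → Irreducible g → ∀ H : ℝ, 2 ≤ H → HtLe g H → ∀ Y : ℝ, 1 ≤ Y →
    Msum (rhoR g) Y ≤ Real.log Y + C * Real.log H) := by
    intro d
    by_cases hd : 1 ≤ d
    · obtain ⟨C, hC, h⟩ := mertens_upper d hd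
      exact ⟨C, hC, fun _ => h⟩
    · exact ⟨0, le_rfl, fun h => absurd h hd⟩
  choose Cd hCd0 hCd using hmu
  set D := (k * r).factorial with hD
  set Cm : ℝ := ∑ d ∈ range (D + 1), Cd d with hCm
  have hCm0 : 0 ≤ Cm := sum_nonneg fun d _ => hCd0 d
  have hCdm : ∀ d ≤ D, Cd d ≤ Cm := fun d hd =>
    single_le_sum (f := Cd) (fun i _ => hCd0 i) (mem_range.2 (by omega))
  obtain ⟨C2, hC2⟩ := mert2
  set A : ℝ := A1 + 2 * Cm * A1 with hA
  have hA1' : A1 ≤ A := by rw [hA]; nlinarith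
  set B : ℝ := |C2| + 1 / 2 + r * |C5| with hB
  have hB0 : 0 ≤ B := by positivity
  refine ⟨A, Real.exp (4 / 3 * B), by linarith, Real.one_le_exp (by positivity), ?_⟩
  intro H E g hH hE hmon hdeg hht hirr
  set b0 := Real.exp (4 / 3 * B) with hb0
  have hb01 : 1 ≤ b0 := Real.one_le_exp (by positivity)
  have hlogb0 : Real.log b0 = 4 / 3 * B := Real.log_exp _
  have hH0 : 0 < H := by linarith
  have hH1 : 1 ≤ H := by linarith
  have hlogH : 0 < Real.log H := Real.log_pos (by linarith)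
  have hE2 : 2 ≤ E := by
    calc (2 : ℝ) ≤ H := hH
      _ = H ^ (1 : ℝ) := (Real.rpow_one H).symm
      _ ≤ H ^ A := Real.rpow_le_rpow_of_exponent_le hH1 (by linarith)
      _ ≤ E := hE
  have hE0 : 0 < E := by linarith
  have hlogE : 0 < Real.log E := Real.log_pos (by linarith)
  have hlogEA : A * Real.log H ≤ Real.log E := by
    rw [← Real.log_rpow hH0]
    exact Real.log_le_log (Real.rpow_pos_of_pos hH0 _) hE
  have hEb : E ≤ E ^ b0 := by
    calc E = E ^ (1 : ℝ) := (Real.rpow_one E).symm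
      _ ≤ E ^ b0 := Real.rpow_le_rpow_of_exponent_le (by linarith) hb01
  have hratio : Real.log (E ^ b0) / Real.log E = b0 := by
    rw [Real.log_rpow hE0]; field_simp
  obtain ⟨L, n, Δ, h, w, hn, hh, hΔ1, hΔ, hw, hmain⟩ := hgal H hH g hmon hdeg hht hirr
  -- `Ssum` of the `h j`
  have hHA1 : 2 ≤ H ^ A1 := by
    calc (2 : ℝ) ≤ H := hH
      _ = H ^ (1 : ℝ) := (Real.rpow_one H).symm
      _ ≤ H ^ A1 := Real.rpow_le_rpow_of_exponent_le hH1 hA1
  have hS : ∀ j, Ssum (rhoR (h j)) E (E ^ b0) ≤ Real.log b0 + 2 := by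
    intro j
    obtain ⟨h1, h2, h3, h4, h5⟩ := hh j
    have hm := hCd (h j).natDegree h3 (h j) h1 rfl h2 (H ^ A1) hHA1 h5
    have hlA1 : Real.log (H ^ A1) = A1 * Real.log H := Real.log_rpow hH0 _
    have hK : ∀ Y : ℝ, 1 ≤ Y → Msum (rhoR (h j)) Y ≤ Real.log Y + Cm * (A1 * Real.log H) := by
      intro Y hY
      refine (hm Y hY).trans ?_
      rw [hlA1]
      have : Cd (h j).natDegree * (A1 * Real.log H) ≤ Cm * (A1 * Real.log H) :=
        mul_le_mul_of_nonneg_right (hCdm _ h4) (by positivity)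
      linarith
    have h6 := abel_upper (rhoR (h j)) (fun p => Nat.cast_nonneg _) (Cm * (A1 * Real.log H))
      (by positivity) hK E (E ^ b0) hE2 hEb
    rw [hratio] at h6
    have h7 : 2 * (Cm * (A1 * Real.log H)) / Real.log E ≤ 1 := by
      rw [div_le_one hlogE]
      calc 2 * (Cm * (A1 * Real.log H)) = (2 * Cm * A1) * Real.log H := by ring
        _ ≤ A * Real.log H := mul_le_mul_of_nonneg_right (by rw [hA]; linarith) hlogH.le
        _ ≤ Real.log E := hlogEA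
    linarith
  -- primes in the range are not divisors of `Δ`
  have hpr : ∀ p ∈ prIoc E (E ^ b0), p.Prime ∧ E < p ∧ ¬ p ∣ Δ := by
    intro p hp
    obtain ⟨h1, h2⟩ := mem_filter.1 hp
    obtain ⟨h3, _⟩ := Finset.mem_Ioc.1 h1
    have h4 : E < p := (Nat.floor_lt hE0.le).1 h3
    refine ⟨h2, h4, fun hd => ?_⟩
    have h5 : p ≤ Δ := Nat.le_of_dvd (by omega) hd
    have h6 : (p : ℝ) ≤ Δ := by exact_mod_cast h5
    have h7 : (Δ : ℝ) ≤ E := hΔ.trans ((Real.rpow_le_rpow_of_exponent_le hH1 hA1').trans hE)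
    linarith
  have hn0 : (0 : ℝ) < n := by exact_mod_cast hn
  -- pointwise inequality
  have hpt : ∀ p ∈ prIoc E (E ^ b0), (1 : ℝ) / p ≤
      (∑ i, rhoR (g i) p / p) + (∑ j, (w j : ℝ) * (rhoR (h j) p / p)) / n := by
    intro p hp
    obtain ⟨hp1, hp2, hp3⟩ := hpr p hp
    have hp0 : (0 : ℝ) < p := by exact_mod_cast hp1.pos
    have hg0 : ∀ i, 0 ≤ rhoR (g i) p / p := fun i => div_nonneg (Nat.cast_nonneg _) hp0.le
    have hh0 : 0 ≤ (∑ j, (w j : ℝ) * (rhoR (h j) p / p)) / n :=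
      div_nonneg (sum_nonneg fun j _ => mul_nonneg (Nat.cast_nonneg _)
        (div_nonneg (Nat.cast_nonneg _) hp0.le)) hn0.le
    by_cases hall : ∀ i, rho (g i) p = 0
    · have h1 := hmain p hp1 hp3 hall
      have h2 : (n : ℝ) ≤ ∑ j, (w j : ℝ) * rhoR (h j) p := by
        have : ((n : ℕ) : ℝ) ≤ ((∑ j, w j * rho (h j) p : ℕ) : ℝ) := by exact_mod_cast h1
        simpa [rhoR] using this
      have h3 : (∑ j, (w j : ℝ) * (rhoR (h j) p / p)) = (∑ j, (w j : ℝ) * rhoR (h j) p) / p := by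
        rw [sum_div]
        exact sum_congr rfl fun j _ => by ring
      have h4 : (1 : ℝ) / p ≤ (∑ j, (w j : ℝ) * (rhoR (h j) p / p)) / n := by
        rw [h3, div_div, mul_comm (p : ℝ) n, ← div_div]
        exact div_le_div_of_nonneg_right ((one_le_div hn0).2 h2) hp0.le
      have h5 : 0 ≤ ∑ i, rhoR (g i) p / p := sum_nonneg fun i _ => hg0 i
      linarith
    · push Not at hall
      obtain ⟨i, hi⟩ := hall
      have h1 : (1 : ℝ) ≤ rhoR (g i) p := by
        have : 1 ≤ rho (g i) p := Nat.one_le_iff_ne_zero.2 hi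
        unfold rhoR
        exact_mod_cast this
      have h2 : (1 : ℝ) / p ≤ rhoR (g i) p / p := div_le_div_of_nonneg_right h1 hp0.le
      have h3 : rhoR (g i) p / p ≤ ∑ i, rhoR (g i) p / p :=
        single_le_sum (f := fun i => rhoR (g i) p / p) (fun i _ => hg0 i) (mem_univ i)
      linarith
  -- sum over the primes
  have hsum : Ssum (fun _ => 1) E (E ^ b0) ≤
      (∑ i, Ssum (rhoR (g i)) E (E ^ b0)) +
        (∑ j, (w j : ℝ) * Ssum (rhoR (h j)) E (E ^ b0)) / n := by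
    unfold Ssum
    calc ∑ p ∈ prIoc E (E ^ b0), (1 : ℝ) / p
        ≤ ∑ p ∈ prIoc E (E ^ b0), ((∑ i, rhoR (g i) p / p) +
          (∑ j, (w j : ℝ) * (rhoR (h j) p / p)) / n) := sum_le_sum hpt
      _ = (∑ p ∈ prIoc E (E ^ b0), ∑ i, rhoR (g i) p / p) +
          (∑ p ∈ prIoc E (E ^ b0), ∑ j, (w j : ℝ) * (rhoR (h j) p / p)) / n := by
        rw [sum_add_distrib, ← sum_div]
      _ = (∑ i, ∑ p ∈ prIoc E (E ^ b0), rhoR (g i) p / p) +
          (∑ j, (w j : ℝ) * ∑ p ∈ prIoc E (E ^ b0), rhoR (h j) p / p) / n := by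
        have e1 : (∑ p ∈ prIoc E (E ^ b0), ∑ i, rhoR (g i) p / (p : ℝ)) =
            ∑ i, ∑ p ∈ prIoc E (E ^ b0), rhoR (g i) p / (p : ℝ) := sum_comm
        have e2 : (∑ p ∈ prIoc E (E ^ b0), ∑ j, (w j : ℝ) * (rhoR (h j) p / p)) =
            ∑ j, (w j : ℝ) * ∑ p ∈ prIoc E (E ^ b0), rhoR (h j) p / p := by
          rw [sum_comm]
          exact sum_congr rfl fun j _ => (mul_sum _ _ _).symm
        rw [e1, e2]
  have hw' : (∑ j, (w j : ℝ)) * 4 ≤ n := by
    have h1 : (4 * (∑ j, w j)) * (k.factorial * k) ≤ n * (k.factorial * k) := by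
      calc (4 * (∑ j, w j)) * (k.factorial * k) = r * ∑ j, w j := by rw [hr]; ring
        _ ≤ k.factorial * k * n := hw
        _ = n * (k.factorial * k) := by ring
    have h2 : 4 * (∑ j, w j) ≤ n :=
      Nat.le_of_mul_le_mul_right h1 (Nat.mul_pos (by omega) (by omega))
    have h3 : ((4 * (∑ j, w j) : ℕ) : ℝ) ≤ n := by exact_mod_cast h2
    push_cast at h3
    linarith
  have hlogb00 : 0 ≤ Real.log b0 := Real.log_nonneg hb01
  have hh' : (∑ j, (w j : ℝ) * Ssum (rhoR (h j)) E (E ^ b0)) / n ≤ (Real.log b0 + 2) / 4 := by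
    rw [div_le_iff₀ hn0]
    calc ∑ j, (w j : ℝ) * Ssum (rhoR (h j)) E (E ^ b0)
        ≤ ∑ j, (w j : ℝ) * (Real.log b0 + 2) :=
          sum_le_sum fun j _ => mul_le_mul_of_nonneg_left (hS j) (Nat.cast_nonneg _)
      _ = (∑ j, (w j : ℝ)) * (Real.log b0 + 2) := by rw [sum_mul]
      _ ≤ (n / 4) * (Real.log b0 + 2) :=
          mul_le_mul_of_nonneg_right (by linarith) (by linarith)
      _ = (Real.log b0 + 2) / 4 * n := by ring
  have hm2 := (abs_le.1 (hC2 E (E ^ b0) hE2 hEb)).1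
  rw [hratio] at hm2
  have hfin : (r : ℝ) * |C5| ≤ ∑ i, Ssum (rhoR (g i)) E (E ^ b0) := by
    have h1 : C2 ≤ |C2| := le_abs_self _
    rw [hlogb0] at hh' hm2
    rw [hB] at hh' hm2
    linarith
  by_contra hcon
  push Not at hcon
  have h1 : ∑ i, Ssum (rhoR (g i)) E (E ^ b0) < ∑ _i : Fin r, C5 := by
    refine sum_lt_sum_of_nonempty ?_ fun i _ => hcon i
    exact ⟨⟨0, by omega⟩, mem_univ _⟩
  rw [sum_const, card_univ, Fintype.card_fin, nsmul_eq_mul] at h1
  have h2 : (r : ℝ) * C5 ≤ r * |C5| := mul_le_mul_of_nonneg_left (le_abs_self _) (Nat.cast_nonneg _)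
  linarith

end EK75

end S_H75_EK_Exc

section S_H75_EK_Cond

/-! Module COND: given `t(n) = t` the events `p ∣ ⌊f(n)⌋` are independent with densities `ρ(p)/p`. -/

open Polynomial Finset
open scoped Real BigOperators

namespace EK75

theorem cond_crt (m n : ℕ) (hm : 0 < m) (hn : 0 < n) (h : Nat.Coprime m n) (P R : ℕ → Prop)
    [DecidablePred P] [DecidablePred R] [DecidablePred fun x => P x ∧ R x]
    (hP : ∀ x, P x ↔ P (x % m)) (hR : ∀ x, R x ↔ R (x % n)) :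
    ((range (m * n)).filter (fun x => P x ∧ R x)).card =
      ((range m).filter P).card * ((range n).filter R).card := by
  rw [← Finset.card_product]
  refine Finset.card_nbij' (fun x => (x % m, x % n))
    (fun y => (Nat.chineseRemainder h y.1 y.2 : ℕ)) ?_ ?_ ?_ ?_
  · intro x hx
    simp only [coe_filter, mem_range, Set.mem_ofPred_eq] at hx
    simp only [coe_product, coe_filter, mem_range, Set.mem_prod, Set.mem_ofPred_eq]
    exact ⟨⟨Nat.mod_lt _ hm, (hP x).1 hx.2.1⟩, ⟨Nat.mod_lt _ hn, (hR x).1 hx.2.2⟩⟩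
  · intro y hy
    simp only [coe_product, coe_filter, mem_range, Set.mem_prod, Set.mem_ofPred_eq] at hy
    simp only [coe_filter, mem_range, Set.mem_ofPred_eq]
    have h1 := (Nat.chineseRemainder h y.1 y.2).2.1
    have h2 := (Nat.chineseRemainder h y.1 y.2).2.2
    refine ⟨Nat.chineseRemainder_lt_mul h _ _ hm.ne' hn.ne', ?_, ?_⟩
    · rw [hP, h1, Nat.mod_eq_of_lt hy.1.1]; exact hy.1.2
    · rw [hR, h2, Nat.mod_eq_of_lt hy.2.1]; exact hy.2.2
  · intro x hx
    simp only [coe_filter, mem_range, Set.mem_ofPred_eq] at hx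
    have h1 := (Nat.chineseRemainder h (x % m) (x % n)).2.1
    have h2 := (Nat.chineseRemainder h (x % m) (x % n)).2.2
    have h3 : (Nat.chineseRemainder h (x % m) (x % n) : ℕ) ≡ x [MOD m * n] := by
      refine (Nat.modEq_and_modEq_iff_modEq_mul h).1 ⟨h1.trans (Nat.mod_modEq _ _),
        h2.trans (Nat.mod_modEq _ _)⟩
    exact Nat.ModEq.eq_of_lt_of_lt h3 (Nat.chineseRemainder_lt_mul h _ _ hm.ne' hn.ne') hx.1
  · intro y hy
    simp only [coe_product, coe_filter, mem_range, Set.mem_prod, Set.mem_ofPred_eq] at hy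
    have h1 := (Nat.chineseRemainder h y.1 y.2).2.1
    have h2 := (Nat.chineseRemainder h y.1 y.2).2.2
    ext
    · show (Nat.chineseRemainder h y.1 y.2 : ℕ) % m = y.1
      rw [h1, Nat.mod_eq_of_lt hy.1.1]
    · show (Nat.chineseRemainder h y.1 y.2 : ℕ) % n = y.2
      rw [h2, Nat.mod_eq_of_lt hy.2.1]

theorem cond_dvd (G : ℤ[X]) (m d : ℕ) (hmd : m ∣ d) (x : ℕ) :
    (m : ℤ) ∣ G.eval (x : ℤ) ↔ (m : ℤ) ∣ G.eval ((x % d : ℕ) : ℤ) := by
  have h1 : ((x : ℤ) - ((x % d : ℕ) : ℤ)) ∣ G.eval (x : ℤ) - G.eval ((x % d : ℕ) : ℤ) :=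
    Polynomial.sub_dvd_eval_sub _ _ _
  have h2 : (m : ℤ) ∣ (x : ℤ) - ((x % d : ℕ) : ℤ) := by
    have h3 : (d : ℤ) ∣ (x : ℤ) - ((x % d : ℕ) : ℤ) := by
      rw [Int.natCast_mod]
      exact Int.dvd_self_sub_emod
    exact (Int.natCast_dvd_natCast.2 hmd).trans h3
  have h4 := h2.trans h1
  constructor
  · intro h
    have := dvd_sub h h4
    simpa using this
  · intro h
    have := dvd_add h4 h
    simpa using this

theorem cond_count (G : ℤ[X]) (q : ℕ) (hq : 0 < q) (S : Finset ℕ)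
    (hS : ∀ p ∈ S, p.Prime ∧ ¬ p ∣ q) :
    ((range (q * ∏ p ∈ S, p)).filter (fun x : ℕ => (q : ℤ) ∣ G.eval (x : ℤ) ∧
      ∀ p ∈ S, (p : ℤ) ∣ G.eval (x : ℤ))).card =
      ((range q).filter (fun x : ℕ => (q : ℤ) ∣ G.eval (x : ℤ))).card * ∏ p ∈ S, rho G p := by
  induction S using Finset.induction_on with
  | empty => simp
  | insert p S hp ih =>
    have ih' := ih (fun p' hp' => hS p' (mem_insert_of_mem hp'))
    have hpp := hS p (mem_insert_self p S)
    have hpos : 0 < q * ∏ p ∈ S, p := by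
      refine Nat.mul_pos hq (Finset.prod_pos fun p' hp' => ?_)
      exact (hS p' (mem_insert_of_mem hp')).1.pos
    have hcop : Nat.Coprime (q * ∏ p ∈ S, p) p := by
      refine Nat.Coprime.mul_left ?_ ?_
      · exact ((Nat.Prime.coprime_iff_not_dvd hpp.1).2 hpp.2).symm
      · refine Nat.Coprime.prod_left fun p' hp' => ?_
        refine (Nat.coprime_primes (hS p' (mem_insert_of_mem hp')).1 hpp.1).2 ?_
        rintro rfl
        exact hp hp'
    have key := cond_crt (q * ∏ p ∈ S, p) p hpos hpp.1.pos hcop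
      (fun x => (q : ℤ) ∣ G.eval (x : ℤ) ∧ ∀ p ∈ S, (p : ℤ) ∣ G.eval (x : ℤ))
      (fun x => (p : ℤ) ∣ G.eval (x : ℤ))
      (fun x => by
        refine and_congr (cond_dvd G q _ (Dvd.intro _ rfl) x) ?_
        refine forall_congr' fun p' => forall_congr' fun hp' => ?_
        exact cond_dvd G p' _ ((Finset.dvd_prod_of_mem (fun p => p) hp').trans (Dvd.intro_left _ rfl)) x)
      (fun x => cond_dvd G p p dvd_rfl x)
    rw [Finset.prod_insert hp, Finset.prod_insert hp]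
    have e1 : q * (p * ∏ p ∈ S, p) = (q * ∏ p ∈ S, p) * p := by ring
    rw [e1]
    have e2 : (range ((q * ∏ p ∈ S, p) * p)).filter (fun x : ℕ => (q : ℤ) ∣ G.eval (x : ℤ) ∧
        ∀ p' ∈ insert p S, (p' : ℤ) ∣ G.eval (x : ℤ)) =
        (range ((q * ∏ p ∈ S, p) * p)).filter (fun x : ℕ => ((q : ℤ) ∣ G.eval (x : ℤ) ∧
        ∀ p ∈ S, (p : ℤ) ∣ G.eval (x : ℤ)) ∧ (p : ℤ) ∣ G.eval (x : ℤ)) := by
      refine Finset.filter_congr fun x _ => ?_
      rw [Finset.forall_mem_insert]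
      tauto
    rw [e2, key, ih']
    have e3 : ((range p).filter (fun x : ℕ => (p : ℤ) ∣ G.eval (x : ℤ))).card = rho G p := rfl
    rw [e3]
    ring

theorem cond_rho_le (G : ℤ[X]) (p : ℕ) : rho G p ≤ p := by
  rw [rho]
  exact (Finset.card_filter_le _ _).trans (by simp)

open Classical in
theorem cond (k : ℕ) (hk : 1 ≤ k) : ∃ C : ℝ, 0 ≤ C ∧ ∀ f : ℝ[X], f.natDegree = k →
    ∀ (N T q : ℕ) (a : ℕ → ℤ), MajD f N T q a → ∀ S : Finset ℕ,
    (∀ p ∈ S, p.Prime ∧ ¬ p ∣ q) → ∀ t : ℤ,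
    |(((Icc 1 N).filter (fun n => tt f q a n = t ∧
        ∀ p ∈ S, (p : ℤ) ∣ ⌊f.eval (n : ℝ)⌋)).card : ℝ) -
      (((Icc 1 N).filter (fun n => tt f q a n = t)).card : ℝ) *
        ∏ p ∈ S, (rho (Ft k a t) p : ℝ) / p| ≤ C * q * ∏ p ∈ S, (p : ℝ) := by
  refine ⟨2 * (2 * (2 * k : ℕ) + 1), by positivity, ?_⟩
  intro f hf N T q a hM S hS t
  have hq : 0 < q := hM.q1
  set G := Ft k a t with hG
  have hGev : ∀ x : ℤ, G.eval x = (FF k a).eval x - t := by
    intro x; simp [hG, Ft]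
  -- the real polynomial q f - F
  set P : ℝ[X] := C (q : ℝ) * f - (FF k a).map (Int.castRingHom ℝ) with hP
  have hPdeg : P.natDegree ≤ k := by
    refine (Polynomial.natDegree_sub_le _ _).trans (max_le ?_ ?_)
    · exact (Polynomial.natDegree_C_mul_le _ _).trans hf.le
    · refine (Polynomial.natDegree_map_le).trans ?_
      rw [FF]
      refine Polynomial.natDegree_sum_le_of_forall_le _ _ fun j hj => ?_
      exact (Polynomial.natDegree_C_mul_X_pow_le _ _).trans (mem_Icc.1 hj).2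
  have hPev : ∀ n : ℕ, P.eval (n : ℝ) = q * f.eval (n : ℝ) - ((FF k a).eval (n : ℤ) : ℤ) := by
    intro n
    have : (n : ℝ) = ((n : ℤ) : ℝ) := by simp
    rw [hP, Polynomial.eval_sub, Polynomial.eval_mul, Polynomial.eval_C, this,
      Polynomial.eval_intCast_map]
    simp
  have hqR : (0 : ℝ) < q := by exact_mod_cast hq
  -- characterisation of t(n) = t
  have htt : ∀ n : ℕ, tt f q a n = t ↔ ((-(t : ℝ) ≤ P.eval (n : ℝ) ∧
      ¬ ((q : ℝ) - t ≤ P.eval (n : ℝ))) ∧ (q : ℤ) ∣ G.eval (n : ℤ)) := by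
    intro n
    rw [hPev, hGev, tt, hf]
    constructor
    · intro h
      have h1 : (FF k a).eval (n : ℤ) = q * ⌊f.eval (n : ℝ)⌋ + t := by linarith
      have h1' : (((FF k a).eval (n : ℤ) : ℤ) : ℝ) = q * ⌊f.eval (n : ℝ)⌋ + t := by
        rw [h1]; push_cast; ring
      have h2 := Int.floor_le (f.eval (n : ℝ))
      have h3 := Int.lt_floor_add_one (f.eval (n : ℝ))
      refine ⟨⟨?_, ?_⟩, ?_⟩
      · rw [h1']; nlinarith
      · rw [h1']; push Not; nlinarith
      · rw [h1]; exact ⟨⌊f.eval (n : ℝ)⌋, by ring⟩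
    · rintro ⟨⟨h2, h3⟩, ⟨m, hm⟩⟩
      have h1 : (FF k a).eval (n : ℤ) = q * m + t := by linarith
      have h1' : (((FF k a).eval (n : ℤ) : ℤ) : ℝ) = q * m + t := by
        rw [h1]; push_cast; ring
      rw [h1'] at h2 h3
      push Not at h3
      have h4 : ⌊f.eval (n : ℝ)⌋ = m := by
        rw [Int.floor_eq_iff]
        constructor
        · have : (q : ℝ) * m ≤ q * f.eval (n : ℝ) := by linarith
          exact le_of_mul_le_mul_left this hqR
        · have : (q : ℝ) * f.eval (n : ℝ) < q * (m + 1) := by linarith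
          exact lt_of_mul_lt_mul_left this hqR.le
      rw [h1, h4]; ring
  obtain ⟨R1, hR1c, hR1⟩ := poly_cuts k P hPdeg (-(t : ℝ))
  obtain ⟨R2, hR2c, hR2⟩ := poly_cuts k P hPdeg ((q : ℝ) - t)
  set Q : ℕ → Prop := fun n => (-(t : ℝ) ≤ P.eval (n : ℝ) ∧ ¬ ((q : ℝ) - t ≤ P.eval (n : ℝ)))
    with hQdef
  have hRc : (R1 ∪ R2).card ≤ 2 * k := (Finset.card_union_le _ _).trans (by omega)
  have hQ : ∀ x y : ℕ, 1 ≤ x → x ≤ y → y ≤ N →
      (∀ r ∈ R1 ∪ R2, ¬ ((x : ℝ) ≤ r ∧ r ≤ (y : ℝ))) → (Q x ↔ Q y) := by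
    intro x y _ hxy _ hr
    have hxy' : (x : ℝ) ≤ y := by exact_mod_cast hxy
    refine and_congr (hR1 x y hxy' fun r h => hr r (mem_union_left _ h))
      (not_congr (hR2 x y hxy' fun r h => hr r (mem_union_right _ h)))
  set D := q * ∏ p ∈ S, p with hD
  have hDpos : 0 < D := Nat.mul_pos hq (Finset.prod_pos fun p hp => (hS p hp).1.pos)
  set A := (range D).filter (fun x : ℕ => (q : ℤ) ∣ G.eval (x : ℤ) ∧
      ∀ p ∈ S, (p : ℤ) ∣ G.eval (x : ℤ)) with hA
  set A' := (range q).filter (fun x : ℕ => (q : ℤ) ∣ G.eval (x : ℤ)) with hA'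
  have b1 := ap_cuts N D (2 * k) hDpos Q (R1 ∪ R2) hRc hQ A (Finset.filter_subset _ _)
  have b2 := ap_cuts N q (2 * k) hq Q (R1 ∪ R2) hRc hQ A' (Finset.filter_subset _ _)
  have e1 : ∀ inst : DecidablePred (fun n => Q n ∧ n % D ∈ A),
      @Finset.filter ℕ (fun n => Q n ∧ n % D ∈ A) inst (Icc 1 N) = (Icc 1 N).filter (fun n =>
      tt f q a n = t ∧ ∀ p ∈ S, (p : ℤ) ∣ ⌊f.eval (n : ℝ)⌋) := by
    intro inst
    refine Finset.filter_congr fun n _ => ?_
    have hmem : n % D ∈ A ↔ ((q : ℤ) ∣ G.eval (n : ℤ) ∧ ∀ p ∈ S, (p : ℤ) ∣ G.eval (n : ℤ)) := by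
      rw [hA, mem_filter, mem_range]
      constructor
      · rintro ⟨_, h1, h2⟩
        exact ⟨(cond_dvd G q D (Dvd.intro _ rfl) n).2 h1, fun p hp =>
          (cond_dvd G p D ((Finset.dvd_prod_of_mem (fun p => p) hp).trans (Dvd.intro_left _ rfl)) n).2
            (h2 p hp)⟩
      · rintro ⟨h1, h2⟩
        exact ⟨Nat.mod_lt _ hDpos, (cond_dvd G q D (Dvd.intro _ rfl) n).1 h1, fun p hp =>
          (cond_dvd G p D ((Finset.dvd_prod_of_mem (fun p => p) hp).trans (Dvd.intro_left _ rfl)) n).1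
            (h2 p hp)⟩
    rw [hmem, ← and_assoc, ← htt n]
    refine and_congr_right fun htn => ?_
    refine forall_congr' fun p => forall_congr' fun hp => ?_
    have h1 : G.eval (n : ℤ) = q * ⌊f.eval (n : ℝ)⌋ := by
      rw [hGev, ← htn, tt, hf]; ring
    rw [h1]
    constructor
    · intro h
      have hp' := hS p hp
      rcases (Nat.prime_iff_prime_int.1 hp'.1).dvd_or_dvd h with h | h
      · exact absurd (Int.natCast_dvd_natCast.1 h) hp'.2
      · exact h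
    · intro h
      exact Dvd.dvd.mul_left h _
  have e2 : ∀ inst : DecidablePred (fun n => Q n ∧ n % q ∈ A'),
      @Finset.filter ℕ (fun n => Q n ∧ n % q ∈ A') inst (Icc 1 N) = (Icc 1 N).filter (fun n =>
      tt f q a n = t) := by
    intro inst
    refine Finset.filter_congr fun n _ => ?_
    have hmem : n % q ∈ A' ↔ (q : ℤ) ∣ G.eval (n : ℤ) := by
      rw [hA', mem_filter, mem_range]
      constructor
      · rintro ⟨_, h1⟩
        exact (cond_dvd G q q dvd_rfl n).2 h1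
      · intro h1
        exact ⟨Nat.mod_lt _ hq, (cond_dvd G q q dvd_rfl n).1 h1⟩
    rw [hmem, ← htt n]
  rw [e1] at b1
  rw [e2] at b2
  have hcnt := cond_count G q hq S hS
  rw [← hD, ← hA, ← hA'] at hcnt
  have hcnt' : (A.card : ℝ) = A'.card * ∏ p ∈ S, (rho G p : ℝ) := by
    rw [hcnt]; push_cast; ring
  have hDR : (D : ℝ) = q * ∏ p ∈ S, (p : ℝ) := by rw [hD]; push_cast; ring
  have hAle : (A.card : ℝ) ≤ D := by
    have : A.card ≤ D := (Finset.card_filter_le _ _).trans (by simp)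
    exact_mod_cast this
  have hA'le : (A'.card : ℝ) ≤ q := by
    have : A'.card ≤ q := (Finset.card_filter_le _ _).trans (by simp)
    exact_mod_cast this
  have hPP : (0 : ℝ) < ∏ p ∈ S, (p : ℝ) :=
    Finset.prod_pos fun p hp => by exact_mod_cast (hS p hp).1.pos
  set W := ∏ p ∈ S, (rho G p : ℝ) / p with hW
  have hWeq : W = (∏ p ∈ S, (rho G p : ℝ)) / ∏ p ∈ S, (p : ℝ) := Finset.prod_div_distrib _ _
  have hW0 : 0 ≤ W := Finset.prod_nonneg fun p _ => by positivity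
  have hW1 : W ≤ 1 := by
    refine Finset.prod_le_one (fun p _ => by positivity) fun p hp => ?_
    have hp0 : (0 : ℝ) < p := by exact_mod_cast (hS p hp).1.pos
    rw [div_le_one hp0]
    exact_mod_cast cond_rho_le G p
  have hPP1 : (1 : ℝ) ≤ ∏ p ∈ S, (p : ℝ) := by
    have h1 : 1 ≤ ∏ p ∈ S, p := Finset.prod_pos fun p hp => (hS p hp).1.pos
    have h2 : ((∏ p ∈ S, p : ℕ) : ℝ) = ∏ p ∈ S, (p : ℝ) := by push_cast; rfl
    rw [← h2]
    exact_mod_cast h1
  set X := (((Icc 1 N).filter (fun n => tt f q a n = t ∧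
        ∀ p ∈ S, (p : ℤ) ∣ ⌊f.eval (n : ℝ)⌋)).card : ℝ)
  set Y := (((Icc 1 N).filter (fun n => tt f q a n = t)).card : ℝ)
  obtain ⟨Z, b1, b2⟩ : ∃ Z : ℝ, |X - Z * A.card / D| ≤ (2 * ((2 * k : ℕ) : ℝ) + 1) * A.card ∧
      |Y - Z * A'.card / q| ≤ (2 * ((2 * k : ℕ) : ℝ) + 1) * A'.card := ⟨_, b1, b2⟩
  have hid : Z * A.card / D = (Z * A'.card / q) * W := by
    rw [hcnt', hDR, hWeq]
    field_simp
  have hc : (0 : ℝ) ≤ 2 * ((2 * k : ℕ) : ℝ) + 1 := by positivity
  have h3 : |X - Y * W| ≤ |X - Z * A.card / D| + |Y - Z * A'.card / q| * W := by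
    have : X - Y * W = (X - Z * A.card / D) - (Y - Z * A'.card / q) * W := by rw [hid]; ring
    rw [this]
    refine (abs_sub _ _).trans ?_
    rw [abs_mul, abs_of_nonneg hW0]
  refine h3.trans ?_
  have h4 : |X - Z * A.card / D| ≤ (2 * ((2 * k : ℕ) : ℝ) + 1) * (q * ∏ p ∈ S, (p : ℝ)) := by
    refine b1.trans ?_
    rw [← hDR]
    exact mul_le_mul_of_nonneg_left hAle hc
  have h5 : |Y - Z * A'.card / q| * W ≤ (2 * ((2 * k : ℕ) : ℝ) + 1) * (q * ∏ p ∈ S, (p : ℝ)) := by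
    refine (mul_le_mul b2 hW1 hW0 (by positivity)).trans ?_
    rw [mul_one]
    refine mul_le_mul_of_nonneg_left ?_ hc
    refine hA'le.trans ?_
    exact le_mul_of_one_le_right hqR.le hPP1
  linarith

end EK75

end S_H75_EK_Cond

section S_H75_EK_Typ

/-! Module TYP: for most `n` the primes above `T^A` contribute the right amount to the mean. -/

open Polynomial Finset
open scoped Real BigOperators

namespace EK75

/-- scaling the roots by a nonzero constant preserves irreducibility over a field -/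
theorem typ_scale_irr {K : Type*} [Field K] (p : K[X]) (r : K) (hr : r ≠ 0) (hp : Irreducible p) :
    Irreducible (p.scaleRoots r) := by
  have hunit : ∀ (u : K[X]) (s : K), IsUnit (u.scaleRoots s) → IsUnit u := by
    intro u s hu
    rw [Polynomial.isUnit_iff_degree_eq_zero] at hu ⊢
    rwa [degree_scaleRoots] at hu
  refine ⟨fun hu => hp.not_isUnit (hunit _ _ hu), ?_⟩
  intro a b hab
  have h1 : p = a.scaleRoots r⁻¹ * b.scaleRoots r⁻¹ := by
    have h2 : (p.scaleRoots r).scaleRoots r⁻¹ = p := by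
      rw [← scaleRoots_mul, mul_inv_cancel₀ hr]
      ext n
      simp
    rw [← h2, hab, mul_scaleRoots_of_noZeroDivisors]
  rcases hp.isUnit_or_isUnit h1 with h | h
  · left; exact hunit _ _ h
  · right; exact hunit _ _ h

theorem typ_finrank_aux (p : ℚ[X]) (m : ℕ) (hp : p.natDegree ≤ m) (L : Type) [Field L] [Algebra ℚ L]
    [hL : IsSplittingField ℚ L p] : Module.finrank ℚ L ≤ m.factorial := by
  classical
  have : Normal ℚ L := Normal.of_isSplittingField p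
  have : FiniteDimensional ℚ L := IsSplittingField.finiteDimensional L p
  have h1 : Nat.card (L ≃ₐ[ℚ] L) = Module.finrank ℚ L := by
    have : IsGalois ℚ L := ⟨⟩
    exact IsGalois.card_aut_eq_finrank _ _
  have h5 : Nat.card (L ≃ₐ[ℚ] L) ≤ Nat.card p.Gal := by
    have e : L ≃ₐ[ℚ] p.SplittingField := IsSplittingField.algEquiv L p
    exact Nat.card_le_card_of_injective _ (AlgEquiv.autCongr e).injective
  have : Fact ((p.map (algebraMap ℚ L)).Splits) := ⟨hL.splits⟩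
  have h2 := Polynomial.Gal.galActionHom_injective p L
  have h3 : Nat.card p.Gal ≤ Nat.card (Equiv.Perm (p.rootSet L)) :=
    Nat.card_le_card_of_injective _ h2
  rw [← h1]
  refine le_trans h5 (le_trans h3 ?_)
  rw [Nat.card_eq_fintype_card, Fintype.card_perm]
  refine Nat.factorial_le ?_
  refine le_trans ?_ hp
  have h4 := Polynomial.ncard_rootSet_le p L
  rwa [← Nat.card_coe_set_eq, Nat.card_eq_fintype_card] at h4

theorem typ_split_aux (L : Type) [Field L] [CharZero L] (p : ℚ[X]) (i : Algebra ℚ L)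
    (h : @IsSplittingField ℚ L _ _ i p) :
    @IsSplittingField ℚ L _ _ DivisionRing.toRatAlgebra p := by
  have e : i = DivisionRing.toRatAlgebra := Subsingleton.elim _ _
  rw [← e]
  exact h

theorem typ_split (p : ℚ[X]) :
    @IsSplittingField ℚ p.SplittingField _ _ DivisionRing.toRatAlgebra p :=
  typ_split_aux _ p _ (IsSplittingField.splittingField p)

theorem typ_nf (p : ℚ[X]) : NumberField p.SplittingField := by
  have := typ_split p
  have h := @IsSplittingField.finiteDimensional ℚ p.SplittingField _ _ (DivisionRing.toRatAlgebra) p this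
  exact { to_charZero := inferInstance, to_finiteDimensional := h }

theorem typ_finrank (p : ℚ[X]) (m : ℕ) (hp : p.natDegree ≤ m) :
    @Module.finrank ℚ p.SplittingField _ _ DivisionRing.toRatAlgebra.toModule ≤ m.factorial := by
  have := typ_split p
  exact @typ_finrank_aux p m hp p.SplittingField _ (DivisionRing.toRatAlgebra) this

theorem typ_FF_coeff (k : ℕ) (a : ℕ → ℤ) (j : ℕ) :
    (FF k a).coeff j = if j ∈ Icc 1 k then a j else 0 := by
  unfold FF
  rw [finsetSum_coeff]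
  simp only [coeff_C_mul, coeff_X_pow]
  rw [Finset.sum_congr rfl (fun i _ => by rw [mul_ite, mul_one, mul_zero])]
  simp [Finset.sum_ite_eq]

theorem typ_Ft_coeff (k : ℕ) (a : ℕ → ℤ) (t : ℤ) (j : ℕ) :
    (Ft k a t).coeff j = (if j ∈ Icc 1 k then a j else 0) - if j = 0 then t else 0 := by
  unfold Ft
  rw [coeff_sub, typ_FF_coeff, coeff_C]

theorem typ_Ft_natDegree (k : ℕ) (hk : 1 ≤ k) (a : ℕ → ℤ) (ha : a k ≠ 0) (t : ℤ) :
    (Ft k a t).natDegree = k := by
  apply natDegree_eq_of_le_of_coeff_ne_zero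
  · rw [natDegree_le_iff_coeff_eq_zero]
    intro N hN
    rw [typ_Ft_coeff, if_neg (by simp; omega), if_neg (by omega), sub_zero]
  · rw [typ_Ft_coeff, if_pos (by simp; omega), if_neg (by omega), sub_zero]
    exact ha

theorem typ_FF_natDegree (k : ℕ) (hk : 1 ≤ k) (a : ℕ → ℤ) (ha : a k ≠ 0) :
    (FF k a).natDegree = k := by
  apply natDegree_eq_of_le_of_coeff_ne_zero
  · rw [natDegree_le_iff_coeff_eq_zero]
    intro N hN
    rw [typ_FF_coeff, if_neg (by simp; omega)]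
  · rw [typ_FF_coeff, if_pos (by simp; omega)]
    exact ha

theorem typ_Ft_lead (k : ℕ) (hk : 1 ≤ k) (a : ℕ → ℤ) (ha : a k ≠ 0) (t : ℤ) :
    (Ft k a t).leadingCoeff = a k := by
  rw [leadingCoeff, typ_Ft_natDegree k hk a ha, typ_Ft_coeff, if_pos (by simp; omega),
    if_neg (by omega), sub_zero]

theorem typ_Ft_ne (k : ℕ) (hk : 1 ≤ k) (a : ℕ → ℤ) (ha : a k ≠ 0) (t : ℤ) : Ft k a t ≠ 0 := by
  intro h
  have := typ_Ft_natDegree k hk a ha t
  rw [h, natDegree_zero] at this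
  omega

theorem typ_Gt_monic (k : ℕ) (hk : 1 ≤ k) (a : ℕ → ℤ) (ha : a k ≠ 0) (t : ℤ) :
    (Gt k a t).Monic := monic_integralNormalization (typ_Ft_ne k hk a ha t)

theorem typ_Gt_natDegree (k : ℕ) (hk : 1 ≤ k) (a : ℕ → ℤ) (ha : a k ≠ 0) (t : ℤ) :
    (Gt k a t).natDegree = k := by
  unfold Gt
  rw [natDegree_integralNormalization, typ_Ft_natDegree k hk a ha]

theorem typ_Gt_irr (k : ℕ) (hk : 1 ≤ k) (a : ℕ → ℤ) (ha : a k ≠ 0) (t : ℤ) (K : Type) [Field K]
    [CharZero K] (φ : ℤ →+* K) (h : Irreducible ((Ft k a t).map φ)) :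
    Irreducible ((Gt k a t).map φ) := by
  have hinj : Function.Injective φ := by
    have : φ = Int.castRingHom K := RingHom.ext_int _ _
    rw [this]
    exact RingHom.injective_int _
  have hl := typ_Ft_lead k hk a ha t
  have hne : φ (a k) ≠ 0 := by
    intro h0
    exact ha ((injective_iff_map_eq_zero φ).1 hinj _ h0)
  have h1 : C (φ (a k)) * (Gt k a t).map φ = ((Ft k a t).map φ).scaleRoots (φ (a k)) := by
    have h2 := leadingCoeff_smul_integralNormalization (Ft k a t)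
    rw [hl] at h2
    have h3 := congrArg (Polynomial.map φ) h2
    rw [map_scaleRoots _ _ _ (by rw [hl]; exact hne)] at h3
    rw [← h3, smul_eq_C_mul, Polynomial.map_mul, map_C]
    rfl
  have h4 := typ_scale_irr _ _ hne h
  rw [← h1] at h4
  exact (irreducible_isUnit_mul (isUnit_C.2 (IsUnit.mk0 _ hne))).1 h4

theorem typ_Gt_irrZ (k : ℕ) (hk : 1 ≤ k) (a : ℕ → ℤ) (ha : a k ≠ 0) (t : ℤ) (φ : ℤ →+* ℚ)
    (h : Irreducible ((Gt k a t).map φ)) : Irreducible (Gt k a t) := by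
  rw [(typ_Gt_monic k hk a ha t).irreducible_iff_irreducible_map_fraction_map (K := ℚ)]
  have : φ = algebraMap ℤ ℚ := RingHom.ext_int _ _
  rwa [← this]

/-- number of roots mod `p` as the number of zeros in `ZMod p` -/
theorem typ_rho_zmod (g : ℤ[X]) (p : ℕ) [Fact p.Prime] :
    rho g p = (Finset.univ.filter (fun x : ZMod p => (g.map (Int.castRingHom (ZMod p))).eval x = 0)).card := by
  unfold rho
  have key : ∀ r : ℕ, ((p : ℤ) ∣ g.eval (r : ℤ)) ↔
      (g.map (Int.castRingHom (ZMod p))).eval (r : ZMod p) = 0 := by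
    intro r
    rw [← ZMod.intCast_zmod_eq_zero_iff_dvd, eval_map]
    have : (((r : ℤ) : ZMod p)) = (r : ZMod p) := by push_cast; rfl
    rw [← this, ← eq_intCast (Int.castRingHom (ZMod p)) (r : ℤ), eval₂_at_apply]
    rfl
  refine Finset.card_bij (fun r _ => (r : ZMod p)) ?_ ?_ ?_
  · intro r hr
    simp only [Finset.mem_filter, Finset.mem_range] at hr
    simp only [Finset.mem_filter, Finset.mem_univ, true_and]
    exact (key r).1 hr.2
  · intro r hr s hs hrs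
    simp only [Finset.mem_filter, Finset.mem_range] at hr hs
    rw [ZMod.natCast_eq_natCast_iff'] at hrs
    rwa [Nat.mod_eq_of_lt hr.1, Nat.mod_eq_of_lt hs.1] at hrs
  · intro x hx
    simp only [Finset.mem_filter, Finset.mem_univ, true_and] at hx
    refine ⟨x.val, ?_, ZMod.natCast_zmod_val x⟩
    simp only [Finset.mem_filter, Finset.mem_range]
    refine ⟨ZMod.val_lt x, ?_⟩
    rw [key, ZMod.natCast_zmod_val]
    exact hx

theorem typ_rho_Gt (k : ℕ) (hk : 1 ≤ k) (a : ℕ → ℤ) (ha : a k ≠ 0) (t : ℤ) (p : ℕ) (hp : p.Prime)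
    (hpa : ¬ (p : ℤ) ∣ a k) : rho (Ft k a t) p = rho (Gt k a t) p := by
  have : Fact p.Prime := ⟨hp⟩
  rw [typ_rho_zmod, typ_rho_zmod]
  have hak : ((a k : ℤ) : ZMod p) ≠ 0 := by
    rw [Ne, ZMod.intCast_zmod_eq_zero_iff_dvd]
    exact hpa
  have key : ∀ x : ZMod p, ((Gt k a t).map (Int.castRingHom (ZMod p))).eval (((a k : ℤ) : ZMod p) * x) =
      ((a k : ℤ) : ZMod p) ^ (k - 1) * ((Ft k a t).map (Int.castRingHom (ZMod p))).eval x := by
    intro x
    have h := integralNormalization_eval₂_leadingCoeff_mul (p := Ft k a t)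
      (by rw [typ_Ft_natDegree k hk a ha]; exact hk) (Int.castRingHom (ZMod p)) x
    rw [typ_Ft_lead k hk a ha, typ_Ft_natDegree k hk a ha] at h
    rw [eval_map, eval_map]
    exact h
  refine Finset.card_bij (fun x _ => ((a k : ℤ) : ZMod p) * x) ?_ ?_ ?_
  · intro x hx
    simp only [Finset.mem_filter, Finset.mem_univ, true_and] at hx ⊢
    rw [key, hx, mul_zero]
  · intro x _ y _ hxy
    exact mul_left_cancel₀ hak hxy
  · intro y hy
    simp only [Finset.mem_filter, Finset.mem_univ, true_and] at hy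
    refine ⟨((a k : ℤ) : ZMod p)⁻¹ * y, ?_, ?_⟩
    · simp only [Finset.mem_filter, Finset.mem_univ, true_and]
      have h1 := key (((a k : ℤ) : ZMod p)⁻¹ * y)
      rw [mul_inv_cancel_left₀ hak, hy] at h1
      exact (mul_eq_zero.1 h1.symm).resolve_left (pow_ne_zero _ hak)
    · rw [mul_inv_cancel_left₀ hak]

theorem typ_Gt_ht (k : ℕ) (hk : 1 ≤ k) (a : ℕ → ℤ) (ha : a k ≠ 0) (t : ℤ) (M : ℝ) (hM1 : 1 ≤ M)
    (hM : ∀ j ∈ Icc 1 k, |((a j : ℤ) : ℝ)| ≤ M) (ht : |(t : ℝ)| ≤ M) : HtLe (Gt k a t) (M ^ k) := by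
  intro i
  have h1M : 1 ≤ M ^ k := one_le_pow₀ hM1
  by_cases hi : i = k
  · have : (Gt k a t).coeff i = 1 := by
      have := typ_Gt_monic k hk a ha t
      rw [hi]
      rwa [Monic, leadingCoeff, typ_Gt_natDegree k hk a ha] at this
    rw [this]
    simpa using h1M
  · by_cases hi2 : k < i
    · rw [coeff_eq_zero_of_natDegree_lt (by rw [typ_Gt_natDegree k hk a ha]; exact hi2)]
      simp
      positivity
    · have hik : i < k := by omega
      unfold Gt
      rw [integralNormalization_coeff_ne_natDegree (by rw [typ_Ft_natDegree k hk a ha]; exact hi),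
        typ_Ft_lead k hk a ha, typ_Ft_natDegree k hk a ha]
      have h2 : |(((Ft k a t).coeff i : ℤ) : ℝ)| ≤ M := by
        rw [typ_Ft_coeff]
        by_cases h0 : i = 0
        · rw [if_neg (by simp; omega), if_pos h0]
          push_cast
          rw [zero_sub, abs_neg]
          exact ht
        · rw [if_pos (by simp; omega), if_neg h0, sub_zero]
          exact hM i (by simp; omega)
      push_cast
      rw [abs_mul, abs_pow]
      calc |(((Ft k a t).coeff i : ℤ) : ℝ)| * |((a k : ℤ) : ℝ)| ^ (k - 1 - i)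
          ≤ M * M ^ (k - 1 - i) := by
            apply mul_le_mul h2 _ (by positivity) (by linarith)
            exact pow_le_pow_left₀ (abs_nonneg _) (hM k (by simp; omega)) _
        _ = M ^ (k - 1 - i + 1) := by rw [pow_succ]; ring
        _ ≤ M ^ k := pow_le_pow_right₀ hM1 (by omega)

/-- irreducibility over a field -/
def TypIrr (K : Type) [Field K] (g : ℤ[X]) : Prop := Irreducible (g.map (Int.castRingHom K))

theorem typIrr_Gt (k : ℕ) (hk : 1 ≤ k) (a : ℕ → ℤ) (ha : a k ≠ 0) (t : ℤ) (K : Type) [Field K]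
    [CharZero K] (h : TypIrr K (Ft k a t)) : TypIrr K (Gt k a t) :=
  typ_Gt_irr k hk a ha t K (Int.castRingHom K) h

theorem typIrr_of (K : Type) [Field K] (g : ℤ[X]) (h : Irreducible (g.map (algebraMap ℤ K))) :
    TypIrr K g := h

theorem typIrr_to (p : ℚ[X]) (g : ℤ[X]) (h : TypIrr p.SplittingField g) :
    Irreducible (g.map (algebraMap ℤ p.SplittingField)) := by
  unfold TypIrr at h
  exact h

theorem typ_conv (k : ℕ) (hk : 1 ≤ k) (a : ℕ → ℤ) (ha : a k ≠ 0) (t : ℤ) (P Q : ℚ[X]) (hQ : Q = P)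
    (h : TypIrr P.SplittingField (Ft k a t)) :
    Irreducible ((Gt k a t).map (algebraMap ℤ Q.SplittingField)) := by
  subst hQ
  exact typIrr_to _ _ (typIrr_Gt k hk a ha t Q.SplittingField h)

theorem typ_seq (k r : ℕ) (hk : 1 ≤ k) (a : ℕ → ℤ) (ha : a k ≠ 0) (B : ℤ → Prop)
    (hstep : ∀ (K : Type) [Field K] [NumberField K], Module.finrank ℚ K ≤ (k * r).factorial →
      ∃ t, B t ∧ Irreducible ((Ft k a t).map (algebraMap ℤ K))) :
    ∃ t : Fin r → ℤ, (∀ i, B (t i)) ∧ SuccIrr (fun i => Gt k a (t i)) := by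
  classical
  have h1 : ∀ p : ℚ[X], ∃ t, p.natDegree ≤ k * r →
      (B t ∧ TypIrr p.SplittingField (Ft k a t)) := by
    intro p
    by_cases hp : p.natDegree ≤ k * r
    · have := typ_nf p
      obtain ⟨t, ht1, ht2⟩ := hstep p.SplittingField (typ_finrank p _ hp)
      refine ⟨t, fun _ => ⟨ht1, ?_⟩⟩
      exact typIrr_of _ _ ht2
    · exact ⟨0, fun h => absurd h hp⟩
  choose next hnext using h1
  -- the sequence of products
  let P : ℕ → ℚ[X] := fun n => Nat.rec 1 (fun _ p => p * (Gt k a (next p)).map (Int.castRingHom ℚ)) n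
  have hP0 : P 0 = 1 := rfl
  have hPs : ∀ n, P (n + 1) = P n * (Gt k a (next (P n))).map (Int.castRingHom ℚ) := fun n => rfl
  have hdeg : ∀ n, (P n).natDegree ≤ k * n := by
    intro n
    induction n with
    | zero => rw [hP0]; simp
    | succ n ih =>
      rw [hPs]
      refine le_trans natDegree_mul_le ?_
      have h2 : ((Gt k a (next (P n))).map (Int.castRingHom ℚ)).natDegree ≤ k :=
        le_trans natDegree_map_le (typ_Gt_natDegree k hk a ha _).le
      calc (P n).natDegree + _ ≤ k * n + k := Nat.add_le_add ih h2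
        _ = k * (n + 1) := by ring
  have hprod : ∀ n, n ≤ r → prodLt (fun i : Fin r => Gt k a (next (P i.val))) n = P n := by
    intro n
    induction n with
    | zero =>
      intro _
      unfold prodLt
      rw [hP0, Finset.filter_false_of_mem (by intro x _; omega), Finset.prod_empty]
    | succ n ih =>
      intro hn
      have h3 := ih (by omega)
      rw [hPs, ← h3]
      unfold prodLt
      have h4 : (Finset.univ : Finset (Fin r)).filter (fun l => l.val < n + 1) =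
          insert (⟨n, by omega⟩ : Fin r) ((Finset.univ : Finset (Fin r)).filter (fun l => l.val < n)) := by
        ext l
        simp only [Finset.mem_filter, Finset.mem_univ, true_and, Finset.mem_insert, Fin.ext_iff]
        omega
      rw [h4, Finset.prod_insert (by simp), mul_comm]
      congr 1
      unfold prodLt at h3
      rw [h3]
  refine ⟨fun i => next (P i.val), ?_, ?_⟩
  · intro i
    exact (hnext (P i.val) (le_trans (hdeg _) (Nat.mul_le_mul_left _ i.isLt.le))).1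
  · intro i
    have h5 := (hnext (P i.val) (le_trans (hdeg _) (Nat.mul_le_mul_left _ i.isLt.le))).2
    exact typ_conv k hk a ha _ _ _ (hprod i.val i.isLt.le) h5

theorem typ_FF_lead (k : ℕ) (hk : 1 ≤ k) (a : ℕ → ℤ) (ha : a k ≠ 0) :
    (FF k a).leadingCoeff = a k := by
  rw [leadingCoeff, typ_FF_natDegree k hk a ha, typ_FF_coeff, if_pos (by simp; omega)]

/-- the basic data extracted from `MajD` -/
theorem typ_data (f : ℝ[X]) (hk : 1 ≤ f.natDegree) : ∃ N0 : ℕ, ∀ (N T q : ℕ) (a : ℕ → ℤ),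
    N0 ≤ N → MajD f N T q a → T ^ 4 ≤ N →
    a f.natDegree ≠ 0 ∧ |f.leadingCoeff| / 2 * q ≤ |((a f.natDegree : ℤ) : ℝ)| ∧
    (∀ j ∈ Icc 1 f.natDegree, |((a j : ℤ) : ℝ)| ≤ (1 + ∑ j ∈ Icc 1 f.natDegree, |f.coeff j|) * q) := by
  obtain ⟨N0, hN0⟩ := majD_lead f hk
  refine ⟨N0, fun N T q a hN hM hT => ?_⟩
  have hT1 : 1 ≤ T := le_trans hM.q1 hM.qT
  have hTN : T ≤ N := le_trans (Nat.le_self_pow (by norm_num) T) hT
  have hT2 : T ^ 2 ≤ N := le_trans (Nat.pow_le_pow_right hT1 (by norm_num)) hT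
  have h1 := hN0 N hN T q a hM hT2
  have hq : (0 : ℝ) < q := by exact_mod_cast hM.q1
  have hlc : 0 < |f.leadingCoeff| := by
    rw [abs_pos, Ne, leadingCoeff_eq_zero]
    rintro rfl
    simp at hk
  refine ⟨?_, h1, ?_⟩
  · intro h0
    rw [h0] at h1
    simp only [Int.cast_zero, abs_zero] at h1
    have : 0 < |f.leadingCoeff| / 2 * q := by positivity
    linarith
  · intro j hj
    refine le_trans (majD_coeff f N T q a hM hTN j hj) ?_
    apply mul_le_mul_of_nonneg_right _ hq.le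
    have := Finset.single_le_sum (f := fun j => |f.coeff j|) (fun i _ => abs_nonneg _) hj
    linarith

theorem typ_prIoc_lt {a b : ℝ} {p : ℕ} (ha : 0 ≤ a) (hp : p ∈ prIoc a b) : a < p ∧ p.Prime := by
  unfold prIoc at hp
  rw [Finset.mem_filter, Finset.mem_Ioc] at hp
  exact ⟨(Nat.floor_lt ha).1 hp.1.1, hp.2⟩

/-- the two sums agree above `E` -/
theorem typ_Ssum_eq (k : ℕ) (hk : 1 ≤ k) (a : ℕ → ℤ) (ha : a k ≠ 0) (t : ℤ) (E y : ℝ) (hE : 0 ≤ E)
    (hEa : |((a k : ℤ) : ℝ)| ≤ E) :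
    Ssum (rhoR (Ft k a t)) E y = Ssum (rhoR (Gt k a t)) E y := by
  unfold Ssum
  refine Finset.sum_congr rfl (fun p hp => ?_)
  obtain ⟨h1, h2⟩ := typ_prIoc_lt hE hp
  unfold rhoR
  rw [typ_rho_Gt k hk a ha t p h2]
  intro h3
  have h4 := Int.le_of_dvd (abs_pos.2 ha) ((dvd_abs _ _).2 h3)
  have h5 : (p : ℝ) ≤ |((a k : ℤ) : ℝ)| := by exact_mod_cast h4
  linarith

theorem typ (f : ℝ[X]) (hk : 1 ≤ f.natDegree) : ∃ (A c C : ℝ) (T0 N0 : ℕ), 1 ≤ A ∧ 0 < c ∧ 0 ≤ C ∧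
    ∀ (N T q : ℕ) (a : ℕ → ℤ), N0 ≤ N → T0 ≤ T → MajD f N T q a → T ^ 4 ≤ N →
    ∃ G ⊆ Icc 1 N, (((Icc 1 N) \ G).card : ℝ) ≤ C * N * (T : ℝ) ^ (-c) ∧
      ∀ n ∈ G, ∀ y : ℝ, (T : ℝ) ^ A ≤ y →
        |Ssum (rhoR (Ft f.natDegree a (tt f q a n))) ((T : ℝ) ^ A) y -
          Real.log (Real.log y / Real.log ((T : ℝ) ^ A))| ≤
        C * (1 + Real.log (1 + Real.log (Real.log y / Real.log ((T : ℝ) ^ A)))) := by
  classical
  set k := f.natDegree with hkdef
  obtain ⟨r, hr1, hexc⟩ := exc k hk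
  set c0 : ℝ := |f.leadingCoeff| / 2 with hc0def
  have hc0 : 0 < c0 := by
    have : 0 < |f.leadingCoeff| := by
      rw [abs_pos, Ne, leadingCoeff_eq_zero]
      rintro rfl
      simp [hkdef] at hk
    positivity
  set C0 : ℝ := 1 + ∑ j ∈ Icc 1 k, |f.coeff j| with hC0def
  have hC0 : 1 ≤ C0 := by
    have : 0 ≤ ∑ j ∈ Icc 1 k, |f.coeff j| := Finset.sum_nonneg (fun i _ => abs_nonneg _)
    linarith
  set C1 : ℝ := 1 + |f.coeff 0| + k with hC1def
  have hC1 : 1 ≤ C1 := by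
    have h1 := abs_nonneg (f.coeff 0)
    have h2 : (0 : ℝ) ≤ k := Nat.cast_nonneg _
    linarith
  obtain ⟨c4, C2, hc4, hC2, hhit⟩ := hit_count k (k * r).factorial hk c0 C0 C1 hc0 (by linarith) (by linarith)
  obtain ⟨c5, Cp, hc5, hCp, hpb⟩ := pb k hk (c4 / 2) (by positivity)
  obtain ⟨Cu, hCu, hup⟩ := mertens_upper k hk
  obtain ⟨A1, Cl, hA1, hCl, hlow⟩ := mertens_lower k hk
  have hkR : (1 : ℝ) ≤ k := by exact_mod_cast hk
  obtain ⟨C5, hboot⟩ := boot (1 + Cu + Cl) ((1 : ℝ) / (4 * k)) (by linarith) (by positivity)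
    (by rw [div_le_one (by positivity)]; linarith)
  obtain ⟨A2, b0, hA2, hb0, hexc2⟩ := hexc C5
  obtain ⟨C', hC', hboot'⟩ := hboot b0 hb0
  obtain ⟨N1, hN1⟩ := typ_data f hk
  set M0 : ℝ := C0 + C1 with hM0def
  have hM0 : 1 ≤ M0 := by linarith
  set A : ℝ := (k + 1) * (A1 + A2) with hAdef
  have hA : 2 ≤ A := by nlinarith
  set c : ℝ := min c5 (c4 / 2) with hcdef
  have hc : 0 < c := lt_min hc5 (by positivity)
  refine ⟨A, c, 2 * (Cp * (1 + C2)) + C' + 1 + 2 * Cu, ⌈M0 ^ k⌉₊ + 2 + ⌈M0⌉₊, N1, by linarith, hc, by positivity, ?_⟩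
  intro N T q a hN hT hM hT4
  obtain ⟨hak, hak2, haj⟩ := hN1 N T q a hN hM hT4
  -- basic inequalities for `T`
  have hT2n : 2 ≤ T := by omega
  have hT2 : (2 : ℝ) ≤ T := by exact_mod_cast hT2n
  have hTpos : (0 : ℝ) < T := by linarith
  have hT1 : (1 : ℝ) ≤ T := by linarith
  have hTM : M0 ^ k ≤ T := by
    have h1 : M0 ^ k ≤ ⌈M0 ^ k⌉₊ := Nat.le_ceil _
    have h2 : ((⌈M0 ^ k⌉₊ : ℕ) : ℝ) ≤ T := by exact_mod_cast (by omega : ⌈M0 ^ k⌉₊ ≤ T)
    linarith
  have hTM1 : M0 ≤ T := by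
    have h1 : M0 ≤ ⌈M0⌉₊ := Nat.le_ceil _
    have h2 : ((⌈M0⌉₊ : ℕ) : ℝ) ≤ T := by exact_mod_cast (by omega : ⌈M0⌉₊ ≤ T)
    linarith
  have hq1 : (1 : ℝ) ≤ q := by exact_mod_cast hM.q1
  have hqT : (q : ℝ) ≤ T := by exact_mod_cast hM.qT
  -- `E` and `H`
  set E : ℝ := (T : ℝ) ^ A with hEdef
  set H : ℝ := (T : ℝ) ^ (k + 1) with hHdef
  have hHT : (T : ℝ) ≤ H := by
    rw [hHdef, pow_succ]
    exact le_mul_of_one_le_left hTpos.le (one_le_pow₀ hT1)
  have hH2 : 2 ≤ H := by linarith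
  have hHrp : H = (T : ℝ) ^ ((k : ℝ) + 1) := by
    rw [hHdef, ← Real.rpow_natCast]
    push_cast
    rfl
  have hHE : ∀ A' : ℝ, A' ≤ A1 + A2 → H ^ A' ≤ E := by
    intro A' hA'
    rw [hHrp, ← Real.rpow_mul hTpos.le, hEdef]
    apply Real.rpow_le_rpow_of_exponent_le hT1
    rw [hAdef]
    exact mul_le_mul_of_nonneg_left hA' (by positivity)
  have hHE1 : H ≤ E := by
    have := hHE 1 (by linarith)
    rwa [Real.rpow_one] at this
  have hTE : (T : ℝ) ≤ E := le_trans hHT hHE1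
  have hE2 : 2 ≤ E := by linarith
  have hT2E : (T : ℝ) ^ 2 ≤ E := by
    rw [hEdef, ← Real.rpow_natCast]
    exact Real.rpow_le_rpow_of_exponent_le hT1 (by push_cast; exact hA)
  have hlogE : 0 < Real.log E := Real.log_pos (by linarith)
  have hlogHE : Real.log H ≤ Real.log E := Real.log_le_log (by linarith) hHE1
  have hlogH : 0 ≤ Real.log H := Real.log_nonneg (by linarith)
  -- heights
  have haM : ∀ j ∈ Icc 1 k, |((a j : ℤ) : ℝ)| ≤ M0 * T := by
    intro j hj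
    refine le_trans (haj j hj) ?_
    calc (1 + ∑ j ∈ Icc 1 f.natDegree, |f.coeff j|) * (q : ℝ) ≤ C0 * T := by
          apply mul_le_mul_of_nonneg_left hqT (by linarith)
      _ ≤ M0 * T := mul_le_mul_of_nonneg_right (by linarith) hTpos.le
  have hHt : ∀ t : ℤ, |(t : ℝ)| ≤ C1 * T → HtLe (Gt k a t) H := by
    intro t ht i
    have h1 := typ_Gt_ht k hk a hak t (M0 * T) (by nlinarith) haM
      (le_trans ht (mul_le_mul_of_nonneg_right (by linarith) hTpos.le)) i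
    refine le_trans h1 ?_
    rw [mul_pow, hHdef, pow_succ, mul_comm]
    exact mul_le_mul_of_nonneg_left hTM (by positivity)
  have hakE : |((a k : ℤ) : ℝ)| ≤ E := by
    refine le_trans (haM k (by simp; exact hk)) (le_trans ?_ hT2E)
    rw [sq]
    exact mul_le_mul_of_nonneg_right hTM1 hTpos.le
  -- the bound for each number field
  set Q : ℝ := N * (Cp * (1 + C2)) * (T : ℝ) ^ (-c) with hQdef
  have hKbound : ∀ (K : Type) [Field K] [NumberField K], Module.finrank ℚ K ≤ (k * r).factorial →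
      (((Icc 1 N).filter (fun n => ¬ Irreducible ((Ft k a (tt f q a n)).map (algebraMap ℤ K)))).card : ℝ)
        ≤ Q := by
    intro K _ _ hK
    have h1 := hhit K hK (FF k a) q T (typ_FF_natDegree k hk a hak)
      (by rw [typ_FF_coeff, if_neg (by simp)]) hM.q1 hM.qT (by rw [typ_FF_lead k hk a hak]; exact hak2)
      (by
        intro i
        rw [typ_FF_coeff]
        split_ifs with h
        · exact haj i h
        · simp; positivity)
    set Bad := (Finset.Icc (-⌊C1 * T⌋) ⌊C1 * T⌋).filter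
      (fun t : ℤ => ¬ Irreducible ((FF k a - Polynomial.C t).map (algebraMap ℤ K))) with hBad
    have h2 := hpb f rfl N T q a hM hT4 Bad
    have h3 : (((Icc 1 N).filter
        (fun n => ¬ Irreducible ((Ft k a (tt f q a n)).map (algebraMap ℤ K)))).card : ℝ) ≤
        (((Icc 1 N).filter (fun n => tt f q a n ∈ Bad)).card : ℝ) := by
      have : (Icc 1 N).filter (fun n => ¬ Irreducible ((Ft k a (tt f q a n)).map (algebraMap ℤ K))) ⊆
          (Icc 1 N).filter (fun n => tt f q a n ∈ Bad) := by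
        intro n hn
        rw [Finset.mem_filter] at hn ⊢
        refine ⟨hn.1, ?_⟩
        rw [hBad, Finset.mem_filter, Finset.mem_Icc]
        have h4 := majD_tt f N T q a hM n hn.1
        rw [abs_le] at h4
        refine ⟨⟨?_, ?_⟩, hn.2⟩
        · rw [neg_le, Int.le_floor]
          push_cast
          linarith [h4.1]
        · rw [Int.le_floor]
          exact h4.2
      exact_mod_cast Finset.card_le_card this
    refine le_trans h3 (le_trans h2 ?_)
    have h5 : (T : ℝ) ^ (-c5) ≤ (T : ℝ) ^ (-c) :=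
      Real.rpow_le_rpow_of_exponent_le hT1 (by have := min_le_left c5 (c4 / 2); linarith)
    have h6 : (T : ℝ) ^ (c4 / 2 - 1) * (T : ℝ) ^ (1 - c4) ≤ (T : ℝ) ^ (-c) := by
      rw [← Real.rpow_add hTpos]
      exact Real.rpow_le_rpow_of_exponent_le hT1 (by have := min_le_right c5 (c4 / 2); linarith)
    have hTp : 0 ≤ (T : ℝ) ^ (c4 / 2 - 1) := by positivity
    rw [hQdef, mul_assoc (N : ℝ)]
    apply mul_le_mul_of_nonneg_left _ (Nat.cast_nonneg _)
    calc Cp * (T : ℝ) ^ (-c5) + Cp * (T : ℝ) ^ (c4 / 2 - 1) * (Bad.card : ℝ)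
        ≤ Cp * (T : ℝ) ^ (-c) + Cp * (T : ℝ) ^ (c4 / 2 - 1) * (C2 * (T : ℝ) ^ (1 - c4)) := by
          apply add_le_add
          · exact mul_le_mul_of_nonneg_left h5 hCp.le
          · exact mul_le_mul_of_nonneg_left h1 (by positivity)
      _ = Cp * (T : ℝ) ^ (-c) + Cp * C2 * ((T : ℝ) ^ (c4 / 2 - 1) * (T : ℝ) ^ (1 - c4)) := by ring
      _ ≤ Cp * (T : ℝ) ^ (-c) + Cp * C2 * (T : ℝ) ^ (-c) := by
          have := mul_le_mul_of_nonneg_left h6 (mul_nonneg hCp.le hC2)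
          linarith
      _ = Cp * (1 + C2) * (T : ℝ) ^ (-c) := by ring
  -- the exceptional values
  set B : ℤ → Prop := fun t => Irreducible (Gt k a t) ∧ Ssum (rhoR (Gt k a t)) E (E ^ b0) < C5 ∧
    |(t : ℝ)| ≤ C1 * T with hBdef
  have hBbound : (((Icc 1 N).filter (fun n => B (tt f q a n))).card : ℝ) ≤ Q := by
    by_contra hcon
    push Not at hcon
    obtain ⟨t, ht1, ht2⟩ := typ_seq k r hk a hak B (by
      intro K _ _ hK
      have h1 := hKbound K hK
      have h2 : ∃ n ∈ (Icc 1 N).filter (fun n => B (tt f q a n)),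
          n ∉ (Icc 1 N).filter (fun n => ¬ Irreducible ((Ft k a (tt f q a n)).map (algebraMap ℤ K))) := by
        by_contra hh
        push Not at hh
        have h3 := Finset.card_le_card (s := (Icc 1 N).filter (fun n => B (tt f q a n))) hh
        have h4 : (((Icc 1 N).filter (fun n => B (tt f q a n))).card : ℝ) ≤
          (((Icc 1 N).filter
            (fun n => ¬ Irreducible ((Ft k a (tt f q a n)).map (algebraMap ℤ K)))).card : ℝ) := by
          exact_mod_cast h3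
        linarith
      obtain ⟨n, hn1, hn2⟩ := h2
      rw [Finset.mem_filter] at hn1
      rw [Finset.mem_filter] at hn2
      push Not at hn2
      exact ⟨tt f q a n, hn1.2, hn2 hn1.1⟩)
    obtain ⟨i, hi⟩ := hexc2 H E (fun i => Gt k a (t i)) hH2 (hHE A2 (by linarith))
      (fun i => typ_Gt_monic k hk a hak _) (fun i => typ_Gt_natDegree k hk a hak _)
      (fun i => hHt _ (ht1 i).2.2) ht2
    have := (ht1 i).2.1
    linarith
  -- the good set
  refine ⟨(Icc 1 N).filter (fun n => Irreducible ((Ft k a (tt f q a n)).map (algebraMap ℤ ℚ)) ∧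
    ¬ B (tt f q a n)), Finset.filter_subset _ _, ?_, ?_⟩
  · have hQ1 := hKbound ℚ (by
      rw [Module.finrank_self]
      exact Nat.factorial_pos _)
    have hsub : (Icc 1 N) \ ((Icc 1 N).filter (fun n => Irreducible ((Ft k a (tt f q a n)).map
        (algebraMap ℤ ℚ)) ∧ ¬ B (tt f q a n))) ⊆
        ((Icc 1 N).filter (fun n => ¬ Irreducible ((Ft k a (tt f q a n)).map (algebraMap ℤ ℚ)))) ∪
        ((Icc 1 N).filter (fun n => B (tt f q a n))) := by
      intro n hn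
      rw [Finset.mem_sdiff, Finset.mem_filter] at hn
      rw [Finset.mem_union, Finset.mem_filter, Finset.mem_filter]
      by_cases h : Irreducible ((Ft k a (tt f q a n)).map (algebraMap ℤ ℚ))
      · right
        refine ⟨hn.1, ?_⟩
        by_contra hB
        exact hn.2 ⟨hn.1, h, hB⟩
      · left
        exact ⟨hn.1, h⟩
    have h1 := Finset.card_le_card hsub
    have h2 := le_trans h1 (Finset.card_union_le _ _)
    have h3 : ((((Icc 1 N) \ ((Icc 1 N).filter (fun n => Irreducible ((Ft k a (tt f q a n)).map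
        (algebraMap ℤ ℚ)) ∧ ¬ B (tt f q a n)))).card : ℕ) : ℝ) ≤ Q + Q := by
      refine le_trans (Nat.cast_le.2 h2) ?_
      rw [Nat.cast_add]
      exact add_le_add hQ1 hBbound
    refine le_trans h3 ?_
    have hTc : 0 ≤ (T : ℝ) ^ (-c) := by positivity
    have hNT : 0 ≤ (N : ℝ) * (T : ℝ) ^ (-c) := by positivity
    have : Q + Q = (2 * (Cp * (1 + C2))) * ((N : ℝ) * (T : ℝ) ^ (-c)) := by rw [hQdef]; ring
    rw [this, mul_assoc (2 * (Cp * (1 + C2)) + C' + 1 + 2 * Cu)]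
    apply mul_le_mul_of_nonneg_right _ hNT
    linarith
  · intro n hn y hy
    rw [Finset.mem_filter] at hn
    obtain ⟨hn1, hn2, hn3⟩ := hn
    have htn : |((tt f q a n : ℤ) : ℝ)| ≤ C1 * T := majD_tt f N T q a hM n hn1
    have hirrQ := typ_Gt_irr k hk a hak (tt f q a n) ℚ _ hn2
    have hirr := typ_Gt_irrZ k hk a hak (tt f q a n) _ hirrQ
    have hS5 : C5 ≤ Ssum (rhoR (Gt k a (tt f q a n))) E (E ^ b0) := by
      by_contra hcon
      push Not at hcon
      exact hn3 ⟨hirr, hcon, htn⟩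
    rw [typ_Ssum_eq k hk a hak _ E y (by linarith) hakE]
    set g := Gt k a (tt f q a n) with hg
    have hgm : g.Monic := typ_Gt_monic k hk a hak _
    have hgd : g.natDegree = k := typ_Gt_natDegree k hk a hak _
    have hgH : HtLe g H := hHt _ htn
    have hw : ∀ p, 0 ≤ rhoR g p := fun p => by unfold rhoR; positivity
    have hU := hup g hgm hgd hirr H hH2 hgH
    have hL := hlow g hgm hgd hirr H hH2 hgH E (hHE A1 (by linarith))
    have hupper := abel_upper (rhoR g) hw (Cu * Real.log H) (by positivity) hU E y hE2 hy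
    have hlower := hboot' (rhoR g) E hw hE2
      (by
        intro Y hY
        refine le_trans (hU Y hY) ?_
        have h1 : Cu * Real.log H ≤ Cu * Real.log E := mul_le_mul_of_nonneg_left hlogHE hCu
        have h2 : 0 ≤ (1 + Cl) * Real.log E := by positivity
        nlinarith)
      (by
        intro Y hY
        refine le_trans ?_ (hL Y hY)
        have hYl : 0 ≤ Real.log Y := Real.log_nonneg hY
        have hm : 0 < max 1 (Ssum (rhoR g) E (Y ^ ((1 : ℝ) / (4 * k)))) :=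
          lt_of_lt_of_le one_pos (le_max_left _ _)
        have h1 : Cl * Real.log E ≤ (1 + Cu + Cl) * Real.log E :=
          mul_le_mul_of_nonneg_right (by linarith) hlogE.le
        have h2 : Cl * Real.log Y / max 1 (Ssum (rhoR g) E (Y ^ ((1 : ℝ) / (4 * k)))) ≤
            (1 + Cu + Cl) * Real.log Y / max 1 (Ssum (rhoR g) E (Y ^ ((1 : ℝ) / (4 * k)))) := by
          apply div_le_div_of_nonneg_right _ hm.le
          exact mul_le_mul_of_nonneg_right (by linarith) hYl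
        linarith)
      hS5 y hy
    have hratio : 1 ≤ Real.log y / Real.log E := by
      rw [one_le_div hlogE]
      exact Real.log_le_log (by linarith) hy
    have hl1 : 0 ≤ Real.log (Real.log y / Real.log E) := Real.log_nonneg hratio
    have hl2 : 0 ≤ Real.log (1 + Real.log (Real.log y / Real.log E)) :=
      Real.log_nonneg (by linarith)
    have hquot : 2 * (Cu * Real.log H) / Real.log E ≤ 2 * Cu := by
      rw [div_le_iff₀ hlogE]
      nlinarith
    rw [abs_le]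
    set ℓ := Real.log (1 + Real.log (Real.log y / Real.log E)) with hℓ
    set X := 2 * (Cp * (1 + C2)) with hX
    have hX0 : 0 ≤ X := by positivity
    constructor
    · have : C' * (1 + ℓ) ≤ (X + C' + 1 + 2 * Cu) * (1 + ℓ) :=
        mul_le_mul_of_nonneg_right (by linarith) (by linarith)
      linarith
    · have : (1 + 2 * Cu) * (1 + ℓ) ≤ (X + C' + 1 + 2 * Cu) * (1 + ℓ) :=
        mul_le_mul_of_nonneg_right (by linarith) (by linarith)
      have h9 : (1 + 2 * Cu) ≤ (1 + 2 * Cu) * (1 + ℓ) := by nlinarith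
      linarith

end EK75

end S_H75_EK_Typ

section S_H75_EK_Mu

/-! Module MU: the small primes contribute the right amount to the mean, for most `t(n)`. -/

open Polynomial Finset
open scoped Real BigOperators

namespace EK75

/-- primes `≤ z` not dividing `q a_k` -/
noncomputable def goodP (k q : ℕ) (a : ℕ → ℤ) (z : ℝ) : Finset ℕ :=
  (prLe z).filter (fun p : ℕ => ¬ ((p : ℤ) ∣ (q : ℤ) * a k))

lemma mu_rho_le (g : ℤ[X]) (p : ℕ) (hp : p.Prime) (k : ℕ) (hk : g.natDegree ≤ k)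
    (hc : ¬ ((p : ℤ) ∣ g.coeff k)) : rho g p ≤ k := by
  classical
  have : Fact p.Prime := ⟨hp⟩
  set h : (ZMod p)[X] := g.map (Int.castRingHom (ZMod p)) with hh
  have h0 : h ≠ 0 := by
    intro h1
    have h2 : h.coeff k = 0 := by rw [h1, coeff_zero]
    rw [hh, coeff_map] at h2
    have h3 : ((g.coeff k : ℤ) : ZMod p) = 0 := h2
    exact hc ((ZMod.intCast_zmod_eq_zero_iff_dvd _ p).1 h3)
  have h1 : rho g p ≤ h.roots.toFinset.card := by
    unfold rho
    refine Finset.card_le_card_of_injOn (fun r : ℕ => (r : ZMod p)) ?_ ?_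
    · intro r hr
      have hr' := (Finset.mem_filter.1 (Finset.mem_coe.1 hr)).2
      rw [Finset.mem_coe, Multiset.mem_toFinset, mem_roots h0, IsRoot.def, hh]
      have h2 : (g.map (Int.castRingHom (ZMod p))).eval ((r : ZMod p)) =
          ((g.eval (r : ℤ) : ℤ) : ZMod p) := by
        have := Polynomial.eval_map_apply (f := Int.castRingHom (ZMod p)) (p := g) (r : ℤ)
        simpa using this
      show (g.map (Int.castRingHom (ZMod p))).eval ((r : ZMod p)) = 0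
      rw [h2]
      exact (ZMod.intCast_zmod_eq_zero_iff_dvd _ p).2 hr'
    · intro r hr s hs hrs
      have hr' := Finset.mem_range.1 (Finset.mem_filter.1 (Finset.mem_coe.1 hr)).1
      have hs' := Finset.mem_range.1 (Finset.mem_filter.1 (Finset.mem_coe.1 hs)).1
      have h2 := (ZMod.natCast_eq_natCast_iff' r s p).1 hrs
      rwa [Nat.mod_eq_of_lt hr', Nat.mod_eq_of_lt hs'] at h2
  have h2 : h.roots.toFinset.card ≤ h.natDegree :=
    (Multiset.toFinset_card_le _).trans (card_roots' h)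
  have h3 : h.natDegree ≤ g.natDegree := natDegree_map_le
  omega

lemma mu_Ft_deg (k : ℕ) (a : ℕ → ℤ) (t : ℤ) : (Ft k a t).natDegree ≤ k := by
  unfold Ft FF
  refine (natDegree_sub_le _ _).trans ?_
  rw [natDegree_C, max_eq_left (Nat.zero_le _)]
  refine natDegree_sum_le_of_forall_le _ _ fun j hj => ?_
  exact (natDegree_C_mul_X_pow_le _ _).trans (Finset.mem_Icc.1 hj).2

lemma mu_Ft_coeff (k : ℕ) (hk : 1 ≤ k) (a : ℕ → ℤ) (t : ℤ) : (Ft k a t).coeff k = a k := by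
  unfold Ft FF
  rw [coeff_sub, finsetSum_coeff, coeff_C, if_neg (by omega), sub_zero,
    Finset.sum_eq_single k]
  · rw [coeff_C_mul_X_pow, if_pos rfl]
  · intro j _ hj
    rw [coeff_C_mul_X_pow, if_neg (Ne.symm hj)]
  · intro h
    exact absurd (Finset.mem_Icc.2 ⟨hk, le_refl k⟩) h

open Classical in
/-- the mixed moments of the local densities -/
lemma mu_moment (k : ℕ) (f : ℝ[X]) (hf : f.natDegree = k) (Cc c0 : ℝ)
    (N T q : ℕ) (a : ℕ → ℤ) (hM : MajD f N T q a)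
    (hcond : ∀ S : Finset ℕ, (∀ p ∈ S, p.Prime ∧ ¬ p ∣ q) → ∀ t : ℤ,
      |(((Icc 1 N).filter (fun n => tt f q a n = t ∧
        ∀ p ∈ S, (p : ℤ) ∣ ⌊f.eval (n : ℝ)⌋)).card : ℝ) -
      (((Icc 1 N).filter (fun n => tt f q a n = t)).card : ℝ) *
        ∏ p ∈ S, (rho (Ft k a t) p : ℝ) / p| ≤ Cc * q * ∏ p ∈ S, (p : ℝ))
    (hdiv : ∀ d : ℕ, 1 ≤ d → (d : ℝ) ≤ (T : ℝ) ^ c0 →
      |(((Icc 1 N).filter (fun n : ℕ => (d : ℤ) ∣ ⌊f.eval (n : ℝ)⌋)).card : ℝ) - N / d| ≤
        N * (T : ℝ) ^ (-c0))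
    (hCc : 0 ≤ Cc) (hT : 2 * (1 + |f.coeff 0| + k) + 1 ≤ (T : ℝ))
    (S : Finset ℕ) (hS : ∀ p ∈ S, p.Prime ∧ ¬ p ∣ q)
    (hd : ((∏ p ∈ S, p : ℕ) : ℝ) ≤ (T : ℝ) ^ c0) :
    |∑ n ∈ Icc 1 N, ∏ p ∈ S, (rho (Ft k a (tt f q a n)) p : ℝ) / p - N / ∏ p ∈ S, (p : ℝ)| ≤
      Cc * (T : ℝ) ^ 3 * ∏ p ∈ S, (p : ℝ) + N * (T : ℝ) ^ (-c0) := by
  have hq : (q : ℝ) ≤ T := by exact_mod_cast hM.qT
  have hT1 : (1 : ℝ) ≤ T := by
    have : 0 ≤ |f.coeff 0| := abs_nonneg _
    have : (0 : ℝ) ≤ k := Nat.cast_nonneg k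
    linarith
  set d : ℕ := ∏ p ∈ S, p with hdd
  have hdR : (d : ℝ) = ∏ p ∈ S, (p : ℝ) := by rw [hdd]; push_cast; rfl
  have hd1 : 1 ≤ d := Finset.prod_pos fun p hp => (hS p hp).1.pos
  set Ts : Finset ℤ := (Icc 1 N).image (tt f q a) with hTs
  -- number of values
  have hcard : (Ts.card : ℝ) ≤ (T : ℝ) ^ 2 := by
    set B : ℝ := (1 + |f.coeff 0| + k) * T with hB
    have hB0 : 0 ≤ B := by positivity
    have hsub : Ts ⊆ Finset.Icc (-⌊B⌋) ⌊B⌋ := by
      intro t ht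
      rw [hTs, Finset.mem_image] at ht
      obtain ⟨n, hn, rfl⟩ := ht
      have h1 := majD_tt f N T q a hM n hn
      rw [hf, ← hB, abs_le] at h1
      rw [Finset.mem_Icc]
      refine ⟨?_, Int.le_floor.2 h1.2⟩
      have h2 : -(tt f q a n) ≤ ⌊B⌋ := by
        rw [Int.le_floor]
        push_cast
        linarith [h1.1]
      linarith
    have h2 := Finset.card_le_card hsub
    rw [Int.card_Icc] at h2
    have h3 : (Ts.card : ℝ) ≤ 2 * B + 1 := by
      have h4 : (Ts.card : ℤ) ≤ 2 * ⌊B⌋ + 1 := by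
        have : (0 : ℤ) ≤ ⌊B⌋ := Int.floor_nonneg.2 hB0
        omega
      have h5 : (Ts.card : ℝ) ≤ 2 * (⌊B⌋ : ℝ) + 1 := by exact_mod_cast h4
      linarith [Int.floor_le B]
    have h6 : (2 * (1 + |f.coeff 0| + k) + 1) * (T : ℝ) ≤ T * T :=
      mul_le_mul_of_nonneg_right hT (by linarith)
    calc (Ts.card : ℝ) ≤ 2 * B + 1 := h3
      _ ≤ (2 * (1 + |f.coeff 0| + k) + 1) * (T : ℝ) := by rw [hB]; linarith
      _ ≤ (T : ℝ) ^ 2 := by rw [sq]; exact h6
  -- grouping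
  have hA : ∑ n ∈ Icc 1 N, ∏ p ∈ S, (rho (Ft k a (tt f q a n)) p : ℝ) / p =
      ∑ t ∈ Ts, (((Icc 1 N).filter (fun n => tt f q a n = t)).card : ℝ) *
        ∏ p ∈ S, (rho (Ft k a t) p : ℝ) / p := by
    rw [← Finset.sum_fiberwise_of_maps_to (g := tt f q a) (t := Ts)
      (fun n hn => Finset.mem_image_of_mem _ hn)]
    refine Finset.sum_congr rfl fun t _ => ?_
    rw [← nsmul_eq_mul, ← Finset.sum_const]
    refine Finset.sum_congr rfl fun n hn => ?_
    rw [(Finset.mem_filter.1 hn).2]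
  have hB : (((Icc 1 N).filter (fun n : ℕ => (d : ℤ) ∣ ⌊f.eval (n : ℝ)⌋)).card : ℝ) =
      ∑ t ∈ Ts, (((Icc 1 N).filter (fun n => tt f q a n = t ∧
        ∀ p ∈ S, (p : ℤ) ∣ ⌊f.eval (n : ℝ)⌋)).card : ℝ) := by
    have h1 : ∀ m : ℤ, (d : ℤ) ∣ m ↔ ∀ p ∈ S, (p : ℤ) ∣ m := by
      intro m
      have hdZ : (d : ℤ) = ∏ p ∈ S, (p : ℤ) := by rw [hdd]; push_cast; rfl
      rw [hdZ]
      constructor
      · intro h p hp
        exact (Finset.dvd_prod_of_mem _ hp).trans h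
      · intro h
        refine Finset.prod_dvd_of_coprime ?_ h
        intro p hp p' hp' hne
        have h2 := (Nat.coprime_primes (hS p hp).1 (hS p' hp').1).2 hne
        exact Nat.isCoprime_iff_coprime.2 h2
    have h2 : (Icc 1 N).filter (fun n : ℕ => (d : ℤ) ∣ ⌊f.eval (n : ℝ)⌋) =
        (Icc 1 N).filter (fun n : ℕ => ∀ p ∈ S, (p : ℤ) ∣ ⌊f.eval (n : ℝ)⌋) :=
      Finset.filter_congr fun n _ => h1 _
    rw [h2, Finset.card_eq_sum_card_fiberwise (f := tt f q a) (t := Ts)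
      (fun n hn => Finset.mem_coe.2 (Finset.mem_image_of_mem _
        (Finset.mem_filter.1 (Finset.mem_coe.1 hn)).1))]
    push_cast
    refine Finset.sum_congr rfl fun t _ => ?_
    rw [Finset.filter_filter]
    congr 2
    exact Finset.filter_congr fun n _ => and_comm
  have h1 : |(((Icc 1 N).filter (fun n : ℕ => (d : ℤ) ∣ ⌊f.eval (n : ℝ)⌋)).card : ℝ) -
      ∑ n ∈ Icc 1 N, ∏ p ∈ S, (rho (Ft k a (tt f q a n)) p : ℝ) / p| ≤
      Cc * (T : ℝ) ^ 3 * ∏ p ∈ S, (p : ℝ) := by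
    rw [hA, hB, ← Finset.sum_sub_distrib]
    refine (Finset.abs_sum_le_sum_abs _ _).trans ?_
    refine (Finset.sum_le_sum fun t _ => hcond S hS t).trans ?_
    rw [Finset.sum_const, nsmul_eq_mul]
    have hP0 : (0 : ℝ) ≤ ∏ p ∈ S, (p : ℝ) := Finset.prod_nonneg fun p _ => Nat.cast_nonneg p
    have h2 : (Ts.card : ℝ) * q ≤ (T : ℝ) ^ 2 * T :=
      mul_le_mul hcard hq (Nat.cast_nonneg q) (by positivity)
    calc (Ts.card : ℝ) * (Cc * q * ∏ p ∈ S, (p : ℝ)) =
        (Cc * ∏ p ∈ S, (p : ℝ)) * ((Ts.card : ℝ) * q) := by ring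
      _ ≤ (Cc * ∏ p ∈ S, (p : ℝ)) * ((T : ℝ) ^ 2 * T) :=
        mul_le_mul_of_nonneg_left h2 (mul_nonneg hCc hP0)
      _ = _ := by ring
  have h2 := hdiv d hd1 hd
  rw [← hdR]
  rw [← hdR] at h1
  rw [abs_sub_comm] at h1
  calc _ ≤ |∑ n ∈ Icc 1 N, ∏ p ∈ S, (rho (Ft k a (tt f q a n)) p : ℝ) / p -
        (((Icc 1 N).filter (fun n : ℕ => (d : ℤ) ∣ ⌊f.eval (n : ℝ)⌋)).card : ℝ)| +
        |(((Icc 1 N).filter (fun n : ℕ => (d : ℤ) ∣ ⌊f.eval (n : ℝ)⌋)).card : ℝ) - N / d| :=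
        abs_sub_le _ _ _
    _ ≤ _ := add_le_add h1 h2

theorem mu_small (k : ℕ) (hk : 1 ≤ k) : ∃ (c C : ℝ) (T0 : ℕ), 0 < c ∧ 0 ≤ C ∧ ∀ f : ℝ[X],
    f.natDegree = k → ∃ T1 : ℕ, ∀ (N T q : ℕ) (a : ℕ → ℤ), 1 ≤ N → MajD f N T q a → NonApp f N T →
    T0 ≤ T → T1 ≤ T → T ^ 4 ≤ N → a k ≠ 0 → ∀ z : ℝ, 2 ≤ z → z ≤ (T : ℝ) ^ c →
    ∑ n ∈ Icc 1 N, (∑ p ∈ goodP k q a z, (rho (Ft k a (tt f q a n)) p : ℝ) / p -
      ∑ p ∈ goodP k q a z, (1 : ℝ) / p) ^ 2 ≤ C * N := by
  classical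
  obtain ⟨c0, T0, hc0, hdiv⟩ := div_equi k hk
  obtain ⟨Cc, hCc, hcond⟩ := cond k hk
  set c : ℝ := min (c0 / 2) (1 / 4) with hc
  have hcpos : 0 < c := lt_min (by linarith) (by norm_num)
  have hc1 : 2 * c ≤ c0 := by
    have := min_le_left (c0 / 2) (1 / 4 : ℝ)
    linarith
  have hc2 : 4 * c ≤ 1 := by
    have := min_le_right (c0 / 2) (1 / 4 : ℝ)
    linarith
  refine ⟨c, 2 * (k : ℝ) ^ 2 + 12 * (Cc + 1), T0, hcpos, by positivity, ?_⟩
  intro f hf
  refine ⟨⌈2 * (1 + |f.coeff 0| + k) + 1⌉₊, ?_⟩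
  intro N T q a hN hM hNA hT0 hT1 hTN hak z hz1 hz2
  have hTR : 2 * (1 + |f.coeff 0| + k) + 1 ≤ (T : ℝ) :=
    (Nat.le_ceil _).trans (by exact_mod_cast hT1)
  have hT1' : (1 : ℝ) ≤ T := by
    have : 0 ≤ |f.coeff 0| := abs_nonneg _
    have : (0 : ℝ) ≤ k := Nat.cast_nonneg k
    linarith
  have hTpos : (0 : ℝ) < T := by linarith
  have hN0 : (0 : ℝ) ≤ N := Nat.cast_nonneg N
  set P := goodP k q a z with hP
  have hPmem : ∀ p ∈ P, p.Prime ∧ ¬ p ∣ q ∧ ¬ ((p : ℤ) ∣ a k) ∧ (p : ℝ) ≤ z := by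
    intro p hp
    rw [hP, goodP, Finset.mem_filter, prLe, Finset.mem_filter, Finset.mem_range] at hp
    obtain ⟨⟨h1, h2⟩, h3⟩ := hp
    refine ⟨h2, fun h => h3 ?_, fun h => h3 (Dvd.dvd.mul_left h _), ?_⟩
    · exact Dvd.dvd.mul_right (by exact_mod_cast h) _
    · exact (Nat.le_floor_iff (by linarith)).1 (by omega)
  have hz0 : 0 ≤ z := by linarith
  set E : ℝ := Cc * (T : ℝ) ^ 3 * (T : ℝ) ^ (2 * c) + N * (T : ℝ) ^ (-c0) with hE
  have hE0 : 0 ≤ E := by positivity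
  have hzz : z * z ≤ (T : ℝ) ^ (2 * c) := by
    rw [two_mul, Real.rpow_add hTpos]
    exact mul_le_mul hz2 hz2 hz0 (by positivity)
  have hz2c : z ≤ (T : ℝ) ^ (2 * c) := by
    refine le_trans ?_ hzz
    nlinarith
  have hcc : (T : ℝ) ^ (2 * c) ≤ (T : ℝ) ^ c0 := Real.rpow_le_rpow_of_exponent_le hT1' hc1
  -- moments
  have hmom : ∀ S : Finset ℕ, (∀ p ∈ S, p ∈ P) → (∏ p ∈ S, (p : ℝ)) ≤ (T : ℝ) ^ (2 * c) →
      |∑ n ∈ Icc 1 N, ∏ p ∈ S, (rho (Ft k a (tt f q a n)) p : ℝ) / p -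
        N / ∏ p ∈ S, (p : ℝ)| ≤ E := by
    intro S hS hd
    have h1 := mu_moment k f hf Cc c0 N T q a hM (fun S hS t => hcond f hf N T q a hM S hS t)
      (fun d h1 h2 => hdiv f hf N T hN hT0 hNA d h1 h2) hCc hTR S
      (fun p hp => ⟨(hPmem p (hS p hp)).1, (hPmem p (hS p hp)).2.1⟩)
      (by push_cast; exact hd.trans hcc)
    refine h1.trans ?_
    rw [hE]
    have h2 : Cc * (T : ℝ) ^ 3 * ∏ p ∈ S, (p : ℝ) ≤ Cc * (T : ℝ) ^ 3 * (T : ℝ) ^ (2 * c) :=
      mul_le_mul_of_nonneg_left hd (by positivity)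
    linarith
  -- first moments
  have hm1 : ∀ p ∈ P, |∑ n ∈ Icc 1 N, (rho (Ft k a (tt f q a n)) p : ℝ) / p - N / p| ≤ E := by
    intro p hp
    have h1 := hmom {p} (fun r hr => by rw [Finset.mem_singleton.1 hr]; exact hp)
      (by rw [Finset.prod_singleton]; exact (hPmem p hp).2.2.2.trans hz2c)
    simpa using h1
  have hm2 : ∀ p ∈ P, ∀ r ∈ P, p ≠ r →
      |∑ n ∈ Icc 1 N, ((rho (Ft k a (tt f q a n)) p : ℝ) / p) *
        ((rho (Ft k a (tt f q a n)) r : ℝ) / r) - N / (p * r)| ≤ E := by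
    intro p hp r hr hne
    have h1 := hmom {p, r} (fun s hs => by
        rcases Finset.mem_insert.1 hs with rfl | hs
        · exact hp
        · rw [Finset.mem_singleton.1 hs]; exact hr)
      (by
        rw [Finset.prod_pair hne]
        exact (mul_le_mul (hPmem p hp).2.2.2 (hPmem r hr).2.2.2 (Nat.cast_nonneg r) hz0).trans
          hzz)
    rw [Finset.prod_pair hne] at h1
    have h2 : ∀ n, ∏ s ∈ ({p, r} : Finset ℕ), (rho (Ft k a (tt f q a n)) s : ℝ) / s =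
        ((rho (Ft k a (tt f q a n)) p : ℝ) / p) * ((rho (Ft k a (tt f q a n)) r : ℝ) / r) :=
      fun n => Finset.prod_pair hne
    simp only [h2] at h1
    exact h1
  -- the pair sums
  have hpair : ∀ p ∈ P, ∀ r ∈ P,
      ∑ n ∈ Icc 1 N, ((rho (Ft k a (tt f q a n)) p : ℝ) / p - 1 / p) *
        ((rho (Ft k a (tt f q a n)) r : ℝ) / r - 1 / r) ≤
      (if p = r then N * (k : ℝ) ^ 2 * (1 / (p : ℝ) ^ 2) else 0) + 3 * E := by
    intro p hp r hr
    have hp1 : (1 : ℝ) ≤ p := by exact_mod_cast (hPmem p hp).1.one_lt.le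
    have hr1 : (1 : ℝ) ≤ r := by exact_mod_cast (hPmem r hr).1.one_lt.le
    by_cases hpr : p = r
    · subst hpr
      rw [if_pos rfl]
      have h1 : ∀ n ∈ Icc 1 N, ((rho (Ft k a (tt f q a n)) p : ℝ) / p - 1 / p) *
          ((rho (Ft k a (tt f q a n)) p : ℝ) / p - 1 / p) ≤ (k : ℝ) ^ 2 * (1 / (p : ℝ) ^ 2) := by
        intro n _
        have h2 : rho (Ft k a (tt f q a n)) p ≤ k :=
          mu_rho_le _ p (hPmem p hp).1 k (mu_Ft_deg k a _)
            (by rw [mu_Ft_coeff k hk]; exact (hPmem p hp).2.2.1)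
        have h3 : (rho (Ft k a (tt f q a n)) p : ℝ) ≤ k := by exact_mod_cast h2
        have h4 : (0 : ℝ) ≤ rho (Ft k a (tt f q a n)) p := Nat.cast_nonneg _
        have h5 : (1 : ℝ) ≤ k := by exact_mod_cast hk
        have h6 : ((rho (Ft k a (tt f q a n)) p : ℝ) - 1) ^ 2 ≤ (k : ℝ) ^ 2 := by
          rw [sq_le_sq, abs_of_nonneg (by linarith : (0 : ℝ) ≤ k), abs_le]
          constructor <;> linarith
        have h7 : ((rho (Ft k a (tt f q a n)) p : ℝ) / p - 1 / p) *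
            ((rho (Ft k a (tt f q a n)) p : ℝ) / p - 1 / p) =
            ((rho (Ft k a (tt f q a n)) p : ℝ) - 1) ^ 2 * (1 / (p : ℝ) ^ 2) := by
          field_simp
        rw [h7]
        exact mul_le_mul_of_nonneg_right h6 (by positivity)
      have h2 := Finset.sum_le_sum h1
      rw [Finset.sum_const, nsmul_eq_mul, Nat.card_Icc, Nat.add_sub_cancel] at h2
      linarith
    · rw [if_neg hpr, zero_add]
      have e1 := hm1 p hp
      have e2 := hm1 r hr
      have e3 := hm2 p hp r hr hpr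
      set A1 := ∑ n ∈ Icc 1 N, (rho (Ft k a (tt f q a n)) p : ℝ) / p
      set A2 := ∑ n ∈ Icc 1 N, (rho (Ft k a (tt f q a n)) r : ℝ) / r
      set A3 := ∑ n ∈ Icc 1 N, ((rho (Ft k a (tt f q a n)) p : ℝ) / p) *
        ((rho (Ft k a (tt f q a n)) r : ℝ) / r)
      have h1 : ∑ n ∈ Icc 1 N, ((rho (Ft k a (tt f q a n)) p : ℝ) / p - 1 / p) *
          ((rho (Ft k a (tt f q a n)) r : ℝ) / r - 1 / r) =
          A3 - (1 / r) * A1 - (1 / p) * A2 + N * ((1 / p) * (1 / r)) := by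
        have h2 : ∀ n ∈ Icc 1 N, ((rho (Ft k a (tt f q a n)) p : ℝ) / p - 1 / p) *
            ((rho (Ft k a (tt f q a n)) r : ℝ) / r - 1 / r) =
            ((rho (Ft k a (tt f q a n)) p : ℝ) / p) * ((rho (Ft k a (tt f q a n)) r : ℝ) / r)
              - (1 / r) * ((rho (Ft k a (tt f q a n)) p : ℝ) / p)
              - (1 / p) * ((rho (Ft k a (tt f q a n)) r : ℝ) / r) + (1 / p) * (1 / r) :=
          fun n _ => by ring
        rw [Finset.sum_congr rfl h2, Finset.sum_add_distrib, Finset.sum_sub_distrib,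
          Finset.sum_sub_distrib, ← Finset.mul_sum, ← Finset.mul_sum, Finset.sum_const,
          nsmul_eq_mul, Nat.card_Icc, Nat.add_sub_cancel]
      have h3 : A3 - (1 / r) * A1 - (1 / p) * A2 + N * ((1 / p) * (1 / r)) =
          (A3 - N / (p * r)) - (1 / r) * (A1 - N / p) - (1 / p) * (A2 - N / r) := by
        have hp' : (p : ℝ) ≠ 0 := by linarith
        have hr' : (r : ℝ) ≠ 0 := by linarith
        field_simp
        ring
      rw [h1, h3]
      have i1 : -((1 / r : ℝ) * (A1 - N / p)) ≤ E := by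
        have j1 : (1 / r : ℝ) ≤ 1 := by rw [div_le_one (by linarith)]; exact hr1
        have j0 : (0 : ℝ) ≤ 1 / r := by positivity
        have j2 := (abs_le.1 e1).1
        calc -((1 / r : ℝ) * (A1 - N / p)) = (1 / r) * (-(A1 - N / p)) := by ring
          _ ≤ (1 / r) * E := mul_le_mul_of_nonneg_left (by linarith) j0
          _ ≤ 1 * E := mul_le_mul_of_nonneg_right j1 hE0
          _ = E := one_mul E
      have i2 : -((1 / p : ℝ) * (A2 - N / r)) ≤ E := by
        have j1 : (1 / p : ℝ) ≤ 1 := by rw [div_le_one (by linarith)]; exact hp1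
        have j0 : (0 : ℝ) ≤ 1 / p := by positivity
        have j2 := (abs_le.1 e2).1
        calc -((1 / p : ℝ) * (A2 - N / r)) = (1 / p) * (-(A2 - N / r)) := by ring
          _ ≤ (1 / p) * E := mul_le_mul_of_nonneg_left (by linarith) j0
          _ ≤ 1 * E := mul_le_mul_of_nonneg_right j1 hE0
          _ = E := one_mul E
      have i3 := (abs_le.1 e3).2
      linarith
  -- expand the square
  have hexp : ∑ n ∈ Icc 1 N, (∑ p ∈ P, (rho (Ft k a (tt f q a n)) p : ℝ) / p -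
      ∑ p ∈ P, (1 : ℝ) / p) ^ 2 =
      ∑ p ∈ P, ∑ r ∈ P, ∑ n ∈ Icc 1 N, ((rho (Ft k a (tt f q a n)) p : ℝ) / p - 1 / p) *
        ((rho (Ft k a (tt f q a n)) r : ℝ) / r - 1 / r) := by
    have h1 : ∀ n ∈ Icc 1 N, (∑ p ∈ P, (rho (Ft k a (tt f q a n)) p : ℝ) / p -
        ∑ p ∈ P, (1 : ℝ) / p) ^ 2 = ∑ p ∈ P, ∑ r ∈ P,
        ((rho (Ft k a (tt f q a n)) p : ℝ) / p - 1 / p) *
        ((rho (Ft k a (tt f q a n)) r : ℝ) / r - 1 / r) := by
      intro n _
      rw [← Finset.sum_sub_distrib, sq, Finset.sum_mul_sum]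
    rw [Finset.sum_congr rfl h1, Finset.sum_comm]
    exact Finset.sum_congr rfl fun p _ => Finset.sum_comm
  rw [hexp]
  refine (Finset.sum_le_sum fun p hp => Finset.sum_le_sum fun r hr => hpair p hp r hr).trans ?_
  have hsplit : ∑ p ∈ P, ∑ r ∈ P,
      ((if p = r then N * (k : ℝ) ^ 2 * (1 / (p : ℝ) ^ 2) else 0) + 3 * E) =
      N * (k : ℝ) ^ 2 * ∑ p ∈ P, 1 / (p : ℝ) ^ 2 + (P.card : ℝ) ^ 2 * (3 * E) := by
    have h1 : ∀ p ∈ P, ∑ r ∈ P,
        ((if p = r then N * (k : ℝ) ^ 2 * (1 / (p : ℝ) ^ 2) else 0) + 3 * E) =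
        N * (k : ℝ) ^ 2 * (1 / (p : ℝ) ^ 2) + P.card * (3 * E) := by
      intro p hp
      rw [Finset.sum_add_distrib, Finset.sum_ite_eq, if_pos hp, Finset.sum_const, nsmul_eq_mul]
    rw [Finset.sum_congr rfl h1, Finset.sum_add_distrib, ← Finset.mul_sum, Finset.sum_const,
      nsmul_eq_mul]
    ring
  rw [hsplit]
  -- squares
  have hsq : ∑ p ∈ P, 1 / (p : ℝ) ^ 2 ≤ 2 := by
    have h1 : P ⊆ Ioo 0 (⌊z⌋₊ + 1) := by
      intro p hp
      have h2 := (hPmem p hp).1.pos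
      have h3 : p ≤ ⌊z⌋₊ := Nat.le_floor (hPmem p hp).2.2.2
      exact Finset.mem_Ioo.2 ⟨h2, by omega⟩
    have h2 := sum_Ioo_inv_sq_le (α := ℝ) 0 (⌊z⌋₊ + 1)
    calc ∑ p ∈ P, 1 / (p : ℝ) ^ 2 ≤ ∑ p ∈ Ioo 0 (⌊z⌋₊ + 1), 1 / (p : ℝ) ^ 2 :=
          Finset.sum_le_sum_of_subset_of_nonneg h1 fun p _ _ => by positivity
      _ = ∑ p ∈ Ioo 0 (⌊z⌋₊ + 1), ((p : ℝ) ^ 2)⁻¹ :=
          Finset.sum_congr rfl fun p _ => one_div _
      _ ≤ _ := h2
      _ = 2 := by norm_num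
  -- number of primes
  have hPc : (P.card : ℝ) ≤ 2 * z := by
    have h1 : P.card ≤ ⌊z⌋₊ + 1 := by
      have : P ⊆ range (⌊z⌋₊ + 1) := by
        intro p hp
        rw [hP, goodP, Finset.mem_filter, prLe, Finset.mem_filter] at hp
        exact hp.1.1
      have h2 := Finset.card_le_card this
      rwa [Finset.card_range] at h2
    have h3 : (P.card : ℝ) ≤ (⌊z⌋₊ : ℝ) + 1 := by exact_mod_cast h1
    linarith [Nat.floor_le hz0]
  have hPc2 : (P.card : ℝ) ^ 2 ≤ 4 * (T : ℝ) ^ (2 * c) := by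
    have h1 : (P.card : ℝ) ^ 2 ≤ (2 * z) ^ 2 := pow_le_pow_left₀ (Nat.cast_nonneg _) hPc 2
    calc (P.card : ℝ) ^ 2 ≤ (2 * z) ^ 2 := h1
      _ = 4 * (z * z) := by ring
      _ ≤ _ := mul_le_mul_of_nonneg_left hzz (by norm_num)
  have hTN' : (T : ℝ) ^ 4 ≤ N := by exact_mod_cast hTN
  have hEE : (T : ℝ) ^ (2 * c) * E ≤ (Cc + 1) * N := by
    rw [hE]
    have h1 : (T : ℝ) ^ (2 * c) * (Cc * (T : ℝ) ^ 3 * (T : ℝ) ^ (2 * c)) ≤ Cc * N := by
      have h2 : (T : ℝ) ^ (2 * c) * (T : ℝ) ^ (2 * c) ≤ T := by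
        rw [← Real.rpow_add hTpos]
        calc (T : ℝ) ^ (2 * c + 2 * c) ≤ (T : ℝ) ^ (1 : ℝ) :=
              Real.rpow_le_rpow_of_exponent_le hT1' (by linarith)
          _ = T := Real.rpow_one _
      calc (T : ℝ) ^ (2 * c) * (Cc * (T : ℝ) ^ 3 * (T : ℝ) ^ (2 * c)) =
          Cc * ((T : ℝ) ^ 3 * ((T : ℝ) ^ (2 * c) * (T : ℝ) ^ (2 * c))) := by ring
        _ ≤ Cc * ((T : ℝ) ^ 3 * T) :=
            mul_le_mul_of_nonneg_left (mul_le_mul_of_nonneg_left h2 (by positivity)) hCc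
        _ = Cc * (T : ℝ) ^ 4 := by ring
        _ ≤ Cc * N := mul_le_mul_of_nonneg_left hTN' hCc
    have h3 : (T : ℝ) ^ (2 * c) * (N * (T : ℝ) ^ (-c0)) ≤ N := by
      have h4 : (T : ℝ) ^ (2 * c) * (T : ℝ) ^ (-c0) ≤ 1 := by
        rw [← Real.rpow_add hTpos]
        exact Real.rpow_le_one_of_one_le_of_nonpos hT1' (by linarith)
      calc (T : ℝ) ^ (2 * c) * (N * (T : ℝ) ^ (-c0)) =
          N * ((T : ℝ) ^ (2 * c) * (T : ℝ) ^ (-c0)) := by ring
        _ ≤ N * 1 := mul_le_mul_of_nonneg_left h4 hN0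
        _ = N := mul_one _
    calc (T : ℝ) ^ (2 * c) * (Cc * (T : ℝ) ^ 3 * (T : ℝ) ^ (2 * c) + N * (T : ℝ) ^ (-c0)) =
        (T : ℝ) ^ (2 * c) * (Cc * (T : ℝ) ^ 3 * (T : ℝ) ^ (2 * c)) +
          (T : ℝ) ^ (2 * c) * (N * (T : ℝ) ^ (-c0)) := by ring
      _ ≤ Cc * N + N := add_le_add h1 h3
      _ = (Cc + 1) * N := by ring
  have f1 : N * (k : ℝ) ^ 2 * ∑ p ∈ P, 1 / (p : ℝ) ^ 2 ≤ N * (k : ℝ) ^ 2 * 2 :=
    mul_le_mul_of_nonneg_left hsq (by positivity)
  have f2 : (P.card : ℝ) ^ 2 * (3 * E) ≤ 12 * ((Cc + 1) * N) := by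
    calc (P.card : ℝ) ^ 2 * (3 * E) ≤ (4 * (T : ℝ) ^ (2 * c)) * (3 * E) :=
          mul_le_mul_of_nonneg_right hPc2 (by positivity)
      _ = 12 * ((T : ℝ) ^ (2 * c) * E) := by ring
      _ ≤ _ := mul_le_mul_of_nonneg_left hEE (by norm_num)
  calc _ ≤ N * (k : ℝ) ^ 2 * 2 + 12 * ((Cc + 1) * N) := add_le_add f1 f2
    _ = _ := by ring

end EK75

end S_H75_EK_Mu

section S_H75_EK_Min

/-! Module MIN: minor arc case. -/

open Polynomial Finset
open scoped Real BigOperators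

namespace EK75

/-- `loglog N` -/
noncomputable def L2 (N : ℕ) : ℝ := Real.log (Real.log N)

/-- the truncation `y = N^{(loglog N)^{-1/4}}` -/
noncomputable def yN (N : ℕ) : ℝ := (N : ℝ) ^ ((L2 N) ^ (-(1 : ℝ) / 4))

/-- the threshold `N^{(loglog N)^{-1/8}}` between minor and major arcs -/
noncomputable def thr (N : ℕ) : ℝ := (N : ℝ) ^ ((L2 N) ^ (-(1 : ℝ) / 8))

/-- the number of primes `p ≤ y_N` dividing `⌊f(n)⌋` -/
noncomputable def omY (f : ℝ[X]) (N n : ℕ) : ℕ :=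
  ((prLe (yN N)).filter (fun p : ℕ => (p : ℤ) ∣ ⌊f.eval (n : ℝ)⌋)).card

theorem min_L2_tendsto : Filter.Tendsto L2 Filter.atTop Filter.atTop :=
  Real.tendsto_log_atTop.comp (Real.tendsto_log_atTop.comp tendsto_natCast_atTop_atTop)

theorem min_mem {y : ℝ} {p : ℕ} (hy : 0 ≤ y) (hp : p ∈ prLe y) : p.Prime ∧ (p : ℝ) ≤ y := by
  unfold prLe at hp
  rw [Finset.mem_filter, Finset.mem_range, Nat.lt_succ_iff] at hp
  exact ⟨hp.2, (Nat.le_floor_iff hy).1 hp.1⟩

/-- `∑ 1/p² ≤ 2` -/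
theorem min_sq (y : ℝ) : ∑ p ∈ prLe y, ((1 : ℝ) / p) ^ 2 ≤ 2 := by
  have h1 := sum_Ioo_inv_sq_le (α := ℝ) 0 (⌊y⌋₊ + 1)
  have h2 : ∑ p ∈ prLe y, ((1 : ℝ) / p) ^ 2 ≤ ∑ i ∈ Finset.Ioo 0 (⌊y⌋₊ + 1), ((i : ℝ) ^ 2)⁻¹ := by
    have h3 : prLe y ⊆ Finset.Ioo 0 (⌊y⌋₊ + 1) := by
      intro p hp
      unfold prLe at hp
      rw [Finset.mem_filter, Finset.mem_range] at hp
      rw [Finset.mem_Ioo]
      exact ⟨hp.2.pos, hp.1⟩
    calc ∑ p ∈ prLe y, ((1 : ℝ) / p) ^ 2 = ∑ i ∈ prLe y, ((i : ℝ) ^ 2)⁻¹ := by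
          apply Finset.sum_congr rfl
          intro i _
          rw [one_div, inv_pow]
      _ ≤ _ := Finset.sum_le_sum_of_subset_of_nonneg h3 fun _ _ _ => by positivity
  refine h2.trans (h1.trans ?_)
  norm_num

theorem min_filter_congr {α : Type*} (s : Finset α) (P Q : α → Prop) (D1 : DecidablePred P)
    (D2 : DecidablePred Q) (h : ∀ a ∈ s, P a ↔ Q a) :
    @Finset.filter α P D1 s = @Finset.filter α Q D2 s := by
  ext a
  constructor
  · intro ha
    have ha' := (@Finset.mem_filter _ _ D1 _ _).1 ha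
    exact (@Finset.mem_filter _ _ D2 _ _).2 ⟨ha'.1, (h a ha'.1).1 ha'.2⟩
  · intro ha
    have ha' := (@Finset.mem_filter _ _ D2 _ _).1 ha
    exact (@Finset.mem_filter _ _ D1 _ _).2 ⟨ha'.1, (h a ha'.1).2 ha'.2⟩

theorem min_card {y : ℝ} (hy : 2 ≤ y) : ((prLe y).card : ℝ) + 1 ≤ 2 * y := by
  have h1 : (prLe y).card ≤ ⌊y⌋₊ := by
    have h2 : prLe y ⊆ Finset.Ioc 0 ⌊y⌋₊ := by
      intro p hp
      have h3 := min_mem (by linarith) hp
      rw [Finset.mem_Ioc]
      exact ⟨h3.1.pos, (Nat.le_floor_iff (by linarith)).2 h3.2⟩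
    simpa using Finset.card_le_card h2
  have h3 : ((prLe y).card : ℝ) ≤ y := le_trans (by exact_mod_cast h1) (Nat.floor_le (by linarith))
  linarith

/-- real variable version of the quantities -/
theorem min_asym (c c0 s0 C0 C ε T0 : ℝ) (m : ℕ) (hc : 0 < c) (hc0 : 0 < c0) (hC0 : 0 < C0)
    (hε : 0 < ε) : ∀ᶠ x : ℝ in Filter.atTop, 1 ≤ x ∧ s0 ≤ Real.sqrt x ∧
      (1 / 4) * Real.log x + C ≤ c0 * Real.sqrt x ∧
      m * x ^ (-(1 : ℝ) / 4) ≤ c * x ^ (-(1 : ℝ) / 8) ∧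
      2 ≤ Real.exp (Real.exp x * x ^ (-(1 : ℝ) / 4)) ∧
      T0 ≤ Real.exp (Real.exp x * x ^ (-(1 : ℝ) / 8)) ∧
      C0 * (2 * Real.exp (Real.exp x * x ^ (-(1 : ℝ) / 4))) ^ m *
        Real.exp (-(c * (Real.exp x * x ^ (-(1 : ℝ) / 8)))) ≤ ε := by
  have hr : Filter.Tendsto (fun x : ℝ => x ^ (-(1 : ℝ) / 8)) Filter.atTop (nhds 0) := by
    have := tendsto_rpow_neg_atTop (y := 1 / 8) (by norm_num)
    simpa [neg_div] using this
  have hq : Filter.Tendsto (fun x : ℝ => Real.exp x * x ^ (-(1 : ℝ) / 4)) Filter.atTop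
      Filter.atTop := by
    have := tendsto_exp_mul_div_rpow_atTop (1 / 4) 1 one_pos
    refine Filter.Tendsto.congr' ?_ this
    filter_upwards [Filter.eventually_gt_atTop 0] with x hx
    rw [one_mul, neg_div, Real.rpow_neg hx.le, div_eq_mul_inv]
  have hu : Filter.Tendsto (fun x : ℝ => Real.exp x * x ^ (-(1 : ℝ) / 8)) Filter.atTop
      Filter.atTop := by
    have := tendsto_exp_mul_div_rpow_atTop (1 / 8) 1 one_pos
    refine Filter.Tendsto.congr' ?_ this
    filter_upwards [Filter.eventually_gt_atTop 0] with x hx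
    rw [one_mul, neg_div, Real.rpow_neg hx.le, div_eq_mul_inv]
  have hs : Filter.Tendsto Real.sqrt Filter.atTop Filter.atTop := Real.tendsto_sqrt_atTop
  have hl : ∀ᶠ x : ℝ in Filter.atTop, Real.log x ≤ c0 * Real.sqrt x := by
    have h1 := (isLittleO_log_rpow_atTop (r := 1 / 2) (by norm_num)).bound hc0
    filter_upwards [h1, Filter.eventually_gt_atTop 1] with x hx hx1
    rw [Real.norm_eq_abs, Real.norm_eq_abs, ← Real.sqrt_eq_rpow,
      abs_of_nonneg (Real.sqrt_nonneg x)] at hx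
    exact (le_abs_self _).trans hx
  have hCs : ∀ᶠ x : ℝ in Filter.atTop, 4 / 3 * C ≤ c0 * Real.sqrt x :=
    (hs.const_mul_atTop hc0).eventually_ge_atTop _
  have hm : ∀ᶠ x : ℝ in Filter.atTop, m * x ^ (-(1 : ℝ) / 8) ≤ c / 2 := by
    have := (hr.const_mul (m : ℝ)).eventually_le_const (show (m : ℝ) * 0 < c / 2 by
      rw [mul_zero]; positivity)
    exact this
  have hfin : ∀ᶠ x : ℝ in Filter.atTop, Real.log (C0 * 2 ^ m / ε) ≤
      (c / 2) * (Real.exp x * x ^ (-(1 : ℝ) / 8)) :=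
    (hu.const_mul_atTop (by positivity)).eventually_ge_atTop _
  filter_upwards [Filter.eventually_ge_atTop 1, hs.eventually_ge_atTop s0, hl, hCs, hm,
    hq.eventually_ge_atTop (Real.log 2), hu.eventually_ge_atTop (Real.log (max T0 1)), hfin]
    with x h0' h1 h2 h3 h4 h5 h6 h7
  have h0 : 0 < x := by linarith
  have hsq : x ^ (-(1 : ℝ) / 4) = x ^ (-(1 : ℝ) / 8) * x ^ (-(1 : ℝ) / 8) := by
    rw [← Real.rpow_add h0]; norm_num
  have hrp : 0 < x ^ (-(1 : ℝ) / 8) := Real.rpow_pos_of_pos h0 _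
  refine ⟨h0', h1, by linarith, ?_, ?_, ?_, ?_⟩
  · rw [hsq, ← mul_assoc]
    refine (mul_le_mul_of_nonneg_right h4 hrp.le).trans ?_
    nlinarith
  · rw [← Real.log_le_iff_le_exp (by norm_num)]
    exact h5
  · refine (le_max_left T0 1).trans ?_
    rw [← Real.log_le_iff_le_exp (by positivity)]
    exact h6
  · set u := Real.exp x with hu'
    set r := x ^ (-(1 : ℝ) / 8) with hr'
    have hu0 : 0 < u := Real.exp_pos x
    rw [hsq, mul_pow, ← Real.exp_nat_mul]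
    have h8 : (m : ℝ) * (u * (r * r)) ≤ (c / 2) * (u * r) := by
      have := mul_le_mul_of_nonneg_right h4 (mul_pos hu0 hrp).le
      nlinarith
    have h9 : C0 * 2 ^ m ≤ ε * Real.exp ((c / 2) * (u * r)) := by
      have h10 : C0 * 2 ^ m / ε ≤ Real.exp ((c / 2) * (u * r)) := by
        rw [← Real.log_le_iff_le_exp (by positivity)]
        exact h7
      rw [div_le_iff₀ hε] at h10
      linarith
    calc C0 * (2 ^ m * Real.exp ((m : ℝ) * (u * (r * r)))) * Real.exp (-(c * (u * r)))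
        = (C0 * 2 ^ m) * (Real.exp ((m : ℝ) * (u * (r * r))) * Real.exp (-(c * (u * r)))) := by
          ring
      _ ≤ (ε * Real.exp ((c / 2) * (u * r))) *
          (Real.exp ((c / 2) * (u * r)) * Real.exp (-(c * (u * r)))) := by
          gcongr
      _ = ε := by
          rw [mul_assoc, ← Real.exp_add, ← Real.exp_add]
          have : c / 2 * (u * r) + (c / 2 * (u * r) + -(c * (u * r))) = 0 := by ring
          rw [this, Real.exp_zero, mul_one]

theorem minor (f : ℝ[X]) (hk : 1 ≤ f.natDegree) (ξ ε : ℝ) (hε : 0 < ε) : ∃ N0 : ℕ, ∀ N T : ℕ,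
    N0 ≤ N → NonApp f N T → thr N ≤ T →
    ‖(∑ n ∈ Icc 1 N, Complex.exp (Complex.I * ξ *
        (((omY f N n : ℝ) - L2 N) / Real.sqrt (L2 N) : ℝ))) / (N : ℂ) -
      Complex.exp (-(ξ : ℂ) ^ 2 / 2)‖ ≤ ε := by
  obtain ⟨m, c0, s0, C0, hc0, hs0, hC0, hclt⟩ := clt_core 2 ξ (ε / 2) (by positivity)
  obtain ⟨c, T0, hc, hdiv⟩ := div_equi f.natDegree hk
  obtain ⟨C, hC⟩ := mert5
  have hev := min_L2_tendsto.eventually (min_asym c c0 s0 C0 C (ε / 2) T0 m hc hc0 hC0
    (by positivity))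
  have hlog : ∀ᶠ N : ℕ in Filter.atTop, 0 < Real.log N :=
    (Real.tendsto_log_atTop.comp tendsto_natCast_atTop_atTop).eventually_gt_atTop 0
  obtain ⟨N0, hN0⟩ := Filter.eventually_atTop.1 ((hev.and hlog).and (Filter.eventually_ge_atTop 1))
  refine ⟨N0, fun N T hN happ hT => ?_⟩
  obtain ⟨⟨⟨h0', h1, h2, h3, h4, h5, h6⟩, hlogN⟩, hN1⟩ := hN0 N hN
  set x := L2 N with hx
  have h0 : 0 < x := by linarith
  have hexp : Real.exp x = Real.log N := by rw [hx, L2, Real.exp_log hlogN]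
  have hNpos : (0 : ℝ) < N := by exact_mod_cast hN1
  have hy : yN N = Real.exp (Real.exp x * x ^ (-(1 : ℝ) / 4)) := by
    rw [yN, Real.rpow_def_of_pos hNpos, hexp]
  have hth : thr N = Real.exp (Real.exp x * x ^ (-(1 : ℝ) / 8)) := by
    rw [thr, Real.rpow_def_of_pos hNpos, hexp]
  rw [← hy] at h4 h6
  rw [← hth] at h5
  have hTpos : (0 : ℝ) < T := by
    refine lt_of_lt_of_le ?_ hT
    rw [hth]; exact Real.exp_pos _
  have hyTc : (yN N) ^ m ≤ (T : ℝ) ^ c := by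
    have e1 : (yN N) ^ m = Real.exp (Real.exp x * (m * x ^ (-(1 : ℝ) / 4))) := by
      rw [hy, ← Real.exp_nat_mul]; ring_nf
    have e2 : (thr N) ^ c = Real.exp (Real.exp x * (c * x ^ (-(1 : ℝ) / 8))) := by
      rw [hth, ← Real.exp_mul]; ring_nf
    calc (yN N) ^ m ≤ (thr N) ^ c := by
          rw [e1, e2]
          gcongr
      _ ≤ (T : ℝ) ^ c := Real.rpow_le_rpow (by rw [hth]; positivity) hT hc.le
  have hTc : (T : ℝ) ^ (-c) ≤ Real.exp (-(c * (Real.exp x * x ^ (-(1 : ℝ) / 8)))) := by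
    have e2 : (thr N) ^ c = Real.exp (c * (Real.exp x * x ^ (-(1 : ℝ) / 8))) := by
      rw [hth, ← Real.exp_mul]; ring_nf
    rw [Real.rpow_neg hTpos.le, Real.exp_neg, ← e2]
    apply inv_anti₀
    · rw [e2]; exact Real.exp_pos _
    · exact Real.rpow_le_rpow (by rw [hth]; positivity) hT hc.le
  have hsq : Real.sqrt x ^ 2 = x := Real.sq_sqrt h0.le
  -- Mertens
  have hmert : |∑ p ∈ prLe (yN N), (1 : ℝ) / p - Real.sqrt x ^ 2| ≤ c0 * Real.sqrt x := by
    have e1 := hC (yN N) h4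
    have e2 : Real.log (Real.log (yN N)) = x - (1 / 4) * Real.log x := by
      rw [hy, Real.log_exp, Real.log_mul (Real.exp_pos _).ne' (Real.rpow_pos_of_pos h0 _).ne',
        Real.log_exp, Real.log_rpow h0]
      ring
    rw [e2] at e1
    rw [hsq]
    have hlx : 0 ≤ Real.log x := Real.log_nonneg h0'
    rw [abs_le] at e1 ⊢
    constructor <;> linarith [e1.1, e1.2]
  have hT0 : T0 ≤ T := by exact_mod_cast h5.trans hT
  have hmain := hclt ℕ ℕ (prLe (yN N)) (Icc 1 N) (fun p => 1 / (p : ℝ)) (fun _ => 1 / (N : ℝ))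
    (fun p n => (p : ℤ) ∣ ⌊f.eval (n : ℝ)⌋) (Real.sqrt x) ((T : ℝ) ^ (-c))
    (fun p _ => by positivity) (fun p hp => by
      have := (min_mem (by linarith) hp).1.one_lt.le
      rw [div_le_one (by exact_mod_cast (by omega : 0 < p))]
      exact_mod_cast this) (min_sq _) h1 hmert (fun _ _ => by positivity) (by positivity) ?_
  · have hW : ∑ _n ∈ Icc 1 N, 1 / (N : ℝ) = 1 := by
      rw [Finset.sum_const, Nat.card_Icc, nsmul_eq_mul, Nat.add_sub_cancel]
      field_simp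
    rw [hW, mul_one, Complex.ofReal_one, one_mul, hsq] at hmain
    have e1 : ∑ n ∈ Icc 1 N, ((1 / (N : ℝ) : ℝ) : ℂ) * Complex.exp (Complex.I * ξ *
        (((((prLe (yN N)).filter (fun p : ℕ => (p : ℤ) ∣ ⌊f.eval (n : ℝ)⌋)).card : ℝ) - x) /
          Real.sqrt x : ℝ)) = (∑ n ∈ Icc 1 N, Complex.exp (Complex.I * ξ *
        (((omY f N n : ℝ) - x) / Real.sqrt x : ℝ))) / (N : ℂ) := by
      rw [Finset.sum_div]
      apply Finset.sum_congr rfl
      intro n _
      rw [omY]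
      push_cast
      ring
    have e2 : ‖(∑ n ∈ Icc 1 N, Complex.exp (Complex.I * ξ *
        (((omY f N n : ℝ) - x) / Real.sqrt x : ℝ))) / (N : ℂ) -
          Complex.exp (-(ξ : ℂ) ^ 2 / 2)‖ ≤
        ε / 2 + C0 * (((prLe (yN N)).card : ℝ) + 1) ^ m * (T : ℝ) ^ (-c) := by
      rw [← e1]
      refine le_trans (le_of_eq ?_) hmain
      congr 2
      apply Finset.sum_congr rfl
      intro n _
      have e3 : ∀ (D1 D2 : DecidablePred (fun p : ℕ => (p : ℤ) ∣ ⌊f.eval (n : ℝ)⌋)),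
          (@Finset.filter ℕ (fun p : ℕ => (p : ℤ) ∣ ⌊f.eval (n : ℝ)⌋) D1 (prLe (yN N))).card =
          (@Finset.filter ℕ (fun p : ℕ => (p : ℤ) ∣ ⌊f.eval (n : ℝ)⌋) D2 (prLe (yN N))).card := by
        intro D1 D2
        apply congrArg
        ext p
        exact (@Finset.mem_filter _ _ D1 _ _).trans (@Finset.mem_filter _ _ D2 _ _).symm
      rw [e3]
    refine e2.trans ?_
    have e4 : C0 * (((prLe (yN N)).card : ℝ) + 1) ^ m * (T : ℝ) ^ (-c) ≤ ε / 2 := by
      refine le_trans ?_ h6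
      gcongr
      exact min_card h4
    linarith
  · intro S hS hSm
    have hpr : ∀ p ∈ S, p.Prime ∧ (p : ℝ) ≤ yN N := fun p hp => min_mem (by linarith) (hS hp)
    set d : ℕ := ∏ p ∈ S, p with hd
    have hd1 : 1 ≤ d := Nat.one_le_iff_ne_zero.2 (Finset.prod_ne_zero_iff.2 fun p hp =>
      (hpr p hp).1.ne_zero)
    have hdle : (d : ℝ) ≤ (T : ℝ) ^ c := by
      refine le_trans ?_ hyTc
      rw [hd]
      push_cast
      calc ∏ p ∈ S, (p : ℝ) ≤ ∏ _p ∈ S, yN N :=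
            Finset.prod_le_prod (fun _ _ => by positivity) fun p hp => (hpr p hp).2
        _ = yN N ^ S.card := Finset.prod_const _
        _ ≤ yN N ^ m := pow_le_pow_right₀ (by linarith) hSm
    have hiff : ∀ z : ℤ, (∀ p ∈ S, (p : ℤ) ∣ z) ↔ (d : ℤ) ∣ z := by
      intro z
      constructor
      · intro h
        rw [hd]
        push_cast
        refine Finset.prod_dvd_of_coprime ?_ h
        intro p hp q hq hpq
        exact Nat.isCoprime_iff_coprime.2 ((Nat.coprime_primes (hpr p hp).1 (hpr q hq).1).2 hpq)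
      · intro h p hp
        refine dvd_trans ?_ h
        exact_mod_cast Finset.dvd_prod_of_mem (fun p : ℕ => p) hp
    have h7 := hdiv f rfl N T hN1 hT0 happ d hd1 hdle
    have h8 : ∑ n ∈ (Icc 1 N).filter (fun n : ℕ => (d : ℤ) ∣ ⌊f.eval (n : ℝ)⌋), 1 / (N : ℝ) -
        (∑ _n ∈ Icc 1 N, 1 / (N : ℝ)) * ∏ p ∈ S, 1 / (p : ℝ) =
        ((((Icc 1 N).filter (fun n : ℕ => (d : ℤ) ∣ ⌊f.eval (n : ℝ)⌋)).card : ℝ) - N / d) / N := by
      have hW : ∑ _n ∈ Icc 1 N, 1 / (N : ℝ) = 1 := by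
        rw [Finset.sum_const, Nat.card_Icc, nsmul_eq_mul, Nat.add_sub_cancel]
        field_simp
      have hdR : (0 : ℝ) < d := by exact_mod_cast hd1
      have hP : ∏ p ∈ S, 1 / (p : ℝ) = 1 / d := by
        rw [hd, Finset.prod_div_distrib, Finset.prod_const_one]
        push_cast
        rfl
      rw [hW, hP, Finset.sum_const, nsmul_eq_mul]
      field_simp
    have h9 : |∑ n ∈ (Icc 1 N).filter (fun n : ℕ => (d : ℤ) ∣ ⌊f.eval (n : ℝ)⌋), 1 / (N : ℝ) -
        (∑ _n ∈ Icc 1 N, 1 / (N : ℝ)) * ∏ p ∈ S, 1 / (p : ℝ)| ≤ (T : ℝ) ^ (-c) := by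
      rw [h8, abs_div, abs_of_pos hNpos, div_le_iff₀ hNpos, mul_comm]
      exact h7
    refine le_trans (le_of_eq ?_) h9
    congr 2
    exact Finset.sum_congr (min_filter_congr _ _ _ _ _ fun n _ => hiff _) fun _ _ => rfl

end EK75

end S_H75_EK_Min
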