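import Mathlib
import Pool.Agent.H75.EM.L9
import Pool.Agent.H75.EM.L10

/-! Erdos-Kac law for integer parts of real polynomials, part L11: this file joins several modules to save build time. -/

section S_H75_EK_Maj

/-! Module MAJ: major arc case. -/

open Polynomial Finset Filter Topology
open scoped Real BigOperators

namespace EK75

/-! ### elementary facts -/

lemma maj_L2_tendsto : Tendsto L2 atTop atTop := by
  unfold L2
  exact Real.tendsto_log_atTop.comp (Real.tendsto_log_atTop.comp tendsto_natCast_atTop_atTop)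

lemma maj_exp_norm (ξ x : ℝ) : ‖Complex.exp (Complex.I * ξ * (x : ℝ))‖ = 1 := by
  have h : Complex.exp (Complex.I * ξ * x) = Complex.exp (((ξ * x : ℝ) : ℂ) * Complex.I) := by
    congr 1; push_cast; ring
  rw [h, Complex.norm_exp_ofReal_mul_I]

lemma maj_exp_sub (ξ x y : ℝ) : ‖Complex.exp (Complex.I * ξ * (x : ℝ)) -
    Complex.exp (Complex.I * ξ * (y : ℝ))‖ ≤ |ξ| * |x - y| := by
  have h : ∀ z : ℝ, Complex.exp (Complex.I * ξ * z) = Complex.exp (((ξ * z : ℝ) : ℂ) * Complex.I) := by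
    intro z; congr 1; push_cast; ring
  rw [h x, h y]
  have h2 : Complex.exp (((ξ * x : ℝ) : ℂ) * Complex.I) - Complex.exp (((ξ * y : ℝ) : ℂ) * Complex.I) =
      Complex.exp (((ξ * y : ℝ) : ℂ) * Complex.I) *
        (Complex.exp (Complex.I * ((ξ * x - ξ * y : ℝ) : ℂ)) - 1) := by
    rw [mul_sub, mul_one, ← Complex.exp_add]
    congr 2
    push_cast; ring
  rw [h2, norm_mul, Complex.norm_exp_ofReal_mul_I, one_mul]
  refine (Real.norm_exp_I_mul_ofReal_sub_one_le).trans ?_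
  rw [Real.norm_eq_abs, ← mul_sub, abs_mul]

lemma maj_gauss_norm (ξ : ℝ) : ‖Complex.exp (-(ξ : ℂ) ^ 2 / 2)‖ ≤ 1 := by
  have h : (-(ξ : ℂ) ^ 2 / 2) = ((-(ξ ^ 2) / 2 : ℝ) : ℂ) := by push_cast; ring
  rw [h, Complex.norm_exp_ofReal, Real.exp_le_one_iff]
  have := sq_nonneg ξ
  linarith

lemma maj_rho_le (g : ℤ[X]) (p : ℕ) : rho g p ≤ p := by
  unfold rho
  exact (card_filter_le _ _).trans (by simp)

lemma maj_Ft_coeff (k : ℕ) (a : ℕ → ℤ) (t : ℤ) (hk : 1 ≤ k) : (Ft k a t).coeff k = a k := by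
  unfold Ft FF
  rw [coeff_sub, finset_sum_coeff, coeff_C, if_neg (by omega), sub_zero]
  simp only [coeff_C_mul, coeff_X_pow]
  rw [sum_eq_single k]
  · simp
  · intro j _ hj; simp [Ne.symm hj]
  · intro h; exact absurd (mem_Icc.mpr ⟨hk, le_refl _⟩) h

lemma maj_Ft_natDegree (k : ℕ) (a : ℕ → ℤ) (t : ℤ) : (Ft k a t).natDegree ≤ k := by
  unfold Ft FF
  refine (natDegree_sub_le _ _).trans (max_le ?_ (by simp))
  refine natDegree_sum_le_of_forall_le _ _ (fun j hj => ?_)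
  rw [mem_Icc] at hj
  exact (natDegree_C_mul_X_pow_le _ _).trans hj.2

lemma maj_rho_le_deg (k : ℕ) (a : ℕ → ℤ) (t : ℤ) (hk : 1 ≤ k) (p : ℕ) (hp : p.Prime)
    (hpa : ¬ ((p : ℤ) ∣ a k)) : rho (Ft k a t) p ≤ k := by
  haveI : Fact p.Prime := ⟨hp⟩
  set P : (ZMod p)[X] := (Ft k a t).map (Int.castRingHom (ZMod p)) with hP
  have hP0 : P ≠ 0 := by
    intro h0
    have h1 : P.coeff k = 0 := by rw [h0, coeff_zero]
    rw [hP, coeff_map, maj_Ft_coeff k a t hk] at h1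
    exact hpa ((ZMod.intCast_zmod_eq_zero_iff_dvd _ _).mp (by simpa using h1))
  have hdeg : P.natDegree ≤ k := natDegree_map_le.trans (maj_Ft_natDegree k a t)
  have hcard : (P.roots.toFinset).card ≤ k :=
    (Multiset.toFinset_card_le _).trans ((card_roots' P).trans hdeg)
  refine le_trans ?_ hcard
  unfold rho
  refine card_le_card_of_injOn (fun r : ℕ => (r : ZMod p)) ?_ ?_
  · intro r hr
    rw [mem_coe, mem_filter] at hr
    rw [mem_coe, Multiset.mem_toFinset, mem_roots hP0, IsRoot.def, hP]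
    have h1 : (((Ft k a t).eval (r : ℤ) : ℤ) : ZMod p) = 0 :=
      (ZMod.intCast_zmod_eq_zero_iff_dvd _ _).mpr hr.2
    rw [← h1]
    have h2 := Polynomial.eval_intCast_map (Int.castRingHom (ZMod p)) (Ft k a t) (r : ℤ)
    simpa using h2
  · intro r hr r' hr' h
    rw [mem_coe, mem_filter, mem_range] at hr hr'
    have h1 : (r : ZMod p) = (r' : ZMod p) := h
    rw [ZMod.natCast_eq_natCast_iff'] at h1
    rwa [Nat.mod_eq_of_lt hr.1, Nat.mod_eq_of_lt hr'.1] at h1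

lemma maj_filter_dec {α : Type} (s : Finset α) (p : α → Prop) (d1 d2 : DecidablePred p) :
    @Finset.filter α p d1 s = @Finset.filter α p d2 s := by
  ext x; simp only [mem_filter]

/-- few large prime factors -/
lemma maj_primes (Q : ℕ) (hQ : 1 ≤ Q) (z : ℝ) (hz : 1 < z) :
    ((Q.primeFactors.filter (fun p : ℕ => z < p)).card : ℝ) ≤ Real.log Q / Real.log z := by
  rw [le_div_iff₀ (Real.log_pos hz)]
  set r := (Q.primeFactors.filter (fun p : ℕ => z < p)).card with hr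
  have h1 : z ^ r ≤ ∏ p ∈ Q.primeFactors.filter (fun p : ℕ => z < p), (p : ℝ) := by
    rw [hr, ← prod_const]
    refine prod_le_prod (fun _ _ => by linarith) (fun p hp => ?_)
    rw [mem_filter] at hp
    exact hp.2.le
  have h2 : (∏ p ∈ Q.primeFactors.filter (fun p : ℕ => z < p), p) ∣ Q :=
    (prod_dvd_prod_of_subset _ _ _ (filter_subset _ _)).trans (Nat.prod_primeFactors_dvd _)
  have h3 : ((∏ p ∈ Q.primeFactors.filter (fun p : ℕ => z < p), p : ℕ) : ℝ) ≤ (Q : ℝ) := by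
    exact_mod_cast Nat.le_of_dvd hQ h2
  push_cast at h3
  calc (r : ℝ) * Real.log z = Real.log (z ^ r) := by rw [Real.log_pow]
    _ ≤ Real.log Q := Real.log_le_log (by positivity) (h1.trans h3)

lemma maj_primes_card (Q : ℕ) (hQ : 1 ≤ Q) :
    (Q.primeFactors.card : ℝ) ≤ Real.log Q / Real.log (3 / 2) := by
  have h := maj_primes Q hQ (3 / 2) (by norm_num)
  have h2 : Q.primeFactors.filter (fun p : ℕ => (3 / 2 : ℝ) < p) = Q.primeFactors := by
    refine filter_true_of_mem (fun p hp => ?_)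
    have : 2 ≤ p := (Nat.prime_of_mem_primeFactors hp).two_le
    have : (2 : ℝ) ≤ p := by exact_mod_cast this
    linarith
  rwa [h2] at h

lemma maj_mem_prLe (p : ℕ) (x : ℝ) (hx : 0 ≤ x) : p ∈ prLe x ↔ p.Prime ∧ (p : ℝ) ≤ x := by
  unfold prLe
  rw [mem_filter, mem_range, Nat.lt_succ_iff, Nat.le_floor_iff hx, and_comm]

lemma maj_mem_prIoc (p : ℕ) (x y : ℝ) (hx : 0 ≤ x) (hy : 0 ≤ y) :
    p ∈ prIoc x y ↔ p.Prime ∧ x < (p : ℝ) ∧ (p : ℝ) ≤ y := by
  unfold prIoc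
  rw [mem_filter, mem_Ioc, Nat.floor_lt hx, Nat.le_floor_iff hy, and_comm]


lemma maj_Q (f : ℝ[X]) (hk : 1 ≤ f.natDegree) : ∃ (T0 N0 : ℕ), ∀ (N T q : ℕ) (a : ℕ → ℤ),
    N0 ≤ N → T0 ≤ T → T ^ 4 ≤ N → MajD f N T q a → a f.natDegree ≠ 0 ∧
      (((q : ℤ) * a f.natDegree).natAbs : ℝ) ≤ (T : ℝ) ^ 3 := by
  obtain ⟨N0, hN0⟩ := majD_lead f hk
  refine ⟨⌈|f.coeff f.natDegree| + 1⌉₊, N0, fun N T q a hN hT hTN hM => ?_⟩
  have hq1 : (1 : ℝ) ≤ q := by exact_mod_cast hM.q1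
  have hqT : (q : ℝ) ≤ T := by exact_mod_cast hM.qT
  have hT1 : 1 ≤ T := hM.q1.trans hM.qT
  have hTN' : T ≤ N := (Nat.le_self_pow (by norm_num) T).trans hTN
  have hT2 : T ^ 2 ≤ N := (Nat.pow_le_pow_right hT1 (by norm_num)).trans hTN
  have hlead := hN0 N hN T q a hM hT2
  have hlc : 0 < |f.leadingCoeff| := by
    rw [abs_pos]
    exact leadingCoeff_ne_zero.mpr (fun h => by rw [h] at hk; simp at hk)
  constructor
  · intro h0
    rw [h0] at hlead
    simp only [Int.cast_zero, abs_zero] at hlead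
    have : 0 < |f.leadingCoeff| / 2 * q := by positivity
    linarith
  · have hc := majD_coeff f N T q a hM hTN' f.natDegree (mem_Icc.mpr ⟨hk, le_refl _⟩)
    have hTc : |f.coeff f.natDegree| + 1 ≤ (T : ℝ) := (Nat.le_ceil _).trans (by exact_mod_cast hT)
    have h1 : ((((q : ℤ) * a f.natDegree).natAbs : ℕ) : ℝ) =
        (q : ℝ) * |((a f.natDegree : ℤ) : ℝ)| := by
      rw [Nat.cast_natAbs, Int.cast_abs, Int.cast_mul, abs_mul]
      simp
    rw [h1]
    have hT0 : (0 : ℝ) ≤ T := by positivity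
    calc (q : ℝ) * |((a f.natDegree : ℤ) : ℝ)| ≤ q * ((|f.coeff f.natDegree| + 1) * q) := by gcongr
      _ ≤ T * (T * T) := by gcongr
      _ = (T : ℝ) ^ 3 := by ring

/-- number of good primes dividing the integer part -/
noncomputable def omG (f : ℝ[X]) (N q : ℕ) (a : ℕ → ℤ) (n : ℕ) : ℕ :=
  ((goodP f.natDegree q a (yN N)).filter (fun p : ℕ => (p : ℤ) ∣ ⌊f.eval (n : ℝ)⌋)).card

lemma maj_yN_nonneg (N : ℕ) : 0 ≤ yN N := by unfold yN; positivity

lemma maj_om (f : ℝ[X]) (hk : 1 ≤ f.natDegree) : ∃ (C : ℝ) (T0 : ℕ), 0 ≤ C ∧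
    ∀ (N T q : ℕ) (a : ℕ → ℤ), 1 ≤ N → T0 ≤ T → T ≤ N → NonApp f N T → a f.natDegree ≠ 0 →
      1 ≤ q → (((q : ℤ) * a f.natDegree).natAbs : ℝ) ≤ (T : ℝ) ^ 3 →
    ∑ n ∈ Icc 1 N, |(omY f N n : ℝ) - omG f N q a n| ≤
      (C + Real.log (1 + Real.log (1 + 3 * Real.log N))) * N := by
  obtain ⟨c, T0, hc, hdiv⟩ := div_equi f.natDegree hk
  obtain ⟨C4, hC4⟩ := mert4
  refine ⟨|C4| + 3 / Real.log (3 / 2) / c + 3 / c, max T0 2, by positivity, ?_⟩
  intro N T q a hN hT hTN hNA hak hq hQT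
  have hT0 : T0 ≤ T := (le_max_left _ _).trans hT
  have hT2 : 2 ≤ T := (le_max_right _ _).trans hT
  have hT2' : (2 : ℝ) ≤ T := by exact_mod_cast hT2
  set Q : ℕ := ((q : ℤ) * a f.natDegree).natAbs with hQdef
  have hQ0 : (q : ℤ) * a f.natDegree ≠ 0 := mul_ne_zero (by exact_mod_cast (by omega)) hak
  have hQ1 : 1 ≤ Q := Nat.one_le_iff_ne_zero.mpr (Int.natAbs_ne_zero.mpr hQ0)
  set B : Finset ℕ := (prLe (yN N)).filter (fun p : ℕ => (p : ℤ) ∣ (q : ℤ) * a f.natDegree) with hB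
  have hBsub : B ⊆ Q.primeFactors := by
    intro p hp
    rw [hB, mem_filter, maj_mem_prLe _ _ (maj_yN_nonneg N)] at hp
    rw [Nat.mem_primeFactors]
    exact ⟨hp.1.1, Int.natCast_dvd.mp hp.2, Int.natAbs_ne_zero.mpr hQ0⟩
  have hdiff : ∀ n, |(omY f N n : ℝ) - omG f N q a n| =
      ((B.filter (fun p : ℕ => (p : ℤ) ∣ ⌊f.eval (n : ℝ)⌋)).card : ℝ) := by
    intro n
    have h1 : omY f N n = omG f N q a n +
        (B.filter (fun p : ℕ => (p : ℤ) ∣ ⌊f.eval (n : ℝ)⌋)).card := by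
      unfold omY omG goodP
      have e1 : ((prLe (yN N)).filter (fun p : ℕ => ¬ ((p : ℤ) ∣ (q : ℤ) * a f.natDegree))).filter
          (fun p : ℕ => (p : ℤ) ∣ ⌊f.eval (n : ℝ)⌋) =
          ((prLe (yN N)).filter (fun p : ℕ => (p : ℤ) ∣ ⌊f.eval (n : ℝ)⌋)).filter
            (fun p : ℕ => ¬ ((p : ℤ) ∣ (q : ℤ) * a f.natDegree)) := filter_comm _ _ _
      have e2 : B.filter (fun p : ℕ => (p : ℤ) ∣ ⌊f.eval (n : ℝ)⌋) =
          ((prLe (yN N)).filter (fun p : ℕ => (p : ℤ) ∣ ⌊f.eval (n : ℝ)⌋)).filter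
            (fun p : ℕ => (p : ℤ) ∣ (q : ℤ) * a f.natDegree) := filter_comm _ _ _
      rw [e1, e2, add_comm]
      exact (card_filter_add_card_filter_not _).symm
    rw [h1]
    push_cast
    rw [add_sub_cancel_left, abs_of_nonneg (by positivity)]
  simp_rw [hdiff]
  have hswap : ∑ n ∈ Icc 1 N, ((B.filter (fun p : ℕ => (p : ℤ) ∣ ⌊f.eval (n : ℝ)⌋)).card : ℝ) =
      ∑ p ∈ B, (((Icc 1 N).filter (fun n : ℕ => (p : ℤ) ∣ ⌊f.eval (n : ℝ)⌋)).card : ℝ) := by
    simp_rw [card_filter]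
    push_cast
    rw [sum_comm]
  rw [hswap]
  have hcount : ∀ p : ℕ, 1 ≤ p → (((Icc 1 N).filter (fun n : ℕ => (p : ℤ) ∣ ⌊f.eval (n : ℝ)⌋)).card : ℝ) ≤
      N * (1 / p) + N * (T : ℝ) ^ (-c) + (if (T : ℝ) ^ c < p then (N : ℝ) else 0) := by
    intro p hp
    split_ifs with hlt
    · have h1 : (((Icc 1 N).filter (fun n : ℕ => (p : ℤ) ∣ ⌊f.eval (n : ℝ)⌋)).card : ℝ) ≤ N := by
        have := card_filter_le (Icc 1 N) (fun n : ℕ => (p : ℤ) ∣ ⌊f.eval (n : ℝ)⌋)
        rw [Nat.card_Icc, Nat.add_sub_cancel] at this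
        exact_mod_cast this
      have h2 : 0 ≤ (N : ℝ) * (1 / p) + N * (T : ℝ) ^ (-c) := by positivity
      linarith
    · have h1 := hdiv f rfl N T hN hT0 hNA p hp (not_lt.mp hlt)
      have h2 := (abs_le.mp h1).2
      have h3 : (N : ℝ) / p = N * (1 / p) := by ring
      have key : ∀ (d1 : DecidablePred fun n : ℕ => (p : ℤ) ∣ ⌊f.eval (n : ℝ)⌋),
          ((@Finset.filter ℕ _ d1 (Icc 1 N)).card : ℝ) =
          (((Icc 1 N).filter (fun n : ℕ => (p : ℤ) ∣ ⌊f.eval (n : ℝ)⌋)).card : ℝ) := by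
        intro d1
        rw [maj_filter_dec (Icc 1 N) _ d1 (fun n => inferInstance)]
      rw [key] at h2
      linarith
  have hTc1 : 1 < (T : ℝ) ^ c := Real.one_lt_rpow (by linarith) hc
  have hlogT : 0 < Real.log T := Real.log_pos (by linarith)
  have hQ1' : (1 : ℝ) ≤ Q := by exact_mod_cast hQ1
  have hlogQ0 : 0 ≤ Real.log Q := Real.log_nonneg hQ1'
  have hlogQ : Real.log Q ≤ 3 * Real.log T := by
    have := Real.log_le_log (by linarith) hQT
    rwa [Real.log_pow, Nat.cast_ofNat] at this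
  have hTN' : (T : ℝ) ≤ N := by exact_mod_cast hTN
  have hlogN : Real.log T ≤ Real.log N := Real.log_le_log (by linarith) hTN'
  have hl32 : 0 < Real.log (3 / 2 : ℝ) := Real.log_pos (by norm_num)
  have hNpos : (0 : ℝ) < N := by exact_mod_cast hN
  calc ∑ p ∈ B, (((Icc 1 N).filter (fun n : ℕ => (p : ℤ) ∣ ⌊f.eval (n : ℝ)⌋)).card : ℝ)
      ≤ ∑ p ∈ Q.primeFactors, (((Icc 1 N).filter (fun n : ℕ => (p : ℤ) ∣ ⌊f.eval (n : ℝ)⌋)).card : ℝ) :=
        sum_le_sum_of_subset_of_nonneg hBsub (fun _ _ _ => by positivity)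
    _ ≤ ∑ p ∈ Q.primeFactors, (N * (1 / (p : ℝ)) + N * (T : ℝ) ^ (-c) +
          (if (T : ℝ) ^ c < p then (N : ℝ) else 0)) :=
        sum_le_sum (fun p hp => hcount p (Nat.prime_of_mem_primeFactors hp).one_le)
    _ = N * ∑ p ∈ Q.primeFactors, (1 / (p : ℝ)) + Q.primeFactors.card * (N * (T : ℝ) ^ (-c)) +
          ((Q.primeFactors.filter (fun p : ℕ => (T : ℝ) ^ c < p)).card : ℝ) * N := by
        rw [sum_add_distrib, sum_add_distrib, ← mul_sum, sum_const, nsmul_eq_mul, ← sum_filter,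
          sum_const, nsmul_eq_mul]
    _ ≤ N * (C4 + Real.log (1 + Real.log (1 + Real.log Q))) +
          Real.log Q / Real.log (3 / 2) * (N * (T : ℝ) ^ (-c)) +
          Real.log Q / Real.log ((T : ℝ) ^ c) * N := by
        gcongr
        · exact hC4 Q hQ1
        · exact maj_primes_card Q hQ1
        · exact maj_primes Q hQ1 _ hTc1
    _ ≤ N * (|C4| + Real.log (1 + Real.log (1 + 3 * Real.log N))) +
          3 / Real.log (3 / 2) / c * N + 3 / c * N := by
        refine add_le_add (add_le_add ?_ ?_) ?_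
        · have h0 : 0 ≤ Real.log (1 + Real.log Q) := Real.log_nonneg (by linarith)
          have h1 : Real.log (1 + Real.log Q) ≤ Real.log (1 + 3 * Real.log N) :=
            Real.log_le_log (by linarith) (by linarith)
          have h2 : Real.log (1 + Real.log (1 + Real.log Q)) ≤
            Real.log (1 + Real.log (1 + 3 * Real.log N)) :=
            Real.log_le_log (by linarith) (by linarith)
          have h3 := le_abs_self C4
          gcongr
        · have h1 : Real.log T * (T : ℝ) ^ (-c) ≤ 1 / c := by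
            have := Real.log_le_rpow_div (x := T) (by linarith) hc
            calc Real.log T * (T : ℝ) ^ (-c) ≤ (T : ℝ) ^ c / c * (T : ℝ) ^ (-c) := by gcongr
              _ = 1 / c * ((T : ℝ) ^ c * (T : ℝ) ^ (-c)) := by ring
              _ = 1 / c := by
                rw [← Real.rpow_add (by linarith)]; simp
          calc Real.log Q / Real.log (3 / 2) * (N * (T : ℝ) ^ (-c))
              ≤ 3 * Real.log T / Real.log (3 / 2) * (N * (T : ℝ) ^ (-c)) := by gcongr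
            _ = 3 / Real.log (3 / 2) * N * (Real.log T * (T : ℝ) ^ (-c)) := by ring
            _ ≤ 3 / Real.log (3 / 2) * N * (1 / c) := by gcongr
            _ = _ := by ring
        · rw [Real.log_rpow (by linarith)]
          refine mul_le_mul_of_nonneg_right ?_ hNpos.le
          rw [div_le_div_iff₀ (by positivity) hc]
          nlinarith
    _ = _ := by ring

lemma maj_mem_goodP (k q : ℕ) (a : ℕ → ℤ) (z : ℝ) (hz : 0 ≤ z) (p : ℕ) :
    p ∈ goodP k q a z ↔ (p.Prime ∧ (p : ℝ) ≤ z) ∧ ¬ ((p : ℤ) ∣ (q : ℤ) * a k) := by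
  unfold goodP
  rw [mem_filter, maj_mem_prLe _ _ hz]

lemma maj_split (k q : ℕ) (a : ℕ → ℤ) (z v y : ℝ) (hz : 0 ≤ z) (hzv : z ≤ v) (hvy : v ≤ y)
    (r : ℕ → ℝ) :
    ∑ p ∈ goodP k q a y, r p / p = ∑ p ∈ goodP k q a z, r p / p +
      ∑ p ∈ (goodP k q a y).filter (fun p : ℕ => z < p ∧ (p : ℝ) ≤ v), r p / p +
      ∑ p ∈ (goodP k q a y).filter (fun p : ℕ => v < p), r p / p := by
  have hy : 0 ≤ y := hz.trans (hzv.trans hvy)
  have h1 : goodP k q a z = (goodP k q a y).filter (fun p : ℕ => ¬ (z < p)) := by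
    ext p
    rw [mem_filter, maj_mem_goodP _ _ _ _ hz, maj_mem_goodP _ _ _ _ hy, not_lt]
    constructor
    · rintro ⟨⟨h1, h2⟩, h3⟩
      exact ⟨⟨⟨h1, h2.trans (hzv.trans hvy)⟩, h3⟩, h2⟩
    · rintro ⟨⟨⟨h1, _⟩, h3⟩, h2⟩
      exact ⟨⟨h1, h2⟩, h3⟩
  have h2 : (goodP k q a y).filter (fun p : ℕ => z < p ∧ (p : ℝ) ≤ v) =
      ((goodP k q a y).filter (fun p : ℕ => z < p)).filter (fun p : ℕ => ¬ (v < p)) := by
    rw [filter_filter]
    refine filter_congr (fun p _ => ?_)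
    rw [not_lt]
  have h3 : (goodP k q a y).filter (fun p : ℕ => v < p) =
      ((goodP k q a y).filter (fun p : ℕ => z < p)).filter (fun p : ℕ => v < p) := by
    rw [filter_filter]
    refine filter_congr (fun p _ => ?_)
    exact ⟨fun h => ⟨hzv.trans_lt h, h⟩, fun h => h.2⟩
  rw [h1, h2, h3, add_assoc, add_comm (∑ p ∈ ((goodP k q a y).filter (fun p : ℕ => z < p)).filter
    (fun p : ℕ => ¬ (v < p)), r p / p), sum_filter_add_sum_filter_not, add_comm,
    sum_filter_add_sum_filter_not]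

lemma maj_mid (k q : ℕ) (a : ℕ → ℤ) (z v y : ℝ) (hz : 0 ≤ z) (hzv : z ≤ v) (hvy : v ≤ y)
    (r : ℕ → ℝ) (K : ℝ) (hK : 0 ≤ K) (hr : ∀ p ∈ goodP k q a y, 0 ≤ r p ∧ r p ≤ K) :
    0 ≤ ∑ p ∈ (goodP k q a y).filter (fun p : ℕ => z < p ∧ (p : ℝ) ≤ v), r p / p ∧
    ∑ p ∈ (goodP k q a y).filter (fun p : ℕ => z < p ∧ (p : ℝ) ≤ v), r p / p ≤
      K * Ssum (fun _ => 1) z v := by
  have hy : 0 ≤ y := hz.trans (hzv.trans hvy)
  constructor
  · refine sum_nonneg (fun p hp => ?_)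
    rw [mem_filter] at hp
    exact div_nonneg (hr p hp.1).1 (by positivity)
  · unfold Ssum
    rw [mul_sum]
    refine (sum_le_sum (g := fun p : ℕ => K * (1 / (p : ℝ))) (fun p hp => ?_)).trans
      (sum_le_sum_of_subset_of_nonneg ?_ (fun _ _ _ => by positivity))
    · rw [mem_filter] at hp
      have := (hr p hp.1).2
      rw [mul_one_div]
      gcongr
    · intro p hp
      rw [mem_filter, maj_mem_goodP _ _ _ _ hy] at hp
      rw [maj_mem_prIoc _ _ _ hz (hz.trans hzv)]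
      exact ⟨hp.1.1.1, hp.2.1, hp.2.2⟩

lemma maj_top (k q : ℕ) (a : ℕ → ℤ) (v y : ℝ) (hv : 0 ≤ v) (hy : 0 ≤ y) (hQ0 : (q : ℤ) * a k ≠ 0)
    (hQ : (((q : ℤ) * a k).natAbs : ℝ) ≤ v) (r : ℕ → ℝ) :
    ∑ p ∈ (goodP k q a y).filter (fun p : ℕ => v < p), r p / p = Ssum r v y := by
  unfold Ssum
  refine sum_congr ?_ (fun _ _ => rfl)
  ext p
  rw [mem_filter, maj_mem_goodP _ _ _ _ hy, maj_mem_prIoc _ _ _ hv hy]
  constructor
  · rintro ⟨⟨⟨h1, h2⟩, _⟩, h3⟩
    exact ⟨h1, h3, h2⟩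
  · rintro ⟨h1, h3, h2⟩
    refine ⟨⟨⟨h1, h2⟩, fun hd => ?_⟩, h3⟩
    have h4 : p ∣ ((q : ℤ) * a k).natAbs := Int.natCast_dvd.mp hd
    have h5 : p ≤ ((q : ℤ) * a k).natAbs :=
      Nat.le_of_dvd (Nat.pos_of_ne_zero (Int.natAbs_ne_zero.mpr hQ0)) h4
    have h6 : (p : ℝ) ≤ (((q : ℤ) * a k).natAbs : ℝ) := by exact_mod_cast h5
    linarith

lemma maj_good_small : ∃ C : ℝ, 0 ≤ C ∧ ∀ (k q : ℕ) (a : ℕ → ℤ) (z : ℝ), 2 ≤ z →
    (q : ℤ) * a k ≠ 0 →
    |∑ p ∈ goodP k q a z, (1 : ℝ) / p - Real.log (Real.log z)| ≤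
      C + Real.log (1 + Real.log (1 + Real.log (((q : ℤ) * a k).natAbs : ℝ))) := by
  obtain ⟨C4, hC4⟩ := mert4
  obtain ⟨C5, hC5⟩ := mert5
  refine ⟨|C4| + |C5|, by positivity, fun k q a z hz hQ0 => ?_⟩
  set Q : ℕ := ((q : ℤ) * a k).natAbs with hQdef
  have hQ1 : 1 ≤ Q := Nat.one_le_iff_ne_zero.mpr (Int.natAbs_ne_zero.mpr hQ0)
  have h1 := hC5 z hz
  have h2 := hC4 Q hQ1
  have h3 : ∑ p ∈ (prLe z).filter (fun p : ℕ => (p : ℤ) ∣ (q : ℤ) * a k), (1 : ℝ) / p +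
      ∑ p ∈ goodP k q a z, (1 : ℝ) / p = ∑ p ∈ prLe z, (1 : ℝ) / p := by
    unfold goodP
    exact sum_filter_add_sum_filter_not _ _ _
  have h4 : ∑ p ∈ (prLe z).filter (fun p : ℕ => (p : ℤ) ∣ (q : ℤ) * a k), (1 : ℝ) / p ≤
      ∑ p ∈ Q.primeFactors, (1 : ℝ) / p := by
    refine sum_le_sum_of_subset_of_nonneg (fun p hp => ?_) (fun _ _ _ => by positivity)
    rw [mem_filter, maj_mem_prLe _ _ (by linarith)] at hp
    rw [Nat.mem_primeFactors]
    exact ⟨hp.1.1, Int.natCast_dvd.mp hp.2, Int.natAbs_ne_zero.mpr hQ0⟩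
  have h5 : 0 ≤ ∑ p ∈ (prLe z).filter (fun p : ℕ => (p : ℤ) ∣ (q : ℤ) * a k), (1 : ℝ) / p :=
    sum_nonneg (fun _ _ => by positivity)
  have hQ1' : (1 : ℝ) ≤ Q := by exact_mod_cast hQ1
  have h6 : 0 ≤ Real.log (1 + Real.log (1 + Real.log (Q : ℝ))) :=
    Real.log_nonneg (by
      have : 0 ≤ Real.log (1 + Real.log (Q : ℝ)) := Real.log_nonneg (by
        have := Real.log_nonneg hQ1'
        linarith)
      linarith)
  have h7 := le_abs_self C4
  have h8 := le_abs_self C5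
  rw [abs_le] at h1 ⊢
  constructor <;> linarith [h1.1, h1.2]

/-- the mean -/
noncomputable def majMu (f : ℝ[X]) (N q : ℕ) (a : ℕ → ℤ) (t : ℤ) : ℝ :=
  ∑ p ∈ goodP f.natDegree q a (yN N), (rho (Ft f.natDegree a t) p : ℝ) / p

/-- deterministic part of the estimate of the mean -/
lemma maj_det (c2 A : ℝ) (hc2 : 0 < c2) (hc2A : c2 ≤ A) : ∃ C : ℝ, 0 ≤ C ∧
    ∀ (k q : ℕ) (a : ℕ → ℤ) (T y : ℝ) (r : ℕ → ℝ) (K D0 D1 : ℝ), 0 ≤ K →
    (∀ p ∈ goodP k q a y, 0 ≤ r p ∧ r p ≤ K) → 2 ≤ T ^ c2 → 2 ≤ T → 2 ≤ y →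
    (q : ℤ) * a k ≠ 0 → (((q : ℤ) * a k).natAbs : ℝ) ≤ T ^ A → 0 ≤ D1 →
    |∑ p ∈ goodP k q a (min (T ^ c2) y), r p / p -
      ∑ p ∈ goodP k q a (min (T ^ c2) y), (1 : ℝ) / p| ≤ D0 →
    (T ^ A ≤ y → |Ssum r (T ^ A) y - Real.log (Real.log y / Real.log (T ^ A))| ≤ D1) →
    |∑ p ∈ goodP k q a y, r p / p - Real.log (Real.log y)| ≤ D0 + D1 + C * (1 + K) +
      Real.log (1 + Real.log (1 + Real.log (((q : ℤ) * a k).natAbs : ℝ))) := by
  obtain ⟨C2, hC2⟩ := mert2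
  obtain ⟨C3, hC30, hC3⟩ := maj_good_small
  refine ⟨|C2| + C3 + Real.log (A / c2), ?_, ?_⟩
  · have : 0 ≤ Real.log (A / c2) := Real.log_nonneg (by rw [le_div_iff₀ hc2]; linarith)
    positivity
  intro k q a T y r K D0 D1 hK hr hTc hT hy hQ0 hQ hD1 h0 h1
  set z := min (T ^ c2) y with hz
  set v := min (T ^ A) y with hv
  have hlogT : 0 < Real.log T := Real.log_pos (by linarith)
  have hA : 0 < A := hc2.trans_le hc2A
  have hTA : T ^ c2 ≤ T ^ A := Real.rpow_le_rpow_of_exponent_le (by linarith) hc2A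
  have hz2 : 2 ≤ z := le_min hTc hy
  have hzv : z ≤ v := min_le_min_right y hTA
  have hvy : v ≤ y := min_le_right _ _
  have hlz : 0 < Real.log z := Real.log_pos (by linarith)
  have hlv : 0 < Real.log v := Real.log_pos (by linarith)
  have hly : 0 < Real.log y := Real.log_pos (by linarith)
  have hL0 : 0 ≤ Real.log (A / c2) := Real.log_nonneg (by rw [le_div_iff₀ hc2]; linarith)
  -- log log v - log log z
  have hvz : 0 ≤ Real.log (Real.log v / Real.log z) ∧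
      Real.log (Real.log v / Real.log z) ≤ Real.log (A / c2) := by
    have h2 : Real.log z ≤ Real.log v := Real.log_le_log (by linarith) hzv
    constructor
    · exact Real.log_nonneg (by rw [le_div_iff₀ hlz]; linarith)
    · refine Real.log_le_log (by positivity) ?_
      rw [div_le_div_iff₀ hlz hc2]
      rcases le_total (T ^ c2) y with h | h
      · have e1 : z = T ^ c2 := min_eq_left h
        have e2 : Real.log v ≤ A * Real.log T := by
          rw [← Real.log_rpow (by linarith)]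
          exact Real.log_le_log (by linarith) (min_le_left _ _)
        rw [e1, Real.log_rpow (by linarith)]
        nlinarith
      · have e1 : z = y := min_eq_right h
        have e2 : v = y := min_eq_right (h.trans hTA)
        rw [e1, e2]
        nlinarith
  have hspl := maj_split k q a z v y (by linarith) hzv hvy r
  have hmid := maj_mid k q a z v y (by linarith) hzv hvy r K hK hr
  have hS := (abs_le.mp (hC2 z v hz2 hzv)).2
  have hmid2 : ∑ p ∈ (goodP k q a y).filter (fun p : ℕ => z < p ∧ (p : ℝ) ≤ v), r p / p ≤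
      K * (|C2| + Real.log (A / c2)) := by
    refine hmid.2.trans (mul_le_mul_of_nonneg_left ?_ hK)
    have := le_abs_self C2
    linarith [hvz.2]
  have htop : |∑ p ∈ (goodP k q a y).filter (fun p : ℕ => v < p), r p / p -
      Real.log (Real.log y / Real.log v)| ≤ D1 := by
    rcases le_or_gt (T ^ A) y with h | h
    · have e1 : v = T ^ A := min_eq_left h
      rw [e1, maj_top k q a (T ^ A) y (by positivity) (by linarith) hQ0 hQ r]
      exact h1 h
    · have e1 : v = y := min_eq_right h.le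
      have e2 : (goodP k q a y).filter (fun p : ℕ => v < p) = ∅ := by
        rw [filter_eq_empty_iff]
        intro p hp
        rw [maj_mem_goodP _ _ _ _ (by linarith)] at hp
        rw [e1, not_lt]
        exact hp.1.2
      rw [e2, e1, div_self hly.ne', Real.log_one, sum_empty, sub_self, abs_zero]
      exact hD1
  have hgs := hC3 k q a z hz2 hQ0
  have hlog1 : Real.log (Real.log y / Real.log v) = Real.log (Real.log y) - Real.log (Real.log v) :=
    Real.log_div hly.ne' hlv.ne'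
  have hlog2 : Real.log (Real.log v / Real.log z) = Real.log (Real.log v) - Real.log (Real.log z) :=
    Real.log_div hlv.ne' hlz.ne'
  rw [hlog1] at htop
  rw [hlog2] at hvz
  rw [hspl]
  have hC2' := abs_nonneg C2
  have hK1 : K * (|C2| + Real.log (A / c2)) ≤ K * (|C2| + C3 + Real.log (A / c2)) := by
    gcongr; linarith
  rw [abs_le] at h0 htop hgs ⊢
  constructor <;> nlinarith [h0.1, h0.2, htop.1, htop.2, hgs.1, hgs.2, hmid.1, hmid2, hvz.1, hvz.2]

lemma maj_log_yN (N : ℕ) (hN : 1 ≤ N) : Real.log (yN N) = (L2 N) ^ (-(1 : ℝ) / 4) * Real.log N := by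
  unfold yN
  exact Real.log_rpow (by exact_mod_cast hN) _

lemma maj_yN_tendsto : Tendsto yN atTop atTop := by
  have h1 : Tendsto (fun N : ℕ => Real.exp (Real.exp (L2 N) / (L2 N) ^ ((1 : ℝ) / 4))) atTop atTop :=
    Real.tendsto_exp_atTop.comp ((tendsto_exp_div_rpow_atTop (1 / 4)).comp maj_L2_tendsto)
  refine h1.congr' ?_
  have e1 : ∀ᶠ N : ℕ in atTop, 1 ≤ L2 N := maj_L2_tendsto.eventually_ge_atTop 1
  have e3 : ∀ᶠ N : ℕ in atTop, 1 ≤ Real.log (N : ℝ) :=
    (Real.tendsto_log_atTop.comp tendsto_natCast_atTop_atTop).eventually_ge_atTop _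
  filter_upwards [e1, e3, eventually_ge_atTop 1] with N h1 h3 h4
  have hN0 : (0 : ℝ) < N := by exact_mod_cast h4
  have h5 : Real.exp (L2 N) = Real.log N := by
    unfold L2
    exact Real.exp_log (by linarith)
  rw [h5]
  unfold yN
  rw [Real.rpow_def_of_pos hN0]
  congr 1
  rw [neg_div, Real.rpow_neg (by linarith), div_eq_mul_inv]

lemma maj_T4 : ∃ N0 : ℕ, ∀ N, N0 ≤ N → ∀ T : ℕ, (T : ℝ) < thr N → T ^ 4 ≤ N := by
  have e1 : ∀ᶠ N : ℕ in atTop, (4 : ℝ) ^ (8 : ℝ) ≤ L2 N := maj_L2_tendsto.eventually_ge_atTop _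
  obtain ⟨N0, hN0⟩ := (e1.and (eventually_ge_atTop 1)).exists_forall_of_atTop
  refine ⟨N0, fun N hN T hT => ?_⟩
  obtain ⟨h1, h2⟩ := hN0 N hN
  have hN1 : (1 : ℝ) ≤ N := by exact_mod_cast h2
  have h3 : (L2 N) ^ (-(1 : ℝ) / 8) ≤ 1 / 4 := by
    have h4 : (L2 N) ^ (-(1 : ℝ) / 8) ≤ ((4 : ℝ) ^ (8 : ℝ)) ^ (-(1 : ℝ) / 8) :=
      Real.rpow_le_rpow_of_nonpos (by positivity) h1 (by norm_num)
    rw [← Real.rpow_mul (by norm_num)] at h4
    refine h4.trans (le_of_eq ?_)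
    rw [show (8 : ℝ) * (-1 / 8) = -1 by norm_num, Real.rpow_neg_one]
    norm_num
  have h4 : (T : ℝ) ≤ (N : ℝ) ^ ((1 : ℝ) / 4) :=
    hT.le.trans (Real.rpow_le_rpow_of_exponent_le hN1 h3)
  have h5 : ((T ^ 4 : ℕ) : ℝ) ≤ N := by
    push_cast
    calc (T : ℝ) ^ 4 ≤ ((N : ℝ) ^ ((1 : ℝ) / 4)) ^ 4 := by gcongr
      _ = (N : ℝ) := by
        rw [← Real.rpow_natCast, ← Real.rpow_mul (by linarith)]
        norm_num
  exact_mod_cast h5

/-- logarithms against `x^{1/4}` -/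
lemma maj_log_quarter (x : ℝ) (hx : 1 ≤ x) : 1 ≤ x ^ ((1 : ℝ) / 4) ∧
    Real.log (3 + x) ≤ 6 * x ^ ((1 : ℝ) / 4) ∧ Real.log (1 + x) ≤ 6 * x ^ ((1 : ℝ) / 4) ∧
    0 ≤ Real.log x ∧ 1 / 4 * Real.log x ≤ x ^ ((1 : ℝ) / 4) := by
  have h1 : 1 ≤ x ^ ((1 : ℝ) / 4) := Real.one_le_rpow hx (by norm_num)
  have h2 : Real.log x ≤ 4 * x ^ ((1 : ℝ) / 4) := by
    have := Real.log_le_rpow_div (x := x) (by linarith) (ε := 1 / 4) (by norm_num)
    linarith
  have h3 : Real.log 4 ≤ 2 := by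
    rw [show (4 : ℝ) = 2 ^ 2 by norm_num, Real.log_pow]
    have := Real.log_two_lt_d9
    push_cast
    linarith
  have h4 : Real.log (3 + x) ≤ Real.log 4 + Real.log x := by
    rw [← Real.log_mul (by norm_num) (by linarith)]
    exact Real.log_le_log (by linarith) (by linarith)
  have h5 : Real.log (1 + x) ≤ Real.log (3 + x) := Real.log_le_log (by linarith) (by linarith)
  exact ⟨h1, by linarith, by linarith, Real.log_nonneg hx, by linarith⟩

lemma maj_card_le (s : Finset ℕ) (g : ℕ → ℝ) (b M : ℝ) (hb : 0 < b)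
    (h : ∑ n ∈ s, (g n) ^ 2 ≤ M) : ((s.filter (fun n => b < |g n|)).card : ℝ) ≤ M / b ^ 2 := by
  rw [le_div_iff₀ (by positivity)]
  calc ((s.filter (fun n => b < |g n|)).card : ℝ) * b ^ 2
      = ∑ n ∈ s.filter (fun n => b < |g n|), b ^ 2 := by rw [sum_const, nsmul_eq_mul]
    _ ≤ ∑ n ∈ s.filter (fun n => b < |g n|), (g n) ^ 2 := by
        refine sum_le_sum (fun n hn => ?_)
        rw [mem_filter] at hn
        rw [← sq_abs (g n)]
        have := hn.2
        gcongr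
    _ ≤ ∑ n ∈ s, (g n) ^ 2 :=
        sum_le_sum_of_subset_of_nonneg (filter_subset _ _) (fun _ _ _ => sq_nonneg _)
    _ ≤ M := h

lemma maj_Ssum_add (w : ℕ → ℝ) (a b c : ℝ) (ha : 0 ≤ a) (hab : a ≤ b) (hbc : b ≤ c) :
    Ssum w a b + Ssum w b c = Ssum w a c := by
  unfold Ssum
  have hb : 0 ≤ b := ha.trans hab
  have hc : 0 ≤ c := hb.trans hbc
  rw [← sum_union]
  · refine sum_congr ?_ (fun _ _ => rfl)
    ext p
    rw [mem_union, maj_mem_prIoc _ _ _ ha hb, maj_mem_prIoc _ _ _ hb hc, maj_mem_prIoc _ _ _ ha hc]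
    constructor
    · rintro (⟨h1, h2, h3⟩ | ⟨h1, h2, h3⟩)
      · exact ⟨h1, h2, h3.trans hbc⟩
      · exact ⟨h1, hab.trans_lt h2, h3⟩
    · rintro ⟨h1, h2, h3⟩
      rcases le_or_gt (p : ℝ) b with h | h
      · exact Or.inl ⟨h1, h2, h⟩
      · exact Or.inr ⟨h1, h, h3⟩
  · rw [disjoint_left]
    intro p hp hp'
    rw [maj_mem_prIoc _ _ _ ha hb] at hp
    rw [maj_mem_prIoc _ _ _ hb hc] at hp'
    linarith [hp.2.2, hp'.2.1]

lemma maj_typ_use (w : ℕ → ℝ) (V y Ct : ℝ) (N : ℕ) (hCt : 0 ≤ Ct) (hV : 3 ≤ V) (hVy : V ≤ y)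
    (hyN : y ≤ N) (h : |Ssum w V y - Real.log (Real.log y / Real.log V)| ≤
      Ct * (1 + Real.log (1 + Real.log (Real.log y / Real.log V)))) :
    |Ssum w V y - Real.log (Real.log y / Real.log V)| ≤ Ct * (1 + Real.log (1 + L2 N)) := by
  have h1 : 1 ≤ Real.log V := by
    rw [Real.le_log_iff_exp_le (by linarith)]
    exact (Real.exp_one_lt_d9.le.trans (by norm_num)).trans hV
  have h2 : Real.log V ≤ Real.log y := Real.log_le_log (by linarith) hVy
  have h3 : Real.log y ≤ Real.log N := Real.log_le_log (by linarith) hyN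
  have h4 : 1 ≤ Real.log y / Real.log V := by rw [le_div_iff₀ (by linarith)]; linarith
  have h5 : Real.log y / Real.log V ≤ Real.log N := by
    rw [div_le_iff₀ (by linarith)]
    nlinarith
  have h6 : 0 ≤ Real.log (Real.log y / Real.log V) := Real.log_nonneg h4
  have h7 : Real.log (Real.log y / Real.log V) ≤ L2 N := Real.log_le_log (by linarith) h5
  have h8 : Real.log (1 + Real.log (Real.log y / Real.log V)) ≤ Real.log (1 + L2 N) :=
    Real.log_le_log (by linarith) (by linarith)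
  refine h.trans ?_
  gcongr

lemma maj_typ_use2 (w : ℕ → ℝ) (V V' y Ct : ℝ) (N : ℕ) (hCt : 0 ≤ Ct) (hV : 3 ≤ V) (hVV : V ≤ V')
    (hVy : V' ≤ y) (hyN : y ≤ N) (h : ∀ y : ℝ, V ≤ y →
      |Ssum w V y - Real.log (Real.log y / Real.log V)| ≤
      Ct * (1 + Real.log (1 + Real.log (Real.log y / Real.log V)))) :
    |Ssum w V' y - Real.log (Real.log y / Real.log V')| ≤ 2 * Ct * (1 + Real.log (1 + L2 N)) := by
  have h1 := maj_typ_use w V y Ct N hCt hV (hVV.trans hVy) hyN (h y (hVV.trans hVy))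
  have h2 := maj_typ_use w V V' Ct N hCt hV hVV (hVy.trans hyN) (h V' hVV)
  have h3 := maj_Ssum_add w V V' y (by linarith) hVV hVy
  have l1 : 0 < Real.log V := Real.log_pos (by linarith)
  have l2 : 0 < Real.log V' := Real.log_pos (by linarith)
  have l3 : 0 < Real.log y := Real.log_pos (by linarith)
  rw [Real.log_div l3.ne' l1.ne'] at h1
  rw [Real.log_div l2.ne' l1.ne'] at h2
  rw [Real.log_div l3.ne' l2.ne']
  rw [abs_le] at h1 h2 ⊢
  constructor <;> linarith [h1.1, h1.2, h2.1, h2.2]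

lemma maj_mu (f : ℝ[X]) (hf : ∃ j, 1 ≤ j ∧ Irrational (f.coeff j)) : ∃ C : ℝ, 0 ≤ C ∧
    ∀ ε : ℝ, 0 < ε → ∃ N0 : ℕ, ∀ (N T q : ℕ) (a : ℕ → ℤ), N0 ≤ N → MajD f N T q a →
      NonApp f N T → (T : ℝ) < thr N →
    (((Icc 1 N).filter (fun n => C * (L2 N) ^ ((1 : ℝ) / 4) <
      |majMu f N q a (tt f q a n) - L2 N|)).card : ℝ) ≤ ε * N := by
  have hk : 1 ≤ f.natDegree := by
    obtain ⟨j, hj, hirr⟩ := hf
    exact hj.trans (le_natDegree_of_ne_zero (fun h => hirr ⟨0, by simp [h]⟩))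
  obtain ⟨A, c, Ct, Ta, Na, hA, hc, hCt, htyp⟩ := typ f hk
  obtain ⟨cm, Cm, Tb, hcm, hCm, hmu⟩ := mu_small f.natDegree hk
  obtain ⟨Tc, hmu⟩ := hmu f rfl
  obtain ⟨Td, Nd, hQ⟩ := maj_Q f hk
  obtain ⟨N4, hN4⟩ := maj_T4
  set c2 : ℝ := min cm 1 with hc2def
  have hc2 : 0 < c2 := lt_min hcm one_pos
  have hc2A : c2 ≤ max A 3 := ((min_le_right _ _).trans hA).trans (le_max_left _ _)
  obtain ⟨Cd, hCd, hdet⟩ := maj_det c2 (max A 3) hc2 hc2A
  refine ⟨8 + 14 * Ct + Cd * (1 + f.natDegree), by positivity, fun ε hε => ?_⟩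
  -- threshold for T
  have eT : ∀ᶠ T : ℕ in atTop, Ta ≤ T ∧ Tb ≤ T ∧ Tc ≤ T ∧ Td ≤ T ∧ 3 ≤ T ∧
      (2 : ℝ) ≤ (T : ℝ) ^ c2 ∧ Ct * (T : ℝ) ^ (-c) ≤ ε / 2 := by
    have t1 : Tendsto (fun T : ℕ => (T : ℝ) ^ c2) atTop atTop :=
      (tendsto_rpow_atTop hc2).comp tendsto_natCast_atTop_atTop
    have t2 : Tendsto (fun T : ℕ => Ct * (T : ℝ) ^ (-c)) atTop (𝓝 (Ct * 0)) :=
      ((tendsto_rpow_neg_atTop hc).comp tendsto_natCast_atTop_atTop).const_mul Ct
    rw [mul_zero] at t2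
    filter_upwards [eventually_ge_atTop Ta, eventually_ge_atTop Tb, eventually_ge_atTop Tc,
      eventually_ge_atTop Td, eventually_ge_atTop 3, t1.eventually_ge_atTop 2,
      t2.eventually_le_const (by positivity : (0 : ℝ) < ε / 2)] with T h1 h2 h3 h4 h5 h6 h7
    exact ⟨h1, h2, h3, h4, h5, h6, h7⟩
  obtain ⟨T0, hT0⟩ := eT.exists_forall_of_atTop
  obtain ⟨Ne, hNe⟩ := majD_tendsto f hf T0
  have eN : ∀ᶠ N : ℕ in atTop, 1 ≤ L2 N ∧ Cm / (L2 N) ^ ((1 : ℝ) / 2) ≤ ε / 2 ∧ 2 ≤ yN N ∧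
      1 ≤ Real.log (N : ℝ) := by
    have t2 : Tendsto (fun N : ℕ => Cm * (L2 N) ^ (-((1 : ℝ) / 2))) atTop (𝓝 (Cm * 0)) :=
      ((tendsto_rpow_neg_atTop (by norm_num : (0 : ℝ) < 1 / 2)).comp maj_L2_tendsto).const_mul Cm
    rw [mul_zero] at t2
    filter_upwards [maj_L2_tendsto.eventually_ge_atTop 1,
      t2.eventually_le_const (by positivity : (0 : ℝ) < ε / 2), maj_yN_tendsto.eventually_ge_atTop 2,
      (Real.tendsto_log_atTop.comp tendsto_natCast_atTop_atTop).eventually_ge_atTop 1]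
      with N h1 h2 h3 h4
    refine ⟨h1, ?_, h3, h4⟩
    rw [Real.rpow_neg (by linarith), ← div_eq_mul_inv] at h2
    exact h2
  obtain ⟨Nf, hNf⟩ := eN.exists_forall_of_atTop
  refine ⟨max (max (max Na Nd) (max N4 Ne)) (max Nf 1), fun N T q a hN hM hNA hthr => ?_⟩
  have hNa : Na ≤ N := ((le_max_left _ _).trans ((le_max_left _ _).trans (le_max_left _ _))).trans hN
  have hNd : Nd ≤ N := ((le_max_right _ _).trans ((le_max_left _ _).trans (le_max_left _ _))).trans hN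
  have hN4' : N4 ≤ N := ((le_max_left _ _).trans ((le_max_right _ _).trans (le_max_left _ _))).trans hN
  have hNe' : Ne ≤ N := ((le_max_right _ _).trans ((le_max_right _ _).trans (le_max_left _ _))).trans hN
  have hNf' : Nf ≤ N := ((le_max_left _ _).trans (le_max_right _ _)).trans hN
  have hN1 : 1 ≤ N := ((le_max_right _ _).trans (le_max_right _ _)).trans hN
  obtain ⟨hTa, hTb, hTc, hTd, hT3, hTc2, hTCt⟩ := hT0 T (hNe N hNe' T q a hM)
  obtain ⟨hL1, hLm, hy2, hlN⟩ := hNf N hNf'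
  have hT4 := hN4 N hN4' T hthr
  obtain ⟨hak, hQT⟩ := hQ N T q a hNd hTd hT4 hM
  obtain ⟨G, hGsub, hGcard, hG⟩ := htyp N T q a hNa hTa hM hT4
  have hT3' : (3 : ℝ) ≤ T := by exact_mod_cast hT3
  have hN1' : (1 : ℝ) ≤ N := by exact_mod_cast hN1
  have hq1 : 1 ≤ q := hM.q1
  have hQ0 : (q : ℤ) * a f.natDegree ≠ 0 := mul_ne_zero (by exact_mod_cast (by omega)) hak
  set z : ℝ := min ((T : ℝ) ^ c2) (yN N) with hz
  have hz2 : 2 ≤ z := le_min hTc2 hy2
  have hzT : z ≤ (T : ℝ) ^ cm := (min_le_left _ _).trans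
    (Real.rpow_le_rpow_of_exponent_le (by linarith) (min_le_left _ _))
  have hcheb := hmu N T q a hN1 hM hNA hTb hTc hT4 hak z hz2 hzT
  set g : ℕ → ℝ := fun n => ∑ p ∈ goodP f.natDegree q a z,
    (rho (Ft f.natDegree a (tt f q a n)) p : ℝ) / p - ∑ p ∈ goodP f.natDegree q a z, (1 : ℝ) / p
    with hg
  obtain ⟨hx1, hx2, hx3, hx4, hx5⟩ := maj_log_quarter (L2 N) hL1
  set x4 : ℝ := (L2 N) ^ ((1 : ℝ) / 4) with hx4def
  have hx44 : x4 ^ 2 = (L2 N) ^ ((1 : ℝ) / 2) := by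
    rw [hx4def, ← Real.rpow_natCast, ← Real.rpow_mul (by linarith)]
    norm_num
  have hcard1 : (((Icc 1 N).filter (fun n => x4 < |g n|)).card : ℝ) ≤ ε / 2 * N := by
    refine (maj_card_le (Icc 1 N) g x4 (Cm * N) (by linarith) hcheb).trans ?_
    rw [hx44]
    calc Cm * N / (L2 N) ^ ((1 : ℝ) / 2) = Cm / (L2 N) ^ ((1 : ℝ) / 2) * N := by ring
      _ ≤ ε / 2 * N := by gcongr
  have hcard2 : (((Icc 1 N) \ G).card : ℝ) ≤ ε / 2 * N := by
    refine hGcard.trans ?_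
    calc Ct * N * (T : ℝ) ^ (-c) = Ct * (T : ℝ) ^ (-c) * N := by ring
      _ ≤ ε / 2 * N := by gcongr
  have hyN : yN N ≤ N := by
    unfold yN
    calc (N : ℝ) ^ ((L2 N) ^ (-(1 : ℝ) / 4)) ≤ (N : ℝ) ^ (1 : ℝ) :=
          Real.rpow_le_rpow_of_exponent_le hN1' (by
            rw [neg_div, Real.rpow_neg (by linarith)]
            exact inv_le_one_of_one_le₀ hx1)
      _ = N := Real.rpow_one _
  have hQ3 : Real.log (1 + Real.log (1 + Real.log (((q : ℤ) * a f.natDegree).natAbs : ℝ))) ≤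
      6 * x4 := by
    refine le_trans ?_ hx2
    have hQ1' : (1 : ℝ) ≤ (((q : ℤ) * a f.natDegree).natAbs : ℝ) := by
      exact_mod_cast Nat.one_le_iff_ne_zero.mpr (Int.natAbs_ne_zero.mpr hQ0)
    have hTN : (T : ℝ) ≤ N := by
      exact_mod_cast (Nat.le_self_pow (by norm_num) T).trans hT4
    have g1 : Real.log (((q : ℤ) * a f.natDegree).natAbs : ℝ) ≤ 3 * Real.log N := by
      calc Real.log (((q : ℤ) * a f.natDegree).natAbs : ℝ) ≤ Real.log ((T : ℝ) ^ 3) :=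
            Real.log_le_log (by linarith) hQT
        _ = 3 * Real.log T := by rw [Real.log_pow, Nat.cast_ofNat]
        _ ≤ 3 * Real.log N := by
            have := Real.log_le_log (by linarith : (0 : ℝ) < T) hTN
            linarith
    have g0 := Real.log_nonneg hQ1'
    have g2 : Real.log (1 + Real.log (((q : ℤ) * a f.natDegree).natAbs : ℝ)) ≤ 2 + L2 N := by
      calc Real.log (1 + Real.log (((q : ℤ) * a f.natDegree).natAbs : ℝ))
          ≤ Real.log (4 * Real.log N) := Real.log_le_log (by linarith) (by linarith)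
        _ = Real.log 4 + L2 N := by
            rw [Real.log_mul (by norm_num) (by linarith)]; rfl
        _ ≤ 2 + L2 N := by
            have h3 : Real.log 4 ≤ 2 := by
              rw [show (4 : ℝ) = 2 ^ 2 by norm_num, Real.log_pow]
              have := Real.log_two_lt_d9
              push_cast
              linarith
            linarith
    have g3 : 0 ≤ Real.log (1 + Real.log (((q : ℤ) * a f.natDegree).natAbs : ℝ)) :=
      Real.log_nonneg (by linarith)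
    exact Real.log_le_log (by linarith) (by linarith)
  have hloglog : Real.log (Real.log (yN N)) = L2 N - 1 / 4 * Real.log (L2 N) := by
    rw [maj_log_yN N hN1, Real.log_mul (by positivity) (by linarith), Real.log_rpow (by linarith)]
    unfold L2
    ring
  have hsub : (Icc 1 N).filter (fun n => (8 + 14 * Ct + Cd * (1 + f.natDegree)) * x4 <
      |majMu f N q a (tt f q a n) - L2 N|) ⊆
      ((Icc 1 N) \ G) ∪ (Icc 1 N).filter (fun n => x4 < |g n|) := by
    intro n hn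
    rw [mem_filter] at hn
    rw [mem_union]
    by_contra hcon
    rw [not_or, Finset.mem_sdiff, mem_filter] at hcon
    have hnG : n ∈ G := by
      by_contra h
      exact hcon.1 ⟨hn.1, h⟩
    have hgn : |g n| ≤ x4 := by
      by_contra h
      exact hcon.2 ⟨hn.1, not_le.mp h⟩
    have hr : ∀ p ∈ goodP f.natDegree q a (yN N), 0 ≤ rhoR (Ft f.natDegree a (tt f q a n)) p ∧
        rhoR (Ft f.natDegree a (tt f q a n)) p ≤ f.natDegree := by
      intro p hp
      rw [maj_mem_goodP _ _ _ _ (maj_yN_nonneg N)] at hp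
      unfold rhoR
      refine ⟨by positivity, ?_⟩
      exact_mod_cast maj_rho_le_deg f.natDegree a _ hk p hp.1.1 (fun h => hp.2 (h.mul_left _))
    have hT1 : (1 : ℝ) ≤ T := by linarith
    have hV : (3 : ℝ) ≤ (T : ℝ) ^ A := hT3'.trans (by
      calc (T : ℝ) = (T : ℝ) ^ (1 : ℝ) := (Real.rpow_one _).symm
        _ ≤ (T : ℝ) ^ A := Real.rpow_le_rpow_of_exponent_le hT1 hA)
    have hVV : (T : ℝ) ^ A ≤ (T : ℝ) ^ (max A 3) :=
      Real.rpow_le_rpow_of_exponent_le hT1 (le_max_left _ _)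
    have hQTA : (((q : ℤ) * a f.natDegree).natAbs : ℝ) ≤ (T : ℝ) ^ (max A 3) := by
      refine hQT.trans ?_
      calc (T : ℝ) ^ 3 = (T : ℝ) ^ (3 : ℝ) := by
            rw [← Real.rpow_natCast]; norm_num
        _ ≤ (T : ℝ) ^ (max A 3) := Real.rpow_le_rpow_of_exponent_le hT1 (le_max_right _ _)
    have hlog1 : 0 ≤ Real.log (1 + L2 N) := Real.log_nonneg (by linarith)
    have hmain := hdet f.natDegree q a T (yN N) (rhoR (Ft f.natDegree a (tt f q a n))) f.natDegree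
      x4 (2 * Ct * (1 + Real.log (1 + L2 N))) (by positivity) hr hTc2 (by linarith) hy2 hQ0 hQTA
      (by positivity) hgn
      (fun hle => maj_typ_use2 _ _ _ _ Ct N hCt hV hVV hle hyN (hG n hnG))
    rw [hloglog] at hmain
    have hmain2 : |majMu f N q a (tt f q a n) - L2 N| ≤
        (8 + 14 * Ct + Cd * (1 + f.natDegree)) * x4 := by
      have e1 : majMu f N q a (tt f q a n) - L2 N =
          (∑ p ∈ goodP f.natDegree q a (yN N), rhoR (Ft f.natDegree a (tt f q a n)) p / p -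
          (L2 N - 1 / 4 * Real.log (L2 N))) - 1 / 4 * Real.log (L2 N) := by
        unfold majMu rhoR
        ring
      rw [e1]
      refine (abs_sub _ _).trans ?_
      rw [abs_of_nonneg (by positivity : 0 ≤ 1 / 4 * Real.log (L2 N))]
      have e2 : 2 * Ct * (1 + Real.log (1 + L2 N)) ≤ 14 * Ct * x4 := by
        have : 1 + Real.log (1 + L2 N) ≤ 7 * x4 := by linarith
        calc 2 * Ct * (1 + Real.log (1 + L2 N)) ≤ 2 * Ct * (7 * x4) := by gcongr
          _ = _ := by ring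
      have e3 : Cd * (1 + (f.natDegree : ℝ)) ≤ Cd * (1 + (f.natDegree : ℝ)) * x4 := by
        have : 0 ≤ Cd * (1 + (f.natDegree : ℝ)) := by positivity
        nlinarith
      linarith
    exact absurd hn.2 (not_lt.mpr hmain2)
  calc (((Icc 1 N).filter (fun n => (8 + 14 * Ct + Cd * (1 + f.natDegree)) * x4 <
      |majMu f N q a (tt f q a n) - L2 N|)).card : ℝ)
      ≤ ((((Icc 1 N) \ G) ∪ (Icc 1 N).filter (fun n => x4 < |g n|)).card : ℝ) := by
        exact_mod_cast card_le_card hsub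
    _ ≤ (((Icc 1 N) \ G).card : ℝ) + (((Icc 1 N).filter (fun n => x4 < |g n|)).card : ℝ) := by
        exact_mod_cast card_union_le _ _
    _ ≤ ε * N := by linarith

/-! ### the characteristic function -/

lemma maj_err : ∀ (m : ℕ) (D ε : ℝ), 0 ≤ D → 0 < ε → ∃ N0 : ℕ, ∀ N, N0 ≤ N → ∀ T : ℝ, 0 ≤ T →
    T < thr N → D * (T ^ 2 * (yN N + 2) ^ (2 * m)) / N ≤ ε := by
  intro m D ε hD hε
  have t8 : Tendsto (fun N : ℕ => (L2 N) ^ (-((1 : ℝ) / 8))) atTop (𝓝 0) :=
    (tendsto_rpow_neg_atTop (by norm_num : (0 : ℝ) < 1 / 8)).comp maj_L2_tendsto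
  have t4 : Tendsto (fun N : ℕ => (2 * m : ℝ) * (L2 N) ^ (-((1 : ℝ) / 4))) atTop (𝓝 ((2 * m : ℝ) * 0)) :=
    ((tendsto_rpow_neg_atTop (by norm_num : (0 : ℝ) < 1 / 4)).comp maj_L2_tendsto).const_mul _
  rw [mul_zero] at t4
  have tN : Tendsto (fun N : ℕ => D * 3 ^ (2 * m) * (N : ℝ) ^ (-((1 : ℝ) / 4))) atTop
      (𝓝 (D * 3 ^ (2 * m) * 0)) :=
    ((tendsto_rpow_neg_atTop (by norm_num : (0 : ℝ) < 1 / 4)).comp
      tendsto_natCast_atTop_atTop).const_mul _
  rw [mul_zero] at tN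
  have ev := (t8.eventually_le_const (by norm_num : (0 : ℝ) < 1 / 4)).and
    ((t4.eventually_le_const (by norm_num : (0 : ℝ) < 1 / 4)).and
    ((tN.eventually_le_const hε).and ((maj_yN_tendsto.eventually_ge_atTop 1).and
      (eventually_ge_atTop 1))))
  obtain ⟨N0, hN0⟩ := ev.exists_forall_of_atTop
  refine ⟨N0, fun N hN T hT0 hT => ?_⟩
  obtain ⟨h8, h4, hN', hy, hN1⟩ := hN0 N hN
  have hN1' : (1 : ℝ) ≤ N := by exact_mod_cast hN1
  have hNpos : (0 : ℝ) < N := by linarith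
  have hT2 : T ^ 2 ≤ (N : ℝ) ^ ((1 : ℝ) / 2) := by
    have h1 : T ≤ (N : ℝ) ^ ((1 : ℝ) / 4) := by
      refine hT.le.trans (Real.rpow_le_rpow_of_exponent_le hN1' ?_)
      rw [neg_div]
      exact h8
    calc T ^ 2 ≤ ((N : ℝ) ^ ((1 : ℝ) / 4)) ^ 2 := by gcongr
      _ = (N : ℝ) ^ ((1 : ℝ) / 2) := by
        rw [← Real.rpow_natCast, ← Real.rpow_mul (by linarith)]
        norm_num
  have hy2 : (yN N + 2) ^ (2 * m) ≤ 3 ^ (2 * m) * (N : ℝ) ^ ((1 : ℝ) / 4) := by
    calc (yN N + 2) ^ (2 * m) ≤ (3 * yN N) ^ (2 * m) := by gcongr; linarith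
      _ = 3 ^ (2 * m) * (yN N) ^ (2 * m) := by rw [mul_pow]
      _ ≤ 3 ^ (2 * m) * (N : ℝ) ^ ((1 : ℝ) / 4) := by
        gcongr
        unfold yN
        rw [← Real.rpow_natCast, ← Real.rpow_mul (by linarith)]
        refine Real.rpow_le_rpow_of_exponent_le hN1' ?_
        rw [neg_div]
        push_cast
        linarith
  calc D * (T ^ 2 * (yN N + 2) ^ (2 * m)) / N
      ≤ D * ((N : ℝ) ^ ((1 : ℝ) / 2) * (3 ^ (2 * m) * (N : ℝ) ^ ((1 : ℝ) / 4))) / N := by gcongr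
    _ = D * 3 ^ (2 * m) * ((N : ℝ) ^ ((1 : ℝ) / 2) * (N : ℝ) ^ ((1 : ℝ) / 4) * (N : ℝ) ^ (-(1 : ℝ))) := by
        rw [Real.rpow_neg_one]
        field_simp
    _ = D * 3 ^ (2 * m) * (N : ℝ) ^ (-((1 : ℝ) / 4)) := by
        rw [← Real.rpow_add hNpos, ← Real.rpow_add hNpos]
        norm_num
    _ ≤ ε := hN'

lemma maj_sum_sq (P : Finset ℕ) (k : ℕ) (lam : ℕ → ℝ) (h : ∀ p ∈ P, 1 ≤ p ∧ 0 ≤ lam p ∧ lam p ≤ k / p) :
    ∑ p ∈ P, lam p ^ 2 ≤ 2 * (k : ℝ) ^ 2 := by
  have h1 : ∀ p ∈ P, lam p ^ 2 ≤ (k : ℝ) ^ 2 * (1 / (p : ℝ) ^ 2) := by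
    intro p hp
    obtain ⟨h1, h2, h3⟩ := h p hp
    calc lam p ^ 2 ≤ (k / p : ℝ) ^ 2 := by gcongr
      _ = _ := by rw [div_pow]; ring
  refine (sum_le_sum h1).trans ?_
  rw [← mul_sum]
  have h2 : ∑ p ∈ P, 1 / (p : ℝ) ^ 2 ≤ 2 := by
    set M := P.sup id + 1 with hM
    have hsub : P ⊆ Ioo 0 M := by
      intro p hp
      rw [mem_Ioo]
      exact ⟨(h p hp).1, Nat.lt_succ_of_le (le_sup (f := id) hp)⟩
    refine (sum_le_sum_of_subset_of_nonneg hsub (fun _ _ _ => by positivity)).trans ?_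
    have h3 := sum_Ioo_inv_sq_le (α := ℝ) 0 M
    simp only [one_div]
    refine h3.trans ?_
    norm_num
  have : (0 : ℝ) ≤ (k : ℝ) ^ 2 := by positivity
  nlinarith

lemma maj_P_card (k q : ℕ) (a : ℕ → ℤ) (y : ℝ) (hy : 0 ≤ y) : ((goodP k q a y).card : ℝ) ≤ y + 1 := by
  have h1 : (goodP k q a y).card ≤ ⌊y⌋₊ + 1 := by
    unfold goodP prLe
    exact (card_filter_le _ _).trans ((card_filter_le _ _).trans (by simp))
  have h2 : (⌊y⌋₊ : ℝ) ≤ y := Nat.floor_le hy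
  have h3 : ((goodP k q a y).card : ℝ) ≤ (⌊y⌋₊ : ℝ) + 1 := by exact_mod_cast h1
  linarith

lemma maj_core (f : ℝ[X]) (hf : ∃ j, 1 ≤ j ∧ Irrational (f.coeff j)) (ξ ε : ℝ) (hε : 0 < ε) :
    ∃ N0 : ℕ, ∀ (N T q : ℕ) (a : ℕ → ℤ), N0 ≤ N → MajD f N T q a → NonApp f N T → (T : ℝ) < thr N →
    ‖∑ n ∈ Icc 1 N, ((1 / N : ℝ) : ℂ) * Complex.exp (Complex.I * ξ *
        (((omG f N q a n : ℝ) - (Real.sqrt (L2 N)) ^ 2) / Real.sqrt (L2 N) : ℝ)) -
      Complex.exp (-(ξ : ℂ) ^ 2 / 2)‖ ≤ ε := by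
  have hk : 1 ≤ f.natDegree := by
    obtain ⟨j, hj, hirr⟩ := hf
    exact hj.trans (le_natDegree_of_ne_zero (fun h => hirr ⟨0, by simp [h]⟩))
  obtain ⟨m, c0, s0, C0, hc0, hs0, hC0, hclt⟩ := clt_core (2 * (f.natDegree : ℝ) ^ 2) ξ (ε / 4)
    (by positivity)
  obtain ⟨Cc, hCc, hcond⟩ := cond f.natDegree hk
  obtain ⟨Cmu, hCmu, hmu⟩ := maj_mu f hf
  obtain ⟨Nmu, hNmu⟩ := hmu (ε / 8) (by positivity)
  obtain ⟨Td, Nd, hQ⟩ := maj_Q f hk
  obtain ⟨N4, hN4⟩ := maj_T4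
  set C1 : ℝ := 1 + |f.coeff 0| + f.natDegree with hC1
  have hC1pos : 1 ≤ C1 := by
    have := abs_nonneg (f.coeff 0)
    have h2 : (0 : ℝ) ≤ f.natDegree := by positivity
    linarith
  obtain ⟨Ner, hNer⟩ := maj_err m ((2 * C1 + 1) * C0 * Cc) (ε / 4) (by positivity) (by positivity)
  obtain ⟨Ne, hNe⟩ := majD_tendsto f hf (max Td 1)
  have eN : ∀ᶠ N : ℕ in atTop, 1 ≤ L2 N ∧ s0 ≤ Real.sqrt (L2 N) ∧
      Cmu * (L2 N) ^ ((1 : ℝ) / 4) ≤ c0 * Real.sqrt (L2 N) ∧ 1 ≤ yN N := by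
    have t1 : Tendsto (fun N : ℕ => Real.sqrt (L2 N)) atTop atTop :=
      Real.tendsto_sqrt_atTop.comp maj_L2_tendsto
    have t2 : Tendsto (fun N : ℕ => (L2 N) ^ ((1 : ℝ) / 4)) atTop atTop :=
      (tendsto_rpow_atTop (by norm_num)).comp maj_L2_tendsto
    filter_upwards [maj_L2_tendsto.eventually_ge_atTop 1, t1.eventually_ge_atTop s0,
      t2.eventually_ge_atTop (Cmu / c0), maj_yN_tendsto.eventually_ge_atTop 1] with N h1 h2 h3 h4
    refine ⟨h1, h2, ?_, h4⟩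
    rw [div_le_iff₀ hc0] at h3
    have h5 : Real.sqrt (L2 N) = (L2 N) ^ ((1 : ℝ) / 4) * (L2 N) ^ ((1 : ℝ) / 4) := by
      rw [← Real.rpow_add (by linarith), Real.sqrt_eq_rpow]
      norm_num
    have h6 : 0 ≤ (L2 N) ^ ((1 : ℝ) / 4) := by positivity
    rw [h5]
    nlinarith
  obtain ⟨Nf, hNf⟩ := eN.exists_forall_of_atTop
  refine ⟨max (max (max Nmu Nd) (max N4 Ne)) (max (max Ner Nf) 1), fun N T q a hN hM hNA hthr => ?_⟩
  simp only [max_le_iff] at hN
  obtain ⟨⟨⟨hNmu', hNd'⟩, hN4', hNe'⟩, ⟨hNer', hNf'⟩, hN1⟩ := hN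
  have hT0 := hNe N hNe' T q a hM
  rw [max_le_iff] at hT0
  obtain ⟨hTd, hT1⟩ := hT0
  have hT4 := hN4 N hN4' T hthr
  obtain ⟨hak, hQT⟩ := hQ N T q a hNd' hTd hT4 hM
  obtain ⟨hL1, hs, hcs, hy1⟩ := hNf N hNf'
  have hbad := hNmu N T q a hNmu' hM hNA hthr
  have herr := hNer N hNer' T (by positivity) hthr
  have hN1' : (1 : ℝ) ≤ N := by exact_mod_cast hN1
  have hNpos : (0 : ℝ) < N := by linarith
  set s : ℝ := Real.sqrt (L2 N) with hsdef
  have hs2 : s ^ 2 = L2 N := Real.sq_sqrt (by linarith)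
  set P : Finset ℕ := goodP f.natDegree q a (yN N) with hP
  set E : ℝ := ((P.card : ℝ) + 1) ^ m with hE
  set η : ℝ := Cc * q * (yN N) ^ m / N with hη
  set e0 : ℂ := Complex.exp (-(ξ : ℂ) ^ 2 / 2) with he0
  set φ : ℕ → ℂ := fun n => ((1 / N : ℝ) : ℂ) * Complex.exp (Complex.I * ξ *
        (((omG f N q a n : ℝ) - s ^ 2) / s : ℝ)) with hφ
  set τ : ℕ → ℤ := tt f q a with hτ
  set Ts : Finset ℤ := (Icc 1 N).image τ with hTs
  -- the pieces
  set W : ℤ → Finset ℕ := fun t => (Icc 1 N).filter (fun n => τ n = t) with hW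
  have hsumφ : ∑ n ∈ Icc 1 N, φ n = ∑ t ∈ Ts, ∑ n ∈ W t, φ n :=
    (sum_fiberwise_of_maps_to (fun n hn => mem_image_of_mem τ hn) φ).symm
  have hsum1 : ∑ t ∈ Ts, ∑ n ∈ W t, (1 / N : ℝ) = 1 := by
    rw [show ∑ t ∈ Ts, ∑ n ∈ W t, (1 / N : ℝ) = ∑ n ∈ Icc 1 N, (1 / N : ℝ) from
      sum_fiberwise_of_maps_to (fun n hn => mem_image_of_mem τ hn) _]
    rw [sum_const, Nat.card_Icc, Nat.add_sub_cancel, nsmul_eq_mul]
    field_simp
  have hdecomp : ∑ n ∈ Icc 1 N, φ n - e0 =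
      ∑ t ∈ Ts, (∑ n ∈ W t, φ n - ((∑ n ∈ W t, (1 / N : ℝ) : ℝ) : ℂ) * e0) := by
    rw [sum_sub_distrib, ← hsumφ, ← sum_mul, ← Complex.ofReal_sum, hsum1]
    simp
  set good : ℤ → Prop := fun t => |majMu f N q a t - L2 N| ≤ Cmu * (L2 N) ^ ((1 : ℝ) / 4) with hgood
  have hWsum_nonneg : ∀ t, 0 ≤ ∑ n ∈ W t, (1 / N : ℝ) := fun t => sum_nonneg (fun _ _ => by positivity)
  have hφnorm : ∀ n, ‖φ n‖ = 1 / N := by
    intro n
    rw [hφ]
    simp only
    rw [norm_mul, maj_exp_norm, mul_one, Complex.norm_real, Real.norm_eq_abs,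
      abs_of_nonneg (by positivity)]
  have hη0 : 0 ≤ η := by positivity
  have hgoodbd : ∀ t, good t → ‖∑ n ∈ W t, φ n - ((∑ n ∈ W t, (1 / N : ℝ) : ℝ) : ℂ) * e0‖ ≤
      ε / 4 * ∑ n ∈ W t, (1 / N : ℝ) + C0 * E * η := by
    intro t ht
    have hpP : ∀ p ∈ P, p.Prime ∧ (p : ℝ) ≤ yN N ∧ ¬ ((p : ℤ) ∣ (q : ℤ) * a f.natDegree) := by
      intro p hp
      rw [hP, maj_mem_goodP _ _ _ _ (maj_yN_nonneg N)] at hp
      exact ⟨hp.1.1, hp.1.2, hp.2⟩
    have key := hclt ℕ ℕ P (W t) (fun p => (rho (Ft f.natDegree a t) p : ℝ) / p) (fun _ => 1 / N)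
      (fun p n => (p : ℤ) ∣ ⌊f.eval (n : ℝ)⌋) s η
      (fun p _ => by positivity)
      (fun p hp => by
        have h1 := maj_rho_le (Ft f.natDegree a t) p
        have h2 : (rho (Ft f.natDegree a t) p : ℝ) ≤ p := by exact_mod_cast h1
        have h3 : (0 : ℝ) < p := by exact_mod_cast (hpP p hp).1.pos
        rw [div_le_one h3]
        exact h2)
      (maj_sum_sq P f.natDegree _ (fun p hp => by
        have h1 := maj_rho_le_deg f.natDegree a t hk p (hpP p hp).1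
          (fun h => (hpP p hp).2.2 (h.mul_left _))
        have h2 : (rho (Ft f.natDegree a t) p : ℝ) ≤ f.natDegree := by exact_mod_cast h1
        refine ⟨(hpP p hp).1.one_le, by positivity, ?_⟩
        gcongr))
      hs
      (by
        rw [hs2]
        have : majMu f N q a t = ∑ p ∈ P, (rho (Ft f.natDegree a t) p : ℝ) / p := rfl
        rw [← this]
        exact (ht.trans hcs))
      (fun _ _ => by positivity) hη0
      (fun S hS hSm => by
        have hc := hcond f rfl N T q a hM S (fun p hp => ⟨(hpP p (hS hp)).1, fun h =>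
          (hpP p (hS hp)).2.2 ((Int.natCast_dvd_natCast.mpr h).mul_right _)⟩) t
        have hprod : ∏ p ∈ S, (p : ℝ) ≤ (yN N) ^ m := by
          calc ∏ p ∈ S, (p : ℝ) ≤ ∏ p ∈ S, yN N :=
                prod_le_prod (fun _ _ => by positivity) (fun p hp => (hpP p (hS hp)).2.1)
            _ = (yN N) ^ S.card := by rw [prod_const]
            _ ≤ (yN N) ^ m := pow_le_pow_right₀ hy1 hSm
        rw [sum_const, sum_const, nsmul_eq_mul, nsmul_eq_mul]
        have hset : ((((W t).filter (fun n : ℕ => ∀ p ∈ S, (p : ℤ) ∣ ⌊f.eval (n : ℝ)⌋)).card : ℕ) : ℝ) =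
            (((@Finset.filter ℕ (fun n => tt f q a n = t ∧ ∀ p ∈ S, (p : ℤ) ∣ ⌊f.eval (n : ℝ)⌋)
              (fun n => Classical.propDecidable _) (Icc 1 N)).card : ℕ) : ℝ) := by
          rw [hW]
          simp only
          rw [filter_filter]
          rw [maj_filter_dec (Icc 1 N) _ _ (fun n => Classical.propDecidable _)]
        have hset2 : (((W t).card : ℕ) : ℝ) =
            (((@Finset.filter ℕ (fun n => tt f q a n = t)
              (fun n => Classical.propDecidable _) (Icc 1 N)).card : ℕ) : ℝ) := by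
          rw [hW]
          simp only
          rw [maj_filter_dec (Icc 1 N) _ _ (fun n => Classical.propDecidable _)]
        rw [maj_filter_dec (W t) _ _ (fun n => inferInstance), hset, hset2]
        have hfin : ∀ x z : ℝ, |x - z| ≤ Cc * q * ∏ p ∈ S, (p : ℝ) →
            |x * (1 / N) - z * (1 / N)| ≤ η := by
          intro x z hxz
          rw [← sub_mul, abs_mul, abs_of_nonneg (by positivity : (0 : ℝ) ≤ 1 / N)]
          calc |x - z| * (1 / N) ≤ (Cc * q * ∏ p ∈ S, (p : ℝ)) * (1 / N) := by gcongr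
            _ ≤ (Cc * q * (yN N) ^ m) * (1 / N) := by gcongr
            _ = η := by rw [hη]; ring
        rw [maj_filter_dec (Icc 1 N) (fun n : ℕ => tt f q a n = t ∧ ∀ p ∈ S, (p : ℤ) ∣
            ⌊f.eval (n : ℝ)⌋) _ (fun n => Classical.propDecidable _),
          maj_filter_dec (Icc 1 N) (fun n : ℕ => tt f q a n = t) _
            (fun n => Classical.propDecidable _)] at hc
        have := hfin _ _ hc
        rw [show ∀ u v w : ℝ, u * v * w = u * w * v from fun u v w => by ring]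
        exact this)
    have hφ' : ∑ n ∈ W t, φ n = ∑ n ∈ W t, (((1 / N : ℝ) : ℝ) : ℂ) * Complex.exp (Complex.I * ξ *
        ((((@Finset.filter ℕ (fun p => (p : ℤ) ∣ ⌊f.eval (n : ℝ)⌋)
          (fun n => Classical.propDecidable _) P).card : ℝ) - s ^ 2) / s : ℝ)) := by
      refine sum_congr rfl (fun n _ => ?_)
      rw [hφ]
      simp only
      unfold omG
      rw [maj_filter_dec P _ _ (fun n => Classical.propDecidable _)]
    rw [hφ']
    exact key
  have hbadbd : ∀ t, ‖∑ n ∈ W t, φ n - ((∑ n ∈ W t, (1 / N : ℝ) : ℝ) : ℂ) * e0‖ ≤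
      2 * ∑ n ∈ W t, (1 / N : ℝ) := by
    intro t
    refine (norm_sub_le _ _).trans ?_
    rw [norm_mul, Complex.norm_real, Real.norm_eq_abs, abs_of_nonneg (hWsum_nonneg t)]
    have h1 : ‖∑ n ∈ W t, φ n‖ ≤ ∑ n ∈ W t, (1 / N : ℝ) :=
      (norm_sum_le _ _).trans (sum_le_sum (fun n _ => (hφnorm n).le))
    have h2 : ‖e0‖ ≤ 1 := maj_gauss_norm ξ
    have h3 := hWsum_nonneg t
    nlinarith
  -- number of values
  have hTscard : (Ts.card : ℝ) ≤ (2 * C1 + 1) * T := by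
    have hsub : Ts ⊆ Finset.Icc (-⌊C1 * T⌋) ⌊C1 * T⌋ := by
      intro t ht
      rw [hTs, mem_image] at ht
      obtain ⟨n, hn, rfl⟩ := ht
      have h1 := majD_tt f N T q a hM n hn
      rw [abs_le] at h1
      rw [Finset.mem_Icc]
      constructor
      · rw [neg_le]
        exact Int.le_floor.mpr (by push_cast; linarith [h1.1])
      · exact Int.le_floor.mpr h1.2
    have h1 := card_le_card hsub
    rw [Int.card_Icc] at h1
    have h2 : (0 : ℝ) ≤ C1 * T := by positivity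
    have h3 : 0 ≤ ⌊C1 * T⌋ := Int.floor_nonneg.mpr h2
    have h4 : (((⌊C1 * T⌋ + 1 - -⌊C1 * T⌋).toNat : ℕ) : ℤ) = 2 * ⌊C1 * T⌋ + 1 := by
      rw [Int.toNat_of_nonneg (by omega)]; ring
    have h5 : (((⌊C1 * T⌋ + 1 - -⌊C1 * T⌋).toNat : ℕ) : ℝ) = 2 * (⌊C1 * T⌋ : ℝ) + 1 := by
      exact_mod_cast h4
    have h6 : (Ts.card : ℝ) ≤ (((⌊C1 * T⌋ + 1 - -⌊C1 * T⌋).toNat : ℕ) : ℝ) := by exact_mod_cast h1
    have h7 : ((⌊C1 * T⌋ : ℤ) : ℝ) ≤ C1 * T := Int.floor_le _
    have h8 : (1 : ℝ) ≤ T := by exact_mod_cast hT1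
    linarith
  classical
  rw [hdecomp]
  calc ‖∑ t ∈ Ts, (∑ n ∈ W t, φ n - ((∑ n ∈ W t, (1 / N : ℝ) : ℝ) : ℂ) * e0)‖
      ≤ ∑ t ∈ Ts, ‖∑ n ∈ W t, φ n - ((∑ n ∈ W t, (1 / N : ℝ) : ℝ) : ℂ) * e0‖ := norm_sum_le _ _
    _ ≤ ∑ t ∈ Ts, (ε / 4 * ∑ n ∈ W t, (1 / N : ℝ) + C0 * E * η +
          (if good t then 0 else 2 * ∑ n ∈ W t, (1 / N : ℝ))) := by
        refine sum_le_sum (fun t _ => ?_)
        split_ifs with h
        · rw [add_zero]; exact hgoodbd t h
        · have h1 := hbadbd t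
          have h2 := hWsum_nonneg t
          have h3 : 0 ≤ ε / 4 * ∑ n ∈ W t, (1 / N : ℝ) + C0 * E * η := by positivity
          linarith
    _ = ε / 4 + Ts.card * (C0 * E * η) +
          ∑ t ∈ Ts, (if good t then 0 else 2 * ∑ n ∈ W t, (1 / N : ℝ)) := by
        rw [sum_add_distrib, sum_add_distrib, ← mul_sum, hsum1, mul_one, sum_const, nsmul_eq_mul]
    _ ≤ ε / 4 + ε / 4 + ε / 4 := by
        refine add_le_add (add_le_add le_rfl ?_) ?_
        · have hE2 : E ≤ (yN N + 2) ^ m := by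
            rw [hE]
            have h9 : (P.card : ℝ) ≤ yN N + 1 := maj_P_card f.natDegree q a (yN N) (maj_yN_nonneg N)
            exact pow_le_pow_left₀ (by positivity) (by linarith) m
          have hqT : (q : ℝ) ≤ T := by exact_mod_cast hM.qT
          have hy0 := maj_yN_nonneg N
          calc (Ts.card : ℝ) * (C0 * E * η)
              ≤ ((2 * C1 + 1) * T) * (C0 * (yN N + 2) ^ m * (Cc * T * (yN N + 2) ^ m / N)) := by
                rw [hη]
                gcongr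
                linarith
            _ = (2 * C1 + 1) * C0 * Cc * ((T : ℝ) ^ 2 * (yN N + 2) ^ (2 * m)) / N := by
                rw [two_mul m, pow_add]; ring
            _ ≤ ε / 4 := herr
        · have h1 : ∑ t ∈ Ts, (if good t then 0 else 2 * ∑ n ∈ W t, (1 / N : ℝ)) =
              2 / N * (((Icc 1 N).filter (fun n => ¬ good (τ n))).card : ℝ) := by
            have h2 : ∀ t ∈ Ts, (if good t then 0 else 2 * ∑ n ∈ W t, (1 / N : ℝ)) =
                ∑ n ∈ W t, (if good (τ n) then (0 : ℝ) else 2 / N) := by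
              intro t _
              split_ifs with h
              · refine (sum_eq_zero (fun n hn => ?_)).symm
                have : τ n = t := (mem_filter.mp hn).2
                rw [this, if_pos h]
              · rw [mul_sum]
                refine sum_congr rfl (fun n hn => ?_)
                have : τ n = t := (mem_filter.mp hn).2
                rw [this, if_neg h]
                ring
            rw [sum_congr rfl h2]
            rw [sum_fiberwise_of_maps_to (fun n hn => mem_image_of_mem τ hn)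
              (fun n => if good (τ n) then (0 : ℝ) else 2 / N)]
            rw [sum_ite, sum_const_zero, zero_add, sum_const, nsmul_eq_mul]
            ring
          rw [h1]
          have h3 : (((Icc 1 N).filter (fun n => ¬ good (τ n))).card : ℝ) ≤ ε / 8 * N := by
            refine le_trans ?_ hbad
            have : (Icc 1 N).filter (fun n => ¬ good (τ n)) ⊆
                (Icc 1 N).filter (fun n => Cmu * (L2 N) ^ ((1 : ℝ) / 4) <
                  |majMu f N q a (tt f q a n) - L2 N|) := by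
              intro n hn
              rw [mem_filter] at hn ⊢
              exact ⟨hn.1, not_le.mp hn.2⟩
            exact_mod_cast card_le_card this
          calc 2 / N * (((Icc 1 N).filter (fun n => ¬ good (τ n))).card : ℝ)
              ≤ 2 / N * (ε / 8 * N) := by gcongr
            _ = ε / 4 := by field_simp; ring
    _ ≤ ε := by linarith

theorem major (f : ℝ[X]) (hf : ∃ j, 1 ≤ j ∧ Irrational (f.coeff j)) (ξ ε : ℝ) (hε : 0 < ε) :
    ∃ N0 : ℕ, ∀ (N T q : ℕ) (a : ℕ → ℤ), N0 ≤ N → MajD f N T q a → NonApp f N T → (T : ℝ) < thr N →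
    ‖(∑ n ∈ Icc 1 N, Complex.exp (Complex.I * ξ *
        (((omY f N n : ℝ) - L2 N) / Real.sqrt (L2 N) : ℝ))) / (N : ℂ) -
      Complex.exp (-(ξ : ℂ) ^ 2 / 2)‖ ≤ ε := by
  have hk : 1 ≤ f.natDegree := by
    obtain ⟨j, hj, hirr⟩ := hf
    exact hj.trans (le_natDegree_of_ne_zero (fun h => hirr ⟨0, by simp [h]⟩))
  obtain ⟨Nc, hNc⟩ := maj_core f hf ξ (ε / 2) (by positivity)
  obtain ⟨Co, To, hCo, hom⟩ := maj_om f hk
  obtain ⟨Td, Nd, hQ⟩ := maj_Q f hk
  obtain ⟨N4, hN4⟩ := maj_T4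
  obtain ⟨Ne, hNe⟩ := majD_tendsto f hf (max Td To)
  have eN : ∀ᶠ N : ℕ in atTop, 1 ≤ L2 N ∧ 1 ≤ Real.log (N : ℝ) ∧
      |ξ| * (Co + 6) * (L2 N) ^ (-((1 : ℝ) / 4)) ≤ ε / 2 := by
    have t4 : Tendsto (fun N : ℕ => |ξ| * (Co + 6) * (L2 N) ^ (-((1 : ℝ) / 4))) atTop
        (𝓝 (|ξ| * (Co + 6) * 0)) :=
      ((tendsto_rpow_neg_atTop (by norm_num : (0 : ℝ) < 1 / 4)).comp maj_L2_tendsto).const_mul _
    rw [mul_zero] at t4
    filter_upwards [maj_L2_tendsto.eventually_ge_atTop 1,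
      (Real.tendsto_log_atTop.comp tendsto_natCast_atTop_atTop).eventually_ge_atTop 1,
      t4.eventually_le_const (by positivity : (0 : ℝ) < ε / 2)] with N h1 h2 h3
    exact ⟨h1, h2, h3⟩
  obtain ⟨Nf, hNf⟩ := eN.exists_forall_of_atTop
  refine ⟨max (max Nc Nd) (max (max N4 Ne) (max Nf 1)), fun N T q a hN hM hNA hthr => ?_⟩
  simp only [max_le_iff] at hN
  obtain ⟨⟨hNc', hNd'⟩, ⟨hN4', hNe'⟩, hNf', hN1⟩ := hN
  have hT0 := hNe N hNe' T q a hM
  rw [max_le_iff] at hT0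
  obtain ⟨hTd, hTo⟩ := hT0
  have hT4 := hN4 N hN4' T hthr
  obtain ⟨hak, hQT⟩ := hQ N T q a hNd' hTd hT4 hM
  obtain ⟨hL1, hlN, hξ⟩ := hNf N hNf'
  have hcore := hNc N T q a hNc' hM hNA hthr
  have hTN : T ≤ N := (Nat.le_self_pow (by norm_num) T).trans hT4
  have hom' := hom N T q a hN1 hTo hTN hNA hak hM.q1 hQT
  have hN1' : (1 : ℝ) ≤ N := by exact_mod_cast hN1
  have hNpos : (0 : ℝ) < N := by linarith
  set s : ℝ := Real.sqrt (L2 N) with hsdef
  have hs2 : s ^ 2 = L2 N := Real.sq_sqrt (by linarith)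
  have hspos : 0 < s := Real.sqrt_pos.mpr (by linarith)
  obtain ⟨hx1, hx2, hx3, hx4, hx5⟩ := maj_log_quarter (L2 N) hL1
  have hlog : Real.log (1 + Real.log (1 + 3 * Real.log N)) ≤ 6 * (L2 N) ^ ((1 : ℝ) / 4) := by
    refine le_trans ?_ hx2
    have g2 : Real.log (1 + 3 * Real.log (N : ℝ)) ≤ 2 + L2 N := by
      calc Real.log (1 + 3 * Real.log (N : ℝ))
          ≤ Real.log (4 * Real.log N) := Real.log_le_log (by linarith) (by linarith)
        _ = Real.log 4 + L2 N := by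
            rw [Real.log_mul (by norm_num) (by linarith)]; rfl
        _ ≤ 2 + L2 N := by
            have h3 : Real.log 4 ≤ 2 := by
              rw [show (4 : ℝ) = 2 ^ 2 by norm_num, Real.log_pow]
              have := Real.log_two_lt_d9
              push_cast
              linarith
            linarith
    have g3 : 0 ≤ Real.log (1 + 3 * Real.log (N : ℝ)) := Real.log_nonneg (by linarith)
    exact Real.log_le_log (by linarith) (by linarith)
  have hdiff : ‖(∑ n ∈ Icc 1 N, Complex.exp (Complex.I * ξ *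
        (((omY f N n : ℝ) - L2 N) / s : ℝ))) / (N : ℂ) -
      ∑ n ∈ Icc 1 N, ((1 / N : ℝ) : ℂ) * Complex.exp (Complex.I * ξ *
        (((omG f N q a n : ℝ) - s ^ 2) / s : ℝ))‖ ≤ ε / 2 := by
    rw [← mul_sum, hs2]
    have e1 : (((1 / N : ℝ) : ℝ) : ℂ) = 1 / (N : ℂ) := by push_cast; ring
    rw [e1, div_eq_mul_one_div, mul_comm, ← mul_sub, ← sum_sub_distrib, norm_mul, norm_div,
      norm_one, Complex.norm_natCast]
    calc 1 / (N : ℝ) * ‖∑ n ∈ Icc 1 N, (Complex.exp (Complex.I * ξ *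
          (((omY f N n : ℝ) - L2 N) / s : ℝ)) - Complex.exp (Complex.I * ξ *
          (((omG f N q a n : ℝ) - L2 N) / s : ℝ)))‖
        ≤ 1 / (N : ℝ) * ∑ n ∈ Icc 1 N, |ξ| * (|(omY f N n : ℝ) - omG f N q a n| / s) := by
          gcongr
          refine norm_sum_le_of_le _ (fun n _ => ?_)
          refine (maj_exp_sub ξ _ _).trans ?_
          rw [← sub_div, sub_sub_sub_cancel_right, abs_div, abs_of_pos hspos]
      _ = |ξ| / s / N * ∑ n ∈ Icc 1 N, |(omY f N n : ℝ) - omG f N q a n| := by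
          rw [mul_sum, mul_sum]
          refine sum_congr rfl (fun n _ => ?_)
          ring
      _ ≤ |ξ| / s / N * ((Co + 6 * (L2 N) ^ ((1 : ℝ) / 4)) * N) := by
          gcongr
          refine hom'.trans ?_
          gcongr
      _ = |ξ| * (Co + 6 * (L2 N) ^ ((1 : ℝ) / 4)) / s := by
          field_simp
      _ ≤ |ξ| * ((Co + 6) * (L2 N) ^ ((1 : ℝ) / 4)) / s := by
          gcongr
          nlinarith
      _ = |ξ| * (Co + 6) * (L2 N) ^ (-((1 : ℝ) / 4)) := by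
          have h5 : s = (L2 N) ^ ((1 : ℝ) / 4) * (L2 N) ^ ((1 : ℝ) / 4) := by
            rw [hsdef, ← Real.rpow_add (by linarith), Real.sqrt_eq_rpow]
            norm_num
          rw [Real.rpow_neg (by linarith), h5]
          have h6 : (L2 N) ^ ((1 : ℝ) / 4) ≠ 0 := by positivity
          field_simp
      _ ≤ ε / 2 := hξ
  calc _ ≤ ‖(∑ n ∈ Icc 1 N, Complex.exp (Complex.I * ξ *
        (((omY f N n : ℝ) - L2 N) / s : ℝ))) / (N : ℂ) -
      ∑ n ∈ Icc 1 N, ((1 / N : ℝ) : ℂ) * Complex.exp (Complex.I * ξ *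
        (((omG f N q a n : ℝ) - s ^ 2) / s : ℝ))‖ + ‖∑ n ∈ Icc 1 N, ((1 / N : ℝ) : ℂ) *
        Complex.exp (Complex.I * ξ * (((omG f N q a n : ℝ) - s ^ 2) / s : ℝ)) -
        Complex.exp (-(ξ : ℂ) ^ 2 / 2)‖ := norm_sub_le_norm_sub_add_norm_sub _ _ _
    _ ≤ ε / 2 + ε / 2 := add_le_add hdiff hcore
    _ = ε := by ring

end EK75

end S_H75_EK_Maj

section S_H75_EK_Final

/-! Module FIN: the theorem. -/

open Polynomial Finset Filter Topology MeasureTheory ProbabilityTheory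
open scoped Real BigOperators

namespace EK75

/-- number of distinct prime divisors of the integer `m` (`0` for `m = 0`) -/
def omegaZ (m : ℤ) : ℕ := m.natAbs.primeFactors.card

lemma fin_natDegree (f : ℝ[X]) (hf : ∃ j, 1 ≤ j ∧ Irrational (f.coeff j)) : 1 ≤ f.natDegree := by
  obtain ⟨j, hj, hirr⟩ := hf
  exact hj.trans (le_natDegree_of_ne_zero (fun h => hirr ⟨0, by simp [h]⟩))

lemma fin_char (f : ℝ[X]) (hf : ∃ j, 1 ≤ j ∧ Irrational (f.coeff j)) (ξ : ℝ) :
    Tendsto (fun N : ℕ => (∑ n ∈ Icc 1 N, Complex.exp (Complex.I * ξ *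
        (((omY f N n : ℝ) - L2 N) / Real.sqrt (L2 N) : ℝ))) / (N : ℂ)) atTop
      (𝓝 (Complex.exp (-(ξ : ℂ) ^ 2 / 2))) := by
  have hk := fin_natDegree f hf
  rw [Metric.tendsto_atTop]
  intro ε hε
  obtain ⟨N1, h1⟩ := minor f hk ξ (ε / 2) (by positivity)
  obtain ⟨N2, h2⟩ := major f hf ξ (ε / 2) (by positivity)
  refine ⟨max (max N1 N2) 1, fun N hN => ?_⟩
  have hN1 : N1 ≤ N := ((le_max_left _ _).trans (le_max_left _ _)).trans hN
  have hN2 : N2 ≤ N := ((le_max_right _ _).trans (le_max_left _ _)).trans hN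
  have hN3 : 1 ≤ N := (le_max_right _ _).trans hN
  obtain ⟨T, q, a, hT, hM, hNA⟩ := majD_exists f N hN3
  rw [dist_eq_norm]
  rcases le_or_gt (thr N) T with h | h
  · exact (h1 N T hN1 hNA h).trans_lt (by linarith)
  · exact (h2 N T q a hN2 hM hNA h).trans_lt (by linarith)

lemma fin_L2_tendsto : Tendsto L2 atTop atTop := by
  unfold L2
  exact Real.tendsto_log_atTop.comp (Real.tendsto_log_atTop.comp tendsto_natCast_atTop_atTop)

lemma fin_bound (f : ℝ[X]) : ∃ C : ℝ, 1 ≤ C ∧ ∀ N n : ℕ, n ∈ Icc 1 N →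
    |f.eval (n : ℝ)| + 1 ≤ C * (N : ℝ) ^ f.natDegree := by
  refine ⟨∑ i ∈ range (f.natDegree + 1), |f.coeff i| + 1, ?_, ?_⟩
  · have : 0 ≤ ∑ i ∈ range (f.natDegree + 1), |f.coeff i| := sum_nonneg fun _ _ => abs_nonneg _
    linarith
  · intro N n hn
    rw [mem_Icc] at hn
    have hN1 : (1 : ℝ) ≤ N := by exact_mod_cast hn.1.trans hn.2
    have hn1 : (1 : ℝ) ≤ n := by exact_mod_cast hn.1
    have hnN : (n : ℝ) ≤ N := by exact_mod_cast hn.2
    have hNk : (1 : ℝ) ≤ (N : ℝ) ^ f.natDegree := one_le_pow₀ hN1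
    rw [eval_eq_sum_range]
    calc |∑ i ∈ range (f.natDegree + 1), f.coeff i * (n : ℝ) ^ i| + 1
        ≤ ∑ i ∈ range (f.natDegree + 1), |f.coeff i| * (N : ℝ) ^ f.natDegree + 1 := by
          gcongr
          refine (abs_sum_le_sum_abs _ _).trans (sum_le_sum fun i hi => ?_)
          rw [abs_mul, abs_of_nonneg (by positivity : (0 : ℝ) ≤ (n : ℝ) ^ i)]
          gcongr
          calc (n : ℝ) ^ i ≤ (N : ℝ) ^ i := by gcongr
            _ ≤ (N : ℝ) ^ f.natDegree := pow_le_pow_right₀ hN1 (by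
                rw [mem_range] at hi; omega)
      _ ≤ (∑ i ∈ range (f.natDegree + 1), |f.coeff i| + 1) * (N : ℝ) ^ f.natDegree := by
          rw [add_mul, sum_mul]
          linarith

/-- a nonzero integer has at most `log |m| / log y` prime factors larger than `y` -/
lemma fin_large (m : ℤ) (hm : m ≠ 0) (y : ℝ) (hy : 1 < y) :
    (((prLe y).filter (fun p : ℕ => (p : ℤ) ∣ m)).card : ℝ) ≤ omegaZ m ∧
    (omegaZ m : ℝ) - (((prLe y).filter (fun p : ℕ => (p : ℤ) ∣ m)).card : ℝ) ≤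
      Real.log |(m : ℝ)| / Real.log y := by
  have hm' : m.natAbs ≠ 0 := Int.natAbs_ne_zero.mpr hm
  have hset : (prLe y).filter (fun p : ℕ => (p : ℤ) ∣ m) =
      m.natAbs.primeFactors.filter (fun p => p ≤ ⌊y⌋₊) := by
    ext p
    simp only [prLe, mem_filter, mem_range, Nat.mem_primeFactors, Int.natCast_dvd]
    constructor
    · rintro ⟨⟨h1, h2⟩, h3⟩
      exact ⟨⟨h2, h3, hm'⟩, by omega⟩
    · rintro ⟨⟨h1, h2, h3⟩, h4⟩
      exact ⟨⟨by omega, h1⟩, h2⟩
  have hcard : (m.natAbs.primeFactors.filter (fun p => p ≤ ⌊y⌋₊)).card +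
      (m.natAbs.primeFactors.filter (fun p => ¬ p ≤ ⌊y⌋₊)).card = omegaZ m := by
    unfold omegaZ
    exact card_filter_add_card_filter_not _
  rw [hset]
  refine ⟨by exact_mod_cast (card_filter_le _ _), ?_⟩
  have hr : (omegaZ m : ℝ) - ((m.natAbs.primeFactors.filter (fun p => p ≤ ⌊y⌋₊)).card : ℝ) =
      ((m.natAbs.primeFactors.filter (fun p => ¬ p ≤ ⌊y⌋₊)).card : ℝ) := by
    rw [← hcard]; push_cast; ring
  rw [hr, le_div_iff₀ (Real.log_pos hy)]
  set r := (m.natAbs.primeFactors.filter (fun p => ¬ p ≤ ⌊y⌋₊)).card with hrdef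
  have hprod : y ^ r ≤ |(m : ℝ)| := by
    have h1 : y ^ r ≤ ∏ p ∈ m.natAbs.primeFactors.filter (fun p => ¬ p ≤ ⌊y⌋₊), (p : ℝ) := by
      rw [hrdef, ← prod_const]
      refine prod_le_prod (fun _ _ => by linarith) (fun p hp => ?_)
      rw [mem_filter] at hp
      have : ⌊y⌋₊ < p := by omega
      exact ((Nat.floor_lt (by linarith)).mp this).le
    have h2 : (∏ p ∈ m.natAbs.primeFactors.filter (fun p => ¬ p ≤ ⌊y⌋₊), p) ∣ m.natAbs :=
      (prod_dvd_prod_of_subset _ _ _ (filter_subset _ _)).trans (Nat.prod_primeFactors_dvd _)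
    have h3 : ((∏ p ∈ m.natAbs.primeFactors.filter (fun p => ¬ p ≤ ⌊y⌋₊), p : ℕ) : ℝ) ≤
        (m.natAbs : ℝ) := by exact_mod_cast Nat.le_of_dvd (Nat.pos_of_ne_zero hm') h2
    have h4 : (m.natAbs : ℝ) = |(m : ℝ)| := by
      rw [Nat.cast_natAbs]; simp
    push_cast at h3
    linarith
  calc (r : ℝ) * Real.log y = Real.log (y ^ r) := by rw [Real.log_pow]
    _ ≤ Real.log |(m : ℝ)| := Real.log_le_log (by positivity) hprod

lemma fin_log_yN (N : ℕ) (hN : 1 ≤ N) : Real.log (yN N) = (L2 N) ^ (-(1 : ℝ) / 4) * Real.log N := by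
  unfold yN
  exact Real.log_rpow (by exact_mod_cast hN) _

lemma fin_exp_sub (ξ x y : ℝ) : ‖Complex.exp (Complex.I * ξ * (x : ℝ)) -
    Complex.exp (Complex.I * ξ * (y : ℝ))‖ ≤ |ξ| * |x - y| := by
  have h : ∀ z : ℝ, Complex.exp (Complex.I * ξ * z) = Complex.exp (((ξ * z : ℝ) : ℂ) * Complex.I) := by
    intro z; congr 1; push_cast; ring
  rw [h x, h y]
  have h2 : Complex.exp (((ξ * x : ℝ) : ℂ) * Complex.I) - Complex.exp (((ξ * y : ℝ) : ℂ) * Complex.I) =
      Complex.exp (((ξ * y : ℝ) : ℂ) * Complex.I) *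
        (Complex.exp (Complex.I * ((ξ * x - ξ * y : ℝ) : ℂ)) - 1) := by
    rw [mul_sub, mul_one, ← Complex.exp_add]
    congr 2
    push_cast; ring
  rw [h2, norm_mul, Complex.norm_exp_ofReal_mul_I, one_mul]
  refine (Real.norm_exp_I_mul_ofReal_sub_one_le).trans ?_
  rw [Real.norm_eq_abs, ← mul_sub, abs_mul]

lemma fin_exp_norm (ξ x : ℝ) : ‖Complex.exp (Complex.I * ξ * (x : ℝ))‖ = 1 := by
  have h : Complex.exp (Complex.I * ξ * x) = Complex.exp (((ξ * x : ℝ) : ℂ) * Complex.I) := by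
    congr 1; push_cast; ring
  rw [h, Complex.norm_exp_ofReal_mul_I]

open Classical in
theorem main_theorem (f : ℝ[X]) (hf : ∃ j, 1 ≤ j ∧ Irrational (f.coeff j)) (t : ℝ) :
    Tendsto (fun N : ℕ => (((Icc 1 N).filter (fun n : ℕ =>
        ((omegaZ ⌊f.eval (n : ℝ)⌋ : ℝ) - Real.log (Real.log N)) / Real.sqrt (Real.log (Real.log N))
          ≤ t)).card : ℝ) / N) atTop (𝓝 ((gaussianReal 0 1).real (Set.Iic t))) := by
  have hk := fin_natDegree f hf
  have hdeg : 0 < f.degree := natDegree_pos_iff_degree_pos.mp hk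
  refine cdf_of_char (fun N n => ((omegaZ ⌊f.eval (n : ℝ)⌋ : ℝ) - Real.log (Real.log N)) /
    Real.sqrt (Real.log (Real.log N))) (fun ξ => ?_) t
  have hchar := fin_char f hf ξ
  obtain ⟨C, hC1, hC⟩ := fin_bound f
  -- eventually the floor is nonzero
  have habs : Tendsto (fun n : ℕ => |f.eval (n : ℝ)|) atTop atTop :=
    (Polynomial.abs_tendsto_atTop f hdeg).comp tendsto_natCast_atTop_atTop
  obtain ⟨n0, hn0⟩ := (habs.eventually_ge_atTop 1).exists_forall_of_atTop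
  have hfl : ∀ n : ℕ, n0 ≤ n → ⌊f.eval (n : ℝ)⌋ ≠ 0 := by
    intro n hn h0
    have h1 := hn0 n hn
    rw [Int.floor_eq_zero_iff] at h0
    rw [abs_of_nonneg h0.1] at h1
    exact absurd h0.2 (not_lt.mpr h1)
  -- the difference tends to zero
  set k := f.natDegree with hkdef
  have hdiff : Tendsto (fun N : ℕ => (∑ n ∈ Icc 1 N, Complex.exp (Complex.I * ξ *
        (((omegaZ ⌊f.eval (n : ℝ)⌋ : ℝ) - Real.log (Real.log N)) /
          Real.sqrt (Real.log (Real.log N)) : ℝ))) / (N : ℂ) -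
      (∑ n ∈ Icc 1 N, Complex.exp (Complex.I * ξ *
        (((omY f N n : ℝ) - L2 N) / Real.sqrt (L2 N) : ℝ))) / (N : ℂ)) atTop (𝓝 0) := by
    have hbd : ∀ᶠ N : ℕ in atTop, ‖(∑ n ∈ Icc 1 N, Complex.exp (Complex.I * ξ *
        (((omegaZ ⌊f.eval (n : ℝ)⌋ : ℝ) - Real.log (Real.log N)) /
          Real.sqrt (Real.log (Real.log N)) : ℝ))) / (N : ℂ) -
      (∑ n ∈ Icc 1 N, Complex.exp (Complex.I * ξ *
        (((omY f N n : ℝ) - L2 N) / Real.sqrt (L2 N) : ℝ))) / (N : ℂ)‖ ≤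
        |ξ| * ((k + 1) * (L2 N) ^ (-(1 : ℝ) / 4)) + 2 * n0 * (N : ℝ)⁻¹ := by
      have e1 : ∀ᶠ N : ℕ in atTop, 1 ≤ L2 N := fin_L2_tendsto.eventually_ge_atTop 1
      have e2 : ∀ᶠ N : ℕ in atTop, Real.log C ≤ Real.log (N : ℝ) :=
        (Real.tendsto_log_atTop.comp tendsto_natCast_atTop_atTop).eventually_ge_atTop _
      have e3 : ∀ᶠ N : ℕ in atTop, 1 ≤ Real.log (N : ℝ) :=
        (Real.tendsto_log_atTop.comp tendsto_natCast_atTop_atTop).eventually_ge_atTop _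
      filter_upwards [e1, e2, e3, eventually_ge_atTop 1] with N h1 h2 h3 h4
      have hN0 : (0 : ℝ) < N := by exact_mod_cast h4
      rw [← sub_div, norm_div, Complex.norm_natCast, div_le_iff₀ hN0, ← sum_sub_distrib]
      have hL2 : Real.log (Real.log N) = L2 N := rfl
      have hyN : 1 < yN N := by
        unfold yN
        refine Real.one_lt_rpow ?_ (by positivity)
        by_contra hcon
        have : Real.log (N : ℝ) ≤ 0 := Real.log_nonpos hN0.le (not_lt.mp hcon)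
        linarith
      have hterm : ∀ n ∈ Icc 1 N, ‖Complex.exp (Complex.I * ξ *
          (((omegaZ ⌊f.eval (n : ℝ)⌋ : ℝ) - Real.log (Real.log N)) /
          Real.sqrt (Real.log (Real.log N)) : ℝ)) - Complex.exp (Complex.I * ξ *
          (((omY f N n : ℝ) - L2 N) / Real.sqrt (L2 N) : ℝ))‖ ≤
          |ξ| * ((k + 1) * (L2 N) ^ (-(1 : ℝ) / 4)) + (if n < n0 then 2 else 0) := by
        intro n hn
        split_ifs with hlt
        · refine (norm_sub_le _ _).trans ?_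
          rw [fin_exp_norm, fin_exp_norm]
          have : 0 ≤ |ξ| * ((k + 1) * (L2 N) ^ (-(1 : ℝ) / 4)) := by positivity
          linarith
        · have hne := hfl n (not_lt.mp hlt)
          have g12 := fin_large _ hne (yN N) hyN
          have g1 : ((omY f N n : ℕ) : ℝ) ≤ omegaZ ⌊f.eval (n : ℝ)⌋ := g12.1
          have g2 : (omegaZ ⌊f.eval (n : ℝ)⌋ : ℝ) - ((omY f N n : ℕ) : ℝ) ≤
            Real.log |((⌊f.eval (n : ℝ)⌋ : ℤ) : ℝ)| / Real.log (yN N) := g12.2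
          refine (fin_exp_sub ξ _ _).trans ?_
          rw [add_zero]
          refine mul_le_mul_of_nonneg_left ?_ (abs_nonneg _)
          rw [hL2, ← sub_div, sub_sub_sub_cancel_right, abs_div,
            abs_of_nonneg (Real.sqrt_nonneg (L2 N)), abs_of_nonneg (sub_nonneg.mpr g1)]
          have hsq : 0 < Real.sqrt (L2 N) := Real.sqrt_pos.mpr (by linarith)
          rw [div_le_iff₀ hsq]
          refine g2.trans ?_
          rw [fin_log_yN N h4]
          have hfl1 : |((⌊f.eval (n : ℝ)⌋ : ℤ) : ℝ)| ≤ C * (N : ℝ) ^ k := by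
            refine le_trans ?_ (hC N n hn)
            have h5 := Int.floor_le (f.eval (n : ℝ))
            have h6 := Int.lt_floor_add_one (f.eval (n : ℝ))
            rw [abs_le]
            constructor
            · have := neg_abs_le (f.eval (n : ℝ)); linarith
            · have := le_abs_self (f.eval (n : ℝ)); linarith
          have hpos : 0 < |((⌊f.eval (n : ℝ)⌋ : ℤ) : ℝ)| := by
            rw [abs_pos]; exact_mod_cast hne
          have hlog : Real.log |((⌊f.eval (n : ℝ)⌋ : ℤ) : ℝ)| ≤ (k + 1) * Real.log N := by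
            refine (Real.log_le_log hpos hfl1).trans ?_
            rw [Real.log_mul (by linarith) (by positivity), Real.log_pow]
            nlinarith
          have hL0 : 0 < L2 N := by linarith
          rw [div_le_iff₀ (by positivity)]
          have hs : Real.sqrt (L2 N) = (L2 N) ^ ((1 : ℝ) / 2) := Real.sqrt_eq_rpow _
          have hmul : (L2 N) ^ (-(1 : ℝ) / 4) * Real.sqrt (L2 N) * (L2 N) ^ (-(1 : ℝ) / 4) = 1 := by
            rw [hs, ← Real.rpow_add hL0, ← Real.rpow_add hL0]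
            norm_num
          calc Real.log |((⌊f.eval (n : ℝ)⌋ : ℤ) : ℝ)| ≤ (k + 1) * Real.log N := hlog
            _ = (k + 1) * Real.log N *
              ((L2 N) ^ (-(1 : ℝ) / 4) * Real.sqrt (L2 N) * (L2 N) ^ (-(1 : ℝ) / 4)) := by
                rw [hmul, mul_one]
            _ = _ := by ring
      refine (norm_sum_le _ _).trans ((sum_le_sum hterm).trans ?_)
      rw [sum_add_distrib, sum_const, Nat.card_Icc, Nat.add_sub_cancel, nsmul_eq_mul, add_mul,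
        mul_comm (N : ℝ)]
      have hcnt : ((((Icc 1 N).filter (fun n => n < n0)).card : ℕ) : ℝ) ≤ n0 := by
        have : ((Icc 1 N).filter (fun n => n < n0)).card ≤ n0 :=
          calc ((Icc 1 N).filter (fun n => n < n0)).card ≤ (range n0).card :=
                card_le_card (fun n hn => by rw [mem_filter] at hn; exact mem_range.mpr hn.2)
            _ = n0 := card_range _
        exact_mod_cast this
      have hsum : (∑ n ∈ Icc 1 N, (if n < n0 then (2 : ℝ) else 0)) ≤ 2 * n0 * (N : ℝ)⁻¹ * N := by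
        rw [sum_ite, sum_const_zero, add_zero, sum_const, nsmul_eq_mul, mul_assoc (2 * (n0 : ℝ)),
          inv_mul_cancel₀ hN0.ne']
        linarith
      linarith
    refine squeeze_zero_norm' hbd ?_
    have t1 : Tendsto (fun N : ℕ => (L2 N) ^ (-(1 : ℝ) / 4)) atTop (𝓝 0) := by
      have := (tendsto_rpow_neg_atTop (y := (1 : ℝ) / 4) (by norm_num)).comp fin_L2_tendsto
      refine this.congr (fun N => ?_)
      simp only [Function.comp]
      congr 1; ring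
    have t2 : Tendsto (fun N : ℕ => ((N : ℝ))⁻¹) atTop (𝓝 0) :=
      tendsto_inv_atTop_zero.comp tendsto_natCast_atTop_atTop
    have := ((t1.const_mul ((k : ℝ) + 1)).const_mul |ξ|).add (t2.const_mul (2 * (n0 : ℝ)))
    simpa using this
  have := hdiff.add hchar
  simpa using this

end EK75

end S_H75_EK_Final
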